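import Pool.Agent.Helper771.CInv.Defs

set_option linter.all false

open scoped BigOperators

namespace CInv

/-! ### Natural differential operators on functions -/

section OpFormula

variable {n : ℕ} {A : Type} [CommRing A] [Algebra ℝ A]

/-- `∇^k f`, a covariant tensor with `k` indices. -/
noncomputable def nablaF (D : Fin n → A → A) (g gi : Fin n → Fin n → A) (f : A) :
    (k : ℕ) → (Fin k → Fin n) → A
  | 0 => fun _ => f
  | k + 1 => covD D g gi (nablaF D g gi f k)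

/-- The Laplacian `Δ f = g^{ij} (∂_i ∂_j f - Γ^k_{ij} ∂_k f)`. -/
noncomputable def lap (D : Fin n → A → A) (g gi : Fin n → Fin n → A) (f : A) : A :=
  ∑ i, ∑ j, gi i j * (D i (D j f) - ∑ k, chr D g gi k i j * D k f)

end OpFormula

/-- The combinatorial data of a complete contraction of
`∇^{l_1} P ⊗ ... ⊗ ∇^{l_q} P ⊗ ∇^k f`: the number `q ≥ 0` of factors `P`, the orders `l_i`,
the order `k`, and a pairing `e` of all the indices. -/
structure OpContraction where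
  q : ℕ
  l : Fin q → ℕ
  k : ℕ
  m : ℕ
  e : Fin m × Fin 2 ≃ (Σ i : Fin q, Fin (l i + 2)) ⊕ Fin k

section OpFormula

variable {n : ℕ} {A : Type} [CommRing A] [Algebra ℝ A]

/-- The value of a complete contraction: all index pairs are contracted with the inverse metric. -/
noncomputable def OpContraction.eval (C : OpContraction) (D : Fin n → A → A)
    (g gi : Fin n → Fin n → A) (f : A) : A :=
  ∑ a : ((Σ i : Fin C.q, Fin (C.l i + 2)) ⊕ Fin C.k → Fin n),
    (∏ j : Fin C.m, gi (a (C.e (j, 0))) (a (C.e (j, 1))))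
      * (∏ i : Fin C.q, nablaP D g gi (C.l i) (fun p => a (Sum.inl ⟨i, p⟩)))
      * nablaF D g gi f C.k (fun p => a (Sum.inr p))

/-- A real linear combination of complete contractions, as an operator on functions. -/
noncomputable def opInv (c : OpContraction →₀ ℝ) (D : Fin n → A → A)
    (g gi : Fin n → Fin n → A) (f : A) : A :=
  c.sum fun C t => t • C.eval D g gi f

/-- The operator `f ↦ Δ^{n/2} f + ∑ c_C C(f)`. -/
noncomputable def opD (c : OpContraction →₀ ℝ) (D : Fin n → A → A)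
    (g gi : Fin n → Fin n → A) (f : A) : A :=
  (lap D g gi)^[n / 2] f + opInv c D g gi f

end OpFormula

/-- `g` is a smooth pseudo-Riemannian metric on the open set `U` of `ℝ^n`. -/
structure IsPMetricOn {n : ℕ} (U : Set (Fin n → ℝ))
    (g : (Fin n → ℝ) → Matrix (Fin n) (Fin n) ℝ) : Prop where
  smooth : ∀ i j, ContDiffOn ℝ (⊤ : ℕ∞) (fun x => g x i j) U
  symm : ∀ x ∈ U, ∀ i j, g x i j = g x j i
  det : ∀ x ∈ U, (g x).det ≠ 0

/-- The value at `x` of the operator `opD c`, for the metric `g` and the function `f`. -/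
noncomputable def opVal {n : ℕ} (c : OpContraction →₀ ℝ)
    (g : (Fin n → ℝ) → Matrix (Fin n) (Fin n) ℝ) (f : (Fin n → ℝ) → ℝ) (x : Fin n → ℝ) : ℝ :=
  opD c pd (fun i j y => g y i j) (fun i j y => (g y)⁻¹ i j) f x

section

variable {n : ℕ} {A : Type} [CommRing A]

/-- The matrix of the ambient metric `2ρ dt² + 2t dt dρ + t² g_{ij} dx^i dx^j`
in the coordinates `(t, ρ, x_1, ..., x_n)`. -/
def amb (t ρ : A) (g : Fin n → Fin n → A) : Fin (n + 2) → Fin (n + 2) → A :=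
  Matrix.vecCons (Matrix.vecCons (2 * ρ) (Matrix.vecCons t fun _ => 0))
    (Matrix.vecCons (Matrix.vecCons t fun _ => 0)
      (fun i => Matrix.vecCons 0 (Matrix.vecCons 0 (fun j => t ^ 2 * g i j))))

end

/-! ### The ambient metric on open subsets of `ℝ^{n+2}`, coordinates `(t, ρ, x_1, ..., x_n)` -/

/-- the point `(t, 0, x)` of `ℝ^{n+2}` -/
def apt {n : ℕ} (t : ℝ) (x : Fin n → ℝ) : Fin (n + 2) → ℝ :=
  Matrix.vecCons t (Matrix.vecCons 0 x)

/-- the coordinates `x` of the point `(t, ρ, x)` of `ℝ^{n+2}` -/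
def xpart {n : ℕ} (X : Fin (n + 2) → ℝ) : Fin n → ℝ := fun i => X i.succ.succ

/-- The ambient metric `2ρ dt² + 2t dt dρ + t² g_ρ` of the family `G ρ x = g_ρ(x)`. -/
def ambMat {n : ℕ} (G : ℝ → (Fin n → ℝ) → Matrix (Fin n) (Fin n) ℝ) (X : Fin (n + 2) → ℝ) :
    Matrix (Fin (n + 2)) (Fin (n + 2)) ℝ :=
  Matrix.of (amb (X 0) (X 1) (fun i j => G (X 1) (xpart X) i j))

/-- The Ricci tensor of the ambient metric. -/
noncomputable def ambRicci {n : ℕ} (G : ℝ → (Fin n → ℝ) → Matrix (Fin n) (Fin n) ℝ)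
    (I J : Fin (n + 2)) : (Fin (n + 2) → ℝ) → ℝ :=
  ric pd (fun I J X => ambMat G X I J) (fun I J X => (ambMat G X)⁻¹ I J) I J

/-- The Laplacian of the ambient metric. -/
noncomputable def ambLap {n : ℕ} (G : ℝ → (Fin n → ℝ) → Matrix (Fin n) (Fin n) ℝ) :
    ((Fin (n + 2) → ℝ) → ℝ) → ((Fin (n + 2) → ℝ) → ℝ) :=
  lap pd (fun I J X => ambMat G X I J) (fun I J X => (ambMat G X)⁻¹ I J)

/-- `F ρ x` is smooth near `{0} × U`. -/
def SmoothNear {n : ℕ} (U : Set (Fin n → ℝ)) (F : ℝ → (Fin n → ℝ) → ℝ) : Prop :=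
  ∃ V : Set (ℝ × (Fin n → ℝ)), IsOpen V ∧ (∀ x ∈ U, ((0 : ℝ), x) ∈ V) ∧
    ContDiffOn ℝ (⊤ : ℕ∞) (fun p : ℝ × (Fin n → ℝ) => F p.1 p.2) V

/-- `2ρ dt² + 2t dt dρ + t² g_ρ` is a (Fefferman-Graham) ambient metric for `g` over `U`:
`g_0 = g`, and the components `Ric_{ij}` of its Ricci tensor are `O(ρ^{n/2-1})`. -/
structure IsAmbient {n : ℕ} (U : Set (Fin n → ℝ)) (g : (Fin n → ℝ) → Matrix (Fin n) (Fin n) ℝ)
    (G : ℝ → (Fin n → ℝ) → Matrix (Fin n) (Fin n) ℝ) : Prop where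
  smooth : ∀ i j, SmoothNear U (fun ρ x => G ρ x i j)
  symm : ∀ ρ x i j, G ρ x i j = G ρ x j i
  init : ∀ x ∈ U, G 0 x = g x
  ricci : ∀ t : ℝ, 0 < t → ∀ x ∈ U, ∀ i j : Fin n, ∀ m < n / 2 - 1,
    (pd 1)^[m] (ambRicci G i.succ.succ j.succ.succ) (apt t x) = 0

end CInv
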