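import Pool.Agent.Helper767.Gjms.Base

set_option linter.all false

open scoped BigOperators

namespace CInv

/-! ### Abstract natural operators -/

/-- An abstract natural linear operator on functions. -/
structure NatOp (n : ℕ) where
  op : ∀ (A : Type) [CommRing A] [Algebra ℝ A], (Fin n → A → A) → (Fin n → Fin n → A) →
    (Fin n → Fin n → A) → A → A
  nat : ∀ (A B : Type) [CommRing A] [Algebra ℝ A] [CommRing B] [Algebra ℝ B]
    (DA : Fin n → A → A) (DB : Fin n → B → B) (Rel : A → B → Prop), RelHom DA DB Rel →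
    ∀ (gA giA : Fin n → Fin n → A) (gB giB : Fin n → Fin n → B) (FA : A) (FB : B),
      (∀ i j, Rel (gA i j) (gB i j)) → (∀ i j, Rel (giA i j) (giB i j)) → Rel FA FB →
      Rel (op A DA gA giA FA) (op B DB gB giB FB)
  lin : ∀ (A : Type) [CommRing A] [Algebra ℝ A] (D : Fin n → A → A), IsDer D →
    ∀ (g gi : Fin n → Fin n → A), IsMetric g gi → ∀ (c F : A), (∀ i, D i c = 0) →
      op A D g gi (c * F) = c * op A D g gi F
  cov : ∀ (A B : Type) [CommRing A] [Algebra ℝ A] [CommRing B] [Algebra ℝ B]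
    (D : Fin n → A → A) (D' : Fin n → B → B), IsDer D → IsDer D' →
    ∀ (φ : A →+* B) (J K : Fin n → Fin n → B), CoordChange D D' φ J K →
    ∀ (g gi : Fin n → Fin n → A), IsMetric g gi → ∀ F : A,
      op B D' (pull φ J g) (pullInv φ K gi) (φ F) = φ (op A D g gi F)

/-- the operator vanishes on Ricci flat metrics -/
def OnShell {n : ℕ} (I : NatOp n) : Prop :=
  ∀ (A : Type) [CommRing A] [Algebra ℝ A] (D : Fin n → A → A), IsDer D →
    ∀ (g gi : Fin n → Fin n → A), IsMetric g gi → (∀ i j, ric D g gi i j = 0) →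
      ∀ F : A, I.op A D g gi F = 0

/-- infinitesimal conformal covariance of weight `-n`, at the origin, for polynomial metrics -/
def ConfAt0 {n : ℕ} (I : NatOp n) : Prop :=
  ∀ (R : Type) [CommRing R] [Algebra ℝ R] (s : R), s * s = 0 →
    ∀ (H gi : Fin n → Fin n → MvPolynomial (Fin n) R), IsMetric (met H) gi →
    ∀ f F : MvPolynomial (Fin n) R,
      MvPolynomial.constantCoeff (I.op (MvPolynomial (Fin n) R) (fun i => pdv i)
          (fun i j => (1 + MvPolynomial.C s * f) * met H i j)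
          (fun i j => (1 - MvPolynomial.C s * f) * gi i j) F)
        = (1 - ((n : ℝ) / 2) • (s * MvPolynomial.constantCoeff f))
          * MvPolynomial.constantCoeff (I.op (MvPolynomial (Fin n) R) (fun i => pdv i) (met H) gi F)

/-- conformal invariance of weight `-n` for Riemannian metrics on open subsets of `ℝ^n` -/
def RealConf {n : ℕ} (I : NatOp n) : Prop :=
  ∀ (U : Set (Fin n → ℝ)), IsOpen U → ∀ g : (Fin n → ℝ) → Matrix (Fin n) (Fin n) ℝ,
    IsMetricOn U g → ∀ ω : (Fin n → ℝ) → ℝ, ContDiffOn ℝ (⊤ : ℕ∞) ω U →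
    ∀ f : (Fin n → ℝ) → ℝ, ContDiffOn ℝ (⊤ : ℕ∞) f U → ∀ x ∈ U,
      I.op ((Fin n → ℝ) → ℝ) pd (fun i j y => (Real.exp (2 * ω y) • g y) i j)
          (fun i j y => (Real.exp (2 * ω y) • g y)⁻¹ i j) f x
        = Real.exp (-(n : ℝ) * ω x)
          * I.op ((Fin n → ℝ) → ℝ) pd (fun i j y => g y i j) (fun i j y => (g y)⁻¹ i j) f x

/-! ### The universal ring with the jets of a function -/

/-- universal derivations; the variables `Sum.inr w` are the derivatives of the function -/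
noncomputable def UDF {n : ℕ} (a : Fin n) (p : MvPolynomial (UV n ⊕ List (Fin n)) ℝ) :
    MvPolynomial (UV n ⊕ List (Fin n)) ℝ :=
  MvPolynomial.mkDerivation ℝ (fun v : UV n ⊕ List (Fin n) => match v with
    | Sum.inl (Sum.inl (i, j, w)) =>
        (MvPolynomial.X (Sum.inl (Sum.inl (i, j, a :: w))) : MvPolynomial (UV n ⊕ List (Fin n)) ℝ)
    | Sum.inl (Sum.inr (i, j)) => - ∑ k, ∑ l, MvPolynomial.X (Sum.inl (Sum.inr (i, k)))
        * MvPolynomial.X (Sum.inl (Sum.inl (k, l, [a]))) * MvPolynomial.X (Sum.inl (Sum.inr (l, j)))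
    | Sum.inr w => MvPolynomial.X (Sum.inr (a :: w))) p

/-- Coefficients of an operator: `Φ s` is the coefficient of the derivative `∂^s F`. -/
abbrev OpPhi (n : ℕ) : Type := Multiset (Fin n) →₀ MvPolynomial (JV n) ℝ

/-- the derivatives at `0` of a polynomial -/
noncomputable def J0s {n : ℕ} {R : Type} [CommRing R] (F : MvPolynomial (Fin n) R)
    (s : Multiset (Fin n)) : R :=
  MvPolynomial.constantCoeff (Dw pdv s.toList F)

/-- `∑_s Φ_s(jet of H) ∂^s F` -/
noncomputable def Ejet {n : ℕ} {A : Type} [CommRing A] [Algebra ℝ A] (Φ : OpPhi n)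
    (D : Fin n → A → A) (H : Fin n → Fin n → A) (F : A) : A :=
  Φ.sum fun s p => MvPolynomial.aeval (jet D H) p * Ds D s F

/-- the same at the origin, for polynomial data -/
noncomputable def E0 {n : ℕ} {R : Type} [CommRing R] [Algebra ℝ R] (Φ : OpPhi n)
    (H : Fin n → Fin n → MvPolynomial (Fin n) R) (F : MvPolynomial (Fin n) R) : R :=
  Φ.sum fun s p => MvPolynomial.aeval (J0 H) p * J0s F s

/-- The universal coefficients attached to `I`. -/
structure GoodOp (n : ℕ) (I : NatOp n) (N : ℕ) (Φ : OpPhi n) : Prop where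
  alg : ∀ (A : Type) [CommRing A] [Algebra ℝ A] (D : Fin n → A → A), IsDer D →
    ∀ (H gi : Fin n → Fin n → A), IsMetric (met H) gi → ∀ F : A,
      Ejet Φ D H F = (Matrix.of (met H)).det ^ N * I.op A D (met H) gi F
  fn : ∀ (U : Set (Fin n → ℝ)), IsOpen U → ∀ g : (Fin n → ℝ) → Matrix (Fin n) (Fin n) ℝ,
    IsPMetricOn U g → ∀ f : (Fin n → ℝ) → ℝ, ContDiffOn ℝ (⊤ : ℕ∞) f U → ∀ x ∈ U,
      (Φ.sum fun s p => MvPolynomial.aeval (fun v : JV n =>
          (Ds pd v.2.2 (fun y => g y v.1 v.2.1 - if v.1 = v.2.1 then 1 else 0) x : ℝ)) p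
            * Ds pd s f x)
        = (g x).det ^ N * I.op ((Fin n → ℝ) → ℝ) pd (fun i j y => g y i j)
            (fun i j y => (g y)⁻¹ i j) f x
  sym : ∀ (s : Multiset (Fin n)) (A : Type) [CommRing A] [Algebra ℝ A] (y : JV n → A),
    MvPolynomial.aeval (fun v => (1 / 2 : ℝ) • (y v + y (v.2.1, v.1, v.2.2))) (Φ s)
      = MvPolynomial.aeval y (Φ s)

/-- infinitesimal conformal covariance at the level of the coefficients -/
def ConfPhiI (n N : ℕ) (Φ : OpPhi n) : Prop :=
  ∀ (R : Type) [CommRing R] [Algebra ℝ R] (s : R), s * s = 0 →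
    ∀ (H gi : Fin n → Fin n → MvPolynomial (Fin n) R), IsMetric (met H) gi →
    ∀ f F : MvPolynomial (Fin n) R,
      E0 Φ (fun i j => (1 + MvPolynomial.C s * f) * met H i j - flat _ i j) F
        = (1 + ((n : ℝ) * N - (n : ℝ) / 2) • (s * MvPolynomial.constantCoeff f)) * E0 Φ H F

/-- the `r`-linear forms: order `r` part at the flat metric, with spectator `v` -/
noncomputable def BV {n : ℕ} (r : ℕ) (Φ : OpPhi n) (v : MvPolynomial (Fin n) ℂ)
    (h : Fin r → Mx n) : ℂ :=
  Φ.sum fun s p => polar r (MvPolynomial.map (algebraMap ℝ ℂ) p) (fun i => J0 (h i)) * J0s v s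

/-- The properties of the forms `BV` that the core argument uses. -/
structure GoodFormV (n r : ℕ)
    (B : MvPolynomial (Fin n) ℂ →ₗ[ℂ] MultilinearMap ℂ (fun _ : Fin r => Mx n) ℂ) : Prop where
  gauge : ∀ (v : MvPolynomial (Fin n) ℂ) (h : Fin r → Mx n) (j : Fin r)
    (X : Fin n → MvPolynomial (Fin n) ℂ), B v (Function.update h j (lieEta X)) = 0
  weyl : ∀ (v : MvPolynomial (Fin n) ℂ) (h : Fin r → Mx n) (j : Fin r)
    (f : MvPolynomial (Fin n) ℂ), B v (Function.update h j (fun a b => if a = b then f else 0)) = 0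
  transp : ∀ (v : MvPolynomial (Fin n) ℂ) (h : Fin r → Mx n) (j : Fin r) (y : Mx n),
    B v (Function.update h j (fun a b => y b a)) = B v (Function.update h j y)
  ward : ∀ (X : Fin n → MvPolynomial (Fin n) ℂ) (lam : MvPolynomial (Fin n) ℂ),
    (∀ a, MvPolynomial.constantCoeff (X a) = 0) →
    (∀ i j, pdv i (X j) + pdv j (X i) = if i = j then 2 * lam else 0) →
    ∀ (v : MvPolynomial (Fin n) ℂ) (h : Fin r → Mx n),
      (∑ j, B v (Function.update h j (KX X lam (h j)))) + B (∑ a, X a * pdv a v) h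
        = (n : ℂ) * MvPolynomial.constantCoeff lam * B v h
  onshell : ∀ k e : Fin r → Fin n → ℂ, (∀ i, dot (k i) (k i) = 0) → (∀ i, dot (k i) (e i) = 0) →
    (∀ i, dot (e i) (e i) = 0) → (∀ i j, i ≠ j → dot (k i) (k j) ≠ 0) →
    ∀ (a : Fin r → ℕ) (v : MvPolynomial (Fin n) ℂ),
      B v (fun i => tens (lin (k i) ^ a i) (e i) (e i)) = 0

/-! ### Formal power series -/

/-- coefficientwise action on formal power series -/
noncomputable def cw {A : Type} [CommRing A] (δ : A → A) (p : PowerSeries A) : PowerSeries A :=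
  PowerSeries.mk fun k => δ (PowerSeries.coeff k p)

/-- Extension of the operators `D` to formal power series: the formal derivative gets index `0`,
the old operators act coefficientwise. -/
noncomputable def extD {n : ℕ} {A : Type} [CommRing A] (D : Fin n → A → A) :
    Fin (n + 1) → PowerSeries A → PowerSeries A :=
  Fin.cons PowerSeries.derivativeFun (fun i => cw (D i))

/-! ### The ambient metric -/

section Ambient

variable {n : ℕ} {A : Type} [CommRing A]

/-- its inverse; `ti = 1/t` -/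
def ambInv (ti ρ : A) (gi : Fin n → Fin n → A) : Fin (n + 2) → Fin (n + 2) → A :=
  Matrix.vecCons (Matrix.vecCons 0 (Matrix.vecCons ti fun _ => 0))
    (Matrix.vecCons (Matrix.vecCons ti (Matrix.vecCons (-(2 * ρ * ti ^ 2)) fun _ => 0))
      (fun i => Matrix.vecCons 0 (Matrix.vecCons 0 (fun j => ti ^ 2 * gi i j))))

variable [Algebra ℝ A]

/-- abstract ambient coordinates -/
structure AmbRing (D : Fin (n + 2) → A → A) (t ti ρ : A) (g gi : Fin n → Fin n → A) : Prop where
  der : IsDer D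
  tti : t * ti = 1
  Dt0 : D 0 t = 1
  Dt1 : D 1 t = 0
  Dtx : ∀ i : Fin n, D i.succ.succ t = 0
  Dr0 : D 0 ρ = 0
  Dr1 : D 1 ρ = 1
  Drx : ∀ i : Fin n, D i.succ.succ ρ = 0
  met : IsMetric g gi
  Dg : ∀ i j, D 0 (g i j) = 0

/-- `g^{kl} ∂_ρ g_{kl}` -/
noncomputable def trp (Dr : A → A) (g gi : Fin n → Fin n → A) : A :=
  ∑ k, ∑ l, gi k l * Dr (g k l)

/-- The tangential components of the Ricci tensor of the ambient metric. -/
noncomputable def fg (Dr : A → A) (Dx : Fin n → A → A) (ρ : A) (g gi : Fin n → Fin n → A)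
    (i j : Fin n) : A :=
  ρ * Dr (Dr (g i j)) - ρ * (∑ k, ∑ l, gi k l * Dr (g i k) * Dr (g j l))
    + (1 / 2 : ℝ) • (ρ * trp Dr g gi * Dr (g i j)) - ((n : ℝ) / 2 - 1) • Dr (g i j)
    - (1 / 2 : ℝ) • (trp Dr g gi * g i j) + ric Dx g gi i j

/-- The ambient Laplacian on functions homogeneous of degree `w` in `t`. -/
noncomputable def Lw (Dr : A → A) (Dx : Fin n → A → A) (ρ : A) (g gi : Fin n → Fin n → A)
    (w : ℝ) (u : A) : A :=
  (2 * w + (n : ℝ) - 2) • Dr u - 2 * ρ * Dr (Dr u) - ρ * trp Dr g gi * Dr u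
    + lap Dx g gi u + (w / 2) • (trp Dr g gi * u)

/-- `L_{-2(k-1)} ... L_{-2} L_0 u` -/
noncomputable def gjL (Dr : A → A) (Dx : Fin n → A → A) (ρ : A) (g gi : Fin n → Fin n → A) :
    ℕ → A → A
  | 0, u => u
  | k + 1, u => Lw Dr Dx ρ g gi (-(2 * (k : ℝ))) (gjL Dr Dx ρ g gi k u)

end Ambient

end CInv
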