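import Pool.Agent.Helper767.Gjms.Defs

set_option linter.all false

open scoped BigOperators

namespace CInv

/-! ### Facts about the ambient metric -/

/-- Christoffel symbols of the ambient metric; index `0` is `t`, `1` is `ρ`, `i.succ.succ` is `x_i`. -/
structure AmbChr {n : ℕ} {A : Type} [CommRing A] [Algebra ℝ A] (D : Fin (n + 2) → A → A)
    (t ti ρ : A) (g gi : Fin n → Fin n → A) : Prop where
  c000 : chr D (amb t ρ g) (ambInv ti ρ gi) 0 0 0 = 0
  c001 : chr D (amb t ρ g) (ambInv ti ρ gi) 0 0 1 = 0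
  c010 : chr D (amb t ρ g) (ambInv ti ρ gi) 0 1 0 = 0
  c011 : chr D (amb t ρ g) (ambInv ti ρ gi) 0 1 1 = 0
  c00x : ∀ i : Fin n, chr D (amb t ρ g) (ambInv ti ρ gi) 0 0 i.succ.succ = 0
  c0x0 : ∀ i : Fin n, chr D (amb t ρ g) (ambInv ti ρ gi) 0 i.succ.succ 0 = 0
  c01x : ∀ i : Fin n, chr D (amb t ρ g) (ambInv ti ρ gi) 0 1 i.succ.succ = 0
  c0x1 : ∀ i : Fin n, chr D (amb t ρ g) (ambInv ti ρ gi) 0 i.succ.succ 1 = 0
  c0xx : ∀ i j : Fin n, chr D (amb t ρ g) (ambInv ti ρ gi) 0 i.succ.succ j.succ.succ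
    = -((1 / 2 : ℝ) • (t * D 1 (g i j)))
  c100 : chr D (amb t ρ g) (ambInv ti ρ gi) 1 0 0 = 0
  c101 : chr D (amb t ρ g) (ambInv ti ρ gi) 1 0 1 = ti
  c110 : chr D (amb t ρ g) (ambInv ti ρ gi) 1 1 0 = ti
  c111 : chr D (amb t ρ g) (ambInv ti ρ gi) 1 1 1 = 0
  c10x : ∀ i : Fin n, chr D (amb t ρ g) (ambInv ti ρ gi) 1 0 i.succ.succ = 0
  c1x0 : ∀ i : Fin n, chr D (amb t ρ g) (ambInv ti ρ gi) 1 i.succ.succ 0 = 0
  c11x : ∀ i : Fin n, chr D (amb t ρ g) (ambInv ti ρ gi) 1 1 i.succ.succ = 0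
  c1x1 : ∀ i : Fin n, chr D (amb t ρ g) (ambInv ti ρ gi) 1 i.succ.succ 1 = 0
  c1xx : ∀ i j : Fin n, chr D (amb t ρ g) (ambInv ti ρ gi) 1 i.succ.succ j.succ.succ
    = -(g i j) + ρ * D 1 (g i j)
  cx00 : ∀ k : Fin n, chr D (amb t ρ g) (ambInv ti ρ gi) k.succ.succ 0 0 = 0
  cx01 : ∀ k : Fin n, chr D (amb t ρ g) (ambInv ti ρ gi) k.succ.succ 0 1 = 0
  cx10 : ∀ k : Fin n, chr D (amb t ρ g) (ambInv ti ρ gi) k.succ.succ 1 0 = 0
  cx11 : ∀ k : Fin n, chr D (amb t ρ g) (ambInv ti ρ gi) k.succ.succ 1 1 = 0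
  cx0x : ∀ k j : Fin n, chr D (amb t ρ g) (ambInv ti ρ gi) k.succ.succ 0 j.succ.succ
    = if k = j then ti else 0
  cxx0 : ∀ k j : Fin n, chr D (amb t ρ g) (ambInv ti ρ gi) k.succ.succ j.succ.succ 0
    = if k = j then ti else 0
  cx1x : ∀ k j : Fin n, chr D (amb t ρ g) (ambInv ti ρ gi) k.succ.succ 1 j.succ.succ
    = (1 / 2 : ℝ) • ∑ l, gi k l * D 1 (g l j)
  cxx1 : ∀ k j : Fin n, chr D (amb t ρ g) (ambInv ti ρ gi) k.succ.succ j.succ.succ 1
    = (1 / 2 : ℝ) • ∑ l, gi k l * D 1 (g l j)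
  cxxx : ∀ k i j : Fin n, chr D (amb t ρ g) (ambInv ti ρ gi) k.succ.succ i.succ.succ j.succ.succ
    = chr (fun i : Fin n => D i.succ.succ) g gi k i j

/-- Ricci tensor of the ambient metric. -/
structure AmbRic {n : ℕ} {A : Type} [CommRing A] [Algebra ℝ A] (D : Fin (n + 2) → A → A)
    (t ti ρ : A) (g gi : Fin n → Fin n → A) : Prop where
  r0 : ∀ J, ric D (amb t ρ g) (ambInv ti ρ gi) 0 J = 0
  r0' : ∀ J, ric D (amb t ρ g) (ambInv ti ρ gi) J 0 = 0
  rxx : ∀ i j : Fin n, ric D (amb t ρ g) (ambInv ti ρ gi) i.succ.succ j.succ.succ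
    = fg (D 1) (fun i : Fin n => D i.succ.succ) ρ g gi i j
  t11 : D 0 (ric D (amb t ρ g) (ambInv ti ρ gi) 1 1) = 0
  t1x : ∀ j : Fin n, D 0 (ric D (amb t ρ g) (ambInv ti ρ gi) 1 j.succ.succ) = 0
  txx : ∀ i j : Fin n, D 0 (ric D (amb t ρ g) (ambInv ti ρ gi) i.succ.succ j.succ.succ) = 0

/-! ### The Fefferman-Graham recursion -/

section Recursion

variable {n : ℕ} {A : Type} [CommRing A]

/-- coefficients of the inverse of a matrix of formal power series; `gi` is the inverse of the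
constant term -/
noncomputable def pinvC (gi : Fin n → Fin n → A) (G : Fin n → Fin n → PowerSeries A) :
    ℕ → Fin n → Fin n → A
  | 0 => gi
  | k + 1 => fun i j => - ∑ m : Fin (k + 1), ∑ a, ∑ b,
      gi i a * PowerSeries.coeff (k + 1 - (m : ℕ)) (G a b) * pinvC gi G m b j
  decreasing_by exact m.2

/-- the inverse matrix of formal power series -/
noncomputable def pinv (gi : Fin n → Fin n → A) (G : Fin n → Fin n → PowerSeries A)
    (i j : Fin n) : PowerSeries A :=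
  PowerSeries.mk fun k => pinvC gi G k i j

variable [Algebra ℝ A]

/-- the expression `fg` for formal power series in `ρ = X` -/
noncomputable def fgX (D : Fin n → A → A) (G Gi : Fin n → Fin n → PowerSeries A) (i j : Fin n) :
    PowerSeries A :=
  fg PowerSeries.derivativeFun (fun i => cw (D i)) PowerSeries.X G Gi i j

/-- the operators `gjL` for formal power series in `ρ = X` -/
noncomputable def gjX (D : Fin n → A → A) (G Gi : Fin n → Fin n → PowerSeries A) (k : ℕ)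
    (u : PowerSeries A) : PowerSeries A :=
  gjL PowerSeries.derivativeFun (fun i => cw (D i)) PowerSeries.X G Gi k u

/-- the next coefficient of the ambient metric -/
noncomputable def fgStep (D : Fin n → A → A) (g gi : Fin n → Fin n → A)
    (G : Fin n → Fin n → PowerSeries A) (m : ℕ) (i j : Fin n) : A :=
  (1 / (((m : ℝ) + 1) * ((m : ℝ) + 1 - (n : ℝ) / 2))) •
    (-(PowerSeries.coeff m (fgX D G (pinv gi G) i j))
      - (1 / (2 * ((m : ℝ) + 1 - (n : ℝ)))) •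
        ((∑ k, ∑ l, gi k l * PowerSeries.coeff m (fgX D G (pinv gi G) k l)) * g i j))

/-- the Fefferman-Graham recursion -/
noncomputable def fgG (D : Fin n → A → A) (g gi : Fin n → Fin n → A) :
    ℕ → Fin n → Fin n → PowerSeries A
  | 0 => fun i j => PowerSeries.C (g i j)
  | m + 1 => fun i j => fgG D g gi m i j
      + PowerSeries.X ^ (m + 1) * PowerSeries.C (fgStep D g gi (fgG D g gi m) m i j)

/-- the critical GJMS operator -/
noncomputable def gjms (D : Fin n → A → A) (g gi : Fin n → Fin n → A) (F : A) : A :=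
  PowerSeries.constantCoeff (gjX D (fgG D g gi (n / 2 - 1)) (pinv gi (fgG D g gi (n / 2 - 1)))
    (n / 2) (PowerSeries.C F))

end Recursion

end CInv
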