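import Pool.Agent.Helper767.Gjms.Defs2

set_option linter.all false

open scoped BigOperators

namespace CInv

/-- Taylor relation at `(t0, 0, x)`, `x ∈ U`: the jets of `F` at these points are those of the
double power series `p` -/
def TRel {n : ℕ} (t0 : ℝ) (U : Set (Fin n → ℝ)) {A : Type} [CommRing A] [Algebra ℝ A]
    (D : Fin n → A → A) (ev : A →ₐ[ℝ] (U → ℝ)) (F : (Fin (n + 2) → ℝ) → ℝ)
    (p : PowerSeries (PowerSeries A)) : Prop :=
  ∀ x : U, ContDiffAt ℝ (⊤ : ℕ∞) F (apt t0 x) ∧ ∀ w : List (Fin (n + 2)),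
    Dw pd w F (apt t0 x)
      = ev (PowerSeries.constantCoeff (PowerSeries.constantCoeff
          (Dw (extD (extD D)) w p))) x

/-- the ring of smooth functions on `U` with its derivations -/
structure SmRing {n : ℕ} (U : Set (Fin n → ℝ)) {A : Type} [CommRing A] [Algebra ℝ A]
    (D : Fin n → A → A) (ev : A →ₐ[ℝ] (U → ℝ)) : Prop where
  op : IsOpen U
  inj : Function.Injective ev
  der : IsDer D
  surj : ∀ F : (Fin n → ℝ) → ℝ, ContDiffOn ℝ (⊤ : ℕ∞) F U → ∃ a : A, ∀ x : U, ev a x = F x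
  rep : ∀ a : A, ∃ F : (Fin n → ℝ) → ℝ, ContDiffOn ℝ (⊤ : ℕ∞) F U ∧ ∀ x : U, ev a x = F x
  comp : ∀ (a : A) (F : (Fin n → ℝ) → ℝ), ContDiffOn ℝ (⊤ : ℕ∞) F U → (∀ x : U, ev a x = F x) →
    ∀ (i : Fin n) (x : U), ev (D i a) x = pd i F x

end CInv
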