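import Pool.Agent.Helper767.Gjms.Defs2
import Pool.Agent.Helper771.CInv.P_gi_symm
import Pool.Agent.Helper771.CInv.P_metric_compat

set_option linter.all false

open scoped BigOperators

namespace CInv

namespace Z_amb_dti

theorem adt_zero {n : ℕ} {A : Type} [CommRing A] [Algebra ℝ A] {D : Fin n → A → A} (h : IsDer D)
    (i : Fin n) : D i 0 = 0 := by
  have h1 := h.smul i 0 0
  rwa [zero_smul, zero_smul] at h1

theorem adt_one {n : ℕ} {A : Type} [CommRing A] [Algebra ℝ A] {D : Fin n → A → A} (h : IsDer D)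
    (i : Fin n) : D i 1 = 0 := by
  have h1 := h.mul i 1 1
  rw [mul_one, mul_one, one_mul] at h1
  have h2 : D i 1 + D i 1 = D i 1 + 0 := by rw [add_zero]; exact h1.symm
  exact add_left_cancel h2

theorem adt_neg {n : ℕ} {A : Type} [CommRing A] [Algebra ℝ A] {D : Fin n → A → A} (h : IsDer D)
    (i : Fin n) (a : A) : D i (-a) = -D i a := by
  have h1 := h.smul i (-1) a
  rwa [neg_one_smul, neg_one_smul] at h1

theorem adt_sub {n : ℕ} {A : Type} [CommRing A] [Algebra ℝ A] {D : Fin n → A → A} (h : IsDer D)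
    (i : Fin n) (a b : A) : D i (a - b) = D i a - D i b := by
  rw [sub_eq_add_neg, h.add, adt_neg h, ← sub_eq_add_neg]

theorem adt_sum {n : ℕ} {A : Type} [CommRing A] [Algebra ℝ A] {D : Fin n → A → A} (h : IsDer D)
    (i : Fin n) {ι : Type} (s : Finset ι) (f : ι → A) : D i (∑ k ∈ s, f k) = ∑ k ∈ s, D i (f k) := by
  classical
  induction s using Finset.induction_on with
  | empty => rw [Finset.sum_empty, Finset.sum_empty, adt_zero h]
  | insert a s ha ih => rw [Finset.sum_insert ha, Finset.sum_insert ha, h.add, ih]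

theorem adt_ti {n : ℕ} {A : Type} [CommRing A] [Algebra ℝ A] {D : Fin n → A → A} (h : IsDer D)
    {t ti : A} (ht : t * ti = 1) (i : Fin n) : D i ti = -(D i t * ti ^ 2) := by
  have h1 := h.mul i t ti
  rw [ht, adt_one h] at h1
  have h2 : D i ti = (t * ti) * D i ti := by rw [ht, one_mul]
  rw [h2]
  linear_combination (-ti) * h1

theorem adt_gi {n m : ℕ} {A : Type} [CommRing A] [Algebra ℝ A] {D : Fin m → A → A} (h : IsDer D)
    {g gi : Fin n → Fin n → A} (hg : IsMetric g gi) (p : Fin m) (hp : ∀ i j, D p (g i j) = 0)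
    (i j : Fin n) : D p (gi i j) = 0 := by
  have h1 : ∀ i j, ∑ k, g i k * D p (gi k j) = 0 := by
    intro i j
    have h2 := congrArg (D p) (hg.inv i j)
    rw [adt_sum h] at h2
    have h3 : D p (if i = j then (1 : A) else 0) = 0 := by
      split_ifs
      · exact adt_one h p
      · exact adt_zero h p
    rw [h3] at h2
    rw [← h2]
    refine Finset.sum_congr rfl fun k _ => ?_
    rw [h.mul, hp, zero_mul, zero_add]
  have h4 : ∑ a, gi i a * ∑ k, g a k * D p (gi k j) = D p (gi i j) := by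
    calc ∑ a, gi i a * ∑ k, g a k * D p (gi k j)
        = ∑ a, ∑ k, gi i a * g a k * D p (gi k j) := by
          refine Finset.sum_congr rfl fun a _ => ?_
          rw [Finset.mul_sum]
          refine Finset.sum_congr rfl fun k _ => ?_
          ring
      _ = ∑ k, ∑ a, gi i a * g a k * D p (gi k j) := Finset.sum_comm
      _ = ∑ k, (if i = k then 1 else 0) * D p (gi k j) := by
          refine Finset.sum_congr rfl fun k _ => ?_
          rw [← Finset.sum_mul, (gi_symm hg).2 i k]
      _ = D p (gi i j) := by simp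
  rw [← h4]
  refine Finset.sum_eq_zero fun a _ => ?_
  rw [h1, mul_zero]

theorem amb_dti {n : ℕ} {A : Type} [CommRing A] [Algebra ℝ A] {D : Fin (n + 2) → A → A}
    {t ti ρ : A} {g gi : Fin n → Fin n → A} (h : AmbRing D t ti ρ g gi) :
    D 0 ti = -(ti ^ 2) ∧ D 1 ti = 0 ∧ (∀ i : Fin n, D i.succ.succ ti = 0) ∧
    (∀ i j, D 0 (gi i j) = 0) ∧
    IsDer (fun i : Fin n => D i.succ.succ) ∧
    (∀ k i j, D 0 (chr (fun i : Fin n => D i.succ.succ) g gi k i j) = 0) := by
  have hD := h.der
  have hgi : ∀ i j, D 0 (gi i j) = 0 := fun i j => adt_gi hD h.met 0 h.Dg i j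
  refine ⟨?_, ?_, ?_, hgi, ?_, ?_⟩
  · rw [adt_ti hD h.tti, h.Dt0, one_mul]
  · rw [adt_ti hD h.tti, h.Dt1, zero_mul, neg_zero]
  · intro i
    rw [adt_ti hD h.tti, h.Dtx, zero_mul, neg_zero]
  · exact ⟨fun i a b => hD.add _ a b, fun i a b => hD.mul _ a b, fun i r a => hD.smul _ r a,
      fun i j a => hD.comm _ _ a⟩
  · intro k i j
    have h2 : ∀ (p : Fin n) (a b : Fin n), D 0 (D p.succ.succ (g a b)) = 0 := by
      intro p a b
      rw [hD.comm, h.Dg, adt_zero hD]
    unfold chr
    rw [hD.smul, adt_sum hD, Finset.sum_eq_zero, smul_zero]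
    intro l _
    rw [hD.mul, hgi, zero_mul, zero_add, adt_sub hD, hD.add, h2, h2, h2, add_zero, sub_zero, mul_zero]

end Z_amb_dti

alias amb_dti := Z_amb_dti.amb_dti

end CInv
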