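import Pool.Agent.Helper767.Gjms.Defs2

set_option linter.all false

open scoped BigOperators

namespace CInv

namespace Z_amb_metric

theorem amb_metric {n : ℕ} {A : Type} [CommRing A] [Algebra ℝ A] {D : Fin (n + 2) → A → A}
    {t ti ρ : A} {g gi : Fin n → Fin n → A} (h : AmbRing D t ti ρ g gi) :
    IsMetric (amb t ρ g) (ambInv ti ρ gi) := by
  have hti := h.tti
  refine ⟨?_, ?_⟩
  · intro i j
    refine Fin.cases ?_ (fun i => Fin.cases ?_ (fun i => ?_) i) i
    · refine Fin.cases ?_ (fun j => Fin.cases ?_ (fun j => ?_) j) j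
      · rfl
      · rfl
      · rfl
    · refine Fin.cases ?_ (fun j => Fin.cases ?_ (fun j => ?_) j) j
      · rfl
      · rfl
      · rfl
    · refine Fin.cases ?_ (fun j => Fin.cases ?_ (fun j => ?_) j) j
      · rfl
      · rfl
      · change t ^ 2 * g i j = t ^ 2 * g j i
        rw [h.met.symm]
  · intro i j
    rw [Fin.sum_univ_succ, Fin.sum_univ_succ]
    refine Fin.cases ?_ (fun i => Fin.cases ?_ (fun i => ?_) i) i
    · refine Fin.cases ?_ (fun j => Fin.cases ?_ (fun j => ?_) j) j
      · have e : ∀ k : Fin n, amb t ρ g 0 k.succ.succ * ambInv ti ρ gi k.succ.succ 0 = 0 :=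
          fun k => zero_mul _
        rw [Finset.sum_congr rfl fun k _ => e k, Finset.sum_const_zero, if_pos rfl]
        change 2 * ρ * 0 + (t * ti + 0) = 1
        rw [hti]
        ring
      · have e : ∀ k : Fin n, amb t ρ g 0 k.succ.succ *
            ambInv ti ρ gi k.succ.succ (Fin.succ 0) = 0 := fun k => zero_mul _
        rw [Finset.sum_congr rfl fun k _ => e k, Finset.sum_const_zero,
          if_neg (Fin.succ_ne_zero _).symm]
        change 2 * ρ * ti + (t * (-(2 * ρ * ti ^ 2)) + 0) = 0
        linear_combination (-2 * ρ * ti) * hti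
      · have e : ∀ k : Fin n, amb t ρ g 0 k.succ.succ *
            ambInv ti ρ gi k.succ.succ j.succ.succ = 0 := fun k => zero_mul _
        rw [Finset.sum_congr rfl fun k _ => e k, Finset.sum_const_zero,
          if_neg (Fin.succ_ne_zero _).symm]
        change 2 * ρ * 0 + (t * 0 + 0) = 0
        ring
    · refine Fin.cases ?_ (fun j => Fin.cases ?_ (fun j => ?_) j) j
      · have e : ∀ k : Fin n, amb t ρ g (Fin.succ 0) k.succ.succ *
            ambInv ti ρ gi k.succ.succ 0 = 0 := fun k => zero_mul _
        rw [Finset.sum_congr rfl fun k _ => e k, Finset.sum_const_zero,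
          if_neg (Fin.succ_ne_zero _)]
        change t * 0 + (0 * ti + 0) = 0
        ring
      · have e : ∀ k : Fin n, amb t ρ g (Fin.succ 0) k.succ.succ *
            ambInv ti ρ gi k.succ.succ (Fin.succ 0) = 0 := fun k => zero_mul _
        rw [Finset.sum_congr rfl fun k _ => e k, Finset.sum_const_zero, if_pos rfl]
        change t * ti + (0 * (-(2 * ρ * ti ^ 2)) + 0) = 1
        rw [hti]
        ring
      · have e : ∀ k : Fin n, amb t ρ g (Fin.succ 0) k.succ.succ *
            ambInv ti ρ gi k.succ.succ j.succ.succ = 0 := fun k => zero_mul _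
        rw [Finset.sum_congr rfl fun k _ => e k, Finset.sum_const_zero, if_neg (by
          intro h0
          exact Fin.succ_ne_zero _ (Fin.succ_injective _ h0).symm)]
        change t * 0 + (0 * 0 + 0) = 0
        ring
    · refine Fin.cases ?_ (fun j => Fin.cases ?_ (fun j => ?_) j) j
      · have e : ∀ k : Fin n, amb t ρ g i.succ.succ k.succ.succ *
            ambInv ti ρ gi k.succ.succ 0 = 0 := fun k => mul_zero _
        rw [Finset.sum_congr rfl fun k _ => e k, Finset.sum_const_zero,
          if_neg (Fin.succ_ne_zero _)]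
        change 0 * 0 + (0 * ti + 0) = 0
        ring
      · have e : ∀ k : Fin n, amb t ρ g i.succ.succ k.succ.succ *
            ambInv ti ρ gi k.succ.succ (Fin.succ 0) = 0 := fun k => mul_zero _
        rw [Finset.sum_congr rfl fun k _ => e k, Finset.sum_const_zero, if_neg (by
          intro h0
          exact Fin.succ_ne_zero _ (Fin.succ_injective _ h0))]
        change 0 * ti + (0 * (-(2 * ρ * ti ^ 2)) + 0) = 0
        ring
      · have e : ∀ k : Fin n, amb t ρ g i.succ.succ k.succ.succ *
            ambInv ti ρ gi k.succ.succ j.succ.succ = g i k * gi k j := by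
          intro k
          change (t ^ 2 * g i k) * (ti ^ 2 * gi k j) = g i k * gi k j
          linear_combination (g i k * gi k j) * (t * ti + 1) * hti
        rw [Finset.sum_congr rfl fun k _ => e k, h.met.inv]
        change 0 * 0 + (0 * 0 + _) = _
        have e2 : (i.succ.succ = j.succ.succ) ↔ i = j :=
          ⟨fun h0 => Fin.succ_injective _ (Fin.succ_injective _ h0), fun h0 => by rw [h0]⟩
        by_cases hij : i = j
        · rw [if_pos hij, if_pos (e2.2 hij)]
          ring
        · rw [if_neg hij, if_neg (fun h0 => hij (e2.1 h0))]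
          ring

end Z_amb_metric

alias amb_metric := Z_amb_metric.amb_metric

end CInv
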