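import Pool.Agent.Helper767.Gjms.Defs2
import Pool.Agent.Helper771.CInv.P_gi_symm
import Pool.Agent.Helper767.Gjms.P_amb_metric
import Pool.Agent.Helper767.Gjms.P_amb_dti

set_option linter.all false

open scoped BigOperators

namespace CInv

namespace Z_amb_chr

section achr21294

variable {n : ℕ} {A : Type} [CommRing A]

theorem achr_sum2 (f : Fin (n + 2) → A) :
    ∑ l, f l = f 0 + (f 1 + ∑ l : Fin n, f l.succ.succ) := by
  rw [Fin.sum_univ_succ, Fin.sum_univ_succ]
  rfl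

theorem achr_a00 (t ρ : A) (g : Fin n → Fin n → A) : amb t ρ g 0 0 = 2 * ρ := rfl
theorem achr_a01 (t ρ : A) (g : Fin n → Fin n → A) : amb t ρ g 0 1 = t := rfl
theorem achr_a10 (t ρ : A) (g : Fin n → Fin n → A) : amb t ρ g 1 0 = t := rfl
theorem achr_a11 (t ρ : A) (g : Fin n → Fin n → A) : amb t ρ g 1 1 = 0 := rfl
theorem achr_a0x (t ρ : A) (g : Fin n → Fin n → A) (i : Fin n) :
    amb t ρ g 0 i.succ.succ = 0 := rfl
theorem achr_ax0 (t ρ : A) (g : Fin n → Fin n → A) (i : Fin n) :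
    amb t ρ g i.succ.succ 0 = 0 := rfl
theorem achr_a1x (t ρ : A) (g : Fin n → Fin n → A) (i : Fin n) :
    amb t ρ g 1 i.succ.succ = 0 := rfl
theorem achr_ax1 (t ρ : A) (g : Fin n → Fin n → A) (i : Fin n) :
    amb t ρ g i.succ.succ 1 = 0 := rfl
theorem achr_axx (t ρ : A) (g : Fin n → Fin n → A) (i j : Fin n) :
    amb t ρ g i.succ.succ j.succ.succ = t ^ 2 * g i j := rfl

theorem achr_i00 (t ρ : A) (g : Fin n → Fin n → A) : ambInv t ρ g 0 0 = 0 := rfl
theorem achr_i01 (t ρ : A) (g : Fin n → Fin n → A) : ambInv t ρ g 0 1 = t := rfl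
theorem achr_i10 (t ρ : A) (g : Fin n → Fin n → A) : ambInv t ρ g 1 0 = t := rfl
theorem achr_i11 (t ρ : A) (g : Fin n → Fin n → A) :
    ambInv t ρ g 1 1 = -(2 * ρ * t ^ 2) := rfl
theorem achr_i0x (t ρ : A) (g : Fin n → Fin n → A) (i : Fin n) :
    ambInv t ρ g 0 i.succ.succ = 0 := rfl
theorem achr_ix0 (t ρ : A) (g : Fin n → Fin n → A) (i : Fin n) :
    ambInv t ρ g i.succ.succ 0 = 0 := rfl
theorem achr_i1x (t ρ : A) (g : Fin n → Fin n → A) (i : Fin n) :
    ambInv t ρ g 1 i.succ.succ = 0 := rfl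
theorem achr_ix1 (t ρ : A) (g : Fin n → Fin n → A) (i : Fin n) :
    ambInv t ρ g i.succ.succ 1 = 0 := rfl
theorem achr_ixx (t ρ : A) (g : Fin n → Fin n → A) (i j : Fin n) :
    ambInv t ρ g i.succ.succ j.succ.succ = t ^ 2 * g i j := rfl

variable [Algebra ℝ A]

theorem achr_half (a : A) : (1 / 2 : ℝ) • (2 * a) = a := by
  rw [← smul_mul_assoc]
  have : (1 / 2 : ℝ) • (2 : A) = 1 := by
    have h2 : (2 : A) = algebraMap ℝ A 2 := (map_ofNat (algebraMap ℝ A) 2).symm
    rw [h2, Algebra.smul_def, ← map_mul]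
    norm_num
  rw [this, one_mul]

theorem achr_c0 (D : Fin (n + 2) → A → A) (t ti ρ : A) (g gi : Fin n → Fin n → A)
    (i j : Fin (n + 2)) :
    chr D (amb t ρ g) (ambInv ti ρ gi) 0 i j = (1 / 2 : ℝ) • (ti *
      (D i (amb t ρ g j 1) + D j (amb t ρ g i 1) - D 1 (amb t ρ g i j))) := by
  unfold chr
  rw [achr_sum2, achr_i00, achr_i01]
  simp only [achr_i0x, zero_mul, Finset.sum_const_zero, add_zero, zero_add]

theorem achr_c1 (D : Fin (n + 2) → A → A) (t ti ρ : A) (g gi : Fin n → Fin n → A)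
    (i j : Fin (n + 2)) :
    chr D (amb t ρ g) (ambInv ti ρ gi) 1 i j = (1 / 2 : ℝ) • (ti *
      (D i (amb t ρ g j 0) + D j (amb t ρ g i 0) - D 0 (amb t ρ g i j))
      + -(2 * ρ * ti ^ 2) *
      (D i (amb t ρ g j 1) + D j (amb t ρ g i 1) - D 1 (amb t ρ g i j))) := by
  unfold chr
  rw [achr_sum2, achr_i10, achr_i11]
  simp only [achr_i1x, zero_mul, Finset.sum_const_zero, add_zero]

theorem achr_cx (D : Fin (n + 2) → A → A) (t ti ρ : A) (g gi : Fin n → Fin n → A)
    (k : Fin n) (i j : Fin (n + 2)) :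
    chr D (amb t ρ g) (ambInv ti ρ gi) k.succ.succ i j = (1 / 2 : ℝ) • ∑ l : Fin n,
      ti ^ 2 * gi k l * (D i (amb t ρ g j l.succ.succ) + D j (amb t ρ g i l.succ.succ)
        - D l.succ.succ (amb t ρ g i j)) := by
  unfold chr
  rw [achr_sum2, achr_ix0, achr_ix1]
  simp only [achr_ixx, zero_mul, zero_add]

theorem achr_D0 {m : ℕ} {D : Fin m → A → A} (hD : IsDer D) (i : Fin m) : D i 0 = 0 := by
  have := hD.smul i 0 0
  rwa [zero_smul, zero_smul] at this

theorem achr_D1 {m : ℕ} {D : Fin m → A → A} (hD : IsDer D) (i : Fin m) : D i 1 = 0 := by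
  have := hD.mul i 1 1
  rw [mul_one, mul_one, one_mul] at this
  exact left_eq_add.1 this

theorem achr_D2 {m : ℕ} {D : Fin m → A → A} (hD : IsDer D) (i : Fin m) (a : A) :
    D i (2 * a) = 2 * D i a := by
  have e : (2 : A) * a = a + a := two_mul a
  rw [e, hD.add, two_mul]

theorem achr_Dsq {m : ℕ} {D : Fin m → A → A} (hD : IsDer D) (i : Fin m) (a b : A) :
    D i (a ^ 2 * b) = 2 * (a * D i a) * b + a ^ 2 * D i b := by
  rw [hD.mul, pow_two, hD.mul]
  ring

end achr21294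

theorem amb_chr {n : ℕ} {A : Type} [CommRing A] [Algebra ℝ A] {D : Fin (n + 2) → A → A}
    {t ti ρ : A} {g gi : Fin n → Fin n → A} (h : AmbRing D t ti ρ g gi) :
    AmbChr D t ti ρ g gi := by
  have hD := h.der
  have z : ∀ i, D i 0 = 0 := achr_D0 hD
  have r0 : D 0 (2 * ρ) = 0 := by rw [achr_D2 hD, h.Dr0, mul_zero]
  have r1 : D 1 (2 * ρ) = 2 := by rw [achr_D2 hD, h.Dr1, mul_one]
  have rx : ∀ i : Fin n, D i.succ.succ (2 * ρ) = 0 := fun i => by
    rw [achr_D2 hD, h.Drx, mul_zero]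
  have g0 : ∀ i j, D 0 (t ^ 2 * g i j) = 2 * (t * g i j) := fun i j => by
    rw [achr_Dsq hD, h.Dt0, h.Dg]; ring
  have g1 : ∀ i j, D 1 (t ^ 2 * g i j) = t ^ 2 * D 1 (g i j) := fun i j => by
    rw [achr_Dsq hD, h.Dt1]; ring
  have gx : ∀ (k : Fin n) i j, D k.succ.succ (t ^ 2 * g i j) = t ^ 2 * D k.succ.succ (g i j) :=
    fun k i j => by
      rw [achr_Dsq hD, h.Dtx]; ring
  have h1 : t * ti = 1 := h.tti
  have h2 : ti * t = 1 := by rw [mul_comm]; exact h1
  have h3 : ti ^ 2 * t = ti := by rw [pow_two, mul_assoc, h2, mul_one]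
  have h4 : ti * t ^ 2 = t := by rw [pow_two, ← mul_assoc, h2, one_mul]
  have h5 : ti ^ 2 * t ^ 2 = 1 := by rw [← mul_pow, h2, one_pow]
  have hinv := (gi_symm h.met).2
  have hkron : ∀ k j : Fin n, (1 / 2 : ℝ) • ∑ l : Fin n, ti ^ 2 * gi k l * (2 * (t * g l j))
      = if k = j then ti else 0 := by
    intro k j
    have e : ∀ l, ti ^ 2 * gi k l * (2 * (t * g l j)) = 2 * (ti * (gi k l * g l j)) := by
      intro l
      calc ti ^ 2 * gi k l * (2 * (t * g l j)) = 2 * ((ti ^ 2 * t) * (gi k l * g l j)) := by ring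
        _ = _ := by rw [h3]
    rw [Finset.sum_congr rfl fun l _ => e l, ← Finset.mul_sum, achr_half, ← Finset.mul_sum, hinv]
    split_ifs
    · rw [mul_one]
    · rw [mul_zero]
  have hroot : ∀ k j : Fin n, (1 / 2 : ℝ) • ∑ l : Fin n, ti ^ 2 * gi k l * (t ^ 2 * D 1 (g l j))
      = (1 / 2 : ℝ) • ∑ l, gi k l * D 1 (g l j) := by
    intro k j
    congr 1
    refine Finset.sum_congr rfl fun l _ => ?_
    calc ti ^ 2 * gi k l * (t ^ 2 * D 1 (g l j)) = (ti ^ 2 * t ^ 2) * (gi k l * D 1 (g l j)) := by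
          ring
      _ = _ := by rw [h5, one_mul]
  refine
    { c000 := ?_
      c001 := ?_
      c010 := ?_
      c011 := ?_
      c00x := fun i => ?_
      c0x0 := fun i => ?_
      c01x := fun i => ?_
      c0x1 := fun i => ?_
      c0xx := fun i j => ?_
      c100 := ?_
      c101 := ?_
      c110 := ?_
      c111 := ?_
      c10x := fun i => ?_
      c1x0 := fun i => ?_
      c11x := fun i => ?_
      c1x1 := fun i => ?_
      c1xx := fun i j => ?_
      cx00 := fun k => ?_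
      cx01 := fun k => ?_
      cx10 := fun k => ?_
      cx11 := fun k => ?_
      cx0x := fun k j => ?_
      cxx0 := fun k j => ?_
      cx1x := fun k j => ?_
      cxx1 := fun k j => ?_
      cxxx := fun k i j => ?_ }
  -- c000
  · rw [achr_c0]
    simp only [achr_a00, achr_a01, achr_a10, achr_a11, h.Dt0, r1]
    rw [show (1 : A) + 1 - 2 = 0 by ring, mul_zero, smul_zero]
  -- c001
  · rw [achr_c0]
    simp only [achr_a00, achr_a01, achr_a10, achr_a11, h.Dt0, h.Dt1, r1, z]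
    simp
  -- c010
  · rw [achr_c0]
    simp only [achr_a00, achr_a01, achr_a10, achr_a11, h.Dt0, h.Dt1, r1, z]
    simp
  -- c011
  · rw [achr_c0]
    simp only [achr_a00, achr_a01, achr_a10, achr_a11, h.Dt0, h.Dt1, r1, z]
    simp
  -- c00x
  · rw [achr_c0]
    simp only [achr_a01, achr_a0x, achr_ax1, h.Dtx, z]
    simp
  -- c0x0
  · rw [achr_c0]
    simp only [achr_a01, achr_ax0, achr_ax1, h.Dtx, z]
    simp
  -- c01x
  · rw [achr_c0]
    simp only [achr_a11, achr_a1x, achr_ax1, h.Dtx, z]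
    simp
  -- c0x1
  · rw [achr_c0]
    simp only [achr_a11, achr_ax1, achr_ax1, h.Dtx, z]
    simp
  -- c0xx
  · rw [achr_c0]
    simp only [achr_ax1, achr_axx, g1, z]
    rw [← smul_neg]
    congr 1
    calc ti * (0 + 0 - t ^ 2 * D 1 (g i j)) = -((ti * t ^ 2) * D 1 (g i j)) := by ring
      _ = _ := by rw [h4]
  -- c100
  · rw [achr_c1]
    simp only [achr_a00, achr_a01, achr_a10, achr_a11, h.Dt0, r0, r1]
    rw [show (1 : A) + 1 - 2 = 0 by ring, mul_zero, show (0 : A) + 0 - 0 = 0 by ring, mul_zero,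
      add_zero, smul_zero]
  -- c101
  · rw [achr_c1]
    simp only [achr_a00, achr_a01, achr_a10, achr_a11, h.Dt0, h.Dt1, r0, r1, z]
    rw [show ti * ((1 : A) + 2 - 1) + -(2 * ρ * ti ^ 2) * (0 + 0 - 0) = 2 * ti by ring, achr_half]
  -- c110
  · rw [achr_c1]
    simp only [achr_a00, achr_a01, achr_a10, achr_a11, h.Dt0, h.Dt1, r0, r1, z]
    rw [show ti * ((2 : A) + 1 - 1) + -(2 * ρ * ti ^ 2) * (0 + 0 - 0) = 2 * ti by ring, achr_half]
  -- c111
  · rw [achr_c1]
    simp only [achr_a00, achr_a01, achr_a10, achr_a11, h.Dt0, h.Dt1, r0, r1, z]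
    simp
  -- c10x
  · rw [achr_c1]
    simp only [achr_a00, achr_a01, achr_ax0, achr_ax1, achr_a0x, h.Dtx, rx, z]
    simp
  -- c1x0
  · rw [achr_c1]
    simp only [achr_a00, achr_a01, achr_ax0, achr_ax1, achr_a0x, h.Dtx, rx, z]
    simp
  -- c11x
  · rw [achr_c1]
    simp only [achr_a10, achr_a11, achr_ax0, achr_ax1, achr_a1x, h.Dtx, rx, z]
    simp
  -- c1x1
  · rw [achr_c1]
    simp only [achr_a10, achr_a11, achr_ax0, achr_ax1, achr_a1x, h.Dtx, rx, z]
    simp
  -- c1xx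
  · rw [achr_c1]
    simp only [achr_ax0, achr_ax1, achr_axx, g0, g1, z]
    have e : ti * (0 + 0 - 2 * (t * g i j)) + -(2 * ρ * ti ^ 2) * (0 + 0 - t ^ 2 * D 1 (g i j))
        = 2 * (-((ti * t) * g i j) + (ti ^ 2 * t ^ 2) * (ρ * D 1 (g i j))) := by ring
    rw [e, achr_half, h2, h5, one_mul, one_mul]
  -- cx00
  · rw [achr_cx]
    simp only [achr_a00, achr_a0x, rx, z]
    simp
  -- cx01
  · rw [achr_cx]
    simp only [achr_a01, achr_a0x, achr_a1x, h.Dtx, z]
    simp
  -- cx10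
  · rw [achr_cx]
    simp only [achr_a10, achr_a0x, achr_a1x, h.Dtx, z]
    simp
  -- cx11
  · rw [achr_cx]
    simp only [achr_a11, achr_a1x, z]
    simp
  -- cx0x
  · rw [achr_cx]
    simp only [achr_a0x, achr_axx, g0, z]
    rw [← hkron k j]
    congr 1
    refine Finset.sum_congr rfl fun l _ => ?_
    rw [h.met.symm j l]
    ring
  -- cxx0
  · rw [achr_cx]
    simp only [achr_a0x, achr_ax0, achr_axx, g0, z]
    rw [← hkron k j]
    congr 1
    refine Finset.sum_congr rfl fun l _ => ?_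
    rw [h.met.symm j l]
    ring
  -- cx1x
  · rw [achr_cx]
    simp only [achr_a1x, achr_axx, g1, z]
    rw [← hroot k j]
    congr 1
    refine Finset.sum_congr rfl fun l _ => ?_
    rw [h.met.symm j l]
    ring
  -- cxx1
  · rw [achr_cx]
    simp only [achr_a1x, achr_ax1, achr_axx, g1, z]
    rw [← hroot k j]
    congr 1
    refine Finset.sum_congr rfl fun l _ => ?_
    rw [h.met.symm j l]
    ring
  -- cxxx
  · rw [achr_cx]
    simp only [achr_axx, gx]
    unfold chr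
    congr 1
    refine Finset.sum_congr rfl fun l _ => ?_
    calc ti ^ 2 * gi k l * (t ^ 2 * D i.succ.succ (g j l) + t ^ 2 * D j.succ.succ (g i l)
          - t ^ 2 * D l.succ.succ (g i j))
        = (ti ^ 2 * t ^ 2) * (gi k l * (D i.succ.succ (g j l) + D j.succ.succ (g i l)
          - D l.succ.succ (g i j))) := by ring
      _ = _ := by rw [h5, one_mul]

end Z_amb_chr

alias amb_chr := Z_amb_chr.amb_chr

end CInv
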