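import Pool.Agent.Helper767.Gjms.Defs2
import Pool.Agent.Helper771.CInv.P_gi_symm
import Pool.Agent.Helper771.CInv.P_metric_compat
import Pool.Agent.Helper767.Gjms.P_amb_metric
import Pool.Agent.Helper767.Gjms.P_amb_dti

set_option linter.all false

open scoped BigOperators

namespace CInv

namespace Z_amb_r0

theorem sum2_845 {n : ℕ} {A : Type} [AddCommMonoid A] (F : Fin (n + 2) → A) :
    ∑ K, F K = F 0 + F 1 + ∑ k : Fin n, F k.succ.succ := by
  rw [Fin.sum_univ_succ, Fin.sum_univ_succ, ← add_assoc]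
  rfl

theorem amb_r0 {n : ℕ} {A : Type} [CommRing A] [Algebra ℝ A] {D : Fin (n + 2) → A → A}
    {t ti ρ : A} {g gi : Fin n → Fin n → A} (h : AmbRing D t ti ρ g gi)
    (hc : AmbChr D t ti ρ g gi) (J : Fin (n + 2)) :
    ric D (amb t ρ g) (ambInv ti ρ gi) 0 J = 0 := by
  have hD0 : ∀ i, D i 0 = 0 := by
    intro i
    have := h.der.add i 0 0
    simpa using this
  obtain ⟨d0, d1, dx, -, -, -⟩ := amb_dti h
  have hs : ∀ k i j, chr (fun i : Fin n => D i.succ.succ) g gi k i j
      = chr (fun i : Fin n => D i.succ.succ) g gi k j i := by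
    intro k i j
    unfold chr
    congr 1
    refine Finset.sum_congr rfl fun l _ => ?_
    rw [h.met.symm i j]
    ring
  have hite : ∀ (i : Fin (n + 2)) (p : Prop) [Decidable p] (a : A),
      D i (if p then a else 0) = if p then D i a else 0 := by
    intro i p _ a
    split_ifs
    · rfl
    · exact hD0 i
  refine Fin.cases ?_ (fun J' => Fin.cases ?_ (fun j => ?_) J') J
  · unfold ric
    simp only [sum2_845, hc.c000, hc.c001, hc.c010, hc.c011, hc.c00x, hc.c0x0, hc.c01x, hc.c0x1,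
      hc.c100, hc.c101, hc.c110, hc.c111, hc.c10x, hc.c1x0, hc.c11x, hc.c1x1,
      hc.cx00, hc.cx01, hc.cx10, hc.cx11, hc.cx0x, hc.cxx0, hc.cxxx, hD0, d0, d1, dx,
      mul_zero, zero_mul, sub_zero, zero_sub, add_zero, zero_add, if_true, neg_neg,
      Finset.sum_const_zero, mul_ite, ite_mul, hite, Finset.sum_ite_eq, Finset.sum_ite_eq',
      Finset.mem_univ, neg_zero]
    simp only [Finset.sum_neg_distrib, Finset.sum_ite_eq, Finset.sum_ite_eq', Finset.mem_univ,
      if_true, ← sq]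
    ring
  · unfold ric
    rw [show (Fin.succ 0 : Fin (n + 2)) = 1 from rfl]
    simp only [sum2_845, hc.c000, hc.c001, hc.c010, hc.c011, hc.c00x, hc.c0x0, hc.c01x, hc.c0x1,
      hc.c100, hc.c101, hc.c110, hc.c111, hc.c10x, hc.c1x0, hc.c11x, hc.c1x1,
      hc.cx00, hc.cx01, hc.cx10, hc.cx11, hc.cx0x, hc.cxx0, hc.cxxx, hD0, d0, d1, dx,
      mul_zero, zero_mul, sub_zero, zero_sub, add_zero, zero_add, if_true, neg_neg,
      Finset.sum_const_zero, mul_ite, ite_mul, hite, Finset.sum_ite_eq, Finset.sum_ite_eq',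
      Finset.mem_univ, neg_zero, hc.cx1x, hc.cxx1]
    simp only [Finset.sum_neg_distrib, Finset.sum_ite_eq, Finset.sum_ite_eq', Finset.mem_univ,
      if_true, add_neg_cancel, Finset.sum_const_zero]
  · unfold ric
    simp only [sum2_845, hc.c000, hc.c001, hc.c010, hc.c011, hc.c00x, hc.c0x0, hc.c01x, hc.c0x1,
      hc.c100, hc.c101, hc.c110, hc.c111, hc.c10x, hc.c1x0, hc.c11x, hc.c1x1,
      hc.cx00, hc.cx01, hc.cx10, hc.cx11, hc.cx0x, hc.cxx0, hc.cxxx, hD0, d0, d1, dx,
      mul_zero, zero_mul, sub_zero, zero_sub, add_zero, zero_add, if_true, neg_neg,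
      Finset.sum_const_zero, mul_ite, ite_mul, hite, Finset.sum_ite_eq, Finset.sum_ite_eq',
      Finset.mem_univ, neg_zero]
    simp only [Finset.sum_sub_distrib, Finset.sum_ite_eq, Finset.sum_ite_eq', Finset.mem_univ,
      if_true]
    rw [sub_eq_zero]
    refine Finset.sum_congr rfl fun x _ => ?_
    rw [hs x x j]

end Z_amb_r0

alias amb_r0 := Z_amb_r0.amb_r0

end CInv
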