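import Pool.Agent.Helper767.Gjms.Defs2
import Pool.Agent.Helper771.CInv.P_gi_symm
import Pool.Agent.Helper771.CInv.P_metric_compat
import Pool.Agent.Helper767.Gjms.P_amb_metric
import Pool.Agent.Helper767.Gjms.P_amb_dti

set_option linter.all false

open scoped BigOperators

namespace CInv

namespace Z_amb_r1

theorem ar1_cases3 {n : ℕ} (P : Fin (n + 2) → Prop) (h0 : P 0) (h1 : P 1)
    (hx : ∀ i : Fin n, P i.succ.succ) : ∀ K, P K := by
  intro K
  refine Fin.cases h0 (fun K' => ?_) K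
  refine Fin.cases ?_ (fun i => ?_) K'
  · exact h1
  · exact hx i

theorem ar1_zero {m : ℕ} {A : Type} [CommRing A] [Algebra ℝ A] {D : Fin m → A → A}
    (hD : IsDer D) (i : Fin m) : D i 0 = 0 := by
  have := hD.smul i (0 : ℝ) 0
  rwa [zero_smul, zero_smul] at this

theorem ar1_sub {m : ℕ} {A : Type} [CommRing A] [Algebra ℝ A] {D : Fin m → A → A}
    (hD : IsDer D) (i : Fin m) (a b : A) : D i (a - b) = D i a - D i b := by
  have h1 : a - b = a + (-1 : ℝ) • b := by rw [neg_one_smul, sub_eq_add_neg]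
  rw [h1, hD.add, hD.smul, neg_one_smul, sub_eq_add_neg]

theorem ar1_sum {m : ℕ} {A : Type} [CommRing A] [Algebra ℝ A] {D : Fin m → A → A}
    (hD : IsDer D) (i : Fin m) {ι : Type} (s : Finset ι) (f : ι → A) :
    D i (∑ x ∈ s, f x) = ∑ x ∈ s, D i (f x) := by
  classical
  induction s using Finset.induction_on with
  | empty => rw [Finset.sum_empty, Finset.sum_empty, ar1_zero hD]
  | insert a s ha ih => rw [Finset.sum_insert ha, Finset.sum_insert ha, hD.add, ih]

theorem ar1_main {n : ℕ} {A : Type} [CommRing A] [Algebra ℝ A] {D : Fin (n + 2) → A → A}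
    {t ti ρ : A} {g gi : Fin n → Fin n → A} (h : AmbRing D t ti ρ g gi)
    (hc : AmbChr D t ti ρ g gi) (J : Fin (n + 2))
    (h0 : chr D (amb t ρ g) (ambInv ti ρ gi) 0 1 J = 0)
    (h0' : chr D (amb t ρ g) (ambInv ti ρ gi) 0 J 1 = 0)
    (h1 : chr D (amb t ρ g) (ambInv ti ρ gi) 1 1 J = 0)
    (hx : ∀ i : Fin n, D 0 (chr D (amb t ρ g) (ambInv ti ρ gi) i.succ.succ 1 J) = 0)
    (hxx : ∀ i k : Fin n, D 0 (chr D (amb t ρ g) (ambInv ti ρ gi) i.succ.succ J k.succ.succ) = 0) :
    D 0 (ric D (amb t ρ g) (ambInv ti ρ gi) 1 J) = 0 := by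
  obtain ⟨-, -, -, hgi, -, hchr⟩ := amb_dti h
  have hz := fun i => ar1_zero h.der i
  have hG : ∀ k j : Fin n, D 0 ((1 / 2 : ℝ) • ∑ l, gi k l * D 1 (g l j)) = 0 := by
    intro k j
    rw [h.der.smul, ar1_sum h.der, Finset.sum_eq_zero, smul_zero]
    intro l _
    rw [h.der.mul, hgi, h.der.comm, h.Dg, hz]
    ring
  have hx1 : ∀ i k : Fin n, D 0 (chr D (amb t ρ g) (ambInv ti ρ gi) i.succ.succ 1 k.succ.succ) = 0 := by
    intro i k
    rw [hc.cx1x]; exact hG i k
  have hxxx : ∀ i k l : Fin n,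
      D 0 (chr D (amb t ρ g) (ambInv ti ρ gi) i.succ.succ k.succ.succ l.succ.succ) = 0 := by
    intro i k l
    rw [hc.cxxx]; exact hchr i k l
  rw [ric, h.der.add, ar1_sum h.der, ar1_sum h.der, Finset.sum_eq_zero, Finset.sum_eq_zero, add_zero]
  · intro K _
    rw [ar1_sum h.der]
    apply Finset.sum_eq_zero
    intro L _
    rw [ar1_sub h.der]
    have e1 : D 0 (chr D (amb t ρ g) (ambInv ti ρ gi) K K L * chr D (amb t ρ g) (ambInv ti ρ gi) L 1 J)
        = 0 := by
      revert L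
      refine fun L _ => ?_
      refine ar1_cases3 (fun L => D 0 (chr D (amb t ρ g) (ambInv ti ρ gi) K K L *
        chr D (amb t ρ g) (ambInv ti ρ gi) L 1 J) = 0) ?_ ?_ ?_ L
      · simp only [h0, mul_zero, hz]
      · simp only [h1, mul_zero, hz]
      · intro y
        have e : D 0 (chr D (amb t ρ g) (ambInv ti ρ gi) K K y.succ.succ) = 0 := by
          refine ar1_cases3 (fun K => D 0 (chr D (amb t ρ g) (ambInv ti ρ gi) K K y.succ.succ) = 0)
            ?_ ?_ ?_ K
          · simp only [hc.c00x, hz]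
          · simp only [hc.c11x, hz]
          · intro x; exact hxxx x x y
        rw [h.der.mul, e, hx]
        ring
    have e2 : D 0 (chr D (amb t ρ g) (ambInv ti ρ gi) K J L * chr D (amb t ρ g) (ambInv ti ρ gi) L 1 K)
        = 0 := by
      refine ar1_cases3 (fun L => D 0 (chr D (amb t ρ g) (ambInv ti ρ gi) K J L *
        chr D (amb t ρ g) (ambInv ti ρ gi) L 1 K) = 0) ?_ ?_ ?_ L
      · have e : chr D (amb t ρ g) (ambInv ti ρ gi) 0 1 K = 0 :=
          ar1_cases3 (fun K => chr D (amb t ρ g) (ambInv ti ρ gi) 0 1 K = 0) hc.c010 hc.c011 hc.c01x K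
        simp only [e, mul_zero, hz]
      · refine ar1_cases3 (fun K => D 0 (chr D (amb t ρ g) (ambInv ti ρ gi) K J 1 *
          chr D (amb t ρ g) (ambInv ti ρ gi) 1 1 K) = 0) ?_ ?_ ?_ K
        · simp only [h0', zero_mul, hz]
        · simp only [hc.c111, mul_zero, hz]
        · intro x; simp only [hc.c11x, mul_zero, hz]
      · intro y
        refine ar1_cases3 (fun K => D 0 (chr D (amb t ρ g) (ambInv ti ρ gi) K J y.succ.succ *
          chr D (amb t ρ g) (ambInv ti ρ gi) y.succ.succ 1 K) = 0) ?_ ?_ ?_ K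
        · simp only [hc.cx10, mul_zero, hz]
        · simp only [hc.cx11, mul_zero, hz]
        · intro x
          rw [h.der.mul, hxx, hx1]
          ring
    rw [e1, e2, sub_zero]
  · intro K _
    rw [ar1_sub h.der]
    have e1 : D 0 (D K (chr D (amb t ρ g) (ambInv ti ρ gi) K 1 J)) = 0 := by
      rw [h.der.comm]
      refine ar1_cases3 (fun K => D K (D 0 (chr D (amb t ρ g) (ambInv ti ρ gi) K 1 J)) = 0) ?_ ?_ ?_ K
      · simp only [h0, hz]
      · simp only [h1, hz]
      · intro i; simp only [hx, hz]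
    have e2 : D 0 (D J (chr D (amb t ρ g) (ambInv ti ρ gi) K 1 K)) = 0 := by
      rw [h.der.comm]
      have e : D 0 (chr D (amb t ρ g) (ambInv ti ρ gi) K 1 K) = 0 := by
        refine ar1_cases3 (fun K => D 0 (chr D (amb t ρ g) (ambInv ti ρ gi) K 1 K) = 0) ?_ ?_ ?_ K
        · simp only [hc.c010, hz]
        · simp only [hc.c111, hz]
        · intro i; exact hx1 i i
      rw [e, hz]
    rw [e1, e2, sub_zero]

theorem amb_r1 {n : ℕ} {A : Type} [CommRing A] [Algebra ℝ A] {D : Fin (n + 2) → A → A}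
    {t ti ρ : A} {g gi : Fin n → Fin n → A} (h : AmbRing D t ti ρ g gi)
    (hc : AmbChr D t ti ρ g gi) :
    D 0 (ric D (amb t ρ g) (ambInv ti ρ gi) 1 1) = 0 ∧
    ∀ j : Fin n, D 0 (ric D (amb t ρ g) (ambInv ti ρ gi) 1 j.succ.succ) = 0 := by
  obtain ⟨-, -, -, hgi, -, hchr⟩ := amb_dti h
  have hz := fun i => ar1_zero h.der i
  have hG : ∀ k j : Fin n, D 0 ((1 / 2 : ℝ) • ∑ l, gi k l * D 1 (g l j)) = 0 := by
    intro k j
    rw [h.der.smul, ar1_sum h.der, Finset.sum_eq_zero, smul_zero]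
    intro l _
    rw [h.der.mul, hgi, h.der.comm, h.Dg, hz]
    ring
  constructor
  · refine ar1_main h hc 1 hc.c011 hc.c011 hc.c111 ?_ ?_
    · intro i; rw [hc.cx11, hz]
    · intro i k; rw [hc.cx1x]; exact hG i k
  · intro j
    refine ar1_main h hc j.succ.succ (hc.c01x j) (hc.c0x1 j) (hc.c11x j) ?_ ?_
    · intro i; rw [hc.cx1x]; exact hG i j
    · intro i k; rw [hc.cxxx]; exact hchr i j k

end Z_amb_r1

alias amb_r1 := Z_amb_r1.amb_r1

end CInv
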