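import Pool.Agent.Helper767.Gjms.Defs2
import Pool.Agent.Helper771.CInv.P_gi_symm
import Pool.Agent.Helper771.CInv.P_metric_compat
import Pool.Agent.Helper767.Gjms.P_amb_metric
import Pool.Agent.Helper767.Gjms.P_amb_dti

set_option linter.all false

open scoped BigOperators

namespace CInv

namespace Z_amb_rxx

theorem amb_rxx_a {n : ℕ} {A : Type} [CommRing A] [Algebra ℝ A] {D : Fin (n + 2) → A → A}
    {t ti ρ : A} {g gi : Fin n → Fin n → A} (h : AmbRing D t ti ρ g gi)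
    (hc : AmbChr D t ti ρ g gi) (i j : Fin n) :
    (∑ K, (D K (chr D (amb t ρ g) (ambInv ti ρ gi) K i.succ.succ j.succ.succ)
      - D j.succ.succ (chr D (amb t ρ g) (ambInv ti ρ gi) K i.succ.succ K)))
    = -((1 / 2 : ℝ) • D 1 (g i j)) + ρ * D 1 (D 1 (g i j))
      + ∑ k, (D k.succ.succ (chr (fun i : Fin n => D i.succ.succ) g gi k i j)
        - D j.succ.succ (chr (fun i : Fin n => D i.succ.succ) g gi k i k)) := by
  have hadd := h.der.add
  have hz : ∀ K, D K 0 = 0 := by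
    intro K
    have := h.der.add K 0 0
    rw [add_zero] at this
    exact left_eq_add.1 this
  have hneg : ∀ K a, D K (-a) = - D K a := by
    intro K a
    have := h.der.add K a (-a)
    rw [add_neg_cancel, hz] at this
    exact (neg_eq_of_add_eq_zero_right this.symm).symm
  rw [Fin.sum_univ_succ, Fin.sum_univ_succ]
  simp only [Fin.succ_zero_eq_one, hc.c0xx, hc.c0x0, hc.c1xx, hc.c1x1, hc.cxxx]
  rw [hneg, h.der.smul, h.der.mul, h.Dt0, h.der.comm 0 1, h.Dg, hz, hz, h.der.add, hneg,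
    h.der.mul, h.Dr1]
  simp only [one_mul, mul_zero, add_zero, sub_zero]
  ring

theorem amb_rxx_b {n : ℕ} {A : Type} [CommRing A] [Algebra ℝ A] {D : Fin (n + 2) → A → A}
    {t ti ρ : A} {g gi : Fin n → Fin n → A} (h : AmbRing D t ti ρ g gi)
    (hc : AmbChr D t ti ρ g gi) (i j : Fin n) :
    (∑ K, ∑ L, chr D (amb t ρ g) (ambInv ti ρ gi) K K L *
      chr D (amb t ρ g) (ambInv ti ρ gi) L i.succ.succ j.succ.succ)
    = -(((n : ℝ) + 1) / 2) • D 1 (g i j)
      + (1 / 2 : ℝ) • (trp (D 1) g gi * (-(g i j) + ρ * D 1 (g i j)))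
      + ∑ k, ∑ l, chr (fun i : Fin n => D i.succ.succ) g gi k k l *
        chr (fun i : Fin n => D i.succ.succ) g gi l i j := by
  simp only [Fin.sum_univ_succ, Fin.succ_zero_eq_one, hc.c000, hc.c001, hc.c010, hc.c011,
    hc.c00x, hc.c0x0, hc.c01x, hc.c0x1, hc.c0xx, hc.c100, hc.c101, hc.c110, hc.c111, hc.c10x,
    hc.c1x0, hc.c11x, hc.c1x1, hc.c1xx, hc.cx00, hc.cx01, hc.cx10, hc.cx11, hc.cx0x, hc.cxx0,
    hc.cx1x, hc.cxx1, hc.cxxx, if_true, zero_mul, Finset.sum_const_zero, zero_add, add_zero]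
  have e0 : ∀ X : A, ti * -((1 / 2 : ℝ) • (t * X)) = -((1 / 2 : ℝ) • X) := by
    intro X
    rw [mul_neg, mul_smul_comm, ← mul_assoc, mul_comm ti t, h.tti, one_mul]
  have e1 : ∑ x, ((1 / 2 : ℝ) • ∑ l, gi x l * D 1 (g l x)) * (-g i j + ρ * D 1 (g i j)) =
      (1 / 2 : ℝ) • (trp (D 1) g gi * (-(g i j) + ρ * D 1 (g i j))) := by
    unfold trp
    rw [← Finset.sum_mul, ← Finset.smul_sum, smul_mul_assoc]
    congr 2
    refine Finset.sum_congr rfl fun x _ => Finset.sum_congr rfl fun l _ => ?_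
    rw [h.met.symm l x]
  simp only [Finset.sum_add_distrib, Finset.sum_const, Finset.card_univ, Fintype.card_fin, e0]
  rw [e1, ← Nat.cast_smul_eq_nsmul ℝ]
  module

theorem amb_rxx_c {n : ℕ} {A : Type} [CommRing A] [Algebra ℝ A] {D : Fin (n + 2) → A → A}
    {t ti ρ : A} {g gi : Fin n → Fin n → A} (h : AmbRing D t ti ρ g gi)
    (hc : AmbChr D t ti ρ g gi) (i j : Fin n) :
    (∑ K, ∑ L, chr D (amb t ρ g) (ambInv ti ρ gi) K j.succ.succ L *
      chr D (amb t ρ g) (ambInv ti ρ gi) L i.succ.succ K)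
    = -((2 : ℝ) • D 1 (g i j))
      + ρ * (∑ k, ∑ l, gi k l * D 1 (g i k) * D 1 (g j l))
      + ∑ k, ∑ l, chr (fun i : Fin n => D i.succ.succ) g gi k j l *
        chr (fun i : Fin n => D i.succ.succ) g gi l i k := by
  simp only [Fin.sum_univ_succ, Fin.succ_zero_eq_one, hc.c000, hc.c001, hc.c010, hc.c011,
    hc.c00x, hc.c0x0, hc.c01x, hc.c0x1, hc.c0xx, hc.c100, hc.c101, hc.c110, hc.c111, hc.c10x,
    hc.c1x0, hc.c11x, hc.c1x1, hc.c1xx, hc.cx00, hc.cx01, hc.cx10, hc.cx11, hc.cx0x, hc.cxx0,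
    hc.cx1x, hc.cxx1, hc.cxxx, if_true, zero_mul, mul_zero, Finset.sum_const_zero, zero_add, add_zero]
  have e0 : ∀ X : A, ti * -((1 / 2 : ℝ) • (t * X)) = -((1 / 2 : ℝ) • X) := by
    intro X
    rw [mul_neg, mul_smul_comm, ← mul_assoc, mul_comm ti t, h.tti, one_mul]
  have hgs := (gi_symm h.met).1
  have hX : ∀ a b : Fin n, ∑ x, g a x * ∑ l, gi x l * D 1 (g l b) = D 1 (g a b) := by
    intro a b
    have : ∀ x, g a x * ∑ l, gi x l * D 1 (g l b) = ∑ l, (g a x * gi x l) * D 1 (g l b) := by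
      intro x
      rw [Finset.mul_sum]
      exact Finset.sum_congr rfl fun l _ => by ring
    simp only [this]
    rw [Finset.sum_comm]
    simp only [← Finset.sum_mul, h.met.inv]
    simp
  have f1 : (∑ x, -((1 / 2 : ℝ) • (t * D 1 (g j x))) * if x = i then ti else 0) =
      -((1 / 2 : ℝ) • D 1 (g i j)) := by
    rw [Finset.sum_eq_single i (by intro b _ hb; simp [hb]) (by simp)]
    rw [if_pos rfl, mul_comm, e0, h.met.symm j i]
  have f3 : (∑ x, (if x = j then ti else 0) * -((1 / 2 : ℝ) • (t * D 1 (g i x)))) =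
      -((1 / 2 : ℝ) • D 1 (g i j)) := by
    rw [Finset.sum_eq_single j (by intro b _ hb; simp [hb]) (by simp)]
    rw [if_pos rfl, e0]
  have f2 : ∑ x, (-g j x + ρ * D 1 (g j x)) * ((1 / 2 : ℝ) • ∑ l, gi x l * D 1 (g l i)) =
      -((1 / 2 : ℝ) • D 1 (g i j)) +
        (1 / 2 : ℝ) • (ρ * ∑ k, ∑ l, gi k l * D 1 (g i k) * D 1 (g j l)) := by
    have : ∀ x, (-g j x + ρ * D 1 (g j x)) * ((1 / 2 : ℝ) • ∑ l, gi x l * D 1 (g l i)) =
        -((1 / 2 : ℝ) • (g j x * ∑ l, gi x l * D 1 (g l i))) +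
          (1 / 2 : ℝ) • (ρ * ∑ l, gi l x * D 1 (g i l) * D 1 (g j x)) := by
      intro x
      have h2 : ∑ l, gi l x * D 1 (g i l) * D 1 (g j x) =
          D 1 (g j x) * ∑ l, gi x l * D 1 (g l i) := by
        rw [Finset.mul_sum]
        refine Finset.sum_congr rfl fun l _ => ?_
        rw [hgs l x, h.met.symm i l]
        ring
      rw [h2, mul_smul_comm, ← smul_neg, ← smul_add]
      congr 1
      ring
    simp only [this]
    rw [Finset.sum_add_distrib, Finset.sum_neg_distrib, ← Finset.smul_sum, ← Finset.smul_sum, hX,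
      ← Finset.mul_sum, h.met.symm j i, Finset.sum_comm]
  have f4 : ∑ x, ((1 / 2 : ℝ) • ∑ l, gi x l * D 1 (g l j)) * (-g i x + ρ * D 1 (g i x)) =
      -((1 / 2 : ℝ) • D 1 (g i j)) +
        (1 / 2 : ℝ) • (ρ * ∑ k, ∑ l, gi k l * D 1 (g i k) * D 1 (g j l)) := by
    have : ∀ x, ((1 / 2 : ℝ) • ∑ l, gi x l * D 1 (g l j)) * (-g i x + ρ * D 1 (g i x)) =
        -((1 / 2 : ℝ) • (g i x * ∑ l, gi x l * D 1 (g l j))) +
          (1 / 2 : ℝ) • (ρ * ∑ l, gi x l * D 1 (g i x) * D 1 (g j l)) := by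
      intro x
      have h2 : ∑ l, gi x l * D 1 (g i x) * D 1 (g j l) =
          D 1 (g i x) * ∑ l, gi x l * D 1 (g l j) := by
        rw [Finset.mul_sum]
        refine Finset.sum_congr rfl fun l _ => ?_
        rw [h.met.symm j l]
        ring
      rw [h2, smul_mul_assoc, ← smul_neg, ← smul_add]
      congr 1
      ring
    simp only [this]
    rw [Finset.sum_add_distrib, Finset.sum_neg_distrib, ← Finset.smul_sum, ← Finset.smul_sum, hX,
      ← Finset.mul_sum]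
  simp only [Finset.sum_add_distrib]
  rw [f1, f2, f3, f4]
  module

theorem amb_rxx {n : ℕ} {A : Type} [CommRing A] [Algebra ℝ A] {D : Fin (n + 2) → A → A}
    {t ti ρ : A} {g gi : Fin n → Fin n → A} (h : AmbRing D t ti ρ g gi)
    (hc : AmbChr D t ti ρ g gi) (i j : Fin n) :
    ric D (amb t ρ g) (ambInv ti ρ gi) i.succ.succ j.succ.succ
      = fg (D 1) (fun i : Fin n => D i.succ.succ) ρ g gi i j := by
  unfold ric fg
  rw [amb_rxx_a h hc]
  simp only [Finset.sum_sub_distrib]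
  rw [amb_rxx_b h hc, amb_rxx_c h hc]
  unfold ric
  simp only [Finset.sum_sub_distrib]
  have e1 : (1 / 2 : ℝ) • (trp (D 1) g gi * (-(g i j) + ρ * D 1 (g i j))) =
    (1 / 2 : ℝ) • (ρ * trp (D 1) g gi * D 1 (g i j)) - (1 / 2 : ℝ) • (trp (D 1) g gi * g i j) := by
    rw [← smul_sub]; congr 1; ring
  rw [e1]
  module

end Z_amb_rxx

alias amb_rxx := Z_amb_rxx.amb_rxx

end CInv
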