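import Pool.Agent.Helper767.Gjms.Defs2
import Pool.Agent.Helper771.CInv.P_gi_symm
import Pool.Agent.Helper771.CInv.P_ric_symm
import Pool.Agent.Helper771.CInv.P_metric_compat
import Pool.Agent.Helper767.Gjms.P_amb_metric
import Pool.Agent.Helper767.Gjms.P_amb_chr
import Pool.Agent.Helper767.Gjms.P_amb_dti
import Pool.Agent.Helper767.Gjms.P_amb_rxx
import Pool.Agent.Helper767.Gjms.P_amb_r0
import Pool.Agent.Helper767.Gjms.P_amb_r1

set_option linter.all false

open scoped BigOperators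

namespace CInv

namespace Z_amb_ric

theorem ar_zero {n : ℕ} {A : Type} [CommRing A] [Algebra ℝ A] {D : Fin n → A → A}
    (hD : IsDer D) (i : Fin n) : D i 0 = 0 := by
  have h := hD.add i 0 0
  rw [add_zero] at h
  exact left_eq_add.mp h

theorem ar_one {n : ℕ} {A : Type} [CommRing A] [Algebra ℝ A] {D : Fin n → A → A}
    (hD : IsDer D) (i : Fin n) : D i 1 = 0 := by
  have h := hD.mul i 1 1
  rw [mul_one, mul_one, one_mul] at h
  exact left_eq_add.mp h

/-- the kernel of a derivation -/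
def arS {n : ℕ} {A : Type} [CommRing A] [Algebra ℝ A] {D : Fin n → A → A}
    (hD : IsDer D) (i : Fin n) : Subalgebra ℝ A where
  carrier := {a | D i a = 0}
  mul_mem' := by
    intro a b ha hb
    show D i (a * b) = 0
    rw [hD.mul, show D i a = 0 from ha, show D i b = 0 from hb]
    ring
  add_mem' := by
    intro a b ha hb
    show D i (a + b) = 0
    rw [hD.add, show D i a = 0 from ha, show D i b = 0 from hb]
    ring
  algebraMap_mem' := by
    intro r
    show D i (algebraMap ℝ A r) = 0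
    rw [Algebra.algebraMap_eq_smul_one, hD.smul, ar_one hD, smul_zero]

theorem ar_D {n : ℕ} {A : Type} [CommRing A] [Algebra ℝ A] {D : Fin n → A → A}
    (hD : IsDer D) (i j : Fin n) {a : A} (ha : a ∈ arS hD i) : D j a ∈ arS hD i := by
  show D i (D j a) = 0
  rw [hD.comm, show D i a = 0 from ha, ar_zero hD]

theorem ar_txx {n : ℕ} {A : Type} [CommRing A] [Algebra ℝ A] {D : Fin (n + 2) → A → A}
    {t ti ρ : A} {g gi : Fin n → Fin n → A} (h : AmbRing D t ti ρ g gi) (i j : Fin n) :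
    fg (D 1) (fun i : Fin n => D i.succ.succ) ρ g gi i j ∈ arS h.der 0 := by
  obtain ⟨-, -, -, hgi, -, hchr⟩ := amb_dti h
  have hρ : ρ ∈ arS h.der 0 := h.Dr0
  have hg : ∀ i j, g i j ∈ arS h.der 0 := h.Dg
  have hgi' : ∀ i j, gi i j ∈ arS h.der 0 := hgi
  have hchr' : ∀ k i j, chr (fun i : Fin n => D i.succ.succ) g gi k i j ∈ arS h.der 0 := hchr
  have htr : trp (D 1) g gi ∈ arS h.der 0 := by
    unfold trp
    exact sum_mem fun k _ => sum_mem fun l _ => mul_mem (hgi' k l) (ar_D h.der 0 1 (hg k l))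
  have hric : ric (fun i : Fin n => D i.succ.succ) g gi i j ∈ arS h.der 0 := by
    unfold ric
    refine add_mem (sum_mem fun k _ => sub_mem (ar_D h.der 0 _ (hchr' k i j))
      (ar_D h.der 0 _ (hchr' k i k))) (sum_mem fun k _ => sum_mem fun l _ => sub_mem
      (mul_mem (hchr' _ _ _) (hchr' _ _ _)) (mul_mem (hchr' _ _ _) (hchr' _ _ _)))
  unfold fg
  refine add_mem (sub_mem (sub_mem (add_mem (sub_mem ?_ ?_) ?_) ?_) ?_) hric
  · exact mul_mem hρ (ar_D h.der 0 1 (ar_D h.der 0 1 (hg i j)))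
  · exact mul_mem hρ (sum_mem fun k _ => sum_mem fun l _ => mul_mem (mul_mem (hgi' k l)
      (ar_D h.der 0 1 (hg i k))) (ar_D h.der 0 1 (hg j l)))
  · exact (arS h.der 0).smul_mem (mul_mem (mul_mem hρ htr) (ar_D h.der 0 1 (hg i j))) _
  · exact (arS h.der 0).smul_mem (ar_D h.der 0 1 (hg i j)) _
  · exact (arS h.der 0).smul_mem (mul_mem htr (hg i j)) _

theorem amb_ric {n : ℕ} {A : Type} [CommRing A] [Algebra ℝ A] {D : Fin (n + 2) → A → A}
    {t ti ρ : A} {g gi : Fin n → Fin n → A} (h : AmbRing D t ti ρ g gi) :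
    AmbRic D t ti ρ g gi := by
  have hc := amb_chr h
  refine ⟨amb_r0 h hc, fun J => ?_, amb_rxx h hc, (amb_r1 h hc).1, (amb_r1 h hc).2,
    fun i j => ?_⟩
  · rw [ric_symm h.der (amb_metric h)]
    exact amb_r0 h hc J
  · rw [amb_rxx h hc]
    exact ar_txx h i j

end Z_amb_ric

alias amb_ric := Z_amb_ric.amb_ric

end CInv
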