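import Pool.Agent.Helper767.Gjms.Defs2
import Pool.Agent.Helper771.CInv.P_gi_symm
import Pool.Agent.Helper771.CInv.P_bianchi
import Pool.Agent.Helper771.CInv.P_ric_symm
import Pool.Agent.Helper771.CInv.P_metric_compat
import Pool.Agent.Helper767.Gjms.P_amb_metric
import Pool.Agent.Helper767.Gjms.P_amb_chr
import Pool.Agent.Helper767.Gjms.P_amb_dti
import Pool.Agent.Helper767.Gjms.P_amb_ric

set_option linter.all false

open scoped BigOperators

namespace CInv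

namespace Z_amb_b1

theorem j21329_sum2 {n : ℕ} {A : Type} [CommRing A] (f : Fin (n + 2) → A) :
    ∑ i, f i = f 0 + f 1 + ∑ i : Fin n, f i.succ.succ := by
  rw [Fin.sum_univ_succ, Fin.sum_univ_succ]
  exact (add_assoc _ _ _).symm

theorem j21329_S {n : ℕ} {A : Type} [CommRing A] (ti ρ : A) (gi : Fin n → Fin n → A)
    (T : Fin (n + 2) → Fin (n + 2) → A) :
    ∑ a, ∑ c, ambInv ti ρ gi a c * T a c = ti * T 0 1 + ti * T 1 0 - 2 * ρ * ti ^ 2 * T 1 1
      + ti ^ 2 * ∑ k : Fin n, ∑ l : Fin n, gi k l * T k.succ.succ l.succ.succ := by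
  have e00 : ambInv ti ρ gi 0 0 = 0 := rfl
  have e01 : ambInv ti ρ gi 0 1 = ti := rfl
  have e10 : ambInv ti ρ gi 1 0 = ti := rfl
  have e11 : ambInv ti ρ gi 1 1 = -(2 * ρ * ti ^ 2) := rfl
  have e0x : ∀ i : Fin n, ambInv ti ρ gi 0 i.succ.succ = 0 := fun _ => rfl
  have ex0 : ∀ i : Fin n, ambInv ti ρ gi i.succ.succ 0 = 0 := fun _ => rfl
  have e1x : ∀ i : Fin n, ambInv ti ρ gi 1 i.succ.succ = 0 := fun _ => rfl
  have ex1 : ∀ i : Fin n, ambInv ti ρ gi i.succ.succ 1 = 0 := fun _ => rfl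
  have exx : ∀ i j : Fin n, ambInv ti ρ gi i.succ.succ j.succ.succ = ti ^ 2 * gi i j :=
    fun _ _ => rfl
  simp only [j21329_sum2, e00, e01, e10, e11, e0x, ex0, e1x, ex1, exx, zero_mul,
    Finset.sum_const_zero, add_zero, zero_add, Finset.mul_sum, mul_assoc]
  ring

theorem j21329_D0 {n : ℕ} {A : Type} [CommRing A] [Algebra ℝ A] {D : Fin n → A → A}
    (hD : IsDer D) (i : Fin n) : D i 0 = 0 := by
  have := hD.smul i 0 0
  rwa [zero_smul, zero_smul] at this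

theorem j21329_Dneg {n : ℕ} {A : Type} [CommRing A] [Algebra ℝ A] {D : Fin n → A → A}
    (hD : IsDer D) (i : Fin n) (a : A) : D i (-a) = -D i a := by
  have := hD.smul i (-1) a
  rwa [neg_one_smul, neg_one_smul] at this

theorem j21329_Dsub {n : ℕ} {A : Type} [CommRing A] [Algebra ℝ A] {D : Fin n → A → A}
    (hD : IsDer D) (i : Fin n) (a b : A) : D i (a - b) = D i a - D i b := by
  rw [sub_eq_add_neg, hD.add, j21329_Dneg hD, ← sub_eq_add_neg]

theorem j21329_D1 {n : ℕ} {A : Type} [CommRing A] [Algebra ℝ A] {D : Fin n → A → A}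
    (hD : IsDer D) (i : Fin n) : D i 1 = 0 := by
  have := hD.mul i 1 1
  rw [mul_one, mul_one, one_mul] at this
  exact left_eq_add.1 this

theorem j21329_Dpow {n : ℕ} {A : Type} [CommRing A] [Algebra ℝ A] {D : Fin n → A → A}
    (hD : IsDer D) (i : Fin n) (a : A) (ha : D i a = 0) (s : ℕ) : D i (a ^ s) = 0 := by
  induction s with
  | zero => rw [pow_zero]; exact j21329_D1 hD i
  | succ s ih => rw [pow_succ, hD.mul, ih, ha, zero_mul, mul_zero, add_zero]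

theorem j21329_Dideal {n : ℕ} {A : Type} [CommRing A] [Algebra ℝ A] {D : Fin n → A → A}
    (hD : IsDer D) (i : Fin n) (a : A) (ha : D i a = 0) (s : ℕ) {x : A}
    (hx : x ∈ Ideal.span {a ^ s}) : D i x ∈ Ideal.span {a ^ s} := by
  rw [Ideal.mem_span_singleton] at hx ⊢
  obtain ⟨u, rfl⟩ := hx
  rw [hD.mul, j21329_Dpow hD i a ha, zero_mul, zero_add]
  exact dvd_mul_right _ _

theorem amb_b1 {n : ℕ} {A : Type} [CommRing A] [Algebra ℝ A] {D : Fin (n + 2) → A → A}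
    {t ti ρ : A} {g gi : Fin n → Fin n → A} (h : AmbRing D t ti ρ g gi) (s : ℕ)
    (hR : ∀ i j : Fin n, ric D (amb t ρ g) (ambInv ti ρ gi) i.succ.succ j.succ.succ
      ∈ Ideal.span {ρ ^ s}) (j : Fin n) :
    ((n : ℝ) - 2) • ric D (amb t ρ g) (ambInv ti ρ gi) 1 j.succ.succ
      - 2 * ρ * D 1 (ric D (amb t ρ g) (ambInv ti ρ gi) 1 j.succ.succ)
      - ρ * trp (D 1) g gi * ric D (amb t ρ g) (ambInv ti ρ gi) 1 j.succ.succ
      + ρ * D j.succ.succ (ric D (amb t ρ g) (ambInv ti ρ gi) 1 1)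
      ∈ Ideal.span {ρ ^ s} := by
  classical
  have hD := h.der
  have hm := amb_metric h
  have hC := amb_chr h
  have hRic := amb_ric h
  have hsy : ∀ I J, ric D (amb t ρ g) (ambInv ti ρ gi) I J = ric D (amb t ρ g) (ambInv ti ρ gi) J I :=
    fun I J => ric_symm hD hm I J
  obtain ⟨hdt0, hdt1, hdtx, _, hDx, _⟩ := amb_dti h
  obtain ⟨hgis, hgig⟩ := gi_symm h.met
  have hb := bianchi hD hm j.succ.succ
  obtain ⟨h2, hh2⟩ : ∃ h2 : A, h2 = algebraMap ℝ A (1 / 2) := ⟨_, rfl⟩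
  have h22 : 2 * h2 = 1 := by
    rw [hh2, show (2 : A) = algebraMap ℝ A 2 by rw [map_ofNat], ← map_mul]
    norm_num
  have hhalf : ∀ x : A, (1 / 2 : ℝ) • x = h2 * x := fun x => by rw [Algebra.smul_def, hh2]
  -- names
  obtain ⟨Rm, hRm⟩ : ∃ Rm : Fin (n + 2) → Fin (n + 2) → A,
      Rm = ric D (amb t ρ g) (ambInv ti ρ gi) := ⟨_, rfl⟩
  have hscal : scal D (amb t ρ g) (ambInv ti ρ gi) = -(2 * ρ * ti ^ 2 * Rm 1 1)
      + ti ^ 2 * ∑ k : Fin n, ∑ l : Fin n, gi k l * Rm k.succ.succ l.succ.succ := by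
    unfold scal
    rw [← hRm, j21329_S ti ρ gi Rm, hRm, hRic.r0, hRic.r0']
    ring
  have hr0 : ∀ J, Rm 0 J = 0 := by rw [hRm]; exact hRic.r0
  have hr0' : ∀ J, Rm J 0 = 0 := by rw [hRm]; exact hRic.r0'
  have ht1x : ∀ j : Fin n, D 0 (Rm 1 j.succ.succ) = 0 := by rw [hRm]; exact hRic.t1x
  rw [← hRm] at hsy hb hR ⊢
  rw [hscal] at hb
  have hsum := j21329_S ti ρ gi (fun a c => D c (Rm a j.succ.succ)
      - (∑ k, chr D (amb t ρ g) (ambInv ti ρ gi) k c a * Rm k j.succ.succ)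
      - ∑ k, chr D (amb t ρ g) (ambInv ti ρ gi) k c j.succ.succ * Rm a k)
  rw [hb] at hsum
  -- the four kinds of terms
  have e01 : D 1 (Rm 0 j.succ.succ)
      - (∑ k, chr D (amb t ρ g) (ambInv ti ρ gi) k 1 0 * Rm k j.succ.succ)
      - ∑ k, chr D (amb t ρ g) (ambInv ti ρ gi) k 1 j.succ.succ * Rm 0 k
      = -(ti * Rm 1 j.succ.succ) := by
    simp only [hr0, mul_zero, Finset.sum_const_zero, j21329_D0 hD]
    rw [j21329_sum2]
    simp only [hC.c010, hC.c110, hC.cx10, zero_mul, Finset.sum_const_zero]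
    ring
  have e10 : D 0 (Rm 1 j.succ.succ)
      - (∑ k, chr D (amb t ρ g) (ambInv ti ρ gi) k 0 1 * Rm k j.succ.succ)
      - ∑ k, chr D (amb t ρ g) (ambInv ti ρ gi) k 0 j.succ.succ * Rm 1 k
      = -(2 * ti * Rm 1 j.succ.succ) := by
    rw [ht1x, j21329_sum2, j21329_sum2]
    simp only [hC.c001, hC.c101, hC.cx01, hC.c00x, hC.c10x, hC.cx0x, zero_mul,
      Finset.sum_const_zero, ite_mul, Finset.sum_ite_eq', Finset.mem_univ, if_true]
    ring
  have e11 : D 1 (Rm 1 j.succ.succ)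
      - (∑ k, chr D (amb t ρ g) (ambInv ti ρ gi) k 1 1 * Rm k j.succ.succ)
      - ∑ k, chr D (amb t ρ g) (ambInv ti ρ gi) k 1 j.succ.succ * Rm 1 k
      = D 1 (Rm 1 j.succ.succ)
        - h2 * ∑ k : Fin n, ∑ l : Fin n, gi k l * (D 1 (g l j) * Rm 1 k.succ.succ) := by
    rw [j21329_sum2, j21329_sum2]
    simp only [hC.c011, hC.c111, hC.cx11, hC.c01x, hC.c11x, hC.cx1x, zero_mul,
      Finset.sum_const_zero, hhalf]
    have e : ∑ k : Fin n, h2 * (∑ l : Fin n, gi k l * D 1 (g l j)) * Rm 1 k.succ.succ =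
        h2 * ∑ k : Fin n, ∑ l : Fin n, gi k l * (D 1 (g l j) * Rm 1 k.succ.succ) := by
      rw [Finset.mul_sum]
      refine Finset.sum_congr rfl fun k _ => ?_
      rw [mul_assoc, Finset.sum_mul]
      congr 1
      exact Finset.sum_congr rfl fun l _ => by ring
    rw [e]
    ring
  have exx : ∀ k l : Fin n, D l.succ.succ (Rm k.succ.succ j.succ.succ)
      - (∑ m, chr D (amb t ρ g) (ambInv ti ρ gi) m l.succ.succ k.succ.succ * Rm m j.succ.succ)
      - ∑ m, chr D (amb t ρ g) (ambInv ti ρ gi) m l.succ.succ j.succ.succ * Rm k.succ.succ m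
      = (D l.succ.succ (Rm k.succ.succ j.succ.succ)
      - (∑ m : Fin n, chr (fun i : Fin n => D i.succ.succ) g gi m l k * Rm m.succ.succ j.succ.succ)
      - ∑ m : Fin n, chr (fun i : Fin n => D i.succ.succ) g gi m l j * Rm k.succ.succ m.succ.succ)
      + (g l k - ρ * D 1 (g l k)) * Rm 1 j.succ.succ
      + (g l j - ρ * D 1 (g l j)) * Rm 1 k.succ.succ := by
    intro k l
    rw [j21329_sum2, j21329_sum2]
    simp only [hr0, hr0', mul_zero, hC.c1xx, hC.cxxx]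
    rw [hsy k.succ.succ 1]
    ring
  rw [e01, e10, e11] at hsum
  simp only [exx] at hsum
  -- sum identities
  have s1 : ∑ k : Fin n, ∑ l : Fin n, gi k l * g l k = (n : A) := by
    simp only [hgig, if_true, Finset.sum_const, Finset.card_univ, Fintype.card_fin,
      nsmul_eq_mul, mul_one]
  have s2 : ∑ k : Fin n, ∑ l : Fin n, gi k l * D 1 (g l k) = trp (D 1) g gi := by
    unfold trp
    exact Finset.sum_congr rfl fun k _ => Finset.sum_congr rfl fun l _ => by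
      rw [h.met.symm l k]
  have s3 : ∑ k : Fin n, ∑ l : Fin n, gi k l * (g l j * Rm 1 k.succ.succ)
      = Rm 1 j.succ.succ := by
    have : ∀ k : Fin n, ∑ l : Fin n, gi k l * (g l j * Rm 1 k.succ.succ) =
        (if k = j then 1 else 0) * Rm 1 k.succ.succ := by
      intro k
      rw [← hgig k j, Finset.sum_mul]
      exact Finset.sum_congr rfl fun l _ => by ring
    simp only [this, ite_mul, one_mul, zero_mul, Finset.sum_ite_eq', Finset.mem_univ, if_true]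
  obtain ⟨NR, hNR⟩ : ∃ NR : Fin n → Fin n → A, ∀ k l, NR k l = D l.succ.succ (Rm k.succ.succ j.succ.succ)
      - (∑ m : Fin n, chr (fun i : Fin n => D i.succ.succ) g gi m l k * Rm m.succ.succ j.succ.succ)
      - ∑ m : Fin n, chr (fun i : Fin n => D i.succ.succ) g gi m l j * Rm k.succ.succ m.succ.succ :=
    ⟨_, fun _ _ => rfl⟩
  have s4 : ∑ k : Fin n, ∑ l : Fin n, gi k l * (D l.succ.succ (Rm k.succ.succ j.succ.succ)
      - (∑ m : Fin n, chr (fun i : Fin n => D i.succ.succ) g gi m l k * Rm m.succ.succ j.succ.succ)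
      - (∑ m : Fin n, chr (fun i : Fin n => D i.succ.succ) g gi m l j * Rm k.succ.succ m.succ.succ)
      + (g l k - ρ * D 1 (g l k)) * Rm 1 j.succ.succ
      + (g l j - ρ * D 1 (g l j)) * Rm 1 k.succ.succ) =
      (∑ k : Fin n, ∑ l : Fin n, gi k l * NR k l) + (n : A) * Rm 1 j.succ.succ
        - ρ * trp (D 1) g gi * Rm 1 j.succ.succ + Rm 1 j.succ.succ
        - ρ * ∑ k : Fin n, ∑ l : Fin n, gi k l * (D 1 (g l j) * Rm 1 k.succ.succ) := by
    have key : ∀ k l : Fin n, gi k l * (D l.succ.succ (Rm k.succ.succ j.succ.succ)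
      - (∑ m : Fin n, chr (fun i : Fin n => D i.succ.succ) g gi m l k * Rm m.succ.succ j.succ.succ)
      - (∑ m : Fin n, chr (fun i : Fin n => D i.succ.succ) g gi m l j * Rm k.succ.succ m.succ.succ)
      + (g l k - ρ * D 1 (g l k)) * Rm 1 j.succ.succ
      + (g l j - ρ * D 1 (g l j)) * Rm 1 k.succ.succ) =
      gi k l * NR k l + (gi k l * g l k) * Rm 1 j.succ.succ
        - ρ * (gi k l * D 1 (g l k)) * Rm 1 j.succ.succ + gi k l * (g l j * Rm 1 k.succ.succ)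
        - ρ * (gi k l * (D 1 (g l j) * Rm 1 k.succ.succ)) := by
      intro k l
      rw [hNR]
      ring
    simp only [key, Finset.sum_add_distrib, Finset.sum_sub_distrib, ← Finset.mul_sum,
      ← Finset.sum_mul, s1, s2, s3]
  rw [s4] at hsum
  have hdρ : D j.succ.succ ρ = 0 := h.Drx j
  have hdti : D j.succ.succ ti = 0 := hdtx j
  have hcst : D j.succ.succ (2 * ρ * ti ^ 2) = 0 := by
    rw [hD.mul, two_mul, hD.add, hdρ, j21329_Dpow hD _ ti hdti]
    ring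
  have hDs : D j.succ.succ (-(2 * ρ * ti ^ 2 * Rm 1 1)
      + ti ^ 2 * ∑ k : Fin n, ∑ l : Fin n, gi k l * Rm k.succ.succ l.succ.succ) =
      -(2 * ρ * ti ^ 2 * D j.succ.succ (Rm 1 1))
      + ti ^ 2 * D j.succ.succ (∑ k : Fin n, ∑ l : Fin n, gi k l * Rm k.succ.succ l.succ.succ) := by
    rw [hD.add, j21329_Dneg hD, hD.mul, hcst, hD.mul _ (ti ^ 2), j21329_Dpow hD _ ti hdti]
    ring
  rw [hDs, hhalf] at hsum
  have hsm : ((n : ℝ) - 2) • Rm 1 j.succ.succ = ((n : A) - 2) * Rm 1 j.succ.succ := by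
    rw [Algebra.smul_def, map_sub, map_natCast, map_ofNat]
  rw [hsm]
  obtain ⟨W, hW⟩ : ∃ W : A, W = ∑ k : Fin n, ∑ l : Fin n,
      gi k l * (D 1 (g l j) * Rm 1 k.succ.succ) := ⟨_, rfl⟩
  obtain ⟨SN, hSN⟩ : ∃ SN : A, SN = ∑ k : Fin n, ∑ l : Fin n, gi k l * NR k l := ⟨_, rfl⟩
  obtain ⟨SR, hSR⟩ : ∃ SR : A, SR = ∑ k : Fin n, ∑ l : Fin n,
      gi k l * Rm k.succ.succ l.succ.succ := ⟨_, rfl⟩
  rw [← hW, ← hSN, ← hSR] at hsum
  have hQ : ti ^ 2 * (((n : A) - 2) * Rm 1 j.succ.succ - 2 * ρ * D 1 (Rm 1 j.succ.succ)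
      - ρ * trp (D 1) g gi * Rm 1 j.succ.succ + ρ * D j.succ.succ (Rm 1 1)
      - (-SN + h2 * D j.succ.succ SR)) = 0 := by
    linear_combination (-1 : A) * hsum - ρ * ti ^ 2 * (D j.succ.succ (Rm 1 1) + W) * h22
  have hQ2 : ((n : A) - 2) * Rm 1 j.succ.succ - 2 * ρ * D 1 (Rm 1 j.succ.succ)
      - ρ * trp (D 1) g gi * Rm 1 j.succ.succ + ρ * D j.succ.succ (Rm 1 1)
      = -SN + h2 * D j.succ.succ SR := by
    have h1 : (t * ti) ^ 2 = 1 := by rw [h.tti, one_pow]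
    rw [← sub_eq_zero]
    calc _ = (t * ti) ^ 2 * (((n : A) - 2) * Rm 1 j.succ.succ - 2 * ρ * D 1 (Rm 1 j.succ.succ)
      - ρ * trp (D 1) g gi * Rm 1 j.succ.succ + ρ * D j.succ.succ (Rm 1 1)
      - (-SN + h2 * D j.succ.succ SR)) := by rw [h1, one_mul]
      _ = t ^ 2 * (ti ^ 2 * (((n : A) - 2) * Rm 1 j.succ.succ - 2 * ρ * D 1 (Rm 1 j.succ.succ)
      - ρ * trp (D 1) g gi * Rm 1 j.succ.succ + ρ * D j.succ.succ (Rm 1 1)
      - (-SN + h2 * D j.succ.succ SR))) := by ring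
      _ = 0 := by rw [hQ, mul_zero]
  rw [hQ2]
  have hSRm : SR ∈ Ideal.span {ρ ^ s} := by
    rw [hSR]
    exact Ideal.sum_mem _ fun k _ => Ideal.sum_mem _ fun l _ => Ideal.mul_mem_left _ _ (hR k l)
  have hSNm : SN ∈ Ideal.span {ρ ^ s} := by
    rw [hSN]
    refine Ideal.sum_mem _ fun k _ => Ideal.sum_mem _ fun l _ => Ideal.mul_mem_left _ _ ?_
    rw [hNR]
    refine Ideal.sub_mem _ (Ideal.sub_mem _ ?_ ?_) ?_
    · exact j21329_Dideal hD _ ρ (h.Drx l) s (hR k j)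
    · exact Ideal.sum_mem _ fun m _ => Ideal.mul_mem_left _ _ (hR m j)
    · exact Ideal.sum_mem _ fun m _ => Ideal.mul_mem_left _ _ (hR k m)
  exact Ideal.add_mem _ (neg_mem hSNm)
    (Ideal.mul_mem_left _ _ (j21329_Dideal hD _ ρ hdρ s hSRm))

end Z_amb_b1

alias amb_b1 := Z_amb_b1.amb_b1

end CInv
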