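import Pool.Agent.Helper767.Gjms.Defs2
import Pool.Agent.Helper771.CInv.P_gi_symm
import Pool.Agent.Helper771.CInv.P_bianchi
import Pool.Agent.Helper771.CInv.P_ric_symm
import Pool.Agent.Helper771.CInv.P_metric_compat
import Pool.Agent.Helper767.Gjms.P_amb_metric
import Pool.Agent.Helper767.Gjms.P_amb_chr
import Pool.Agent.Helper767.Gjms.P_amb_dti
import Pool.Agent.Helper767.Gjms.P_amb_ric

set_option linter.all false

open scoped BigOperators

namespace CInv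

namespace Z_amb_b2

theorem b2_sum2 {n : ℕ} {A : Type} [CommRing A] (F : Fin (n + 2) → A) :
    ∑ a, F a = F 0 + F 1 + ∑ i : Fin n, F i.succ.succ := by
  rw [Fin.sum_univ_succ, Fin.sum_univ_succ]
  exact (add_assoc _ _ _).symm

theorem b2_invsum {n : ℕ} {A : Type} [CommRing A] (ti ρ : A) (gi : Fin n → Fin n → A)
    (X : Fin (n + 2) → Fin (n + 2) → A) :
    ∑ a, ∑ c, ambInv ti ρ gi a c * X a c = ti * X 0 1 + ti * X 1 0 - 2 * ρ * ti ^ 2 * X 1 1
      + ti ^ 2 * ∑ i : Fin n, ∑ j : Fin n, gi i j * X i.succ.succ j.succ.succ := by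
  have e00 : ambInv ti ρ gi 0 0 = 0 := rfl
  have e01 : ambInv ti ρ gi 0 1 = ti := rfl
  have e10 : ambInv ti ρ gi 1 0 = ti := rfl
  have e11 : ambInv ti ρ gi 1 1 = -(2 * ρ * ti ^ 2) := rfl
  have e0x : ∀ i : Fin n, ambInv ti ρ gi 0 i.succ.succ = 0 := fun i => rfl
  have ex0 : ∀ i : Fin n, ambInv ti ρ gi i.succ.succ 0 = 0 := fun i => rfl
  have e1x : ∀ i : Fin n, ambInv ti ρ gi 1 i.succ.succ = 0 := fun i => rfl
  have ex1 : ∀ i : Fin n, ambInv ti ρ gi i.succ.succ 1 = 0 := fun i => rfl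
  have exx : ∀ i j : Fin n, ambInv ti ρ gi i.succ.succ j.succ.succ = ti ^ 2 * gi i j :=
    fun i j => rfl
  rw [b2_sum2]
  simp only [b2_sum2 (n := n), e00, e01, e10, e11, e0x, ex0, e1x, ex1, exx, zero_mul,
    Finset.sum_const_zero, add_zero, zero_add]
  rw [Finset.mul_sum]
  simp only [Finset.mul_sum, mul_assoc]
  ring

theorem b2_Dzero {n : ℕ} {A : Type} [CommRing A] [Algebra ℝ A] {D : Fin n → A → A}
    (hD : IsDer D) (i : Fin n) : D i 0 = 0 := by
  have h := hD.add i 0 0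
  rw [add_zero] at h
  exact left_eq_add.mp h

theorem b2_Done {n : ℕ} {A : Type} [CommRing A] [Algebra ℝ A] {D : Fin n → A → A}
    (hD : IsDer D) (i : Fin n) : D i 1 = 0 := by
  have h := hD.mul i 1 1
  rw [mul_one, mul_one, one_mul] at h
  exact left_eq_add.mp h

theorem b2_Dneg {n : ℕ} {A : Type} [CommRing A] [Algebra ℝ A] {D : Fin n → A → A}
    (hD : IsDer D) (i : Fin n) (a : A) : D i (-a) = - D i a := by
  have h := hD.add i a (-a)
  rw [add_neg_cancel, b2_Dzero hD] at h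
  exact (neg_eq_of_add_eq_zero_right h.symm).symm

theorem b2_Dsub {n : ℕ} {A : Type} [CommRing A] [Algebra ℝ A] {D : Fin n → A → A}
    (hD : IsDer D) (i : Fin n) (a b : A) : D i (a - b) = D i a - D i b := by
  rw [sub_eq_add_neg, hD.add, b2_Dneg hD, ← sub_eq_add_neg]

theorem b2_span {n : ℕ} {A : Type} [CommRing A] [Algebra ℝ A] {D : Fin n → A → A}
    (hD : IsDer D) (i : Fin n) (ρ : A) (s : ℕ) {a : A} (ha : a ∈ Ideal.span {ρ ^ s}) :
    D i a ∈ Ideal.span {ρ ^ (s - 1)} := by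
  cases s with
  | zero => simp
  | succ s =>
    have hpow : ∀ k : ℕ, ∃ y, D i (ρ ^ (k + 1)) = ρ ^ k * y := by
      intro k
      induction k with
      | zero => exact ⟨D i ρ, by simp⟩
      | succ k ih =>
        obtain ⟨y, hy⟩ := ih
        refine ⟨y + D i ρ, ?_⟩
        rw [pow_succ ρ (k + 1), hD.mul, hy, pow_succ]
        ring
    rw [Ideal.mem_span_singleton'] at ha ⊢
    obtain ⟨x, rfl⟩ := ha
    obtain ⟨y, hy⟩ := hpow s
    refine ⟨D i x * ρ + x * y, ?_⟩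
    rw [hD.mul, hy]
    simp only [Nat.add_sub_cancel, pow_succ]
    ring

theorem amb_b2 {n : ℕ} {A : Type} [CommRing A] [Algebra ℝ A] {D : Fin (n + 2) → A → A}
    {t ti ρ : A} {g gi : Fin n → Fin n → A} (h : AmbRing D t ti ρ g gi) (s : ℕ)
    (hR : ∀ i j : Fin n, ric D (amb t ρ g) (ambInv ti ρ gi) i.succ.succ j.succ.succ
      ∈ Ideal.span {ρ ^ s}) :
    ((n : ℝ) - 2) • ric D (amb t ρ g) (ambInv ti ρ gi) 1 1
      - ρ * D 1 (ric D (amb t ρ g) (ambInv ti ρ gi) 1 1)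
      - ρ * trp (D 1) g gi * ric D (amb t ρ g) (ambInv ti ρ gi) 1 1
      + (∑ l : Fin n, ∑ m : Fin n, gi l m *
          (D l.succ.succ (ric D (amb t ρ g) (ambInv ti ρ gi) 1 m.succ.succ)
            - ∑ k : Fin n, chr (fun i : Fin n => D i.succ.succ) g gi k l m
                * ric D (amb t ρ g) (ambInv ti ρ gi) 1 k.succ.succ))
      ∈ Ideal.span {ρ ^ (s - 1)} := by
  have hM := amb_metric h
  have hC := amb_chr h
  have hRi := amb_ric h
  obtain ⟨hti0, hti1, htix, hgi0, hDx, -⟩ := amb_dti h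
  have hder := h.der
  have hsymR := ric_symm hder hM
  obtain ⟨hgs, hgi⟩ := gi_symm h.met
  have hB := bianchi hder hM (1 : Fin (n + 2))
  have hr0 := hRi.r0
  have hr0' := hRi.r0'
  have ht11 := hRi.t11
  have hsc : scal D (amb t ρ g) (ambInv ti ρ gi)
      = ∑ a, ∑ c, ambInv ti ρ gi a c * ric D (amb t ρ g) (ambInv ti ρ gi) a c := rfl
  rw [b2_invsum] at hsc hB
  clear hM hRi
  generalize hRdef : ric D (amb t ρ g) (ambInv ti ρ gi) = R at *
  have hz := b2_Dzero hder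
  -- the four kinds of terms
  simp only [b2_sum2 (n := n), hC.c000, hC.c001, hC.c010, hC.c011, hC.c00x, hC.c0x0, hC.c01x,
    hC.c0x1, hC.c0xx, hC.c100, hC.c101, hC.c110, hC.c111, hC.c10x, hC.c1x0, hC.c11x, hC.c1x1,
    hC.c1xx, hC.cx00, hC.cx01, hC.cx10, hC.cx11, hC.cx0x, hC.cxx0, hC.cx1x, hC.cxx1, hC.cxxx,
    hr0, hr0', ht11, hz, zero_mul, mul_zero, add_zero, zero_add, Finset.sum_const_zero,
    sub_zero, zero_sub] at hB hsc
  set S1 := ∑ i : Fin n, ∑ j : Fin n, gi i j * R i.succ.succ j.succ.succ with hS1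
  have hS1m : S1 ∈ Ideal.span {ρ ^ s} :=
    Ideal.sum_mem _ fun i _ => Ideal.sum_mem _ fun j _ => Ideal.mul_mem_left _ _ (hR i j)
  have hDS1 := b2_span hder 1 ρ s hS1m
  have hle : Ideal.span {ρ ^ s} ≤ Ideal.span {ρ ^ (s - 1)} := by
    rw [Ideal.span_singleton_le_span_singleton]
    exact pow_dvd_pow _ (Nat.sub_le _ _)
  -- the last sum
  set U := ∑ x : Fin n, ∑ y : Fin n, gi x y *
    ∑ k : Fin n, ((1 / 2 : ℝ) • ∑ l : Fin n, gi k l * D 1 (g l y)) * R x.succ.succ k.succ.succ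
    with hU
  have hUm : U ∈ Ideal.span {ρ ^ (s - 1)} :=
    hle (Ideal.sum_mem _ fun x _ => Ideal.sum_mem _ fun y _ => Ideal.mul_mem_left _ _
      (Ideal.sum_mem _ fun k _ => Ideal.mul_mem_left _ _ (hR x k)))
  set T := ∑ l : Fin n, ∑ m : Fin n, gi l m * (D l.succ.succ (R 1 m.succ.succ)
    - ∑ k : Fin n, chr (fun i : Fin n => D i.succ.succ) g gi k l m * R 1 k.succ.succ) with hT
  have hT' : T = ∑ x : Fin n, ∑ y : Fin n, gi x y * (D y.succ.succ (R x.succ.succ 1)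
      - ∑ k : Fin n, chr (fun i : Fin n => D i.succ.succ) g gi k y x * R k.succ.succ 1) := by
    rw [hT, Finset.sum_comm]
    refine Finset.sum_congr rfl fun x _ => Finset.sum_congr rfl fun y _ => ?_
    rw [hgs y x, hsymR 1 x.succ.succ]
    congr 2
    refine Finset.sum_congr rfl fun k _ => ?_
    rw [hsymR 1 k.succ.succ]
  have hn : ∑ x : Fin n, ∑ y : Fin n, gi x y * g y x = (n : A) := by
    have : ∀ x : Fin n, ∑ y : Fin n, gi x y * g y x = 1 := fun x => by rw [hgi x x, if_pos rfl]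
    simp [this]
  have hbig : ∑ x : Fin n, ∑ y : Fin n, gi x y *
      (D y.succ.succ (R x.succ.succ 1) -
          ((-g y x + ρ * D 1 (g y x)) * R 1 1 +
            ∑ k : Fin n, chr (fun i : Fin n => D i.succ.succ) g gi k y x * R k.succ.succ 1) -
        ∑ k : Fin n, ((1 / 2 : ℝ) • ∑ l : Fin n, gi k l * D 1 (g l y)) * R x.succ.succ k.succ.succ)
      = T + (n : A) * R 1 1 - ρ * trp (D 1) g gi * R 1 1 - U := by
    rw [hT', ← hn, hU, trp, Finset.sum_mul, Finset.mul_sum, Finset.sum_mul,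
      ← Finset.sum_add_distrib, ← Finset.sum_sub_distrib, ← Finset.sum_sub_distrib]
    refine Finset.sum_congr rfl fun x _ => ?_
    rw [Finset.sum_mul, Finset.mul_sum, Finset.sum_mul,
      ← Finset.sum_add_distrib, ← Finset.sum_sub_distrib, ← Finset.sum_sub_distrib]
    refine Finset.sum_congr rfl fun y _ => ?_
    rw [h.met.symm x y]
    ring
  rw [hbig] at hB
  have hsc' : scal D (amb t ρ g) (ambInv ti ρ gi)
      = ti * (ti * (S1 - (ρ * R 1 1 + ρ * R 1 1))) := by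
    rw [hsc]; ring
  rw [hsc', hder.mul, hder.mul, hti1, b2_Dsub hder, hder.add, hder.mul, h.Dr1] at hB
  set c2 : A := algebraMap ℝ A (1 / 2) with hc2
  have hc : 2 * c2 = 1 := by
    rw [hc2, ← map_ofNat (algebraMap ℝ A) 2, ← map_mul]
    norm_num
  have hw : t ^ 2 * ti ^ 2 = 1 := by
    rw [← mul_pow, h.tti, one_pow]
  rw [Algebra.smul_def, ← hc2] at hB
  have hn2 : ((n : ℝ) - 2) • R 1 1 = ((n : A) - 2) * R 1 1 := by
    rw [Algebra.smul_def, map_sub, map_natCast, map_ofNat]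
  have hfin : ((n : ℝ) - 2) • R 1 1 - ρ * D 1 (R 1 1) - ρ * trp (D 1) g gi * R 1 1 + T
      = c2 * D 1 S1 + U := by
    rw [hn2]
    linear_combination t ^ 2 * hB
      - ((-3 * R 1 1 - 2 * ρ * D 1 (R 1 1) + T + n * R 1 1 - ρ * trp (D 1) g gi * R 1 1 - U)
        - c2 * (D 1 S1 - 2 * R 1 1 - 2 * ρ * D 1 (R 1 1))) * hw
      - (R 1 1 + ρ * D 1 (R 1 1)) * hc
  rw [hfin]
  exact Ideal.add_mem _ (Ideal.mul_mem_left _ _ hDS1) hUm

end Z_amb_b2

alias amb_b2 := Z_amb_b2.amb_b2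

end CInv
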