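import Pool.Agent.Helper767.Gjms.Defs

set_option linter.all false

open scoped BigOperators

namespace CInv

namespace Z_ext_isder

theorem ext_isder_zero {n : ℕ} {A : Type} [CommRing A] [Algebra ℝ A] {D : Fin n → A → A}
    (hD : IsDer D) (i : Fin n) : D i 0 = 0 := by
  have h := hD.smul i 0 0
  simpa using h

theorem ext_isder_one {n : ℕ} {A : Type} [CommRing A] [Algebra ℝ A] {D : Fin n → A → A}
    (hD : IsDer D) (i : Fin n) : D i 1 = 0 := by
  have h := hD.mul i 1 1
  simpa using h

theorem ext_isder_nat {n : ℕ} {A : Type} [CommRing A] [Algebra ℝ A] {D : Fin n → A → A}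
    (hD : IsDer D) (i : Fin n) (k : ℕ) : D i (k : A) = 0 := by
  induction k with
  | zero => simpa using ext_isder_zero hD i
  | succ k ih => rw [Nat.cast_succ, hD.add, ih, ext_isder_one hD i, add_zero]

theorem ext_isder_sum {n : ℕ} {A : Type} [CommRing A] [Algebra ℝ A] {D : Fin n → A → A}
    (hD : IsDer D) (i : Fin n) {ι : Type} (s : Finset ι) (f : ι → A) :
    D i (∑ j ∈ s, f j) = ∑ j ∈ s, D i (f j) := by
  classical
  induction s using Finset.induction_on with
  | empty => simpa using ext_isder_zero hD i
  | insert a s ha ih => rw [Finset.sum_insert ha, Finset.sum_insert ha, hD.add, ih]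

theorem ext_isder_cf {A : Type} [CommRing A] (f : PowerSeries A) (k : ℕ) :
    PowerSeries.coeff k (PowerSeries.derivativeFun f) = PowerSeries.coeff (k + 1) f * (k + 1) := by
  exact PowerSeries.coeff_derivative f k

theorem ext_isder_cw_der {n : ℕ} {A : Type} [CommRing A] [Algebra ℝ A] {D : Fin n → A → A}
    (hD : IsDer D) (j : Fin n) (a : PowerSeries A) :
    PowerSeries.derivativeFun (cw (D j) a) = cw (D j) (PowerSeries.derivativeFun a) := by
  ext k
  simp only [cw, ext_isder_cf, PowerSeries.coeff_mk]
  have h1 : ((k : A) + 1) = ((k + 1 : ℕ) : A) := by push_cast; rfl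
  rw [h1, hD.mul, ext_isder_nat hD, mul_zero, add_zero]

theorem ext_isder {n : ℕ} {A : Type} [CommRing A] [Algebra ℝ A] {D : Fin n → A → A}
    (hD : IsDer D) : IsDer (extD D) := by
  refine ⟨?_, ?_, ?_, ?_⟩
  · intro i a b
    refine Fin.cases ?_ (fun i => ?_) i
    · simp only [extD, Fin.cons_zero]
      exact PowerSeries.derivativeFun_add a b
    · simp only [extD, Fin.cons_succ]
      ext k
      simp [cw, hD.add]
  · intro i a b
    refine Fin.cases ?_ (fun i => ?_) i
    · simp only [extD, Fin.cons_zero]
      rw [PowerSeries.derivativeFun_mul]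
      simp only [smul_eq_mul]
      ring
    · simp only [extD, Fin.cons_succ]
      ext k
      simp only [cw, PowerSeries.coeff_mk, map_add, PowerSeries.coeff_mul]
      rw [ext_isder_sum hD, ← Finset.sum_add_distrib]
      exact Finset.sum_congr rfl fun p _ => hD.mul i _ _
  · intro i r a
    have hc : ∀ (k : ℕ) (f : PowerSeries A), PowerSeries.coeff k (r • f) = r • PowerSeries.coeff k f :=
      fun k f => rfl
    refine Fin.cases ?_ (fun i => ?_) i
    · simp only [extD, Fin.cons_zero]
      ext k
      rw [hc]
      simp only [ext_isder_cf]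
      rw [hc, smul_mul_assoc]
    · simp only [extD, Fin.cons_succ]
      ext k
      rw [hc]
      simp only [cw, PowerSeries.coeff_mk]
      rw [hc, hD.smul]
  · intro i j a
    refine Fin.cases ?_ (fun i => ?_) i
    · refine Fin.cases rfl (fun j => ?_) j
      simp only [extD, Fin.cons_succ, Fin.cons_zero]
      exact ext_isder_cw_der hD j a
    · refine Fin.cases ?_ (fun j => ?_) j
      · simp only [extD, Fin.cons_succ, Fin.cons_zero]
        exact (ext_isder_cw_der hD i a).symm
      · simp only [extD, Fin.cons_succ]
        ext k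
        simp only [cw, PowerSeries.coeff_mk]
        exact hD.comm i j _

end Z_ext_isder

alias ext_isder := Z_ext_isder.ext_isder

end CInv
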