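import Pool.Agent.Helper767.Gjms.Defs2
import Pool.Agent.Helper767.Gjms.P_ext_isder

set_option linter.all false

open scoped BigOperators

namespace CInv

namespace Z_amb_exists

theorem amb_exists_one {n : ℕ} {A : Type} [CommRing A] [Algebra ℝ A] {D : Fin n → A → A}
    (hD : IsDer D) (i : Fin n) : D i 1 = 0 := by
  have h := hD.mul i 1 1
  simpa using h

theorem amb_exists_zero {n : ℕ} {A : Type} [CommRing A] [Algebra ℝ A] {D : Fin n → A → A}
    (hD : IsDer D) (i : Fin n) : D i 0 = 0 := by
  have h := hD.add i 0 0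
  simpa using h

theorem amb_exists_cwC {A : Type} [CommRing A] (δ : A → A) (h0 : δ 0 = 0) (a : A) :
    cw δ (PowerSeries.C a) = PowerSeries.C (δ a) := by
  ext k
  unfold cw
  rw [PowerSeries.coeff_mk, PowerSeries.coeff_C, PowerSeries.coeff_C]
  split_ifs
  · rfl
  · exact h0

theorem amb_exists_cw1X {A : Type} [CommRing A] (δ : A → A) (h0 : δ 0 = 0) (h1 : δ 1 = 0) :
    cw δ (1 + PowerSeries.X) = 0 := by
  ext k
  unfold cw
  rw [PowerSeries.coeff_mk, map_add, PowerSeries.coeff_one, PowerSeries.coeff_X, map_zero]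
  by_cases hk : k = 0
  · subst hk
    simp [h1]
  · by_cases hk1 : k = 1
    · subst hk1
      simp [h1]
    · simp [hk, hk1, h0]

theorem amb_exists_cwX {A : Type} [CommRing A] (δ : A → A) (h0 : δ 0 = 0) (h1 : δ 1 = 0) :
    cw δ PowerSeries.X = 0 := by
  ext k
  unfold cw
  rw [PowerSeries.coeff_mk, PowerSeries.coeff_X, map_zero]
  by_cases hk1 : k = 1
  · simp [hk1, h1]
  · simp [hk1, h0]

theorem amb_exists_dC {A : Type} [CommRing A] (a : A) :
    PowerSeries.derivativeFun (PowerSeries.C a) = 0 := PowerSeries.derivative_C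

theorem amb_exists_dX {A : Type} [CommRing A] :
    PowerSeries.derivativeFun (PowerSeries.X : PowerSeries A) = 1 := PowerSeries.derivative_X

theorem amb_exists_d1X {A : Type} [CommRing A] :
    PowerSeries.derivativeFun (1 + PowerSeries.X : PowerSeries A) = 1 := by
  rw [PowerSeries.derivativeFun_add, amb_exists_dX, PowerSeries.derivativeFun_one, zero_add]

theorem amb_exists {n : ℕ} {A : Type} [CommRing A] [Algebra ℝ A] {D : Fin n → A → A}
    (hD : IsDer D) {G Gi : Fin n → Fin n → PowerSeries A} (hG : IsMetric G Gi) :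
    ∃ ti : PowerSeries (PowerSeries A),
      AmbRing (extD (extD D)) (1 + PowerSeries.X) ti (PowerSeries.C PowerSeries.X)
        (fun i j => PowerSeries.C (G i j)) (fun i j => PowerSeries.C (Gi i j)) := by
  have hD1 : IsDer (extD D) := ext_isder hD
  have hD2 : IsDer (extD (extD D)) := ext_isder hD1
  have hu : IsUnit (1 + PowerSeries.X : PowerSeries (PowerSeries A)) := by
    rw [PowerSeries.isUnit_iff_constantCoeff, map_add, map_one, PowerSeries.constantCoeff_X,
      add_zero]
    exact isUnit_one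
  obtain ⟨ti, hti⟩ := hu.exists_right_inv
  have hs : ∀ (j : Fin (n + 1)) (p : PowerSeries (PowerSeries A)),
      extD (extD D) j.succ p = cw (extD D j) p := fun j p => rfl
  have h1 : (1 : Fin (n + 2)) = Fin.succ 0 := rfl
  refine ⟨ti, hD2, hti, amb_exists_d1X, ?_, ?_, amb_exists_dC _, ?_, ?_, ?_, ?_⟩
  · rw [h1, hs]
    exact amb_exists_cw1X _ (amb_exists_zero hD1 _) (amb_exists_one hD1 _)
  · intro i
    rw [hs]
    exact amb_exists_cw1X _ (amb_exists_zero hD1 _) (amb_exists_one hD1 _)
  · rw [h1, hs, amb_exists_cwC _ (amb_exists_zero hD1 _)]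
    have e : extD D 0 PowerSeries.X = 1 := amb_exists_dX
    rw [e, map_one]
  · intro i
    rw [hs, amb_exists_cwC _ (amb_exists_zero hD1 _)]
    have e : extD D i.succ PowerSeries.X = 0 :=
      amb_exists_cwX _ (amb_exists_zero hD _) (amb_exists_one hD _)
    rw [e, map_zero]
  · refine ⟨fun i j => by rw [hG.symm], fun i j => ?_⟩
    have e : ∀ k, PowerSeries.C (G i k) * PowerSeries.C (Gi k j) =
        (PowerSeries.C (G i k * Gi k j) : PowerSeries (PowerSeries A)) :=
      fun k => (map_mul _ _ _).symm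
    rw [Finset.sum_congr rfl fun k _ => e k, ← map_sum, hG.inv]
    split_ifs
    · exact map_one _
    · exact map_zero _
  · intro i j
    exact amb_exists_dC _

end Z_amb_exists

alias amb_exists := Z_amb_exists.amb_exists

end CInv
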