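import Pool.Agent.Helper767.Gjms.Defs3
import Pool.Agent.Helper767.Gjms.P_ext_isder

set_option linter.all false

open scoped BigOperators

namespace CInv

namespace Z_amb_exists_t

theorem amb_exists_one {n : ℕ} {A : Type} [CommRing A] [Algebra ℝ A] {D : Fin n → A → A}
    (hD : IsDer D) (i : Fin n) : D i 1 = 0 := by
  have h := hD.mul i 1 1
  simpa using h

theorem amb_exists_zero {n : ℕ} {A : Type} [CommRing A] [Algebra ℝ A] {D : Fin n → A → A}
    (hD : IsDer D) (i : Fin n) : D i 0 = 0 := by
  have h := hD.add i 0 0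
  simpa using h

theorem amb_exists_cwC {A : Type} [CommRing A] (δ : A → A) (h0 : δ 0 = 0) (a : A) :
    cw δ (PowerSeries.C a) = PowerSeries.C (δ a) := by
  ext k
  unfold cw
  rw [PowerSeries.coeff_mk, PowerSeries.coeff_C, PowerSeries.coeff_C]
  split_ifs
  · rfl
  · exact h0

theorem amb_exists_cwcX {A : Type} [CommRing A] (δ : A → A) (h0 : δ 0 = 0) (h1 : δ 1 = 0)
    (a : A) (ha : δ a = 0) :
    cw δ (PowerSeries.C a + PowerSeries.X) = 0 := by
  ext k
  unfold cw
  rw [PowerSeries.coeff_mk, map_add, PowerSeries.coeff_C, PowerSeries.coeff_X, map_zero]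
  by_cases hk : k = 0
  · subst hk
    simp [ha]
  · by_cases hk1 : k = 1
    · subst hk1
      simp [h1]
    · simp [hk, hk1, h0]

theorem amb_exists_cwX {A : Type} [CommRing A] (δ : A → A) (h0 : δ 0 = 0) (h1 : δ 1 = 0) :
    cw δ PowerSeries.X = 0 := by
  ext k
  unfold cw
  rw [PowerSeries.coeff_mk, PowerSeries.coeff_X, map_zero]
  by_cases hk1 : k = 1
  · simp [hk1, h1]
  · simp [hk1, h0]

theorem amb_exists_dC {A : Type} [CommRing A] (a : A) :
    PowerSeries.derivativeFun (PowerSeries.C a) = 0 := PowerSeries.derivative_C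

theorem amb_exists_dX {A : Type} [CommRing A] :
    PowerSeries.derivativeFun (PowerSeries.X : PowerSeries A) = 1 := PowerSeries.derivative_X

theorem amb_exists_dcX {A : Type} [CommRing A] (a : A) :
    PowerSeries.derivativeFun (PowerSeries.C a + PowerSeries.X : PowerSeries A) = 1 := by
  rw [PowerSeries.derivativeFun_add, amb_exists_dX, amb_exists_dC, zero_add]

theorem amb_exists_const {n : ℕ} {A : Type} [CommRing A] [Algebra ℝ A] {D : Fin n → A → A}
    (hD : IsDer D) (i : Fin n) (r : ℝ) : D i (algebraMap ℝ A r) = 0 := by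
  rw [Algebra.algebraMap_eq_smul_one, hD.smul, amb_exists_one hD, smul_zero]

theorem amb_exists_t {n : ℕ} {A : Type} [CommRing A] [Algebra ℝ A] {D : Fin n → A → A}
    (hD : IsDer D) {G Gi : Fin n → Fin n → PowerSeries A} (hG : IsMetric G Gi)
    (t0 : ℝ) (ht : t0 ≠ 0) :
    ∃ ti : PowerSeries (PowerSeries A),
      AmbRing (extD (extD D))
        (PowerSeries.C (PowerSeries.C (algebraMap ℝ A t0)) + PowerSeries.X) ti
        (PowerSeries.C PowerSeries.X)
        (fun i j => PowerSeries.C (G i j)) (fun i j => PowerSeries.C (Gi i j)) ∧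
      PowerSeries.constantCoeff (PowerSeries.constantCoeff ti) = algebraMap ℝ A t0⁻¹ := by
  have hD1 : IsDer (extD D) := ext_isder hD
  have hD2 : IsDer (extD (extD D)) := ext_isder hD1
  have ha : algebraMap ℝ A t0⁻¹ * algebraMap ℝ A t0 = 1 := by
    rw [← map_mul, inv_mul_cancel₀ ht, map_one]
  have hua : IsUnit (algebraMap ℝ A t0) := IsUnit.of_mul_eq_one_right _ ha
  have hu : IsUnit (PowerSeries.C (PowerSeries.C (algebraMap ℝ A t0)) + PowerSeries.X
      : PowerSeries (PowerSeries A)) := by
    rw [PowerSeries.isUnit_iff_constantCoeff, map_add, PowerSeries.constantCoeff_X,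
      add_zero, PowerSeries.constantCoeff_C, PowerSeries.isUnit_iff_constantCoeff,
      PowerSeries.constantCoeff_C]
    exact hua
  obtain ⟨ti, hti⟩ := hu.exists_right_inv
  have hs : ∀ (j : Fin (n + 1)) (p : PowerSeries (PowerSeries A)),
      extD (extD D) j.succ p = cw (extD D j) p := fun j p => rfl
  have h1 : (1 : Fin (n + 2)) = Fin.succ 0 := rfl
  have hc : ∀ j : Fin (n + 1), extD D j (PowerSeries.C (algebraMap ℝ A t0)) = 0 := by
    intro j
    refine Fin.cases ?_ (fun i => ?_) j
    · exact amb_exists_dC _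
    · change cw (D i) _ = 0
      rw [amb_exists_cwC _ (amb_exists_zero hD _), amb_exists_const hD, map_zero]
  refine ⟨ti, ⟨hD2, hti, amb_exists_dcX _, ?_, ?_, amb_exists_dC _, ?_, ?_, ?_, ?_⟩, ?_⟩
  · rw [h1, hs]
    exact amb_exists_cwcX _ (amb_exists_zero hD1 _) (amb_exists_one hD1 _) _ (hc _)
  · intro i
    rw [hs]
    exact amb_exists_cwcX _ (amb_exists_zero hD1 _) (amb_exists_one hD1 _) _ (hc _)
  · rw [h1, hs, amb_exists_cwC _ (amb_exists_zero hD1 _)]
    have e : extD D 0 PowerSeries.X = 1 := amb_exists_dX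
    rw [e, map_one]
  · intro i
    rw [hs, amb_exists_cwC _ (amb_exists_zero hD1 _)]
    have e : extD D i.succ PowerSeries.X = 0 :=
      amb_exists_cwX _ (amb_exists_zero hD _) (amb_exists_one hD _)
    rw [e, map_zero]
  · refine ⟨fun i j => by rw [hG.symm], fun i j => ?_⟩
    have e : ∀ k, PowerSeries.C (G i k) * PowerSeries.C (Gi k j) =
        (PowerSeries.C (G i k * Gi k j) : PowerSeries (PowerSeries A)) :=
      fun k => (map_mul _ _ _).symm
    rw [Finset.sum_congr rfl fun k _ => e k, ← map_sum, hG.inv]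
    split_ifs
    · exact map_one _
    · exact map_zero _
  · intro i j
    exact amb_exists_dC _
  · have h2 := congrArg PowerSeries.constantCoeff (congrArg PowerSeries.constantCoeff hti)
    rw [map_mul, map_mul, map_add, PowerSeries.constantCoeff_X, add_zero,
      PowerSeries.constantCoeff_C, PowerSeries.constantCoeff_C, map_one, map_one] at h2
    calc PowerSeries.constantCoeff (PowerSeries.constantCoeff ti)
        = (algebraMap ℝ A t0⁻¹ * algebraMap ℝ A t0)
          * PowerSeries.constantCoeff (PowerSeries.constantCoeff ti) := by rw [ha, one_mul]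
      _ = algebraMap ℝ A t0⁻¹ := by rw [mul_assoc, h2, mul_one]

end Z_amb_exists_t

alias amb_exists_t := Z_amb_exists_t.amb_exists_t

end CInv
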