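import Pool.Agent.Helper767.Gjms.Defs2
import Pool.Agent.Helper771.CInv.P_gi_symm
import Pool.Agent.Helper771.CInv.P_metric_compat
import Pool.Agent.Helper767.Gjms.P_amb_metric
import Pool.Agent.Helper767.Gjms.P_amb_chr
import Pool.Agent.Helper767.Gjms.P_amb_dti

set_option linter.all false

open scoped BigOperators

namespace CInv

namespace Z_amb_lap

theorem sum2_833 {n : ℕ} {A : Type} [CommRing A] (f : Fin (n + 2) → A) :
    ∑ i, f i = f 0 + f 1 + ∑ i : Fin n, f i.succ.succ := by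
  rw [Fin.sum_univ_succ, Fin.sum_univ_succ, ← add_assoc]
  rfl

theorem gis_833 {n : ℕ} {A : Type} [CommRing A] {g gi : Fin n → Fin n → A} (h : IsMetric g gi) :
    ∑ i, ∑ j, gi i j * g i j = (n : A) := by
  have h2 := (gi_symm h).2
  have : ∀ i, ∑ j, gi i j * g i j = 1 := by
    intro i
    have h3 := h2 i i
    rw [if_pos rfl] at h3
    rw [← h3]
    exact Finset.sum_congr rfl (fun j _ => by rw [h.symm i j])
  rw [Finset.sum_congr rfl (fun i _ => this i)]
  simp

theorem amb_lap {n : ℕ} {A : Type} [CommRing A] [Algebra ℝ A] {D : Fin (n + 2) → A → A}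
    {t ti ρ : A} {g gi : Fin n → Fin n → A} (h : AmbRing D t ti ρ g gi)
    (u q : A) (w : ℝ) (hu : D 0 u = 0) (hq : D 0 q = w • (ti * q)) (hq1 : D 1 q = 0)
    (hqx : ∀ i : Fin n, D i.succ.succ q = 0) :
    lap D (amb t ρ g) (ambInv ti ρ gi) (q * u)
      = q * ti ^ 2 * Lw (D 1) (fun i : Fin n => D i.succ.succ) ρ g gi w u := by
  obtain ⟨hti0, hti1, htix, hgi0, hder, hchr0⟩ := amb_dti h
  have C := amb_chr h
  have hz : ∀ i, D i 0 = 0 := fun i => by
    have := h.der.smul i 0 (0 : A)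
    simpa using this
  have hd01u : D 0 (D 1 u) = 0 := by rw [h.der.comm, hu, hz]
  have hF0 : D 0 (q * u) = w • (ti * (q * u)) := by
    rw [h.der.mul, hq, hu, mul_zero, add_zero, smul_mul_assoc, mul_assoc]
  have hF1 : D 1 (q * u) = q * D 1 u := by rw [h.der.mul, hq1]; ring
  have hFx : ∀ i : Fin n, D i.succ.succ (q * u) = q * D i.succ.succ u := by
    intro i; rw [h.der.mul, hqx]; ring
  have hF01 : D 0 (D 1 (q * u)) = w • (ti * (q * D 1 u)) := by
    rw [hF1, h.der.mul, hq, hd01u, mul_zero, add_zero, smul_mul_assoc, mul_assoc]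
  have hF10 : D 1 (D 0 (q * u)) = w • (ti * (q * D 1 u)) := by rw [h.der.comm, hF01]
  have hF11 : D 1 (D 1 (q * u)) = q * D 1 (D 1 u) := by rw [hF1, h.der.mul, hq1]; ring
  have hFxx : ∀ i j : Fin n, D i.succ.succ (D j.succ.succ (q * u))
      = q * D i.succ.succ (D j.succ.succ u) := by
    intro i j; rw [hFx, h.der.mul, hqx]; ring
  have gF01 : D 0 (q * D 1 u) = w • (ti * (q * D 1 u)) := by
    have := hF01
    rwa [hF1] at this
  have gF10 : D 1 (w • (ti * (q * u))) = w • (ti * (q * D 1 u)) := by rw [← hF0]; exact hF10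
  have gF11 : D 1 (q * D 1 u) = q * D 1 (D 1 u) := by
    have := hF11
    rwa [hF1] at this
  have gFxx : ∀ i j : Fin n, D i.succ.succ (q * D j.succ.succ u)
      = q * D i.succ.succ (D j.succ.succ u) := by
    intro i j
    have := hFxx i j
    rwa [hFx] at this
  have e00 : ambInv ti ρ gi 0 0 = 0 := rfl
  have e01 : ambInv ti ρ gi 0 1 = ti := rfl
  have e10 : ambInv ti ρ gi 1 0 = ti := rfl
  have e11 : ambInv ti ρ gi 1 1 = -(2 * ρ * ti ^ 2) := rfl
  have e0x : ∀ i : Fin n, ambInv ti ρ gi 0 i.succ.succ = 0 := fun i => rfl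
  have e1x : ∀ i : Fin n, ambInv ti ρ gi 1 i.succ.succ = 0 := fun i => rfl
  have ex0 : ∀ i : Fin n, ambInv ti ρ gi i.succ.succ 0 = 0 := fun i => rfl
  have ex1 : ∀ i : Fin n, ambInv ti ρ gi i.succ.succ 1 = 0 := fun i => rfl
  have exx : ∀ i j : Fin n, ambInv ti ρ gi i.succ.succ j.succ.succ = ti ^ 2 * gi i j :=
    fun i j => rfl
  have hmain : lap D (amb t ρ g) (ambInv ti ρ gi) (q * u)
      = ti * (w • (ti * (q * D 1 u)) - ti * (q * D 1 u))
        + ti * (w • (ti * (q * D 1 u)) - ti * (q * D 1 u))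
        + (-(2 * ρ * ti ^ 2)) * (q * D 1 (D 1 u))
        + ∑ i : Fin n, ∑ j : Fin n, ti ^ 2 * gi i j * (q * D i.succ.succ (D j.succ.succ u)
          - (-((1 / 2 : ℝ) • (t * D 1 (g i j))) * w • (ti * (q * u))
            + (-(g i j) + ρ * D 1 (g i j)) * (q * D 1 u)
            + ∑ k : Fin n, chr (fun i : Fin n => D i.succ.succ) g gi k i j
              * (q * D k.succ.succ u))) := by
    unfold lap
    simp only [sum2_833, e00, e01, e10, e11, e0x, e1x, ex0, ex1, exx, C.c000, C.c001, C.c010,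
      C.c011, C.c00x, C.c0x0, C.c01x, C.c0x1, C.c0xx, C.c100, C.c101, C.c110, C.c111, C.c10x,
      C.c1x0, C.c11x, C.c1x1, C.c1xx, C.cx00, C.cx01, C.cx10, C.cx11, C.cxxx, zero_mul,
      Finset.sum_const_zero, add_zero, zero_add, sub_zero, hF0, hF1, hFx, gF01, gF10, gF11, gFxx]
    ring
  rw [hmain]
  have hkey : ∀ i j : Fin n, ti ^ 2 * gi i j * (q * D i.succ.succ (D j.succ.succ u)
          - (-((1 / 2 : ℝ) • (t * D 1 (g i j))) * w • (ti * (q * u))
            + (-(g i j) + ρ * D 1 (g i j)) * (q * D 1 u)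
            + ∑ k : Fin n, chr (fun i : Fin n => D i.succ.succ) g gi k i j
              * (q * D k.succ.succ u)))
      = (q * ti ^ 2) * (gi i j * (D i.succ.succ (D j.succ.succ u)
          - ∑ k : Fin n, chr (fun i : Fin n => D i.succ.succ) g gi k i j * D k.succ.succ u))
        + (algebraMap ℝ A (1 / 2) * algebraMap ℝ A w * (q * ti ^ 2) * u
            - ρ * (q * ti ^ 2) * D 1 u) * (gi i j * D 1 (g i j))
        + (q * ti ^ 2) * D 1 u * (gi i j * g i j) := by
    intro i j
    have hs : ∑ k : Fin n, chr (fun i : Fin n => D i.succ.succ) g gi k i j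
              * (q * D k.succ.succ u)
        = q * ∑ k : Fin n, chr (fun i : Fin n => D i.succ.succ) g gi k i j * D k.succ.succ u := by
      rw [Finset.mul_sum]
      exact Finset.sum_congr rfl (fun k _ => by ring)
    rw [hs, Algebra.smul_def, Algebra.smul_def]
    linear_combination (ti ^ 2 * gi i j * algebraMap ℝ A (1 / 2) * D 1 (g i j)
      * algebraMap ℝ A w * (q * u)) * h.tti
  rw [Finset.sum_congr rfl (fun i _ => Finset.sum_congr rfl (fun j _ => hkey i j))]
  simp only [Finset.sum_add_distrib, ← Finset.mul_sum]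
  rw [gis_833 h.met]
  unfold Lw
  have hl : lap (fun i : Fin n => D i.succ.succ) g gi u = ∑ i : Fin n, ∑ j : Fin n,
      gi i j * (D i.succ.succ (D j.succ.succ u)
          - ∑ k : Fin n, chr (fun i : Fin n => D i.succ.succ) g gi k i j * D k.succ.succ u) := rfl
  have ht : trp (D 1) g gi = ∑ i : Fin n, ∑ j : Fin n, gi i j * D 1 (g i j) := rfl
  rw [← hl, ← ht]
  have hw2 : w / 2 = (1 / 2) * w := by ring
  rw [hw2]
  simp only [Algebra.smul_def, map_add, map_sub, map_mul, map_natCast, map_ofNat]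
  ring

end Z_amb_lap

alias amb_lap := Z_amb_lap.amb_lap

end CInv
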