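import Pool.Agent.Helper767.Gjms.Defs2
import Pool.Agent.Helper767.Gjms.P_amb_dti
import Pool.Agent.Helper767.Gjms.P_amb_lap

set_option linter.all false

open scoped BigOperators

namespace CInv


/-- constants for `D 0` -/
def AmbRing.ker0 {n : ℕ} {A : Type} [CommRing A] [Algebra ℝ A] {D : Fin (n + 2) → A → A}
    {t ti ρ : A} {g gi : Fin n → Fin n → A} (h : AmbRing D t ti ρ g gi) : Subalgebra ℝ A where
  carrier := {a | D 0 a = 0}
  add_mem' := by
    intro a b ha hb
    have ha' : D 0 a = 0 := ha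
    have hb' : D 0 b = 0 := hb
    show D 0 (a + b) = 0
    rw [h.der.add, ha', hb', add_zero]
  mul_mem' := by
    intro a b ha hb
    have ha' : D 0 a = 0 := ha
    have hb' : D 0 b = 0 := hb
    show D 0 (a * b) = 0
    rw [h.der.mul, ha', hb', zero_mul, mul_zero, add_zero]
  algebraMap_mem' := by
    intro r
    show D 0 (algebraMap ℝ A r) = 0
    have h1 : D 0 (1 : A) = 0 := by
      have := h.der.mul 0 1 1
      simp only [mul_one, one_mul] at this
      have h2 : D 0 (1 : A) + 0 = D 0 1 + D 0 1 := by rw [add_zero]; exact this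
      exact (add_left_cancel h2).symm
    rw [Algebra.algebraMap_eq_smul_one, h.der.smul, h1, smul_zero]

theorem ambring_deriv_one {n : ℕ} {A : Type} [CommRing A] [Algebra ℝ A] {D : Fin (n + 2) → A → A}
    (h : IsDer D) (i : Fin (n + 2)) : D i (1 : A) = 0 := by
  have := h.mul i 1 1
  simp only [mul_one, one_mul] at this
  have h2 : D i (1 : A) + 0 = D i 1 + D i 1 := by rw [add_zero]; exact this
  exact (add_left_cancel h2).symm

theorem ambring_deriv_pow {n : ℕ} {A : Type} [CommRing A] [Algebra ℝ A] {D : Fin (n + 2) → A → A}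
    (h : IsDer D) (i : Fin (n + 2)) {a : A} (ha : D i a = 0) (m : ℕ) : D i (a ^ m) = 0 := by
  induction m with
  | zero => rw [pow_zero]; exact ambring_deriv_one h i
  | succ m ih => rw [pow_succ, h.mul, ih, ha, zero_mul, mul_zero, add_zero]

theorem ambring_deriv_ti_pow {n : ℕ} {A : Type} [CommRing A] [Algebra ℝ A]
    {D : Fin (n + 2) → A → A} (h : IsDer D) {ti : A} (h0 : D 0 ti = -(ti ^ 2)) (m : ℕ) :
    D 0 (ti ^ m) = (-(m : ℝ)) • (ti * ti ^ m) := by
  induction m with
  | zero => rw [pow_zero, ambring_deriv_one h 0]; simp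
  | succ m ih =>
    rw [pow_succ, h.mul, ih, h0]
    simp only [Algebra.smul_def, map_neg, map_natCast, Nat.cast_add, Nat.cast_one, map_add, map_one]
    ring

theorem ker0_D {n : ℕ} {A : Type} [CommRing A] [Algebra ℝ A] {D : Fin (n + 2) → A → A}
    {t ti ρ : A} {g gi : Fin n → Fin n → A} (h : AmbRing D t ti ρ g gi) (j : Fin (n + 2)) {a : A}
    (ha : a ∈ h.ker0) : D j a ∈ h.ker0 := by
  have ha' : D 0 a = 0 := ha
  show D 0 (D j a) = 0
  rw [h.der.comm, ha']
  have := h.der.smul j (0 : ℝ) 0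
  simpa using this

theorem ker0_Lw {n : ℕ} {A : Type} [CommRing A] [Algebra ℝ A] {D : Fin (n + 2) → A → A}
    {t ti ρ : A} {g gi : Fin n → Fin n → A} (h : AmbRing D t ti ρ g gi) (w : ℝ) {u : A}
    (hu : u ∈ h.ker0) : Lw (D 1) (fun i : Fin n => D i.succ.succ) ρ g gi w u ∈ h.ker0 := by
  obtain ⟨h0, h1, h2, h3, h4, h5⟩ := amb_dti h
  have hgi : ∀ i j, gi i j ∈ h.ker0 := fun i j => h3 i j
  have hg : ∀ i j, g i j ∈ h.ker0 := fun i j => h.Dg i j
  have hρ : ρ ∈ h.ker0 := h.Dr0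
  have hchr : ∀ k i j, chr (fun i : Fin n => D i.succ.succ) g gi k i j ∈ h.ker0 :=
    fun k i j => h5 k i j
  have htrp : trp (D 1) g gi ∈ h.ker0 := by
    unfold trp
    exact sum_mem fun k _ => sum_mem fun l _ => mul_mem (hgi k l) (ker0_D h 1 (hg k l))
  have hlap : lap (fun i : Fin n => D i.succ.succ) g gi u ∈ h.ker0 := by
    unfold lap
    refine sum_mem fun i _ => sum_mem fun j _ => mul_mem (hgi i j) (sub_mem ?_ ?_)
    · exact ker0_D h _ (ker0_D h _ hu)
    · exact sum_mem fun k _ => mul_mem (hchr k i j) (ker0_D h _ hu)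
  have h1u := ker0_D h 1 hu
  have h2' : (2 : A) ∈ h.ker0 := by
    have : (2 : A) = 1 + 1 := by norm_num
    rw [this]
    exact add_mem (one_mem _) (one_mem _)
  unfold Lw
  refine add_mem (add_mem (sub_mem (sub_mem ?_ ?_) ?_) hlap) ?_
  · exact Subalgebra.smul_mem _ h1u _
  · exact mul_mem (mul_mem h2' hρ) (ker0_D h 1 h1u)
  · exact mul_mem (mul_mem hρ htrp) h1u
  · exact Subalgebra.smul_mem _ (mul_mem htrp hu) _

theorem amb_lap_pow {n : ℕ} {A : Type} [CommRing A] [Algebra ℝ A] {D : Fin (n + 2) → A → A}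
    {t ti ρ : A} {g gi : Fin n → Fin n → A} (h : AmbRing D t ti ρ g gi)
    (u : A) (hu : D 0 u = 0) (k : ℕ) :
    (lap D (amb t ρ g) (ambInv ti ρ gi))^[k] u
      = ti ^ (2 * k) * gjL (D 1) (fun i : Fin n => D i.succ.succ) ρ g gi k u ∧
    D 0 (gjL (D 1) (fun i : Fin n => D i.succ.succ) ρ g gi k u) = 0 := by
  obtain ⟨h0, h1, h2, h3, h4, h5⟩ := amb_dti h
  induction k with
  | zero =>
    refine ⟨?_, hu⟩
    rw [Function.iterate_zero, id, Nat.mul_zero, pow_zero, one_mul]
    rfl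
  | succ k ih =>
    refine ⟨?_, ?_⟩
    · rw [Function.iterate_succ_apply', ih.1]
      have hq : D 0 (ti ^ (2 * k)) = (-(2 * (k : ℝ))) • (ti * ti ^ (2 * k)) := by
        rw [ambring_deriv_ti_pow h.der h0 (2 * k)]
        push_cast
        rfl
      rw [amb_lap h _ (ti ^ (2 * k)) (-(2 * (k : ℝ))) ih.2 hq
        (ambring_deriv_pow h.der 1 h1 _) (fun i => ambring_deriv_pow h.der _ (h2 i) _)]
      rw [show 2 * (k + 1) = 2 * k + 2 by ring, pow_add]
      rfl
    · exact ker0_Lw h _ ih.2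


end CInv
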