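import Pool.Agent.Helper767.Gjms.Defs2
import Pool.Agent.Helper771.CInv.P_gi_symm
import Pool.Agent.Helper767.Gjms.P_amb_metric
import Pool.Agent.Helper767.Gjms.P_amb_dti

set_option linter.all false

open scoped BigOperators

namespace CInv

namespace Z_amb_pull

theorem amb_pull_sum {n : ℕ} {A : Type} [AddCommMonoid A] (f : Fin (n + 2) → A) :
    ∑ b, f b = f 0 + (f 1 + ∑ k : Fin n, f k.succ.succ) := by
  rw [Fin.sum_univ_succ, Fin.sum_univ_succ]
  rfl

theorem amb_pull_cases {n : ℕ} {P : Fin (n + 2) → Prop} (h0 : P 0) (h1 : P 1)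
    (hx : ∀ i : Fin n, P i.succ.succ) (I : Fin (n + 2)) : P I := by
  refine Fin.cases h0 (fun I => ?_) I
  exact Fin.cases (motive := fun I => P I.succ) h1 hx I

theorem amb_pull_gen {N : ℕ} {A : Type} [CommRing A] (D : Fin N → A → A)
    (s : A) (hs : s * s = 0) (Y : Fin N → A) (G : Fin N → Fin N → A)
    (φ : A →+* A) (hφ : ∀ a, φ a = a + s * ∑ b, Y b * D b a) (I K : Fin N) :
    pull φ (fun i j => (if i = j then 1 else 0) + s * D i (Y j)) G I K =
      G I K + s * ((∑ b, Y b * D b (G I K)) + (∑ a, D I (Y a) * G a K)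
        + ∑ b, D K (Y b) * G I b) := by
  unfold pull
  have e1 : ∀ a b, ((if I = a then (1 : A) else 0) + s * D I (Y a)) *
      ((if K = b then (1 : A) else 0) + s * D K (Y b)) * φ (G a b) =
      (if I = a then (1 : A) else 0) * ((if K = b then (1 : A) else 0) *
        (G a b + s * ∑ c, Y c * D c (G a b))) +
      s * (D I (Y a) * ((if K = b then (1 : A) else 0) * G a b) +
        (if I = a then (1 : A) else 0) * (D K (Y b) * G a b)) := by
    intro a b
    rw [hφ]
    generalize (if I = a then (1 : A) else 0) = d1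
    generalize (if K = b then (1 : A) else 0) = d2
    generalize D I (Y a) = u
    generalize D K (Y b) = v
    generalize ∑ c, Y c * D c (G a b) = L
    generalize G a b = g
    linear_combination (u * v * g + d1 * v * L + u * d2 * L + s * u * v * L) * hs
  rw [Finset.sum_congr rfl fun a _ => Finset.sum_congr rfl fun b _ => e1 a b]
  simp only [Finset.sum_add_distrib, ← Finset.mul_sum]
  simp only [ite_mul, one_mul, zero_mul, Finset.sum_ite_eq, Finset.mem_univ, if_true, mul_assoc]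
  ring

theorem amb_pull_der {N : ℕ} {A : Type} [CommRing A] [Algebra ℝ A] {D : Fin N → A → A}
    (h : IsDer D) (I : Fin N) : D I 0 = 0 ∧ (∀ a, D I (-a) = - D I a) ∧
      (∀ a, D I (2 * a) = 2 * D I a) := by
  have h0 : D I 0 = 0 := by
    have := h.add I 0 0
    rw [add_zero] at this
    have h2 : D I 0 + D I 0 = D I 0 + 0 := by rw [add_zero]; exact this.symm
    exact add_left_cancel h2
  refine ⟨h0, fun a => ?_, fun a => ?_⟩
  · have := h.add I (-a) a
    rw [neg_add_cancel, h0] at this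
    exact eq_neg_of_add_eq_zero_left this.symm
  · rw [two_mul, two_mul, h.add]

theorem amb_pull {n : ℕ} {A : Type} [CommRing A] [Algebra ℝ A] {D : Fin (n + 2) → A → A}
    {t ti ρ : A} {g gi : Fin n → Fin n → A} (h : AmbRing D t ti ρ g gi)
    (s : A) (hs : s * s = 0) (hDs : ∀ I, D I s = 0) (σ : A) (hσ0 : D 0 σ = 0) (hσ1 : D 1 σ = 0)
    (X : Fin n → A) (hX0 : ∀ j, D 0 (X j) = 0)
    (hX1 : ∀ j, D 1 (X j) = - ∑ i : Fin n, gi j i * D i.succ.succ σ)
    (Y : Fin (n + 2) → A) (hY : Y = Matrix.vecCons (t * σ) (Matrix.vecCons (-(2 * ρ * σ)) X))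
    (φ : A →+* A) (hφ : ∀ a, φ a = a + s * ∑ b, Y b * D b a) :
    pull φ (fun i j => (if i = j then 1 else 0) + s * D i (Y j)) (amb t ρ g)
      = amb t ρ (fun i j => g i j + s * (2 * σ * (g i j - ρ * D 1 (g i j))
          + ((∑ k, X k * D k.succ.succ (g i j)) + (∑ k, D i.succ.succ (X k) * g k j)
            + ∑ k, D j.succ.succ (X k) * g i k))) := by
  have hder := h.der
  have hz : ∀ I, D I 0 = 0 := fun I => (amb_pull_der hder I).1
  have hneg : ∀ I a, D I (-a) = - D I a := fun I => (amb_pull_der hder I).2.1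
  have htwo : ∀ I a, D I (2 * a) = 2 * D I a := fun I => (amb_pull_der hder I).2.2
  have Y0 : Y 0 = t * σ := by rw [hY]; rfl
  have Y1 : Y 1 = -(2 * ρ * σ) := by rw [hY]; rfl
  have Yx : ∀ k : Fin n, Y k.succ.succ = X k := fun k => by rw [hY]; rfl
  have a00 : amb t ρ g 0 0 = 2 * ρ := rfl
  have a01 : amb t ρ g 0 1 = t := rfl
  have a10 : amb t ρ g 1 0 = t := rfl
  have a11 : amb t ρ g 1 1 = 0 := rfl
  have a0x : ∀ i : Fin n, amb t ρ g 0 i.succ.succ = 0 := fun _ => rfl
  have a1x : ∀ i : Fin n, amb t ρ g 1 i.succ.succ = 0 := fun _ => rfl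
  have ax0 : ∀ i : Fin n, amb t ρ g i.succ.succ 0 = 0 := fun _ => rfl
  have ax1 : ∀ i : Fin n, amb t ρ g i.succ.succ 1 = 0 := fun _ => rfl
  have axx : ∀ i j : Fin n, amb t ρ g i.succ.succ j.succ.succ = t ^ 2 * g i j := fun _ _ => rfl
  have d0Y0 : D 0 (t * σ) = σ := by rw [hder.mul, h.Dt0, hσ0]; ring
  have d1Y0 : D 1 (t * σ) = 0 := by rw [hder.mul, h.Dt1, hσ1]; ring
  have dxY0 : ∀ i : Fin n, D i.succ.succ (t * σ) = t * D i.succ.succ σ := fun i => by
    rw [hder.mul, h.Dtx]; ring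
  have d0Y1 : D 0 (-(2 * ρ * σ)) = 0 := by
    rw [hneg, hder.mul, htwo, h.Dr0, hσ0]; ring
  have d1Y1 : D 1 (-(2 * ρ * σ)) = -(2 * σ) := by
    rw [hneg, hder.mul, htwo, h.Dr1, hσ1]; ring
  have dxY1 : ∀ i : Fin n, D i.succ.succ (-(2 * ρ * σ)) = -(2 * ρ * D i.succ.succ σ) := fun i => by
    rw [hneg, hder.mul, htwo, h.Drx]; ring
  have d0r : D 0 (2 * ρ) = 0 := by rw [htwo, h.Dr0]; ring
  have d1r : D 1 (2 * ρ) = 2 := by rw [htwo, h.Dr1]; ring
  have dxr : ∀ i : Fin n, D i.succ.succ (2 * ρ) = 0 := fun i => by rw [htwo, h.Drx]; ring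
  have d0g : ∀ i j, D 0 (t ^ 2 * g i j) = 2 * t * g i j := fun i j => by
    rw [hder.mul, h.Dg, pow_two, hder.mul, h.Dt0]; ring
  have d1g : ∀ i j, D 1 (t ^ 2 * g i j) = t ^ 2 * D 1 (g i j) := fun i j => by
    rw [hder.mul, pow_two, hder.mul, h.Dt1]; ring
  have dxg : ∀ k : Fin n, ∀ i j, D k.succ.succ (t ^ 2 * g i j) = t ^ 2 * D k.succ.succ (g i j) :=
    fun k i j => by
    rw [hder.mul, pow_two, hder.mul, h.Dtx]; ring
  have hinv : ∀ j : Fin n, ∑ k, (- ∑ i : Fin n, gi k i * D i.succ.succ σ) * g k j =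
      - D j.succ.succ σ := by
    intro j
    have e1 : ∀ k, (- ∑ i : Fin n, gi k i * D i.succ.succ σ) * g k j =
        - ∑ i : Fin n, (g j k * gi k i) * D i.succ.succ σ := fun k => by
      rw [neg_mul, Finset.sum_mul]
      congr 1
      refine Finset.sum_congr rfl fun i _ => ?_
      rw [h.met.symm k j]; ring
    rw [Finset.sum_congr rfl fun k _ => e1 k, Finset.sum_neg_distrib, Finset.sum_comm]
    congr 1
    rw [Finset.sum_congr rfl fun i _ => (Finset.sum_mul _ _ _).symm]
    rw [Finset.sum_congr rfl fun i _ => by rw [h.met.inv j i]]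
    simp
  have hinv' : ∀ j : Fin n, ∑ k, (- ∑ i : Fin n, gi k i * D i.succ.succ σ) * g j k =
      - D j.succ.succ σ := by
    intro j
    rw [← hinv j]
    exact Finset.sum_congr rfl fun k _ => by rw [h.met.symm j k]
  have hsumt : ∀ (f : Fin n → A) (j : Fin n), ∑ k, f k * (t ^ 2 * g k j) =
      t ^ 2 * ∑ k, f k * g k j := fun f j => by
    rw [Finset.mul_sum]
    exact Finset.sum_congr rfl fun k _ => by ring
  have hsumt' : ∀ (f : Fin n → A) (j : Fin n), ∑ k, f k * (t ^ 2 * g j k) =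
      t ^ 2 * ∑ k, f k * g j k := fun f j => by
    rw [Finset.mul_sum]
    exact Finset.sum_congr rfl fun k _ => by ring
  have hsumX : ∀ (i j : Fin n), ∑ k : Fin n, X k * (t ^ 2 * D k.succ.succ (g i j)) =
      t ^ 2 * ∑ k : Fin n, X k * D k.succ.succ (g i j) := fun i j => by
    rw [Finset.mul_sum]
    exact Finset.sum_congr rfl fun k _ => by ring
  funext I K
  rw [amb_pull_gen D s hs Y (amb t ρ g) φ hφ I K, amb_pull_sum, amb_pull_sum, amb_pull_sum,
    Y0, Y1]
  simp only [Yx]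
  induction I using amb_pull_cases with
  | h0 =>
    induction K using amb_pull_cases with
    | h0 =>
      simp only [a00, a10, ax0, a01, a0x, d0r, d1r, dxr, d0Y0, d0Y1, hX0, mul_zero, zero_mul,
        Finset.sum_const_zero]
      show _ = 2 * ρ
      ring
    | h1 =>
      simp only [a01, a11, ax1, a00, a0x, d0Y0, d0Y1, d1Y0, d1Y1, hX0, h.Dt0, h.Dt1, h.Dtx,
        mul_zero, zero_mul, Finset.sum_const_zero]
      show _ = t
      ring
    | hx j =>
      simp only [a0x, a1x, a00, a01, hz, hX0, dxY0, dxY1, mul_zero, zero_mul,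
        Finset.sum_const_zero]
      show _ = 0
      ring
  | h1 =>
    induction K using amb_pull_cases with
    | h0 =>
      simp only [a10, a00, ax0, a11, a1x, d0Y0, d0Y1, d1Y0, d1Y1, h.Dt0, h.Dt1, h.Dtx,
        mul_zero, zero_mul, Finset.sum_const_zero]
      show _ = t
      ring
    | h1 =>
      simp only [a11, a01, ax1, a10, a1x, hz, d1Y0, d1Y1, mul_zero, zero_mul,
        Finset.sum_const_zero]
      show _ = 0
      ring
    | hx j =>
      simp only [a1x, a0x, axx, a10, a11, hz, d1Y0, d1Y1, dxY0, dxY1, hX1, mul_zero, zero_mul,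
        Finset.sum_const_zero, hsumt, hinv]
      show _ = 0
      ring
  | hx i =>
    induction K using amb_pull_cases with
    | h0 =>
      simp only [ax0, a00, a10, ax1, axx, hz, hX0, dxY0, dxY1, d0Y0, d0Y1, mul_zero, zero_mul,
        Finset.sum_const_zero]
      show _ = 0
      ring
    | h1 =>
      simp only [ax0, ax1, a01, a11, axx, hz, hX1, dxY0, dxY1, d1Y0, d1Y1, mul_zero, zero_mul,
        Finset.sum_const_zero, hsumt', hinv']
      show _ = 0
      ring
    | hx j =>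
      have axx' : ∀ (G : Fin n → Fin n → A) (i j : Fin n),
        amb t ρ G i.succ.succ j.succ.succ = t ^ 2 * G i j := fun _ _ _ => rfl
      simp only [axx', a0x, a1x, ax0, ax1, d0g, d1g, dxg, dxY0, dxY1, mul_zero, zero_mul,
        hsumt, hsumt', hsumX]
      ring

end Z_amb_pull

alias amb_pull := Z_amb_pull.amb_pull

end CInv
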