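import Pool.Agent.Helper767.Gjms.Defs2

set_option linter.all false

open scoped BigOperators

namespace CInv

namespace Z_rho_span

theorem rho_span {n : ℕ} {A : Type} [CommRing A] [Algebra ℝ A] {D : Fin (n + 1) → A → A}
    (hD : IsDer D) {ρ : A} (h1 : D 0 ρ = 1) (hx : ∀ i : Fin n, D i.succ ρ = 0) (s : ℕ) :
    (∀ (i : Fin n) (a : A), a ∈ Ideal.span {ρ ^ s} → D i.succ a ∈ Ideal.span {ρ ^ s}) ∧
    (∀ a : A, a ∈ Ideal.span {ρ ^ s} → D 0 a ∈ Ideal.span {ρ ^ (s - 1)}) ∧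
    (∀ a : A, a ∈ Ideal.span {ρ ^ s} → ρ * D 0 a ∈ Ideal.span {ρ ^ s}) ∧
    (∀ a : A, a ∈ Ideal.span {ρ ^ s} → ∀ x : ℝ,
      x • a - ρ * D 0 a - (x - s) • a ∈ Ideal.span {ρ ^ (s + 1)}) := by
  have hone : ∀ i, D i 1 = 0 := by
    intro i
    have h := hD.mul i 1 1
    rw [mul_one, one_mul, mul_one] at h
    exact left_eq_add.1 h
  have hpow0 : ∀ s : ℕ, D 0 (ρ ^ s) = (s : A) * ρ ^ (s - 1) := by
    intro s
    induction s with
    | zero => simp [hone]
    | succ k ih =>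
      rw [pow_succ, hD.mul, ih, h1]
      cases k with
      | zero => simp
      | succ m => simp only [Nat.add_sub_cancel]; push_cast; ring
  have hpowx : ∀ (i : Fin n) (s : ℕ), D i.succ (ρ ^ s) = 0 := by
    intro i s
    induction s with
    | zero => simp [hone]
    | succ k ih => rw [pow_succ, hD.mul, ih, hx]; ring
  have hρs : ρ * ((s : A) * ρ ^ (s - 1)) = (s : A) * ρ ^ s := by
    cases s with
    | zero => simp
    | succ m => simp only [Nat.add_sub_cancel]; ring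
  have hdv : ∀ a : A, a ∈ Ideal.span {ρ ^ s} → ∃ b, a = ρ ^ s * b := by
    intro a ha
    rw [Ideal.mem_span_singleton] at ha
    exact ha
  refine ⟨?_, ?_, ?_, ?_⟩
  · intro i a ha
    obtain ⟨b, rfl⟩ := hdv a ha
    rw [hD.mul, hpowx, zero_mul, zero_add, Ideal.mem_span_singleton]
    exact ⟨_, rfl⟩
  · intro a ha
    obtain ⟨b, rfl⟩ := hdv a ha
    rw [hD.mul, hpow0, Ideal.mem_span_singleton]
    refine dvd_add ⟨(s : A) * b, by ring⟩ ?_
    exact (pow_dvd_pow ρ (Nat.sub_le s 1)).mul_right _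
  · intro a ha
    obtain ⟨b, rfl⟩ := hdv a ha
    rw [hD.mul, hpow0, Ideal.mem_span_singleton, mul_add, ← mul_assoc, hρs]
    exact dvd_add ⟨(s : A) * b, by ring⟩ ⟨ρ * D 0 b, by ring⟩
  · intro a ha x
    obtain ⟨b, rfl⟩ := hdv a ha
    rw [hD.mul, hpow0, Ideal.mem_span_singleton, mul_add, ← mul_assoc ρ _ b, hρs, sub_smul]
    have e : (s : ℝ) • (ρ ^ s * b) = (s : A) * (ρ ^ s * b) := by
      rw [Algebra.smul_def, map_natCast]
    rw [e]
    exact ⟨-(D 0 b), by ring⟩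

end Z_rho_span

alias rho_span := Z_rho_span.rho_span

end CInv
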