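import Pool.Agent.Helper767.Gjms.Defs2
import Pool.Agent.Helper771.CInv.P_gi_symm
import Pool.Agent.Helper771.CInv.P_nat_eval

set_option linter.all false

open scoped BigOperators

namespace CInv

namespace Z_ric_cong

section RC

variable {n : ℕ} {A B : Type} [CommRing A] [Algebra ℝ A] [CommRing B] [Algebra ℝ B]
    {DA : Fin n → A → A} {DB : Fin n → B → B} {Rel : A → B → Prop}

theorem rel_zeroRC (hR : RelHom DA DB Rel) : Rel 0 0 := by
  have h := hR.smul 0 hR.one
  rwa [zero_smul, zero_smul] at h

theorem rel_negRC (hR : RelHom DA DB Rel) {a : A} {b : B} (h : Rel a b) : Rel (-a) (-b) := by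
  have h1 := hR.smul (-1) h
  rwa [neg_one_smul, neg_one_smul] at h1

theorem rel_subRC (hR : RelHom DA DB Rel) {a a' : A} {b b' : B} (h : Rel a b) (h' : Rel a' b') :
    Rel (a - a') (b - b') := by
  rw [sub_eq_add_neg, sub_eq_add_neg]
  exact hR.add h (rel_negRC hR h')

theorem rel_sumRC (hR : RelHom DA DB Rel) {ι : Type*} (s : Finset ι) {f : ι → A} {f' : ι → B}
    (h : ∀ i, Rel (f i) (f' i)) : Rel (∑ i ∈ s, f i) (∑ i ∈ s, f' i) := by
  classical
  induction s using Finset.induction_on with
  | empty => simpa using rel_zeroRC hR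
  | insert i s hi ih =>
    rw [Finset.sum_insert hi, Finset.sum_insert hi]
    exact hR.add (h i) ih

variable {gA giA : Fin n → Fin n → A} {gB giB : Fin n → Fin n → B}

theorem rel_chrRC (hR : RelHom DA DB Rel) (hg : ∀ i j, Rel (gA i j) (gB i j))
    (hgi : ∀ i j, Rel (giA i j) (giB i j)) (k i j : Fin n) :
    Rel (chr DA gA giA k i j) (chr DB gB giB k i j) := by
  unfold chr
  exact hR.smul _ (rel_sumRC hR _ fun l => hR.mul (hgi k l)
    (rel_subRC hR (hR.add (hR.der i (hg j l)) (hR.der j (hg i l))) (hR.der l (hg i j))))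

theorem rel_lapRC (hR : RelHom DA DB Rel) (hg : ∀ i j, Rel (gA i j) (gB i j))
    (hgi : ∀ i j, Rel (giA i j) (giB i j)) {u : A} {u' : B} (hu : Rel u u') :
    Rel (lap DA gA giA u) (lap DB gB giB u') := by
  unfold lap
  exact rel_sumRC hR _ fun i => rel_sumRC hR _ fun j => hR.mul (hgi i j)
    (rel_subRC hR (hR.der i (hR.der j hu)) (rel_sumRC hR _ fun k =>
      hR.mul (rel_chrRC hR hg hgi k i j) (hR.der k hu)))

end RC

theorem relIdeal {n : ℕ} {A : Type} [CommRing A] [Algebra ℝ A] {D : Fin n → A → A}
    (hD : IsDer D) (I : Ideal A) (hI : ∀ i a, a ∈ I → D i a ∈ I) :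
    RelHom D D (fun a b : A => b - a ∈ I) where
  one := by rw [sub_self]; exact I.zero_mem
  add := by
    intro a a' b b' h1 h2
    have e : b + b' - (a + a') = (b - a) + (b' - a') := by ring
    rw [e]
    exact I.add_mem h1 h2
  mul := by
    intro a a' b b' h1 h2
    have e : b * b' - a * a' = b * (b' - a') + a' * (b - a) := by ring
    rw [e]
    exact I.add_mem (I.mul_mem_left _ h2) (I.mul_mem_left _ h1)
  smul := by
    intro r a b h1
    rw [← smul_sub, Algebra.smul_def]
    exact I.mul_mem_left _ h1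
  der := by
    intro i a b h1
    have e : D i b - D i a = D i (b - a) := by
      have h2 := hD.add i (b - a) a
      rw [sub_add_cancel] at h2
      rw [h2]; ring
    rw [e]
    exact hI i _ h1

theorem ric_cong {n : ℕ} {A : Type} [CommRing A] [Algebra ℝ A] {D : Fin n → A → A}
    (hD : IsDer D) (I : Ideal A) (hI : ∀ i a, a ∈ I → D i a ∈ I)
    {g gi g' gi' : Fin n → Fin n → A} (h : IsMetric g gi) (h' : IsMetric g' gi')
    (hg : ∀ i j, g' i j - g i j ∈ I) :
    (∀ i j, gi' i j - gi i j ∈ I) ∧ (∀ i j, ric D g' gi' i j - ric D g gi i j ∈ I) ∧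
    (∀ u u', u' - u ∈ I → lap D g' gi' u' - lap D g gi u ∈ I) := by
  have hgi : ∀ i j, gi' i j - gi i j ∈ I := by
    intro i j
    have h1 : ∑ a, ∑ b, gi i a * g' a b * gi' b j = gi i j := by
      calc ∑ a, ∑ b, gi i a * g' a b * gi' b j = ∑ a, gi i a * ∑ b, g' a b * gi' b j := by
            apply Finset.sum_congr rfl; intro a _
            rw [Finset.mul_sum]
            apply Finset.sum_congr rfl; intro b _
            ring
        _ = ∑ a, gi i a * (if a = j then 1 else 0) := by
            apply Finset.sum_congr rfl; intro a _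
            rw [h'.inv]
        _ = gi i j := by simp
    have h2 : ∑ a, ∑ b, gi i a * g a b * gi' b j = gi' i j := by
      rw [Finset.sum_comm]
      calc ∑ b, ∑ a, gi i a * g a b * gi' b j = ∑ b, (∑ a, gi i a * g a b) * gi' b j := by
            apply Finset.sum_congr rfl; intro a _
            rw [Finset.sum_mul]
        _ = ∑ b, (if i = b then 1 else 0) * gi' b j := by
            apply Finset.sum_congr rfl; intro b _
            rw [(gi_symm h).2]
        _ = gi' i j := by simp
    have h3 : gi' i j - gi i j = - ∑ a, ∑ b, gi i a * (g' a b - g a b) * gi' b j := by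
      have h4 : ∑ a, ∑ b, gi i a * (g' a b - g a b) * gi' b j =
          ∑ a, ∑ b, gi i a * g' a b * gi' b j - ∑ a, ∑ b, gi i a * g a b * gi' b j := by
        rw [← Finset.sum_sub_distrib]
        apply Finset.sum_congr rfl; intro a _
        rw [← Finset.sum_sub_distrib]
        apply Finset.sum_congr rfl; intro b _
        ring
      rw [h4, h1, h2]
      ring
    rw [h3]
    apply I.neg_mem
    apply I.sum_mem; intro a _
    apply I.sum_mem; intro b _
    exact I.mul_mem_right _ (I.mul_mem_left _ (hg a b))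
  have hR := relIdeal hD I hI
  exact ⟨hgi, (nat_eval hR hg hgi 0).1, fun u u' hu => rel_lapRC hR hg hgi hu⟩

end Z_ric_cong

alias ric_cong := Z_ric_cong.ric_cong

end CInv
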