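import Pool.Agent.Helper767.Gjms.Defs2
import Pool.Agent.Helper771.CInv.P_gi_symm
import Pool.Agent.Helper767.Gjms.P_rho_span
import Pool.Agent.Helper767.Gjms.P_ric_cong

set_option linter.all false

open scoped BigOperators

namespace CInv

namespace Z_fg_diff

theorem fg_diff_pow {n : ℕ} {A : Type} [CommRing A] [Algebra ℝ A] {D : Fin (n + 1) → A → A}
    (hD : IsDer D) {ρ : A} (h1 : D 0 ρ = 1) (k : ℕ) :
    D 0 (ρ ^ (k + 1)) = ((k : ℝ) + 1) • ρ ^ k := by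
  induction k with
  | zero => simp [h1]
  | succ k ih =>
    rw [pow_succ, hD.mul, ih, h1, smul_mul_assoc, ← pow_succ, mul_one]
    push_cast
    module

theorem fg_diff_rho {n : ℕ} {A : Type} [CommRing A] [Algebra ℝ A] {D : Fin (n + 1) → A → A}
    (hD : IsDer D) {ρ : A} (h1 : D 0 ρ = 1) (k : ℕ) (x : A) :
    ρ * D 0 (ρ ^ k * x) = (k : ℝ) • (ρ ^ k * x) + ρ ^ (k + 1) * D 0 x := by
  cases k with
  | zero => simp
  | succ k =>
    rw [hD.mul, fg_diff_pow hD h1, mul_add, smul_mul_assoc, mul_smul_comm]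
    push_cast
    congr 1
    · congr 1
      ring
    · ring

theorem fg_diff {n : ℕ} {A : Type} [CommRing A] [Algebra ℝ A] {D : Fin (n + 1) → A → A}
    (hD : IsDer D) {ρ : A} (h1 : D 0 ρ = 1) (hx : ∀ i : Fin n, D i.succ ρ = 0)
    {g gi g' gi' : Fin n → Fin n → A} (h : IsMetric g gi) (h' : IsMetric g' gi')
    (m : ℕ) (hm : 1 ≤ m) (e : Fin n → Fin n → A) (he : ∀ i j, g' i j = g i j + ρ ^ m * e i j)
    (i j : Fin n) :
    fg (D 0) (fun i : Fin n => D i.succ) ρ g' gi' i j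
      - fg (D 0) (fun i : Fin n => D i.succ) ρ g gi i j
      - ρ ^ (m - 1) * (((m : ℝ) * ((m : ℝ) - (n : ℝ) / 2)) • e i j
          - ((m : ℝ) / 2) • ((∑ k, ∑ l, gi k l * e k l) * g i j))
      ∈ Ideal.span {ρ ^ m} := by
  obtain ⟨s, rfl⟩ : ∃ s, m = s + 1 := ⟨m - 1, by omega⟩
  rw [Nat.add_sub_cancel]
  have hspan := rho_span hD h1 hx (s + 1)
  have hDx : IsDer (fun i : Fin n => D i.succ) :=
    ⟨fun i a b => hD.add _ a b, fun i a b => hD.mul _ a b, fun i r a => hD.smul _ r a,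
      fun i j a => hD.comm _ _ a⟩
  obtain ⟨I, hI⟩ : ∃ I : Ideal A, I = Ideal.span {ρ ^ (s + 1)} := ⟨_, rfl⟩
  rw [← hI] at hspan ⊢
  have hρI : ρ ^ (s + 1) ∈ I := by
    rw [hI]
    exact Ideal.subset_span rfl
  have hcong := ric_cong hDx I hspan.1 h h' (fun i j => by
    rw [he, add_sub_cancel_left]
    exact I.mul_mem_right _ hρI)
  obtain ⟨φ, hφ⟩ : ∃ φ : A →ₐ[ℝ] (A ⧸ I), ∀ x, φ x = 0 ↔ x ∈ I :=
    ⟨Ideal.Quotient.mkₐ ℝ I, fun x => Ideal.Quotient.eq_zero_iff_mem⟩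
  rw [← hφ]
  have hr1 : φ ρ ^ (s + 1) = 0 := by
    rw [← map_pow]
    exact (hφ _).2 hρI
  have hr : φ ρ * φ ρ ^ s = 0 := by
    rw [← pow_succ']
    exact hr1
  have P3 : ∀ k l, φ (gi' k l) = φ (gi k l) := fun k l => by
    have := (hφ _).2 (hcong.1 k l)
    rwa [map_sub, sub_eq_zero] at this
  have T6 : φ (ric (fun i : Fin n => D i.succ) g' gi' i j) =
      φ (ric (fun i : Fin n => D i.succ) g gi i j) := by
    have := (hφ _).2 (hcong.2.1 i j)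
    rwa [map_sub, sub_eq_zero] at this
  have Pg : ∀ k l, φ (g' k l) = φ (g k l) := fun k l => by
    rw [he, map_add, map_mul, map_pow, hr1, zero_mul, add_zero]
  have hDg : ∀ k l, D 0 (g' k l) =
      D 0 (g k l) + (((s : ℝ) + 1) • (ρ ^ s * e k l) + ρ ^ (s + 1) * D 0 (e k l)) := fun k l => by
    rw [he, hD.add, hD.mul, fg_diff_pow hD h1, smul_mul_assoc]
  have T4 : ∀ k l, φ (D 0 (g' k l)) =
      φ (D 0 (g k l)) + ((s : ℝ) + 1) • (φ ρ ^ s * φ (e k l)) := fun k l => by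
    rw [hDg, map_add, map_add, map_smul, map_mul, map_mul, map_pow, map_pow, hr1, zero_mul,
      add_zero]
  have T1 : φ (ρ * D 0 (D 0 (g' i j))) =
      φ (ρ * D 0 (D 0 (g i j))) + (((s : ℝ) + 1) * s) • (φ ρ ^ s * φ (e i j)) := by
    rw [hDg, hD.add, hD.add, hD.smul, mul_add, mul_add, mul_smul_comm, fg_diff_rho hD h1 s,
      fg_diff_rho hD h1 (s + 1)]
    simp only [map_add, map_smul, map_mul, map_pow, hr1, zero_mul, pow_succ (φ ρ) (s + 1),
      smul_zero, add_zero, smul_smul]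
  have Ttr : φ (trp (D 0) g' gi') = φ (trp (D 0) g gi) +
      ((s : ℝ) + 1) • (φ ρ ^ s * ∑ k, ∑ l, φ (gi k l) * φ (e k l)) := by
    unfold trp
    rw [map_sum, map_sum, Finset.mul_sum, Finset.smul_sum, ← Finset.sum_add_distrib]
    refine Finset.sum_congr rfl fun k _ => ?_
    rw [map_sum, map_sum, Finset.mul_sum, Finset.smul_sum, ← Finset.sum_add_distrib]
    refine Finset.sum_congr rfl fun l _ => ?_
    rw [map_mul, map_mul, P3, T4, mul_add, mul_smul_comm]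
    congr 2
    ring
  have T2 : φ (ρ * (∑ k, ∑ l, gi' k l * D 0 (g' i k) * D 0 (g' j l))) =
      φ (ρ * (∑ k, ∑ l, gi k l * D 0 (g i k) * D 0 (g j l))) := by
    rw [map_mul, map_mul, map_sum, map_sum, Finset.mul_sum, Finset.mul_sum]
    refine Finset.sum_congr rfl fun k _ => ?_
    rw [map_sum, map_sum, Finset.mul_sum, Finset.mul_sum]
    refine Finset.sum_congr rfl fun l _ => ?_
    simp only [map_mul, P3, T4, Algebra.smul_def]
    linear_combination (φ (gi k l) * (algebraMap ℝ (A ⧸ I) ((s : ℝ) + 1)) * φ (e i k) *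
        φ (D 0 (g j l)) + φ (gi k l) * φ (D 0 (g i k)) * (algebraMap ℝ (A ⧸ I) ((s : ℝ) + 1)) *
        φ (e j l) + φ (gi k l) * (algebraMap ℝ (A ⧸ I) ((s : ℝ) + 1)) ^ 2 * φ (e i k) *
        φ (e j l) * φ ρ ^ s) * hr
  have T3 : φ (ρ * trp (D 0) g' gi' * D 0 (g' i j)) = φ (ρ * trp (D 0) g gi * D 0 (g i j)) := by
    simp only [map_mul, Ttr, T4, Algebra.smul_def]
    linear_combination (algebraMap ℝ (A ⧸ I) ((s : ℝ) + 1) *
      (∑ k, ∑ l, φ (gi k l) * φ (e k l)) * φ (D 0 (g i j)) +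
      φ (trp (D 0) g gi) * algebraMap ℝ (A ⧸ I) ((s : ℝ) + 1) * φ (e i j) +
      algebraMap ℝ (A ⧸ I) ((s : ℝ) + 1) ^ 2 * (∑ k, ∑ l, φ (gi k l) * φ (e k l)) *
      φ (e i j) * φ ρ ^ s) * hr
  have T5 : φ (trp (D 0) g' gi' * g' i j) = φ (trp (D 0) g gi * g i j) +
      ((s : ℝ) + 1) • (φ ρ ^ s * ((∑ k, ∑ l, φ (gi k l) * φ (e k l)) * φ (g i j))) := by
    rw [map_mul, map_mul, Ttr, Pg, add_mul, smul_mul_assoc]
    congr 2
    ring
  have T7 : φ (ρ ^ s * ((((s + 1 : ℕ) : ℝ) * (((s + 1 : ℕ) : ℝ) - (n : ℝ) / 2)) • e i j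
          - (((s + 1 : ℕ) : ℝ) / 2) • ((∑ k, ∑ l, gi k l * e k l) * g i j))) =
      (((s : ℝ) + 1) * (((s : ℝ) + 1) - (n : ℝ) / 2)) • (φ ρ ^ s * φ (e i j)) -
      (((s : ℝ) + 1) / 2) • (φ ρ ^ s * ((∑ k, ∑ l, φ (gi k l) * φ (e k l)) * φ (g i j))) := by
    simp only [map_mul, map_sub, map_smul, map_pow, map_sum, mul_sub, mul_smul_comm,
      Nat.cast_add, Nat.cast_one]
  unfold fg
  rw [map_sub, map_sub, T7]
  simp only [map_add, map_sub, map_smul, T1, T2, T3, T4, T5, T6]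
  module

end Z_fg_diff

alias fg_diff := Z_fg_diff.fg_diff

end CInv
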