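import Pool.Agent.Helper767.Gjms.Defs2
import Pool.Agent.Helper771.CInv.P_gi_symm

set_option linter.all false

open scoped BigOperators

namespace CInv

namespace Z_pinv_spec

theorem psp_zero {n : ℕ} {A : Type} [CommRing A] (gi : Fin n → Fin n → A)
    (G : Fin n → Fin n → PowerSeries A) (i j : Fin n) : pinvC gi G 0 i j = gi i j := by
  rw [pinvC]

theorem psp_succ {n : ℕ} {A : Type} [CommRing A] (gi : Fin n → Fin n → A)
    (G : Fin n → Fin n → PowerSeries A) (k : ℕ) (i j : Fin n) : pinvC gi G (k + 1) i j =
    - ∑ m ∈ Finset.range (k + 1), ∑ a, ∑ b,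
      gi i a * PowerSeries.coeff (k + 1 - m) (G a b) * pinvC gi G m b j := by
  rw [pinvC, Finset.sum_range]

theorem psp_coeff {n : ℕ} {A : Type} [CommRing A] (gi : Fin n → Fin n → A)
    (G : Fin n → Fin n → PowerSeries A) (d : ℕ) (i j b : Fin n) :
    PowerSeries.coeff d (G i b * pinv gi G b j) =
      ∑ m ∈ Finset.range (d + 1), PowerSeries.coeff (d - m) (G i b) * pinvC gi G m b j := by
  rw [mul_comm, PowerSeries.coeff_mul,
    Finset.Nat.sum_antidiagonal_eq_sum_range_succ
      (fun p q => PowerSeries.coeff p (pinv gi G b j) * PowerSeries.coeff q (G i b))]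
  refine Finset.sum_congr rfl fun m _ => ?_
  unfold pinv
  rw [PowerSeries.coeff_mk, mul_comm]

theorem pinv_spec {n : ℕ} {A : Type} [CommRing A] {g gi : Fin n → Fin n → A}
    (h : IsMetric g gi) {G : Fin n → Fin n → PowerSeries A}
    (h0 : ∀ i j, PowerSeries.constantCoeff (G i j) = g i j) (hs : ∀ i j, G i j = G j i) :
    IsMetric G (pinv gi G) := by
  refine ⟨hs, fun i j => ?_⟩
  have hG0 : ∀ i b, PowerSeries.coeff 0 (G i b) = g i b := by
    intro i b
    rw [PowerSeries.coeff_zero_eq_constantCoeff_apply, h0]
  ext d
  rw [map_sum]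
  have hr : PowerSeries.coeff d (if i = j then (1 : PowerSeries A) else 0) =
      if i = j then (if d = 0 then 1 else 0) else 0 := by
    split_ifs with h1 h2 h2
    · rw [h2]; exact PowerSeries.coeff_zero_one
    · rw [PowerSeries.coeff_one, if_neg h2]
    · exact map_zero _
  rw [hr]
  cases d with
  | zero =>
    rw [if_pos rfl, ← h.inv i j]
    refine Finset.sum_congr rfl fun b _ => ?_
    rw [psp_coeff, Finset.sum_range_one, psp_zero, Nat.sub_zero, hG0]
  | succ k =>
    rw [if_neg (Nat.succ_ne_zero k), ite_self]
    have h1 : ∀ b, PowerSeries.coeff (k + 1) (G i b * pinv gi G b j) =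
        (∑ m ∈ Finset.range (k + 1), PowerSeries.coeff (k + 1 - m) (G i b) * pinvC gi G m b j) +
          g i b * pinvC gi G (k + 1) b j := by
      intro b
      rw [psp_coeff, Finset.sum_range_succ, Nat.sub_self, hG0]
    rw [Finset.sum_congr rfl fun b _ => h1 b, Finset.sum_add_distrib]
    have h2 : ∑ b, g i b * pinvC gi G (k + 1) b j =
        - ∑ m ∈ Finset.range (k + 1), ∑ b, PowerSeries.coeff (k + 1 - m) (G i b) * pinvC gi G m b j := by
      calc ∑ b, g i b * pinvC gi G (k + 1) b j
          = ∑ b, - ∑ m ∈ Finset.range (k + 1), ∑ a, ∑ b', g i b * gi b a *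
              (PowerSeries.coeff (k + 1 - m) (G a b') * pinvC gi G m b' j) := by
            refine Finset.sum_congr rfl fun b _ => ?_
            rw [psp_succ, mul_neg, Finset.mul_sum]
            congr 1
            refine Finset.sum_congr rfl fun m _ => ?_
            rw [Finset.mul_sum]
            refine Finset.sum_congr rfl fun a _ => ?_
            rw [Finset.mul_sum]
            refine Finset.sum_congr rfl fun b' _ => ?_
            ring
        _ = - ∑ m ∈ Finset.range (k + 1), ∑ b, ∑ a, ∑ b', g i b * gi b a *
              (PowerSeries.coeff (k + 1 - m) (G a b') * pinvC gi G m b' j) := by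
            rw [Finset.sum_neg_distrib, Finset.sum_comm]
        _ = _ := by
            congr 1
            refine Finset.sum_congr rfl fun m _ => ?_
            rw [Finset.sum_comm]
            calc ∑ a, ∑ b, ∑ b', g i b * gi b a *
                  (PowerSeries.coeff (k + 1 - m) (G a b') * pinvC gi G m b' j)
                = ∑ a, (if i = a then 1 else 0) *
                    ∑ b', (PowerSeries.coeff (k + 1 - m) (G a b') * pinvC gi G m b' j) := by
                  refine Finset.sum_congr rfl fun a _ => ?_
                  rw [← h.inv i a, Finset.sum_mul]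
                  refine Finset.sum_congr rfl fun b _ => ?_
                  rw [Finset.mul_sum]
              _ = _ := by simp
    rw [h2, Finset.sum_comm, add_neg_cancel]

end Z_pinv_spec

alias pinv_spec := Z_pinv_spec.pinv_spec

end CInv
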