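import Pool.Agent.Helper767.Gjms.Defs2
import Pool.Agent.Helper771.CInv.P_gi_symm
import Pool.Agent.Helper771.CInv.P_ric_symm
import Pool.Agent.Helper767.Gjms.P_ext_isder
import Pool.Agent.Helper767.Gjms.P_fg_diff
import Pool.Agent.Helper767.Gjms.P_pinv_spec

set_option linter.all false

open scoped BigOperators

namespace CInv

namespace Z_fgG_spec

theorem fgG_spec_der {n : ℕ} {A : Type} [CommRing A] [Algebra ℝ A] {D : Fin n → A → A}
    (hD : IsDer D) : IsDer (fun i : Fin n => cw (D i)) := by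
  have h := ext_isder hD
  exact ⟨fun i a b => h.add i.succ a b, fun i a b => h.mul i.succ a b,
    fun i r a => h.smul i.succ r a, fun i j a => h.comm i.succ j.succ a⟩

theorem fgG_spec_symm {n : ℕ} {A : Type} [CommRing A] [Algebra ℝ A] (Dr : A → A)
    {Dx : Fin n → A → A} (hD : IsDer Dx) (ρ : A) {g gi : Fin n → Fin n → A}
    (h : IsMetric g gi) (i j : Fin n) :
    fg Dr Dx ρ g gi i j = fg Dr Dx ρ g gi j i := by
  unfold fg
  have e1 : ∑ k, ∑ l, gi k l * Dr (g i k) * Dr (g j l) =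
      ∑ k, ∑ l, gi k l * Dr (g j k) * Dr (g i l) := by
    rw [Finset.sum_comm]
    refine Finset.sum_congr rfl fun k _ => Finset.sum_congr rfl fun l _ => ?_
    rw [(gi_symm h).1 l k]
    ring
  rw [e1, ric_symm hD h i j, h.symm i j]

theorem fgG_spec_D0 {n : ℕ} {A : Type} [CommRing A] [Algebra ℝ A] {D : Fin n → A → A}
    (hD : IsDer D) (i : Fin n) : D i 0 = 0 ∧ D i 1 = 0 := by
  constructor
  · have h := hD.add i 0 0
    rw [add_zero] at h
    exact left_eq_add.1 h
  · have h := hD.mul i 1 1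
    rw [mul_one, mul_one, one_mul] at h
    exact left_eq_add.1 h

theorem fgG_spec_X0 {A : Type} [CommRing A] :
    PowerSeries.derivativeFun (PowerSeries.X : PowerSeries A) = 1 := by
  exact PowerSeries.derivative_X (R := A)

theorem fgG_spec_X1 {n : ℕ} {A : Type} [CommRing A] [Algebra ℝ A] {D : Fin n → A → A}
    (hD : IsDer D) (i : Fin n) : cw (D i) (PowerSeries.X : PowerSeries A) = 0 := by
  ext k
  unfold cw
  rw [PowerSeries.coeff_mk, PowerSeries.coeff_X, map_zero]
  split_ifs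
  · exact (fgG_spec_D0 hD i).2
  · exact (fgG_spec_D0 hD i).1

theorem fgG_spec_cs {A : Type} [CommRing A] [Algebra ℝ A] (r : ℝ) (p : PowerSeries A) :
    PowerSeries.constantCoeff (r • p) = r • PowerSeries.constantCoeff p := by
  rw [Algebra.smul_def, Algebra.smul_def, map_mul, PowerSeries.algebraMap_apply,
    PowerSeries.constantCoeff_C]

theorem fgG_spec_pinv0 {n : ℕ} {A : Type} [CommRing A] (gi : Fin n → Fin n → A)
    (G : Fin n → Fin n → PowerSeries A) (i j : Fin n) :
    PowerSeries.constantCoeff (pinv gi G i j) = gi i j := by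
  unfold pinv
  rw [← PowerSeries.coeff_zero_eq_constantCoeff_apply, PowerSeries.coeff_mk, pinvC]

theorem fgG_spec_alg {n : ℕ} {A : Type} [CommRing A] [Algebra ℝ A]
    {g gi : Fin n → Fin n → A} (h : IsMetric g gi) (E : Fin n → Fin n → A) (M : ℝ)
    (hM0 : M ≠ 0) (hM1 : M - (n : ℝ) / 2 ≠ 0) (hM2 : M - (n : ℝ) ≠ 0)
    (s : Fin n → Fin n → A)
    (hs : ∀ i j, s i j = (1 / (M * (M - (n : ℝ) / 2))) •
      (-(E i j) - (1 / (2 * (M - (n : ℝ)))) • ((∑ k, ∑ l, gi k l * E k l) * g i j)))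
    (i j : Fin n) :
    E i j + ((M * (M - (n : ℝ) / 2)) • s i j -
      (M / 2) • ((∑ k, ∑ l, gi k l * s k l) * g i j)) = 0 := by
  obtain ⟨T, hT⟩ : ∃ T, T = ∑ k, ∑ l, gi k l * E k l := ⟨_, rfl⟩
  obtain ⟨c1, hc1⟩ : ∃ c1, c1 = 1 / (M * (M - (n : ℝ) / 2)) := ⟨_, rfl⟩
  obtain ⟨c2, hc2⟩ : ∃ c2, c2 = 1 / (2 * (M - (n : ℝ))) := ⟨_, rfl⟩
  simp only [← hT, ← hc1, ← hc2] at hs
  have hN : ∑ k, ∑ l, gi k l * g k l = (n : ℝ) • (1 : A) := by
    have h1 : ∀ k, ∑ l, gi k l * g k l = 1 := by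
      intro k
      have h2 := (gi_symm h).2 k k
      rw [if_pos rfl] at h2
      rw [← h2]
      refine Finset.sum_congr rfl fun l _ => ?_
      rw [h.symm k l]
    rw [Finset.sum_congr rfl fun k _ => h1 k, Finset.sum_const, Finset.card_univ,
      Fintype.card_fin, Nat.cast_smul_eq_nsmul]
  have hS : ∑ k, ∑ l, gi k l * s k l = (c1 * (-1 - c2 * n)) • T := by
    have h1 : ∀ k l, gi k l * s k l = c1 • (-(gi k l * E k l)) -
        (c1 * c2) • (T * (gi k l * g k l)) := by
      intro k l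
      rw [hs k l]
      simp only [Algebra.smul_def, map_mul]
      ring
    have h2 : ∑ k, ∑ l, gi k l * s k l = c1 • (-(∑ k, ∑ l, gi k l * E k l)) -
        (c1 * c2) • (T * ∑ k, ∑ l, gi k l * g k l) := by
      simp only [h1, Finset.sum_sub_distrib, ← Finset.smul_sum, Finset.sum_neg_distrib,
        ← Finset.mul_sum]
    rw [h2, hN, ← hT, mul_smul_comm, mul_one]
    module
  rw [hS, hs i j, smul_mul_assoc]
  obtain ⟨y, hy⟩ : ∃ y, y = T * g i j := ⟨_, rfl⟩
  rw [← hy]
  have e1 : M * (M - (n : ℝ) / 2) * c1 = 1 := by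
    rw [hc1]
    exact mul_one_div_cancel (mul_ne_zero hM0 hM1)
  have e2 : 2 * (M - (n : ℝ)) * c2 = 1 := by
    rw [hc2]
    exact mul_one_div_cancel (mul_ne_zero two_ne_zero hM2)
  have e3 : E i j + ((M * (M - (n : ℝ) / 2)) • c1 • (-(E i j) - c2 • y) -
      (M / 2) • (c1 * (-1 - c2 * n)) • y) =
      (1 - M * (M - (n : ℝ) / 2) * c1) • E i j +
      (-(M * (M - (n : ℝ) / 2) * c1 * c2) + M / 2 * (c1 * (1 + c2 * n))) • y := by
    module
  rw [e3, e1, sub_self, zero_smul, zero_add]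
  have e4 : -(1 * c2) + M / 2 * (c1 * (1 + c2 * n)) = 0 := by
    linear_combination c2 * e1 - (M / 2 * c1) * e2
  rw [e4, zero_smul]

theorem fgG_spec {n : ℕ} {A : Type} [CommRing A] [Algebra ℝ A] {D : Fin n → A → A}
    (hD : IsDer D) {g gi : Fin n → Fin n → A} (h : IsMetric g gi) (m : ℕ) (hm : 2 * m + 2 ≤ n) :
    (∀ i j, fgG D g gi m i j = fgG D g gi m j i) ∧
    (∀ i j, PowerSeries.constantCoeff (fgG D g gi m i j) = g i j) ∧
    (∀ i j, fgX D (fgG D g gi m) (pinv gi (fgG D g gi m)) i j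
      ∈ Ideal.span {(PowerSeries.X : PowerSeries A) ^ m}) := by
  have hDx := fgG_spec_der hD
  induction m with
  | zero =>
    refine ⟨fun i j => ?_, fun i j => ?_, fun i j => ?_⟩
    · show PowerSeries.C (g i j) = PowerSeries.C (g j i)
      rw [h.symm i j]
    · show PowerSeries.constantCoeff (PowerSeries.C (g i j)) = g i j
      exact PowerSeries.constantCoeff_C _
    · rw [pow_zero, Ideal.span_singleton_one]
      exact Submodule.mem_top
  | succ m ih =>
    obtain ⟨i1, i2, i3⟩ := ih (by omega)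
    have hM := pinv_spec h i2 i1
    have hE : ∀ i j, fgX D (fgG D g gi m) (pinv gi (fgG D g gi m)) i j =
        fgX D (fgG D g gi m) (pinv gi (fgG D g gi m)) j i := fun i j =>
      fgG_spec_symm _ hDx _ hM i j
    have hs : ∀ i j, fgStep D g gi (fgG D g gi m) m i j =
        fgStep D g gi (fgG D g gi m) m j i := by
      intro i j
      unfold fgStep
      rw [hE i j, h.symm i j]
    have hdef : ∀ i j, fgG D g gi (m + 1) i j = fgG D g gi m i j
      + PowerSeries.X ^ (m + 1) * PowerSeries.C (fgStep D g gi (fgG D g gi m) m i j) :=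
      fun i j => rfl
    have j1 : ∀ i j, fgG D g gi (m + 1) i j = fgG D g gi (m + 1) j i := by
      intro i j
      rw [hdef, hdef, i1 i j, hs i j]
    have j2 : ∀ i j, PowerSeries.constantCoeff (fgG D g gi (m + 1) i j) = g i j := by
      intro i j
      rw [hdef, map_add, i2 i j, map_mul, map_pow, PowerSeries.constantCoeff_X,
        zero_pow (Nat.succ_ne_zero m), zero_mul, add_zero]
    refine ⟨j1, j2, fun i j => ?_⟩
    have hM' := pinv_spec h j2 j1
    have hd := fg_diff (ext_isder hD) (ρ := (PowerSeries.X : PowerSeries A)) fgG_spec_X0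
      (fun i => fgG_spec_X1 hD i) hM hM' (m + 1) (by omega)
      (fun i j => PowerSeries.C (fgStep D g gi (fgG D g gi m) m i j)) hdef i j
    rw [Ideal.mem_span_singleton] at hd ⊢
    have i3' := i3 i j
    rw [Ideal.mem_span_singleton] at i3'
    obtain ⟨F1, hF1⟩ := i3'
    obtain ⟨Z, hZ⟩ := hd
    have k1 : fg (extD D 0) (fun i : Fin n => extD D i.succ) PowerSeries.X
        (fgG D g gi (m + 1)) (pinv gi (fgG D g gi (m + 1))) i j =
        fgX D (fgG D g gi (m + 1)) (pinv gi (fgG D g gi (m + 1))) i j := rfl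
    have k2 : fg (extD D 0) (fun i : Fin n => extD D i.succ) PowerSeries.X
        (fgG D g gi m) (pinv gi (fgG D g gi m)) i j =
        fgX D (fgG D g gi m) (pinv gi (fgG D g gi m)) i j := rfl
    rw [k1, k2, Nat.add_sub_cancel] at hZ
    obtain ⟨Y, hY⟩ : ∃ Y : PowerSeries A, Y =
        ((((m + 1 : ℕ) : ℝ) * (((m + 1 : ℕ) : ℝ) - (n : ℝ) / 2)) •
          PowerSeries.C (fgStep D g gi (fgG D g gi m) m i j)
          - ((((m + 1 : ℕ) : ℝ)) / 2) • ((∑ k, ∑ l, pinv gi (fgG D g gi m) k l *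
            PowerSeries.C (fgStep D g gi (fgG D g gi m) m k l)) * fgG D g gi m i j)) :=
      ⟨_, rfl⟩
    rw [← hY] at hZ
    have hc : PowerSeries.constantCoeff (F1 + Y) = 0 := by
      have c1 : PowerSeries.constantCoeff F1 =
          PowerSeries.coeff m (fgX D (fgG D g gi m) (pinv gi (fgG D g gi m)) i j) := by
        have c2 := PowerSeries.coeff_X_pow_mul F1 m 0
        rw [zero_add] at c2
        rw [hF1, c2, PowerSeries.coeff_zero_eq_constantCoeff_apply]
      have c3 : PowerSeries.constantCoeff Y =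
          ((((m + 1 : ℕ) : ℝ) * (((m + 1 : ℕ) : ℝ) - (n : ℝ) / 2)) •
          (fgStep D g gi (fgG D g gi m) m i j)
          - ((((m + 1 : ℕ) : ℝ)) / 2) • ((∑ k, ∑ l, gi k l *
            (fgStep D g gi (fgG D g gi m) m k l)) * g i j)) := by
        rw [hY, map_sub, fgG_spec_cs, fgG_spec_cs, map_mul, map_sum, i2,
          PowerSeries.constantCoeff_C]
        simp only [map_sum, map_mul, fgG_spec_pinv0, PowerSeries.constantCoeff_C]
      rw [map_add, c1, c3]
      have hn : (2 * (m : ℝ) + 4) ≤ (n : ℝ) := by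
        have : ((2 * (m + 1) + 2 : ℕ) : ℝ) ≤ (n : ℝ) := by exact_mod_cast hm
        push_cast at this
        linarith
      have hm0 : (0 : ℝ) ≤ (m : ℝ) := by positivity
      refine fgG_spec_alg h (fun i j =>
        PowerSeries.coeff m (fgX D (fgG D g gi m) (pinv gi (fgG D g gi m)) i j))
        (((m + 1 : ℕ) : ℝ)) ?_ ?_ ?_ (fun i j => fgStep D g gi (fgG D g gi m) m i j) ?_ i j
      · push_cast
        positivity
      · push_cast
        apply ne_of_lt
        linarith
      · push_cast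
        apply ne_of_lt
        linarith
      · intro i j
        unfold fgStep
        push_cast
        rfl
    rw [← PowerSeries.X_dvd_iff] at hc
    obtain ⟨W, hW⟩ := hc
    refine ⟨Z + W, ?_⟩
    linear_combination hZ + hF1 + PowerSeries.X ^ m * hW

end Z_fgG_spec

alias fgG_spec := Z_fgG_spec.fgG_spec

end CInv
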