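import Pool.Agent.Helper767.Gjms.Defs2
import Pool.Agent.Helper771.CInv.P_gi_symm

set_option linter.all false

open scoped BigOperators

namespace CInv

namespace Z_inv_unique

theorem inv_unique {n : ℕ} {A : Type} [CommRing A] {g gi gi' : Fin n → Fin n → A}
    (h : IsMetric g gi) (h' : IsMetric g gi') : gi = gi' := by
  have h1 : Matrix.of g * Matrix.of gi' = 1 := by
    ext i j
    rw [Matrix.mul_apply, Matrix.one_apply]
    exact h'.inv i j
  have h2 : Matrix.of gi * Matrix.of g = 1 := by
    ext i j
    rw [Matrix.mul_apply, Matrix.one_apply]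
    exact (gi_symm h).2 i j
  have h3 : Matrix.of gi = Matrix.of gi' := by
    calc Matrix.of gi = Matrix.of gi * (Matrix.of g * Matrix.of gi') := by rw [h1, mul_one]
      _ = (Matrix.of gi * Matrix.of g) * Matrix.of gi' := by rw [mul_assoc]
      _ = Matrix.of gi' := by rw [h2, one_mul]
  funext i j
  exact congrFun (congrFun h3 i) j

end Z_inv_unique

alias inv_unique := Z_inv_unique.inv_unique

end CInv
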