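import Pool.Agent.Helper767.Gjms.Defs

set_option linter.all false

open scoped BigOperators

namespace CInv

namespace Z_sm_inv

theorem sm_inv_det {n : ℕ} {U : Set (Fin n → ℝ)}
    {M : (Fin n → ℝ) → Matrix (Fin n) (Fin n) ℝ}
    (h : ∀ i j, ContDiffOn ℝ (⊤ : ℕ∞) (fun x => M x i j) U) :
    ContDiffOn ℝ (⊤ : ℕ∞) (fun x => (M x).det) U := by
  simp only [Matrix.det_apply']
  refine ContDiffOn.sum fun σ _ => ?_
  refine contDiffOn_const.mul ?_
  exact contDiffOn_prod fun i _ => h (σ i) i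

theorem sm_inv {n : ℕ} {U : Set (Fin n → ℝ)} (hU : IsOpen U)
    {g : (Fin n → ℝ) → Matrix (Fin n) (Fin n) ℝ} (hg : IsPMetricOn U g) :
    (∀ i j, ContDiffOn ℝ (⊤ : ℕ∞) (fun x => (g x)⁻¹ i j) U) ∧
    (∀ x ∈ U, ∀ i j, ∑ k, g x i k * (g x)⁻¹ k j = if i = j then 1 else 0) ∧
    (∀ x ∈ U, ∀ i j, (g x)⁻¹ i j = (g x)⁻¹ j i) := by
  refine ⟨?_, ?_, ?_⟩
  · intro i j
    have h1 : ∀ x, (g x)⁻¹ i j = ((g x).det)⁻¹ * (g x).adjugate i j := by
      intro x
      rw [Matrix.inv_def, Ring.inverse_eq_inv', Matrix.smul_apply, smul_eq_mul]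
    simp only [h1]
    refine ContDiffOn.mul ((sm_inv_det hg.smooth).inv hg.det) ?_
    simp only [Matrix.adjugate_apply]
    refine sm_inv_det fun a b => ?_
    by_cases haj : a = j
    · subst haj
      simp only [Matrix.updateRow_self]
      exact contDiffOn_const
    · simp only [Matrix.updateRow_ne haj]
      exact hg.smooth a b
  · intro x hx i j
    have h1 : g x * (g x)⁻¹ = 1 :=
      Matrix.mul_nonsing_inv _ (isUnit_iff_ne_zero.mpr (hg.det x hx))
    have h2 := congrFun (congrFun h1 i) j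
    rw [Matrix.mul_apply, Matrix.one_apply] at h2
    exact h2
  · intro x hx i j
    have h1 : (g x).transpose = g x := by
      ext a b
      exact hg.symm x hx b a
    have h2 : ((g x)⁻¹).transpose = (g x)⁻¹ := by
      rw [Matrix.transpose_nonsing_inv, h1]
    have h3 := congrFun (congrFun h2 j) i
    rw [Matrix.transpose_apply] at h3
    exact h3

end Z_sm_inv

alias sm_inv := Z_sm_inv.sm_inv

end CInv
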