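import Pool.Agent.Helper767.Gjms.Defs3
import Pool.Agent.Helper767.Gjms.P_sm_inv

set_option linter.all false

open scoped BigOperators

namespace CInv

namespace Z_amb_real_inv

theorem ari_det {E : Type} [NormedAddCommGroup E] [NormedSpace ℝ E] {m : ℕ} {y : E}
    {M : E → Matrix (Fin m) (Fin m) ℝ}
    (h : ∀ i j, ContDiffAt ℝ (⊤ : ℕ∞) (fun x => M x i j) y) :
    ContDiffAt ℝ (⊤ : ℕ∞) (fun x => (M x).det) y := by
  simp only [Matrix.det_apply']
  refine ContDiffAt.sum fun σ _ => ?_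
  refine contDiffAt_const.mul ?_
  exact contDiffAt_prod fun i _ => h (σ i) i

theorem ari_inv {E : Type} [NormedAddCommGroup E] [NormedSpace ℝ E] {m : ℕ} {y : E}
    {M : E → Matrix (Fin m) (Fin m) ℝ}
    (h : ∀ i j, ContDiffAt ℝ (⊤ : ℕ∞) (fun x => M x i j) y) (hd : (M y).det ≠ 0) (i j : Fin m) :
    ContDiffAt ℝ (⊤ : ℕ∞) (fun x => (M x)⁻¹ i j) y := by
  have h1 : ∀ x, (M x)⁻¹ i j = ((M x).det)⁻¹ * (M x).adjugate i j := by
    intro x
    rw [Matrix.inv_def, Ring.inverse_eq_inv', Matrix.smul_apply, smul_eq_mul]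
  simp only [h1]
  refine ContDiffAt.mul ((ari_det h).inv hd) ?_
  simp only [Matrix.adjugate_apply]
  refine ari_det fun a b => ?_
  by_cases haj : a = j
  · subst haj
    simp only [Matrix.updateRow_self]
    exact contDiffAt_const
  · simp only [Matrix.updateRow_ne haj]
    exact h a b

theorem ari_mul {n : ℕ} (t : ℝ) (ht : t ≠ 0) (g gi : Matrix (Fin n) (Fin n) ℝ)
    (h : g * gi = 1) :
    Matrix.of (amb t 0 (fun i j => g i j)) * Matrix.of (ambInv t⁻¹ 0 (fun i j => gi i j)) =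
      (1 : Matrix (Fin (n + 2)) (Fin (n + 2)) ℝ) := by
  ext I J
  rw [Matrix.mul_apply, Fin.sum_univ_succ, Fin.sum_univ_succ]
  refine Fin.cases ?_ (fun I' => Fin.cases ?_ (fun i => ?_) I') I
  · refine Fin.cases ?_ (fun J' => Fin.cases ?_ (fun j => ?_) J') J
    · simp [amb, ambInv, ht]
    · simp [amb, ambInv, ht]
    · simp [amb, ambInv, Matrix.one_apply, (Fin.succ_ne_zero _).symm]
  · refine Fin.cases ?_ (fun J' => Fin.cases ?_ (fun j => ?_) J') J
    · simp [amb, ambInv, Matrix.one_apply]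
    · simp [amb, ambInv, ht]
    · simp [amb, ambInv, Matrix.one_apply, Fin.ext_iff]
  · refine Fin.cases ?_ (fun J' => Fin.cases ?_ (fun j => ?_) J') J
    · simp [amb, ambInv, Matrix.one_apply, Fin.ext_iff]
    · simp [amb, ambInv, Matrix.one_apply, Fin.ext_iff]
    · have h2 := congrFun (congrFun h i) j
      rw [Matrix.mul_apply] at h2
      have h3 : ∑ k : Fin n, (t ^ 2 * g i k) * (t⁻¹ ^ 2 * gi k j) = (1 : Matrix (Fin n) (Fin n) ℝ) i j := by
        rw [← h2]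
        refine Finset.sum_congr rfl fun k _ => ?_
        field_simp
      have h4 : (1 : Matrix (Fin (n + 2)) (Fin (n + 2)) ℝ) i.succ.succ j.succ.succ =
          (1 : Matrix (Fin n) (Fin n) ℝ) i j := by
        simp [Matrix.one_apply, Fin.ext_iff]
      rw [h4, ← h3]
      show 0 * 0 + (0 * 0 + ∑ k : Fin n, (t ^ 2 * g i k) * (t⁻¹ ^ 2 * gi k j)) = _
      ring

theorem amb_real_inv {n : ℕ} {U : Set (Fin n → ℝ)} (hU : IsOpen U)
    {g : (Fin n → ℝ) → Matrix (Fin n) (Fin n) ℝ} (hg : IsPMetricOn U g)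
    {G : ℝ → (Fin n → ℝ) → Matrix (Fin n) (Fin n) ℝ}
    (hs : ∀ i j, SmoothNear U (fun ρ x => G ρ x i j)) (h0 : ∀ x ∈ U, G 0 x = g x)
    (t0 : ℝ) (ht : 0 < t0) (x : Fin n → ℝ) (hx : x ∈ U) :
    (∀ I J, ContDiffAt ℝ (⊤ : ℕ∞) (fun X => ambMat G X I J) (apt t0 x)) ∧
    (∀ I J, ContDiffAt ℝ (⊤ : ℕ∞) (fun X => (ambMat G X)⁻¹ I J) (apt t0 x)) ∧
    (∀ᶠ X in nhds (apt t0 x), ∀ I J, ∑ K, ambMat G X I K * (ambMat G X)⁻¹ K J
      = if I = J then 1 else 0) := by
  have hpt1 : apt t0 x 1 = 0 := by simp [apt]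
  have hpt0 : apt t0 x 0 = t0 := rfl
  have hptx : xpart (apt t0 x) = x := rfl
  have e0 : ContDiffAt ℝ (⊤ : ℕ∞) (fun X : Fin (n + 2) → ℝ => X 0) (apt t0 x) :=
    (contDiff_apply ℝ ℝ (0 : Fin (n + 2))).contDiffAt
  have e1 : ContDiffAt ℝ (⊤ : ℕ∞) (fun X : Fin (n + 2) → ℝ => X 1) (apt t0 x) :=
    (contDiff_apply ℝ ℝ (1 : Fin (n + 2))).contDiffAt
  have eG : ∀ i j, ContDiffAt ℝ (⊤ : ℕ∞)
      (fun X : Fin (n + 2) → ℝ => G (X 1) (xpart X) i j) (apt t0 x) := by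
    intro i j
    obtain ⟨V, hV, hVU, hVs⟩ := hs i j
    have h1 : ContDiffAt ℝ (⊤ : ℕ∞) (fun p : ℝ × (Fin n → ℝ) => G p.1 p.2 i j)
        ((fun X : Fin (n + 2) → ℝ => (X 1, xpart X)) (apt t0 x)) := by
      show ContDiffAt ℝ (⊤ : ℕ∞) (fun p : ℝ × (Fin n → ℝ) => G p.1 p.2 i j)
        (apt t0 x 1, xpart (apt t0 x))
      rw [hpt1, hptx]
      exact hVs.contDiffAt (hV.mem_nhds (hVU x hx))
    have h2 : ContDiffAt ℝ (⊤ : ℕ∞) (fun X : Fin (n + 2) → ℝ => (X 1, xpart X)) (apt t0 x) := by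
      refine e1.prodMk ?_
      rw [contDiffAt_pi]
      intro k
      exact (contDiff_apply ℝ ℝ (k.succ.succ : Fin (n + 2))).contDiffAt
    exact h1.comp (apt t0 x) h2
  have hA : ∀ I J, ContDiffAt ℝ (⊤ : ℕ∞) (fun X => ambMat G X I J) (apt t0 x) := by
    intro I J
    refine Fin.cases ?_ (fun I' => Fin.cases ?_ (fun i => ?_) I') I
    · refine Fin.cases ?_ (fun J' => Fin.cases ?_ (fun j => ?_) J') J
      · exact contDiffAt_const.mul e1
      · exact e0
      · exact contDiffAt_const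
    · refine Fin.cases ?_ (fun J' => ?_) J
      · exact e0
      · exact contDiffAt_const
    · refine Fin.cases ?_ (fun J' => Fin.cases ?_ (fun j => ?_) J') J
      · exact contDiffAt_const
      · exact contDiffAt_const
      · exact (e0.pow 2).mul (eG i j)
  have hdet : (ambMat G (apt t0 x)).det ≠ 0 := by
    have h1 : g x * (g x)⁻¹ = 1 :=
      Matrix.mul_nonsing_inv _ (isUnit_iff_ne_zero.mpr (hg.det x hx))
    have h2 := ari_mul t0 ht.ne' (g x) (g x)⁻¹ h1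
    have h3 : ambMat G (apt t0 x) = Matrix.of (amb t0 0 (fun i j => g x i j)) := by
      rw [ambMat, hpt0, hpt1, hptx, h0 x hx]
    rw [h3]
    exact (Matrix.isUnit_det_of_right_inverse h2).ne_zero
  refine ⟨hA, fun I J => ari_inv hA hdet I J, ?_⟩
  have hc : ∀ᶠ X in nhds (apt t0 x), (ambMat G X).det ≠ 0 :=
    (ari_det hA).continuousAt.eventually_ne hdet
  filter_upwards [hc] with X hX I J
  have h1 : ambMat G X * (ambMat G X)⁻¹ = 1 :=
    Matrix.mul_nonsing_inv _ (isUnit_iff_ne_zero.mpr hX)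
  have h2 := congrFun (congrFun h1 I) J
  rw [Matrix.mul_apply, Matrix.one_apply] at h2
  exact h2

end Z_amb_real_inv

alias amb_real_inv := Z_amb_real_inv.amb_real_inv

end CInv
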