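import Pool.Agent.Helper767.Gjms.Defs

set_option linter.all false

open scoped BigOperators

namespace CInv

namespace Z_lap_rel

theorem lap_rel_zero {n : ℕ} {A B : Type} [CommRing A] [Algebra ℝ A] [CommRing B] [Algebra ℝ B]
    {DA : Fin n → A → A} {DB : Fin n → B → B} {Rel : A → B → Prop} (hR : RelHom DA DB Rel) :
    Rel 0 0 := by
  have h := hR.smul 0 hR.one
  rwa [zero_smul, zero_smul] at h

theorem lap_rel_neg {n : ℕ} {A B : Type} [CommRing A] [Algebra ℝ A] [CommRing B] [Algebra ℝ B]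
    {DA : Fin n → A → A} {DB : Fin n → B → B} {Rel : A → B → Prop} (hR : RelHom DA DB Rel)
    {a : A} {b : B} (h : Rel a b) : Rel (-a) (-b) := by
  have h1 := hR.smul (-1) h
  rwa [neg_one_smul, neg_one_smul] at h1

theorem lap_rel_sub {n : ℕ} {A B : Type} [CommRing A] [Algebra ℝ A] [CommRing B] [Algebra ℝ B]
    {DA : Fin n → A → A} {DB : Fin n → B → B} {Rel : A → B → Prop} (hR : RelHom DA DB Rel)
    {a a' : A} {b b' : B} (h : Rel a b) (h' : Rel a' b') : Rel (a - a') (b - b') := by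
  rw [sub_eq_add_neg, sub_eq_add_neg]
  exact hR.add h (lap_rel_neg hR h')

theorem lap_rel_sum {n : ℕ} {A B : Type} [CommRing A] [Algebra ℝ A] [CommRing B] [Algebra ℝ B]
    {DA : Fin n → A → A} {DB : Fin n → B → B} {Rel : A → B → Prop} (hR : RelHom DA DB Rel)
    {ι : Type} (s : Finset ι) {f : ι → A} {g : ι → B} (h : ∀ i, Rel (f i) (g i)) :
    Rel (∑ i ∈ s, f i) (∑ i ∈ s, g i) := by
  classical
  induction s using Finset.induction_on with
  | empty => simpa using lap_rel_zero hR
  | insert a s ha ih =>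
    rw [Finset.sum_insert ha, Finset.sum_insert ha]
    exact hR.add (h a) ih

theorem lap_rel {n : ℕ} {A B : Type} [CommRing A] [Algebra ℝ A] [CommRing B] [Algebra ℝ B]
    {DA : Fin n → A → A} {DB : Fin n → B → B} {Rel : A → B → Prop} (hR : RelHom DA DB Rel)
    {gA giA : Fin n → Fin n → A} {gB giB : Fin n → Fin n → B}
    (hg : ∀ i j, Rel (gA i j) (gB i j)) (hgi : ∀ i j, Rel (giA i j) (giB i j))
    {FA : A} {FB : B} (hF : Rel FA FB) :
    Rel (lap DA gA giA FA) (lap DB gB giB FB) := by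
  have hchr : ∀ k i j, Rel (chr DA gA giA k i j) (chr DB gB giB k i j) := by
    intro k i j
    unfold chr
    refine hR.smul _ (lap_rel_sum hR _ fun l => hR.mul (hgi k l) ?_)
    exact lap_rel_sub hR (hR.add (hR.der i (hg j l)) (hR.der j (hg i l))) (hR.der l (hg i j))
  unfold lap
  refine lap_rel_sum hR _ fun i => lap_rel_sum hR _ fun j => hR.mul (hgi i j) ?_
  refine lap_rel_sub hR (hR.der i (hR.der j hF)) ?_
  exact lap_rel_sum hR _ fun k => hR.mul (hchr k i j) (hR.der k hF)

end Z_lap_rel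

alias lap_rel := Z_lap_rel.lap_rel

end CInv
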