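import Pool.Agent.Helper767.Gjms.Defs2
import Pool.Agent.Helper771.CInv.P_nat_eval
import Pool.Agent.Helper767.Gjms.P_lap_rel

set_option linter.all false

open scoped BigOperators

namespace CInv

namespace Z_fg_rel

section fg_rel_aux

variable {n : ℕ} {A B : Type} [CommRing A] [Algebra ℝ A] [CommRing B] [Algebra ℝ B]
    {DA : Fin n → A → A} {DB : Fin n → B → B} {Rel : A → B → Prop}

theorem fg_rel_zero (hR : RelHom DA DB Rel) : Rel 0 0 := by
  have h := hR.smul 0 hR.one
  rwa [zero_smul, zero_smul] at h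

theorem fg_rel_neg (hR : RelHom DA DB Rel) {a : A} {b : B} (h : Rel a b) : Rel (-a) (-b) := by
  have h1 := hR.smul (-1) h
  rwa [neg_smul, one_smul, neg_smul, one_smul] at h1

theorem fg_rel_sub (hR : RelHom DA DB Rel) {a a' : A} {b b' : B} (h : Rel a b) (h' : Rel a' b') :
    Rel (a - a') (b - b') := by
  rw [sub_eq_add_neg, sub_eq_add_neg]
  exact hR.add h (fg_rel_neg hR h')

theorem fg_rel_two (hR : RelHom DA DB Rel) : Rel 2 2 := by
  have h := hR.add hR.one hR.one
  rwa [one_add_one_eq_two, one_add_one_eq_two] at h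

theorem fg_rel_sum (hR : RelHom DA DB Rel) {ι : Type} (s : Finset ι) (f : ι → A) (g : ι → B)
    (h : ∀ i ∈ s, Rel (f i) (g i)) : Rel (∑ i ∈ s, f i) (∑ i ∈ s, g i) := by
  classical
  induction s using Finset.induction_on with
  | empty => simpa using fg_rel_zero hR
  | insert a s ha ih =>
    rw [Finset.sum_insert ha, Finset.sum_insert ha]
    exact hR.add (h a (Finset.mem_insert_self _ _))
      (ih fun i hi => h i (Finset.mem_insert_of_mem hi))

end fg_rel_aux

theorem fg_rel {n : ℕ} {A B : Type} [CommRing A] [Algebra ℝ A] [CommRing B] [Algebra ℝ B]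
    {DA : Fin (n + 1) → A → A} {DB : Fin (n + 1) → B → B} {Rel : A → B → Prop}
    (hR : RelHom DA DB Rel) {ρA : A} {ρB : B} (hρ : Rel ρA ρB)
    {gA giA : Fin n → Fin n → A} {gB giB : Fin n → Fin n → B}
    (hg : ∀ i j, Rel (gA i j) (gB i j)) (hgi : ∀ i j, Rel (giA i j) (giB i j)) :
    (∀ i j, Rel (fg (DA 0) (fun i : Fin n => DA i.succ) ρA gA giA i j)
      (fg (DB 0) (fun i : Fin n => DB i.succ) ρB gB giB i j)) ∧
    ∀ (k : ℕ) (uA : A) (uB : B), Rel uA uB →
      Rel (gjL (DA 0) (fun i : Fin n => DA i.succ) ρA gA giA k uA)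
        (gjL (DB 0) (fun i : Fin n => DB i.succ) ρB gB giB k uB) := by
  have hR' : RelHom (fun i : Fin n => DA i.succ) (fun i : Fin n => DB i.succ) Rel :=
    ⟨hR.one, hR.add, hR.mul, hR.smul, fun i {a b} h => hR.der i.succ h⟩
  have hD : ∀ {a : A} {b : B}, Rel a b → Rel (DA 0 a) (DB 0 b) := fun h => hR.der 0 h
  have htr : Rel (trp (DA 0) gA giA) (trp (DB 0) gB giB) := by
    unfold trp
    exact fg_rel_sum hR _ _ _ fun k _ => fg_rel_sum hR _ _ _ fun l _ =>
      hR.mul (hgi k l) (hD (hg k l))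
  have hric := (nat_eval hR' hg hgi 0).1
  constructor
  · intro i j
    unfold fg
    refine hR.add (fg_rel_sub hR (fg_rel_sub hR (hR.add (fg_rel_sub hR ?_ ?_) ?_) ?_) ?_)
      (hric i j)
    · exact hR.mul hρ (hD (hD (hg i j)))
    · exact hR.mul hρ (fg_rel_sum hR _ _ _ fun k _ => fg_rel_sum hR _ _ _ fun l _ =>
        hR.mul (hR.mul (hgi k l) (hD (hg i k))) (hD (hg j l)))
    · exact hR.smul _ (hR.mul (hR.mul hρ htr) (hD (hg i j)))
    · exact hR.smul _ (hD (hg i j))
    · exact hR.smul _ (hR.mul htr (hg i j))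
  · intro k
    induction k with
    | zero =>
      intro uA uB hu
      exact hu
    | succ k ih =>
      intro uA uB hu
      have hv := ih uA uB hu
      show Rel (Lw (DA 0) (fun i : Fin n => DA i.succ) ρA gA giA (-(2 * (k : ℝ)))
          (gjL (DA 0) (fun i : Fin n => DA i.succ) ρA gA giA k uA))
        (Lw (DB 0) (fun i : Fin n => DB i.succ) ρB gB giB (-(2 * (k : ℝ)))
          (gjL (DB 0) (fun i : Fin n => DB i.succ) ρB gB giB k uB))
      unfold Lw
      refine hR.add (hR.add (fg_rel_sub hR (fg_rel_sub hR ?_ ?_) ?_) ?_) ?_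
      · exact hR.smul _ (hD hv)
      · exact hR.mul (hR.mul (fg_rel_two hR) hρ) (hD (hD hv))
      · exact hR.mul (hR.mul hρ htr) (hD hv)
      · exact lap_rel hR' hg hgi hv
      · exact hR.smul _ (hR.mul htr hv)

end Z_fg_rel

alias fg_rel := Z_fg_rel.fg_rel

end CInv
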