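import Pool.Agent.Helper767.Gjms.Defs3
import Pool.Agent.Helper767.Gjms.P_ext_isder
import Pool.Agent.Helper767.Gjms.P_fg_rel

set_option linter.all false

open scoped BigOperators

namespace CInv

namespace Z_ps_c_rel

theorem cw_C_aux {B : Type} [CommRing B] (δ : B → B) (h0 : δ 0 = 0) (b : B) :
    cw δ (PowerSeries.C b) = PowerSeries.C (δ b) := by
  ext k
  unfold cw
  rw [PowerSeries.coeff_mk, PowerSeries.coeff_C, PowerSeries.coeff_C]
  split_ifs
  · rfl
  · exact h0

theorem isder_zero_aux {m : ℕ} {B : Type} [CommRing B] [Algebra ℝ B] {D : Fin m → B → B}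
    (hD : IsDer D) (i : Fin m) : D i 0 = 0 := by
  have := hD.smul i 0 0
  rwa [zero_smul, zero_smul] at this

theorem C_smul_aux {B : Type} [CommRing B] [Algebra ℝ B] (r : ℝ) (b : B) :
    (r • PowerSeries.C b : PowerSeries B) = PowerSeries.C (r • b) := by
  rw [Algebra.smul_def, Algebra.smul_def, PowerSeries.algebraMap_apply, map_mul]

theorem ps_c_rel {n : ℕ} {A : Type} [CommRing A] [Algebra ℝ A] {D : Fin n → A → A}
    (hD : IsDer D) (G Gi : Fin n → Fin n → PowerSeries A) :
    (∀ i j, fg (extD (extD D) 1) (fun i : Fin n => extD (extD D) i.succ.succ)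
        (PowerSeries.C PowerSeries.X) (fun i j => PowerSeries.C (G i j))
        (fun i j => PowerSeries.C (Gi i j)) i j = PowerSeries.C (fgX D G Gi i j)) ∧
    ∀ (k : ℕ) (u : PowerSeries A),
      gjL (extD (extD D) 1) (fun i : Fin n => extD (extD D) i.succ.succ)
        (PowerSeries.C PowerSeries.X) (fun i j => PowerSeries.C (G i j))
        (fun i j => PowerSeries.C (Gi i j)) k (PowerSeries.C u) = PowerSeries.C (gjX D G Gi k u) := by
  have hE : IsDer (extD D) := ext_isder hD
  have hR : RelHom (extD D) (fun I : Fin (n + 1) => extD (extD D) I.succ)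
      (fun (p : PowerSeries A) (q : PowerSeries (PowerSeries A)) => q = PowerSeries.C p) :=
    { one := (map_one _).symm
      add := by
        rintro a a' b b' rfl rfl
        exact (map_add _ _ _).symm
      mul := by
        rintro a a' b b' rfl rfl
        exact (map_mul _ _ _).symm
      smul := by
        rintro r a b rfl
        exact C_smul_aux r a
      der := by
        rintro i a b rfl
        exact cw_C_aux (extD D i) (isder_zero_aux hE i) a }
  have key := fg_rel hR (ρA := PowerSeries.X) (ρB := PowerSeries.C PowerSeries.X) rfl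
    (gA := G) (giA := Gi) (gB := fun i j => PowerSeries.C (G i j))
    (giB := fun i j => PowerSeries.C (Gi i j)) (fun i j => rfl) (fun i j => rfl)
  exact ⟨fun i j => key.1 i j, fun k u => key.2 k u (PowerSeries.C u) rfl⟩

end Z_ps_c_rel

alias ps_c_rel := Z_ps_c_rel.ps_c_rel

end CInv
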