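import Pool.Agent.Helper767.Gjms.Defs3

set_option linter.all false

open scoped BigOperators

namespace CInv

namespace Z_tay_congr

theorem tay_congr_pd {m : ℕ} {F F' : (Fin m → ℝ) → ℝ} {y : Fin m → ℝ} (h : F =ᶠ[nhds y] F')
    (i : Fin m) : pd i F =ᶠ[nhds y] pd i F' := by
  have h1 : fderiv ℝ F =ᶠ[nhds y] fderiv ℝ F' := h.fderiv
  filter_upwards [h1] with x hx
  show fderiv ℝ F x (Pi.single i 1) = fderiv ℝ F' x (Pi.single i 1)
  rw [hx]

theorem tay_congr_Dw {m : ℕ} {F F' : (Fin m → ℝ) → ℝ} {y : Fin m → ℝ} (h : F =ᶠ[nhds y] F')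
    (w : List (Fin m)) : Dw pd w F =ᶠ[nhds y] Dw pd w F' := by
  induction w with
  | nil => exact h
  | cons i w ih => exact tay_congr_pd ih i

theorem tay_congr {n : ℕ} (t0 : ℝ) {U : Set (Fin n → ℝ)} {A : Type} [CommRing A] [Algebra ℝ A]
    {D : Fin n → A → A} {ev : A →ₐ[ℝ] (U → ℝ)} (hA : SmRing U D ev)
    {F F' : (Fin (n + 2) → ℝ) → ℝ} {p : PowerSeries (PowerSeries A)}
    (h : TRel t0 U D ev F p) (hF : ∀ x : U, F =ᶠ[nhds (apt t0 x)] F') :
    TRel t0 U D ev F' p := by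
  intro x
  obtain ⟨h1, h2⟩ := h x
  refine ⟨h1.congr_of_eventuallyEq (hF x).symm, fun w => ?_⟩
  rw [← (tay_congr_Dw (hF x) w).eq_of_nhds]
  exact h2 w

end Z_tay_congr

alias tay_congr := Z_tay_congr.tay_congr

end CInv
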