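import Pool.Agent.Helper767.Gjms.Defs3

set_option linter.all false

open scoped BigOperators

namespace CInv

namespace Z_tay_relhom

/-- derivation-like operators -/
structure tay_relhom_W {m : ℕ} {A : Type} [CommRing A] [Algebra ℝ A] (D : Fin m → A → A) :
    Prop where
  add : ∀ i a b, D i (a + b) = D i a + D i b
  mul : ∀ i a b, D i (a * b) = D i a * b + a * D i b
  smul : ∀ i (r : ℝ) a, D i (r • a) = r • D i a

theorem tay_relhom_W.zero {m : ℕ} {A : Type} [CommRing A] [Algebra ℝ A] {D : Fin m → A → A}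
    (h : tay_relhom_W D) (i : Fin m) : D i 0 = 0 := by
  have := h.smul i 0 0
  simpa using this

theorem tay_relhom_W.one {m : ℕ} {A : Type} [CommRing A] [Algebra ℝ A] {D : Fin m → A → A}
    (h : tay_relhom_W D) (i : Fin m) : D i 1 = 0 := by
  have := h.mul i 1 1
  rw [one_mul, mul_one, one_mul] at this
  have h2 : D i 1 + 0 = D i 1 + D i 1 := by rw [add_zero]; exact this
  exact (add_left_cancel h2).symm

theorem tay_relhom_W.sum {m : ℕ} {A : Type} [CommRing A] [Algebra ℝ A] {D : Fin m → A → A}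
    (h : tay_relhom_W D) (i : Fin m) {ι : Type} (S : Finset ι) (f : ι → A) :
    D i (∑ j ∈ S, f j) = ∑ j ∈ S, D i (f j) := by
  classical
  induction S using Finset.induction_on with
  | empty => simp [h.zero i]
  | insert a S ha ih => rw [Finset.sum_insert ha, Finset.sum_insert ha, h.add, ih]

theorem tay_relhom_ext {m : ℕ} {A : Type} [CommRing A] [Algebra ℝ A] {D : Fin m → A → A}
    (h : tay_relhom_W D) : tay_relhom_W (extD D) := by
  have h0 : ∀ p, extD D 0 p = PowerSeries.derivative A p := fun p => rfl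
  have hs : ∀ (i : Fin m) p, extD D i.succ p = cw (D i) p := fun i p => rfl
  have hc : ∀ (i : Fin m) (p : PowerSeries A) k, PowerSeries.coeff k (cw (D i) p) =
      D i (PowerSeries.coeff k p) := fun i p k => by
    rw [cw, PowerSeries.coeff_mk]
  refine ⟨?_, ?_, ?_⟩
  · intro i a b
    refine Fin.cases ?_ (fun i => ?_) i
    · rw [h0, h0, h0, map_add]
    · rw [hs, hs, hs]
      ext k
      rw [map_add, hc, hc, hc, map_add, h.add]
  · intro i a b
    refine Fin.cases ?_ (fun i => ?_) i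
    · rw [h0, h0, h0, Derivation.leibniz, smul_eq_mul, smul_eq_mul]
      ring
    · rw [hs, hs, hs]
      ext k
      rw [map_add, hc, PowerSeries.coeff_mul, PowerSeries.coeff_mul, PowerSeries.coeff_mul,
        h.sum, ← Finset.sum_add_distrib]
      exact Finset.sum_congr rfl fun x _ => by rw [h.mul, hc, hc]
  · intro i r a
    refine Fin.cases ?_ (fun i => ?_) i
    · rw [h0, h0]
      ext k
      rw [PowerSeries.coeff_derivative, PowerSeries.coeff_smul, PowerSeries.coeff_smul,
        PowerSeries.coeff_derivative, smul_mul_assoc]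
    · rw [hs, hs]
      ext k
      rw [hc, PowerSeries.coeff_smul, PowerSeries.coeff_smul, hc, h.smul]

theorem tay_relhom_Dw_append {m : ℕ} {A : Type} (D : Fin m → A → A) (w : List (Fin m))
    (I : Fin m) (a : A) : Dw D (w ++ [I]) a = Dw D w (D I a) := by
  induction w with
  | nil => rfl
  | cons J w ih => show D J (Dw D (w ++ [I]) a) = D J (Dw D w (D I a)); rw [ih]

theorem tay_relhom_Dw_add {m : ℕ} {A : Type} [CommRing A] [Algebra ℝ A] {D : Fin m → A → A}
    (h : tay_relhom_W D) (w : List (Fin m)) (a b : A) : Dw D w (a + b) = Dw D w a + Dw D w b := by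
  induction w with
  | nil => rfl
  | cons J w ih =>
    show D J (Dw D w (a + b)) = D J (Dw D w a) + D J (Dw D w b)
    rw [ih, h.add]

theorem tay_relhom_Dw_smul {m : ℕ} {A : Type} [CommRing A] [Algebra ℝ A] {D : Fin m → A → A}
    (h : tay_relhom_W D) (w : List (Fin m)) (r : ℝ) (a : A) :
    Dw D w (r • a) = r • Dw D w a := by
  induction w with
  | nil => rfl
  | cons J w ih =>
    show D J (Dw D w (r • a)) = r • D J (Dw D w a)
    rw [ih, h.smul]

theorem tay_relhom_Dw_zero {m : ℕ} {A : Type} [CommRing A] [Algebra ℝ A] {D : Fin m → A → A}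
    (h : tay_relhom_W D) (w : List (Fin m)) : Dw D w 0 = 0 := by
  have := tay_relhom_Dw_smul h w 0 0
  simpa using this

theorem tay_relhom_germ {m : ℕ} (w : List (Fin m)) {F G : (Fin m → ℝ) → ℝ} {P : Fin m → ℝ}
    (h : F =ᶠ[nhds P] G) : Dw pd w F =ᶠ[nhds P] Dw pd w G := by
  induction w with
  | nil => exact h
  | cons J w ih =>
    have h2 := ih.fderiv (𝕜 := ℝ)
    filter_upwards [h2] with y hy
    show fderiv ℝ (Dw pd w F) y _ = fderiv ℝ (Dw pd w G) y _
    rw [hy]

theorem tay_relhom_pd {m : ℕ} (I : Fin m) {F : (Fin m → ℝ) → ℝ} {P : Fin m → ℝ}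
    (h : ContDiffAt ℝ (⊤ : ℕ∞) F P) : ContDiffAt ℝ (⊤ : ℕ∞) (pd I F) P := by
  have h1 : ContDiffAt ℝ (⊤ : ℕ∞) (fderiv ℝ F) P := h.fderiv_right (by exact le_of_eq rfl)
  exact h1.clm_apply contDiffAt_const

theorem tay_relhom_diff {m : ℕ} {F : (Fin m → ℝ) → ℝ} {P : Fin m → ℝ}
    (h : ContDiffAt ℝ (⊤ : ℕ∞) F P) : ∀ᶠ y in nhds P, DifferentiableAt ℝ F y := by
  have h1 : ContDiffAt ℝ 1 F P := h.of_le (by exact_mod_cast le_top)
  filter_upwards [h1.eventually (by decide)] with y hy
  exact hy.differentiableAt (by norm_num)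

theorem tay_relhom_fadd {m : ℕ} (w : List (Fin m)) {P : Fin m → ℝ} :
    ∀ (F G : (Fin m → ℝ) → ℝ), ContDiffAt ℝ (⊤ : ℕ∞) F P → ContDiffAt ℝ (⊤ : ℕ∞) G P →
    Dw pd w (F + G) P = Dw pd w F P + Dw pd w G P := by
  induction w using List.reverseRecOn with
  | nil => intro F G _ _; rfl
  | append_singleton w I ih =>
    intro F G hF hG
    rw [tay_relhom_Dw_append, tay_relhom_Dw_append, tay_relhom_Dw_append]
    have e : pd I (F + G) =ᶠ[nhds P] pd I F + pd I G := by
      filter_upwards [tay_relhom_diff hF, tay_relhom_diff hG] with y h1 h2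
      show fderiv ℝ (F + G) y _ = fderiv ℝ F y _ + fderiv ℝ G y _
      rw [fderiv_add h1 h2]
      rfl
    rw [(tay_relhom_germ w e).self_of_nhds]
    exact ih _ _ (tay_relhom_pd I hF) (tay_relhom_pd I hG)

theorem tay_relhom_fsmul {m : ℕ} (w : List (Fin m)) {P : Fin m → ℝ} (r : ℝ) :
    ∀ (F : (Fin m → ℝ) → ℝ), ContDiffAt ℝ (⊤ : ℕ∞) F P →
    Dw pd w (r • F) P = r * Dw pd w F P := by
  induction w using List.reverseRecOn with
  | nil => intro F _; rfl
  | append_singleton w I ih =>
    intro F hF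
    rw [tay_relhom_Dw_append, tay_relhom_Dw_append]
    have e : pd I (r • F) =ᶠ[nhds P] r • pd I F := by
      filter_upwards [tay_relhom_diff hF] with y h1
      show fderiv ℝ (r • F) y _ = r • fderiv ℝ F y _
      rw [fderiv_const_smul h1]
      rfl
    rw [(tay_relhom_germ w e).self_of_nhds]
    exact ih _ (tay_relhom_pd I hF)

theorem tay_relhom_fzero {m : ℕ} (w : List (Fin m)) :
    Dw pd w (0 : (Fin m → ℝ) → ℝ) = 0 := by
  induction w with
  | nil => rfl
  | cons J w ih =>
    show pd J (Dw pd w 0) = 0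
    rw [ih]
    funext y
    show fderiv ℝ (0 : (Fin m → ℝ) → ℝ) y _ = 0
    rw [fderiv_zero]
    rfl

theorem tay_relhom_fmul {m : ℕ} {B : Type} [CommRing B] [Algebra ℝ B] {D : Fin m → B → B}
    (h : tay_relhom_W D) (e : B →+* ℝ) {P : Fin m → ℝ} (w : List (Fin m)) :
    ∀ (F G : (Fin m → ℝ) → ℝ) (p q : B), ContDiffAt ℝ (⊤ : ℕ∞) F P →
    ContDiffAt ℝ (⊤ : ℕ∞) G P → (∀ w, Dw pd w F P = e (Dw D w p)) →
    (∀ w, Dw pd w G P = e (Dw D w q)) → Dw pd w (F * G) P = e (Dw D w (p * q)) := by
  induction w using List.reverseRecOn with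
  | nil =>
    intro F G p q _ _ hp hq
    show F P * G P = e (p * q)
    have h1 : F P = e p := hp []
    have h2 : G P = e q := hq []
    rw [map_mul, h1, h2]
  | append_singleton w I ih =>
    intro F G p q hF hG hp hq
    rw [tay_relhom_Dw_append, tay_relhom_Dw_append]
    have e1 : pd I (F * G) =ᶠ[nhds P] pd I F * G + F * pd I G := by
      filter_upwards [tay_relhom_diff hF, tay_relhom_diff hG] with y h1 h2
      show fderiv ℝ (F * G) y _ = fderiv ℝ F y _ * G y + F y * fderiv ℝ G y _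
      rw [fderiv_mul h1 h2]
      simp only [ContinuousLinearMap.add_apply, ContinuousLinearMap.smul_apply, smul_eq_mul]
      ring
    rw [(tay_relhom_germ w e1).self_of_nhds, tay_relhom_fadd w (pd I F * G) (F * pd I G)
      ((tay_relhom_pd I hF).mul hG) (hF.mul (tay_relhom_pd I hG)), h.mul, tay_relhom_Dw_add h,
      map_add]
    congr 1
    · refine ih _ _ _ _ (tay_relhom_pd I hF) hG (fun w => ?_) hq
      rw [← tay_relhom_Dw_append, ← tay_relhom_Dw_append, hp]
    · refine ih _ _ _ _ hF (tay_relhom_pd I hG) hp (fun w => ?_)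
      rw [← tay_relhom_Dw_append, ← tay_relhom_Dw_append, hq]

theorem tay_relhom {n : ℕ} (t0 : ℝ) {U : Set (Fin n → ℝ)} {A : Type} [CommRing A] [Algebra ℝ A]
    {D : Fin n → A → A} {ev : A →ₐ[ℝ] (U → ℝ)} (hA : SmRing U D ev) :
    RelHom pd (extD (extD D)) (TRel t0 U D ev) := by
  have hW : tay_relhom_W (extD (extD D)) :=
    tay_relhom_ext (tay_relhom_ext ⟨hA.der.add, hA.der.mul, hA.der.smul⟩)
  let e : U → (PowerSeries (PowerSeries A) →+* ℝ) := fun x =>
    (Pi.evalRingHom (fun _ : U => ℝ) x).comp ((ev : A →+* (U → ℝ)).comp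
      ((PowerSeries.constantCoeff (R := A)).comp (PowerSeries.constantCoeff (R := PowerSeries A))))
  have he : ∀ (x : U) p, e x p =
      ev (PowerSeries.constantCoeff (PowerSeries.constantCoeff p)) x := fun x p => rfl
  refine ⟨?_, ?_, ?_, ?_, ?_⟩
  · intro x
    refine ⟨contDiffAt_const, fun w => ?_⟩
    rw [← he]
    induction w using List.reverseRecOn with
    | nil =>
      show (1 : ℝ) = e x 1
      rw [map_one]
    | append_singleton w I _ =>
      rw [tay_relhom_Dw_append, tay_relhom_Dw_append, hW.one, tay_relhom_Dw_zero hW, map_zero]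
      have e1 : pd I (1 : (Fin (n + 2) → ℝ) → ℝ) = 0 := by
        funext y
        show fderiv ℝ (fun _ => (1 : ℝ)) y _ = 0
        rw [fderiv_fun_const]
        rfl
      rw [e1, tay_relhom_fzero]
      rfl
  · intro a a' b b' h1 h2 x
    refine ⟨(h1 x).1.add (h2 x).1, fun w => ?_⟩
    rw [← he, tay_relhom_Dw_add hW, map_add, tay_relhom_fadd w _ _ (h1 x).1 (h2 x).1,
      (h1 x).2, (h2 x).2]
    rfl
  · intro a a' b b' h1 h2 x
    refine ⟨(h1 x).1.mul (h2 x).1, fun w => ?_⟩
    rw [← he]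
    exact tay_relhom_fmul hW (e x) w _ _ _ _ (h1 x).1 (h2 x).1 (fun w => (h1 x).2 w)
      (fun w => (h2 x).2 w)
  · intro r a b h1 x
    refine ⟨(h1 x).1.const_smul r, fun w => ?_⟩
    rw [tay_relhom_Dw_smul hW, tay_relhom_fsmul w r _ (h1 x).1, (h1 x).2]
    have e1 : ∀ p : PowerSeries (PowerSeries A),
        PowerSeries.constantCoeff (PowerSeries.constantCoeff (r • p)) =
        r • PowerSeries.constantCoeff (PowerSeries.constantCoeff p) := fun p => rfl
    rw [e1, map_smul]
    rfl
  · intro I a b h1 x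
    refine ⟨tay_relhom_pd I (h1 x).1, fun w => ?_⟩
    rw [← tay_relhom_Dw_append, ← tay_relhom_Dw_append]
    exact (h1 x).2 _

end Z_tay_relhom

alias tay_relhom := Z_tay_relhom.tay_relhom

end CInv
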