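import Pool.Agent.Helper767.Gjms.Defs3
import Pool.Agent.Helper767.Gjms.P_tay_relhom

set_option linter.all false

open scoped BigOperators

namespace CInv

namespace Z_tay_coord

theorem tc_Dw_append {n : ℕ} {A : Type} [CommRing A] [Algebra ℝ A] (D : Fin n → A → A)
    (w : List (Fin n)) (i : Fin n) (a : A) : Dw D (w ++ [i]) a = Dw D w (D i a) := by
  induction w with
  | nil => rfl
  | cons j w ih => simp only [List.cons_append, Dw, ih]

theorem tc_step {n : ℕ} {t0 : ℝ} {U : Set (Fin n → ℝ)} {A : Type} [CommRing A] [Algebra ℝ A]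
    {D : Fin n → A → A} {ev : A →ₐ[ℝ] (U → ℝ)} {F : (Fin (n + 2) → ℝ) → ℝ}
    {p : PowerSeries (PowerSeries A)}
    (hF : ∀ x : U, ContDiffAt ℝ (⊤ : ℕ∞) F (apt t0 x))
    (h0 : ∀ x : U, F (apt t0 x) = ev (PowerSeries.constantCoeff (PowerSeries.constantCoeff p)) x)
    (h1 : ∀ i, TRel t0 U D ev (pd i F) (extD (extD D) i p)) : TRel t0 U D ev F p := by
  intro x
  refine ⟨hF x, fun w => ?_⟩
  induction w using List.reverseRecOn with
  | nil => simpa only [Dw] using h0 x
  | append_singleton w i _ =>
    rw [tc_Dw_append, tc_Dw_append]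
    exact (h1 i x).2 w

theorem tc_pd_coord {m : ℕ} (i j : Fin m) :
    pd i (fun X : Fin m → ℝ => X j) = fun _ => if i = j then 1 else 0 := by
  funext X
  unfold pd
  have : HasFDerivAt (fun X : Fin m → ℝ => X j) (ContinuousLinearMap.proj (R := ℝ) j) X :=
    (ContinuousLinearMap.proj (R := ℝ) (φ := fun _ : Fin m => ℝ) j).hasFDerivAt
  rw [this.fderiv]
  simp [Pi.single_apply, eq_comm]

theorem tc_cw_C {A : Type} [CommRing A] (δ : A → A) (h : δ 0 = 0) (a : A) :
    cw δ (PowerSeries.C a) = PowerSeries.C (δ a) := by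
  ext k
  rw [cw, PowerSeries.coeff_mk, PowerSeries.coeff_C, PowerSeries.coeff_C]
  split_ifs <;> simp [h]

theorem tc_cw_X {A : Type} [CommRing A] (δ : A → A) (h : δ 0 = 0) (h1 : δ 1 = 0) :
    cw δ (PowerSeries.X : PowerSeries A) = 0 := by
  ext k
  rw [cw, PowerSeries.coeff_mk, PowerSeries.coeff_X]
  split_ifs <;> simp [h, h1]

theorem tc_cw_CX {A : Type} [CommRing A] (δ : A → A) (h : δ 0 = 0) (h1 : δ 1 = 0) (a : A)
    (ha : δ a = 0) :
    cw δ (PowerSeries.C a + PowerSeries.X : PowerSeries A) = 0 := by
  ext k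
  rw [cw, PowerSeries.coeff_mk, map_add, PowerSeries.coeff_C, PowerSeries.coeff_X]
  rcases k with _ | _ | k <;> simp [h, h1, ha]

theorem tc_cw_zero {A : Type} [CommRing A] (δ : A → A) (h : δ 0 = 0) :
    cw δ (0 : PowerSeries A) = 0 := by
  ext k
  rw [cw, PowerSeries.coeff_mk]; simp [h]

theorem tc_coeff_der {A : Type} [CommRing A] (f : PowerSeries A) (k : ℕ) :
    PowerSeries.coeff k (PowerSeries.derivativeFun f) = PowerSeries.coeff (k + 1) f * (k + 1) :=
  PowerSeries.coeff_derivative f k

theorem tc_der_C {A : Type} [CommRing A] (a : A) :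
    PowerSeries.derivativeFun (PowerSeries.C a) = 0 := by
  ext k
  rw [tc_coeff_der, PowerSeries.coeff_C]
  simp

theorem tc_der_X {A : Type} [CommRing A] :
    PowerSeries.derivativeFun (PowerSeries.X : PowerSeries A) = 1 := by
  ext k
  rw [tc_coeff_der, PowerSeries.coeff_X, PowerSeries.coeff_one]
  rcases k with _ | k <;> simp

theorem tc_der_CX {A : Type} [CommRing A] (a : A) :
    PowerSeries.derivativeFun (PowerSeries.C a + PowerSeries.X : PowerSeries A) = 1 := by
  ext k
  rw [tc_coeff_der, map_add, PowerSeries.coeff_C, PowerSeries.coeff_X,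
    PowerSeries.coeff_one]
  rcases k with _ | k <;> simp

theorem tc_pd_xpart_low {n : ℕ} (f : (Fin n → ℝ) → ℝ) (I : Fin (n + 2))
    (hI : I = 0 ∨ I = 1) : pd I (fun X : Fin (n + 2) → ℝ => f (xpart X)) = 0 := by
  funext X
  unfold pd
  by_cases hd : DifferentiableAt ℝ (fun X : Fin (n + 2) → ℝ => f (xpart X)) X
  · rw [← hd.lineDeriv_eq_fderiv, lineDeriv]
    have : (fun t : ℝ => f (xpart (X + t • Pi.single I (1 : ℝ)))) = fun _ => f (xpart X) := by
      funext t
      congr 1
      funext i
      simp only [xpart, Pi.add_apply, Pi.smul_apply]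
      have : (Pi.single I (1 : ℝ) : Fin (n + 2) → ℝ) i.succ.succ = 0 := by
        apply Pi.single_eq_of_ne
        rcases hI with h | h <;> subst h
        · exact Fin.succ_ne_zero _
        · intro h2
          have := Fin.succ_injective _ (h2.trans Fin.succ_zero_eq_one.symm)
          exact Fin.succ_ne_zero _ this
      rw [this]; simp
    rw [this]; simp
  · rw [fderiv_zero_of_not_differentiableAt hd]; simp

noncomputable def tc_xl (n : ℕ) : (Fin (n + 2) → ℝ) →L[ℝ] (Fin n → ℝ) :=
  ContinuousLinearMap.pi fun i => ContinuousLinearMap.proj i.succ.succ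

theorem tc_xl_eq (n : ℕ) (X : Fin (n + 2) → ℝ) : tc_xl n X = xpart X := by
  funext i; simp [tc_xl, xpart]

noncomputable def tc_sl (n : ℕ) : (Fin n → ℝ) →L[ℝ] (Fin (n + 2) → ℝ) :=
  ContinuousLinearMap.pi (Fin.cons 0 (Fin.cons 0 fun i => ContinuousLinearMap.proj i))

theorem tc_xl_sl (n : ℕ) (x : Fin n → ℝ) : tc_xl n (tc_sl n x) = x := by
  funext i; simp [tc_xl, tc_sl]

theorem tc_pd_xpart_high {n : ℕ} (f : (Fin n → ℝ) → ℝ) (i : Fin n) :
    pd i.succ.succ (fun X : Fin (n + 2) → ℝ => f (xpart X)) = fun X => pd i f (xpart X) := by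
  funext X
  unfold pd
  by_cases hd : DifferentiableAt ℝ f (xpart X)
  · have h1 : HasFDerivAt (fun X : Fin (n + 2) → ℝ => f (xpart X))
        ((fderiv ℝ f (xpart X)).comp (tc_xl n)) X := by
      have h2 : HasFDerivAt f (fderiv ℝ f (xpart X)) (tc_xl n X) := by
        rw [tc_xl_eq]; exact hd.hasFDerivAt
      have := h2.comp X (tc_xl n).hasFDerivAt
      refine this.congr_of_eventuallyEq ?_
      filter_upwards with Y
      simp [tc_xl_eq]
    rw [h1.fderiv]
    simp only [ContinuousLinearMap.comp_apply]
    congr 1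
    funext j
    simp only [tc_xl, ContinuousLinearMap.coe_pi', ContinuousLinearMap.proj_apply]
    by_cases hij : i = j
    · subst hij; simp
    · rw [Pi.single_eq_of_ne (fun h => hij (h.symm)), Pi.single_eq_of_ne]
      intro h
      exact hij (Fin.succ_injective _ (Fin.succ_injective _ h)).symm
  · have hd' : ¬ DifferentiableAt ℝ (fun X : Fin (n + 2) → ℝ => f (xpart X)) X := by
      intro h
      apply hd
      have h2 : f = fun y => (fun X : Fin (n + 2) → ℝ => f (xpart X))
          (X + tc_sl n (y - xpart X)) := by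
        funext y
        show f y = f (xpart (X + tc_sl n (y - xpart X)))
        congr 1
        rw [← tc_xl_eq, map_add, tc_xl_sl, tc_xl_eq]; abel
      rw [h2]
      have h3 : DifferentiableAt ℝ (fun X : Fin (n + 2) → ℝ => f (xpart X))
          (X + tc_sl n (xpart X - xpart X)) := by
        have : X + tc_sl n (xpart X - xpart X) = X := by simp
        rw [this]; exact h
      exact DifferentiableAt.comp (xpart X) (g := fun X : Fin (n + 2) → ℝ => f (xpart X))
        (f := fun y => X + tc_sl n (y - xpart X)) h3 (by fun_prop)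
    rw [fderiv_zero_of_not_differentiableAt hd, fderiv_zero_of_not_differentiableAt hd']
    simp

theorem tc_pd_smooth {n : ℕ} {U : Set (Fin n → ℝ)} (hU : IsOpen U) (f : (Fin n → ℝ) → ℝ)
    (hf : ContDiffOn ℝ (⊤ : ℕ∞) f U) (i : Fin n) : ContDiffOn ℝ (⊤ : ℕ∞) (pd i f) U := by
  have h1 : ContDiffOn ℝ (⊤ : ℕ∞) (fderiv ℝ f) U :=
    hf.fderiv_of_isOpen hU (by simp)
  exact h1.clm_apply contDiffOn_const

theorem tay_coord {n : ℕ} (t0 : ℝ) {U : Set (Fin n → ℝ)} {A : Type} [CommRing A] [Algebra ℝ A]
    {D : Fin n → A → A} {ev : A →ₐ[ℝ] (U → ℝ)} (hA : SmRing U D ev) :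
    TRel t0 U D ev (fun X => X 0)
      (PowerSeries.C (PowerSeries.C (algebraMap ℝ A t0)) + PowerSeries.X) ∧
    TRel t0 U D ev (fun X => X 1) (PowerSeries.C PowerSeries.X) ∧
    (∀ (a : A) (f : (Fin n → ℝ) → ℝ), ContDiffOn ℝ (⊤ : ℕ∞) f U → (∀ x : U, ev a x = f x) →
      TRel t0 U D ev (fun X => f (xpart X)) (PowerSeries.C (PowerSeries.C a))) := by
  have hrel := tay_relhom t0 hA
  have r1 : TRel t0 U D ev 1 1 := hrel.one
  have r0 : TRel t0 U D ev 0 0 := by
    have := hrel.smul 0 r1
    simpa using this
  have dz : ∀ i, D i 0 = 0 := by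
    intro i
    have := hA.der.smul i 0 0
    simpa using this
  have d1 : ∀ i, D i 1 = 0 := by
    intro i
    have := hA.der.mul i 1 1
    simpa using this
  have dc : ∀ i (c : ℝ), D i (algebraMap ℝ A c) = 0 := by
    intro i c
    rw [Algebra.algebraMap_eq_smul_one, hA.der.smul, d1, smul_zero]
  -- facts on extD D
  have e0 : ∀ j, extD D j (0 : PowerSeries A) = 0 := by
    intro j
    refine Fin.cases ?_ (fun i => ?_) j
    · show PowerSeries.derivativeFun (0 : PowerSeries A) = 0
      have := tc_der_C (0 : A)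
      simpa using this
    · show cw (D i) 0 = 0
      exact tc_cw_zero _ (dz i)
  have e1 : ∀ j, extD D j (1 : PowerSeries A) = 0 := by
    intro j
    refine Fin.cases ?_ (fun i => ?_) j
    · show PowerSeries.derivativeFun (1 : PowerSeries A) = 0
      have := tc_der_C (1 : A)
      simpa using this
    · show cw (D i) 1 = 0
      have := tc_cw_C (D i) (dz i) 1
      simpa [d1] using this
  have ec : ∀ j (c : ℝ), extD D j (PowerSeries.C (algebraMap ℝ A c)) = 0 := by
    intro j c
    refine Fin.cases ?_ (fun i => ?_) j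
    · exact tc_der_C _
    · show cw (D i) _ = 0
      rw [tc_cw_C (D i) (dz i), dc]; simp
  have hzero : ∀ w : List (Fin (n + 2)), Dw (extD (extD D)) w
      (0 : PowerSeries (PowerSeries A)) = 0 := by
    intro w
    induction w with
    | nil => rfl
    | cons i w ih =>
      rw [Dw, ih]
      refine Fin.cases ?_ (fun i => ?_) i
      · show PowerSeries.derivativeFun (0 : PowerSeries (PowerSeries A)) = 0
        have := tc_der_C (0 : PowerSeries A)
        simpa using this
      · show cw (extD D i) 0 = 0
        exact tc_cw_zero _ (e0 i)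
  refine ⟨?_, ?_, ?_⟩
  · apply tc_step
    · intro x
      exact (contDiff_apply ℝ ℝ (0 : Fin (n + 2))).contDiffAt
    · intro x
      simp [apt]
    · intro i
      rw [tc_pd_coord]
      refine Fin.cases ?_ (fun i => ?_) i
      · have h1 : extD (extD D) 0 (PowerSeries.C (PowerSeries.C (algebraMap ℝ A t0))
            + PowerSeries.X) = 1 := tc_der_CX _
        rw [h1, if_pos rfl]
        exact r1
      · have h1 : extD (extD D) i.succ (PowerSeries.C (PowerSeries.C (algebraMap ℝ A t0))
            + PowerSeries.X) = 0 := by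
          show cw (extD D i) _ = 0
          exact tc_cw_CX _ (e0 i) (e1 i) _ (ec i t0)
        rw [h1, if_neg (Fin.succ_ne_zero i)]
        exact r0
  · apply tc_step
    · intro x
      exact (contDiff_apply ℝ ℝ (1 : Fin (n + 2))).contDiffAt
    · intro x
      simp [apt]
    · intro i
      rw [tc_pd_coord]
      refine Fin.cases ?_ (fun i => ?_) i
      · have h1 : extD (extD D) 0 (PowerSeries.C PowerSeries.X : PowerSeries (PowerSeries A)) = 0 :=
          tc_der_C _
        rw [h1, if_neg (by simp)]
        exact r0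
      · refine Fin.cases ?_ (fun i => ?_) i
        · have h1 : extD (extD D) (Fin.succ 0)
              (PowerSeries.C PowerSeries.X : PowerSeries (PowerSeries A)) = 1 := by
            show cw (extD D 0) _ = 1
            rw [tc_cw_C _ (e0 0)]
            have : extD D 0 (PowerSeries.X : PowerSeries A) = 1 := tc_der_X
            rw [this]; simp
          rw [h1, if_pos (by simp)]
          exact r1
        · have h1 : extD (extD D) i.succ.succ
              (PowerSeries.C PowerSeries.X : PowerSeries (PowerSeries A)) = 0 := by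
            show cw (extD D i.succ) _ = 0
            rw [tc_cw_C _ (e0 _)]
            have : extD D i.succ (PowerSeries.X : PowerSeries A) = 0 := by
              show cw (D i) _ = 0
              exact tc_cw_X _ (dz i) (d1 i)
            rw [this]; simp
          rw [h1, if_neg]
          · exact r0
          · intro h2
            have := Fin.succ_injective _ (h2.trans Fin.succ_zero_eq_one.symm)
            exact Fin.succ_ne_zero _ this
  · intro a f hf ha x
    have hsm : ContDiffAt ℝ (⊤ : ℕ∞) (fun X : Fin (n + 2) → ℝ => f (xpart X)) (apt t0 x) := by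
      have h1 : ContDiffAt ℝ (⊤ : ℕ∞) f (tc_xl n (apt t0 x)) := by
        have : tc_xl n (apt t0 (x : Fin n → ℝ)) = x := by
          rw [tc_xl_eq]; funext i; simp [xpart, apt]
        rw [this]
        exact hf.contDiffAt (hA.op.mem_nhds x.2)
      have := h1.comp _ (tc_xl n).contDiff.contDiffAt
      refine this.congr_of_eventuallyEq ?_
      filter_upwards with Y
      simp [tc_xl_eq]
    refine ⟨hsm, fun w => ?_⟩
    clear hsm
    induction w using List.reverseRecOn generalizing a f with
    | nil =>
      simp only [Dw, PowerSeries.constantCoeff_C]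
      rw [ha x]
      congr 1
    | append_singleton w I ih =>
      rw [tc_Dw_append, tc_Dw_append]
      revert ih
      refine Fin.cases ?_ (fun I => ?_) I
      · intro _
        rw [tc_pd_xpart_low f 0 (Or.inl rfl)]
        have h1 : extD (extD D) 0 (PowerSeries.C (PowerSeries.C a)) = 0 := tc_der_C _
        rw [h1]
        exact (r0 x).2 w
      · refine Fin.cases ?_ (fun i => ?_) I
        · intro _
          have h0 : (Fin.succ 0 : Fin (n + 2)) = 1 := rfl
          rw [h0, tc_pd_xpart_low f 1 (Or.inr rfl)]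
          have h1 : extD (extD D) 1 (PowerSeries.C (PowerSeries.C a)) = 0 := by
            show cw (extD D 0) _ = 0
            rw [tc_cw_C _ (e0 0)]
            have : extD D 0 (PowerSeries.C a) = 0 := tc_der_C _
            rw [this]; simp
          rw [h1]
          exact (r0 x).2 w
        · intro ih
          have h1 : extD (extD D) i.succ.succ (PowerSeries.C (PowerSeries.C a)) =
              PowerSeries.C (PowerSeries.C (D i a)) := by
            show cw (extD D i.succ) _ = _
            rw [tc_cw_C _ (e0 _)]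
            congr 1
            show cw (D i) _ = _
            exact tc_cw_C _ (dz i) _
          rw [h1, tc_pd_xpart_high]
          exact ih (D i a) (pd i f) (tc_pd_smooth hA.op f hf i) (hA.comp a f hf ha i)

end Z_tay_coord

alias tay_coord := Z_tay_coord.tay_coord

end CInv
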