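import Pool.Agent.Helper767.Gjms.Defs3
import Pool.Agent.Helper767.Gjms.P_tay_congr

set_option linter.all false

open scoped BigOperators

namespace CInv

namespace Z_tay_unique

theorem tu_coeff_df {A : Type} [CommRing A] (f : PowerSeries A) (m : ℕ) :
    PowerSeries.coeff m (PowerSeries.derivativeFun f) = PowerSeries.coeff (m + 1) f * ((m : A) + 1) :=
  PowerSeries.coeff_derivative f m

theorem tu_iter {A : Type} [CommRing A] (k : ℕ) : ∀ (m : ℕ) (f : PowerSeries A),
    PowerSeries.coeff m (PowerSeries.derivativeFun^[k] f) * (m.factorial : A)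
      = ((m + k).factorial : A) * PowerSeries.coeff (m + k) f := by
  induction k with
  | zero => intro m f; simp [mul_comm]
  | succ k ih =>
    intro m f
    rw [Function.iterate_succ_apply, ih, tu_coeff_df, ← add_assoc, Nat.factorial_succ (m + k)]
    push_cast
    ring

theorem tu_const {A : Type} [CommRing A] (k : ℕ) (f : PowerSeries A) :
    PowerSeries.constantCoeff (PowerSeries.derivativeFun^[k] f)
      = (k.factorial : A) * PowerSeries.coeff k f := by
  have := tu_iter k 0 f
  rw [Nat.factorial_zero, Nat.cast_one, mul_one, zero_add] at this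
  rw [← this, PowerSeries.coeff_zero_eq_constantCoeff_apply]

theorem tu_cw {A : Type} [CommRing A] (δ : A → A) (k : ℕ) (j : ℕ) : ∀ p : PowerSeries A,
    PowerSeries.coeff j ((cw δ)^[k] p) = δ^[k] (PowerSeries.coeff j p) := by
  induction k with
  | zero => intro p; rfl
  | succ k ih =>
    intro p
    rw [Function.iterate_succ_apply, ih, Function.iterate_succ_apply, cw, PowerSeries.coeff_mk]

theorem tu_Dw_rep {n : ℕ} {A : Type} (D : Fin n → A → A) (i : Fin n) (j : ℕ) (w : List (Fin n)) :
    ∀ a : A, Dw D (List.replicate j i ++ w) a = (D i)^[j] (Dw D w a) := by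
  induction j with
  | zero => intro a; rfl
  | succ j ih =>
    intro a
    rw [List.replicate_succ, List.cons_append, Dw, ih, Function.iterate_succ_apply']

theorem tu_main {n : ℕ} {A : Type} [CommRing A] (D : Fin n → A → A)
    (p : PowerSeries (PowerSeries A)) (j k : ℕ) :
    PowerSeries.constantCoeff (PowerSeries.constantCoeff
      (Dw (extD (extD D)) (List.replicate j 0 ++ (List.replicate k 1 ++ [])) p))
      = (j.factorial : A) * ((k.factorial : A) * PowerSeries.coeff k (PowerSeries.coeff j p)) := by
  rw [tu_Dw_rep, tu_Dw_rep]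
  have h0 : (extD (extD D)) 0 = PowerSeries.derivativeFun := rfl
  have h1 : (extD (extD D)) 1 = cw PowerSeries.derivativeFun := rfl
  rw [h0, h1, tu_const, map_mul, map_natCast, Dw, tu_cw, tu_const]

theorem tay_unique {n : ℕ} (t0 : ℝ) {U : Set (Fin n → ℝ)} {A : Type} [CommRing A] [Algebra ℝ A]
    {D : Fin n → A → A} {ev : A →ₐ[ℝ] (U → ℝ)} (hA : SmRing U D ev)
    {F F' : (Fin (n + 2) → ℝ) → ℝ} {p p' : PowerSeries (PowerSeries A)}
    (h : TRel t0 U D ev F p) (h' : TRel t0 U D ev F' p')
    (hF : ∀ x : U, F =ᶠ[nhds (apt t0 x)] F') : p = p' := by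
  have h2 := tay_congr t0 hA h hF
  have hfac : ∀ m : ℕ, IsUnit (m.factorial : A) := by
    intro m
    have h3 : IsUnit ((m.factorial : ℕ) : ℝ) :=
      IsUnit.mk0 _ (Nat.cast_ne_zero.2 m.factorial_ne_zero)
    have h4 := h3.map (algebraMap ℝ A)
    rwa [map_natCast] at h4
  ext j k
  have h5 : PowerSeries.constantCoeff (PowerSeries.constantCoeff
      (Dw (extD (extD D)) (List.replicate j 0 ++ (List.replicate k 1 ++ [])) p))
      = PowerSeries.constantCoeff (PowerSeries.constantCoeff
      (Dw (extD (extD D)) (List.replicate j 0 ++ (List.replicate k 1 ++ [])) p')) := by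
    apply hA.inj
    funext x
    rw [← (h2 x).2, ← (h' x).2]
  rw [tu_main, tu_main] at h5
  exact (hfac k).mul_left_cancel ((hfac j).mul_left_cancel h5)

end Z_tay_unique

alias tay_unique := Z_tay_unique.tay_unique

end CInv
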