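import Pool.Agent.Helper767.Gjms.Defs3
import Pool.Agent.Helper771.CInv.P_gi_symm
import Pool.Agent.Helper771.CInv.P_nat_eval
import Pool.Agent.Helper767.Gjms.P_sm_inv
import Pool.Agent.Helper767.Gjms.P_lap_rel
import Pool.Agent.Helper767.Gjms.P_amb_metric
import Pool.Agent.Helper767.Gjms.P_amb_ric
import Pool.Agent.Helper767.Gjms.P_amb_lap_pow
import Pool.Agent.Helper767.Gjms.P_pinv_spec
import Pool.Agent.Helper767.Gjms.P_inv_unique
import Pool.Agent.Helper767.Gjms.P_tay_relhom
import Pool.Agent.Helper767.Gjms.P_tay_exists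
import Pool.Agent.Helper767.Gjms.P_tay_unique
import Pool.Agent.Helper767.Gjms.P_tay_congr
import Pool.Agent.Helper767.Gjms.P_tay_coord
import Pool.Agent.Helper767.Gjms.P_amb_exists_t
import Pool.Agent.Helper767.Gjms.P_amb_real_inv
import Pool.Agent.Helper767.Gjms.P_ps_c_rel

set_option linter.all false

open scoped BigOperators

namespace CInv

namespace Z_real_bridge

theorem real_bridge_const {n : ℕ} {U : Set (Fin n → ℝ)} {A : Type} [CommRing A] [Algebra ℝ A]
    {D : Fin n → A → A} {ev : A →ₐ[ℝ] (U → ℝ)} (hA : SmRing U D ev) (t0 : ℝ) (r : ℝ) :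
    TRel t0 U D ev (fun _ => r) (r • (1 : PowerSeries (PowerSeries A))) := by
  have h := (tay_relhom t0 hA).smul r (tay_relhom t0 hA).one
  have e : (r • (1 : (Fin (n + 2) → ℝ) → ℝ)) = fun _ => r := by
    funext X
    simp
  rw [e] at h
  exact h

theorem real_bridge_sum {n : ℕ} {U : Set (Fin n → ℝ)} {A : Type} [CommRing A] [Algebra ℝ A]
    {D : Fin n → A → A} {ev : A →ₐ[ℝ] (U → ℝ)} (hA : SmRing U D ev) (t0 : ℝ) {ι : Type}
    (s : Finset ι) (F : ι → (Fin (n + 2) → ℝ) → ℝ) (p : ι → PowerSeries (PowerSeries A))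
    (h : ∀ i, TRel t0 U D ev (F i) (p i)) :
    TRel t0 U D ev (fun X => ∑ i ∈ s, F i X) (∑ i ∈ s, p i) := by
  classical
  induction s using Finset.induction_on with
  | empty =>
    have h := real_bridge_const hA t0 0
    rw [zero_smul] at h
    simpa using h
  | insert a s ha ih =>
    have h2 := (tay_relhom t0 hA).add (h a) ih
    rw [Finset.sum_insert ha]
    have e : (fun X => ∑ i ∈ insert a s, F i X) = F a + fun X => ∑ i ∈ s, F i X := by
      funext X
      rw [Finset.sum_insert ha]
      rfl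
    rw [e]
    exact h2

theorem real_bridge_amb {n : ℕ} {U : Set (Fin n → ℝ)} {A : Type} [CommRing A] [Algebra ℝ A]
    {D : Fin n → A → A} {ev : A →ₐ[ℝ] (U → ℝ)} (hA : SmRing U D ev)
    {G : ℝ → (Fin n → ℝ) → Matrix (Fin n) (Fin n) ℝ} (t0 : ℝ)
    (Q : Fin n → Fin n → PowerSeries A)
    (hQ : ∀ i j, TRel t0 U D ev (fun X : Fin (n + 2) → ℝ => G (X 1) (xpart X) i j)
      (PowerSeries.C (Q i j))) (I J : Fin (n + 2)) :
    TRel t0 U D ev (fun X => ambMat G X I J)
      (amb (PowerSeries.C (PowerSeries.C (algebraMap ℝ A t0)) + PowerSeries.X)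
        (PowerSeries.C PowerSeries.X) (fun i j => PowerSeries.C (Q i j)) I J) := by
  obtain ⟨ht, hρ, _⟩ := tay_coord t0 hA
  have hR := tay_relhom t0 hA
  have hzero : TRel t0 U D ev (fun _ => 0) 0 := by
    have h := real_bridge_const hA t0 0
    rwa [zero_smul] at h
  have h2 : TRel t0 U D ev (fun X => 2 * X 1) (2 * PowerSeries.C PowerSeries.X) := by
    have h := hR.add hρ hρ
    have e1 : ((fun X : Fin (n + 2) → ℝ => X 1) + fun X => X 1) = fun X => 2 * X 1 := by
      funext X
      simp only [Pi.add_apply]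
      ring
    have e2 : (PowerSeries.C PowerSeries.X + PowerSeries.C PowerSeries.X :
        PowerSeries (PowerSeries A)) = 2 * PowerSeries.C PowerSeries.X := by ring
    rw [e1, e2] at h
    exact h
  refine Fin.cases ?_ (fun I' => ?_) I
  · refine Fin.cases ?_ (fun J' => ?_) J
    · exact h2
    · refine Fin.cases ?_ (fun j => ?_) J'
      · exact ht
      · exact hzero
  · refine Fin.cases ?_ (fun i => ?_) I'
    · refine Fin.cases ?_ (fun J' => ?_) J
      · exact ht
      · exact hzero
    · refine Fin.cases ?_ (fun J' => ?_) J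
      · exact hzero
      · refine Fin.cases ?_ (fun j => ?_) J'
        · exact hzero
        · have h := hR.mul (hR.mul ht ht) (hQ i j)
          show TRel t0 U D ev (fun X => (X 0) ^ 2 * G (X 1) (xpart X) i j)
            ((PowerSeries.C (PowerSeries.C (algebraMap ℝ A t0)) + PowerSeries.X) ^ 2 *
              PowerSeries.C (Q i j))
          have e1 : ((fun X : Fin (n + 2) → ℝ => X 0) * (fun X => X 0) *
              fun X => G (X 1) (xpart X) i j) = fun X => (X 0) ^ 2 * G (X 1) (xpart X) i j := by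
            funext X
            simp only [Pi.mul_apply]
            ring
          rw [e1, ← sq] at h
          exact h

theorem real_bridge {n : ℕ} {U : Set (Fin n → ℝ)} {A : Type} [CommRing A] [Algebra ℝ A]
    {D : Fin n → A → A} {ev : A →ₐ[ℝ] (U → ℝ)} (hA : SmRing U D ev)
    {g : (Fin n → ℝ) → Matrix (Fin n) (Fin n) ℝ} (hg : IsPMetricOn U g)
    {G : ℝ → (Fin n → ℝ) → Matrix (Fin n) (Fin n) ℝ}
    (hs : ∀ i j, SmoothNear U (fun ρ x => G ρ x i j)) (hsy : ∀ ρ x i j, G ρ x i j = G ρ x j i)
    (h0 : ∀ x ∈ U, G 0 x = g x) (t0 : ℝ) (ht : 0 < t0)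
    (Q : Fin n → Fin n → PowerSeries A)
    (hQ : ∀ i j, TRel t0 U D ev (fun X : Fin (n + 2) → ℝ => G (X 1) (xpart X) i j)
      (PowerSeries.C (Q i j))) :
    (∀ i j, ∀ x : U, ev (PowerSeries.constantCoeff (Q i j)) x = g x i j) ∧
    ∃ Qi : Fin n → Fin n → PowerSeries A, IsMetric Q Qi ∧
      (∀ i j : Fin n, TRel t0 U D ev (ambRicci G i.succ.succ j.succ.succ)
        (PowerSeries.C (fgX D Q Qi i j))) ∧
      ∀ (F : ℝ → (Fin n → ℝ) → ℝ) (q : PowerSeries A),
        TRel t0 U D ev (fun X : Fin (n + 2) → ℝ => F (X 1) (xpart X)) (PowerSeries.C q) →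
        ∀ (k : ℕ) (x : U), (ambLap G)^[k] (fun X => F (X 1) (xpart X)) (apt t0 x)
          = (t0⁻¹) ^ (2 * k) * ev (PowerSeries.constantCoeff (gjX D Q Qi k q)) x := by
  classical
  -- first part
  have hfirst : ∀ i j, ∀ x : U, ev (PowerSeries.constantCoeff (Q i j)) x = g x i j := by
    intro i j x
    have h := (hQ i j x).2 []
    have e1 : Dw pd [] (fun X : Fin (n + 2) → ℝ => G (X 1) (xpart X) i j) (apt t0 x) =
        G 0 x i j := rfl
    have e2 : Dw (extD (extD D)) [] (PowerSeries.C (Q i j)) = PowerSeries.C (Q i j) := rfl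
    rw [e1, e2, PowerSeries.constantCoeff_C, h0 x x.2] at h
    exact h.symm
  refine ⟨hfirst, ?_⟩
  -- symmetry
  have hQs : ∀ i j, Q i j = Q j i := by
    intro i j
    have h := tay_unique t0 hA (hQ i j) (hQ j i)
      (fun x => Filter.Eventually.of_forall (fun X => hsy _ _ i j))
    have h2 := congrArg (fun p => PowerSeries.constantCoeff p) h
    simpa using h2
  -- inverse of the constant term
  obtain ⟨hi1, hi2, hi3⟩ := sm_inv hA.op hg
  have hgi : ∀ i j, ∃ a : A, ∀ x : U, ev a x = (g x)⁻¹ i j := fun i j => hA.surj _ (hi1 i j)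
  choose giA hgiA using hgi
  have hmet0 : IsMetric (fun i j => PowerSeries.constantCoeff (Q i j)) giA := by
    constructor
    · intro i j
      show PowerSeries.constantCoeff (Q i j) = PowerSeries.constantCoeff (Q j i)
      rw [hQs i j]
    · intro i j
      apply hA.inj
      funext x
      rw [map_sum, Finset.sum_apply]
      have e : ∀ k, ev (PowerSeries.constantCoeff (Q i k) * giA k j) x =
          g x i k * (g x)⁻¹ k j := by
        intro k
        rw [map_mul, Pi.mul_apply, hfirst, hgiA]
      rw [Finset.sum_congr rfl (fun k _ => e k), hi2 x x.2 i j]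
      split_ifs
      · rw [map_one]; rfl
      · rw [map_zero]; rfl
  set Qi := pinv giA Q with hQi
  have hQQi : IsMetric Q Qi := pinv_spec hmet0 (fun _ _ => rfl) hQs
  refine ⟨Qi, hQQi, ?_⟩
  obtain ⟨ti, hamb, hti⟩ := amb_exists_t hA.der hQQi t0 ht.ne'
  have hR := tay_relhom t0 hA
  have hE := real_bridge_amb hA t0 Q hQ
  set tt : PowerSeries (PowerSeries A) :=
    PowerSeries.C (PowerSeries.C (algebraMap ℝ A t0)) + PowerSeries.X with htt
  -- inverse of the ambient matrix
  have hex : ∀ I J, ∃ p, TRel t0 U D ev (fun X => (ambMat G X)⁻¹ I J) p := fun I J =>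
    tay_exists t0 hA _ (fun x => (amb_real_inv hA.op hg hs h0 t0 ht x x.2).2.1 I J)
  choose p hp using hex
  have hAM := amb_metric hamb
  have hpinv : IsMetric (amb tt (PowerSeries.C PowerSeries.X) (fun i j => PowerSeries.C (Q i j)))
      p := by
    constructor
    · exact hAM.symm
    · intro I J
      have h1 : TRel t0 U D ev (fun X => ∑ K, ambMat G X I K * (ambMat G X)⁻¹ K J)
          (∑ K, amb tt (PowerSeries.C PowerSeries.X) (fun i j => PowerSeries.C (Q i j)) I K *
            p K J) :=
        real_bridge_sum hA t0 Finset.univ (fun K X => ambMat G X I K * (ambMat G X)⁻¹ K J) _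
          (fun K => hR.mul (hE I K) (hp K J))
      have h2 := real_bridge_const hA t0 (if I = J then 1 else 0)
      have h3 := tay_unique t0 hA h1 h2 (fun x => by
        filter_upwards [(amb_real_inv hA.op hg hs h0 t0 ht x x.2).2.2] with X hX
        exact hX I J)
      rw [h3]
      split_ifs
      · rw [one_smul]
      · rw [zero_smul]
  have hpe : p = ambInv ti (PowerSeries.C PowerSeries.X) (fun i j => PowerSeries.C (Qi i j)) :=
    inv_unique hpinv hAM
  have hEi : ∀ I J, TRel t0 U D ev (fun X => (ambMat G X)⁻¹ I J)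
      (ambInv ti (PowerSeries.C PowerSeries.X) (fun i j => PowerSeries.C (Qi i j)) I J) := by
    intro I J
    rw [← hpe]
    exact hp I J
  have hps := ps_c_rel hA.der Q Qi
  constructor
  · intro i j
    have h1 := (nat_eval hR hE hEi 0).1 i.succ.succ j.succ.succ
    rw [(amb_ric hamb).rxx i j, hps.1 i j] at h1
    exact h1
  · intro F q hF k x
    have hit : ∀ k, TRel t0 U D ev ((ambLap G)^[k] (fun X => F (X 1) (xpart X)))
        ((lap (extD (extD D)) (amb tt (PowerSeries.C PowerSeries.X)
          (fun i j => PowerSeries.C (Q i j)))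
          (ambInv ti (PowerSeries.C PowerSeries.X) (fun i j => PowerSeries.C (Qi i j))))^[k]
          (PowerSeries.C q)) := by
      intro k
      induction k with
      | zero => exact hF
      | succ k ih =>
        rw [Function.iterate_succ_apply', Function.iterate_succ_apply']
        exact lap_rel hR hE hEi ih
    have h1 := (hit k x).2 []
    have hu : extD (extD D) 0 (PowerSeries.C q) = 0 := by
      show PowerSeries.derivativeFun (PowerSeries.C q) = 0
      exact PowerSeries.derivativeFun_C
    rw [(amb_lap_pow hamb (PowerSeries.C q) hu k).1, hps.2 k q] at h1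
    have e1 : Dw pd [] ((ambLap G)^[k] (fun X => F (X 1) (xpart X))) (apt t0 x) =
        (ambLap G)^[k] (fun X => F (X 1) (xpart X)) (apt t0 x) := rfl
    have e2 : Dw (extD (extD D)) [] (ti ^ (2 * k) * PowerSeries.C (gjX D Q Qi k q)) =
        ti ^ (2 * k) * PowerSeries.C (gjX D Q Qi k q) := rfl
    rw [e1, e2] at h1
    rw [h1, map_mul, map_mul, map_pow, map_pow, hti, PowerSeries.constantCoeff_C, map_mul,
      map_pow, AlgHom.commutes, Pi.mul_apply, Pi.pow_apply]
    rfl

end Z_real_bridge

alias real_bridge := Z_real_bridge.real_bridge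

end CInv
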