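import Pool.Agent.Helper767.Gjms.Defs

set_option linter.all false

open scoped BigOperators

namespace CInv

namespace Z_sm_exists

theorem sm_pd_smooth_step {n : ℕ} {U : Set (Fin n → ℝ)} (hU : IsOpen U) {f : (Fin n → ℝ) → ℝ}
    (hf : ContDiffOn ℝ (⊤ : ℕ∞) f U) : ContDiffOn ℝ (⊤ : ℕ∞) (fderiv ℝ f) U :=
  hf.fderiv_of_isOpen hU (by simp)

theorem sm_pd_smooth {n : ℕ} {U : Set (Fin n → ℝ)} (hU : IsOpen U) {f : (Fin n → ℝ) → ℝ}
    (hf : ContDiffOn ℝ (⊤ : ℕ∞) f U) (i : Fin n) : ContDiffOn ℝ (⊤ : ℕ∞) (pd i f) U := by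
  show ContDiffOn ℝ (⊤ : ℕ∞) (fun x => fderiv ℝ f x (Pi.single i 1)) U
  exact (sm_pd_smooth_step hU hf).clm_apply contDiffOn_const

theorem sm_pd_symm {n : ℕ} {U : Set (Fin n → ℝ)} (hU : IsOpen U) {f : (Fin n → ℝ) → ℝ}
    (hf : ContDiffOn ℝ (⊤ : ℕ∞) f U) (i j : Fin n) (x : Fin n → ℝ) (hx : x ∈ U) :
    pd i (pd j f) x = pd j (pd i f) x := by
  have hat : ContDiffAt ℝ (⊤ : ℕ∞) f x := hf.contDiffAt (hU.mem_nhds hx)
  have hsym : IsSymmSndFDerivAt ℝ f x := hat.isSymmSndFDerivAt (by simp only [minSmoothness_of_isRCLikeNormedField]; exact (WithTop.coe_le_coe.2 (le_top : (2:ℕ∞) ≤ ⊤)))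
  have hd : DifferentiableAt ℝ (fderiv ℝ f) x :=
    ((sm_pd_smooth_step hU hf).contDiffAt (hU.mem_nhds hx)).differentiableAt (by simp)
  have key : ∀ i j : Fin n, pd i (pd j f) x = fderiv ℝ (fderiv ℝ f) x (Pi.single i 1) (Pi.single j 1) := by
    intro i j
    have h1 : fderiv ℝ (fun y => fderiv ℝ f y (Pi.single j 1)) x =
        (fderiv ℝ (fderiv ℝ f) x).flip (Pi.single j 1) := by
      rw [fderiv_clm_apply hd (differentiableAt_const _)]
      simp
    show fderiv ℝ (fun y => fderiv ℝ f y (Pi.single j 1)) x (Pi.single i 1) = _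
    rw [h1]
    rfl
  rw [key, key]
  exact hsym _ _

theorem sm_pd_congr {n : ℕ} {U : Set (Fin n → ℝ)} (hU : IsOpen U) {F G : (Fin n → ℝ) → ℝ}
    (h : ∀ x : U, F x = G x) (i : Fin n) (x : U) : pd i F x = pd i G x := by
  unfold pd
  have h1 : F =ᶠ[nhds (x : Fin n → ℝ)] G := by
    filter_upwards [hU.mem_nhds x.2] with y hy using h ⟨y, hy⟩
  rw [h1.fderiv_eq]

theorem sm_diffAt {n : ℕ} {U : Set (Fin n → ℝ)} (hU : IsOpen U) {F : (Fin n → ℝ) → ℝ}
    (hF : ContDiffOn ℝ (⊤ : ℕ∞) F U) (x : U) : DifferentiableAt ℝ F x :=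
  (hF.contDiffAt (hU.mem_nhds x.2)).differentiableAt (by simp)

/-- smooth functions on `U` -/
def smA {n : ℕ} (U : Set (Fin n → ℝ)) : Subalgebra ℝ (U → ℝ) where
  carrier := {a | ∃ F : (Fin n → ℝ) → ℝ, ContDiffOn ℝ (⊤ : ℕ∞) F U ∧ ∀ x : U, a x = F x}
  mul_mem' := by
    rintro a b ⟨F, hF, ha⟩ ⟨G, hG, hb⟩
    exact ⟨fun x => F x * G x, hF.mul hG, fun x => by simp [ha x, hb x]⟩
  add_mem' := by
    rintro a b ⟨F, hF, ha⟩ ⟨G, hG, hb⟩
    exact ⟨fun x => F x + G x, hF.add hG, fun x => by simp [ha x, hb x]⟩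
  algebraMap_mem' := by
    intro r
    exact ⟨fun _ => r, contDiffOn_const, fun x => rfl⟩

theorem sm_exists {n : ℕ} {U : Set (Fin n → ℝ)} (hU : IsOpen U) :
    ∃ (A : Type) (_ : CommRing A) (_ : Algebra ℝ A) (D : Fin n → A → A)
      (ev : A →ₐ[ℝ] (U → ℝ)), Function.Injective ev ∧ IsDer D ∧
      (∀ F : (Fin n → ℝ) → ℝ, ContDiffOn ℝ (⊤ : ℕ∞) F U → ∃ a : A, ∀ x : U, ev a x = F x) ∧
      (∀ a : A, ∃ F : (Fin n → ℝ) → ℝ, ContDiffOn ℝ (⊤ : ℕ∞) F U ∧ ∀ x : U, ev a x = F x) ∧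
      (∀ (a : A) (F : (Fin n → ℝ) → ℝ), ContDiffOn ℝ (⊤ : ℕ∞) F U → (∀ x : U, ev a x = F x) →
        ∀ (i : Fin n) (x : U), ev (D i a) x = pd i F x) := by
  classical
  let D : Fin n → smA U → smA U := fun i a =>
    ⟨fun x : U => pd i (Classical.choose a.2) x,
      pd i (Classical.choose a.2), sm_pd_smooth hU (Classical.choose_spec a.2).1 i, fun x => rfl⟩
  have hD : ∀ (a : smA U) (F : (Fin n → ℝ) → ℝ), ContDiffOn ℝ (⊤ : ℕ∞) F U →
      (∀ x : U, a.1 x = F x) → ∀ (i : Fin n) (x : U), (D i a).1 x = pd i F x := by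
    intro a F hF ha i x
    show pd i (Classical.choose a.2) x = pd i F x
    apply sm_pd_congr hU
    intro y
    rw [← (Classical.choose_spec a.2).2 y, ha y]
  refine ⟨smA U, inferInstance, inferInstance, D, (smA U).val, Subtype.val_injective, ?_, ?_, ?_, ?_⟩
  · constructor
    · intro i a b
      obtain ⟨F, hF, ha⟩ := a.2
      obtain ⟨G, hG, hb⟩ := b.2
      apply Subtype.ext
      funext x
      rw [hD (a + b) (fun x => F x + G x) (hF.add hG) (fun x => by simp [ha x, hb x]) i x]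
      show _ = (D i a).1 x + (D i b).1 x
      rw [hD a F hF ha i x, hD b G hG hb i x]
      unfold pd
      rw [fderiv_fun_add (sm_diffAt hU hF x) (sm_diffAt hU hG x)]
      rfl
    · intro i a b
      obtain ⟨F, hF, ha⟩ := a.2
      obtain ⟨G, hG, hb⟩ := b.2
      apply Subtype.ext
      funext x
      rw [hD (a * b) (fun x => F x * G x) (hF.mul hG) (fun x => by simp [ha x, hb x]) i x]
      show _ = (D i a).1 x * b.1 x + a.1 x * (D i b).1 x
      rw [hD a F hF ha i x, hD b G hG hb i x, ha x, hb x]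
      unfold pd
      rw [fderiv_fun_mul (sm_diffAt hU hF x) (sm_diffAt hU hG x)]
      simp only [ContinuousLinearMap.add_apply, ContinuousLinearMap.smul_apply, smul_eq_mul]
      ring
    · intro i r a
      obtain ⟨F, hF, ha⟩ := a.2
      apply Subtype.ext
      funext x
      rw [hD (r • a) (fun x => r * F x) (contDiffOn_const.mul hF) (fun x => by simp [ha x]) i x]
      show _ = r * (D i a).1 x
      rw [hD a F hF ha i x]
      unfold pd
      rw [fderiv_const_mul (sm_diffAt hU hF x)]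
      rfl
    · intro i j a
      obtain ⟨F, hF, ha⟩ := a.2
      apply Subtype.ext
      funext x
      rw [hD (D j a) (pd j F) (sm_pd_smooth hU hF j) (fun x => hD a F hF ha j x) i x,
        hD (D i a) (pd i F) (sm_pd_smooth hU hF i) (fun x => hD a F hF ha i x) j x]
      exact sm_pd_symm hU hF i j x x.2
  · intro F hF
    exact ⟨⟨fun x => F x, F, hF, fun x => rfl⟩, fun x => rfl⟩
  · intro a
    exact a.2
  · intro a F hF ha i x
    exact hD a F hF ha i x

end Z_sm_exists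

alias sm_exists := Z_sm_exists.sm_exists

end CInv
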