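import Pool.Agent.Helper767.Gjms.Defs3
import Pool.Agent.Helper767.Gjms.P_tay_relhom
import Pool.Agent.Helper767.Gjms.P_tay_coord

set_option linter.all false

open scoped BigOperators

namespace CInv

namespace Z_tay_poly

theorem tay_poly {n : ℕ} (t0 : ℝ) {U : Set (Fin n → ℝ)} {A : Type} [CommRing A] [Algebra ℝ A]
    {D : Fin n → A → A} {ev : A →ₐ[ℝ] (U → ℝ)} (hA : SmRing U D ev)
    (N : ℕ) (a : ℕ → A) (f : ℕ → (Fin n → ℝ) → ℝ)
    (hf : ∀ k, ContDiffOn ℝ (⊤ : ℕ∞) (f k) U) (ha : ∀ k, ∀ x : U, ev (a k) x = f k x)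
    (q : PowerSeries A) (hq : ∀ k, PowerSeries.coeff k q = if k < N then a k else 0) :
    SmoothNear U (fun ρ x => ∑ k ∈ Finset.range N, ρ ^ k * f k x) ∧
    TRel t0 U D ev (fun X : Fin (n + 2) → ℝ =>
      ∑ k ∈ Finset.range N, (X 1) ^ k * f k (xpart X)) (PowerSeries.C q) := by
  constructor
  · refine ⟨Set.univ ×ˢ U, isOpen_univ.prod hA.op, fun x hx => ⟨Set.mem_univ _, hx⟩, ?_⟩
    refine ContDiffOn.sum fun k _ => ?_
    refine ContDiffOn.mul ?_ ?_
    · exact (contDiff_fst.pow k).contDiffOn
    · exact (hf k).comp contDiff_snd.contDiffOn (fun p hp => hp.2)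
  · have hR := tay_relhom t0 hA
    obtain ⟨-, h1, h2⟩ := tay_coord t0 hA
    have hpow : ∀ k : ℕ, TRel t0 U D ev (fun X : Fin (n + 2) → ℝ => (X 1) ^ k)
        ((PowerSeries.C PowerSeries.X) ^ k) := by
      intro k
      induction k with
      | zero =>
        simp only [pow_zero]
        exact hR.one
      | succ k ih =>
        simp only [pow_succ]
        exact hR.mul ih h1
    have hsum : ∀ K : ℕ, TRel t0 U D ev (fun X : Fin (n + 2) → ℝ =>
        ∑ k ∈ Finset.range K, (X 1) ^ k * f k (xpart X))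
        (∑ k ∈ Finset.range K, (PowerSeries.C PowerSeries.X) ^ k *
          PowerSeries.C (PowerSeries.C (a k))) := by
      intro K
      induction K with
      | zero =>
        simp only [Finset.range_zero, Finset.sum_empty]
        have := hR.smul 0 hR.one
        rw [zero_smul, zero_smul] at this
        exact this
      | succ K ih =>
        simp only [Finset.sum_range_succ]
        exact hR.add ih (hR.mul (hpow K) (h2 (a K) (f K) (hf K) (ha K)))
    have hqe : q = ∑ k ∈ Finset.range N, PowerSeries.X ^ k * PowerSeries.C (a k) := by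
      ext j
      rw [hq, map_sum]
      simp only [PowerSeries.coeff_mul_C, PowerSeries.coeff_X_pow, ite_mul, one_mul, zero_mul]
      rw [Finset.sum_ite_eq]
      simp
    have := hsum N
    rw [hqe, map_sum]
    simp only [map_mul, map_pow]
    exact this

end Z_tay_poly

alias tay_poly := Z_tay_poly.tay_poly

end CInv
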