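import Pool.Agent.Helper767.Gjms.Defs3

set_option linter.all false

open scoped BigOperators

namespace CInv

namespace Z_tay_rho

theorem tay_rho_cd {A : Type} [CommRing A] (f : PowerSeries A) (k : ℕ) :
    PowerSeries.coeff k (PowerSeries.derivativeFun f)
      = PowerSeries.coeff (k + 1) f * ((k : A) + 1) := by
  exact PowerSeries.coeff_derivative f k

theorem tay_rho_Dw {n : ℕ} {A : Type} (D : Fin n → A → A) (i : Fin n) (m : ℕ) (a : A) :
    Dw D (List.replicate m i) a = (D i)^[m] a := by
  induction m with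
  | zero => rfl
  | succ m ih =>
    rw [Function.iterate_succ_apply', ← ih]
    rfl

theorem tay_rho_ext {n : ℕ} {A : Type} [CommRing A] (D : Fin n → A → A) (q : PowerSeries A) :
    extD (extD D) 1 (PowerSeries.C q) = PowerSeries.C (PowerSeries.derivativeFun q) := by
  have h1 : extD (extD D) (1 : Fin (n + 2)) (PowerSeries.C q)
      = cw (PowerSeries.derivativeFun) (PowerSeries.C q) := rfl
  rw [h1]
  ext k : 1
  unfold cw
  rw [PowerSeries.coeff_mk, PowerSeries.coeff_C, PowerSeries.coeff_C]
  by_cases hk : k = 0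
  · rw [if_pos hk, if_pos hk]
  · rw [if_neg hk, if_neg hk]
    ext j
    rw [tay_rho_cd]
    simp

theorem tay_rho_iter {n : ℕ} {A : Type} [CommRing A] (D : Fin n → A → A) (m : ℕ)
    (q : PowerSeries A) :
    (extD (extD D) 1)^[m] (PowerSeries.C q) = PowerSeries.C (PowerSeries.derivativeFun^[m] q) := by
  induction m generalizing q with
  | zero => rfl
  | succ m ih =>
    rw [Function.iterate_succ_apply, Function.iterate_succ_apply, tay_rho_ext, ih]

theorem tay_rho_coeff {A : Type} [CommRing A] (m : ℕ) (q : PowerSeries A) :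
    PowerSeries.constantCoeff (PowerSeries.derivativeFun^[m] q)
      = (m.factorial : A) * PowerSeries.coeff m q := by
  induction m generalizing q with
  | zero => simp
  | succ m ih =>
    rw [Function.iterate_succ_apply, ih, tay_rho_cd, Nat.factorial_succ]
    push_cast
    ring

theorem tay_rho {n : ℕ} (t0 : ℝ) {U : Set (Fin n → ℝ)} {A : Type} [CommRing A] [Algebra ℝ A]
    {D : Fin n → A → A} {ev : A →ₐ[ℝ] (U → ℝ)} (hA : SmRing U D ev)
    {F : (Fin (n + 2) → ℝ) → ℝ} {q : PowerSeries A}
    (h : TRel t0 U D ev F (PowerSeries.C q)) (m : ℕ) :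
    (∀ x : U, (pd 1)^[m] F (apt t0 x) = (m.factorial : ℝ) * ev (PowerSeries.coeff m q) x) ∧
    ((∀ k < m, ∀ x : U, (pd 1)^[k] F (apt t0 x) = 0) →
      q ∈ Ideal.span {(PowerSeries.X : PowerSeries A) ^ m}) := by
  have key : ∀ (k : ℕ) (x : U),
      (pd 1)^[k] F (apt t0 x) = (k.factorial : ℝ) * ev (PowerSeries.coeff k q) x := by
    intro k x
    have h1 := (h x).2 (List.replicate k 1)
    rw [tay_rho_Dw, tay_rho_Dw, tay_rho_iter, PowerSeries.constantCoeff_C, tay_rho_coeff,
      map_mul, map_natCast] at h1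
    exact h1
  refine ⟨key m, ?_⟩
  intro h0
  rw [Ideal.mem_span_singleton, PowerSeries.X_pow_dvd_iff]
  intro k hk
  apply hA.inj
  rw [map_zero]
  funext x
  have h1 := h0 k hk x
  rw [key k x] at h1
  rcases mul_eq_zero.mp h1 with h2 | h2
  · exact absurd h2 (by exact_mod_cast (Nat.factorial_pos k).ne')
  · exact h2

end Z_tay_rho

alias tay_rho := Z_tay_rho.tay_rho

end CInv
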