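import Pool.Agent.Helper767.Gjms.Defs3
import Pool.Agent.Helper771.CInv.P_gi_symm
import Pool.Agent.Helper767.Gjms.P_ext_isder
import Pool.Agent.Helper767.Gjms.P_sm_exists
import Pool.Agent.Helper767.Gjms.P_sm_inv
import Pool.Agent.Helper767.Gjms.P_pinv_spec
import Pool.Agent.Helper767.Gjms.P_inv_unique
import Pool.Agent.Helper767.Gjms.P_fgG_spec
import Pool.Agent.Helper767.Gjms.P_tay_poly
import Pool.Agent.Helper767.Gjms.P_tay_rho
import Pool.Agent.Helper767.Gjms.P_real_bridge

set_option linter.all false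

open scoped BigOperators

namespace CInv

namespace Z_amb_real_exists

theorem amb_real_exists_coeff {n : ℕ} {A : Type} [CommRing A] [Algebra ℝ A] (D : Fin n → A → A)
    (g gi : Fin n → Fin n → A) (m : ℕ) : ∀ k, m < k → ∀ i j,
      PowerSeries.coeff k (fgG D g gi m i j) = 0 := by
  induction m with
  | zero =>
    intro k hk i j
    rw [fgG, PowerSeries.coeff_C, if_neg (by omega)]
  | succ m ih =>
    intro k hk i j
    rw [fgG, map_add, ih k (by omega), zero_add, PowerSeries.coeff_X_pow_mul', if_pos (by omega),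
      PowerSeries.coeff_C, if_neg (by omega)]

theorem amb_real_exists {n : ℕ} (he : Even n) (hn : 4 ≤ n) {U : Set (Fin n → ℝ)}
    (hU : IsOpen U) {g : (Fin n → ℝ) → Matrix (Fin n) (Fin n) ℝ} (hg : IsPMetricOn U g) :
    ∃ G, IsAmbient U g G := by
  
  classical
  obtain ⟨A, _, _, D, ev, hinj, hder, hsurj, hrep, hcomp⟩ := sm_exists hU
  have hA : SmRing U D ev := ⟨hU, hinj, hder, hsurj, hrep, hcomp⟩
  have hex1 : ∀ i j, ∃ a : A, ∀ x : U, ev a x = g x i j := fun i j =>
    hsurj (fun x => g x i j) (hg.smooth i j)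
  choose gA hgA using hex1
  obtain ⟨hi1, hi2, hi3⟩ := sm_inv hU hg
  have hex2 : ∀ i j, ∃ a : A, ∀ x : U, ev a x = (g x)⁻¹ i j := fun i j =>
    hsurj (fun x => (g x)⁻¹ i j) (hi1 i j)
  choose giA hgiA using hex2
  have hmet : IsMetric gA giA := by
    refine ⟨fun i j => ?_, fun i j => ?_⟩
    · apply hinj
      funext x
      rw [hgA, hgA, hg.symm x x.2]
    · apply hinj
      funext x
      rw [map_sum, Finset.sum_apply]
      have h1 : ∀ k, ev (gA i k * giA k j) x = g x i k * (g x)⁻¹ k j := by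
        intro k
        rw [map_mul, Pi.mul_apply, hgA, hgiA]
      simp only [h1]
      rw [hi2 x x.2]
      split_ifs <;> simp
  set m0 := n / 2 - 1 with hm0
  have hn2 : 2 * m0 + 2 ≤ n := by omega
  set M := fgG D gA giA m0 with hM
  obtain ⟨hMs, hM0, hMf⟩ := fgG_spec hder hmet m0 hn2
  replace hMs : ∀ i j, M i j = M j i := hMs
  replace hM0 : ∀ i j, PowerSeries.constantCoeff (M i j) = gA i j := hM0
  replace hMf : ∀ i j, fgX D M (pinv giA M) i j
      ∈ Ideal.span {(PowerSeries.X : PowerSeries A) ^ m0} := hMf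
  have hMc : ∀ k, m0 < k → ∀ i j, PowerSeries.coeff k (M i j) = 0 :=
    amb_real_exists_coeff D gA giA m0
  let f : ℕ → Fin n → Fin n → (Fin n → ℝ) → ℝ := fun k i j x =>
    if h : x ∈ U then ev (PowerSeries.coeff k (M i j)) ⟨x, h⟩ else 0
  have hfe : ∀ k i j, ∀ x : U, ev (PowerSeries.coeff k (M i j)) x = f k i j x := by
    intro k i j x
    simp only [f]
    rw [dif_pos x.2]
  have hfs : ∀ k i j, ContDiffOn ℝ (⊤ : ℕ∞) (f k i j) U := by
    intro k i j
    obtain ⟨F, hF1, hF2⟩ := hrep (PowerSeries.coeff k (M i j))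
    refine hF1.congr ?_
    intro x hx
    rw [← hF2 ⟨x, hx⟩, ← hfe k i j ⟨x, hx⟩]
  have hfsym : ∀ k i j x, f k i j x = f k j i x := by
    intro k i j x
    simp only [f]
    rw [hMs i j]
  have hpos : 0 < n / 2 := by omega
  let G : ℝ → (Fin n → ℝ) → Matrix (Fin n) (Fin n) ℝ := fun ρ x =>
    Matrix.of fun i j => ∑ k ∈ Finset.range (n / 2), ρ ^ k * f k i j x
  have htay : ∀ t0 : ℝ, ∀ i j,
      SmoothNear U (fun ρ x => G ρ x i j) ∧
      TRel t0 U D ev (fun X : Fin (n + 2) → ℝ => G (X 1) (xpart X) i j)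
        (PowerSeries.C (M i j)) := by
    intro t0 i j
    exact tay_poly t0 hA (n / 2) (fun k => PowerSeries.coeff k (M i j)) (fun k => f k i j)
      (fun k => hfs k i j) (fun k => hfe k i j) (M i j) (by
        intro k
        split_ifs with hk
        · rfl
        · exact hMc k (by omega) i j)
  have hsmooth : ∀ i j, SmoothNear U (fun ρ x => G ρ x i j) := fun i j => (htay 0 i j).1
  have hsym : ∀ ρ x i j, G ρ x i j = G ρ x j i := by
    intro ρ x i j
    simp only [G, Matrix.of_apply]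
    refine Finset.sum_congr rfl fun k _ => ?_
    rw [hfsym]
  have hinit : ∀ x ∈ U, G 0 x = g x := by
    intro x hx
    ext i j
    simp only [G, Matrix.of_apply]
    rw [Finset.sum_eq_single 0]
    · rw [pow_zero, one_mul, ← hfe 0 i j ⟨x, hx⟩, PowerSeries.coeff_zero_eq_constantCoeff_apply,
        hM0, hgA]
    · intro k _ hk
      rw [zero_pow hk, zero_mul]
    · intro h
      exact absurd (Finset.mem_range.2 hpos) h
  refine ⟨G, hsmooth, hsym, hinit, ?_⟩
  intro t ht x hx i j m hm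
  obtain ⟨-, Qi, hQi, hRic, -⟩ := real_bridge hA hg hsmooth hsym hinit t ht M
    (fun i j => (htay t i j).2)
  have hQe : Qi = pinv giA M := inv_unique hQi (pinv_spec hmet hM0 hMs)
  have h1 := (tay_rho t hA (hRic i j) m).1 ⟨x, hx⟩
  rw [h1, hQe]
  have h2 := hMf i j
  rw [Ideal.mem_span_singleton, PowerSeries.X_pow_dvd_iff] at h2
  rw [h2 m hm, map_zero, Pi.zero_apply, mul_zero]

end Z_amb_real_exists

alias amb_real_exists := Z_amb_real_exists.amb_real_exists

end CInv
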