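import Pool.Agent.Helper767.Gjms.Defs2
import Pool.Agent.Helper767.Gjms.P_amb_dti
import Pool.Agent.Helper767.Gjms.P_amb_b1
import Pool.Agent.Helper767.Gjms.P_amb_b2
import Pool.Agent.Helper767.Gjms.P_rho_span

set_option linter.all false

open scoped BigOperators

namespace CInv

namespace Z_amb_small

theorem as_smul {A : Type} [CommRing A] [Algebra ℝ A] (I : Ideal A) (c : ℝ) (x : A)
    (hx : x ∈ I) : c • x ∈ I := by
  rw [Algebra.smul_def]
  exact I.mul_mem_left _ hx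

theorem as_smul_iff {A : Type} [CommRing A] [Algebra ℝ A] (I : Ideal A) (c : ℝ) (hc : c ≠ 0)
    (x : A) (hx : c • x ∈ I) : x ∈ I := by
  have h := as_smul I c⁻¹ _ hx
  rwa [smul_smul, inv_mul_cancel₀ hc, one_smul] at h

theorem as_mono {A : Type} [CommRing A] (ρ : A) {a b : ℕ} (h : a ≤ b) :
    Ideal.span {ρ ^ b} ≤ Ideal.span {ρ ^ a} :=
  (Ideal.span_singleton_le_span_singleton).2 (pow_dvd_pow ρ h)

theorem as_rho {A : Type} [CommRing A] (ρ : A) {a : ℕ} {x : A} (h : x ∈ Ideal.span {ρ ^ a}) :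
    ρ * x ∈ Ideal.span {ρ ^ (a + 1)} := by
  rw [Ideal.mem_span_singleton] at h ⊢
  rw [pow_succ']
  exact mul_dvd_mul_left ρ h

theorem amb_small {n : ℕ} {A : Type} [CommRing A] [Algebra ℝ A] {D : Fin (n + 2) → A → A}
    {t ti ρ : A} {g gi : Fin n → Fin n → A} (h : AmbRing D t ti ρ g gi) (s : ℕ)
    (hs : 2 * s + 2 ≤ n)
    (hR : ∀ i j : Fin n, ric D (amb t ρ g) (ambInv ti ρ gi) i.succ.succ j.succ.succ
      ∈ Ideal.span {ρ ^ s}) (j : Fin n) :
    ric D (amb t ρ g) (ambInv ti ρ gi) 1 j.succ.succ ∈ Ideal.span {ρ ^ s} := by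
  have hD' : IsDer (fun I : Fin (n + 1) => D I.succ) :=
    ⟨fun i => h.der.add _, fun i => h.der.mul _, fun i => h.der.smul _,
      fun i j => h.der.comm _ _⟩
  have h1 : (fun I : Fin (n + 1) => D I.succ) 0 ρ = 1 := h.Dr1
  have hx : ∀ i : Fin n, (fun I : Fin (n + 1) => D I.succ) i.succ ρ = 0 := h.Drx
  have key : ∀ a : ℕ, a ≤ s →
      (∀ j : Fin n, ric D (amb t ρ g) (ambInv ti ρ gi) 1 j.succ.succ ∈ Ideal.span {ρ ^ a}) ∧
      ric D (amb t ρ g) (ambInv ti ρ gi) 1 1 ∈ Ideal.span {ρ ^ (min a (s - 1))} := by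
    intro a
    induction a with
    | zero =>
      intro _
      simp
    | succ a ih =>
      intro ha
      obtain ⟨ih1, ih2⟩ := ih (by omega)
      have hmin : min a (s - 1) = a := by omega
      rw [hmin] at ih2
      have hn : (2:ℝ) * s + 2 ≤ n := by exact_mod_cast hs
      have has : (a:ℝ) + 1 ≤ s := by exact_mod_cast ha
      have ha0 : (0:ℝ) ≤ a := Nat.cast_nonneg a
      obtain ⟨q1, q2, q3, q4⟩ := rho_span hD' h1 hx a
      have st1 : ∀ j : Fin n, ric D (amb t ρ g) (ambInv ti ρ gi) 1 j.succ.succ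
          ∈ Ideal.span {ρ ^ (a + 1)} := by
        intro j
        have e1 := as_mono ρ ha (amb_b1 h s hR j)
        have e2 := as_rho ρ ((Ideal.span {ρ ^ a}).mul_mem_left (trp (D 1) g gi) (ih1 j))
        have e3 := as_rho ρ (q1 j _ ih2)
        have e4 := as_smul _ 2 _ (q4 _ (ih1 j) (((n:ℝ) - 2) / 2))
        refine as_smul_iff _ ((n:ℝ) - 2 - 2 * a) (by
          have : (0:ℝ) < (n:ℝ) - 2 - 2 * a := by linarith
          exact this.ne') _ ?_
        have e5 := (Ideal.span {ρ ^ (a + 1)}).sub_mem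
          ((Ideal.span {ρ ^ (a + 1)}).sub_mem ((Ideal.span {ρ ^ (a + 1)}).add_mem e1 e2) e3) e4
        convert e5 using 1
        rw [show (Fin.succ 0 : Fin (n + 2)) = 1 from rfl]
        obtain ⟨R, hR'⟩ : ∃ R, R = ric D (amb t ρ g) (ambInv ti ρ gi) 1 j.succ.succ := ⟨_, rfl⟩
        rw [← hR', smul_sub, smul_sub, smul_smul, smul_smul,
          show (2:ℝ) * (((n:ℝ) - 2) / 2) = (n:ℝ) - 2 by ring,
          show (2:ℝ) * (((n:ℝ) - 2) / 2 - a) = (n:ℝ) - 2 - 2 * a by ring, two_smul ℝ (ρ * D 1 R)]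
        ring
      refine ⟨st1, ?_⟩
      by_cases has' : a + 1 ≤ s - 1
      · have hmin' : min (a + 1) (s - 1) = a + 1 := by omega
        rw [hmin']
        have e1 := as_mono ρ has' (amb_b2 h s hR)
        have e2 := as_rho ρ ((Ideal.span {ρ ^ a}).mul_mem_left (trp (D 1) g gi) ih2)
        have e3 : (∑ l : Fin n, ∑ m : Fin n, gi l m *
          (D l.succ.succ (ric D (amb t ρ g) (ambInv ti ρ gi) 1 m.succ.succ)
            - ∑ k : Fin n, chr (fun i : Fin n => D i.succ.succ) g gi k l m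
                * ric D (amb t ρ g) (ambInv ti ρ gi) 1 k.succ.succ)) ∈
              Ideal.span {ρ ^ (a + 1)} := by
          refine Ideal.sum_mem _ fun l _ => Ideal.sum_mem _ fun m _ => Ideal.mul_mem_left _ _ ?_
          refine Ideal.sub_mem _ ?_ (Ideal.sum_mem _ fun k _ => Ideal.mul_mem_left _ _ (st1 k))
          exact (rho_span hD' h1 hx (a + 1)).1 l _ (st1 m)
        have e4 := q4 _ ih2 ((n:ℝ) - 2)
        refine as_smul_iff _ ((n:ℝ) - 2 - a) (by
          have : (0:ℝ) < (n:ℝ) - 2 - a := by linarith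
          exact this.ne') _ ?_
        have e5 := (Ideal.span {ρ ^ (a + 1)}).sub_mem
          ((Ideal.span {ρ ^ (a + 1)}).sub_mem ((Ideal.span {ρ ^ (a + 1)}).add_mem e1 e2) e3) e4
        convert e5 using 1
        rw [show (Fin.succ 0 : Fin (n + 2)) = 1 from rfl]
        obtain ⟨R, hR'⟩ : ∃ R, R = ric D (amb t ρ g) (ambInv ti ρ gi) 1 1 := ⟨_, rfl⟩
        rw [← hR']
        ring
      · have hmin' : min (a + 1) (s - 1) = a := by omega
        rw [hmin']
        exact ih2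
  exact (key s le_rfl).1 j

end Z_amb_small

alias amb_small := Z_amb_small.amb_small

end CInv
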