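import Pool.Agent.Helper767.Gjms.Defs
import Pool.Agent.Helper771.CInv.P_top_coef

set_option linter.all false

open scoped BigOperators

namespace CInv

namespace Z_bv_top

/-- vanishing of the coefficients of small sets -/
def bvI {r : ℕ} (m : ℕ) (x : SF (Fin r)) : Prop := ∀ T : Finset (Fin r), T.card < m → x.c T = 0

theorem bv_c_sum {r : ℕ} {α : Type} (s : Finset α) (f : α → SF (Fin r)) (S : Finset (Fin r)) :
    (∑ i ∈ s, f i).c S = ∑ i ∈ s, (f i).c S := map_sum (SF.cl S) f s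

theorem bvI_mul {r : ℕ} {a b : ℕ} {x y : SF (Fin r)} (hx : bvI a x) (hy : bvI b y) :
    bvI (a + b) (x * y) := by
  intro S hS
  rw [SF.c_mul]
  refine Finset.sum_eq_zero fun T hT => ?_
  rw [Finset.mem_powerset] at hT
  have h1 : (S \ T).card = S.card - T.card := Finset.card_sdiff_of_subset hT
  have h0 : T.card ≤ S.card := Finset.card_le_card hT
  by_cases h : T.card < a
  · rw [hx T h, zero_mul]
  · rw [hy (S \ T) (by omega), mul_zero]

theorem bvI_zero {r : ℕ} (x : SF (Fin r)) : bvI 0 x := fun T hT => absurd hT (Nat.not_lt_zero _)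

theorem bvI_pow {r : ℕ} {x : SF (Fin r)} (hx : bvI 1 x) (m : ℕ) : bvI m (x ^ m) := by
  induction m with
  | zero => exact bvI_zero _
  | succ m ih => rw [pow_succ]; exact bvI_mul ih hx

theorem bvI_prod {r : ℕ} {V : Type} (y : V → SF (Fin r)) (hy : ∀ v, bvI 1 (y v)) (d : V → ℕ)
    (s : Finset V) : bvI (∑ v ∈ s, d v) (∏ v ∈ s, y v ^ d v) := by
  classical
  induction s using Finset.induction_on with
  | empty => exact bvI_zero _
  | insert v s hv ih =>
    rw [Finset.sum_insert hv, Finset.prod_insert hv]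
    exact bvI_mul (bvI_pow (hy v) _) ih

theorem bv_low {V : Type} {r : ℕ} {Φ : MvPolynomial V ℝ} (hΦ : OrdGE r Φ)
    (y : V → SF (Fin r)) (hy : ∀ v, (y v).c ∅ = 0) (T : Finset (Fin r)) (hT : T.card < r) :
    (MvPolynomial.aeval y Φ).c T = 0 := by
  have hy1 : ∀ v, bvI 1 (y v) := by
    intro v S hS
    have : S = ∅ := Finset.card_eq_zero.1 (by omega)
    rw [this]
    exact hy v
  rw [MvPolynomial.aeval_def, MvPolynomial.eval₂_eq, bv_c_sum]
  refine Finset.sum_eq_zero fun m hm => ?_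
  have h1 : r ≤ ∑ v ∈ m.support, m v := hΦ m hm
  have h2 := bvI_mul (bvI_zero (algebraMap ℝ (SF (Fin r)) (MvPolynomial.coeff m Φ)))
    (bvI_prod y hy1 m m.support)
  exact h2 T (by omega)

theorem bv_top {n r : ℕ} {Φ : OpPhi n} (hΦ : ∀ s, OrdGE r (Φ s))
    (H : Fin n → Fin n → MvPolynomial (Fin n) (SF (Fin r)))
    (hH : ∀ v, (J0 H v).c ∅ = 0) (F : MvPolynomial (Fin n) (SF (Fin r))) :
    (E0 Φ H F).c Finset.univ = Φ.sum fun s p =>
      polar r (MvPolynomial.map (algebraMap ℝ ℂ) p) (fun j v => (J0 H v).c {j})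
        * (J0s F s).c ∅ := by
  unfold E0 Finsupp.sum
  rw [bv_c_sum]
  refine Finset.sum_congr rfl fun s _ => ?_
  rw [SF.c_mul, Finset.sum_eq_single Finset.univ, top_coef (hΦ s) _ hH, sdiff_self]
  · rfl
  · intro T _ hT
    rw [bv_low (hΦ s) _ hH T, zero_mul]
    have h1 : T.card < (Finset.univ : Finset (Fin r)).card :=
      Finset.card_lt_card (Finset.ssubset_univ_iff.2 hT)
    rwa [Finset.card_univ, Fintype.card_fin] at h1
  · intro h
    exact absurd (Finset.mem_powerset.2 (Finset.Subset.refl _)) h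

end Z_bv_top

alias bv_top := Z_bv_top.bv_top

end CInv
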