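import Pool.Agent.Helper767.Gjms.Defs
import Pool.Agent.Helper771.CInv.P_j0_legs
import Pool.Agent.Helper767.Gjms.P_bv_top

set_option linter.all false

open scoped BigOperators

namespace CInv

namespace Z_bv_legs

theorem BL_csum {ι κ : Type} [DecidableEq ι] (s : Finset κ) (f : κ → SF ι) (S : Finset ι) :
    (∑ j ∈ s, f j).c S = ∑ j ∈ s, (f j).c S :=
  map_sum (SF.cl S) f s

theorem BL_alg {ι : Type} [DecidableEq ι] (z : ℂ) (x : SF ι) :
    x * algebraMap ℂ (SF ι) z = z • x := by
  rw [Algebra.smul_def, mul_comm]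

theorem BL_alg_c {ι : Type} [DecidableEq ι] (z : ℂ) :
    (algebraMap ℂ (SF ι) z).c ∅ = z := by
  have h : algebraMap ℂ (SF ι) z = z • (1 : SF ι) := by
    rw [Algebra.smul_def, mul_one]
  rw [h, SF.c_smul, SF.c_one]
  simp

theorem BL_Dw {n : ℕ} {R S : Type} [CommRing R] [CommRing S] (φ : R →+* S) (w : List (Fin n))
    (v : MvPolynomial (Fin n) R) :
    Dw (fun i => pdv i) w (MvPolynomial.map φ v) = MvPolynomial.map φ (Dw (fun i => pdv i) w v) := by
  induction w with
  | nil => rfl
  | cons i w ih =>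
    change pdv i (Dw (fun i => pdv i) w (MvPolynomial.map φ v)) =
      MvPolynomial.map φ (pdv i (Dw (fun i => pdv i) w v))
    rw [ih]
    unfold pdv
    rw [MvPolynomial.pderiv_map]

theorem bv_legs {n r : ℕ} {Φ : OpPhi n} (hΦ : ∀ s, OrdGE r (Φ s)) (h : Fin r → Mx n)
    (v : MvPolynomial (Fin n) ℂ) :
    (E0 Φ (legs h) (MvPolynomial.map (algebraMap ℂ (SF (Fin r))) v)).c Finset.univ
      = BV r Φ v h := by
  have h1 : ∀ (v : JV n) (S : Finset (Fin r)), (J0 (legs h) v).c S =
      ∑ j, J0 (h j) v * (SF.gen j).c S := by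
    intro v S
    rw [j0_legs, BL_csum]
    refine Finset.sum_congr rfl fun j _ => ?_
    rw [BL_alg, SF.c_smul]
  rw [bv_top hΦ (legs h) (by
    intro v
    rw [h1]
    apply Finset.sum_eq_zero
    intro j _
    have : (SF.gen j : SF (Fin r)).c ∅ = 0 := by
      change (if (∅ : Finset (Fin r)) = {j} then (1 : ℂ) else 0) = 0
      rw [if_neg]
      exact (Finset.singleton_ne_empty j).symm
    rw [this, mul_zero])]
  unfold BV
  have h2 : (fun (j : Fin r) (v : JV n) => (J0 (legs h) v).c {j}) = fun i => J0 (h i) := by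
    funext j v
    rw [h1, Finset.sum_eq_single j]
    · change J0 (h j) v * (if ({j} : Finset (Fin r)) = {j} then (1 : ℂ) else 0) = _
      simp
    · intro b _ hb
      change J0 (h b) v * (if ({j} : Finset (Fin r)) = {b} then (1 : ℂ) else 0) = _
      rw [if_neg, mul_zero]
      rw [Finset.singleton_inj]
      exact fun h => hb h.symm
    · intro hj
      exact absurd (Finset.mem_univ j) hj
  rw [h2]
  have h3 : ∀ s : Multiset (Fin n), (J0s (MvPolynomial.map (algebraMap ℂ (SF (Fin r))) v) s).c ∅ =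
      J0s v s := by
    intro s
    unfold J0s
    have h4 := BL_Dw (algebraMap ℂ (SF (Fin r))) s.toList v
    change (MvPolynomial.constantCoeff (Dw (fun i => pdv i) s.toList
      (MvPolynomial.map (algebraMap ℂ (SF (Fin r))) v))).c ∅ = _
    rw [h4, MvPolynomial.constantCoeff_map, BL_alg_c]
  simp only [h3]

end Z_bv_legs

alias bv_legs := Z_bv_legs.bv_legs

end CInv
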