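import Pool.Agent.Helper767.Gjms.Defs
import Pool.Agent.Helper771.CInv.P_polar_multilin

set_option linter.all false

open scoped BigOperators

namespace CInv

namespace Z_bv_linear

private theorem bvl_Dw_add {n : ℕ} (w : List (Fin n)) (p q : MvPolynomial (Fin n) ℂ) :
    Dw pdv w (p + q) = Dw pdv w p + Dw pdv w q := by
  induction w with
  | nil => rfl
  | cons i w ih => simp only [Dw, ih, pdv, map_add]

private theorem bvl_Dw_smul {n : ℕ} (w : List (Fin n)) (z : ℂ) (p : MvPolynomial (Fin n) ℂ) :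
    Dw pdv w (z • p) = z • Dw pdv w p := by
  induction w with
  | nil => rfl
  | cons i w ih => simp only [Dw, ih, pdv, Derivation.map_smul]

private noncomputable def bvl_L (n : ℕ) : Mx n →ₗ[ℂ] (JV n → ℂ) where
  toFun H := J0 H
  map_add' H H' := by
    funext v
    simp only [J0, Pi.add_apply, bvl_Dw_add, map_add]
  map_smul' z H := by
    funext v
    simp only [J0, Pi.smul_apply, bvl_Dw_smul, RingHom.id_apply, MvPolynomial.constantCoeff_smul]

private noncomputable def bvl_J (n : ℕ) (s : Multiset (Fin n)) : MvPolynomial (Fin n) ℂ →ₗ[ℂ] ℂ where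
  toFun v := J0s v s
  map_add' v v' := by
    simp only [J0s, bvl_Dw_add, map_add]
  map_smul' z v := by
    simp only [J0s, bvl_Dw_smul, RingHom.id_apply, MvPolynomial.constantCoeff_smul]

theorem bv_linear {n : ℕ} (r : ℕ) (Φ : OpPhi n) :
    ∃ B : MvPolynomial (Fin n) ℂ →ₗ[ℂ] MultilinearMap ℂ (fun _ : Fin r => Mx n) ℂ,
      ∀ v h, B v h = BV r Φ v h := by
  choose B0 hB0 using fun s => polar_multilin r (MvPolynomial.map (algebraMap ℝ ℂ) (Φ s))
  refine ⟨∑ s ∈ Φ.support, (bvl_J n s).smulRight ((B0 s).compLinearMap (fun _ => bvl_L n)), ?_⟩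
  intro v h
  rw [LinearMap.sum_apply, MultilinearMap.sum_apply, BV, Finsupp.sum]
  refine Finset.sum_congr rfl fun s _ => ?_
  rw [LinearMap.smulRight_apply, MultilinearMap.smul_apply, MultilinearMap.compLinearMap_apply, hB0,
    smul_eq_mul, mul_comm]
  rfl

end Z_bv_linear

alias bv_linear := Z_bv_linear.bv_linear

end CInv
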