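import Pool.Agent.Helper767.Gjms.Defs
import Pool.Agent.Helper771.CInv.P_gi_symm
import Pool.Agent.Helper771.CInv.P_cc_chr
import Pool.Agent.Helper771.CInv.P_metric_compat
import Pool.Agent.Helper771.CInv.P_cc_metric

set_option linter.all false

open scoped BigOperators

namespace CInv

namespace Z_cc_lap

theorem cl324_zero {n : ℕ} {B : Type} [CommRing B] [Algebra ℝ B] {D' : Fin n → B → B}
    (hD' : IsDer D') (s : Fin n) : D' s 0 = 0 := by
  have := hD'.add s 0 0
  simpa using this

theorem cl324_sum {n : ℕ} {B : Type} [CommRing B] [Algebra ℝ B] {D' : Fin n → B → B}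
    (hD' : IsDer D') (s : Fin n) {ι : Type} (S : Finset ι) (f : ι → B) :
    D' s (∑ i ∈ S, f i) = ∑ i ∈ S, D' s (f i) := by
  classical
  induction S using Finset.induction_on with
  | empty => simp [cl324_zero hD']
  | insert a S ha ih => rw [Finset.sum_insert ha, Finset.sum_insert ha, hD'.add, ih]

theorem cl324_pair {n : ℕ} {B : Type} [CommRing B] {J K : Fin n → Fin n → B}
    (kj : ∀ i j, ∑ k, K i k * J k j = if i = j then 1 else 0) (f : Fin n → Fin n → B)
    (a b : Fin n) :
    ∑ x, ∑ y, (∑ c, ∑ d, K c x * K d y * f c d) * (J x a * J y b) = f a b := by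
  have h1 : ∀ x y, (∑ c, ∑ d, K c x * K d y * f c d) * (J x a * J y b) =
      ∑ c, ∑ d, (K c x * J x a) * (K d y * J y b) * f c d := by
    intro x y
    rw [Finset.sum_mul]
    refine Finset.sum_congr rfl fun c _ => ?_
    rw [Finset.sum_mul]
    refine Finset.sum_congr rfl fun d _ => ?_
    ring
  simp only [h1]
  calc ∑ x, ∑ y, ∑ c, ∑ d, (K c x * J x a) * (K d y * J y b) * f c d
      = ∑ x, ∑ c, ∑ y, ∑ d, (K c x * J x a) * (K d y * J y b) * f c d :=
        Finset.sum_congr rfl fun x _ => Finset.sum_comm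
    _ = ∑ c, ∑ x, ∑ y, ∑ d, (K c x * J x a) * (K d y * J y b) * f c d := Finset.sum_comm
    _ = ∑ c, ∑ x, ∑ d, ∑ y, (K c x * J x a) * (K d y * J y b) * f c d :=
        Finset.sum_congr rfl fun c _ => Finset.sum_congr rfl fun x _ => Finset.sum_comm
    _ = ∑ c, ∑ d, ∑ x, ∑ y, (K c x * J x a) * (K d y * J y b) * f c d :=
        Finset.sum_congr rfl fun c _ => Finset.sum_comm
    _ = ∑ c, ∑ d, ((if c = a then 1 else 0) * (if d = b then 1 else 0)) * f c d := by
        refine Finset.sum_congr rfl fun c _ => Finset.sum_congr rfl fun d _ => ?_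
        rw [← kj c a, ← kj d b, Finset.sum_mul_sum, Finset.sum_mul]
        refine Finset.sum_congr rfl fun x _ => ?_
        rw [Finset.sum_mul]
    _ = f a b := by
        rw [Finset.sum_eq_single a, Finset.sum_eq_single b]
        · simp
        · intro d _ hd
          simp [hd]
        · intro h
          exact absurd (Finset.mem_univ b) h
        · intro c _ hc
          simp [hc]
        · intro h
          exact absurd (Finset.mem_univ a) h

theorem cl324_hess {n : ℕ} {A B : Type} [CommRing A] [Algebra ℝ A] [CommRing B] [Algebra ℝ B]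
    {D : Fin n → A → A} {D' : Fin n → B → B} (hD : IsDer D) (hD' : IsDer D')
    {φ : A →+* B} {J K : Fin n → Fin n → B}
    (hc : CoordChange D D' φ J K) {g gi : Fin n → Fin n → A} (h : IsMetric g gi) (F : A)
    (i j : Fin n) :
    D' i (D' j (φ F)) - ∑ k, chr D' (pull φ J g) (pullInv φ K gi) k i j * D' k (φ F)
      = ∑ a, ∑ b, (J i a * J j b) * φ (D a (D b F) - ∑ c, chr D g gi c a b * D c F) := by
  have hA : D' i (D' j (φ F)) = (∑ b, D' i (J j b) * φ (D b F))
      + ∑ a, ∑ b, (J i a * J j b) * φ (D a (D b F)) := by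
    rw [hc.der, cl324_sum hD']
    have e1 : ∀ b, D' i (J j b * φ (D b F)) = D' i (J j b) * φ (D b F)
        + ∑ a, (J i a * J j b) * φ (D a (D b F)) := by
      intro b
      rw [hD'.mul, hc.der, Finset.mul_sum]
      congr 1
      refine Finset.sum_congr rfl fun a _ => ?_
      ring
    rw [Finset.sum_congr rfl fun b _ => e1 b, Finset.sum_add_distrib]
    congr 1
    exact Finset.sum_comm
  have hB : ∑ k, chr D' (pull φ J g) (pullInv φ K gi) k i j * D' k (φ F)
      = (∑ a, ∑ b, ∑ c, (J i a * J j b) * φ (chr D g gi c a b * D c F))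
        + ∑ b, D' i (J j b) * φ (D b F) := by
    have e1 : ∀ k, chr D' (pull φ J g) (pullInv φ K gi) k i j * D' k (φ F)
        = ∑ c, chr D' (pull φ J g) (pullInv φ K gi) k i j * J k c * φ (D c F) := by
      intro k
      rw [hc.der, Finset.mul_sum]
      refine Finset.sum_congr rfl fun c _ => ?_
      ring
    rw [Finset.sum_congr rfl fun k _ => e1 k, Finset.sum_comm]
    have e2 : ∀ c, ∑ k, chr D' (pull φ J g) (pullInv φ K gi) k i j * J k c * φ (D c F)
        = (∑ a, ∑ b, (J i a * J j b) * φ (chr D g gi c a b * D c F))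
          + D' i (J j c) * φ (D c F) := by
      intro c
      rw [← Finset.sum_mul, cc_chr hD hD' hc h i j c, add_mul, Finset.sum_mul]
      congr 1
      refine Finset.sum_congr rfl fun a _ => ?_
      rw [Finset.sum_mul]
      refine Finset.sum_congr rfl fun b _ => ?_
      rw [map_mul]
      ring
    rw [Finset.sum_congr rfl fun c _ => e2 c, Finset.sum_add_distrib]
    congr 1
    rw [Finset.sum_comm]
    refine Finset.sum_congr rfl fun a _ => ?_
    exact Finset.sum_comm
  have hC : ∑ a, ∑ b, (J i a * J j b) * φ (D a (D b F) - ∑ c, chr D g gi c a b * D c F)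
      = (∑ a, ∑ b, (J i a * J j b) * φ (D a (D b F)))
        - ∑ a, ∑ b, ∑ c, (J i a * J j b) * φ (chr D g gi c a b * D c F) := by
    rw [← Finset.sum_sub_distrib]
    refine Finset.sum_congr rfl fun a _ => ?_
    rw [← Finset.sum_sub_distrib]
    refine Finset.sum_congr rfl fun b _ => ?_
    rw [map_sub, map_sum, mul_sub, Finset.mul_sum]
  rw [hA, hB, hC]
  ring

theorem cc_lap {n : ℕ} {A B : Type} [CommRing A] [Algebra ℝ A] [CommRing B] [Algebra ℝ B]
    {D : Fin n → A → A} {D' : Fin n → B → B} (hD : IsDer D) (hD' : IsDer D')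
    {φ : A →+* B} {J K : Fin n → Fin n → B}
    (hc : CoordChange D D' φ J K) {g gi : Fin n → Fin n → A} (h : IsMetric g gi) (F : A) :
    lap D' (pull φ J g) (pullInv φ K gi) (φ F) = φ (lap D g gi F) := by
  unfold lap
  simp only [cl324_hess hD hD' hc h F]
  have e1 : ∀ i j, pullInv φ K gi i j *
      ∑ a, ∑ b, (J i a * J j b) * φ (D a (D b F) - ∑ c, chr D g gi c a b * D c F)
      = ∑ a, ∑ b, ((∑ c, ∑ d, K c i * K d j * φ (gi c d)) * (J i a * J j b))
          * φ (D a (D b F) - ∑ c, chr D g gi c a b * D c F) := by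
    intro i j
    unfold pullInv
    rw [Finset.mul_sum]
    refine Finset.sum_congr rfl fun a _ => ?_
    rw [Finset.mul_sum]
    refine Finset.sum_congr rfl fun b _ => ?_
    exact (mul_assoc _ _ _).symm
  simp only [e1]
  rw [map_sum]
  calc ∑ i, ∑ j, ∑ a, ∑ b, ((∑ c, ∑ d, K c i * K d j * φ (gi c d)) * (J i a * J j b))
          * φ (D a (D b F) - ∑ c, chr D g gi c a b * D c F)
      = ∑ i, ∑ a, ∑ j, ∑ b, ((∑ c, ∑ d, K c i * K d j * φ (gi c d)) * (J i a * J j b))
          * φ (D a (D b F) - ∑ c, chr D g gi c a b * D c F) :=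
        Finset.sum_congr rfl fun x _ => Finset.sum_comm
    _ = ∑ a, ∑ i, ∑ j, ∑ b, ((∑ c, ∑ d, K c i * K d j * φ (gi c d)) * (J i a * J j b))
          * φ (D a (D b F) - ∑ c, chr D g gi c a b * D c F) := Finset.sum_comm
    _ = ∑ a, ∑ i, ∑ b, ∑ j, ((∑ c, ∑ d, K c i * K d j * φ (gi c d)) * (J i a * J j b))
          * φ (D a (D b F) - ∑ c, chr D g gi c a b * D c F) :=
        Finset.sum_congr rfl fun c _ => Finset.sum_congr rfl fun x _ => Finset.sum_comm
    _ = ∑ a, ∑ b, ∑ i, ∑ j, ((∑ c, ∑ d, K c i * K d j * φ (gi c d)) * (J i a * J j b))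
          * φ (D a (D b F) - ∑ c, chr D g gi c a b * D c F) :=
        Finset.sum_congr rfl fun c _ => Finset.sum_comm
    _ = ∑ a, φ (∑ b, gi a b * (D a (D b F) - ∑ c, chr D g gi c a b * D c F)) := by
        refine Finset.sum_congr rfl fun a _ => ?_
        rw [map_sum]
        refine Finset.sum_congr rfl fun b _ => ?_
        have e2 : ∀ i, ∑ j, ((∑ c, ∑ d, K c i * K d j * φ (gi c d)) * (J i a * J j b))
            * φ (D a (D b F) - ∑ c, chr D g gi c a b * D c F)
            = (∑ j, ((∑ c, ∑ d, K c i * K d j * φ (gi c d)) * (J i a * J j b)))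
            * φ (D a (D b F) - ∑ c, chr D g gi c a b * D c F) := fun i => by
          rw [Finset.sum_mul]
        rw [Finset.sum_congr rfl fun i _ => e2 i, ← Finset.sum_mul,
          cl324_pair hc.kj (fun c d => φ (gi c d)) a b, map_mul]

end Z_cc_lap

alias cc_lap := Z_cc_lap.cc_lap

end CInv
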