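import Pool.Agent.Helper767.Gjms.Defs2

set_option linter.all false

open scoped BigOperators

namespace CInv

namespace Z_ps_cc

theorem ps_cc_C {n : ℕ} {B : Type} [CommRing B] [Algebra ℝ B] {D' : Fin n → B → B}
    (hD' : IsDer D') (i : Fin n) (x : B) :
    cw (D' i) (PowerSeries.C x) = PowerSeries.C (D' i x) := by
  have h0 : D' i 0 = 0 := by
    have := hD'.smul i 0 0
    simpa using this
  ext k
  rw [cw, PowerSeries.coeff_mk, PowerSeries.coeff_C, PowerSeries.coeff_C]
  split_ifs
  · rfl
  · exact h0

theorem ps_cc_smul {B : Type} [CommRing B] [Algebra ℝ B] (r : ℝ) (p : PowerSeries B) (k : ℕ) :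
    PowerSeries.coeff k (r • p) = r • PowerSeries.coeff k p := rfl

theorem ps_cc {n : ℕ} {A B : Type} [CommRing A] [Algebra ℝ A] [CommRing B] [Algebra ℝ B]
    {D : Fin n → A → A} {D' : Fin n → B → B} (hD : IsDer D) (hD' : IsDer D')
    {φ : A →+* B} {J K : Fin n → Fin n → B} (hc : CoordChange D D' φ J K) :
    CoordChange (fun i => cw (D i)) (fun i => cw (D' i)) (PowerSeries.map φ)
      (fun i j => PowerSeries.C (J i j)) (fun i j => PowerSeries.C (K i j)) ∧
    (∀ p, PowerSeries.derivativeFun (PowerSeries.map φ p)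
      = PowerSeries.map φ (PowerSeries.derivativeFun p)) := by
  refine ⟨⟨?_, ?_, ?_, ?_, ?_⟩, ?_⟩
  · intro r a
    ext k
    rw [PowerSeries.coeff_map, ps_cc_smul, ps_cc_smul, PowerSeries.coeff_map, hc.smul]
  · intro i j
    have h := hc.jk i j
    calc ∑ k, PowerSeries.C (J i k) * PowerSeries.C (K k j)
        = PowerSeries.C (∑ k, J i k * K k j) := by simp only [map_sum, map_mul]
      _ = _ := by
        rw [h]
        split_ifs <;> simp
  · intro i j
    have h := hc.kj i j
    calc ∑ k, PowerSeries.C (K i k) * PowerSeries.C (J k j)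
        = PowerSeries.C (∑ k, K i k * J k j) := by simp only [map_sum, map_mul]
      _ = _ := by
        rw [h]
        split_ifs <;> simp
  · intro i p
    ext k
    simp only [cw, PowerSeries.coeff_mk, PowerSeries.coeff_map, map_sum,
      PowerSeries.coeff_C_mul, hc.der]
  · intro i j k
    show cw (D' i) (PowerSeries.C (J j k)) = cw (D' j) (PowerSeries.C (J i k))
    rw [ps_cc_C hD', ps_cc_C hD', hc.closed]
  · intro p
    ext k
    have h1 : ∀ {R : Type} [CommRing R] (f : PowerSeries R) (k : ℕ),
        PowerSeries.coeff k (PowerSeries.derivativeFun f) =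
          PowerSeries.coeff (k + 1) f * (k + 1) := by
      intro R _ f k
      exact PowerSeries.coeff_derivative f k
    rw [h1, PowerSeries.coeff_map, PowerSeries.coeff_map, h1, map_mul, map_add, map_natCast,
      map_one]

end Z_ps_cc

alias ps_cc := Z_ps_cc.ps_cc

end CInv
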