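import Pool.Agent.Helper767.Gjms.Defs2
import Pool.Agent.Helper771.CInv.P_gi_symm
import Pool.Agent.Helper771.CInv.P_cc_chr
import Pool.Agent.Helper771.CInv.P_cc_ric
import Pool.Agent.Helper771.CInv.P_metric_compat
import Pool.Agent.Helper771.CInv.P_cc_metric
import Pool.Agent.Helper767.Gjms.P_ext_isder
import Pool.Agent.Helper767.Gjms.P_cc_lap
import Pool.Agent.Helper767.Gjms.P_ps_cc

set_option linter.all false

open scoped BigOperators

namespace CInv

namespace Z_cc_fgX

section HelperFG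

variable {n : ℕ} {A B : Type} [CommRing A] [Algebra ℝ A] [CommRing B] [Algebra ℝ B]

theorem hfg_pull_add (φ : A →+* B) (J : Fin n → Fin n → B) (T S : Fin n → Fin n → A)
    (i j : Fin n) : pull φ J (fun a b => T a b + S a b) i j = pull φ J T i j + pull φ J S i j := by
  unfold pull
  simp only [map_add, mul_add, Finset.sum_add_distrib]

theorem hfg_pull_sub (φ : A →+* B) (J : Fin n → Fin n → B) (T S : Fin n → Fin n → A)
    (i j : Fin n) : pull φ J (fun a b => T a b - S a b) i j = pull φ J T i j - pull φ J S i j := by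
  unfold pull
  simp only [map_sub, mul_sub, Finset.sum_sub_distrib]

theorem hfg_pull_cmul (φ : A →+* B) (J : Fin n → Fin n → B) (c : A) (T : Fin n → Fin n → A)
    (i j : Fin n) : pull φ J (fun a b => c * T a b) i j = φ c * pull φ J T i j := by
  unfold pull
  simp only [map_mul, Finset.mul_sum]
  refine Finset.sum_congr rfl fun a _ => Finset.sum_congr rfl fun b _ => ?_
  ring

theorem hfg_pull_smul (φ : A →+* B) (hs : ∀ (r : ℝ) a, φ (r • a) = r • φ a)
    (J : Fin n → Fin n → B) (r : ℝ) (T : Fin n → Fin n → A)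
    (i j : Fin n) : pull φ J (fun a b => r • T a b) i j = r • pull φ J T i j := by
  unfold pull
  simp only [hs, Finset.smul_sum, mul_smul_comm]

/-- entrywise image -/
def hfgM (φ : A →+* B) (T : Fin n → Fin n → A) : Matrix (Fin n) (Fin n) B :=
  Matrix.of fun i j => φ (T i j)

theorem hfg_pull_eq (φ : A →+* B) (J : Fin n → Fin n → B) (T : Fin n → Fin n → A) :
    Matrix.of (pull φ J T) = Matrix.of J * hfgM φ T * (Matrix.of J).transpose := by
  ext i j
  rw [Matrix.mul_apply]
  simp only [Matrix.mul_apply, Matrix.transpose_apply, Matrix.of_apply, hfgM, pull, Finset.sum_mul]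
  rw [Finset.sum_comm]
  refine Finset.sum_congr rfl fun a _ => Finset.sum_congr rfl fun b _ => ?_
  ring

theorem hfg_pullInv_eq (φ : A →+* B) (K : Fin n → Fin n → B) (T : Fin n → Fin n → A) :
    Matrix.of (pullInv φ K T) = (Matrix.of K).transpose * hfgM φ T * Matrix.of K := by
  ext i j
  rw [Matrix.mul_apply]
  simp only [Matrix.mul_apply, Matrix.transpose_apply, Matrix.of_apply, hfgM, pullInv,
    Finset.sum_mul]
  rw [Finset.sum_comm]
  refine Finset.sum_congr rfl fun a _ => Finset.sum_congr rfl fun b _ => ?_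
  ring

theorem hfg_KJ {J K : Fin n → Fin n → B}
    (kj : ∀ i j, ∑ k, K i k * J k j = if i = j then 1 else 0) :
    Matrix.of K * Matrix.of J = (1 : Matrix (Fin n) (Fin n) B) := by
  ext i j
  rw [Matrix.mul_apply, Matrix.one_apply]
  exact kj i j

theorem hfg_quad (φ : A →+* B) {J K : Fin n → Fin n → B}
    (kj : ∀ i j, ∑ k, K i k * J k j = if i = j then 1 else 0)
    (gi T S : Fin n → Fin n → A) (i j : Fin n) :
    ∑ k, ∑ l, pullInv φ K gi k l * pull φ J T i k * pull φ J S j l
      = pull φ J (fun a b => ∑ c, ∑ d, gi c d * T a c * S b d) i j := by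
  have hKJ := hfg_KJ kj
  have hKJ' : (Matrix.of J).transpose * (Matrix.of K).transpose
      = (1 : Matrix (Fin n) (Fin n) B) := by
    rw [← Matrix.transpose_mul, hKJ, Matrix.transpose_one]
  have e1 : ∑ k, ∑ l, pullInv φ K gi k l * pull φ J T i k * pull φ J S j l
      = (Matrix.of (pull φ J T) * Matrix.of (pullInv φ K gi) *
        (Matrix.of (pull φ J S)).transpose) i j := by
    rw [Matrix.mul_apply]
    simp only [Matrix.mul_apply, Matrix.transpose_apply, Matrix.of_apply, Finset.sum_mul]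
    rw [Finset.sum_comm]
    refine Finset.sum_congr rfl fun a _ => Finset.sum_congr rfl fun b _ => ?_
    ring
  have e2 : hfgM φ (fun a b => ∑ c, ∑ d, gi c d * T a c * S b d)
      = hfgM φ T * hfgM φ gi * (hfgM φ S).transpose := by
    ext a b
    rw [Matrix.mul_apply]
    simp only [Matrix.mul_apply, Matrix.transpose_apply, Matrix.of_apply, hfgM, map_sum, map_mul,
      Finset.sum_mul]
    rw [Finset.sum_comm]
    refine Finset.sum_congr rfl fun a _ => Finset.sum_congr rfl fun b _ => ?_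
    ring
  have e3 : pull φ J (fun a b => ∑ c, ∑ d, gi c d * T a c * S b d) i j
      = (Matrix.of J * (hfgM φ T * hfgM φ gi * (hfgM φ S).transpose) *
          (Matrix.of J).transpose) i j := by
    rw [← e2, ← hfg_pull_eq]; rfl
  rw [e1, e3, hfg_pull_eq, hfg_pull_eq, hfg_pullInv_eq]
  refine congrFun (congrFun ?_ i) j
  have e4 : (Matrix.of J * hfgM φ S * (Matrix.of J).transpose).transpose =
      Matrix.of J * (hfgM φ S).transpose * (Matrix.of J).transpose := by
    rw [Matrix.transpose_mul, Matrix.transpose_mul, Matrix.transpose_transpose, Matrix.mul_assoc]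
  rw [e4]
  calc Matrix.of J * hfgM φ T * (Matrix.of J).transpose *
        ((Matrix.of K).transpose * hfgM φ gi * Matrix.of K) *
        (Matrix.of J * (hfgM φ S).transpose * (Matrix.of J).transpose)
      = Matrix.of J * hfgM φ T * ((Matrix.of J).transpose * (Matrix.of K).transpose) *
        hfgM φ gi * (Matrix.of K * Matrix.of J) * (hfgM φ S).transpose *
          (Matrix.of J).transpose := by
        simp only [Matrix.mul_assoc]
    _ = Matrix.of J * (hfgM φ T * hfgM φ gi * (hfgM φ S).transpose) *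
          (Matrix.of J).transpose := by
        rw [hKJ, hKJ', Matrix.mul_one, Matrix.mul_one]
        simp only [Matrix.mul_assoc]

theorem hfg_trace (φ : A →+* B) {J K : Fin n → Fin n → B}
    (kj : ∀ i j, ∑ k, K i k * J k j = if i = j then 1 else 0)
    (gi T : Fin n → Fin n → A) :
    ∑ k, ∑ l, pullInv φ K gi k l * pull φ J T k l = φ (∑ k, ∑ l, gi k l * T k l) := by
  have hKJ := hfg_KJ kj
  have hKJ' : (Matrix.of J).transpose * (Matrix.of K).transpose
      = (1 : Matrix (Fin n) (Fin n) B) := by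
    rw [← Matrix.transpose_mul, hKJ, Matrix.transpose_one]
  have e0 : ∀ M N : Matrix (Fin n) (Fin n) B, ∑ k, ∑ l, M k l * N k l
      = Matrix.trace (M.transpose * N) := by
    intro M N
    unfold Matrix.trace
    simp only [Matrix.diag_apply, Matrix.mul_apply, Matrix.transpose_apply]
    rw [Finset.sum_comm]
  have e1 : ∑ k, ∑ l, pullInv φ K gi k l * pull φ J T k l
      = Matrix.trace ((Matrix.of (pullInv φ K gi)).transpose * Matrix.of (pull φ J T)) :=
    e0 (Matrix.of (pullInv φ K gi)) (Matrix.of (pull φ J T))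
  have e2 : φ (∑ k, ∑ l, gi k l * T k l)
      = Matrix.trace ((hfgM φ gi).transpose * hfgM φ T) := by
    rw [← e0]
    simp only [map_sum, map_mul]
    rfl
  rw [e1, e2, hfg_pull_eq, hfg_pullInv_eq]
  have e4 : ((Matrix.of K).transpose * hfgM φ gi * Matrix.of K).transpose =
      (Matrix.of K).transpose * (hfgM φ gi).transpose * Matrix.of K := by
    rw [Matrix.transpose_mul, Matrix.transpose_mul, Matrix.transpose_transpose, Matrix.mul_assoc]
  rw [e4]
  have e5 : (Matrix.of K).transpose * (hfgM φ gi).transpose * Matrix.of K *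
        (Matrix.of J * hfgM φ T * (Matrix.of J).transpose)
      = (Matrix.of K).transpose * ((hfgM φ gi).transpose * hfgM φ T *
          (Matrix.of J).transpose) := by
    calc (Matrix.of K).transpose * (hfgM φ gi).transpose * Matrix.of K *
        (Matrix.of J * hfgM φ T * (Matrix.of J).transpose)
        = (Matrix.of K).transpose * ((hfgM φ gi).transpose * (Matrix.of K * Matrix.of J) *
          hfgM φ T * (Matrix.of J).transpose) := by
          simp only [Matrix.mul_assoc]
      _ = _ := by rw [hKJ, Matrix.mul_one]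
  rw [e5, Matrix.trace_mul_comm, Matrix.mul_assoc, hKJ', Matrix.mul_one]

variable {D : Fin n → A → A} {D' : Fin n → B → B} {φ : A →+* B} {J K : Fin n → Fin n → B}
  {Dr : A → A} {Dr' : B → B}

theorem hfg_Dr_pull (hA : ∀ a b, Dr' (a + b) = Dr' a + Dr' b)
    (hM : ∀ a b, Dr' (a * b) = Dr' a * b + a * Dr' b) (hφ : ∀ p, Dr' (φ p) = φ (Dr p))
    (hJ : ∀ i j, Dr' (J i j) = 0) (T : Fin n → Fin n → A) (i j : Fin n) :
    Dr' (pull φ J T i j) = pull φ J (fun a b => Dr (T a b)) i j := by
  have hsum : ∀ (s : Finset (Fin n)) (f : Fin n → B), Dr' (∑ x ∈ s, f x) = ∑ x ∈ s, Dr' (f x) := by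
    intro s f
    exact map_sum (AddMonoidHom.mk' Dr' hA) f s
  unfold pull
  rw [hsum]
  refine Finset.sum_congr rfl fun a _ => ?_
  rw [hsum]
  refine Finset.sum_congr rfl fun b _ => ?_
  rw [hM, hM, hJ, hJ, hφ]
  ring

theorem hfg_fg (hD : IsDer D) (hD' : IsDer D') (hc : CoordChange D D' φ J K)
    {g gi : Fin n → Fin n → A} (h : IsMetric g gi)
    (hA : ∀ a b, Dr' (a + b) = Dr' a + Dr' b)
    (hM : ∀ a b, Dr' (a * b) = Dr' a * b + a * Dr' b) (hφ : ∀ p, Dr' (φ p) = φ (Dr p))
    (hJ : ∀ i j, Dr' (J i j) = 0) (ρ : A) (i j : Fin n) :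
    fg Dr' D' (φ ρ) (pull φ J g) (pullInv φ K gi) i j
      = pull φ J (fun a b => fg Dr D ρ g gi a b) i j := by
  have hP := fun (T : Fin n → Fin n → A) (i j : Fin n) => hfg_Dr_pull hA hM hφ hJ T i j
  have ht : trp Dr' (pull φ J g) (pullInv φ K gi) = φ (trp Dr g gi) := by
    unfold trp
    simp only [hP]
    exact hfg_trace φ hc.kj gi (fun a b => Dr (g a b))
  have hq : ∑ k, ∑ l, pullInv φ K gi k l * Dr' (pull φ J g i k) * Dr' (pull φ J g j l)
      = pull φ J (fun a b => ∑ c, ∑ d, gi c d * Dr (g a c) * Dr (g b d)) i j := by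
    simp only [hP]
    exact hfg_quad φ hc.kj gi (fun a b => Dr (g a b)) (fun a b => Dr (g a b)) i j
  have hr : ric D' (pull φ J g) (pullInv φ K gi) i j = pull φ J (fun a b => ric D g gi a b) i j :=
    cc_ric hD hD' hc h i j
  unfold fg
  rw [hq, ht, hr, hP, hP]
  rw [hfg_pull_add, hfg_pull_sub, hfg_pull_sub, hfg_pull_add, hfg_pull_sub]
  rw [hfg_pull_cmul, hfg_pull_cmul, hfg_pull_smul φ hc.smul, hfg_pull_smul φ hc.smul,
    hfg_pull_smul φ hc.smul, hfg_pull_cmul, hfg_pull_cmul, map_mul]

theorem hfg_Lw (hD : IsDer D) (hD' : IsDer D') (hc : CoordChange D D' φ J K)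
    {g gi : Fin n → Fin n → A} (h : IsMetric g gi)
    (hA : ∀ a b, Dr' (a + b) = Dr' a + Dr' b)
    (hM : ∀ a b, Dr' (a * b) = Dr' a * b + a * Dr' b) (hφ : ∀ p, Dr' (φ p) = φ (Dr p))
    (hJ : ∀ i j, Dr' (J i j) = 0) (ρ : A) (w : ℝ) (u : A) :
    Lw Dr' D' (φ ρ) (pull φ J g) (pullInv φ K gi) w (φ u) = φ (Lw Dr D ρ g gi w u) := by
  have hP := fun (T : Fin n → Fin n → A) (i j : Fin n) => hfg_Dr_pull hA hM hφ hJ T i j
  have ht : trp Dr' (pull φ J g) (pullInv φ K gi) = φ (trp Dr g gi) := by
    unfold trp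
    simp only [hP]
    exact hfg_trace φ hc.kj gi (fun a b => Dr (g a b))
  unfold Lw
  rw [ht, hφ, hφ, cc_lap hD hD' hc h]
  simp only [map_add, map_sub, map_mul, hc.smul, map_ofNat]

theorem hfg_gjL (hD : IsDer D) (hD' : IsDer D') (hc : CoordChange D D' φ J K)
    {g gi : Fin n → Fin n → A} (h : IsMetric g gi)
    (hA : ∀ a b, Dr' (a + b) = Dr' a + Dr' b)
    (hM : ∀ a b, Dr' (a * b) = Dr' a * b + a * Dr' b) (hφ : ∀ p, Dr' (φ p) = φ (Dr p))
    (hJ : ∀ i j, Dr' (J i j) = 0) (ρ : A) (k : ℕ) (u : A) :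
    gjL Dr' D' (φ ρ) (pull φ J g) (pullInv φ K gi) k (φ u) = φ (gjL Dr D ρ g gi k u) := by
  induction k with
  | zero => rfl
  | succ k ih =>
    change Lw Dr' D' (φ ρ) (pull φ J g) (pullInv φ K gi) (-(2 * (k : ℝ)))
      (gjL Dr' D' (φ ρ) (pull φ J g) (pullInv φ K gi) k (φ u)) =
      φ (Lw Dr D ρ g gi (-(2 * (k : ℝ))) (gjL Dr D ρ g gi k u))
    rw [ih, hfg_Lw hD hD' hc h hA hM hφ hJ]

theorem hfg_cwder (hD : IsDer D) : IsDer (fun i => cw (D i)) := by
  have h := ext_isder hD
  exact ⟨fun i a b => h.add i.succ a b, fun i a b => h.mul i.succ a b,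
    fun i r a => h.smul i.succ r a, fun i j a => h.comm i.succ j.succ a⟩

end HelperFG

theorem cc_fgX {n : ℕ} {A B : Type} [CommRing A] [Algebra ℝ A] [CommRing B] [Algebra ℝ B]
    {D : Fin n → A → A} {D' : Fin n → B → B} (hD : IsDer D) (hD' : IsDer D')
    {φ : A →+* B} {J K : Fin n → Fin n → B} (hc : CoordChange D D' φ J K)
    {G Gi : Fin n → Fin n → PowerSeries A} (h : IsMetric G Gi) :
    (∀ i j, fgX D' (pull (PowerSeries.map φ) (fun i j => PowerSeries.C (J i j)) G)
        (pullInv (PowerSeries.map φ) (fun i j => PowerSeries.C (K i j)) Gi) i j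
      = ∑ a, ∑ b, PowerSeries.C (J i a) * PowerSeries.C (J j b)
          * PowerSeries.map φ (fgX D G Gi a b)) ∧
    ∀ (k : ℕ) (u : PowerSeries A),
      gjX D' (pull (PowerSeries.map φ) (fun i j => PowerSeries.C (J i j)) G)
        (pullInv (PowerSeries.map φ) (fun i j => PowerSeries.C (K i j)) Gi) k
          (PowerSeries.map φ u)
      = PowerSeries.map φ (gjX D G Gi k u) := by
  obtain ⟨hcc, hder⟩ := ps_cc hD hD' hc
  have hcD := hfg_cwder hD
  have hcD' := hfg_cwder hD'
  have hE := ext_isder hD'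
  have hA : ∀ a b : PowerSeries B, PowerSeries.derivativeFun (a + b)
      = PowerSeries.derivativeFun a + PowerSeries.derivativeFun b := fun a b => hE.add 0 a b
  have hM : ∀ a b : PowerSeries B, PowerSeries.derivativeFun (a * b)
      = PowerSeries.derivativeFun a * b + a * PowerSeries.derivativeFun b :=
    fun a b => hE.mul 0 a b
  have hJ : ∀ i j, PowerSeries.derivativeFun (PowerSeries.C (J i j)) = 0 :=
    fun i j => by exact PowerSeries.derivative_C
  constructor
  · intro i j
    have e := hfg_fg (Dr := PowerSeries.derivativeFun) (Dr' := PowerSeries.derivativeFun)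
      hcD hcD' hcc h hA hM hder hJ (PowerSeries.X) i j
    rw [PowerSeries.map_X] at e
    exact e
  · intro k u
    have e := hfg_gjL (Dr := PowerSeries.derivativeFun) (Dr' := PowerSeries.derivativeFun)
      hcD hcD' hcc h hA hM hder hJ (PowerSeries.X) k u
    rw [PowerSeries.map_X] at e
    exact e

end Z_cc_fgX

alias cc_fgX := Z_cc_fgX.cc_fgX

end CInv
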