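import Pool.Agent.Helper767.Gjms.Defs2
import Pool.Agent.Helper771.CInv.P_gi_symm
import Pool.Agent.Helper771.CInv.P_cc_metric
import Pool.Agent.Helper767.Gjms.P_pinv_spec
import Pool.Agent.Helper767.Gjms.P_inv_unique
import Pool.Agent.Helper767.Gjms.P_fgG_spec
import Pool.Agent.Helper767.Gjms.P_ps_cc
import Pool.Agent.Helper767.Gjms.P_cc_fgX

set_option linter.all false

open scoped BigOperators

namespace CInv

namespace Z_cc_fgG

/-- the trace is invariant -/
theorem ccg_trace {n : ℕ} {A B : Type} [CommRing A] [CommRing B]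
    (φ : A →+* B) (J K : Fin n → Fin n → B)
    (kj : ∀ i j, ∑ k, K i k * J k j = if i = j then 1 else 0) (gi E : Fin n → Fin n → A) :
    ∑ k, ∑ l, pullInv φ K gi k l * pull φ J E k l = φ (∑ k, ∑ l, gi k l * E k l) := by
  classical
  have hP : (Matrix.of (pullInv φ K gi) : Matrix (Fin n) (Fin n) B) =
      (Matrix.of K).transpose * (Matrix.of fun a b => φ (gi a b)) * Matrix.of K := by
    ext i j
    rw [Matrix.mul_apply]
    simp only [Matrix.mul_apply, Matrix.of_apply, Matrix.transpose_apply, pullInv,
      Finset.sum_mul]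
    rw [Finset.sum_comm]
    refine Finset.sum_congr rfl fun a _ => Finset.sum_congr rfl fun b _ => by ring
  have hQ : (Matrix.of (pull φ J E) : Matrix (Fin n) (Fin n) B) =
      Matrix.of J * (Matrix.of fun a b => φ (E a b)) * (Matrix.of J).transpose := by
    ext i j
    rw [Matrix.mul_apply]
    simp only [Matrix.mul_apply, Matrix.of_apply, Matrix.transpose_apply, pull,
      Finset.sum_mul]
    rw [Finset.sum_comm]
    refine Finset.sum_congr rfl fun a _ => Finset.sum_congr rfl fun b _ => by ring
  have hKJ : (Matrix.of K : Matrix (Fin n) (Fin n) B) * Matrix.of J = 1 := by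
    ext i j
    rw [Matrix.mul_apply, Matrix.one_apply]
    exact kj i j
  have htr : ∀ P Q : Matrix (Fin n) (Fin n) B, (P * Q.transpose).trace = ∑ k, ∑ l, P k l * Q k l := by
    intro P Q
    simp [Matrix.trace, Matrix.mul_apply]
  have h1 : ∑ k, ∑ l, pullInv φ K gi k l * pull φ J E k l =
      ((Matrix.of (pullInv φ K gi)) * (Matrix.of (pull φ J E)).transpose).trace :=
    (htr _ _).symm
  rw [h1, hP, hQ]
  have h2 : (Matrix.of K).transpose * (Matrix.of fun a b => φ (gi a b)) * Matrix.of K *
      (Matrix.of J * (Matrix.of fun a b => φ (E a b)) * (Matrix.of J).transpose).transpose =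
      (Matrix.of K).transpose * ((Matrix.of fun a b => φ (gi a b)) *
        (Matrix.of fun a b => φ (E a b)).transpose * (Matrix.of J).transpose) := by
    rw [Matrix.transpose_mul, Matrix.transpose_mul, Matrix.transpose_transpose]
    calc (Matrix.of K).transpose * (Matrix.of fun a b => φ (gi a b)) * Matrix.of K *
      (Matrix.of J * ((Matrix.of fun a b => φ (E a b)).transpose * (Matrix.of J).transpose))
        = (Matrix.of K).transpose * (Matrix.of fun a b => φ (gi a b)) *
          (Matrix.of K * Matrix.of J) *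
            ((Matrix.of fun a b => φ (E a b)).transpose * (Matrix.of J).transpose) := by
          simp only [Matrix.mul_assoc]
      _ = _ := by
          rw [hKJ, Matrix.mul_one]
          simp only [Matrix.mul_assoc]
  rw [h2, Matrix.trace_mul_comm, Matrix.mul_assoc, ← Matrix.transpose_mul, hKJ,
    Matrix.transpose_one, Matrix.mul_one, htr]
  simp only [Matrix.of_apply, map_sum, map_mul]

theorem ccg_lin {n : ℕ} {A B : Type} [CommRing A] [Algebra ℝ A] [CommRing B] [Algebra ℝ B]
    (φ : A →+* B) (hs : ∀ (r : ℝ) a, φ (r • a) = r • φ a) (J : Fin n → Fin n → B)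
    (c1 c2 : ℝ) (E g : Fin n → Fin n → A) (t : A) (i j : Fin n) :
    pull φ J (fun a b => c1 • (-(E a b) - c2 • (t * g a b))) i j =
      c1 • (-(pull φ J E i j) - c2 • (φ t * pull φ J g i j)) := by
  unfold pull
  simp only [hs, map_sub, map_neg, map_mul]
  simp only [Algebra.smul_def, Finset.mul_sum, ← Finset.sum_neg_distrib, ← Finset.sum_sub_distrib]
  refine Finset.sum_congr rfl fun a _ => Finset.sum_congr rfl fun b _ => by ring

theorem ccg_coeff {n : ℕ} {A B : Type} [CommRing A] [CommRing B]
    (φ : A →+* B) (J : Fin n → Fin n → B) (q : Fin n → Fin n → PowerSeries A) (m : ℕ)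
    (i j : Fin n) :
    PowerSeries.coeff m (∑ a, ∑ b, PowerSeries.C (J i a) * PowerSeries.C (J j b)
          * PowerSeries.map φ (q a b)) = pull φ J (fun a b => PowerSeries.coeff m (q a b)) i j := by
  unfold pull
  simp only [map_sum]
  refine Finset.sum_congr rfl fun a _ => Finset.sum_congr rfl fun b _ => ?_
  rw [← map_mul, PowerSeries.coeff_C_mul, PowerSeries.coeff_map]

theorem cc_fgG {n : ℕ} {A B : Type} [CommRing A] [Algebra ℝ A] [CommRing B] [Algebra ℝ B]
    {D : Fin n → A → A} {D' : Fin n → B → B} (hD : IsDer D) (hD' : IsDer D')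
    {φ : A →+* B} {J K : Fin n → Fin n → B} (hc : CoordChange D D' φ J K)
    {g gi : Fin n → Fin n → A} (h : IsMetric g gi) (m : ℕ) (hm : 2 * m + 2 ≤ n) :
    fgG D' (pull φ J g) (pullInv φ K gi) m
      = pull (PowerSeries.map φ) (fun i j => PowerSeries.C (J i j)) (fgG D g gi m) ∧
    pinv (pullInv φ K gi) (fgG D' (pull φ J g) (pullInv φ K gi) m)
      = pullInv (PowerSeries.map φ) (fun i j => PowerSeries.C (K i j))
          (pinv gi (fgG D g gi m)) := by
  have h' : IsMetric (pull φ J g) (pullInv φ K gi) := cc_metric hc h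
  -- the second part follows from the first
  have key : ∀ m, 2 * m + 2 ≤ n → fgG D' (pull φ J g) (pullInv φ K gi) m
      = pull (PowerSeries.map φ) (fun i j => PowerSeries.C (J i j)) (fgG D g gi m) →
    pinv (pullInv φ K gi) (fgG D' (pull φ J g) (pullInv φ K gi) m)
      = pullInv (PowerSeries.map φ) (fun i j => PowerSeries.C (K i j))
          (pinv gi (fgG D g gi m)) := by
    intro m hm h1
    obtain ⟨s1, s2, -⟩ := fgG_spec hD' h' m hm
    obtain ⟨t1, t2, -⟩ := fgG_spec hD h m hm
    have m1 := pinv_spec h' s2 s1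
    have m2 := pinv_spec h t2 t1
    have m3 := cc_metric (ps_cc hD hD' hc).1 m2
    rw [← h1] at m3
    exact inv_unique m1 m3
  induction m with
  | zero =>
    have h1 : fgG D' (pull φ J g) (pullInv φ K gi) 0
      = pull (PowerSeries.map φ) (fun i j => PowerSeries.C (J i j)) (fgG D g gi 0) := by
      funext i j
      simp only [fgG, pull, PowerSeries.map_C, map_sum, map_mul]
    exact ⟨h1, key 0 hm h1⟩
  | succ m ih =>
    obtain ⟨i1, i2⟩ := ih (by omega)
    obtain ⟨t1, t2, -⟩ := fgG_spec hD h m (by omega)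
    have m2 := pinv_spec h t2 t1
    have hX := (cc_fgX hD hD' hc m2).1
    have hstep : ∀ i j, fgStep D' (pull φ J g) (pullInv φ K gi)
        (fgG D' (pull φ J g) (pullInv φ K gi) m) m i j =
        pull φ J (fgStep D g gi (fgG D g gi m) m) i j := by
      intro i j
      have hE : ∀ i j, PowerSeries.coeff m (fgX D' (fgG D' (pull φ J g) (pullInv φ K gi) m)
          (pinv (pullInv φ K gi) (fgG D' (pull φ J g) (pullInv φ K gi) m)) i j) =
          pull φ J (fun a b => PowerSeries.coeff m
            (fgX D (fgG D g gi m) (pinv gi (fgG D g gi m)) a b)) i j := by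
        intro i j
        rw [i2, i1, hX i j, ccg_coeff]
      have e1 : fgStep D g gi (fgG D g gi m) m = fun a b =>
          (1 / (((m : ℝ) + 1) * ((m : ℝ) + 1 - (n : ℝ) / 2))) •
          (-(PowerSeries.coeff m (fgX D (fgG D g gi m) (pinv gi (fgG D g gi m)) a b))
          - (1 / (2 * ((m : ℝ) + 1 - (n : ℝ)))) •
          ((∑ k, ∑ l, gi k l * PowerSeries.coeff m
            (fgX D (fgG D g gi m) (pinv gi (fgG D g gi m)) k l)) * g a b)) := rfl
      rw [e1, ccg_lin φ hc.smul J]
      unfold fgStep
      simp only [hE]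
      rw [ccg_trace φ J K hc.kj]
    have h1 : fgG D' (pull φ J g) (pullInv φ K gi) (m + 1)
      = pull (PowerSeries.map φ) (fun i j => PowerSeries.C (J i j)) (fgG D g gi (m + 1)) := by
      funext i j
      have e2 : fgG D' (pull φ J g) (pullInv φ K gi) (m + 1) i j =
          fgG D' (pull φ J g) (pullInv φ K gi) m i j + PowerSeries.X ^ (m + 1) *
          PowerSeries.C (fgStep D' (pull φ J g) (pullInv φ K gi)
            (fgG D' (pull φ J g) (pullInv φ K gi) m) m i j) := rfl
      have e3 : ∀ a b, fgG D g gi (m + 1) a b = fgG D g gi m a b + PowerSeries.X ^ (m + 1) *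
          PowerSeries.C (fgStep D g gi (fgG D g gi m) m a b) := fun _ _ => rfl
      rw [e2, hstep, i1]
      unfold pull
      simp only [e3, map_add, map_mul, map_pow, PowerSeries.map_X, PowerSeries.map_C, map_sum,
        mul_add, Finset.sum_add_distrib, Finset.mul_sum]
      congr 1
      refine Finset.sum_congr rfl fun a _ => Finset.sum_congr rfl fun b _ => by ring
    exact ⟨h1, key (m + 1) hm h1⟩

end Z_cc_fgG

alias cc_fgG := Z_cc_fgG.cc_fgG

end CInv
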