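import Pool.Agent.Helper767.Gjms.Defs2
import Pool.Agent.Helper767.Gjms.P_pinv_spec
import Pool.Agent.Helper767.Gjms.P_fgG_spec
import Pool.Agent.Helper767.Gjms.P_ps_cc
import Pool.Agent.Helper767.Gjms.P_cc_fgX
import Pool.Agent.Helper767.Gjms.P_cc_fgG

set_option linter.all false

open scoped BigOperators

namespace CInv

namespace Z_cc_gjms

theorem cc_gjms {n : ℕ} (hn : 4 ≤ n) {A B : Type} [CommRing A] [Algebra ℝ A] [CommRing B]
    [Algebra ℝ B]
    {D : Fin n → A → A} {D' : Fin n → B → B} (hD : IsDer D) (hD' : IsDer D')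
    {φ : A →+* B} {J K : Fin n → Fin n → B} (hc : CoordChange D D' φ J K)
    {g gi : Fin n → Fin n → A} (h : IsMetric g gi) (F : A) :
    gjms D' (pull φ J g) (pullInv φ K gi) (φ F) = φ (gjms D g gi F) := by
  have hm : 2 * (n / 2 - 1) + 2 ≤ n := by omega
  obtain ⟨h1, h2⟩ := cc_fgG hD hD' hc h (n / 2 - 1) hm
  obtain ⟨hs, h0, -⟩ := fgG_spec hD h (n / 2 - 1) hm
  have hmet : IsMetric (fgG D g gi (n / 2 - 1)) (pinv gi (fgG D g gi (n / 2 - 1))) :=
    pinv_spec h h0 hs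
  have h3 := (cc_fgX hD hD' hc hmet).2 (n / 2) (PowerSeries.C F)
  have hC : PowerSeries.map φ (PowerSeries.C F) = PowerSeries.C (φ F) := PowerSeries.map_C _ _
  rw [hC] at h3
  unfold gjms
  rw [h2, h1, h3, ← PowerSeries.coeff_zero_eq_constantCoeff_apply,
    ← PowerSeries.coeff_zero_eq_constantCoeff_apply, PowerSeries.coeff_map]

end Z_cc_gjms

alias cc_gjms := Z_cc_gjms.cc_gjms

end CInv
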