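import Pool.Agent.Helper767.Gjms.Defs2

set_option linter.all false

open scoped BigOperators

namespace CInv

namespace Z_cc_inf

theorem cci_zero {n : ℕ} {A : Type} [CommRing A] [Algebra ℝ A] {D : Fin n → A → A}
    (hD : IsDer D) (i : Fin n) : D i 0 = 0 := by
  have h := hD.add i 0 0
  rw [add_zero] at h
  exact left_eq_add.1 h

theorem cci_one {n : ℕ} {A : Type} [CommRing A] [Algebra ℝ A] {D : Fin n → A → A}
    (hD : IsDer D) (i : Fin n) : D i 1 = 0 := by
  have h := hD.mul i 1 1
  rw [mul_one, one_mul, mul_one] at h
  exact left_eq_add.1 h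

theorem cci_sum {n : ℕ} {A : Type} [CommRing A] [Algebra ℝ A] {D : Fin n → A → A}
    (hD : IsDer D) (i : Fin n) (f : Fin n → A) : D i (∑ b, f b) = ∑ b, D i (f b) := by
  let F : A →+ A :=
    { toFun := D i
      map_zero' := cci_zero hD i
      map_add' := hD.add i }
  exact map_sum F f Finset.univ

theorem cci_jk {n : ℕ} {A : Type} [CommRing A] (s : A) (hs : s * s = 0)
    (M : Fin n → Fin n → A) (i j : Fin n) :
    ∑ k, ((if i = k then 1 else 0) + s * M i k) * ((if k = j then 1 else 0) - s * M k j)
      = if i = j then 1 else 0 := by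
  have e : ∀ k, ((if i = k then 1 else 0) + s * M i k) * ((if k = j then 1 else 0) - s * M k j)
      = (if i = k then ((if k = j then 1 else 0) - s * M k j) else 0) +
        (if k = j then s * M i k else 0) := by
    intro k
    split_ifs <;> linear_combination (-(M i k) * (M k j)) * hs
  rw [Finset.sum_congr rfl (fun k _ => e k), Finset.sum_add_distrib, Finset.sum_ite_eq,
    Finset.sum_ite_eq']
  simp

theorem cci_kj {n : ℕ} {A : Type} [CommRing A] (s : A) (hs : s * s = 0)
    (M : Fin n → Fin n → A) (i j : Fin n) :
    ∑ k, ((if i = k then 1 else 0) - s * M i k) * ((if k = j then 1 else 0) + s * M k j)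
      = if i = j then 1 else 0 := by
  have e : ∀ k, ((if i = k then 1 else 0) - s * M i k) * ((if k = j then 1 else 0) + s * M k j)
      = (if i = k then ((if k = j then 1 else 0) + s * M k j) else 0) +
        (if k = j then -(s * M i k) else 0) := by
    intro k
    split_ifs <;> linear_combination (-(M i k) * (M k j)) * hs
  rw [Finset.sum_congr rfl (fun k _ => e k), Finset.sum_add_distrib, Finset.sum_ite_eq,
    Finset.sum_ite_eq']
  simp

theorem cc_inf {n : ℕ} {A : Type} [CommRing A] [Algebra ℝ A] {D : Fin n → A → A}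
    (hD : IsDer D) (s : A) (hs : s * s = 0) (hDs : ∀ i, D i s = 0) (Y : Fin n → A) :
    ∃ φ : A →+* A, (∀ a, φ a = a + s * ∑ b, Y b * D b a) ∧
      CoordChange D D φ (fun i j => (if i = j then 1 else 0) + s * D i (Y j))
        (fun i j => (if i = j then 1 else 0) - s * D i (Y j)) := by
  have hmul : ∀ a b : A, ∑ c, Y c * D c (a * b) = (∑ c, Y c * D c a) * b + a * ∑ c, Y c * D c b := by
    intro a b
    rw [Finset.sum_mul, Finset.mul_sum, ← Finset.sum_add_distrib]
    refine Finset.sum_congr rfl (fun c _ => ?_)
    rw [hD.mul]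
    ring
  let φ : A →+* A :=
    { toFun := fun a => a + s * ∑ b, Y b * D b a
      map_one' := by
        have : ∀ b : Fin n, D b 1 = 0 := cci_one hD
        simp [this]
      map_zero' := by
        have : ∀ b : Fin n, D b 0 = 0 := cci_zero hD
        simp [this]
      map_add' := by
        intro a b
        have : ∑ c, Y c * D c (a + b) = (∑ c, Y c * D c a) + ∑ c, Y c * D c b := by
          rw [← Finset.sum_add_distrib]
          refine Finset.sum_congr rfl (fun c _ => ?_)
          rw [hD.add]
          ring
        rw [this]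
        ring
      map_mul' := by
        intro a b
        rw [hmul]
        linear_combination (-(∑ c, Y c * D c a) * (∑ c, Y c * D c b)) * hs }
  have hφ : ∀ a, φ a = a + s * ∑ b, Y b * D b a := fun a => rfl
  refine ⟨φ, hφ, ?_⟩
  have hDsm : ∀ i (x : A), D i (s * x) = s * D i x := by
    intro i x
    rw [hD.mul, hDs, zero_mul, zero_add]
  constructor
  · intro r a
    rw [hφ, hφ, smul_add]
    congr 1
    rw [← mul_smul_comm]
    congr 1
    rw [Finset.smul_sum]
    refine Finset.sum_congr rfl (fun b _ => ?_)
    rw [hD.smul, mul_smul_comm]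
  · intro i j
    exact cci_jk s hs (fun i j => D i (Y j)) i j
  · intro i j
    exact cci_kj s hs (fun i j => D i (Y j)) i j
  · intro i a
    have h1 : D i (φ a) = D i a + s * (∑ b, D i (Y b) * D b a) + s * ∑ b, Y b * D b (D i a) := by
      rw [hφ, hD.add, hDsm, cci_sum hD, add_assoc, ← mul_add, ← Finset.sum_add_distrib]
      congr 2
      refine Finset.sum_congr rfl (fun b _ => ?_)
      rw [hD.mul, hD.comm i b]
    have h2 : ∀ j, ((if i = j then 1 else 0) + s * D i (Y j)) * φ (D j a)
        = (if i = j then φ (D j a) else 0) + s * (D i (Y j) * D j a) := by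
      intro j
      rw [hφ]
      split_ifs <;> linear_combination (D i (Y j) * ∑ b, Y b * D b (D j a)) * hs
    rw [h1, Finset.sum_congr rfl (fun j _ => h2 j), Finset.sum_add_distrib, Finset.sum_ite_eq,
      ← Finset.mul_sum, hφ]
    simp only [Finset.mem_univ, if_true]
    ring
  · intro i j k
    have h3 : ∀ i j k : Fin n, D i (if j = k then (1 : A) else 0) = 0 := by
      intro i j k
      split_ifs
      · exact cci_one hD i
      · exact cci_zero hD i
    simp only [hD.add, hDsm, h3, zero_add]
    rw [hD.comm]

end Z_cc_inf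

alias cc_inf := Z_cc_inf.cc_inf

end CInv
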