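import Pool.Agent.Helper767.Gjms.Defs
import Pool.Agent.Helper771.CInv.P_cc_covD

set_option linter.all false

open scoped BigOperators

namespace CInv

namespace Z_cc_nablaF

theorem cc_nablaF {n : ℕ} {A B : Type} [CommRing A] [Algebra ℝ A] [CommRing B] [Algebra ℝ B]
    {D : Fin n → A → A} {D' : Fin n → B → B} (hD : IsDer D) (hD' : IsDer D')
    {φ : A →+* B} {J K : Fin n → Fin n → B}
    (hc : CoordChange D D' φ J K) {g gi : Fin n → Fin n → A} (h : IsMetric g gi) (F : A)
    (k : ℕ) (i : Fin k → Fin n) :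
    nablaF D' (pull φ J g) (pullInv φ K gi) (φ F) k i
      = ∑ a : Fin k → Fin n, (∏ p, J (i p) (a p)) * φ (nablaF D g gi F k a) := by
  induction k with
  | zero =>
    rw [Fintype.sum_unique, Fintype.prod_empty, one_mul]
    rfl
  | succ k ih =>
    exact cc_covD hD hD' hc h (nablaF D g gi F k) _ ih i

end Z_cc_nablaF

alias cc_nablaF := Z_cc_nablaF.cc_nablaF

end CInv
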