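import Pool.Agent.Helper767.Gjms.Defs

set_option linter.all false

open scoped BigOperators

namespace CInv

namespace Z_near_flat

theorem nf_contDiff {n : ℕ} (p : MvPolynomial (Fin n) ℝ) :
    ContDiff ℝ (⊤ : ℕ∞) (fun y : Fin n → ℝ => MvPolynomial.eval y p) := by
  induction p using MvPolynomial.induction_on with
  | C a => simp only [MvPolynomial.eval_C]; exact contDiff_const
  | add p q hp hq => simp only [map_add]; exact hp.add hq
  | mul_X p i hp => simp only [map_mul, MvPolynomial.eval_X]; exact hp.mul (contDiff_apply ℝ ℝ i)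

open Matrix in
theorem nf_posDef_near {n : ℕ} (g : (Fin n → ℝ) → Matrix (Fin n) (Fin n) ℝ)
    (hc : ∀ i j, Continuous (fun y => g y i j)) (hs : ∀ y, (g y).IsHermitian)
    (h0 : (g 0).PosDef) : ∀ᶠ y in nhds (0 : Fin n → ℝ), (g y).PosDef := by
  have hcont : Continuous (fun z : (Fin n → ℝ) × (Fin n → ℝ) =>
      star z.2 ⬝ᵥ ((g z.1) *ᵥ z.2)) := by
    simp only [dotProduct, Matrix.mulVec]
    apply continuous_finset_sum
    intro i _
    apply Continuous.mul
    · exact (continuous_star.comp ((continuous_apply i).comp continuous_snd))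
    · apply continuous_finset_sum
      intro j _
      exact ((hc i j).comp continuous_fst).mul ((continuous_apply j).comp continuous_snd)
  have hK : IsCompact (Metric.sphere (0 : Fin n → ℝ) 1) := isCompact_sphere _ _
  have key := hK.eventually_forall_of_forall_eventually (x₀ := (0 : Fin n → ℝ))
    (P := fun y x => 0 < star x ⬝ᵥ ((g y) *ᵥ x)) (by
      intro x hx
      have hx0 : x ≠ 0 := by
        rintro rfl
        simp at hx
      have hpos := h0.dotProduct_mulVec_pos hx0
      exact hcont.continuousAt.eventually (lt_mem_nhds hpos))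
  filter_upwards [key] with y hy
  refine Matrix.PosDef.of_dotProduct_mulVec_pos (hs y) ?_
  intro x hx
  have hnx : 0 < ‖x‖ := norm_pos_iff.mpr hx
  have h1 := hy (‖x‖⁻¹ • x) (by simp [norm_smul, hnx.ne'])
  have h2 : star (‖x‖⁻¹ • x) ⬝ᵥ ((g y) *ᵥ (‖x‖⁻¹ • x)) = ‖x‖⁻¹ ^ 2 * (star x ⬝ᵥ ((g y) *ᵥ x)) := by
    rw [star_smul, Matrix.mulVec_smul, smul_dotProduct, dotProduct_smul]
    simp only [star_trivial, smul_eq_mul]
    ring
  rw [h2] at h1
  have h3 : 0 < ‖x‖⁻¹ ^ 2 := by positivity
  exact (mul_pos_iff_of_pos_left h3).mp h1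

theorem near_flat {n : ℕ} (H : Fin n → Fin n → MvPolynomial (Fin n) ℝ)
    (f : MvPolynomial (Fin n) ℝ)
    (h1 : (Matrix.of (fun i j => MvPolynomial.constantCoeff (met H i j))).PosDef)
    (h2 : 0 < 1 + MvPolynomial.constantCoeff f) :
    ∃ U : Set (Fin n → ℝ), IsOpen U ∧ (0 : Fin n → ℝ) ∈ U ∧
      IsMetricOn U (fun y => Matrix.of (fun i j => MvPolynomial.eval y (met H i j))) ∧
      ∀ y ∈ U, 0 < 1 + MvPolynomial.eval y f := by
  set g : (Fin n → ℝ) → Matrix (Fin n) (Fin n) ℝ :=
    fun y => Matrix.of (fun i j => MvPolynomial.eval y (met H i j)) with hg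
  have hg0 : g 0 = Matrix.of (fun i j => MvPolynomial.constantCoeff (met H i j)) := by
    rw [hg]
    simp only [MvPolynomial.eval_zero]
  have hsymm : ∀ i j, met H i j = met H j i := by
    intro i j
    unfold met flat
    rw [add_comm (H i j)]
    congr 1
    by_cases h : i = j
    · subst h; rfl
    · rw [if_neg h, if_neg (fun e => h e.symm)]
  have hherm : ∀ y, (g y).IsHermitian := by
    intro y
    ext i j
    rw [Matrix.conjTranspose_apply, star_trivial]
    show MvPolynomial.eval y (met H j i) = MvPolynomial.eval y (met H i j)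
    rw [hsymm]
  have hgsm : ∀ i j, ContDiff ℝ (⊤ : ℕ∞) (fun y => g y i j) := fun i j => nf_contDiff (met H i j)
  have hnear := nf_posDef_near g (fun i j => (hgsm i j).continuous) hherm (by rw [hg0]; exact h1)
  have hOm : ContDiff ℝ (⊤ : ℕ∞) (fun y : Fin n → ℝ => 1 + MvPolynomial.eval y f) :=
    contDiff_const.add (nf_contDiff f)
  have hnear2 : ∀ᶠ y in nhds (0 : Fin n → ℝ), 0 < 1 + MvPolynomial.eval y f := by
    have : 0 < 1 + MvPolynomial.eval (0 : Fin n → ℝ) f := by
      rw [MvPolynomial.eval_zero]; exact h2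
    exact hOm.continuous.continuousAt.eventually (lt_mem_nhds this)
  obtain ⟨U, hUsub, hU, h0U⟩ := mem_nhds_iff.mp (hnear.and hnear2)
  exact ⟨U, hU, h0U, ⟨fun i j => (hgsm i j).contDiffOn, fun x hx => (hUsub hx).1⟩,
    fun y hy => (hUsub hy).2⟩

end Z_near_flat

alias near_flat := Z_near_flat.near_flat

end CInv
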