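import Pool.Agent.Helper767.Gjms.Defs

set_option linter.all false

open scoped BigOperators

namespace CInv

namespace Z_pm_of_m

theorem pm_of_m {n : ℕ} {U : Set (Fin n → ℝ)} {g : (Fin n → ℝ) → Matrix (Fin n) (Fin n) ℝ}
    (hg : IsMetricOn U g) : IsPMetricOn U g ∧
      ∀ ω : (Fin n → ℝ) → ℝ, ContDiffOn ℝ (⊤ : ℕ∞) ω U →
        IsMetricOn U (fun y => Real.exp (2 * ω y) • g y) := by
  refine ⟨⟨hg.smooth, fun x hx i j => ?_, fun x hx => (hg.posDef x hx).det_pos.ne'⟩,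
    fun ω hω => ⟨fun i j => ?_, fun x hx => (hg.posDef x hx).smul (Real.exp_pos _)⟩⟩
  · have := (hg.posDef x hx).isHermitian.apply i j
    rw [← this]
    simp
  · have h1 : ContDiffOn ℝ (⊤ : ℕ∞) (fun x => Real.exp (2 * ω x)) U :=
      ContDiffOn.exp (contDiffOn_const.mul hω)
    exact h1.mul (hg.smooth i j)

end Z_pm_of_m

alias pm_of_m := Z_pm_of_m.pm_of_m

end CInv
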