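import Pool.Agent.Helper767.Gjms.Defs

set_option linter.all false

open scoped BigOperators

namespace CInv

namespace Z_poly_jets

theorem pj_contDiff {n : ℕ} (p : MvPolynomial (Fin n) ℝ) :
    ContDiff ℝ (⊤ : ℕ∞) (fun y : Fin n → ℝ => MvPolynomial.eval y p) := by
  induction p using MvPolynomial.induction_on with
  | C a => simp only [MvPolynomial.eval_C]; exact contDiff_const
  | add p q hp hq => simp only [map_add]; exact hp.add hq
  | mul_X p i hp => simp only [map_mul, MvPolynomial.eval_X]; exact hp.mul (contDiff_apply ℝ ℝ i)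

theorem pj_diff {n : ℕ} (p : MvPolynomial (Fin n) ℝ) (x : Fin n → ℝ) :
    DifferentiableAt ℝ (fun y : Fin n → ℝ => MvPolynomial.eval y p) x :=
  ((pj_contDiff p).differentiable (by simp)).differentiableAt

theorem pj_pd_eval {n : ℕ} (i : Fin n) (p : MvPolynomial (Fin n) ℝ) :
    pd i (fun y => MvPolynomial.eval y p) = fun y => MvPolynomial.eval y (pdv i p) := by
  funext x
  unfold pd pdv
  induction p using MvPolynomial.induction_on with
  | C a => simp only [MvPolynomial.eval_C]; simp
  | add p q hp hq =>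
    simp only [map_add]
    rw [fderiv_fun_add (pj_diff p x) (pj_diff q x), ContinuousLinearMap.add_apply, hp, hq]
  | mul_X p j hp =>
    simp only [map_mul, MvPolynomial.eval_X]
    have hj : HasFDerivAt (fun y : Fin n → ℝ => y j)
        (ContinuousLinearMap.proj (R := ℝ) (φ := fun _ : Fin n => ℝ) j) x :=
      (ContinuousLinearMap.proj (R := ℝ) (φ := fun _ : Fin n => ℝ) j).hasFDerivAt
    rw [fderiv_fun_mul (pj_diff p x) hj.differentiableAt, hj.fderiv]
    rw [ContinuousLinearMap.add_apply, ContinuousLinearMap.smul_apply,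
      ContinuousLinearMap.smul_apply, hp, MvPolynomial.pderiv_mul]
    rw [MvPolynomial.pderiv_X]
    simp only [map_add, map_mul, MvPolynomial.eval_X, smul_eq_mul, ContinuousLinearMap.proj_apply]
    by_cases h : i = j
    · subst h; simp; ring
    · have h' : j ≠ i := fun e => h e.symm
      simp [Pi.single_apply, h, h']; ring

theorem pj_Dw_eval {n : ℕ} (w : List (Fin n)) (p : MvPolynomial (Fin n) ℝ) :
    Dw pd w (fun y => MvPolynomial.eval y p) = fun y => MvPolynomial.eval y (Dw pdv w p) := by
  induction w with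
  | nil => rfl
  | cons i w ih =>
    show pd i (Dw pd w _) = _
    rw [ih, pj_pd_eval]
    rfl

theorem poly_jets {n : ℕ} (p : MvPolynomial (Fin n) ℝ) :
    ContDiff ℝ (⊤ : ℕ∞) (fun y : Fin n → ℝ => MvPolynomial.eval y p) ∧
    (∀ (w : List (Fin n)) (y : Fin n → ℝ),
      Dw pd w (fun y => MvPolynomial.eval y p) y = MvPolynomial.eval y (Dw pdv w p)) ∧
    (∀ s : Multiset (Fin n), Ds pd s (fun y => MvPolynomial.eval y p) 0 = J0s p s) := by
  refine ⟨pj_contDiff p, fun w y => ?_, fun s => ?_⟩
  · rw [pj_Dw_eval]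
  · unfold Ds
    rw [pj_Dw_eval]
    show MvPolynomial.eval 0 (Dw pdv s.toList p) = J0s p s
    rw [MvPolynomial.eval_zero]
    rfl

end Z_poly_jets

alias poly_jets := Z_poly_jets.poly_jets

end CInv
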