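import Pool.Agent.Helper767.Gjms.Defs
import Pool.Agent.Helper767.Gjms.P_near_flat
import Pool.Agent.Helper767.Gjms.P_poly_jets
import Pool.Agent.Helper767.Gjms.P_pm_of_m

set_option linter.all false

open scoped BigOperators

namespace CInv

namespace Z_conf_near_op

theorem cno_Dw_congr {n : ℕ} {U : Set (Fin n → ℝ)} (hU : IsOpen U) {F G : (Fin n → ℝ) → ℝ}
    (h : ∀ x ∈ U, F x = G x) (w : List (Fin n)) : ∀ x ∈ U, Dw pd w F x = Dw pd w G x := by
  induction w with
  | nil => exact h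
  | cons i w ih =>
    intro x hx
    show fderiv ℝ (Dw pd w F) x (Pi.single i 1) = fderiv ℝ (Dw pd w G) x (Pi.single i 1)
    have : Dw pd w F =ᶠ[nhds x] Dw pd w G := by
      filter_upwards [hU.mem_nhds hx] with y hy using ih y hy
    rw [Filter.EventuallyEq.fderiv_eq (𝕜 := ℝ) this]

theorem cno_pdv_lin {n : ℕ} (w : List (Fin n)) (r : ℝ) (p q : MvPolynomial (Fin n) ℝ) :
    Dw pdv w (r • (p + q)) = r • (Dw pdv w p + Dw pdv w q) := by
  induction w with
  | nil => rfl
  | cons i w ih =>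
    show pdv i (Dw pdv w (r • (p + q))) = r • (pdv i (Dw pdv w p) + pdv i (Dw pdv w q))
    rw [ih]
    unfold pdv
    rw [(MvPolynomial.pderiv i).map_smul, map_add]

theorem conf_near_op {n : ℕ} (hn : Even n) {I : NatOp n} (hI : RealConf I)
    {N M : ℕ} {Φ : OpPhi n} (hΦ : GoodOp n I N Φ) (hM : M + n / 2 = n * N)
    (H : Fin n → Fin n → MvPolynomial (Fin n) ℝ) (f F : MvPolynomial (Fin n) ℝ)
    (h1 : (Matrix.of (fun i j => MvPolynomial.constantCoeff (met H i j))).PosDef)
    (h2 : 0 < 1 + MvPolynomial.constantCoeff f) :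
    E0 Φ (fun i j => (1 + f) * met H i j - flat _ i j) F
      = (1 + MvPolynomial.constantCoeff f) ^ M * E0 Φ H F := by
  obtain ⟨U, hU, h0U, hgU, hpos⟩ := near_flat H f h1 h2
  set g : (Fin n → ℝ) → Matrix (Fin n) (Fin n) ℝ :=
    fun y => Matrix.of (fun i j => MvPolynomial.eval y (met H i j)) with hg
  obtain ⟨hgP, hgc⟩ := pm_of_m hgU
  have hOm : ContDiff ℝ (⊤ : ℕ∞) (fun y : Fin n → ℝ => 1 + MvPolynomial.eval y f) :=
    contDiff_const.add (poly_jets f).1
  set om : (Fin n → ℝ) → ℝ := fun y => (1 / 2) * Real.log (1 + MvPolynomial.eval y f) with hom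
  have homU : ContDiffOn ℝ (⊤ : ℕ∞) om U := by
    apply ContDiffOn.mul contDiffOn_const
    exact hOm.contDiffOn.log (fun x hx => (hpos x hx).ne')
  have hexp : ∀ y ∈ U, Real.exp (2 * om y) = 1 + MvPolynomial.eval y f := by
    intro y hy
    rw [hom]
    have : 2 * (1 / 2 * Real.log (1 + MvPolynomial.eval y f))
      = Real.log (1 + MvPolynomial.eval y f) := by ring
    simp only [this]
    exact Real.exp_log (hpos y hy)
  set g2 : (Fin n → ℝ) → Matrix (Fin n) (Fin n) ℝ := fun y => Real.exp (2 * om y) • g y with hg2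
  have hg2U : IsMetricOn U g2 := hgc om homU
  have hg2P : IsPMetricOn U g2 := (pm_of_m hg2U).1
  have hFc : ContDiffOn ℝ (⊤ : ℕ∞) (fun y : Fin n → ℝ => MvPolynomial.eval y F) U :=
    (poly_jets F).1.contDiffOn
  have e1 := hΦ.fn U hU g hgP (fun y => MvPolynomial.eval y F) hFc 0 h0U
  have e2 := hΦ.fn U hU g2 hg2P (fun y => MvPolynomial.eval y F) hFc 0 h0U
  have e3 := hI U hU g hgU om homU (fun y => MvPolynomial.eval y F) hFc 0 h0U
  -- jets
  have j1 : (fun v : JV n => (Ds pd v.2.2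
      (fun y => g y v.1 v.2.1 - if v.1 = v.2.1 then 1 else 0) 0 : ℝ))
      = fun v : JV n => (1 / 2 : ℝ) • (J0 H v + J0 H (v.2.1, v.1, v.2.2)) := by
    funext v
    have hv : (fun y => g y v.1 v.2.1 - if v.1 = v.2.1 then 1 else 0)
        = fun y => MvPolynomial.eval y ((1 / 2 : ℝ) • (H v.1 v.2.1 + H v.2.1 v.1)) := by
      funext y
      show MvPolynomial.eval y (met H v.1 v.2.1) - _ = _
      unfold met flat
      rw [map_add]
      by_cases h : v.1 = v.2.1
      · simp [h]
      · simp [h]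
    rw [hv, (poly_jets _).2.2]
    unfold J0s
    rw [cno_pdv_lin]
    unfold J0
    rw [MvPolynomial.smul_eq_C_mul, map_mul, map_add, MvPolynomial.constantCoeff_C, smul_eq_mul]
  have j2 : (fun v : JV n => (Ds pd v.2.2
      (fun y => g2 y v.1 v.2.1 - if v.1 = v.2.1 then 1 else 0) 0 : ℝ))
      = J0 (fun i j => (1 + f) * met H i j - flat _ i j) := by
    funext v
    have hv : ∀ y ∈ U, (g2 y v.1 v.2.1 - if v.1 = v.2.1 then 1 else 0)
        = MvPolynomial.eval y ((1 + f) * met H v.1 v.2.1 - flat _ v.1 v.2.1) := by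
      intro y hy
      have : g2 y v.1 v.2.1 = (1 + MvPolynomial.eval y f) * MvPolynomial.eval y (met H v.1 v.2.1) := by
        rw [← hexp y hy]
        rfl
      rw [this, map_sub, map_mul, map_add, map_one]
      unfold flat
      by_cases h : v.1 = v.2.1
      · simp [h]
      · simp [h]
    have e := (poly_jets ((1 + f) * met H v.1 v.2.1 - flat _ v.1 v.2.1)).2.2 v.2.2
    unfold Ds at e ⊢
    rw [cno_Dw_congr hU hv v.2.2.toList 0 h0U, e]
    rfl
  have js : ∀ s : Multiset (Fin n),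
      Ds pd s (fun y : Fin n → ℝ => MvPolynomial.eval y F) 0 = J0s F s := (poly_jets F).2.2
  simp only [j1, js] at e1
  simp only [j2, js] at e2
  have e1' : E0 Φ H F = (g 0).det ^ N * I.op ((Fin n → ℝ) → ℝ) pd (fun i j y => g y i j)
            (fun i j y => (g y)⁻¹ i j) (fun y => MvPolynomial.eval y F) 0 := by
    rw [← e1]
    unfold E0 Finsupp.sum
    refine Finset.sum_congr rfl fun s _ => ?_
    have hs := hΦ.sym s ℝ (J0 H)
    show MvPolynomial.aeval (J0 H) (Φ s) * J0s F s = _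
    rw [← hs]
  have e2' : E0 Φ (fun i j => (1 + f) * met H i j - flat _ i j) F
      = (g2 0).det ^ N * I.op ((Fin n → ℝ) → ℝ) pd (fun i j y => g2 y i j)
            (fun i j y => (g2 y)⁻¹ i j) (fun y => MvPolynomial.eval y F) 0 := e2
  have e3' : I.op ((Fin n → ℝ) → ℝ) pd (fun i j y => g2 y i j)
            (fun i j y => (g2 y)⁻¹ i j) (fun y => MvPolynomial.eval y F) 0
      = Real.exp (-(n : ℝ) * om 0) * I.op ((Fin n → ℝ) → ℝ) pd (fun i j y => g y i j)
            (fun i j y => (g y)⁻¹ i j) (fun y => MvPolynomial.eval y F) 0 := e3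
  rw [e2', e1', e3']
  have hdet : (g2 0).det = (1 + MvPolynomial.constantCoeff f) ^ n * (g 0).det := by
    rw [hg2]
    simp only
    rw [Matrix.det_smul, hexp 0 h0U, MvPolynomial.eval_zero, Fintype.card_fin]
  have hexpn : Real.exp (-(n : ℝ) * om 0) * (1 + MvPolynomial.constantCoeff f) ^ (n / 2) = 1 := by
    obtain ⟨k, hk⟩ := hn
    have hk2 : n / 2 = k := by omega
    rw [hk2, hom]
    simp only [MvPolynomial.eval_zero]
    have hk' : (n : ℝ) = k + k := by rw [hk]; push_cast; ring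
    have : -(n : ℝ) * (1 / 2 * Real.log (1 + MvPolynomial.constantCoeff f))
        = - (k * Real.log (1 + MvPolynomial.constantCoeff f)) := by rw [hk']; ring
    rw [this, Real.exp_neg, Real.exp_nat_mul, Real.exp_log h2]
    exact inv_mul_cancel₀ (pow_ne_zero _ h2.ne')
  rw [hdet, mul_pow, ← pow_mul, ← hM, pow_add]
  generalize I.op ((Fin n → ℝ) → ℝ) pd (fun i j y => g y i j)
            (fun i j y => (g y)⁻¹ i j) (fun y => MvPolynomial.eval y F) 0 = V
  linear_combination ((1 + MvPolynomial.constantCoeff f) ^ M * (g 0).det ^ N * V) * hexpn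

end Z_conf_near_op

alias conf_near_op := Z_conf_near_op.conf_near_op

end CInv
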