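import Pool.Agent.Helper767.Gjms.Defs2
import Pool.Agent.Helper771.CInv.P_gi_symm
import Pool.Agent.Helper771.CInv.P_cc_ric
import Pool.Agent.Helper771.CInv.P_cc_metric
import Pool.Agent.Helper767.Gjms.P_cc_lap
import Pool.Agent.Helper767.Gjms.P_amb_metric
import Pool.Agent.Helper767.Gjms.P_amb_dti
import Pool.Agent.Helper767.Gjms.P_amb_ric
import Pool.Agent.Helper767.Gjms.P_amb_lap_pow
import Pool.Agent.Helper767.Gjms.P_rho_span
import Pool.Agent.Helper767.Gjms.P_amb_small
import Pool.Agent.Helper767.Gjms.P_gjL_ext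
import Pool.Agent.Helper767.Gjms.P_cc_inf
import Pool.Agent.Helper767.Gjms.P_amb_pull
import Pool.Agent.Helper767.Gjms.P_inv_unique

set_option linter.all false

open scoped BigOperators

namespace CInv

namespace Z_conf_var

theorem cvmc_zero {n : ℕ} {A : Type} [CommRing A] [Algebra ℝ A] {D : Fin n → A → A}
    (hD : IsDer D) (i : Fin n) : D i 0 = 0 := by
  have := hD.smul i 0 0
  rwa [zero_smul, zero_smul] at this

theorem cvmc_one {n : ℕ} {A : Type} [CommRing A] [Algebra ℝ A] {D : Fin n → A → A}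
    (hD : IsDer D) (i : Fin n) : D i 1 = 0 := by
  have := hD.mul i 1 1
  rw [mul_one, mul_one, one_mul] at this
  exact left_eq_add.1 this

theorem cvmc_sum {n : ℕ} {A : Type} [CommRing A] [Algebra ℝ A] {D : Fin n → A → A}
    (hD : IsDer D) (i : Fin n) (f : Fin n → A) : D i (∑ k, f k) = ∑ k, D i (f k) := by
  let φ : A →+ A :=
    { toFun := D i
      map_zero' := cvmc_zero hD i
      map_add' := hD.add i }
  exact map_sum φ f Finset.univ

theorem cvmc_chr {n : ℕ} {A : Type} [CommRing A] [Algebra ℝ A] (D : Fin n → A → A)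
    (g gi : Fin n → Fin n → A) (k i j : Fin n) : chr D g gi k i j =
      ∑ l, gi k l * ((1 / 2 : ℝ) • (D i (g j l) + D j (g i l) - D l (g i j))) := by
  unfold chr
  rw [Finset.smul_sum]
  exact Finset.sum_congr rfl fun l _ => (mul_smul_comm _ _ _).symm

theorem cvmc_low {n : ℕ} {A : Type} [CommRing A] [Algebra ℝ A] (D : Fin n → A → A)
    {g gi : Fin n → Fin n → A} (h : IsMetric g gi) (i j k : Fin n) :
    ∑ m, chr D g gi m i j * g m k =
      (1 / 2 : ℝ) • (D i (g j k) + D j (g i k) - D k (g i j)) := by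
  obtain ⟨F, hF⟩ : ∃ F : Fin n → A, F = fun l =>
    (1 / 2 : ℝ) • (D i (g j l) + D j (g i l) - D l (g i j)) := ⟨_, rfl⟩
  have h1 : ∀ m, chr D g gi m i j * g m k = ∑ l, g k m * gi m l * F l := by
    intro m
    rw [cvmc_chr, Finset.sum_mul]
    refine Finset.sum_congr rfl fun l _ => ?_
    rw [hF, h.symm m k]
    show _ = g k m * gi m l * ((1 / 2 : ℝ) • (D i (g j l) + D j (g i l) - D l (g i j)))
    rw [mul_comm (g k m * gi m l), mul_comm (g k m) (gi m l), ← mul_assoc,
      mul_comm (gi m l) ((1 / 2 : ℝ) • _)]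
  rw [Finset.sum_congr rfl (fun m _ => h1 m), Finset.sum_comm]
  have h2 : ∀ l, ∑ m, g k m * gi m l * F l = if k = l then F l else 0 := by
    intro l
    rw [← Finset.sum_mul, h.inv k l]
    split_ifs
    · rw [one_mul]
    · rw [zero_mul]
  rw [Finset.sum_congr rfl (fun l _ => h2 l), Finset.sum_ite_eq]
  simp [hF]

theorem cvmc_two {n : ℕ} {A : Type} [CommRing A] [Algebra ℝ A] {D : Fin n → A → A}
    {g gi : Fin n → Fin n → A} (h : IsMetric g gi) (i j k : Fin n) :
    D i (g j k) = (∑ m, chr D g gi m i j * g m k) + ∑ m, chr D g gi m i k * g j m := by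
  have h1 : ∑ m, chr D g gi m i k * g j m = ∑ m, chr D g gi m i k * g m j :=
    Finset.sum_congr rfl fun m _ => by rw [h.symm j m]
  rw [h1, cvmc_low D h, cvmc_low D h, ← smul_add, h.symm k j]
  have h2 : D i (g j k) + D j (g i k) - D k (g i j) + (D i (g j k) + D k (g i j) - D j (g i k)) =
      (2 : ℝ) • D i (g j k) := by
    rw [two_smul]; ring
  rw [h2, smul_smul]
  norm_num

theorem cvmc {n : ℕ} {A : Type} [CommRing A] [Algebra ℝ A] {D : Fin n → A → A}
    (hD : IsDer D) {g gi : Fin n → Fin n → A} (h : IsMetric g gi) :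
    (∀ k i j, chr D g gi k i j = chr D g gi k j i) ∧
    (∀ i j k, D i (g j k) = (∑ m, chr D g gi m i j * g m k) + ∑ m, chr D g gi m i k * g j m) ∧
    (∀ i j k, D i (gi j k) = - (∑ m, chr D g gi j i m * gi m k) - ∑ m, chr D g gi k i m * gi j m) := by
  refine ⟨?_, fun i j k => cvmc_two h i j k, ?_⟩
  · intro k i j
    unfold chr
    congr 1
    refine Finset.sum_congr rfl fun l _ => ?_
    rw [h.symm i j]
    ring
  · intro i j k
    obtain ⟨G, hG⟩ : ∃ G : Matrix (Fin n) (Fin n) A, G = Matrix.of g := ⟨_, rfl⟩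
    obtain ⟨Gi, hGi⟩ : ∃ G : Matrix (Fin n) (Fin n) A, G = Matrix.of gi := ⟨_, rfl⟩
    obtain ⟨DG, hDG⟩ : ∃ G : Matrix (Fin n) (Fin n) A, G = Matrix.of fun a b => D i (g a b) :=
      ⟨_, rfl⟩
    obtain ⟨DGi, hDGi⟩ : ∃ G : Matrix (Fin n) (Fin n) A, G = Matrix.of fun a b => D i (gi a b) :=
      ⟨_, rfl⟩
    obtain ⟨C, hC⟩ : ∃ C : Matrix (Fin n) (Fin n) A, C = Matrix.of fun a b => chr D g gi a i b :=
      ⟨_, rfl⟩
    have e1 : G * Gi = 1 := by
      ext a b
      rw [Matrix.mul_apply, hG, hGi, Matrix.one_apply]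
      exact h.inv a b
    have e2 : Gi * G = 1 := by
      ext a b
      rw [Matrix.mul_apply, hG, hGi, Matrix.one_apply]
      exact (gi_symm h).2 a b
    have e3 : DG = C.transpose * G + G * C := by
      ext a b
      rw [Matrix.add_apply, Matrix.mul_apply, Matrix.mul_apply, hDG, hG, hC]
      show D i (g a b) = (∑ m, chr D g gi m i a * g m b) + ∑ m, g a m * chr D g gi m i b
      rw [cvmc_two (D := D) h i a b]
      congr 1
      exact Finset.sum_congr rfl fun m _ => mul_comm _ _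
    have e4 : DG * Gi + G * DGi = 0 := by
      ext a b
      rw [Matrix.add_apply, Matrix.mul_apply, Matrix.mul_apply, hDG, hG, hGi, hDGi,
        ← Finset.sum_add_distrib]
      show ∑ m, (D i (g a m) * gi m b + g a m * D i (gi m b)) = 0
      rw [Finset.sum_congr rfl (fun m _ => (hD.mul i (g a m) (gi m b)).symm),
        ← cvmc_sum hD i, h.inv]
      split_ifs
      · exact cvmc_one hD i
      · exact cvmc_zero hD i
    have e5 : DGi = -(C * Gi) - Gi * C.transpose := by
      have e6 : Gi * (DG * Gi + G * DGi) = Gi * DG * Gi + DGi := by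
        rw [mul_add, ← mul_assoc, ← mul_assoc, e2, one_mul]
      rw [e4, mul_zero, e3] at e6
      have e7 : Gi * (C.transpose * G + G * C) * Gi = Gi * C.transpose + C * Gi := by
        rw [mul_add, add_mul, ← mul_assoc, ← mul_assoc, e2, one_mul, mul_assoc (Gi * C.transpose),
          e1, mul_one]
      rw [e7] at e6
      have e8 : DGi = - (Gi * C.transpose + C * Gi) := (eq_neg_of_add_eq_zero_right e6.symm)
      rw [e8]
      abel
    have e9 := congrFun (congrFun e5 j) k
    rw [Matrix.sub_apply, Matrix.neg_apply, Matrix.mul_apply, Matrix.mul_apply, hDGi, hC, hGi] at e9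
    have e10 : D i (gi j k) = -(∑ m, chr D g gi j i m * gi m k) -
        ∑ m, gi j m * chr D g gi k i m := e9
    rw [e10]
    congr 1
    exact Finset.sum_congr rfl fun m _ => mul_comm _ _

theorem cvrs_Dsum {n : ℕ} {A : Type} [CommRing A] [Algebra ℝ A] {D : Fin n → A → A}
    (hD : IsDer D) (i : Fin n) {ι : Type} (s : Finset ι) (f : ι → A) :
    D i (∑ a ∈ s, f a) = ∑ a ∈ s, D i (f a) :=
  map_sum (AddMonoidHom.mk' (D i) (hD.add i)) f s

theorem cvrs_Dzero {n : ℕ} {A : Type} [CommRing A] [Algebra ℝ A] {D : Fin n → A → A}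
    (hD : IsDer D) (i : Fin n) : D i 0 = 0 :=
  map_zero (AddMonoidHom.mk' (D i) (hD.add i))

theorem cvrs_Done {n : ℕ} {A : Type} [CommRing A] [Algebra ℝ A] {D : Fin n → A → A}
    (hD : IsDer D) (i : Fin n) : D i 1 = 0 := by
  have h1 := hD.mul i 1 1
  rw [mul_one, mul_one, one_mul] at h1
  exact left_eq_add.1 h1

theorem cvrs_tr {n : ℕ} {A : Type} [CommRing A] [Algebra ℝ A] {D : Fin n → A → A}
    (hD : IsDer D) {g gi : Fin n → Fin n → A} (h : IsMetric g gi) (i j : Fin n) :
    D j (∑ k, chr D g gi k i k) = D i (∑ k, chr D g gi k j k) := by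
  classical
  obtain ⟨hgs, hgi⟩ := gi_symm h
  obtain ⟨hc1, hc2, hc3⟩ := cvmc hD h
  let G : Matrix (Fin n) (Fin n) A := Matrix.of g
  let Gi : Matrix (Fin n) (Fin n) A := Matrix.of gi
  let M : Fin n → Matrix (Fin n) (Fin n) A := fun a => Matrix.of fun k l => D a (g k l)
  let E : Fin n → Matrix (Fin n) (Fin n) A := fun a => Matrix.of fun k l => D a (gi k l)
  let Cm : Fin n → Matrix (Fin n) (Fin n) A := fun a => Matrix.of fun k l => chr D g gi k a l
  have hGG : G * Gi = 1 := by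
    ext k l
    rw [Matrix.mul_apply, Matrix.one_apply]
    exact h.inv k l
  have hGG' : Gi * G = 1 := by
    ext k l
    rw [Matrix.mul_apply, Matrix.one_apply]
    exact hgi k l
  have hM : ∀ a, M a = (Cm a).transpose * G + G * Cm a := by
    intro a
    ext k l
    rw [Matrix.add_apply, Matrix.mul_apply, Matrix.mul_apply]
    have h1 := hc2 a k l
    change D a (g k l) = (∑ m, chr D g gi m a k * g m l) + ∑ m, g k m * chr D g gi m a l
    rw [h1]
    congr 1
    exact Finset.sum_congr rfl fun m _ => mul_comm _ _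
  have hT : ∀ a, (Gi * M a).trace = (∑ k, chr D g gi k a k) + ∑ k, chr D g gi k a k := by
    intro a
    have h1 : (Cm a).trace = ∑ k, chr D g gi k a k := rfl
    rw [hM a, Matrix.mul_add, Matrix.trace_add, ← Matrix.mul_assoc, ← Matrix.mul_assoc, hGG',
      Matrix.one_mul, Matrix.trace_mul_comm, ← Matrix.mul_assoc, hGG, Matrix.one_mul,
      Matrix.trace_transpose, h1]
  have hE : ∀ a, E a = -(Gi * M a * Gi) := by
    intro a
    have h1 : E a * G + Gi * M a = 0 := by
      ext k l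
      rw [Matrix.add_apply, Matrix.mul_apply, Matrix.mul_apply, ← Finset.sum_add_distrib,
        Matrix.zero_apply]
      change ∑ x, (D a (gi k x) * g x l + gi k x * D a (g x l)) = 0
      have h2 : ∑ x, (D a (gi k x) * g x l + gi k x * D a (g x l)) = D a (∑ x, gi k x * g x l) := by
        rw [cvrs_Dsum hD]
        exact Finset.sum_congr rfl fun x _ => (hD.mul a _ _).symm
      rw [h2, hgi k l]
      split_ifs
      · exact cvrs_Done hD a
      · exact cvrs_Dzero hD a
    calc E a = E a * (G * Gi) := by rw [hGG, Matrix.mul_one]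
      _ = (E a * G) * Gi := by rw [Matrix.mul_assoc]
      _ = (-(Gi * M a)) * Gi := by rw [eq_neg_of_add_eq_zero_left h1]
      _ = -(Gi * M a * Gi) := by rw [Matrix.neg_mul]
  have hS : ∀ a b, (E b * M a).trace = (E a * M b).trace := by
    intro a b
    rw [hE, hE, Matrix.neg_mul, Matrix.neg_mul, Matrix.trace_neg, Matrix.trace_neg,
      Matrix.mul_assoc, Matrix.trace_mul_comm, ← Matrix.mul_assoc]
  have hDT : ∀ a b, D b ((Gi * M a).trace) = (E b * M a).trace
      + ∑ k, ∑ l, gi k l * D b (D a (g l k)) := by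
    intro a b
    have e1 : (Gi * M a).trace = ∑ k, ∑ l, gi k l * D a (g l k) := by
      simp only [Matrix.trace, Matrix.diag_apply, Matrix.mul_apply]
      rfl
    have e2 : (E b * M a).trace = ∑ k, ∑ l, D b (gi k l) * D a (g l k) := by
      simp only [Matrix.trace, Matrix.diag_apply, Matrix.mul_apply]
      rfl
    rw [e1, e2, cvrs_Dsum hD, ← Finset.sum_add_distrib]
    refine Finset.sum_congr rfl fun k _ => ?_
    rw [cvrs_Dsum hD, ← Finset.sum_add_distrib]
    exact Finset.sum_congr rfl fun l _ => hD.mul b _ _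
  have hfin : D j ((Gi * M i).trace) = D i ((Gi * M j).trace) := by
    rw [hDT, hDT, hS i j]
    congr 1
    refine Finset.sum_congr rfl fun k _ => Finset.sum_congr rfl fun l _ => ?_
    rw [hD.comm j i]
  rw [hT, hT, hD.add, hD.add] at hfin
  have h2 : ∀ x : A, (1 / 2 : ℝ) • (x + x) = x := by
    intro x
    rw [← two_smul ℝ x, smul_smul]
    norm_num
  rw [← h2 (D j (∑ k, chr D g gi k i k)), hfin, h2]

theorem cvrs {n : ℕ} {A : Type} [CommRing A] [Algebra ℝ A] {D : Fin n → A → A}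
    (hD : IsDer D) {g gi : Fin n → Fin n → A} (h : IsMetric g gi) (i j : Fin n) :
    ric D g gi i j = ric D g gi j i := by
  have hc1 := (cvmc hD h).1
  have htr := cvrs_tr hD h i j
  rw [cvrs_Dsum hD, cvrs_Dsum hD] at htr
  unfold ric
  rw [Finset.sum_sub_distrib, Finset.sum_sub_distrib, htr]
  have e1 : ∑ k, D k (chr D g gi k i j) = ∑ k, D k (chr D g gi k j i) :=
    Finset.sum_congr rfl fun k _ => by rw [hc1 k i j]
  rw [e1]
  congr 1
  simp only [Finset.sum_sub_distrib]
  congr 1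
  · refine Finset.sum_congr rfl fun k _ => Finset.sum_congr rfl fun l _ => ?_
    rw [hc1 l i j]
  · rw [Finset.sum_comm]
    refine Finset.sum_congr rfl fun k _ => Finset.sum_congr rfl fun l _ => ?_
    rw [mul_comm]

theorem cv_neg {n : ℕ} {A : Type} [CommRing A] [Algebra ℝ A] {D : Fin n → A → A}
    (hD : IsDer D) (i : Fin n) (a : A) : D i (-a) = - D i a := by
  have h := hD.add i a (-a)
  rw [add_neg_cancel, cvmc_zero hD] at h
  exact eq_neg_of_add_eq_zero_right h.symm

/-- the kernel of a derivation -/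
def cvK {n : ℕ} {A : Type} [CommRing A] [Algebra ℝ A] {D : Fin n → A → A}
    (hD : IsDer D) (i : Fin n) : Subring A where
  carrier := {a | D i a = 0}
  mul_mem' := by
    intro a b ha hb
    show D i (a * b) = 0
    rw [hD.mul, show D i a = 0 from ha, show D i b = 0 from hb, zero_mul, mul_zero, add_zero]
  one_mem' := cvmc_one hD i
  add_mem' := by
    intro a b ha hb
    show D i (a + b) = 0
    rw [hD.add, show D i a = 0 from ha, show D i b = 0 from hb, add_zero]
  zero_mem' := cvmc_zero hD i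
  neg_mem' := by
    intro a ha
    show D i (-a) = 0
    rw [cv_neg hD, show D i a = 0 from ha, neg_zero]

theorem cvK_der {n : ℕ} {A : Type} [CommRing A] [Algebra ℝ A] {D : Fin n → A → A}
    (hD : IsDer D) (i j : Fin n) {a : A} (ha : a ∈ cvK hD i) : D j a ∈ cvK hD i := by
  show D i (D j a) = 0
  rw [hD.comm i j, show D i a = 0 from ha, cvmc_zero hD]

theorem cvK_two {n : ℕ} {A : Type} [CommRing A] [Algebra ℝ A] {D : Fin n → A → A}
    (hD : IsDer D) (i : Fin n) : (2 : A) ∈ cvK hD i := by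
  rw [← one_add_one_eq_two]
  exact (cvK hD i).add_mem (cvK hD i).one_mem (cvK hD i).one_mem

theorem cv_shift {n : ℕ} {A : Type} [CommRing A] [Algebra ℝ A] {D : Fin (n + 1) → A → A}
    (hD : IsDer D) : IsDer (fun I : Fin n => D I.succ) :=
  ⟨fun i => hD.add i.succ, fun i => hD.mul i.succ, fun i => hD.smul i.succ,
    fun i j => hD.comm i.succ j.succ⟩

theorem cv_sum2 {n : ℕ} {A : Type} [CommRing A] (f : Fin (n + 2) → A) :
    ∑ b, f b = f 0 + (f 1 + ∑ k : Fin n, f k.succ.succ) := by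
  rw [Fin.sum_univ_succ, Fin.sum_univ_succ]
  rfl

theorem cv_pow {A : Type} [CommRing A] (s σ : A) (hs : s * s = 0) (k : ℕ) :
    (1 - s * σ) ^ k = 1 - (k : A) * (s * σ) := by
  induction k with
  | zero => simp
  | succ k ih =>
    rw [pow_succ, ih]
    push_cast
    linear_combination ((k : A) * σ ^ 2) * hs

theorem conf_var {n : ℕ} {A : Type} [CommRing A] [Algebra ℝ A] {D : Fin (n + 2) → A → A}
    {t ti ρ : A} {g gi : Fin n → Fin n → A} (h : AmbRing D t ti ρ g gi)
    (s : A) (hs : s * s = 0) (hDs : ∀ I, D I s = 0) (σ : A) (hσ0 : D 0 σ = 0) (hσ1 : D 1 σ = 0)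
    (X : Fin n → A) (hX0 : ∀ j, D 0 (X j) = 0)
    (hX1 : ∀ j, D 1 (X j) = - ∑ i : Fin n, gi j i * D i.succ.succ σ)
    (hXr : ∀ j, X j ∈ Ideal.span {ρ})
    (m : ℕ) (hm : 2 * m + 2 = n)
    (hf : ∀ i j, fg (D 1) (fun i : Fin n => D i.succ.succ) ρ g gi i j ∈ Ideal.span {ρ ^ m})
    (g' gi' : Fin n → Fin n → A) (hg' : ∀ i j, g' i j = g i j
      + s * (2 * σ * (g i j - ρ * D 1 (g i j))
          + ((∑ k, X k * D k.succ.succ (g i j)) + (∑ k, D i.succ.succ (X k) * g k j)
            + ∑ k, D j.succ.succ (X k) * g i k)))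
    (hm' : IsMetric g' gi') :
    (∀ i j, fg (D 1) (fun i : Fin n => D i.succ.succ) ρ g' gi' i j ∈ Ideal.span {ρ ^ m}) ∧
    ∀ u, D 0 u = 0 →
      gjL (D 1) (fun i : Fin n => D i.succ.succ) ρ g' gi' (m + 1) u
        - (1 - (n : ℝ) • (s * σ)) * gjL (D 1) (fun i : Fin n => D i.succ.succ) ρ g gi (m + 1) u
        ∈ Ideal.span {ρ} := by
  have hD := h.der
  set K0 := cvK hD 0 with hK0
  have ks : s ∈ K0 := hDs 0
  have kσ : σ ∈ K0 := hσ0
  have kρ : ρ ∈ K0 := h.Dr0
  have kX : ∀ j, X j ∈ K0 := hX0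
  have kg : ∀ i j, g i j ∈ K0 := h.Dg
  have k2 : (2 : A) ∈ K0 := cvK_two hD 0
  have kd : ∀ (j : Fin (n + 2)) {a : A}, a ∈ K0 → D j a ∈ K0 := fun j a ha => cvK_der hD 0 j ha
  have hDg : ∀ i j, D 0 (g' i j) = 0 := by
    intro i j
    show g' i j ∈ K0
    rw [hg']
    refine K0.add_mem (kg i j) (K0.mul_mem ks (K0.add_mem (K0.mul_mem (K0.mul_mem k2 kσ)
      (K0.sub_mem (kg i j) (K0.mul_mem kρ (kd 1 (kg i j))))) (K0.add_mem (K0.add_mem ?_ ?_) ?_)))
    · exact K0.sum_mem fun k _ => K0.mul_mem (kX k) (kd _ (kg i j))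
    · exact K0.sum_mem fun k _ => K0.mul_mem (kd _ (kX k)) (kg k j)
    · exact K0.sum_mem fun k _ => K0.mul_mem (kd _ (kX k)) (kg i k)
  have h' : AmbRing D t ti ρ g' gi' :=
    ⟨h.der, h.tti, h.Dt0, h.Dt1, h.Dtx, h.Dr0, h.Dr1, h.Drx, hm', hDg⟩
  obtain ⟨Y, hY⟩ : ∃ Y : Fin (n + 2) → A,
      Y = Matrix.vecCons (t * σ) (Matrix.vecCons (-(2 * ρ * σ)) X) := ⟨_, rfl⟩
  have hY0 : Y 0 = t * σ := by rw [hY]; rfl
  have hY1 : Y 1 = -(2 * ρ * σ) := by rw [hY]; rfl
  have hYx : ∀ k : Fin n, Y k.succ.succ = X k := by intro k; rw [hY]; rfl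
  obtain ⟨φ, hφ, hc⟩ := cc_inf hD s hs hDs Y
  have hpull := amb_pull h s hs hDs σ hσ0 hσ1 X hX0 hX1 Y hY φ hφ
  have hgg : (fun i j => g i j + s * (2 * σ * (g i j - ρ * D 1 (g i j))
          + ((∑ k, X k * D k.succ.succ (g i j)) + (∑ k, D i.succ.succ (X k) * g k j)
            + ∑ k, D j.succ.succ (X k) * g i k))) = g' := by
    funext i j
    exact (hg' i j).symm
  rw [hgg] at hpull
  have hamb := amb_metric h
  have hamb' := amb_metric h'
  have hcc := cc_metric hc hamb
  rw [hpull] at hcc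
  have hinv := inv_unique hcc hamb'
  have hφ2 : ∀ a, φ a = a + s * (t * σ * D 0 a + (-(2 * ρ * σ) * D 1 a
      + ∑ k : Fin n, X k * D k.succ.succ a)) := by
    intro a
    rw [hφ, cv_sum2, hY0, hY1]
    simp only [hYx]
  -- the family without `t`
  have hDs' := cv_shift hD
  have e1 : (Fin.succ 0 : Fin (n + 2)) = 1 := rfl
  have hr1 : (fun I : Fin (n + 1) => D I.succ) 0 ρ = 1 := h.Dr1
  have hrx : ∀ i : Fin n, (fun I : Fin (n + 1) => D I.succ) i.succ ρ = 0 := h.Drx
  obtain ⟨hsp1, hsp2, hsp3, hsp4⟩ := rho_span hDs' hr1 hrx m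
  have hφI : ∀ r, D 0 r = 0 → r ∈ Ideal.span {ρ ^ m} → φ r ∈ Ideal.span {ρ ^ m} := by
    intro r hr0 hr
    rw [hφ2, hr0, mul_zero, zero_add]
    refine Ideal.add_mem _ hr (Ideal.mul_mem_left _ _ (Ideal.add_mem _ ?_ ?_))
    · have h3 : ρ * D 1 r ∈ Ideal.span {ρ ^ m} := hsp3 r hr
      have h4 : -(2 * ρ * σ) * D 1 r = (-(2 * σ)) * (ρ * D 1 r) := by ring
      rw [h4]
      exact Ideal.mul_mem_left _ _ h3
    · exact Ideal.sum_mem _ fun k _ => Ideal.mul_mem_left _ _ (hsp1 k r hr)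
  refine ⟨?_, ?_⟩
  · intro i j
    have hR := amb_ric h
    have hR' := amb_ric h'
    rw [← hR'.rxx i j]
    have hcr := cc_ric hD hD hc hamb i.succ.succ j.succ.succ
    rw [hpull, hinv] at hcr
    rw [hcr]
    have hRxx : ∀ k l : Fin n, ric D (amb t ρ g) (ambInv ti ρ gi) k.succ.succ l.succ.succ
        ∈ Ideal.span {ρ ^ m} := by
      intro k l
      rw [hR.rxx k l]
      exact hf k l
    have hR1x : ∀ l : Fin n, ric D (amb t ρ g) (ambInv ti ρ gi) 1 l.succ.succ
        ∈ Ideal.span {ρ ^ m} := fun l => amb_small h m hm.le hRxx l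
    have hRx1 : ∀ l : Fin n, ric D (amb t ρ g) (ambInv ti ρ gi) l.succ.succ 1
        ∈ Ideal.span {ρ ^ m} := by
      intro l
      rw [cvrs hD hamb]
      exact hR1x l
    have hRx1' : ∀ l : Fin n, D 0 (ric D (amb t ρ g) (ambInv ti ρ gi) l.succ.succ 1) = 0 := by
      intro l
      rw [cvrs hD hamb]
      exact hR.t1x l
    refine Ideal.sum_mem _ fun a _ => Ideal.sum_mem _ fun b _ => ?_
    refine Fin.cases ?_ (fun a => ?_) a
    · rw [hR.r0, map_zero, mul_zero]
      exact Ideal.zero_mem _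
    · refine Fin.cases ?_ (fun b => ?_) b
      · rw [hR.r0', map_zero, mul_zero]
        exact Ideal.zero_mem _
      · refine Fin.cases ?_ (fun a => ?_) a
        · refine Fin.cases ?_ (fun b => ?_) b
          · have e2 : (i.succ.succ : Fin (n + 2)) ≠ Fin.succ 0 := by
              intro e
              have := Fin.succ_injective _ e
              exact absurd this (Fin.succ_ne_zero i)
            have e3 : (j.succ.succ : Fin (n + 2)) ≠ Fin.succ 0 := by
              intro e
              have := Fin.succ_injective _ e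
              exact absurd this (Fin.succ_ne_zero j)
            simp only [if_neg e2, if_neg e3, zero_add]
            have e4 : s * D i.succ.succ (Y (Fin.succ 0)) * (s * D j.succ.succ (Y (Fin.succ 0)))
                = 0 := by
              linear_combination (D i.succ.succ (Y (Fin.succ 0)) * D j.succ.succ (Y (Fin.succ 0))) * hs
            rw [e4, zero_mul]
            exact Ideal.zero_mem _
          · exact Ideal.mul_mem_left _ _ (hφI _ (hR.t1x b) (hR1x b))
        · refine Fin.cases ?_ (fun b => ?_) b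
          · exact Ideal.mul_mem_left _ _ (hφI _ (hRx1' a) (hRx1 a))
          · exact Ideal.mul_mem_left _ _ (hφI _ (hR.txx a b) (hRxx a b))
  · intro u hu
    obtain ⟨N, hN⟩ : ∃ N, N = m + 1 := ⟨_, rfl⟩
    have hnN : n = 2 * N := by omega
    rw [← hN]
    obtain ⟨p, hp⟩ : ∃ p, p = gjL (D 1) (fun i : Fin n => D i.succ.succ) ρ g gi N u := ⟨_, rfl⟩
    have hL := amb_lap_pow h u hu N
    rw [← hp] at hL ⊢
    obtain ⟨hL1, hL2⟩ := hL
    have hu' : D 0 (φ u) = 0 := by
      show φ u ∈ K0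
      rw [hφ2, hu, mul_zero, zero_add]
      refine K0.add_mem hu (K0.mul_mem ks (K0.add_mem (K0.mul_mem (K0.neg_mem (K0.mul_mem
        (K0.mul_mem k2 kρ) kσ)) (kd 1 hu)) (K0.sum_mem fun k _ => K0.mul_mem (kX k) (kd _ hu))))
    have hL' := (amb_lap_pow h' (φ u) hu' N).1
    have hsemi : Function.Semiconj φ (lap D (amb t ρ g) (ambInv ti ρ gi))
        (lap D (amb t ρ g') (ambInv ti ρ gi')) := by
      intro F
      have := cc_lap hD hD hc hamb F
      rw [hpull, hinv] at this
      exact this.symm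
    have hiter := hsemi.iterate_right N u
    rw [hL1, hL', map_mul, map_pow] at hiter
    have hti : φ ti = ti * (1 - s * σ) := by
      obtain ⟨d0, d1, dx, -⟩ := amb_dti h
      rw [hφ2, d0, d1]
      simp only [dx, mul_zero, Finset.sum_const_zero, add_zero]
      linear_combination (-(s * σ * ti)) * h.tti
    have hφp : φ p = p + s * (-(2 * ρ * σ) * D 1 p + ∑ k : Fin n, X k * D k.succ.succ p) := by
      rw [hφ2, hL2, mul_zero, zero_add]
    have hq : -(2 * ρ * σ) * D 1 p + ∑ k : Fin n, X k * D k.succ.succ p ∈ Ideal.span {ρ} := by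
      refine Ideal.add_mem _ ?_ (Ideal.sum_mem _ fun k _ => Ideal.mul_mem_right _ _ (hXr k))
      have e5 : -(2 * ρ * σ) * D 1 p = (-(2 * σ * D 1 p)) * ρ := by ring
      rw [e5]
      exact Ideal.mul_mem_left _ _ (Ideal.mem_span_singleton_self ρ)
    obtain ⟨q, hqq⟩ : ∃ q, q = -(2 * ρ * σ) * D 1 p + ∑ k : Fin n, X k * D k.succ.succ p :=
      ⟨_, rfl⟩
    rw [← hqq] at hφp hq
    rw [hti, mul_pow, cv_pow s σ hs, hφp] at hiter
    obtain ⟨w, hw⟩ : ∃ w, w = gjL (D 1) (fun i : Fin n => D i.succ.succ) ρ g' gi' N (φ u) :=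
      ⟨_, rfl⟩
    rw [← hw] at hiter
    have htt : t ^ (2 * N) * ti ^ (2 * N) = 1 := by
      rw [← mul_pow, h.tti, one_pow]
    have hw2 : w = (1 - ((2 * N : ℕ) : A) * (s * σ)) * (p + s * q) := by
      have h1 : t ^ (2 * N) * (ti ^ (2 * N) * w) = w := by rw [← mul_assoc, htt, one_mul]
      rw [← h1, ← hiter]
      have h2 : t ^ (2 * N) * (ti ^ (2 * N) * (1 - ((2 * N : ℕ) : A) * (s * σ)) * (p + s * q))
          = (t ^ (2 * N) * ti ^ (2 * N)) * ((1 - ((2 * N : ℕ) : A) * (s * σ)) * (p + s * q)) := by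
        ring
      rw [h2, htt, one_mul]
    have hsm : (n : ℝ) • (s * σ) = ((2 * N : ℕ) : A) * (s * σ) := by
      rw [← hnN, Algebra.smul_def, map_natCast]
    have hext := gjL_ext hDs' hr1 hrx g' gi' N hnN u (φ u) (by
      rw [hφ2, hu, mul_zero, zero_add, add_sub_cancel_left]
      refine Ideal.mul_mem_left _ _ (Ideal.add_mem _ ?_ (Ideal.sum_mem _ fun k _ =>
        Ideal.mul_mem_right _ _ (hXr k)))
      have e5 : -(2 * ρ * σ) * D 1 u = (-(2 * σ * D 1 u)) * ρ := by ring
      rw [e5]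
      exact Ideal.mul_mem_left _ _ (Ideal.mem_span_singleton_self ρ))
    have hext' : w - gjL (D 1) (fun i : Fin n => D i.succ.succ) ρ g' gi' N u
        ∈ Ideal.span {ρ} := by
      rw [hw]
      exact hext
    rw [hsm]
    have hfin : gjL (D 1) (fun i : Fin n => D i.succ.succ) ρ g' gi' N u
        - (1 - ((2 * N : ℕ) : A) * (s * σ)) * p
        = ((1 - ((2 * N : ℕ) : A) * (s * σ)) * s) * q
          - (w - gjL (D 1) (fun i : Fin n => D i.succ.succ) ρ g' gi' N u) := by
      rw [hw2]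
      ring
    rw [hfin]
    exact Ideal.sub_mem _ (Ideal.mul_mem_left _ _ hq) hext'

end Z_conf_var

alias conf_var := Z_conf_var.conf_var

end CInv
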