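import Pool.Agent.Helper767.Gjms.Defs

set_option linter.all false

open scoped BigOperators

namespace CInv

namespace Z_e0_ejet

theorem e0_ejet_aeval {n : ℕ} {R : Type} [CommRing R] [Algebra ℝ R]
    (H : Fin n → Fin n → MvPolynomial (Fin n) R) (p : MvPolynomial (JV n) ℝ) :
    MvPolynomial.aeval (J0 H) p =
      MvPolynomial.constantCoeff (MvPolynomial.aeval (jet (fun i => pdv i) H) p) := by
  induction p using MvPolynomial.induction_on with
  | C a =>
    rw [MvPolynomial.aeval_C, MvPolynomial.aeval_C, MvPolynomial.algebraMap_apply,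
      MvPolynomial.constantCoeff_C]
  | add p q hp hq => rw [map_add, map_add, map_add, hp, hq]
  | mul_X p v hp =>
    rw [map_mul, map_mul, map_mul, hp, MvPolynomial.aeval_X, MvPolynomial.aeval_X]
    rfl

theorem e0_ejet {n : ℕ} {R : Type} [CommRing R] [Algebra ℝ R] (Φ : OpPhi n)
    (H : Fin n → Fin n → MvPolynomial (Fin n) R) (F : MvPolynomial (Fin n) R) :
    E0 Φ H F = MvPolynomial.constantCoeff (Ejet Φ (fun i => pdv i) H F) := by
  unfold E0 Ejet Finsupp.sum
  rw [map_sum]
  refine Finset.sum_congr rfl fun s _ => ?_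
  rw [map_mul, ← e0_ejet_aeval]
  rfl

end Z_e0_ejet

alias e0_ejet := Z_e0_ejet.e0_ejet

end CInv
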