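import Pool.Agent.Helper767.Gjms.Defs

set_option linter.all false

open scoped BigOperators

namespace CInv

namespace Z_sm_rel

theorem sm_rel {n : ℕ} {U : Set (Fin n → ℝ)} (hU : IsOpen U) {A : Type} [CommRing A]
    [Algebra ℝ A] {D : Fin n → A → A} {ev : A →ₐ[ℝ] (U → ℝ)} (hD : IsDer D)
    (hev : ∀ (a : A) (F : (Fin n → ℝ) → ℝ), ContDiffOn ℝ (⊤ : ℕ∞) F U →
      (∀ x : U, ev a x = F x) → ∀ (i : Fin n) (x : U), ev (D i a) x = pd i F x) :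
    RelHom pd D (fun (F : (Fin n → ℝ) → ℝ) (a : A) =>
      ContDiffOn ℝ (⊤ : ℕ∞) F U ∧ ∀ x : U, ev a x = F x) := by
  constructor
  · refine ⟨contDiffOn_const, fun x => ?_⟩
    rw [map_one]
    rfl
  · rintro F F' a a' ⟨h1, h2⟩ ⟨h1', h2'⟩
    refine ⟨h1.add h1', fun x => ?_⟩
    rw [map_add, Pi.add_apply, Pi.add_apply, h2, h2']
  · rintro F F' a a' ⟨h1, h2⟩ ⟨h1', h2'⟩
    refine ⟨h1.mul h1', fun x => ?_⟩
    rw [map_mul, Pi.mul_apply, Pi.mul_apply, h2, h2']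
  · rintro r F a ⟨h1, h2⟩
    refine ⟨contDiffOn_const.smul h1, fun x => ?_⟩
    rw [map_smul, Pi.smul_apply, Pi.smul_apply, h2]
  · rintro i F a ⟨h1, h2⟩
    refine ⟨?_, fun x => hev a F h1 h2 i x⟩
    show ContDiffOn ℝ (⊤ : ℕ∞) (fun x => fderiv ℝ F x (Pi.single i 1)) U
    have h3 : ContDiffOn ℝ (⊤ : ℕ∞) (fderiv ℝ F) U := h1.fderiv_of_isOpen hU (by simp)
    exact h3.clm_apply contDiffOn_const

end Z_sm_rel

alias sm_rel := Z_sm_rel.sm_rel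

end CInv
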