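import Pool.Agent.Helper767.Gjms.Defs
import Pool.Agent.Helper767.Gjms.P_sm_exists
import Pool.Agent.Helper767.Gjms.P_sm_rel
import Pool.Agent.Helper767.Gjms.P_sm_inv

set_option linter.all false

open scoped BigOperators

namespace CInv

namespace Z_op_fn

lemma op_fn_Dw {n : ℕ} {A B : Type} [CommRing A] [Algebra ℝ A] [CommRing B] [Algebra ℝ B]
    {DA : Fin n → A → A} {DB : Fin n → B → B} {Rel : A → B → Prop} (R : RelHom DA DB Rel)
    (w : List (Fin n)) {a : A} {b : B} (h : Rel a b) : Rel (Dw DA w a) (Dw DB w b) := by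
  induction w with
  | nil => exact h
  | cons i w ih => exact R.der i ih

theorem op_fn {n : ℕ} (I : NatOp n) {P : List (Fin n) →₀ MvPolynomial (UV n) ℝ}
    (hP : ∀ (A : Type) [CommRing A] [Algebra ℝ A] (D : Fin n → A → A), IsDer D →
        ∀ (g gi : Fin n → Fin n → A), IsMetric g gi → ∀ F : A,
          (P.sum fun w p => MvPolynomial.aeval
            (Sum.elim (fun v : Fin n × Fin n × List (Fin n) => Dw D v.2.2 (g v.1 v.2.1))
              (fun v : Fin n × Fin n => gi v.1 v.2)) p * Dw D w F)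
            = I.op A D g gi F)
    {U : Set (Fin n → ℝ)} (hU : IsOpen U) {g : (Fin n → ℝ) → Matrix (Fin n) (Fin n) ℝ}
    (hg : IsPMetricOn U g) {f : (Fin n → ℝ) → ℝ} (hf : ContDiffOn ℝ (⊤ : ℕ∞) f U)
    (x : Fin n → ℝ) (hx : x ∈ U) :
    (P.sum fun w p => MvPolynomial.aeval
      (Sum.elim (fun v : Fin n × Fin n × List (Fin n) =>
          (Dw pd v.2.2 (fun y => g y v.1 v.2.1) x : ℝ))
        (fun v : Fin n × Fin n => (g x)⁻¹ v.1 v.2)) p * Dw pd w f x)
      = I.op ((Fin n → ℝ) → ℝ) pd (fun i j y => g y i j) (fun i j y => (g y)⁻¹ i j) f x := by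
  obtain ⟨A, _, _, D, ev, hinj, hD, hlift, hback, hev⟩ := sm_exists hU
  have R := sm_rel hU hD hev
  obtain ⟨hi1, hi2, hi3⟩ := sm_inv hU hg
  choose gA hgA using fun i j => hlift (fun x => g x i j) (hg.smooth i j)
  choose giA hgiA using fun i j => hlift (fun x => (g x)⁻¹ i j) (hi1 i j)
  obtain ⟨fA, hfA⟩ := hlift f hf
  have hmet : IsMetric gA giA := by
    constructor
    · intro i j
      apply hinj
      funext y
      rw [hgA, hgA, hg.symm y.1 y.2]
    · intro i j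
      apply hinj
      funext y
      rw [map_sum, Finset.sum_apply]
      simp only [map_mul, Pi.mul_apply, hgA, hgiA]
      rw [hi2 y.1 y.2]
      by_cases h : i = j
      · simp [h]
      · simp [h]
  have hn := I.nat ((Fin n → ℝ) → ℝ) A pd D _ R (fun i j y => g y i j)
    (fun i j y => (g y)⁻¹ i j) gA giA f fA (fun i j => ⟨hg.smooth i j, hgA i j⟩)
    (fun i j => ⟨hi1 i j, hgiA i j⟩) ⟨hf, hfA⟩
  have hn2 := hn.2 ⟨x, hx⟩
  rw [← hn2, ← hP A D hD gA giA hmet fA]
  set e : A →ₐ[ℝ] ℝ := (Pi.evalAlgHom ℝ (fun _ : U => ℝ) ⟨x, hx⟩).comp ev with he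
  have hee : ∀ a : A, ev a ⟨x, hx⟩ = e a := fun a => rfl
  rw [hee, Finsupp.sum, Finsupp.sum, map_sum]
  refine Finset.sum_congr rfl fun w _ => ?_
  rw [map_mul, MvPolynomial.comp_aeval_apply]
  have h1 : e (Dw D w fA) = Dw pd w f x := by
    have := op_fn_Dw R w (a := f) (b := fA) ⟨hf, hfA⟩
    exact this.2 ⟨x, hx⟩
  rw [h1]
  congr 2
  congr 1
  funext v
  rcases v with v | v
  · simp only [Sum.elim_inl]
    have := op_fn_Dw R v.2.2 (a := fun y => g y v.1 v.2.1) (b := gA v.1 v.2.1)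
      ⟨hg.smooth v.1 v.2.1, hgA v.1 v.2.1⟩
    exact (this.2 ⟨x, hx⟩).symm
  · simp only [Sum.elim_inr]
    exact (hgiA v.1 v.2 ⟨x, hx⟩).symm

end Z_op_fn

alias op_fn := Z_op_fn.op_fn

end CInv
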