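import Pool.Agent.Helper767.Gjms.Defs
import Pool.Agent.Helper767.Gjms.P_ext_isder
import Pool.Agent.Helper767.Gjms.P_op_uni_alg

set_option linter.all false

open scoped BigOperators

namespace CInv

namespace Z_op_lin_alg

theorem opl_zero {n : ℕ} {A : Type} [CommRing A] [Algebra ℝ A] {D : Fin n → A → A}
    (hD : IsDer D) (i : Fin n) : D i 0 = 0 := by
  have := hD.smul i 0 (0 : A)
  rwa [zero_smul, zero_smul] at this

theorem opl_one {n : ℕ} {A : Type} [CommRing A] [Algebra ℝ A] {D : Fin n → A → A}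
    (hD : IsDer D) (i : Fin n) : D i 1 = 0 := by
  have := hD.mul i 1 (1 : A)
  rw [mul_one, mul_one, one_mul] at this
  linear_combination -this

theorem opl_cwC {A : Type} [CommRing A] (δ : A → A) (h0 : δ 0 = 0) (y : A) :
    cw δ (PowerSeries.C y) = PowerSeries.C (δ y) := by
  ext k
  rw [cw, PowerSeries.coeff_mk, PowerSeries.coeff_C, PowerSeries.coeff_C]
  split_ifs
  · rfl
  · exact h0

theorem opl_cwXC {A : Type} [CommRing A] (δ : A → A) (h0 : δ 0 = 0) (y : A) :
    cw δ (PowerSeries.X * PowerSeries.C y) = PowerSeries.X * PowerSeries.C (δ y) := by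
  ext k
  rw [cw, PowerSeries.coeff_mk]
  cases k with
  | zero => rw [PowerSeries.coeff_zero_X_mul, PowerSeries.coeff_zero_X_mul, h0]
  | succ k =>
    rw [PowerSeries.coeff_succ_X_mul, PowerSeries.coeff_succ_X_mul, PowerSeries.coeff_C,
      PowerSeries.coeff_C]
    split_ifs
    · rfl
    · exact h0

theorem opl_cwX {A : Type} [CommRing A] (δ : A → A) (h0 : δ 0 = 0) (h1 : δ 1 = 0) :
    cw δ (PowerSeries.X : PowerSeries A) = 0 := by
  ext k
  rw [cw, PowerSeries.coeff_mk, PowerSeries.coeff_X]
  split_ifs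
  · rw [h1]; simp
  · rw [h0]; simp

theorem opl_extract {n : ℕ} (p : MvPolynomial (UV n ⊕ List (Fin n)) ℝ) :
    ∃ (Q : MvPolynomial (UV n) ℝ) (P : List (Fin n) →₀ MvPolynomial (UV n) ℝ),
      ∀ (A : Type) [CommRing A] [Algebra ℝ A] (a : UV n → A) (b : List (Fin n) → A),
        PowerSeries.coeff 0 (MvPolynomial.aeval (Sum.elim (fun u => PowerSeries.C (a u))
          (fun w => PowerSeries.X * PowerSeries.C (b w))) p) = MvPolynomial.aeval a Q ∧
        PowerSeries.coeff 1 (MvPolynomial.aeval (Sum.elim (fun u => PowerSeries.C (a u))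
          (fun w => PowerSeries.X * PowerSeries.C (b w))) p) =
          P.sum fun w q => MvPolynomial.aeval a q * b w := by
  classical
  induction p using MvPolynomial.induction_on with
  | C r =>
    refine ⟨MvPolynomial.C r, 0, fun A _ _ a b => ⟨?_, ?_⟩⟩
    · rw [MvPolynomial.aeval_C, MvPolynomial.aeval_C, PowerSeries.algebraMap_apply,
        PowerSeries.coeff_C, if_pos rfl]
    · rw [MvPolynomial.aeval_C, PowerSeries.algebraMap_apply, PowerSeries.coeff_C,
        if_neg one_ne_zero, Finsupp.sum_zero_index]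
  | add p q ihp ihq =>
    obtain ⟨Q1, P1, h1⟩ := ihp
    obtain ⟨Q2, P2, h2⟩ := ihq
    refine ⟨Q1 + Q2, P1 + P2, fun A _ _ a b => ⟨?_, ?_⟩⟩
    · rw [map_add, map_add, map_add, (h1 A a b).1, (h2 A a b).1]
    · rw [map_add, map_add, (h1 A a b).2, (h2 A a b).2, Finsupp.sum_add_index']
      · intro w; rw [map_zero, zero_mul]
      · intro w x y; rw [map_add, add_mul]
  | mul_X p i ih =>
    obtain ⟨Q, P, h⟩ := ih
    rcases i with u | w
    · refine ⟨Q * MvPolynomial.X u, P.mapRange (fun q => q * MvPolynomial.X u) (zero_mul _),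
        fun A _ _ a b => ⟨?_, ?_⟩⟩
      · rw [map_mul (MvPolynomial.aeval _) p, MvPolynomial.aeval_X, Sum.elim_inl,
          PowerSeries.coeff_mul_C, (h A a b).1, map_mul, MvPolynomial.aeval_X]
      · rw [map_mul, MvPolynomial.aeval_X, Sum.elim_inl, PowerSeries.coeff_mul_C, (h A a b).2,
          Finsupp.sum_mapRange_index, Finsupp.sum_mul]
        · apply Finsupp.sum_congr
          intro w _
          rw [map_mul, MvPolynomial.aeval_X]
          ring
        · intro w; rw [map_zero, zero_mul]
    · refine ⟨0, Finsupp.single w Q, fun A _ _ a b => ⟨?_, ?_⟩⟩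
      · rw [map_mul, MvPolynomial.aeval_X, Sum.elim_inr, map_zero, mul_comm PowerSeries.X,
          ← mul_assoc, PowerSeries.coeff_zero_mul_X]
      · rw [map_mul, MvPolynomial.aeval_X, Sum.elim_inr, mul_comm PowerSeries.X,
          ← mul_assoc, PowerSeries.coeff_succ_mul_X, PowerSeries.coeff_mul_C, (h A a b).1,
          Finsupp.sum_single_index]
        rw [map_zero, zero_mul]

theorem op_lin_alg {n : ℕ} (I : NatOp n) :
    ∃ P : List (Fin n) →₀ MvPolynomial (UV n) ℝ,
      ∀ (A : Type) [CommRing A] [Algebra ℝ A] (D : Fin n → A → A), IsDer D →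
        ∀ (g gi : Fin n → Fin n → A), IsMetric g gi → ∀ F : A,
          (P.sum fun w p => MvPolynomial.aeval
            (Sum.elim (fun v : Fin n × Fin n × List (Fin n) => Dw D v.2.2 (g v.1 v.2.1))
              (fun v : Fin n × Fin n => gi v.1 v.2)) p * Dw D w F)
            = I.op A D g gi F := by
  set Pfull : MvPolynomial (UV n ⊕ List (Fin n)) ℝ :=
    I.op (MvPolynomial (UV n ⊕ List (Fin n)) ℝ) UDF
      (fun i j => MvPolynomial.X (Sum.inl (Sum.inl (i, j, []))))
      (fun i j => MvPolynomial.X (Sum.inl (Sum.inr (i, j)))) (MvPolynomial.X (Sum.inr [])) with hPf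
  have fact1 : ∀ (A : Type) [CommRing A] [Algebra ℝ A] (D : Fin n → A → A), IsDer D →
      ∀ (g gi : Fin n → Fin n → A), IsMetric g gi → ∀ F : A,
      MvPolynomial.aeval
      (Sum.elim (Sum.elim (fun v : Fin n × Fin n × List (Fin n) => Dw D v.2.2 (g v.1 v.2.1))
        (fun v : Fin n × Fin n => gi v.1 v.2)) (fun w : List (Fin n) => Dw D w F)) Pfull =
        I.op A D g gi F := by
    intro A _ _ D hD g gi hM F
    refine I.nat _ _ _ _ _ (op_uni_alg hD hM F) _ _ _ _ _ _ ?_ ?_ ?_
    · intro i j
      rw [MvPolynomial.aeval_X]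
      rfl
    · intro i j
      rw [MvPolynomial.aeval_X]
      rfl
    · rw [MvPolynomial.aeval_X]
      rfl
  obtain ⟨Q, P, hP⟩ := opl_extract Pfull
  refine ⟨P, ?_⟩
  intro A _ _ D hD g gi hM F
  have h0 := opl_zero hD
  have h1 := opl_one hD
  set D' : Fin n → PowerSeries A → PowerSeries A := fun i => cw (D i) with hD'd
  have hD' : IsDer D' := by
    have h := ext_isder hD
    refine ⟨fun i a b => h.add i.succ a b, fun i a b => h.mul i.succ a b,
      fun i r a => h.smul i.succ r a, fun i j a => h.comm i.succ j.succ a⟩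
  have hM' : IsMetric (fun i j => (PowerSeries.C (g i j) : PowerSeries A))
      (fun i j => PowerSeries.C (gi i j)) := by
    refine ⟨fun i j => congrArg _ (hM.symm i j), fun i j => ?_⟩
    have h := hM.inv i j
    have h2 := congrArg (PowerSeries.C (R := A)) h
    rw [map_sum] at h2
    simp only [map_mul] at h2
    rw [h2]
    split_ifs
    · exact map_one _
    · exact map_zero _
  have hrel : RelHom D D' (fun a b => b = PowerSeries.C a) := by
    refine ⟨(map_one _).symm, ?_, ?_, ?_, ?_⟩
    · rintro a a' b b' rfl rfl; exact (map_add _ _ _).symm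
    · rintro a a' b b' rfl rfl; exact (map_mul _ _ _).symm
    · rintro r a b rfl
      rw [Algebra.smul_def, Algebra.smul_def, map_mul, PowerSeries.algebraMap_apply]
    · rintro i a b rfl
      exact opl_cwC _ (h0 i) a
  have e1 := I.nat A (PowerSeries A) D D' _ hrel g gi (fun i j => PowerSeries.C (g i j))
    (fun i j => PowerSeries.C (gi i j)) F (PowerSeries.C F) (fun _ _ => rfl) (fun _ _ => rfl) rfl
  have e2 := I.lin (PowerSeries A) D' hD' _ _ hM' PowerSeries.X (PowerSeries.C F)
    (fun i => opl_cwX _ (h0 i) (h1 i))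
  rw [e1] at e2
  have e3 := fact1 (PowerSeries A) D' hD' _ _ hM' (PowerSeries.X * PowerSeries.C F)
  rw [e2] at e3
  have e4 : ∀ (w : List (Fin n)) (y : A), Dw D' w (PowerSeries.C y) = PowerSeries.C (Dw D w y) := by
    intro w y
    induction w with
    | nil => rfl
    | cons i w ih =>
      change D' i (Dw D' w (PowerSeries.C y)) = PowerSeries.C (D i (Dw D w y))
      rw [ih]
      exact opl_cwC _ (h0 i) _
  have e5 : ∀ (w : List (Fin n)) (y : A), Dw D' w (PowerSeries.X * PowerSeries.C y) =
      PowerSeries.X * PowerSeries.C (Dw D w y) := by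
    intro w y
    induction w with
    | nil => rfl
    | cons i w ih =>
      change D' i (Dw D' w (PowerSeries.X * PowerSeries.C y)) =
        PowerSeries.X * PowerSeries.C (D i (Dw D w y))
      rw [ih]
      exact opl_cwXC _ (h0 i) _
  have e6 := (hP A (Sum.elim (fun v : Fin n × Fin n × List (Fin n) => Dw D v.2.2 (g v.1 v.2.1))
    (fun v : Fin n × Fin n => gi v.1 v.2)) (fun w => Dw D w F)).2
  rw [← e6]
  have e7 : (Sum.elim (Sum.elim (fun v : Fin n × Fin n × List (Fin n) =>
        Dw D' v.2.2 ((PowerSeries.C (g v.1 v.2.1) : PowerSeries A)))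
      (fun v : Fin n × Fin n => PowerSeries.C (gi v.1 v.2)))
      (fun w : List (Fin n) => Dw D' w (PowerSeries.X * PowerSeries.C F))) =
      (Sum.elim (fun u => PowerSeries.C ((Sum.elim (fun v : Fin n × Fin n × List (Fin n) =>
          Dw D v.2.2 (g v.1 v.2.1)) (fun v : Fin n × Fin n => gi v.1 v.2) : UV n → A) u))
        (fun w => PowerSeries.X * PowerSeries.C (Dw D w F))) := by
    funext u
    rcases u with (u | u) | u
    · simp only [Sum.elim_inl, e4]
    · simp only [Sum.elim_inl, Sum.elim_inr]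
    · simp only [Sum.elim_inr, e5]
  rw [e7] at e3
  rw [e3, PowerSeries.coeff_succ_X_mul, PowerSeries.coeff_C, if_pos rfl]

end Z_op_lin_alg

alias op_lin_alg := Z_op_lin_alg.op_lin_alg

end CInv
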