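import Pool.Agent.Helper767.Gjms.Defs
import Pool.Agent.Helper771.CInv.P_uni_clear
import Pool.Agent.Helper771.CInv.P_dw_perm
import Pool.Agent.Helper771.CInv.P_gi_symm
import Pool.Agent.Helper771.CInv.P_dw_perm_fn
import Pool.Agent.Helper767.Gjms.P_op_lin_alg
import Pool.Agent.Helper767.Gjms.P_sm_inv
import Pool.Agent.Helper767.Gjms.P_op_fn

set_option linter.all false

open scoped BigOperators

namespace CInv

namespace Z_op_phi_exists

section OpPhiExists

/-- the substitution polynomial for the variable `v` -/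
noncomputable def ope_sub {n : ℕ} (v : JV n) : MvPolynomial (JV n) ℝ :=
  (if v.2.2 = 0 ∧ v.1 = v.2.1 then 1 else 0)
    + (1 / 2 : ℝ) • (MvPolynomial.X v + MvPolynomial.X (v.2.1, v.1, v.2.2))

theorem ope_aeval_sub {n : ℕ} {A : Type} [CommRing A] [Algebra ℝ A] (y : JV n → A)
    (Φ₁ : MvPolynomial (JV n) ℝ) :
    MvPolynomial.aeval y (MvPolynomial.aeval ope_sub Φ₁)
      = MvPolynomial.aeval (fun v : JV n => (if v.2.2 = 0 ∧ v.1 = v.2.1 then (1 : A) else 0)
        + (1 / 2 : ℝ) • (y v + y (v.2.1, v.1, v.2.2))) Φ₁ := by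
  have h : (MvPolynomial.aeval y : MvPolynomial (JV n) ℝ →ₐ[ℝ] A).comp
      (MvPolynomial.aeval ope_sub) =
      MvPolynomial.aeval (fun v : JV n => (if v.2.2 = 0 ∧ v.1 = v.2.1 then (1 : A) else 0)
        + (1 / 2 : ℝ) • (y v + y (v.2.1, v.1, v.2.2))) := by
    apply MvPolynomial.algHom_ext
    intro v
    rw [AlgHom.comp_apply, MvPolynomial.aeval_X, MvPolynomial.aeval_X]
    unfold ope_sub
    rw [map_add, map_smul, map_add, MvPolynomial.aeval_X, MvPolynomial.aeval_X]
    congr 1
    split_ifs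
    · rw [map_one]
    · rw [map_zero]
  exact DFunLike.congr_fun h Φ₁

theorem ope_D_one {n : ℕ} {A : Type} [CommRing A] [Algebra ℝ A] {D : Fin n → A → A}
    (hD : IsDer D) (i : Fin n) : D i 1 = 0 := by
  have h := hD.mul i 1 1
  rw [mul_one, mul_one, one_mul] at h
  exact left_eq_add.mp h

theorem ope_D_zero {n : ℕ} {A : Type} [CommRing A] [Algebra ℝ A] {D : Fin n → A → A}
    (hD : IsDer D) (i : Fin n) : D i 0 = 0 := by
  have h := hD.add i 0 0
  rw [add_zero] at h
  exact left_eq_add.mp h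

theorem ope_Dw_add {n : ℕ} {A : Type} [CommRing A] [Algebra ℝ A] {D : Fin n → A → A}
    (hD : IsDer D) (w : List (Fin n)) (a b : A) : Dw D w (a + b) = Dw D w a + Dw D w b := by
  induction w with
  | nil => rfl
  | cons i w ih => simp only [Dw]; rw [ih, hD.add]

theorem ope_Dw_smul {n : ℕ} {A : Type} [CommRing A] [Algebra ℝ A] {D : Fin n → A → A}
    (hD : IsDer D) (w : List (Fin n)) (r : ℝ) (a : A) : Dw D w (r • a) = r • Dw D w a := by
  induction w with
  | nil => rfl
  | cons i w ih => simp only [Dw]; rw [ih, hD.smul]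

theorem ope_Dw_zero {n : ℕ} {A : Type} [CommRing A] [Algebra ℝ A] {D : Fin n → A → A}
    (hD : IsDer D) (w : List (Fin n)) : Dw D w 0 = 0 := by
  induction w with
  | nil => rfl
  | cons i w ih => simp only [Dw]; rw [ih, ope_D_zero hD]

theorem ope_Dw_one {n : ℕ} {A : Type} [CommRing A] [Algebra ℝ A] {D : Fin n → A → A}
    (hD : IsDer D) (w : List (Fin n)) : Dw D w 1 = if w = [] then 1 else 0 := by
  induction w with
  | nil => simp [Dw]
  | cons i w ih =>
    simp only [Dw]
    rw [ih]
    split_ifs with h1 h2 h2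
    · simp at h2
    · exact ope_D_one hD i
    · simp at h2
    · exact ope_D_zero hD i

theorem ope_Ds_met {n : ℕ} {A : Type} [CommRing A] [Algebra ℝ A] {D : Fin n → A → A}
    (hD : IsDer D) (H : Fin n → Fin n → A) (v : JV n) :
    (if v.2.2 = 0 ∧ v.1 = v.2.1 then (1 : A) else 0)
        + (1 / 2 : ℝ) • (jet D H v + jet D H (v.2.1, v.1, v.2.2))
      = Dw D v.2.2.toList (met H v.1 v.2.1) := by
  obtain ⟨i, j, s⟩ := v
  simp only [jet, Ds, met, flat]
  rw [ope_Dw_add hD, ope_Dw_smul hD, ope_Dw_add hD]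
  congr 1
  have hs : s.toList = [] ↔ s = 0 := Multiset.toList_eq_nil
  by_cases hij : i = j
  · simp only [hij, and_true, if_true]
    rw [ope_Dw_one hD]
    simp only [hs]
  · simp only [hij, and_false, if_false]
    rw [ope_Dw_zero hD]

theorem ope_pd_sub {n : ℕ} (f : (Fin n → ℝ) → ℝ) (c : ℝ) (w : List (Fin n)) :
    Dw pd w (fun y => f y - c) = fun y => Dw pd w f y - (if w = [] then c else 0) := by
  induction w with
  | nil => simp [Dw]
  | cons i w ih =>
    simp only [Dw]
    rw [ih]
    funext x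
    simp only [pd]
    rw [fderiv_sub_const]
    simp

theorem ope_pd_congr {n : ℕ} {U : Set (Fin n → ℝ)} (hU : IsOpen U) {f g : (Fin n → ℝ) → ℝ}
    (h : ∀ x ∈ U, f x = g x) (w : List (Fin n)) : ∀ x ∈ U, Dw pd w f x = Dw pd w g x := by
  induction w with
  | nil => exact h
  | cons i w ih =>
    intro x hx
    simp only [Dw, pd]
    have he : Dw pd w f =ᶠ[nhds x] Dw pd w g := by
      filter_upwards [hU.mem_nhds hx] with y hy
      exact ih y hy
    rw [he.fderiv_eq]

theorem ope_perm {n : ℕ} (w : List (Fin n)) : ((w : Multiset (Fin n)).toList).Perm w :=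
  Multiset.coe_eq_coe.mp (Multiset.coe_toList _)

end OpPhiExists

theorem ope_sum_single {n : ℕ} {A : Type} [CommRing A] [Algebra ℝ A]
    (S : Finset (List (Fin n))) (Θ : List (Fin n) → MvPolynomial (JV n) ℝ)
    (y : JV n → A) (G : Multiset (Fin n) → A) :
    ((∑ w ∈ S, Finsupp.single (w : Multiset (Fin n)) (Θ w) : OpPhi n).sum
        fun s p => MvPolynomial.aeval y p * G s)
      = ∑ w ∈ S, MvPolynomial.aeval y (Θ w) * G (w : Multiset (Fin n)) := by
  classical
  rw [← Finsupp.sum_finset_sum_index]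
  · refine Finset.sum_congr rfl fun w _ => ?_
    rw [Finsupp.sum_single_index]
    rw [map_zero, zero_mul]
  · intro s
    rw [map_zero, zero_mul]
  · intro s p q
    rw [map_add, add_mul]

theorem op_phi_exists {n : ℕ} (I : NatOp n) : ∃ (N : ℕ) (Φ : OpPhi n), 1 ≤ N ∧ GoodOp n I N Φ := by
  classical
  obtain ⟨P, hP⟩ := op_lin_alg I
  choose Nw Φw hw using fun w => uni_clear (P w)
  let dt : MvPolynomial (Fin n × Fin n × List (Fin n)) ℝ :=
    (Matrix.of (fun i j : Fin n => (MvPolynomial.X (i, j, []) :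
      MvPolynomial (Fin n × Fin n × List (Fin n)) ℝ))).det
  have hdt : ∀ (A : Type) [CommRing A] [Algebra ℝ A] (y : Fin n × Fin n × List (Fin n) → A),
      MvPolynomial.aeval y dt = (Matrix.of (fun i j => y (i, j, []))).det := by
    intro A _ _ y
    show MvPolynomial.aeval y ((Matrix.of (fun i j : Fin n => (MvPolynomial.X (i, j, []) :
      MvPolynomial (Fin n × Fin n × List (Fin n)) ℝ))).det) = _
    rw [AlgHom.map_det]
    congr 1
    ext i j
    simp [AlgHom.mapMatrix_apply]
  let N : ℕ := P.support.sup Nw + 1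
  have hN : ∀ w ∈ P.support, Nw w ≤ N := fun w hw' => (Finset.le_sup (f := Nw) hw').trans (Nat.le_succ _)
  let Ψ : List (Fin n) → MvPolynomial (Fin n × Fin n × List (Fin n)) ℝ :=
    fun w => Φw w * dt ^ (N - Nw w)
  have h1 : ∀ w ∈ P.support, ∀ (A : Type) [CommRing A] [Algebra ℝ A]
        (y : Fin n × Fin n × List (Fin n) → A) (z : Fin n → Fin n → A),
        (∀ i j, ∑ k, y (i, k, []) * z k j = if i = j then 1 else 0) →
        MvPolynomial.aeval y (Ψ w) = (Matrix.of (fun i j => y (i, j, []))).det ^ N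
          * MvPolynomial.aeval (Sum.elim y (fun v : Fin n × Fin n => z v.1 v.2)) (P w) := by
    intro w hw' A _ _ y z hz
    show MvPolynomial.aeval y (Φw w * dt ^ (N - Nw w)) = _
    rw [map_mul, hw w A y z hz, map_pow, hdt]
    have h2 : N = Nw w + (N - Nw w) := by have := hN w hw'; omega
    conv_rhs => rw [h2, pow_add]
    ring
  let Φ1 : List (Fin n) → MvPolynomial (JV n) ℝ := fun w => MvPolynomial.rename
    (fun v : Fin n × Fin n × List (Fin n) => ((v.1, v.2.1, (v.2.2 : Multiset (Fin n))) : JV n))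
    (Ψ w)
  have hΦ1 : ∀ (w : List (Fin n)) (A : Type) [CommRing A] [Algebra ℝ A] (y : JV n → A),
      MvPolynomial.aeval y (Φ1 w) = MvPolynomial.aeval
        (fun v : Fin n × Fin n × List (Fin n) => y (v.1, v.2.1, (v.2.2 : Multiset (Fin n))))
        (Ψ w) := by
    intro w A _ _ y
    show MvPolynomial.aeval y (MvPolynomial.rename _ _) = _
    rw [MvPolynomial.aeval_rename]
    rfl
  let Θ : List (Fin n) → MvPolynomial (JV n) ℝ := fun w => MvPolynomial.aeval ope_sub (Φ1 w)
  let Φ : OpPhi n := ∑ w ∈ P.support, Finsupp.single (w : Multiset (Fin n)) (Θ w)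
  refine ⟨N, Φ, by omega, ?_, ?_, ?_⟩
  · intro A _ _ D hD H gi hm F
    show (Φ.sum fun s p => MvPolynomial.aeval (jet D H) p * Ds D s F) = _
    rw [ope_sum_single, ← hP A D hD (met H) gi hm F, Finsupp.sum, Finset.mul_sum]
    refine Finset.sum_congr rfl fun w hw' => ?_
    have e0 : Ds D (w : Multiset (Fin n)) F = Dw D w F := dw_perm hD (ope_perm w) F
    show MvPolynomial.aeval (jet D H) (MvPolynomial.aeval ope_sub (Φ1 w)) * _ = _
    rw [e0, ope_aeval_sub]
    have e1 : (fun v : JV n => (if v.2.2 = 0 ∧ v.1 = v.2.1 then (1 : A) else 0)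
        + (1 / 2 : ℝ) • (jet D H v + jet D H (v.2.1, v.1, v.2.2)))
        = fun v : JV n => Dw D v.2.2.toList (met H v.1 v.2.1) := by
      funext v
      exact ope_Ds_met hD H v
    rw [e1, hΦ1]
    have e2 : (fun v : Fin n × Fin n × List (Fin n) =>
        Dw D ((v.2.2 : Multiset (Fin n)).toList) (met H v.1 v.2.1))
        = fun v : Fin n × Fin n × List (Fin n) => Dw D v.2.2 (met H v.1 v.2.1) := by
      funext v
      exact dw_perm hD (ope_perm v.2.2) _
    have e3 := h1 w hw' A (fun v : Fin n × Fin n × List (Fin n) => Dw D v.2.2 (met H v.1 v.2.1)) gi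
      hm.inv
    show MvPolynomial.aeval (fun v : Fin n × Fin n × List (Fin n) =>
        Dw D ((v.2.2 : Multiset (Fin n)).toList) (met H v.1 v.2.1)) (Ψ w) * _ = _
    rw [e2, e3, mul_assoc]
    rfl
  · intro U hU g hg f hf x hx
    rw [ope_sum_single P.support Θ (fun v : JV n =>
          (Ds pd v.2.2 (fun y => g y v.1 v.2.1 - if v.1 = v.2.1 then 1 else 0) x : ℝ))
          (fun s => Ds pd s f x), ← op_fn I hP hU hg hf x hx, Finsupp.sum, Finset.mul_sum]
    refine Finset.sum_congr rfl fun w hw' => ?_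
    have e0 : Ds pd (w : Multiset (Fin n)) f x = Dw pd w f x := dw_perm_fn hU hf (ope_perm w) x hx
    show MvPolynomial.aeval _ (MvPolynomial.aeval ope_sub (Φ1 w)) * _ = _
    rw [e0, ope_aeval_sub]
    have hsymm : ∀ i j, ∀ y ∈ U, g y i j = g y j i := fun i j y hy => hg.symm y hy i j
    have e1 : (fun v : JV n => (if v.2.2 = 0 ∧ v.1 = v.2.1 then (1 : ℝ) else 0)
        + (1 / 2 : ℝ) • ((Ds pd v.2.2 (fun y => g y v.1 v.2.1 - if v.1 = v.2.1 then 1 else 0) x : ℝ)
          + Ds pd v.2.2 (fun y => g y v.2.1 v.1 - if v.2.1 = v.1 then 1 else 0) x))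
        = fun v : JV n => Dw pd v.2.2.toList (fun y => g y v.1 v.2.1) x := by
      funext v
      obtain ⟨i, j, s⟩ := v
      simp only [Ds]
      have e5 : Dw pd s.toList (fun y => g y j i) x = Dw pd s.toList (fun y => g y i j) x :=
        ope_pd_congr hU (f := fun y => g y j i) (g := fun y => g y i j) (hsymm j i) s.toList x hx
      rw [ope_pd_sub (fun y => g y i j), ope_pd_sub (fun y => g y j i)]
      beta_reduce
      rw [e5]
      have hs : s.toList = [] ↔ s = 0 := Multiset.toList_eq_nil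
      simp only [hs, smul_eq_mul]
      by_cases hij : i = j
      · subst hij
        by_cases hs0 : s = 0
        · simp only [hs0, and_self, if_true]; ring
        · simp only [hs0, false_and, if_false]; ring
      · have hji : ¬ j = i := fun hh => hij hh.symm
        by_cases hs0 : s = 0
        · simp only [hs0, hij, hji, and_false, if_false, if_true]; ring
        · simp only [hs0, false_and, if_false]; ring
    rw [e1, hΦ1]
    have e2 : (fun v : Fin n × Fin n × List (Fin n) =>
        Dw pd ((v.2.2 : Multiset (Fin n)).toList) (fun y => g y v.1 v.2.1) x)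
        = fun v : Fin n × Fin n × List (Fin n) => Dw pd v.2.2 (fun y => g y v.1 v.2.1) x := by
      funext v
      exact dw_perm_fn hU (hg.smooth v.1 v.2.1) (ope_perm v.2.2) x hx
    have e3 := h1 w hw' ℝ
      (fun v : Fin n × Fin n × List (Fin n) => Dw pd v.2.2 (fun y => g y v.1 v.2.1) x)
      (fun i j => (g x)⁻¹ i j) ((sm_inv hU hg).2.1 x hx)
    show MvPolynomial.aeval (fun v : Fin n × Fin n × List (Fin n) =>
        Dw pd ((v.2.2 : Multiset (Fin n)).toList) (fun y => g y v.1 v.2.1) x) (Ψ w) * _ = _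
    rw [e2, e3, mul_assoc]
    rfl
  · intro s A _ _ y
    have hΦs : Φ s = ∑ w ∈ P.support, (Finsupp.single (w : Multiset (Fin n)) (Θ w)) s := by
      show (∑ w ∈ P.support, Finsupp.single (w : Multiset (Fin n)) (Θ w) : OpPhi n) s = _
      rw [Finsupp.finset_sum_apply]
    rw [hΦs, map_sum, map_sum]
    refine Finset.sum_congr rfl fun w _ => ?_
    rw [Finsupp.single_apply]
    split_ifs with hws
    · show MvPolynomial.aeval _ (MvPolynomial.aeval ope_sub (Φ1 w)) =
        MvPolynomial.aeval _ (MvPolynomial.aeval ope_sub (Φ1 w))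
      rw [ope_aeval_sub, ope_aeval_sub]
      congr 2
      funext v
      obtain ⟨i, j, s⟩ := v
      simp only
      congr 1
      module
    · rw [map_zero, map_zero]

end Z_op_phi_exists

alias op_phi_exists := Z_op_phi_exists.op_phi_exists

end CInv
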