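import Pool.Agent.Helper767.Gjms.Defs
import Pool.Agent.Helper771.CInv.P_gi_symm
import Pool.Agent.Helper771.CInv.P_pdv_isder
import Pool.Agent.Helper767.Gjms.P_op_phi_exists
import Pool.Agent.Helper767.Gjms.P_e0_ejet
import Pool.Agent.Helper767.Gjms.P_conf_phi_op

set_option linter.all false

open scoped BigOperators

namespace CInv

namespace Z_confat0_of_real

theorem ca0_pow {R : Type} [CommRing R] (x : R) (hx : x * x = 0) (k : ℕ) :
    (1 + x) ^ k = 1 + (k : R) * x := by
  induction k with
  | zero => simp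
  | succ k ih =>
    rw [pow_succ, ih]
    push_cast
    linear_combination (k : R) * hx

theorem confat0_of_real {n : ℕ} (hn : Even n) {I : NatOp n} (hI : RealConf I) : ConfAt0 I := by
  intro R _ _ s hs H gi hg f F
  obtain ⟨N, Φ, hN, hΦ⟩ := op_phi_exists I
  obtain ⟨M, hM⟩ : ∃ M, M + n / 2 = n * N := by
    refine ⟨n * N - n / 2, Nat.sub_add_cancel ?_⟩
    calc n / 2 ≤ n := Nat.div_le_self _ _
      _ = n * 1 := (mul_one n).symm
      _ ≤ n * N := Nat.mul_le_mul_left n hN
  set u : MvPolynomial (Fin n) R := MvPolynomial.C s * f with hu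
  have huu : u * u = 0 := by
    have : u * u = MvPolynomial.C (s * s) * (f * f) := by
      rw [hu, map_mul]; ring
    rw [this, hs, map_zero, zero_mul]
  set H' : Fin n → Fin n → MvPolynomial (Fin n) R :=
    fun i j => (1 + u) * met H i j - flat _ i j with hH'
  have hmet : met H' = fun i j => (1 + u) * met H i j := by
    funext i j
    have hfl : (flat (MvPolynomial (Fin n) R) j i) = flat _ i j := by
      unfold flat; simp only [eq_comm]
    show flat _ i j + (1 / 2 : ℝ) • (H' i j + H' j i) = _
    rw [hH']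
    simp only
    rw [hg.symm j i, hfl]
    have : (1 + u) * met H i j - flat _ i j + ((1 + u) * met H i j - flat _ i j)
        = (2 : ℝ) • ((1 + u) * met H i j - flat _ i j) := by rw [two_smul]
    rw [this, smul_smul]
    norm_num
  have hg' : IsMetric (met H') (fun i j => (1 - u) * gi i j) := by
    rw [hmet]
    refine ⟨fun i j => by simp only [hg.symm i j], fun i j => ?_⟩
    rw [← hg.inv i j]
    refine Finset.sum_congr rfl fun k _ => ?_
    linear_combination (-(met H i k * gi k j)) * huu
  have hD := pdv_isder (n := n) (R := R)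
  have h1 := conf_phi_op hn hI hΦ hM R H u F
  rw [e0_ejet Φ H F, hΦ.alg _ _ hD H gi hg F, ← hH', e0_ejet Φ H' F,
    hΦ.alg _ _ hD H' _ hg' F] at h1
  have hdet : (Matrix.of (met H')).det = (1 + u) ^ n * (Matrix.of (met H)).det := by
    have : (Matrix.of (met H')) = (1 + u) • (Matrix.of (met H)) := by
      rw [hmet]; rfl
    rw [this, Matrix.det_smul, Fintype.card_fin]
  have hinv : (Matrix.of (met H)).det * (Matrix.of gi).det = 1 := by
    rw [← Matrix.det_mul]
    have : (Matrix.of (met H)) * (Matrix.of gi) = 1 := by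
      ext i j
      rw [Matrix.mul_apply, Matrix.one_apply]
      exact congrArg _ (hg.inv i j)
    rw [this, Matrix.det_one]
  rw [hdet] at h1
  simp only [map_mul, map_pow, map_add, map_one] at h1
  have hcu : MvPolynomial.constantCoeff u = s * MvPolynomial.constantCoeff f := by
    rw [hu, map_mul, MvPolynomial.constantCoeff_C]
  rw [hcu] at h1
  have hinv' := congrArg MvPolynomial.constantCoeff hinv
  rw [map_mul, map_one] at hinv'
  rw [← hmet]
  set d := MvPolynomial.constantCoeff (Matrix.of (met H)).det with hd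
  set d' := MvPolynomial.constantCoeff (Matrix.of gi).det with hd'
  set X' := MvPolynomial.constantCoeff (I.op (MvPolynomial (Fin n) R) (fun i => pdv i) (met H')
    (fun i j => (1 - u) * gi i j) F) with hX'
  set X := MvPolynomial.constantCoeff (I.op (MvPolynomial (Fin n) R) (fun i => pdv i) (met H)
    gi F) with hX
  set y := s * MvPolynomial.constantCoeff f with hy
  have hyy : y * y = 0 := by
    have : y * y = (s * s) * (MvPolynomial.constantCoeff f * MvPolynomial.constantCoeff f) := by
      rw [hy]; ring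
    rw [this, hs, zero_mul]
  have hyy' : (-y) * (-y) = 0 := by rw [neg_mul_neg, hyy]
  have hone : (1 + y) * (1 + -y) = 1 := by linear_combination -hyy
  -- cancel
  have h2 : (1 + y) ^ (n * N) * X' = (1 + y) ^ M * X := by
    have h3 := congrArg (fun z => z * d' ^ N) h1
    have h4 : d ^ N * d' ^ N = 1 := by rw [← mul_pow, hinv', one_pow]
    calc (1 + y) ^ (n * N) * X' = (1 + y) ^ (n * N) * X' * (d ^ N * d' ^ N) := by rw [h4, mul_one]
      _ = ((1 + y) ^ n * d) ^ N * X' * d' ^ N := by rw [mul_pow, ← pow_mul]; ring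
      _ = (1 + y) ^ M * (d ^ N * X) * d' ^ N := h3
      _ = (1 + y) ^ M * X * (d ^ N * d' ^ N) := by ring
      _ = (1 + y) ^ M * X := by rw [h4, mul_one]
  have h5 : (1 + y) ^ (n / 2) * X' = X := by
    have h6 : (1 + y) ^ M * (1 + -y) ^ M = 1 := by rw [← mul_pow, hone, one_pow]
    calc (1 + y) ^ (n / 2) * X' = (1 + y) ^ (n / 2) * X' * ((1 + y) ^ M * (1 + -y) ^ M) := by
          rw [h6, mul_one]
      _ = ((1 + y) ^ (n * N) * X') * (1 + -y) ^ M := by rw [← hM, pow_add]; ring
      _ = ((1 + y) ^ M * X) * (1 + -y) ^ M := by rw [h2]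
      _ = X * ((1 + y) ^ M * (1 + -y) ^ M) := by ring
      _ = X := by rw [h6, mul_one]
  have h7 : X' = (1 + -y) ^ (n / 2) * X := by
    have h6 : (1 + y) ^ (n / 2) * (1 + -y) ^ (n / 2) = 1 := by rw [← mul_pow, hone, one_pow]
    calc X' = X' * ((1 + y) ^ (n / 2) * (1 + -y) ^ (n / 2)) := by rw [h6, mul_one]
      _ = ((1 + y) ^ (n / 2) * X') * (1 + -y) ^ (n / 2) := by ring
      _ = (1 + -y) ^ (n / 2) * X := by rw [h5]; ring
  rw [h7, ca0_pow (-y) hyy']
  have h8 : ((n : ℝ) / 2) • y = ((n / 2 : ℕ) : R) * y := by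
    obtain ⟨m, rfl⟩ := hn
    have e1 : (m + m) / 2 = m := by omega
    have e2 : (((m + m : ℕ) : ℝ) / 2) = (m : ℝ) := by push_cast; ring
    rw [e1, e2, Nat.cast_smul_eq_nsmul, nsmul_eq_mul]
  rw [h8]
  ring

end Z_confat0_of_real

alias confat0_of_real := Z_confat0_of_real.confat0_of_real

end CInv
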