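import Pool.Agent.Helper767.Gjms.Defs
import Pool.Agent.Helper771.CInv.P_gi_symm
import Pool.Agent.Helper771.CInv.P_pdv_isder
import Pool.Agent.Helper767.Gjms.P_e0_ejet

set_option linter.all false

open scoped BigOperators

namespace CInv

namespace Z_confphi_of_confat0

theorem j19370_pow {R : Type} [CommRing R] (y : R) (hy : y * y = 0) (m : ℕ) :
    (1 + y) ^ m = 1 + (m : R) * y := by
  induction m with
  | zero => simp
  | succ m ih =>
    rw [pow_succ, ih]
    push_cast
    linear_combination (m : R) * hy

theorem confphi_of_confat0 {n : ℕ} {I : NatOp n} (hI : ConfAt0 I) {N : ℕ} {Φ : OpPhi n}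
    (hΦ : GoodOp n I N Φ) : ConfPhiI n N Φ := by
  intro R _ _ s hs H gi hgi f F
  set a : MvPolynomial (Fin n) R := 1 + MvPolynomial.C s * f with ha
  set b : MvPolynomial (Fin n) R := 1 - MvPolynomial.C s * f with hb
  have hCs : (MvPolynomial.C s : MvPolynomial (Fin n) R) * MvPolynomial.C s = 0 := by
    rw [← MvPolynomial.C_mul, hs, MvPolynomial.C_0]
  have hab : a * b = 1 := by
    rw [ha, hb]
    linear_combination (-f * f) * hCs
  have hmet : met (fun i j => a * met H i j - flat (MvPolynomial (Fin n) R) i j) =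
      fun i j => a * met H i j := by
    funext i j
    have hfl : flat (MvPolynomial (Fin n) R) j i = flat (MvPolynomial (Fin n) R) i j := by
      unfold flat
      by_cases hij : i = j
      · rw [if_pos hij, if_pos hij.symm]
      · rw [if_neg hij, if_neg (Ne.symm hij)]
    show flat _ i j + (1 / 2 : ℝ) • ((a * met H i j - flat (MvPolynomial (Fin n) R) i j) +
      (a * met H j i - flat (MvPolynomial (Fin n) R) j i)) = a * met H i j
    rw [← hgi.symm i j, hfl]
    module
  have hgi' : IsMetric (met (fun i j => a * met H i j - flat (MvPolynomial (Fin n) R) i j))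
      (fun i j => b * gi i j) := by
    rw [hmet]
    refine ⟨fun i j => by rw [hgi.symm i j], fun i j => ?_⟩
    rw [← hgi.inv i j]
    refine Finset.sum_congr rfl (fun k _ => ?_)
    linear_combination (met H i k * gi k j) * hab
  have h1 := hΦ.alg (MvPolynomial (Fin n) R) (fun i => pdv i) pdv_isder _ _ hgi' F
  have h2 := hΦ.alg (MvPolynomial (Fin n) R) (fun i => pdv i) pdv_isder _ _ hgi F
  have h3 := hI R s hs H gi hgi f F
  rw [← ha, ← hb] at h3
  rw [e0_ejet, e0_ejet, h1, h2, hmet, map_mul, map_mul, map_pow, map_pow, h3]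
  have hdet : (Matrix.of (fun i j => a * met H i j)).det = a ^ n * (Matrix.of (met H)).det := by
    have h4 : (Matrix.of (fun i j => a * met H i j)) = a • Matrix.of (met H) := by
      ext i j
      rfl
    rw [h4, Matrix.det_smul, Fintype.card_fin]
  rw [hdet, map_mul, map_pow]
  have hcca : MvPolynomial.constantCoeff a = 1 + s * MvPolynomial.constantCoeff f := by
    rw [ha, map_add, map_mul, map_one, MvPolynomial.constantCoeff_C]
  rw [hcca, mul_pow, ← pow_mul]
  set y := s * MvPolynomial.constantCoeff f with hy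
  have hyy : y * y = 0 := by
    rw [hy]
    linear_combination (MvPolynomial.constantCoeff f * MvPolynomial.constantCoeff f) * hs
  rw [j19370_pow y hyy]
  have e1 : ((n * N : ℕ) : R) * y = ((n : ℝ) * N) • y := by
    rw [← Nat.cast_mul, Nat.cast_smul_eq_nsmul, nsmul_eq_mul]
  have e2 : (1 + ((n * N : ℕ) : R) * y) * (1 - ((n : ℝ) / 2) • y) =
      1 + ((n : ℝ) * N - (n : ℝ) / 2) • y := by
    rw [e1]
    have e3 : (((n : ℝ) * N) • y) * (((n : ℝ) / 2) • y) = 0 := by
      rw [smul_mul_smul_comm, hyy, smul_zero]
    rw [sub_smul]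
    linear_combination -e3
  rw [← e2]
  ring

end Z_confphi_of_confat0

alias confphi_of_confat0 := Z_confphi_of_confat0.confphi_of_confat0

end CInv
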