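import Pool.Agent.Helper767.Gjms.Defs

set_option linter.all false

open scoped BigOperators

namespace CInv

namespace Z_cv_low_gauge

theorem cvlg_aux0 {n : ℕ} (c : Fin n → Fin n → ℂ) (hs : ∀ i j, c i j = c j i) :
    lieEta (fun j => ∑ i, MvPolynomial.C (c i j / 2) * MvPolynomial.X i)
      = (fun i j => (MvPolynomial.C (c i j) : MvPolynomial (Fin n) ℂ)) := by
  funext p q
  simp only [lieEta, pdv, map_sum, MvPolynomial.pderiv_mul, MvPolynomial.pderiv_C,
    MvPolynomial.pderiv_X, Pi.single_apply, zero_mul, zero_add, mul_ite, mul_one, mul_zero,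
    Finset.sum_ite_eq, Finset.sum_ite_eq', Finset.mem_univ, if_true]
  rw [← MvPolynomial.C_add]
  congr 1
  rw [hs q p]
  ring

theorem cvlg_aux1 {n : ℕ} (m : Fin n → Fin n → Fin n → ℂ) (hs : ∀ a i j, m a i j = m a j i) :
    lieEta (fun k => ∑ i, ∑ j, MvPolynomial.C ((m i j k + m j i k - m k i j) / 4)
        * (MvPolynomial.X i * MvPolynomial.X j))
      = (fun i j => ∑ a, (MvPolynomial.C (m a i j) * MvPolynomial.X a :
          MvPolynomial (Fin n) ℂ)) := by
  funext p q
  simp only [lieEta, pdv, map_sum, MvPolynomial.pderiv_mul, MvPolynomial.pderiv_C,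
    MvPolynomial.pderiv_X, Pi.single_apply, zero_mul, zero_add, mul_add, mul_ite, ite_mul,
    one_mul, mul_one, mul_zero,
    Finset.sum_add_distrib, Finset.sum_ite_eq, Finset.sum_ite_eq', Finset.mem_univ, if_true]
  have e1 : ∀ p q : Fin n, (∑ x, ∑ x_1, if x = p then
      (MvPolynomial.C ((m x x_1 q + m x_1 x q - m q x x_1) / 4) * MvPolynomial.X x_1 :
        MvPolynomial (Fin n) ℂ) else 0)
      = ∑ x_1, MvPolynomial.C ((m p x_1 q + m x_1 p q - m q p x_1) / 4) * MvPolynomial.X x_1 := by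
    intro p q
    rw [Finset.sum_comm]
    refine Finset.sum_congr rfl fun x _ => ?_
    simp
  rw [e1, e1, ← Finset.sum_add_distrib, ← Finset.sum_add_distrib, ← Finset.sum_add_distrib]
  refine Finset.sum_congr rfl fun a _ => ?_
  rw [← add_mul, ← add_mul, ← add_mul, ← MvPolynomial.C_add, ← MvPolynomial.C_add,
    ← MvPolynomial.C_add]
  congr 2
  rw [hs q a p, hs p a q, hs a q p, hs q p a, hs p q a]
  ring

theorem cvlg_sym {n r : ℕ} {B : MultilinearMap ℂ (fun _ : Fin r => Mx n) ℂ}
    (htr : ∀ (h : Fin r → Mx n) (j : Fin r) (y : Mx n),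
      B (Function.update h j (fun a b => y b a)) = B (Function.update h j y))
    (h : Fin r → Mx n) (j : Fin r) :
    B h = B (Function.update h j ((1 / 2 : ℂ) • (h j + fun a b => h j b a))) := by
  have ht := htr h j (h j)
  rw [B.map_update_smul, B.map_update_add, ht, Function.update_eq_self]
  simp only [smul_eq_mul]
  ring

theorem cvlg_hom0 {n : ℕ} {φ : MvPolynomial (Fin n) ℂ} (h : φ.IsHomogeneous 0) :
    φ = MvPolynomial.C (MvPolynomial.coeff 0 φ) := by
  rw [← MvPolynomial.totalDegree_zero_iff_isHomogeneous] at h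
  exact MvPolynomial.totalDegree_eq_zero_iff_eq_C.mp h

theorem cvlg_main {n r : ℕ} {B : MultilinearMap ℂ (fun _ : Fin r => Mx n) ℂ}
    (hga : ∀ (h : Fin r → Mx n) (j : Fin r) (X : Fin n → MvPolynomial (Fin n) ℂ),
      B (Function.update h j (lieEta X)) = 0)
    (htr : ∀ (h : Fin r → Mx n) (j : Fin r) (y : Mx n),
      B (Function.update h j (fun a b => y b a)) = B (Function.update h j y)) (h : Fin r → Mx n) (j : Fin r) (d : ℕ) (hd1 : d ≤ 1)
    (hd : ∀ s t, (h j s t).IsHomogeneous d) : B h = 0 := by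
  rw [cvlg_sym htr h j]
  interval_cases d
  · have key := hga h j (fun j' => ∑ i, MvPolynomial.C
      (((MvPolynomial.coeff 0 (h j i j') + MvPolynomial.coeff 0 (h j j' i)) / 2) / 2)
        * MvPolynomial.X i)
    rw [cvlg_aux0 (fun i j' => (MvPolynomial.coeff 0 (h j i j') + MvPolynomial.coeff 0 (h j j' i)) / 2)
      (fun i j' => by ring)] at key
    rw [← key]
    congr 2
    funext s t
    have e1 := cvlg_hom0 (hd s t)
    have e2 := cvlg_hom0 (hd t s)
    simp only [Pi.smul_apply, Pi.add_apply]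
    rw [MvPolynomial.smul_eq_C_mul]
    conv_lhs => rw [e1, e2]
    rw [← MvPolynomial.C_add, ← MvPolynomial.C_mul]
    congr 1
    ring
  · have hc : ∀ s t, h j s t = ∑ a, MvPolynomial.C
        (MvPolynomial.coeff 0 (MvPolynomial.pderiv a (h j s t))) * MvPolynomial.X a := by
      intro s t
      have e := (hd s t).sum_X_mul_pderiv
      rw [one_smul] at e
      conv_lhs => rw [← e]
      refine Finset.sum_congr rfl fun a _ => ?_
      rw [mul_comm]
      congr 1
      exact cvlg_hom0 (by simpa using (hd s t).pderiv (i := a))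
    set m : Fin n → Fin n → Fin n → ℂ := fun a s t =>
      (MvPolynomial.coeff 0 (MvPolynomial.pderiv a (h j s t))
        + MvPolynomial.coeff 0 (MvPolynomial.pderiv a (h j t s))) / 2 with hm
    have key := hga h j (fun k => ∑ i, ∑ j', MvPolynomial.C
      ((m i j' k + m j' i k - m k i j') / 4) * (MvPolynomial.X i * MvPolynomial.X j'))
    rw [cvlg_aux1 m (fun a i j' => by simp only [hm]; ring)] at key
    rw [← key]
    congr 2
    funext s t
    simp only [Pi.smul_apply, Pi.add_apply]
    rw [MvPolynomial.smul_eq_C_mul]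
    conv_lhs => rw [hc s t, hc t s]
    rw [← Finset.sum_add_distrib, Finset.mul_sum]
    refine Finset.sum_congr rfl fun a _ => ?_
    rw [← add_mul, ← mul_assoc, ← MvPolynomial.C_add, ← MvPolynomial.C_mul]
    congr 2
    simp only [hm]
    ring

theorem cv_low_gauge {n r : ℕ}
    {B : MvPolynomial (Fin n) ℂ →ₗ[ℂ] MultilinearMap ℂ (fun _ : Fin r => Mx n) ℂ}
    (hB : GoodFormV n r B) (v : MvPolynomial (Fin n) ℂ) (h : Fin r → Mx n) (j : Fin r) (d : ℕ)
    (hd1 : d ≤ 1) (hd : ∀ s t, (h j s t).IsHomogeneous d) : B v h = 0 :=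
  cvlg_main (hB.gauge v) (hB.transp v) h j d hd1 hd

end Z_cv_low_gauge

alias cv_low_gauge := Z_cv_low_gauge.cv_low_gauge

end CInv
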