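import Pool.Agent.Helper767.Gjms.Defs
import Pool.Agent.Helper767.Gjms.P_cv_deg_hom
import Pool.Agent.Helper767.Gjms.P_cv_low_gauge

set_option linter.all false

open scoped BigOperators

namespace CInv

namespace Z_cv_deg_bound

theorem cvdb_expand {n : ℕ} (N : ℕ) (φ : MvPolynomial (Fin n) ℂ) (hN : φ.totalDegree < N) :
    ∑ m ∈ Finset.range N, MvPolynomial.homogeneousComponent m φ = φ := by
  conv_rhs => rw [← MvPolynomial.sum_homogeneousComponent φ]
  symm
  refine Finset.sum_subset (fun m hm => ?_) (fun m _ hm => ?_)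
  · rw [Finset.mem_range] at hm ⊢
    omega
  · rw [Finset.mem_range, not_lt] at hm
    exact MvPolynomial.homogeneousComponent_eq_zero m φ (by omega)

theorem cv_deg_bound {n r : ℕ}
    {B : MvPolynomial (Fin n) ℂ →ₗ[ℂ] MultilinearMap ℂ (fun _ : Fin r => Mx n) ℂ}
    (hB : GoodFormV n r B) (v : MvPolynomial (Fin n) ℂ) (h : Fin r → Mx n) (j : Fin r) (d : ℕ)
    (hd : ∀ s t, (h j s t).IsHomogeneous d) (hr : n + 2 < d + 2 * r) : B v h = 0 := by
  classical
  -- a uniform bound of the degrees
  obtain ⟨N, hN⟩ : ∃ N : ℕ, ∀ i s t, (h i s t).totalDegree < N := by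
    refine ⟨(∑ i, ∑ s, ∑ t, (h i s t).totalDegree) + 1, fun i s t => Nat.lt_succ_of_le ?_⟩
    calc (h i s t).totalDegree ≤ ∑ t, (h i s t).totalDegree :=
          Finset.single_le_sum (f := fun t => (h i s t).totalDegree) (fun _ _ => Nat.zero_le _)
            (Finset.mem_univ t)
      _ ≤ ∑ s, ∑ t, (h i s t).totalDegree :=
          Finset.single_le_sum (f := fun s => ∑ t, (h i s t).totalDegree)
            (fun _ _ => Nat.zero_le _) (Finset.mem_univ s)
      _ ≤ ∑ i, ∑ s, ∑ t, (h i s t).totalDegree :=
          Finset.single_le_sum (f := fun i => ∑ s, ∑ t, (h i s t).totalDegree)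
            (fun _ _ => Nat.zero_le _) (Finset.mem_univ i)
  let g : Fin r → ℕ → Mx n := fun i m s t => MvPolynomial.homogeneousComponent m (h i s t)
  have hexp : h = fun i => ∑ m ∈ Finset.range N, g i m := by
    funext i s t
    rw [Finset.sum_apply, Finset.sum_apply]
    exact (cvdb_expand N (h i s t) (hN i s t)).symm
  rw [hexp, MultilinearMap.map_sum_finset]
  refine Finset.sum_eq_zero fun f _ => ?_
  have hhom : ∀ i s t, (g i (f i) s t).IsHomogeneous (f i) := fun i s t =>
    MvPolynomial.homogeneousComponent_isHomogeneous (f i) (h i s t)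
  by_cases hfj : f j = d
  · by_cases hlow : ∃ i, i ≠ j ∧ f i ≤ 1
    · obtain ⟨i, _, hi⟩ := hlow
      exact cv_low_gauge hB v _ i (f i) hi (hhom i)
    · push Not at hlow
      have hve : v = ∑ e ∈ Finset.range (v.totalDegree + 1),
          MvPolynomial.homogeneousComponent e v :=
        (cvdb_expand (v.totalDegree + 1) v (Nat.lt_succ_self _)).symm
      rw [hve, map_sum, MultilinearMap.sum_apply]
      refine Finset.sum_eq_zero fun e _ => ?_
      refine cv_deg_hom hB (MvPolynomial.homogeneousComponent e v) _ f e hhom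
        (MvPolynomial.homogeneousComponent_isHomogeneous e v) ?_
      have h1 : ∑ i, f i = f j + ∑ i ∈ Finset.univ.erase j, f i :=
        (Finset.add_sum_erase _ _ (Finset.mem_univ j)).symm
      have h2 : (Finset.univ.erase j).card • 2 ≤ ∑ i ∈ Finset.univ.erase j, f i := by
        refine Finset.card_nsmul_le_sum _ _ _ fun i hi => ?_
        exact hlow i (Finset.ne_of_mem_erase hi)
      rw [Finset.card_erase_of_mem (Finset.mem_univ j), Finset.card_univ, Fintype.card_fin,
        smul_eq_mul] at h2
      have h3 : 0 < r := Nat.lt_of_le_of_lt (Nat.zero_le _) j.2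
      omega
  · refine MultilinearMap.map_coord_zero (B v) j ?_
    funext s t
    change MvPolynomial.homogeneousComponent (f j) (h j s t) = 0
    rw [MvPolynomial.homogeneousComponent_of_mem (hd s t), if_neg hfj]

end Z_cv_deg_bound

alias cv_deg_bound := Z_cv_deg_bound.cv_deg_bound

end CInv
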