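import Pool.Agent.Helper767.Gjms.Defs
import Pool.Agent.Helper767.Gjms.P_cv_low_gauge
import Pool.Agent.Helper767.Gjms.P_cv_deg_bound

set_option linter.all false

open scoped BigOperators

namespace CInv

namespace Z_cv_big_r

theorem cvbr_expand {n : ℕ} (y : Mx n) : ∃ N : ℕ, y = ∑ d ∈ Finset.range N,
    (fun a b => MvPolynomial.homogeneousComponent d (y a b) : Mx n) := by
  classical
  refine ⟨(Finset.univ.sup fun p : Fin n × Fin n => (y p.1 p.2).totalDegree) + 1, ?_⟩
  funext a b
  rw [Finset.sum_apply, Finset.sum_apply]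
  have hle : (y a b).totalDegree ≤
      Finset.univ.sup fun p : Fin n × Fin n => (y p.1 p.2).totalDegree :=
    Finset.le_sup (f := fun p : Fin n × Fin n => (y p.1 p.2).totalDegree)
      (Finset.mem_univ (a, b))
  conv_lhs => rw [← MvPolynomial.sum_homogeneousComponent (y a b)]
  apply Finset.sum_subset
  · intro d hd
    rw [Finset.mem_range] at hd ⊢
    omega
  · intro d _ hd
    rw [Finset.mem_range] at hd
    exact MvPolynomial.homogeneousComponent_eq_zero _ _ (by omega)

theorem cv_big_r {n r : ℕ} (hr : n < 2 * r)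
    {B : MvPolynomial (Fin n) ℂ →ₗ[ℂ] MultilinearMap ℂ (fun _ : Fin r => Mx n) ℂ}
    (hB : GoodFormV n r B) : B = 0 := by
  classical
  refine LinearMap.ext fun v => ?_
  refine MultilinearMap.ext fun h => ?_
  rw [LinearMap.zero_apply, MultilinearMap.zero_apply]
  obtain ⟨N, hN⟩ := cvbr_expand (h ⟨0, by omega⟩)
  have h3 : B v h = B v (Function.update h ⟨0, by omega⟩ (h ⟨0, by omega⟩)) := by
    rw [Function.update_eq_self]
  rw [h3, hN, MultilinearMap.map_update_sum]
  refine Finset.sum_eq_zero fun d _ => ?_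
  have h4 : ∀ s t, (Function.update h (⟨0, by omega⟩ : Fin r)
      (fun a b => MvPolynomial.homogeneousComponent d (h ⟨0, by omega⟩ a b))
      ⟨0, by omega⟩ s t).IsHomogeneous d := by
    intro s t
    rw [Function.update_self]
    exact MvPolynomial.homogeneousComponent_isHomogeneous d _
  rcases Nat.lt_or_ge 1 d with h5 | h5
  · exact cv_deg_bound hB v _ ⟨0, by omega⟩ d h4 (by omega)
  · exact cv_low_gauge hB v _ ⟨0, by omega⟩ d h5 h4

end Z_cv_big_r

alias cv_big_r := Z_cv_big_r.cv_big_r

end CInv
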