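import Pool.Agent.Helper767.Gjms.Defs
import Pool.Agent.Helper771.CInv.P_frame_decomp
import Pool.Agent.Helper771.CInv.P_curve_poly
import Pool.Agent.Helper771.CInv.P_fams

set_option linter.all false

open scoped BigOperators

namespace CInv

namespace Z_cv_onshell_frames

theorem dot_comm_19754 {n : ℕ} (u v : Fin n → ℂ) : dot u v = dot v u := by
  unfold dot
  exact Finset.sum_congr rfl fun i _ => mul_comm _ _

theorem dot_fam_19754 {n : ℕ} (k u w y : Fin n → ℂ) (σ : ℂ) :
    dot (k + σ • u - σ ^ 2 • w) y = dot k y + σ * dot u y - σ ^ 2 * dot w y := by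
  unfold dot
  rw [Finset.mul_sum, Finset.mul_sum, ← Finset.sum_add_distrib, ← Finset.sum_sub_distrib]
  refine Finset.sum_congr rfl fun i _ => ?_
  simp only [Pi.add_apply, Pi.sub_apply, Pi.smul_apply, smul_eq_mul]
  ring

theorem lin_fam_19754 {n : ℕ} (k u w : Fin n → ℂ) (σ : ℂ) :
    lin (k + σ • u - σ ^ 2 • w) = lin k + MvPolynomial.C σ * lin u
      - (MvPolynomial.C σ) ^ 2 * lin w := by
  unfold lin
  rw [Finset.mul_sum, Finset.mul_sum, ← Finset.sum_add_distrib, ← Finset.sum_sub_distrib]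
  refine Finset.sum_congr rfl fun i _ => ?_
  simp only [Pi.add_apply, Pi.sub_apply, Pi.smul_apply, smul_eq_mul, map_add, map_sub, map_mul,
    map_pow]
  ring

theorem fin_19754 (A B C : ℂ) (h : A ≠ 0 ∨ B ≠ 0 ∨ C ≠ 0) :
    {σ : ℂ | A + σ * B - σ ^ 2 * C = 0}.Finite := by
  set P : Polynomial ℂ := Polynomial.C A + Polynomial.X * Polynomial.C B
    - Polynomial.X ^ 2 * Polynomial.C C with hP
  have h0 : P.coeff 0 = A := by simp [hP, Polynomial.coeff_X_pow_mul']
  have h1 : P.coeff 1 = B := by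
    simp [hP, Polynomial.coeff_X_pow_mul', Polynomial.coeff_C]
  have h2 : P.coeff 2 = -C := by
    simp [hP, Polynomial.coeff_X_pow_mul', Polynomial.coeff_C]
  have hP0 : P ≠ 0 := by
    rintro h'
    rw [h'] at h0 h1 h2
    simp only [Polynomial.coeff_zero] at h0 h1 h2
    rcases h with h | h | h
    · exact h h0.symm
    · exact h h1.symm
    · exact h (by simpa using h2.symm)
  refine (Polynomial.finite_setOf_isRoot hP0).subset ?_
  intro σ hσ
  show P.eval σ = 0
  rw [hP]
  have hσ' : A + σ * B - σ ^ 2 * C = 0 := hσ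
  simp only [Polynomial.eval_add, Polynomial.eval_sub, Polynomial.eval_mul, Polynomial.eval_pow,
    Polynomial.eval_C, Polynomial.eval_X]
  exact hσ'

/-- the set of bad pairs -/
noncomputable def bad_19754 {n r : ℕ} (F : Fin r → Frame n) : Finset (Fin r × Fin r) :=
  open Classical in Finset.univ.filter fun p => p.1 ≠ p.2 ∧ dot (F p.1).k (F p.2).k = 0

theorem mem_bad_19754 {n r : ℕ} (F : Fin r → Frame n) (p : Fin r × Fin r) :
    p ∈ bad_19754 F ↔ p.1 ≠ p.2 ∧ dot (F p.1).k (F p.2).k = 0 := by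
  unfold bad_19754
  simp

theorem nu0_19754 {n : ℕ} (k l e : Fin n → ℂ) (a : ℕ) : nu k l e a 0 = tens (lin k ^ a) e e := by
  unfold nu
  rw [pow_zero, mul_one]

/-- exceptional parameters -/
def exc_19754 {n r : ℕ} (F : Fin r → Frame n) (i : Fin r) (P : Fin r → Prop) (u w : Fin n → ℂ) :
    Set ℂ :=
  ⋃ c : Fin r, {σ : ℂ | (dot (F i).k (F c).k ≠ 0 ∨ P c) ∧
    dot (F i).k (F c).k + σ * dot u (F c).k - σ ^ 2 * dot w (F c).k = 0}

theorem exc_fin_19754 {n r : ℕ} (F : Fin r → Frame n) (i : Fin r) (P : Fin r → Prop)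
    (u w : Fin n → ℂ) (hP : ∀ c, P c → dot u (F c).k ≠ 0 ∨ dot w (F c).k ≠ 0) :
    (exc_19754 F i P u w).Finite := by
  refine Set.finite_iUnion fun c => ?_
  by_cases hc : dot (F i).k (F c).k ≠ 0 ∨ P c
  · refine (fin_19754 (dot (F i).k (F c).k) (dot u (F c).k) (dot w (F c).k) ?_).subset
      (fun σ hσ => hσ.2)
    rcases hc with hc | hc
    · exact Or.inl hc
    · exact Or.inr (hP c hc)
  · refine Set.Finite.subset Set.finite_empty ?_
    intro σ hσ
    exact absurd hσ.1 hc

theorem sub_19754 {n r : ℕ} (F : Fin r → Frame n) (i : Fin r) (P : Fin r → Prop)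
    (u w : Fin n → ℂ) (σ : ℂ) (hσ : σ ∉ exc_19754 F i P u w) (G : Frame n)
    (hGk : G.k = (F i).k + σ • u - σ ^ 2 • w) :
    bad_19754 (Function.update F i G) ⊆ bad_19754 F := by
  intro p hp
  rw [mem_bad_19754] at hp ⊢
  refine ⟨hp.1, ?_⟩
  obtain ⟨hp1, hp2⟩ := hp
  by_cases h1 : p.1 = i
  · have h2 : p.2 ≠ i := fun h => hp1 (h1.trans h.symm)
    rw [h1, Function.update_self, Function.update_of_ne h2, hGk, dot_fam_19754] at hp2
    rw [h1]
    by_contra hcon
    exact hσ (Set.mem_iUnion.2 ⟨p.2, Or.inl hcon, hp2⟩)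
  · by_cases h2 : p.2 = i
    · rw [h2, Function.update_self, Function.update_of_ne h1, dot_comm_19754, hGk,
        dot_fam_19754] at hp2
      rw [h2, dot_comm_19754]
      by_contra hcon
      exact hσ (Set.mem_iUnion.2 ⟨p.1, Or.inl hcon, hp2⟩)
    · rwa [Function.update_of_ne h1, Function.update_of_ne h2] at hp2

theorem upd_19754 {n r : ℕ} (F : Fin r → Frame n) (a : Fin r → ℕ) (i : Fin r) (u w u' : Fin n → ℂ)
    (σ : ℂ) (G : Frame n) (hGk : G.k = (F i).k + σ • u - σ ^ 2 • w) (hGe : G.e = (F i).e - σ • u') :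
    (fun c => nu (Function.update F i G c).k (Function.update F i G c).l
        (Function.update F i G c).e (a c) 0)
      = Function.update (fun c => nu (F c).k (F c).l (F c).e (a c) 0) i
        (tens (lin ((F i).k + σ • u - σ ^ 2 • w) ^ a i)
          ((F i).e - σ • u') ((F i).e - σ • u')) := by
  funext c
  by_cases hc : c = i
  · subst hc
    simp only [Function.update_self]
    rw [nu0_19754, hGk, hGe]
  · simp only [Function.update_of_ne hc]

/-- vanishing along the family for almost all parameters implies vanishing -/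
theorem lim_19754 {n r : ℕ} {B : MultilinearMap ℂ (fun _ : Fin r => Mx n) ℂ}
    (F : Fin r → Frame n) (a : Fin r → ℕ) (i : Fin r) (u w u' : Fin n → ℂ) (E : Set ℂ)
    (hEfin : E.Finite)
    (hgood : ∀ σ ∉ E, B (Function.update (fun c => nu (F c).k (F c).l (F c).e (a c) 0) i
      (tens (lin ((F i).k + σ • u - σ ^ 2 • w) ^ a i)
        ((F i).e - σ • u') ((F i).e - σ • u'))) = 0) :
    B (fun i => nu (F i).k (F i).l (F i).e (a i) 0) = 0 := by
  classical
  set m : Fin r → Mx n := fun i => nu (F i).k (F i).l (F i).e (a i) 0 with hm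
  set Θ : Fin n → Fin n → Polynomial (MvPolynomial (Fin n) ℂ) := fun p q =>
    (Polynomial.C (lin (F i).k) + Polynomial.X * Polynomial.C (lin u)
      - Polynomial.X ^ 2 * Polynomial.C (lin w)) ^ a i
    * ((Polynomial.C (MvPolynomial.C ((F i).e p)) - Polynomial.X
        * Polynomial.C (MvPolynomial.C (u' p)))
      * (Polynomial.C (MvPolynomial.C ((F i).e q)) - Polynomial.X
        * Polynomial.C (MvPolynomial.C (u' q)))) with hΘ
  have hev : ∀ σ : ℂ, (fun p q => (Θ p q).eval (MvPolynomial.C σ))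
      = tens (lin ((F i).k + σ • u - σ ^ 2 • w) ^ a i)
      ((F i).e - σ • u') ((F i).e - σ • u') := by
    intro σ
    funext p q
    simp only [hΘ, tens, lin_fam_19754, Polynomial.eval_mul, Polynomial.eval_pow,
      Polynomial.eval_add, Polynomial.eval_sub, Polynomial.eval_C, Polynomial.eval_X, Pi.sub_apply,
      Pi.smul_apply, smul_eq_mul, map_mul, map_sub]
  have hinf : {σ : ℂ | (B.toLinearMap m i) (fun p q => (Θ p q).eval (MvPolynomial.C σ)) = 0}.Infinite := by
    refine Set.Infinite.mono ?_ (hEfin.infinite_compl)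
    intro σ hσ
    show (B.toLinearMap m i) _ = 0
    rw [hev]
    exact hgood σ hσ
  have h5 := curve_poly (B.toLinearMap m i) Θ hinf 0
  have e0 : (fun p q => (Θ p q).coeff 0) = m i := by
    funext p q
    rw [Polynomial.coeff_zero_eq_eval_zero]
    simp only [hΘ, hm, nu0_19754, tens, Polynomial.eval_mul, Polynomial.eval_pow,
      Polynomial.eval_add, Polynomial.eval_sub, Polynomial.eval_C, Polynomial.eval_X, zero_mul,
      add_zero, sub_zero, map_mul]
    rw [zero_pow two_ne_zero, zero_mul, sub_zero]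
  rw [e0] at h5
  have h6 : (B.toLinearMap m i) (m i) = B m := by
    show B (Function.update m i (m i)) = B m
    rw [Function.update_eq_self]
  rw [← h6]
  exact h5

theorem step_19754 {n r : ℕ} {B : MultilinearMap ℂ (fun _ : Fin r => Mx n) ℂ}
    (F : Fin r → Frame n) (a : Fin r → ℕ) (i j : Fin r) (hij : i ≠ j)
    (hbad : dot (F i).k (F j).k = 0) (u w u' : Fin n → ℂ)
    (hfam : ∀ σ : ℂ, ∃ G : Frame n, G.k = (F i).k + σ • u - σ ^ 2 • w ∧ G.e = (F i).e - σ • u')
    (hne : dot u (F j).k ≠ 0 ∨ dot w (F j).k ≠ 0)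
    (IH : ∀ G : Fin r → Frame n, (bad_19754 G).card < (bad_19754 F).card →
      B (fun i => nu (G i).k (G i).l (G i).e (a i) 0) = 0) :
    B (fun i => nu (F i).k (F i).l (F i).e (a i) 0) = 0 := by
  classical
  refine lim_19754 F a i u w u' (exc_19754 F i (fun c => c = j) u w)
    (exc_fin_19754 F i _ u w (fun c hc => by rw [hc]; exact hne)) ?_
  intro σ hσ
  obtain ⟨G, hGk, hGe⟩ := hfam σ
  rw [← upd_19754 F a i u w u' σ G hGk hGe]
  apply IH
  apply Finset.card_lt_card
  rw [Finset.ssubset_iff_of_subset (sub_19754 F i _ u w σ hσ G hGk)]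
  refine ⟨(i, j), ?_, ?_⟩
  · rw [mem_bad_19754]; exact ⟨hij, hbad⟩
  · rw [mem_bad_19754]
    rintro ⟨-, h⟩
    simp only [Function.update_self, Function.update_of_ne hij.symm] at h
    rw [hGk, dot_fam_19754] at h
    exact hσ (Set.mem_iUnion.2 ⟨j, Or.inr rfl, h⟩)

theorem core_19754 {n r : ℕ} {B : MultilinearMap ℂ (fun _ : Fin r => Mx n) ℂ}
    (hB : ∀ k e : Fin r → Fin n → ℂ, (∀ i, dot (k i) (k i) = 0) → (∀ i, dot (k i) (e i) = 0) →
      (∀ i, dot (e i) (e i) = 0) → (∀ i j, i ≠ j → dot (k i) (k j) ≠ 0) →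
      ∀ a : Fin r → ℕ, B (fun i => tens (lin (k i) ^ a i) (e i) (e i)) = 0)
    (F : Fin r → Frame n) (a : Fin r → ℕ) :
    B (fun i => nu (F i).k (F i).l (F i).e (a i) 0) = 0 := by
  classical
  induction hN : (bad_19754 F).card using Nat.strong_induction_on generalizing F with
  | _ N ih =>
    subst hN
    have IH : ∀ G : Fin r → Frame n, (bad_19754 G).card < (bad_19754 F).card →
        B (fun i => nu (G i).k (G i).l (G i).e (a i) 0) = 0 := fun G hG => ih _ hG G rfl
    by_cases hb : bad_19754 F = ∅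
    · have h := hB (fun i => (F i).k) (fun i => (F i).e) (fun i => (F i).kk)
        (fun i => (F i).ke) (fun i => (F i).ee) (fun i j hij h0 => by
          have : ((i, j) : Fin r × Fin r) ∈ bad_19754 F := (mem_bad_19754 F _).2 ⟨hij, h0⟩
          rw [hb] at this
          exact absurd this (Finset.notMem_empty _)) a
      have e : (fun i => nu (F i).k (F i).l (F i).e (a i) 0)
          = fun i => tens (lin ((F i).k) ^ a i) ((F i).e) ((F i).e) := by
        funext i
        rw [nu0_19754]
      rw [e]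
      exact h
    · obtain ⟨p, hp⟩ := Finset.nonempty_iff_ne_empty.2 hb
      rw [mem_bad_19754] at hp
      obtain ⟨hij, hbad⟩ := hp
      set i := p.1
      set j := p.2
      by_cases h1 : ∃ α, dot ((F i).f α) (F j).k ≠ 0 ∨ dot (F i).l (F j).k ≠ 0
      · obtain ⟨α, hα⟩ := h1
        refine step_19754 F a i j hij hbad ((F i).f α) (F i).l 0 (fun σ => ?_) hα IH
        obtain ⟨G, h1, h2, h3, h4⟩ := (fams (F i) σ).1 α
        exact ⟨G, h1, by rw [h3, smul_zero, sub_zero]⟩
      by_cases h2 : dot (F i).e' (F j).k ≠ 0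
      · refine step_19754 F a i j hij hbad (F i).e' 0 (F i).l (fun σ => ?_) (Or.inl h2) IH
        obtain ⟨G, h1, h2, h3, h4⟩ := (fams (F i) σ).2.1
        exact ⟨G, by rw [h1, smul_zero, sub_zero], h3⟩
      by_cases h3 : dot (F i).e (F j).k ≠ 0
      · refine step_19754 F a i j hij hbad (F i).e 0 0 (fun σ => ?_) (Or.inl h3) IH
        obtain ⟨G, h1, h2, h3, h4⟩ := (fams (F i) σ).2.2.1
        exact ⟨G, by rw [h1, smul_zero, sub_zero], by rw [h3, smul_zero, sub_zero]⟩
      push Not at h1 h2 h3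
      -- the remaining case
      have hyl : dot (F i).l (F j).k ≠ 0 := by
        intro hl0
        have hy : (F j).k = 0 := by
          rw [frame_decomp (F i) (F j).k, dot_comm_19754 (F j).k (F i).l, hl0,
            dot_comm_19754 (F j).k (F i).k, hbad, dot_comm_19754 (F j).k (F i).e', h2,
            dot_comm_19754 (F j).k (F i).e, h3]
          simp only [mul_zero, zero_smul, add_zero, zero_add]
          refine Finset.sum_eq_zero fun α _ => ?_
          rw [dot_comm_19754, (h1 α).1, zero_smul]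
        have h4 := (F j).kl
        rw [hy] at h4
        unfold dot at h4
        simp at h4
      refine lim_19754 F a i (F i).e 0 0 (exc_19754 F i (fun _ => False) (F i).e 0 ∪ {0})
        ((exc_fin_19754 F i _ _ _ (fun c hc => absurd hc id)).union (Set.finite_singleton 0)) ?_
      intro σ hσ
      have hσ1 : σ ∉ exc_19754 F i (fun _ => False) (F i).e 0 := fun h => hσ (Or.inl h)
      have hσ0 : σ ≠ 0 := fun h => hσ (Or.inr h)
      obtain ⟨G, g1, g2, g3, g4, g5⟩ := (fams (F i) σ).2.2.1
      have hGk : G.k = (F i).k + σ • (F i).e - σ ^ 2 • (0 : Fin n → ℂ) := by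
        rw [g1, smul_zero, sub_zero]
      have hGe : G.e = (F i).e - σ • (0 : Fin n → ℂ) := by rw [g3, smul_zero, sub_zero]
      rw [← upd_19754 F a i (F i).e 0 0 σ G hGk hGe]
      have hle : (bad_19754 (Function.update F i G)).card ≤ (bad_19754 F).card :=
        Finset.card_le_card (sub_19754 F i _ _ _ σ hσ1 G hGk)
      have hIH : ∀ G' : Fin r → Frame n, (bad_19754 G').card <
          (bad_19754 (Function.update F i G)).card →
          B (fun i => nu (G' i).k (G' i).l (G' i).e (a i) 0) = 0 :=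
        fun G' hG' => IH G' (lt_of_lt_of_le hG' hle)
      have hii : Function.update F i G i = G := Function.update_self _ _ _
      have hjj : Function.update F i G j = F j := Function.update_of_ne hij.symm _ _
      refine step_19754 (Function.update F i G) a i j hij ?_ G.e' 0 G.l (fun τ => ?_)
        (Or.inl ?_) hIH
      · rw [hii, hjj, hGk, dot_fam_19754, hbad, h3]
        unfold dot
        simp
      · rw [hii]
        obtain ⟨G', q1, q2, q3, q4⟩ := (fams G τ).2.1
        exact ⟨G', by rw [q1, smul_zero, sub_zero], q3⟩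
      · rw [hjj, g4]
        have e1 : (F i).e' - σ • (F i).l = (F i).e' + (-σ) • (F i).l - (-σ) ^ 2 • (0 : Fin n → ℂ) := by
          rw [smul_zero, sub_zero, neg_smul, sub_eq_add_neg]
        rw [e1, dot_fam_19754, h2]
        have e2 : dot (0 : Fin n → ℂ) (F j).k = 0 := by
          unfold dot
          simp
        rw [e2, mul_zero, sub_zero, zero_add]
        exact mul_ne_zero (neg_ne_zero.2 hσ0) hyl

theorem cv_onshell_frames {n r : ℕ} (hn : 4 ≤ n)
    {B : MvPolynomial (Fin n) ℂ →ₗ[ℂ] MultilinearMap ℂ (fun _ : Fin r => Mx n) ℂ}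
    (hB : GoodFormV n r B) (F : Fin r → Frame n) (a : Fin r → ℕ) (v : MvPolynomial (Fin n) ℂ) :
    B v (fun i => nu (F i).k (F i).l (F i).e (a i) 0) = 0 :=
  core_19754 (fun k e h1 h2 h3 h4 a => hB.onshell k e h1 h2 h3 h4 a v) F a

end Z_cv_onshell_frames

alias cv_onshell_frames := Z_cv_onshell_frames.cv_onshell_frames

end CInv
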