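import Pool.Agent.Helper767.Gjms.Defs

set_option linter.all false

open scoped BigOperators

namespace CInv

namespace Z_cv_span

section CoreSpan
open MvPolynomial

theorem cs_lin_add {n : ℕ} (u v : Fin n → ℂ) : lin (fun i => u i + v i) = lin u + lin v := by
  simp [lin, add_mul, Finset.sum_add_distrib]

theorem cs_lin_smul {n : ℕ} (c : ℂ) (u : Fin n → ℂ) :
    lin (fun i => c * u i) = MvPolynomial.C c * lin u := by
  simp [lin, Finset.mul_sum, mul_assoc]

theorem cs_lin_single {n : ℕ} (i : Fin n) :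
    lin (fun k => if k = i then (1:ℂ) else 0) = MvPolynomial.X i := by
  simp [lin]

theorem cs_stepA {n : ℕ} (L' : MvPolynomial (Fin n) ℂ →ₗ[ℂ] ℂ)
    (h : ∀ (q : Fin n → ℝ) (D : ℕ), L' (lin (fun i => (q i : ℂ)) ^ D) = 0) (p : MvPolynomial (Fin n) ℂ) :
    L' p = 0 := by
  have key : ∀ p : MvPolynomial (Fin n) ℂ, ∀ (q : Fin n → ℝ) (D : ℕ),
      L' (p * lin (fun i => (q i : ℂ)) ^ D) = 0 := by
    intro p
    induction p using MvPolynomial.induction_on with
    | C a => intro q D; rw [← MvPolynomial.smul_eq_C_mul, map_smul, h, smul_zero]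
    | add p p' hp hp' => intro q D; rw [add_mul, map_add, hp, hp', add_zero]
    | mul_X p i hp =>
      intro q D
      set a : ℕ → ℂ := fun j => ((D + 1).choose j : ℂ) *
        L' (p * (MvPolynomial.X i ^ j * lin (fun i => (q i : ℂ)) ^ (D + 1 - j))) with ha
      set f : Polynomial ℂ := ∑ j ∈ Finset.range (D + 2), Polynomial.C (a j) * Polynomial.X ^ j with hf
      have hroot : ∀ t : ℝ, f.eval (t : ℂ) = 0 := by
        intro t
        have h0 := hp (fun k => t * (if k = i then 1 else 0) + q k) (D + 1)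
        have e1 : lin (fun k => ((t * (if k = i then 1 else 0) + q k : ℝ) : ℂ)) =
            MvPolynomial.C (t : ℂ) * MvPolynomial.X i + lin (fun i => (q i : ℂ)) := by
          rw [← cs_lin_single i, ← cs_lin_smul, ← cs_lin_add]
          congr 1
          funext k
          by_cases hk : k = i <;> simp [hk]
        rw [e1, add_pow, Finset.mul_sum, map_sum] at h0
        rw [hf, Polynomial.eval_finset_sum, ← h0]
        refine Finset.sum_congr rfl fun j _ => ?_
        have e2 : p * ((MvPolynomial.C (t : ℂ) * MvPolynomial.X i) ^ j *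
            lin (fun i => (q i : ℂ)) ^ (D + 1 - j) * ((D + 1).choose j : MvPolynomial (Fin n) ℂ)) =
            (((t : ℂ) ^ j * ((D + 1).choose j : ℂ)) : ℂ) •
              (p * (MvPolynomial.X i ^ j * lin (fun i => (q i : ℂ)) ^ (D + 1 - j))) := by
          rw [MvPolynomial.smul_eq_C_mul, map_mul, map_pow, map_natCast, mul_pow]
          ring
        rw [e2, map_smul, ha]
        simp only [Polynomial.eval_mul, Polynomial.eval_C, Polynomial.eval_pow, Polynomial.eval_X,
          smul_eq_mul]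
        ring
      have hf0 : f = 0 := by
        refine Polynomial.eq_zero_of_infinite_isRoot f ?_
        refine (Set.infinite_range_of_injective Complex.ofReal_injective).mono ?_
        rintro _ ⟨t, rfl⟩
        exact hroot t
      have hc : f.coeff 1 = a 1 := by
        rw [hf, Polynomial.finset_sum_coeff, Finset.sum_eq_single 1]
        · simp
        · intro j _ hj
          simp [Polynomial.coeff_X_pow, hj.symm]
        · intro hn
          exact absurd (Finset.mem_range.2 (by omega)) hn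
      rw [hf0, Polynomial.coeff_zero] at hc
      have h1 : ((D + 1).choose 1 : ℂ) ≠ 0 := by
        rw [Nat.choose_one_right]
        exact_mod_cast Nat.succ_ne_zero D
      have h2 := (mul_eq_zero.1 hc.symm).resolve_left h1
      rw [pow_one, Nat.add_sub_cancel, ← mul_assoc] at h2
      exact h2
  have := key p 0 0
  simpa using this

theorem cs_dot_comm {n : ℕ} (u v : Fin n → ℂ) : dot u v = dot v u := by
  unfold dot
  exact Finset.sum_congr rfl fun i _ => mul_comm _ _

theorem cs_dot_cmb {n : ℕ} (a b c d : ℂ) (u v u' v' : Fin n → ℂ) :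
    dot (fun i => a * u i + b * v i) (fun i => c * u' i + d * v' i) =
      a * c * dot u u' + a * d * dot u v' + b * c * dot v u' + b * d * dot v v' := by
  simp only [dot, Finset.mul_sum, ← Finset.sum_add_distrib]
  exact Finset.sum_congr rfl fun i _ => by ring

theorem cs_dot_cmb1 {n : ℕ} (a b : ℂ) (u v w : Fin n → ℂ) :
    dot (fun i => a * u i + b * v i) w = a * dot u w + b * dot v w := by
  simp only [dot, Finset.mul_sum, ← Finset.sum_add_distrib]
  exact Finset.sum_congr rfl fun i _ => by ring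

theorem cs_sum_split {n : ℕ} (hn : 4 ≤ n) (F : Fin n → ℂ) : ∑ a, F a =
    F ⟨0, by omega⟩ + F ⟨1, by omega⟩ + F ⟨2, by omega⟩ + F ⟨3, by omega⟩ +
      ∑ α : Fin (n - 4), F ⟨α.1 + 4, by omega⟩ := by
  obtain ⟨N, rfl⟩ : ∃ N, n = N + 4 := ⟨n - 4, by omega⟩
  have h : ∑ α : Fin (N + 4 - 4), F ⟨α.1 + 4, by omega⟩ = ∑ α : Fin N, F ⟨α.1 + 4, by omega⟩ := rfl
  rw [h]
  simp only [Fin.sum_univ_succ]
  have e0 : (0 : Fin (N + 4)) = ⟨0, by omega⟩ := rfl
  have e1 : (Fin.succ 0 : Fin (N + 4)) = ⟨1, by omega⟩ := rfl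
  have e2 : (Fin.succ (Fin.succ 0) : Fin (N + 4)) = ⟨2, by omega⟩ := rfl
  have e3 : (Fin.succ (Fin.succ (Fin.succ 0)) : Fin (N + 4)) = ⟨3, by omega⟩ := rfl
  have e4 : ∀ α : Fin N, (Fin.succ (Fin.succ (Fin.succ (Fin.succ α))) : Fin (N + 4)) =
    ⟨α.1 + 4, by omega⟩ := fun α => rfl
  simp only [e0, e1, e2, e3, e4]
  ring

/-- the frame attached to an orthonormal family -/
noncomputable def csFrame {n : ℕ} (hn : 4 ≤ n) (F : Fin n → Fin n → ℂ)
    (hr : ∀ a b, dot (F a) (F b) = if a = b then 1 else 0)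
    (hc : ∀ i j, ∑ a, F a i * F a j = if i = j then 1 else 0) (s : ℂ) (hs : s * s = 1) :
    Frame n where
  k := fun i => (1 / 2) * F ⟨0, by omega⟩ i + (-(Complex.I / 2)) * F ⟨3, by omega⟩ i
  l := fun i => (1 / 2) * F ⟨0, by omega⟩ i + (Complex.I / 2) * F ⟨3, by omega⟩ i
  e := fun i => 1 * F ⟨1, by omega⟩ i + (s * Complex.I) * F ⟨2, by omega⟩ i
  e' := fun i => (1 / 4) * F ⟨1, by omega⟩ i + (-(s * Complex.I / 4)) * F ⟨2, by omega⟩ i
  f := fun α => F ⟨α.1 + 4, by omega⟩
  kk := by
    rw [cs_dot_cmb]; simp only [hr, Fin.mk.injEq]; norm_num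
    linear_combination (1/4) * Complex.I_sq
  ll := by
    rw [cs_dot_cmb]; simp only [hr, Fin.mk.injEq]; norm_num
    linear_combination (1/4) * Complex.I_sq
  ee := by
    rw [cs_dot_cmb]; simp only [hr, Fin.mk.injEq]; norm_num
    linear_combination Complex.I_sq * (s * s) - hs
  ee' := by
    rw [cs_dot_cmb]; simp only [hr, Fin.mk.injEq]; norm_num
    linear_combination (1/16) * (Complex.I_sq * (s * s) - hs)
  kl := by
    rw [cs_dot_cmb]; simp only [hr, Fin.mk.injEq]; norm_num
    linear_combination -(1/4) * Complex.I_sq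
  hee' := by
    rw [cs_dot_cmb]; simp only [hr, Fin.mk.injEq]; norm_num
    linear_combination -(1/4) * (Complex.I_sq * (s * s) - hs)
  ke := by
    rw [cs_dot_cmb]; simp only [hr, Fin.mk.injEq]; norm_num
  ke' := by
    rw [cs_dot_cmb]; simp only [hr, Fin.mk.injEq]; norm_num
  le := by
    rw [cs_dot_cmb]; simp only [hr, Fin.mk.injEq]; norm_num
  le' := by
    rw [cs_dot_cmb]; simp only [hr, Fin.mk.injEq]; norm_num
  kf := by
    intro α
    rw [cs_dot_cmb1]; simp only [hr, Fin.mk.injEq]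
    rw [if_neg (by omega), if_neg (by omega)]; ring
  lf := by
    intro α
    rw [cs_dot_cmb1]; simp only [hr, Fin.mk.injEq]
    rw [if_neg (by omega), if_neg (by omega)]; ring
  ef := by
    intro α
    rw [cs_dot_cmb1]; simp only [hr, Fin.mk.injEq]
    rw [if_neg (by omega), if_neg (by omega)]; ring
  e'f := by
    intro α
    rw [cs_dot_cmb1]; simp only [hr, Fin.mk.injEq]
    rw [if_neg (by omega), if_neg (by omega)]; ring
  ff := by
    intro α β
    rw [hr]
    by_cases h : α = β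
    · subst h; simp
    · rw [if_neg h, if_neg]
      intro h2
      rw [Fin.mk.injEq] at h2
      exact h (Fin.ext (by omega))
  compl := by
    intro i j
    rw [← hc i j, cs_sum_split hn]
    linear_combination (-(F ⟨3, by omega⟩ i * F ⟨3, by omega⟩ j)) * Complex.I_sq
      - (F ⟨2, by omega⟩ i * F ⟨2, by omega⟩ j) * (Complex.I_sq * (s * s) - hs)

/-- the bilinear form attached to a polynomial -/
noncomputable def csB {n : ℕ} (L : Mx n →ₗ[ℂ] ℂ) (p : MvPolynomial (Fin n) ℂ) :
    (Fin n → ℂ) →ₗ[ℂ] (Fin n → ℂ) →ₗ[ℂ] ℂ :=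
  LinearMap.mk₂ ℂ (fun u w => L (tens p u w))
    (by
      intro u u' w
      rw [← map_add]
      congr 1
      funext i j
      simp only [tens, Pi.add_apply, add_mul, map_add, mul_add])
    (by
      intro c u w
      rw [← map_smul]
      congr 1
      funext i j
      simp only [tens, Pi.smul_apply, smul_eq_mul, MvPolynomial.smul_eq_C_mul, map_mul]
      ring)
    (by
      intro u w w'
      rw [← map_add]
      congr 1
      funext i j
      simp only [tens, Pi.add_apply, mul_add, map_add])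
    (by
      intro c u w
      rw [← map_smul]
      congr 1
      funext i j
      simp only [tens, Pi.smul_apply, smul_eq_mul, MvPolynomial.smul_eq_C_mul, map_mul]
      ring)

theorem csB_apply {n : ℕ} (L : Mx n →ₗ[ℂ] ℂ) (p : MvPolynomial (Fin n) ℂ) (u w : Fin n → ℂ) :
    csB L p u w = L (tens p u w) := rfl

theorem cs_pdv_lin {n : ℕ} (i : Fin n) (k : Fin n → ℂ) :
    pdv i (lin k) = MvPolynomial.C (k i) := by
  classical
  unfold pdv lin
  rw [map_sum, Finset.sum_eq_single i]
  · rw [MvPolynomial.pderiv_C_mul, MvPolynomial.pderiv_X_self, mul_one]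
  · intro j _ hj
    rw [MvPolynomial.pderiv_C_mul, MvPolynomial.pderiv_X_of_ne hj, mul_zero]
  · intro h; exact absurd (Finset.mem_univ _) h

theorem cs_perm {n : ℕ} (hn : 4 ≤ n) (a b : Fin n) (hab : a ≠ b) (ha : a ≠ ⟨0, by omega⟩)
    (hb : b ≠ ⟨0, by omega⟩) : ∃ σ : Equiv.Perm (Fin n), σ ⟨0, by omega⟩ = ⟨0, by omega⟩ ∧
      σ ⟨1, by omega⟩ = a ∧ σ ⟨2, by omega⟩ = b := by
  set o : Fin n := ⟨0, by omega⟩ with ho
  set x : Fin n := ⟨1, by omega⟩ with hx
  set y : Fin n := ⟨2, by omega⟩ with hy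
  have hox : o ≠ x := by rw [ho, hx, Ne, Fin.mk.injEq]; omega
  have hoy : o ≠ y := by rw [ho, hy, Ne, Fin.mk.injEq]; omega
  have hxy : x ≠ y := by rw [hx, hy, Ne, Fin.mk.injEq]; omega
  set b' : Fin n := Equiv.swap x a b with hb'
  have hb'x : b' ≠ x := by
    intro h
    have h2 : Equiv.swap x a b' = Equiv.swap x a x := by rw [h]
    rw [hb', Equiv.swap_apply_self, Equiv.swap_apply_left] at h2
    exact hab h2.symm
  have hb'o : b' ≠ o := by
    intro h
    have h2 : Equiv.swap x a b' = Equiv.swap x a o := by rw [h]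
    rw [hb', Equiv.swap_apply_self, Equiv.swap_apply_of_ne_of_ne hox ha.symm] at h2
    exact hb h2
  refine ⟨Equiv.swap x a * Equiv.swap y b', ?_, ?_, ?_⟩
  · rw [Equiv.Perm.mul_apply, Equiv.swap_apply_of_ne_of_ne hoy hb'o.symm,
      Equiv.swap_apply_of_ne_of_ne hox ha.symm]
  · rw [Equiv.Perm.mul_apply, Equiv.swap_apply_of_ne_of_ne hxy hb'x.symm, Equiv.swap_apply_left]
  · rw [Equiv.Perm.mul_apply, Equiv.swap_apply_left, hb', Equiv.swap_apply_self]

theorem cs_onb {n : ℕ} (hn : 4 ≤ n) (q : Fin n → ℝ) (hq : ∑ i, q i * q i = 1) :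
    ∃ F : Fin n → Fin n → ℂ, (∀ i, F ⟨0, by omega⟩ i = (q i : ℂ)) ∧
      (∀ a b, dot (F a) (F b) = if a = b then 1 else 0) ∧
      (∀ i j, ∑ a, F a i * F a j = if i = j then 1 else 0) := by
  classical
  set v : Fin n → EuclideanSpace ℝ (Fin n) := fun _ => WithLp.toLp 2 q with hv
  have hnorm : ‖(WithLp.toLp 2 q : EuclideanSpace ℝ (Fin n))‖ = 1 := by
    rw [EuclideanSpace.norm_eq]
    have : ∑ i, ‖(WithLp.toLp 2 q : EuclideanSpace ℝ (Fin n)) i‖ ^ 2 = 1 := by
      rw [← hq]
      refine Finset.sum_congr rfl fun i _ => ?_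
      rw [Real.norm_eq_abs, sq_abs]
      show q i ^ 2 = _
      ring
    rw [this, Real.sqrt_one]
  have horth : Orthonormal ℝ (Set.domRestrict ({⟨0, by omega⟩} : Set (Fin n)) v) := by
    constructor
    · intro i; exact hnorm
    · intro i j hij
      exact absurd (Subtype.ext (by rw [Set.mem_singleton_iff.1 i.2, Set.mem_singleton_iff.1 j.2])) hij
  obtain ⟨b, hb⟩ := Orthonormal.exists_orthonormalBasis_extension_of_card_eq (𝕜 := ℝ)
    (E := EuclideanSpace ℝ (Fin n)) (ι := Fin n) (by simp) horth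
  have hb0 : b ⟨0, by omega⟩ = WithLp.toLp 2 q := hb _ rfl
  set F : Fin n → Fin n → ℂ := fun a i => ((b a i : ℝ) : ℂ) with hF
  have hr : ∀ a c, dot (F a) (F c) = if a = c then 1 else 0 := by
    intro a c
    have h1 := orthonormal_iff_ite.1 b.orthonormal a c
    rw [PiLp.inner_apply] at h1
    have h2 : ∑ i, b a i * b c i = if a = c then 1 else 0 := by
      rw [← h1]
      refine Finset.sum_congr rfl fun i _ => ?_
      simp [mul_comm]
    have h3 : dot (F a) (F c) = ((∑ i, b a i * b c i : ℝ) : ℂ) := by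
      unfold dot
      push_cast
      rfl
    rw [h3, h2]
    split_ifs <;> simp
  refine ⟨F, fun i => ?_, hr, ?_⟩
  · show ((b ⟨0, by omega⟩ i : ℝ) : ℂ) = (q i : ℂ)
    rw [hb0]
  · have hM : Matrix.of F * (Matrix.of F).transpose = 1 := by
      ext a c
      rw [Matrix.mul_apply, Matrix.one_apply, ← hr a c]
      rfl
    have hM2 := mul_eq_one_comm.1 hM
    intro i j
    have h4 := congrFun (congrFun hM2 i) j
    rw [Matrix.mul_apply, Matrix.one_apply] at h4
    exact h4

theorem cs_symm {n : ℕ} (L : Mx n →ₗ[ℂ] ℂ)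
    (h3 : ∀ y : Mx n, L (fun a b => y b a) = L y) (p : MvPolynomial (Fin n) ℂ)
    (u w : Fin n → ℂ) : csB L p u w = csB L p w u := by
  rw [csB_apply, csB_apply, ← h3 (tens p u w)]
  congr 1
  funext i j
  simp only [tens]
  rw [mul_comm (u j)]

theorem cs_gauge {n : ℕ} (L : Mx n →ₗ[ℂ] ℂ)
    (h1 : ∀ X : Fin n → MvPolynomial (Fin n) ℂ, L (lieEta X) = 0)
    (h3 : ∀ y : Mx n, L (fun a b => y b a) = L y) (q : Fin n → ℂ) (D : ℕ)
    (v : Fin n → ℂ) : csB L (lin q ^ D) q v = 0 := by
  have e : lieEta (fun j => MvPolynomial.C (v j / ((D : ℂ) + 1)) * lin q ^ (D + 1)) =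
      tens (lin q ^ D) q v + tens (lin q ^ D) v q := by
    funext i j
    have hD : ((D : ℂ) + 1) ≠ 0 := by exact_mod_cast Nat.succ_ne_zero D
    have hder : ∀ (i : Fin n) (c : ℂ), pdv i (MvPolynomial.C (c / ((D : ℂ) + 1)) * lin q ^ (D + 1)) =
        lin q ^ D * MvPolynomial.C (q i * c) := by
      intro i c
      have h5 : pdv i (lin q) = MvPolynomial.C (q i) := cs_pdv_lin i q
      unfold pdv at h5 ⊢
      rw [MvPolynomial.pderiv_C_mul, MvPolynomial.pderiv_pow, h5, Nat.add_sub_cancel]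
      have h6 : MvPolynomial.C (c / ((D : ℂ) + 1)) * (((D + 1 : ℕ) : MvPolynomial (Fin n) ℂ)) =
          MvPolynomial.C c := by
        have : (((D + 1 : ℕ) : MvPolynomial (Fin n) ℂ)) = MvPolynomial.C ((D : ℂ) + 1) := by
          simp
        rw [this, ← map_mul, div_mul_cancel₀ _ hD]
      calc MvPolynomial.C (c / ((D : ℂ) + 1)) * (((D + 1 : ℕ) : MvPolynomial (Fin n) ℂ) *
            lin q ^ D * MvPolynomial.C (q i)) =
          (MvPolynomial.C (c / ((D : ℂ) + 1)) * (((D + 1 : ℕ) : MvPolynomial (Fin n) ℂ))) *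
            (lin q ^ D * MvPolynomial.C (q i)) := by ring
        _ = lin q ^ D * MvPolynomial.C (q i * c) := by
          rw [h6, map_mul]; ring
    show pdv i _ + pdv j _ = lin q ^ D * MvPolynomial.C (q i * v j) +
      lin q ^ D * MvPolynomial.C (v i * q j)
    rw [hder, hder, mul_comm (q j)]
  have h5 := h1 (fun j => MvPolynomial.C (v j / ((D : ℂ) + 1)) * lin q ^ (D + 1))
  rw [e, map_add, ← csB_apply, ← csB_apply, cs_symm L h3 _ v q] at h5
  have h6 : (2:ℂ) * csB L (lin q ^ D) q v = 0 := by linear_combination h5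
  exact (mul_eq_zero.1 h6).resolve_left two_ne_zero

theorem cs_trace {n : ℕ} (L : Mx n →ₗ[ℂ] ℂ)
    (h2 : ∀ f : MvPolynomial (Fin n) ℂ, L (fun a b => if a = b then f else 0) = 0)
    (p : MvPolynomial (Fin n) ℂ) (F : Fin n → Fin n → ℂ)
    (hc : ∀ i j, ∑ a, F a i * F a j = if i = j then 1 else 0) :
    ∑ a, csB L p (F a) (F a) = 0 := by
  rw [← h2 p]
  simp only [csB_apply]
  rw [← map_sum]
  congr 1
  funext i j
  rw [Finset.sum_apply, Finset.sum_apply]
  simp only [tens]
  rw [← Finset.mul_sum, ← map_sum, hc]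
  split_ifs <;> simp

theorem cs_pair {n : ℕ} (hn : 4 ≤ n) (L : Mx n →ₗ[ℂ] ℂ)
    (h3 : ∀ y : Mx n, L (fun a b => y b a) = L y)
    (h4 : ∀ (F : Frame n) (a m : ℕ), L (nu F.k F.l F.e a m) = 0)
    (F : Fin n → Fin n → ℂ)
    (hr : ∀ a b, dot (F a) (F b) = if a = b then 1 else 0)
    (hc : ∀ i j, ∑ a, F a i * F a j = if i = j then 1 else 0) (D : ℕ) :
    csB L (lin (F ⟨0, by omega⟩) ^ D) (F ⟨1, by omega⟩) (F ⟨1, by omega⟩) =
      csB L (lin (F ⟨0, by omega⟩) ^ D) (F ⟨2, by omega⟩) (F ⟨2, by omega⟩) ∧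
    csB L (lin (F ⟨0, by omega⟩) ^ D) (F ⟨1, by omega⟩) (F ⟨2, by omega⟩) = 0 := by
  have key : ∀ s : ℂ, ∀ hs : s * s = 1,
      csB L (lin (F ⟨0, by omega⟩) ^ D) (F ⟨1, by omega⟩) (F ⟨1, by omega⟩)
        - csB L (lin (F ⟨0, by omega⟩) ^ D) (F ⟨2, by omega⟩) (F ⟨2, by omega⟩)
        + 2 * s * Complex.I *
          csB L (lin (F ⟨0, by omega⟩) ^ D) (F ⟨1, by omega⟩) (F ⟨2, by omega⟩) = 0 := by
    intro s hs
    set G := csFrame hn F hr hc s hs with hG
    have hkl : lin (F ⟨0, by omega⟩) = lin G.k + lin G.l := by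
      rw [← cs_lin_add]
      congr 1
      funext i
      show F ⟨0, by omega⟩ i = ((1 / 2) * F ⟨0, by omega⟩ i + (-(Complex.I / 2)) * F ⟨3, by omega⟩ i)
        + ((1 / 2) * F ⟨0, by omega⟩ i + (Complex.I / 2) * F ⟨3, by omega⟩ i)
      ring
    have hz : csB L (lin (F ⟨0, by omega⟩) ^ D) G.e G.e = 0 := by
      rw [csB_apply, hkl, add_pow]
      have e : tens (∑ m ∈ Finset.range (D + 1), lin G.k ^ m * lin G.l ^ (D - m) *
          ((D.choose m : ℕ) : MvPolynomial (Fin n) ℂ)) G.e G.e =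
          ∑ m ∈ Finset.range (D + 1), ((D.choose m : ℕ) : ℂ) • nu G.k G.l G.e m (D - m) := by
        funext i j
        rw [Finset.sum_apply, Finset.sum_apply]
        simp only [tens, nu, Pi.smul_apply, MvPolynomial.smul_eq_C_mul, Finset.sum_mul, map_natCast]
        exact Finset.sum_congr rfl fun m _ => by ring
      rw [e, map_sum]
      refine Finset.sum_eq_zero fun m _ => ?_
      rw [map_smul, h4, smul_zero]
    have he : G.e = F ⟨1, by omega⟩ + (s * Complex.I) • F ⟨2, by omega⟩ := by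
      funext i
      show 1 * F ⟨1, by omega⟩ i + (s * Complex.I) * F ⟨2, by omega⟩ i = _
      simp
    rw [he] at hz
    simp only [map_add, LinearMap.add_apply, map_smul, LinearMap.smul_apply, smul_eq_mul] at hz
    rw [cs_symm L h3 _ (F ⟨2, by omega⟩) (F ⟨1, by omega⟩)] at hz
    linear_combination hz - csB L (lin (F ⟨0, by omega⟩) ^ D) (F ⟨2, by omega⟩) (F ⟨2, by omega⟩) *
      (Complex.I_sq * (s * s) - hs)
  have k1 := key 1 (by ring)
  have k2 := key (-1) (by ring)
  constructor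
  · linear_combination (1/2) * (k1 + k2)
  · have h5 : (4 * Complex.I) *
        csB L (lin (F ⟨0, by omega⟩) ^ D) (F ⟨1, by omega⟩) (F ⟨2, by omega⟩) = 0 := by
      linear_combination k1 - k2
    exact (mul_eq_zero.1 h5).resolve_left (mul_ne_zero (by norm_num) Complex.I_ne_zero)

theorem cs_stepB {n : ℕ} (hn : 4 ≤ n) (L : Mx n →ₗ[ℂ] ℂ)
    (h1 : ∀ X : Fin n → MvPolynomial (Fin n) ℂ, L (lieEta X) = 0)
    (h2 : ∀ f : MvPolynomial (Fin n) ℂ, L (fun a b => if a = b then f else 0) = 0)
    (h3 : ∀ y : Mx n, L (fun a b => y b a) = L y)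
    (h4 : ∀ (F : Frame n) (a m : ℕ), L (nu F.k F.l F.e a m) = 0)
    (q : Fin n → ℝ) (hq : ∑ i, q i * q i = 1) (D : ℕ) (u w : Fin n → ℂ) :
    L (tens (lin (fun i => (q i : ℂ)) ^ D) u w) = 0 := by
  have hn4 : 4 ≤ n := by omega
  obtain ⟨F, hF0, hr, hc⟩ := cs_onb hn4 q hq
  have hF0' : F ⟨0, by omega⟩ = fun i => (q i : ℂ) := funext hF0
  rw [← hF0', ← csB_apply]
  set B := csB L (lin (F ⟨0, by omega⟩) ^ D) with hB
  have hg : ∀ v, B (F ⟨0, by omega⟩) v = 0 := fun v => cs_gauge L h1 h3 _ D v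
  have hg' : ∀ v, B v (F ⟨0, by omega⟩) = 0 := fun v => by
    rw [hB, cs_symm L h3]; exact hg v
  have hpair : ∀ a b : Fin n, a ≠ b → a ≠ ⟨0, by omega⟩ → b ≠ ⟨0, by omega⟩ →
      B (F a) (F a) = B (F b) (F b) ∧ B (F a) (F b) = 0 := by
    intro a b hab ha hb
    obtain ⟨σ, s0, s1, s2⟩ := cs_perm hn4 a b hab ha hb
    have hr' : ∀ x y, dot (F (σ x)) (F (σ y)) = if x = y then 1 else 0 := by
      intro x y
      rw [hr]
      simp only [EmbeddingLike.apply_eq_iff_eq]
    have hc' : ∀ i j, ∑ x, F (σ x) i * F (σ x) j = if i = j then 1 else 0 := by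
      intro i j
      rw [← hc i j]
      exact Equiv.sum_comp σ (fun x => F x i * F x j)
    have := cs_pair hn4 L h3 h4 (fun x => F (σ x)) hr' hc' D
    rw [s0, s1, s2] at this
    exact this
  have htr := cs_trace L h2 (lin (F ⟨0, by omega⟩) ^ D) F hc
  rw [← hB] at htr
  have hdiag : ∀ a, B (F a) (F a) = 0 := by
    intro a
    by_cases ha : a = ⟨0, by omega⟩
    · rw [ha]; exact hg _
    · have h5 : ∀ b : Fin n, B (F b) (F b) = if b = ⟨0, by omega⟩ then 0 else B (F a) (F a) := by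
        intro b
        by_cases hb : b = ⟨0, by omega⟩
        · rw [if_pos hb, hb]; exact hg _
        · rw [if_neg hb]
          by_cases hab : a = b
          · rw [hab]
          · exact ((hpair a b hab ha hb).1).symm
      have htr : ∑ b : Fin n, (if b = ⟨0, by omega⟩ then 0 else B (F a) (F a)) = 0 :=
        (Finset.sum_congr rfl fun b _ => (h5 b).symm).trans htr
      rw [Finset.sum_ite, Finset.sum_const_zero, zero_add, Finset.sum_const, nsmul_eq_mul] at htr
      rcases mul_eq_zero.1 htr with h6 | h6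
      · exfalso
        have h7 : (Finset.univ.filter (fun b : Fin n => ¬ b = ⟨0, by omega⟩)).card = 0 := by
          exact_mod_cast h6
        rw [Finset.card_eq_zero] at h7
        have h8 : a ∈ Finset.univ.filter (fun b : Fin n => ¬ b = ⟨0, by omega⟩) := by
          simp [ha]
        rw [h7] at h8
        simp at h8
      · exact h6
  have hall : ∀ a b, B (F a) (F b) = 0 := by
    intro a b
    by_cases hab : a = b
    · rw [hab]; exact hdiag b
    · by_cases ha : a = ⟨0, by omega⟩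
      · rw [ha]; exact hg _
      · by_cases hb : b = ⟨0, by omega⟩
        · rw [hb]; exact hg' _
        · exact (hpair a b hab ha hb).2
  have hexp : ∀ u : Fin n → ℂ, u = ∑ a, dot (F a) u • F a := by
    intro u
    funext j
    rw [Finset.sum_apply]
    simp only [Pi.smul_apply, smul_eq_mul, dot, Finset.sum_mul]
    rw [Finset.sum_comm]
    have : ∀ i, ∑ a, F a i * u i * F a j = u i * if i = j then 1 else 0 := by
      intro i
      rw [← hc i j, Finset.mul_sum]
      exact Finset.sum_congr rfl fun a _ => by ring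
    simp_rw [this]
    simp
  rw [hexp u, hexp w]
  simp only [map_sum, map_smul, LinearMap.sum_apply, LinearMap.smul_apply, hall, smul_zero,
    Finset.sum_const_zero]

theorem cs_tens_all {n : ℕ} (hn : 4 ≤ n) (L : Mx n →ₗ[ℂ] ℂ)
    (h1 : ∀ X : Fin n → MvPolynomial (Fin n) ℂ, L (lieEta X) = 0)
    (h2 : ∀ f : MvPolynomial (Fin n) ℂ, L (fun a b => if a = b then f else 0) = 0)
    (h3 : ∀ y : Mx n, L (fun a b => y b a) = L y)
    (h4 : ∀ (F : Frame n) (a m : ℕ), L (nu F.k F.l F.e a m) = 0)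
    (u w : Fin n → ℂ) (p : MvPolynomial (Fin n) ℂ) : L (tens p u w) = 0 := by
  set T : MvPolynomial (Fin n) ℂ →ₗ[ℂ] ℂ :=
    { toFun := fun p => L (tens p u w)
      map_add' := by
        intro p p'
        rw [← map_add]
        congr 1
        funext i j
        simp only [tens, Pi.add_apply, add_mul]
      map_smul' := by
        intro c p
        rw [RingHom.id_apply, ← map_smul]
        congr 1
        funext i j
        simp only [tens, Pi.smul_apply, smul_mul_assoc] } with hT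
  have hunit : ∀ (q : Fin n → ℝ), ∑ i, q i * q i = 1 → ∀ D, T (lin (fun i => (q i : ℂ)) ^ D) = 0 :=
    fun q hq D => cs_stepB hn L h1 h2 h3 h4 q hq D u w
  refine cs_stepA T (fun q D => ?_) p
  by_cases hq : ∑ i, q i * q i = 0
  · have hq0 : ∀ i, q i = 0 := by
      intro i
      have := (Finset.sum_eq_zero_iff_of_nonneg (fun i _ => mul_self_nonneg (q i))).1 hq i
        (Finset.mem_univ i)
      exact mul_self_eq_zero.1 this
    have hl : lin (fun i => (q i : ℂ)) = 0 := by
      unfold lin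
      refine Finset.sum_eq_zero fun i _ => ?_
      simp [hq0 i]
    rcases Nat.eq_zero_or_pos D with hD | hD
    · rw [hD, pow_zero]
      have h5 := hunit (fun i => if i = ⟨0, by omega⟩ then 1 else 0) (by simp) 0
      rw [pow_zero] at h5
      exact h5
    · rw [hl, zero_pow hD.ne', map_zero]
  · have hpos : 0 < ∑ i, q i * q i :=
      lt_of_le_of_ne (Finset.sum_nonneg fun i _ => mul_self_nonneg (q i)) (Ne.symm hq)
    set r := Real.sqrt (∑ i, q i * q i) with hr
    have hr0 : 0 < r := Real.sqrt_pos.2 hpos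
    have hrr : r * r = ∑ i, q i * q i := Real.mul_self_sqrt hpos.le
    have h5 := hunit (fun i => q i / r) (by
      have : ∀ i, q i / r * (q i / r) = (q i * q i) / (r * r) := fun i => by
        field_simp
      simp_rw [this]
      rw [← Finset.sum_div, ← hrr, div_self (mul_pos hr0 hr0).ne']) D
    have h6 : lin (fun i => (q i : ℂ)) = MvPolynomial.C (r : ℂ) * lin (fun i => ((q i / r : ℝ) : ℂ)) := by
      rw [← cs_lin_smul]
      congr 1
      funext i
      have : (r : ℂ) ≠ 0 := by exact_mod_cast hr0.ne'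
      push_cast
      field_simp
    rw [h6, mul_pow, ← map_pow, ← MvPolynomial.smul_eq_C_mul, map_smul, h5, smul_zero]

end CoreSpan

theorem cv_span {n : ℕ} (hn : 4 ≤ n) (L : Mx n →ₗ[ℂ] ℂ)
    (h1 : ∀ X : Fin n → MvPolynomial (Fin n) ℂ, L (lieEta X) = 0)
    (h2 : ∀ f : MvPolynomial (Fin n) ℂ, L (fun a b => if a = b then f else 0) = 0)
    (h3 : ∀ y : Mx n, L (fun a b => y b a) = L y)
    (h4 : ∀ (F : Frame n) (a m : ℕ), L (nu F.k F.l F.e a m) = 0) : L = 0 := by
  classical
  refine LinearMap.ext fun y => ?_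
  have hy : y = ∑ i, ∑ j, tens (y i j) (fun k => if k = i then 1 else 0)
      (fun k => if k = j then 1 else 0) := by
    funext a b
    simp only [Finset.sum_apply, tens]
    rw [Finset.sum_eq_single a, Finset.sum_eq_single b]
    · simp
    · intro j _ hj
      simp [hj.symm]
    · intro h; exact absurd (Finset.mem_univ _) h
    · intro i _ hi
      refine Finset.sum_eq_zero fun j _ => ?_
      simp [hi.symm]
    · intro h; exact absurd (Finset.mem_univ _) h
  rw [hy, map_sum, LinearMap.zero_apply]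
  refine Finset.sum_eq_zero fun i _ => ?_
  rw [map_sum]
  exact Finset.sum_eq_zero fun j _ => cs_tens_all hn L h1 h2 h3 h4 _ _ _

end Z_cv_span

alias cv_span := Z_cv_span.cv_span

end CInv
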