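import Pool.Agent.Helper767.Gjms.Defs

set_option linter.all false

open scoped BigOperators

namespace CInv

namespace Z_nu11

theorem nu11_lin {n : ℕ} (u : Fin n → ℂ) (i : Fin n) :
    MvPolynomial.pderiv i (lin u) = MvPolynomial.C (u i) := by
  unfold lin
  rw [map_sum, Finset.sum_eq_single i]
  · simp
  · intro j _ hj
    simp [MvPolynomial.pderiv_X_of_ne hj]
  · intro h
    exact absurd (Finset.mem_univ i) h

theorem nu11 (F : Frame 4) : ∃ X : Fin 4 → MvPolynomial (Fin 4) ℂ,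
    nu F.k F.l F.e 1 1 = lieEta X
      + (fun a b => if a = b then MvPolynomial.C (1 / 4) * lin F.e ^ 2 else 0) := by
  obtain ⟨h, hh⟩ : ∃ h : MvPolynomial (Fin 4) ℂ, h = MvPolynomial.C (1 / 12) := ⟨_, rfl⟩
  have h12 : 12 * h = 1 := by
    have e : (12 : MvPolynomial (Fin 4) ℂ) = MvPolynomial.C 12 := (map_ofNat MvPolynomial.C 12).symm
    rw [hh, e, ← map_mul]
    norm_num
  have h4 : MvPolynomial.C (1 / 4) = 3 * h := by
    have e : (3 : MvPolynomial (Fin 4) ℂ) = MvPolynomial.C 3 := (map_ofNat MvPolynomial.C 3).symm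
    rw [hh, e, ← map_mul]
    norm_num
  have hd : ∀ i, MvPolynomial.pderiv i h = 0 := by
    intro i
    rw [hh, MvPolynomial.pderiv_C]
  refine ⟨fun j => 6 * h * (lin F.e * lin F.k * lin F.l * MvPolynomial.C (F.e j))
    - 3 * h * (lin F.e ^ 2 * (lin F.k * MvPolynomial.C (F.l j) + lin F.l * MvPolynomial.C (F.k j)))
    - 2 * h * (lin F.e ^ 3 * MvPolynomial.C (F.e' j)), ?_⟩
  funext i j
  have hc := congrArg (MvPolynomial.C (σ := Fin 4)) (F.compl i j)
  have hempty : ∑ α, F.f α i * F.f α j = 0 := by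
    apply Finset.sum_eq_zero
    intro α _
    exact absurd α.2 (by simp)
  rw [hempty, add_zero] at hc
  have hδ : (if i = j then MvPolynomial.C (1 / 4) * lin F.e ^ 2 else 0 : MvPolynomial (Fin 4) ℂ) =
      3 * h * lin F.e ^ 2 * MvPolynomial.C (if i = j then 1 else 0) := by
    rw [h4]
    split_ifs <;> simp
  have hc2 : 2 * (MvPolynomial.C (F.k i) * MvPolynomial.C (F.l j) +
      MvPolynomial.C (F.l i) * MvPolynomial.C (F.k j)) +
      2 * (MvPolynomial.C (F.e i) * MvPolynomial.C (F.e' j) +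
      MvPolynomial.C (F.e' i) * MvPolynomial.C (F.e j)) =
      (MvPolynomial.C (if i = j then 1 else 0) : MvPolynomial (Fin 4) ℂ) := by
    rw [← hc]
    simp only [map_add, map_mul, map_ofNat]
  change lin F.k ^ 1 * lin F.l ^ 1 * MvPolynomial.C (F.e i * F.e j) = _ + _ +
    (if i = j then MvPolynomial.C (1 / 4) * lin F.e ^ 2 else 0 : MvPolynomial (Fin 4) ℂ)
  rw [hδ]
  simp only [pdv, map_sub, map_add, Derivation.leibniz, Derivation.leibniz_pow, nu11_lin,
    MvPolynomial.pderiv_C, hd, smul_eq_mul, nsmul_eq_mul, map_mul]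
  have e6 : ∀ a : Fin 4, MvPolynomial.pderiv a (6 : MvPolynomial (Fin 4) ℂ) = 0 := by
    intro a
    rw [show (6 : MvPolynomial (Fin 4) ℂ) = MvPolynomial.C 6 from (map_ofNat MvPolynomial.C 6).symm,
      MvPolynomial.pderiv_C]
  have e3 : ∀ a : Fin 4, MvPolynomial.pderiv a (3 : MvPolynomial (Fin 4) ℂ) = 0 := by
    intro a
    rw [show (3 : MvPolynomial (Fin 4) ℂ) = MvPolynomial.C 3 from (map_ofNat MvPolynomial.C 3).symm,
      MvPolynomial.pderiv_C]
  have e2 : ∀ a : Fin 4, MvPolynomial.pderiv a (2 : MvPolynomial (Fin 4) ℂ) = 0 := by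
    intro a
    rw [show (2 : MvPolynomial (Fin 4) ℂ) = MvPolynomial.C 2 from (map_ofNat MvPolynomial.C 2).symm,
      MvPolynomial.pderiv_C]
  simp only [e6, e3, e2]
  push_cast
  linear_combination (-(lin F.k * lin F.l * MvPolynomial.C (F.e i) * MvPolynomial.C (F.e j))) * h12 +
    (3 * h * lin F.e ^ 2) * hc2

end Z_nu11

alias nu11 := Z_nu11.nu11

end CInv
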