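import Pool.Agent.Helper767.Gjms.Defs
import Pool.Agent.Helper771.CInv.P_fams
import Pool.Agent.Helper767.Gjms.P_cv_low_gauge
import Pool.Agent.Helper767.Gjms.P_cv_deg_bound
import Pool.Agent.Helper767.Gjms.P_cv_onshell_frames
import Pool.Agent.Helper767.Gjms.P_cv_span
import Pool.Agent.Helper767.Gjms.P_nu11

set_option linter.all false

open scoped BigOperators

namespace CInv

namespace Z_cv_core4

theorem j19798_lin_hom {n : ℕ} (k : Fin n → ℂ) : (lin k).IsHomogeneous 1 := by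
  unfold lin
  refine MvPolynomial.IsHomogeneous.sum _ _ _ fun i _ => ?_
  have h := (MvPolynomial.isHomogeneous_C (Fin n) (k i)).mul (MvPolynomial.isHomogeneous_X ℂ i)
  rw [zero_add] at h
  exact h

theorem j19798_nu_hom {n : ℕ} (k l e : Fin n → ℂ) (a m : ℕ) (s t : Fin n) :
    (nu k l e a m s t).IsHomogeneous (a + m) := by
  have h := (((j19798_lin_hom k).pow a).mul ((j19798_lin_hom l).pow m)).mul
    (MvPolynomial.isHomogeneous_C (Fin n) (e s * e t))
  rw [one_mul, one_mul, add_zero] at h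
  exact h

theorem j19798_11
    {B : MvPolynomial (Fin 4) ℂ →ₗ[ℂ] MultilinearMap ℂ (fun _ : Fin 2 => Mx 4) ℂ}
    (hB : GoodFormV 4 2 B) (v : MvPolynomial (Fin 4) ℂ) (h : Fin 2 → Mx 4) (j : Fin 2)
    (F : Frame 4) (hj : h j = nu F.k F.l F.e 1 1) : B v h = 0 := by
  obtain ⟨X, hX⟩ := nu11 F
  have e : h = Function.update h j (lieEta X
      + (fun a b => if a = b then MvPolynomial.C (1 / 4) * lin F.e ^ 2 else 0)) := by
    rw [← hX, ← hj, Function.update_eq_self]
  rw [e, MultilinearMap.map_update_add, hB.gauge, hB.weyl, add_zero]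

theorem j19798_two (F : Frame 4) (a m : ℕ) (h : a + m = 2) (h11 : ¬ (a = 1 ∧ m = 1)) :
    ∃ G : Frame 4, nu F.k F.l F.e a m = nu G.k G.l G.e 2 0 := by
  have hc : (a = 2 ∧ m = 0) ∨ (a = 0 ∧ m = 2) := by omega
  rcases hc with ⟨rfl, rfl⟩ | ⟨rfl, rfl⟩
  · exact ⟨F, rfl⟩
  · obtain ⟨-, -, -, -, -, G, hk, hl, he, -, -⟩ := fams F 0
    refine ⟨G, ?_⟩
    rw [hk, hl, he]
    unfold nu
    simp only [pow_zero, one_mul, mul_one]

theorem j19798_pair
    {B : MvPolynomial (Fin 4) ℂ →ₗ[ℂ] MultilinearMap ℂ (fun _ : Fin 2 => Mx 4) ℂ}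
    (hB : GoodFormV 4 2 B) (v : MvPolynomial (Fin 4) ℂ) (h : Fin 2 → Mx 4)
    (F F' : Frame 4) (a m a' m' : ℕ) (h0 : h 0 = nu F.k F.l F.e a m)
    (h1 : h 1 = nu F'.k F'.l F'.e a' m') : B v h = 0 := by
  have hom0 : ∀ s t, (h 0 s t).IsHomogeneous (a + m) := by
    intro s t; rw [h0]; exact j19798_nu_hom _ _ _ _ _ _ _
  have hom1 : ∀ s t, (h 1 s t).IsHomogeneous (a' + m') := by
    intro s t; rw [h1]; exact j19798_nu_hom _ _ _ _ _ _ _
  by_cases c1 : a + m ≤ 1
  · exact cv_low_gauge hB v h 0 (a + m) c1 hom0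
  by_cases c2 : a' + m' ≤ 1
  · exact cv_low_gauge hB v h 1 (a' + m') c2 hom1
  by_cases c3 : 3 ≤ a + m
  · exact cv_deg_bound hB v h 0 (a + m) hom0 (by omega)
  by_cases c4 : 3 ≤ a' + m'
  · exact cv_deg_bound hB v h 1 (a' + m') hom1 (by omega)
  by_cases c5 : a = 1 ∧ m = 1
  · rw [c5.1, c5.2] at h0
    exact j19798_11 hB v h 0 F h0
  by_cases c6 : a' = 1 ∧ m' = 1
  · rw [c6.1, c6.2] at h1
    exact j19798_11 hB v h 1 F' h1
  obtain ⟨G, hG⟩ := j19798_two F a m (by omega) c5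
  obtain ⟨G', hG'⟩ := j19798_two F' a' m' (by omega) c6
  have key := cv_onshell_frames (le_refl 4) hB ![G, G'] (fun _ => 2) v
  have e : h = fun i => nu ((![G, G'] : Fin 2 → Frame 4) i).k ((![G, G'] : Fin 2 → Frame 4) i).l
      ((![G, G'] : Fin 2 → Frame 4) i).e 2 0 := by
    funext i
    match i with
    | 0 => exact h0.trans hG
    | 1 => exact h1.trans hG'
  rw [e]
  exact key

theorem j19798_leg
    {B : MvPolynomial (Fin 4) ℂ →ₗ[ℂ] MultilinearMap ℂ (fun _ : Fin 2 => Mx 4) ℂ}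
    (hB : GoodFormV 4 2 B) (v : MvPolynomial (Fin 4) ℂ) (h : Fin 2 → Mx 4) (j : Fin 2)
    (hz : ∀ (F : Frame 4) (a m : ℕ), B v (Function.update h j (nu F.k F.l F.e a m)) = 0) :
    B v h = 0 := by
  have hL : (B v).toLinearMap h j = 0 := by
    refine cv_span (le_refl 4) _ ?_ ?_ ?_ ?_
    · intro X
      exact hB.gauge v h j X
    · intro f
      exact hB.weyl v h j f
    · intro y
      exact hB.transp v h j y
    · intro F a m
      exact hz F a m
  have h2 := LinearMap.congr_fun hL (h j)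
  rw [MultilinearMap.toLinearMap_apply, Function.update_eq_self, LinearMap.zero_apply] at h2
  exact h2

theorem cv_core4
    {B : MvPolynomial (Fin 4) ℂ →ₗ[ℂ] MultilinearMap ℂ (fun _ : Fin 2 => Mx 4) ℂ}
    (hB : GoodFormV 4 2 B) : B = 0 := by
  apply LinearMap.ext
  intro v
  apply MultilinearMap.ext
  intro h
  show B v h = 0
  refine j19798_leg hB v h 1 fun F' a' m' => ?_
  refine j19798_leg hB v _ 0 fun F a m => ?_
  refine j19798_pair hB v _ F F' a m a' m' ?_ ?_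
  · simp
  · rw [Function.update_of_ne (by decide), Function.update_self]

end Z_cv_core4

alias cv_core4 := Z_cv_core4.cv_core4

end CInv
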