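import Pool.Agent.Helper767.Gjms.Defs

set_option linter.all false

open scoped BigOperators

namespace CInv

namespace Z_cv_rot

theorem cv_rot_pdv_lin {n : ℕ} (i : Fin n) (k : Fin n → ℂ) :
    pdv i (lin k) = MvPolynomial.C (k i) := by
  unfold pdv lin
  rw [map_sum, Finset.sum_eq_single i]
  · rw [MvPolynomial.pderiv_C_mul, MvPolynomial.pderiv_X_self, mul_one]
  · intro j _ hj
    rw [MvPolynomial.pderiv_C_mul, MvPolynomial.pderiv_X_of_ne hj, mul_zero]
  · simp

theorem cv_rot_pdv_mul {n : ℕ} (i : Fin n) (p q : MvPolynomial (Fin n) ℂ) :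
    pdv i (p * q) = pdv i p * q + p * pdv i q := by
  unfold pdv
  rw [MvPolynomial.pderiv_mul]

theorem cv_rot_pdv_C {n : ℕ} (i : Fin n) (c : ℂ) :
    pdv i (MvPolynomial.C c : MvPolynomial (Fin n) ℂ) = 0 := by
  unfold pdv
  exact MvPolynomial.pderiv_C

theorem cv_rot_pdv_sub {n : ℕ} (i : Fin n) (p q : MvPolynomial (Fin n) ℂ) :
    pdv i (p - q) = pdv i p - pdv i q := by
  unfold pdv
  rw [map_sub]

/-- the vector field -/
noncomputable def cv_rot_X {n : ℕ} (e e' : Fin n → ℂ) (i : Fin n) : MvPolynomial (Fin n) ℂ :=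
  MvPolynomial.C (2 * e i) * lin e' - MvPolynomial.C (2 * e' i) * lin e

theorem cv_rot_pdvX {n : ℕ} (e e' : Fin n → ℂ) (i j : Fin n) :
    pdv i (cv_rot_X e e' j) = MvPolynomial.C (2 * e j * e' i - 2 * e' j * e i) := by
  unfold cv_rot_X
  rw [cv_rot_pdv_sub, cv_rot_pdv_mul, cv_rot_pdv_mul, cv_rot_pdv_C, cv_rot_pdv_C,
    cv_rot_pdv_lin, cv_rot_pdv_lin]
  simp only [zero_mul, zero_add, ← MvPolynomial.C_mul, ← MvPolynomial.C_sub]

theorem cv_rot_T_mul {n : ℕ} (X : Fin n → MvPolynomial (Fin n) ℂ) (p q : MvPolynomial (Fin n) ℂ) :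
    ∑ a, X a * pdv a (p * q) = (∑ a, X a * pdv a p) * q + p * ∑ a, X a * pdv a q := by
  rw [Finset.sum_mul, Finset.mul_sum, ← Finset.sum_add_distrib]
  refine Finset.sum_congr rfl (fun a _ => ?_)
  rw [cv_rot_pdv_mul]; ring

theorem cv_rot_T_pow {n : ℕ} (X : Fin n → MvPolynomial (Fin n) ℂ) (p : MvPolynomial (Fin n) ℂ)
    (hp : ∑ a, X a * pdv a p = 0) (m : ℕ) : ∑ a, X a * pdv a (p ^ m) = 0 := by
  induction m with
  | zero =>
    have h1 : (p ^ 0 : MvPolynomial (Fin n) ℂ) = MvPolynomial.C 1 := by simp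
    rw [h1]
    exact Finset.sum_eq_zero (fun a _ => by rw [cv_rot_pdv_C, mul_zero])
  | succ m ih => rw [pow_succ, cv_rot_T_mul, ih, hp]; ring

theorem cv_rot_T_lin {n : ℕ} (e e' k : Fin n → ℂ) (h1 : dot k e = 0) (h2 : dot k e' = 0) :
    ∑ a, cv_rot_X e e' a * pdv a (lin k) = 0 := by
  have h3 : ∑ a, cv_rot_X e e' a * pdv a (lin k) =
      MvPolynomial.C (2 * dot k e) * lin e' - MvPolynomial.C (2 * dot k e') * lin e := by
    unfold dot
    rw [Finset.mul_sum, Finset.mul_sum, map_sum, map_sum, Finset.sum_mul, Finset.sum_mul,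
      ← Finset.sum_sub_distrib]
    refine Finset.sum_congr rfl (fun a _ => ?_)
    rw [cv_rot_pdv_lin]
    unfold cv_rot_X
    have e1 : (MvPolynomial.C (2 * (k a * e a)) : MvPolynomial (Fin n) ℂ) =
        MvPolynomial.C (2 * e a) * MvPolynomial.C (k a) := by
      rw [← MvPolynomial.C_mul]; congr 1; ring
    have e2 : (MvPolynomial.C (2 * (k a * e' a)) : MvPolynomial (Fin n) ℂ) =
        MvPolynomial.C (2 * e' a) * MvPolynomial.C (k a) := by
      rw [← MvPolynomial.C_mul]; congr 1; ring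
    rw [e1, e2]; ring
  rw [h3, h1, h2]; simp

theorem cv_rot_KX {n : ℕ} (F : Frame n) (a m : ℕ) :
    KX (cv_rot_X F.e F.e') 0 (nu F.k F.l F.e a m) = (-2 : ℂ) • nu F.k F.l F.e a m := by
  have hT : ∑ b, cv_rot_X F.e F.e' b * pdv b (lin F.k ^ a * lin F.l ^ m) = 0 := by
    rw [cv_rot_T_mul, cv_rot_T_pow _ _ (cv_rot_T_lin _ _ _ F.ke F.ke'),
      cv_rot_T_pow _ _ (cv_rot_T_lin _ _ _ F.le F.le')]
    ring
  have hS : ∀ i : Fin n, ∑ b, pdv i (cv_rot_X F.e F.e' b) * MvPolynomial.C (F.e b) =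
      MvPolynomial.C (- F.e i) := by
    intro i
    have h1 : ∑ b, pdv i (cv_rot_X F.e F.e' b) * MvPolynomial.C (F.e b) =
        MvPolynomial.C (2 * F.e' i * dot F.e F.e - 2 * F.e i * dot F.e F.e') := by
      unfold dot
      rw [Finset.mul_sum, Finset.mul_sum, ← Finset.sum_sub_distrib, map_sum]
      refine Finset.sum_congr rfl (fun b _ => ?_)
      rw [cv_rot_pdvX, ← MvPolynomial.C_mul]
      congr 1; ring
    rw [h1, F.ee, F.hee']
    congr 1; ring
  funext i j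
  show Lie (cv_rot_X F.e F.e') (nu F.k F.l F.e a m) i j - 2 * 0 * nu F.k F.l F.e a m i j =
    (-2 : ℂ) • nu F.k F.l F.e a m i j
  unfold Lie nu tens
  have t1 : ∑ b, cv_rot_X F.e F.e' b * pdv b ((lin F.k ^ a * lin F.l ^ m) *
      MvPolynomial.C (F.e i * F.e j)) = 0 := by
    rw [cv_rot_T_mul, hT]
    have : ∑ b, cv_rot_X F.e F.e' b * pdv b
        (MvPolynomial.C (F.e i * F.e j) : MvPolynomial (Fin n) ℂ) = 0 :=
      Finset.sum_eq_zero (fun b _ => by rw [cv_rot_pdv_C, mul_zero])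
    rw [this]; ring
  have t2 : ∑ b, pdv i (cv_rot_X F.e F.e' b) * ((lin F.k ^ a * lin F.l ^ m) *
      MvPolynomial.C (F.e b * F.e j)) =
      -((lin F.k ^ a * lin F.l ^ m) * MvPolynomial.C (F.e i * F.e j)) := by
    calc ∑ b, pdv i (cv_rot_X F.e F.e' b) * ((lin F.k ^ a * lin F.l ^ m) *
          MvPolynomial.C (F.e b * F.e j))
        = (∑ b, pdv i (cv_rot_X F.e F.e' b) * MvPolynomial.C (F.e b)) *
          ((lin F.k ^ a * lin F.l ^ m) * MvPolynomial.C (F.e j)) := by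
          rw [Finset.sum_mul]
          refine Finset.sum_congr rfl (fun b _ => ?_)
          rw [MvPolynomial.C_mul]; ring
      _ = _ := by
          rw [hS i, MvPolynomial.C_mul, MvPolynomial.C_neg]; ring
  have t3 : ∑ b, pdv j (cv_rot_X F.e F.e' b) * ((lin F.k ^ a * lin F.l ^ m) *
      MvPolynomial.C (F.e i * F.e b)) =
      -((lin F.k ^ a * lin F.l ^ m) * MvPolynomial.C (F.e i * F.e j)) := by
    calc ∑ b, pdv j (cv_rot_X F.e F.e' b) * ((lin F.k ^ a * lin F.l ^ m) *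
          MvPolynomial.C (F.e i * F.e b))
        = (∑ b, pdv j (cv_rot_X F.e F.e' b) * MvPolynomial.C (F.e b)) *
          ((lin F.k ^ a * lin F.l ^ m) * MvPolynomial.C (F.e i)) := by
          rw [Finset.sum_mul]
          refine Finset.sum_congr rfl (fun b _ => ?_)
          rw [MvPolynomial.C_mul]; ring
      _ = _ := by
          rw [hS j, MvPolynomial.C_mul, MvPolynomial.C_neg]; ring
  rw [t1, t2, t3, MvPolynomial.smul_eq_C_mul]
  have : (MvPolynomial.C (-2 : ℂ) : MvPolynomial (Fin n) ℂ) = -2 := by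
    rw [MvPolynomial.C_neg]; congr 1
  rw [this]; ring

theorem cv_rot {n : ℕ}
    {B : MvPolynomial (Fin n) ℂ →ₗ[ℂ] MultilinearMap ℂ (fun _ : Fin 1 => Mx n) ℂ}
    (hB : GoodFormV n 1 B) (F : Frame n) (a m : ℕ) (z : ℂ) :
    B (MvPolynomial.C z) (fun _ => nu F.k F.l F.e a m) = 0 := by
  have h1 := hB.ward (cv_rot_X F.e F.e') 0 (by
      intro b
      unfold cv_rot_X lin
      simp) (by
      intro i j
      rw [cv_rot_pdvX, cv_rot_pdvX, ← MvPolynomial.C_add]
      have : (2 * F.e j * F.e' i - 2 * F.e' j * F.e i +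
        (2 * F.e i * F.e' j - 2 * F.e' i * F.e j)) = 0 := by ring
      rw [this]; simp) (MvPolynomial.C z) (fun _ => nu F.k F.l F.e a m)
  have hz : (∑ b, cv_rot_X F.e F.e' b * pdv b (MvPolynomial.C z : MvPolynomial (Fin n) ℂ)) = 0 :=
    Finset.sum_eq_zero (fun b _ => by rw [cv_rot_pdv_C, mul_zero])
  rw [hz, map_zero] at h1
  simp only [Finset.univ_unique, Fin.default_eq_zero, Finset.sum_singleton, map_zero, mul_zero,
    zero_mul, MultilinearMap.zero_apply, add_zero] at h1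
  rw [cv_rot_KX, MultilinearMap.map_update_smul] at h1
  have h2 : Function.update (fun _ : Fin 1 => nu F.k F.l F.e a m) 0 (nu F.k F.l F.e a m) =
      (fun _ : Fin 1 => nu F.k F.l F.e a m) := by
    funext i
    have : i = 0 := Subsingleton.elim _ _
    subst this
    simp
  rw [h2] at h1
  exact (smul_eq_zero.1 h1).resolve_left (by norm_num)

end Z_cv_rot

alias cv_rot := Z_cv_rot.cv_rot

end CInv
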