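import Pool.Agent.Helper767.Gjms.Defs

set_option linter.all false

open scoped BigOperators

namespace CInv

namespace Z_cv_ward_sc

theorem cv_ward_sc {n r : ℕ}
    {B : MvPolynomial (Fin n) ℂ →ₗ[ℂ] MultilinearMap ℂ (fun _ : Fin r => Mx n) ℂ}
    (hB : GoodFormV n r B) (b : Fin n → ℂ) (v : MvPolynomial (Fin n) ℂ) (h : Fin r → Mx n) :
    (∑ j, B v (Function.update h j (Kb b (h j)))) + B (∑ a, scX b a * pdv a v) h = 0 := by
  have hcl : MvPolynomial.constantCoeff (lin b) = 0 := by
    unfold lin
    rw [map_sum]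
    apply Finset.sum_eq_zero
    intro i _
    rw [map_mul, MvPolynomial.constantCoeff_X, mul_zero]
  have hcx : MvPolynomial.constantCoeff (xsq n) = 0 := by
    unfold xsq
    rw [map_sum]
    apply Finset.sum_eq_zero
    intro i _
    rw [map_pow, MvPolynomial.constantCoeff_X, zero_pow two_ne_zero]
  have hX : ∀ i j : Fin n, MvPolynomial.pderiv i (MvPolynomial.X j : MvPolynomial (Fin n) ℂ) =
      if i = j then 1 else 0 := by
    intro i j
    rw [MvPolynomial.pderiv_X, Pi.single_apply]
    by_cases hij : j = i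
    · rw [if_pos hij, if_pos hij.symm]
    · rw [if_neg hij, if_neg (Ne.symm hij)]
  have hl : ∀ i, MvPolynomial.pderiv i (lin b) = MvPolynomial.C (b i) := by
    intro i
    unfold lin
    rw [map_sum]
    have : ∀ j ∈ Finset.univ, MvPolynomial.pderiv i (MvPolynomial.C (b j) * MvPolynomial.X j :
        MvPolynomial (Fin n) ℂ) = if i = j then MvPolynomial.C (b j) else 0 := by
      intro j _
      rw [MvPolynomial.pderiv_C_mul, hX, mul_ite, mul_one, mul_zero]
    rw [Finset.sum_congr rfl this, Finset.sum_ite_eq, if_pos (Finset.mem_univ _)]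
  have hx : ∀ i, MvPolynomial.pderiv i (xsq n) = 2 * MvPolynomial.X i := by
    intro i
    unfold xsq
    rw [map_sum]
    have : ∀ j ∈ Finset.univ, MvPolynomial.pderiv i (MvPolynomial.X j ^ 2 :
        MvPolynomial (Fin n) ℂ) = if i = j then 2 * MvPolynomial.X j else 0 := by
      intro j _
      rw [sq, MvPolynomial.pderiv_mul, hX]
      by_cases hij : i = j
      · rw [if_pos hij, if_pos hij]; ring
      · rw [if_neg hij, if_neg hij]; ring
    rw [Finset.sum_congr rfl this, Finset.sum_ite_eq, if_pos (Finset.mem_univ _)]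
  have hp : ∀ i j, pdv i (scX b j) = 2 * MvPolynomial.C (b i) * MvPolynomial.X j +
      2 * lin b * (if i = j then 1 else 0) - 2 * MvPolynomial.X i * MvPolynomial.C (b j) := by
    intro i j
    unfold pdv scX
    have h2 : (2 : MvPolynomial (Fin n) ℂ) * lin b = lin b + lin b := two_mul _
    rw [h2, map_sub, MvPolynomial.pderiv_mul, MvPolynomial.pderiv_mul, map_add, hl, hx, hX,
      MvPolynomial.pderiv_C]
    ring
  have key := hB.ward (scX b) (2 * lin b) ?_ ?_ v h
  · rw [map_mul, hcl, mul_zero, mul_zero, zero_mul] at key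
    exact key
  · intro a
    unfold scX
    rw [map_sub, map_mul, map_mul, map_mul, hcl, hcx]
    ring
  · intro i j
    rw [hp, hp]
    by_cases hij : i = j
    · subst hij
      rw [if_pos rfl, if_pos rfl]
      ring
    · rw [if_neg hij, if_neg (Ne.symm hij), if_neg hij]
      ring

end Z_cv_ward_sc

alias cv_ward_sc := Z_cv_ward_sc.cv_ward_sc

end CInv
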