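import Pool.Agent.Helper767.Gjms.Defs
import Pool.Agent.Helper767.Gjms.P_cv_onshell_frames
import Pool.Agent.Helper767.Gjms.P_cv_span
import Pool.Agent.Helper767.Gjms.P_cv_core_step
import Pool.Agent.Helper767.Gjms.P_cv_big_r

set_option linter.all false

open scoped BigOperators

namespace CInv

namespace Z_cv_core_big

theorem cv_core_big {n r : ℕ} (hn : 4 ≤ n) (hn' : 6 ≤ n ∨ r = 1) (hr : 1 ≤ r)
    {B : MvPolynomial (Fin n) ℂ →ₗ[ℂ] MultilinearMap ℂ (fun _ : Fin r => Mx n) ℂ}
    (hB : GoodFormV n r B) : B = 0 := by
  classical
  rcases Nat.lt_or_ge n (2 * r) with h2 | h2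
  · exact cv_big_r h2 hB
  · have key : ∀ J : Finset (Fin r), ∀ (v : MvPolynomial (Fin n) ℂ) (h : Fin r → Mx n),
        (∀ c, c ∉ J → ∃ (F : Frame n) (a : ℕ), h c = nu F.k F.l F.e a 0) → B v h = 0 := by
      intro J
      induction J using Finset.induction_on with
      | empty =>
        intro v h hh
        choose F a hF using fun c => hh c (Finset.notMem_empty c)
        have e1 : h = fun i => nu (F i).k (F i).l (F i).e (a i) 0 := funext hF
        rw [e1]
        exact cv_onshell_frames hn hB F a v
      | insert j J hj ih =>
        intro v h hh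
        have hL := cv_span (n := n) hn ((B v).toLinearMap h j)
          (fun X => hB.gauge v h j X) (fun f => hB.weyl v h j f) (fun y => hB.transp v h j y)
          (fun F a m => cv_core_step hn hn' h2 hB J j hj ih v h hh F a m)
        have h3 : (B v).toLinearMap h j (h j) = 0 := by rw [hL]; rfl
        rw [MultilinearMap.toLinearMap_apply, Function.update_eq_self] at h3
        exact h3
    refine LinearMap.ext fun v => MultilinearMap.ext fun h => ?_
    rw [LinearMap.zero_apply, MultilinearMap.zero_apply]
    exact key Finset.univ v h fun c hc => absurd (Finset.mem_univ c) hc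

end Z_cv_core_big

alias cv_core_big := Z_cv_core_big.cv_core_big

end CInv
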