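import Pool.Agent.Helper767.Gjms.Defs
import Pool.Agent.Helper767.Gjms.P_cv_big_r
import Pool.Agent.Helper767.Gjms.P_cv_core_big
import Pool.Agent.Helper767.Gjms.P_cv_core4

set_option linter.all false

open scoped BigOperators

namespace CInv

namespace Z_core_v

theorem core_v {n r : ℕ} (he : Even n) (hn : 4 ≤ n) (hr : 1 ≤ r)
    {B : MvPolynomial (Fin n) ℂ →ₗ[ℂ] MultilinearMap ℂ (fun _ : Fin r => Mx n) ℂ}
    (hB : GoodFormV n r B) : B = 0 := by
  by_cases h6 : 6 ≤ n
  · exact cv_core_big hn (Or.inl h6) hr hB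
  · have hn4 : n = 4 := by
      obtain ⟨k, hk⟩ := he
      omega
    subst hn4
    by_cases h1 : r = 1
    · exact cv_core_big hn (Or.inr h1) hr hB
    · by_cases h2 : r = 2
      · subst h2
        exact cv_core4 hB
      · exact cv_big_r (by omega) hB

end Z_core_v

alias core_v := Z_core_v.core_v

end CInv
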