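import Pool.Agent.Helper767.Gjms.Defs

set_option linter.all false

open scoped BigOperators

namespace CInv

namespace Z_jets_surj

theorem jets_surj_coeff {n : ℕ} {K : Type} [Field K] [CharZero K] (w : List (Fin n))
    (m : Fin n →₀ ℕ) :
    ∃ q : K, q ≠ 0 ∧ ∀ p : MvPolynomial (Fin n) K,
      MvPolynomial.coeff m (Dw pdv w p) =
        q * MvPolynomial.coeff (m + Multiset.toFinsupp (w : Multiset (Fin n))) p := by
  induction w generalizing m with
  | nil => exact ⟨1, one_ne_zero, fun p => by simp [Dw]⟩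
  | cons i w ih =>
    obtain ⟨q, hq, h⟩ := ih (m + Finsupp.single i 1)
    refine ⟨((m i : K) + 1) * q, mul_ne_zero (Nat.cast_add_one_ne_zero (m i)) hq, fun p => ?_⟩
    show MvPolynomial.coeff m (MvPolynomial.pderiv i (Dw pdv w p)) = _
    rw [MvPolynomial.coeff_pderiv, h p]
    have h1 : m + Multiset.toFinsupp ((i :: w : List (Fin n)) : Multiset (Fin n)) =
        m + Finsupp.single i 1 + Multiset.toFinsupp (w : Multiset (Fin n)) := by
      rw [← Multiset.cons_coe, ← Multiset.singleton_add, Multiset.toFinsupp_add,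
        Multiset.toFinsupp_singleton, add_assoc]
    rw [h1]
    ring

theorem jets_surj {n : ℕ} {K : Type} [Field K] [CharZero K] (s : Multiset (Fin n)) :
    ∃ v : MvPolynomial (Fin n) K, ∀ t, J0s v t = if t = s then 1 else 0 := by
  obtain ⟨q0, hq0, h0⟩ := jets_surj_coeff (K := K) s.toList (0 : Fin n →₀ ℕ)
  refine ⟨MvPolynomial.monomial (Multiset.toFinsupp s) q0⁻¹, fun t => ?_⟩
  obtain ⟨q, hq, h⟩ := jets_surj_coeff (K := K) t.toList (0 : Fin n →₀ ℕ)
  unfold J0s
  rw [MvPolynomial.constantCoeff_eq, h, Multiset.coe_toList, zero_add]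
  simp only [MvPolynomial.coeff_monomial]
  by_cases hs : t = s
  · subst hs
    rw [if_pos rfl, if_pos rfl]
    have h1 := h0 (MvPolynomial.monomial (Multiset.toFinsupp t) 1)
    have h2 := h (MvPolynomial.monomial (Multiset.toFinsupp t) 1)
    rw [h1, Multiset.coe_toList, zero_add, MvPolynomial.coeff_monomial, if_pos rfl, mul_one,
      mul_one] at h2
    rw [← h2, mul_inv_cancel₀ hq0]
  · rw [if_neg (fun h' => hs (Multiset.toFinsupp.injective h').symm), mul_zero, if_neg hs]

end Z_jets_surj

alias jets_surj := Z_jets_surj.jets_surj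

end CInv
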