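import Pool.Agent.Helper767.Gjms.Defs
import Pool.Agent.Helper767.Gjms.P_op_phi_exists
import Pool.Agent.Helper767.Gjms.P_jets_surj
import Pool.Agent.Helper767.Gjms.P_pm_of_m
import Pool.Agent.Helper767.Gjms.P_poly_jets
import Pool.Agent.Helper767.Gjms.P_near_flat

set_option linter.all false

open scoped BigOperators

namespace CInv

namespace Z_dens

section Dens

theorem dens_Dw_add {n : ℕ} (w : List (Fin n)) (a b : MvPolynomial (Fin n) ℝ) :
    Dw pdv w (a + b) = Dw pdv w a + Dw pdv w b := by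
  induction w with
  | nil => rfl
  | cons i w ih => simp only [Dw]; rw [ih]; unfold pdv; rw [map_add]

theorem dens_Dw_smul {n : ℕ} (w : List (Fin n)) (r : ℝ) (a : MvPolynomial (Fin n) ℝ) :
    Dw pdv w (r • a) = r • Dw pdv w a := by
  induction w with
  | nil => rfl
  | cons i w ih => simp only [Dw]; rw [ih]; unfold pdv; rw [Derivation.map_smul]

/-- `J0s` as a linear map -/
noncomputable def dens_J {n : ℕ} (s : Multiset (Fin n)) : MvPolynomial (Fin n) ℝ →ₗ[ℝ] ℝ where
  toFun p := J0s p s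
  map_add' a b := by
    unfold J0s
    rw [dens_Dw_add, map_add]
  map_smul' r a := by
    unfold J0s
    rw [dens_Dw_smul, MvPolynomial.smul_eq_C_mul, map_mul, MvPolynomial.constantCoeff_C]
    rfl

theorem dens_J0 {n : ℕ} (H : Fin n → Fin n → MvPolynomial (Fin n) ℝ) (v : JV n) :
    J0 H v = dens_J v.2.2 (H v.1 v.2.1) := rfl

theorem dens_posdef {n : ℕ} (c : Fin n → Fin n → ℝ) :
    ∃ ε : ℝ, 0 < ε ∧ ∀ τ : ℝ, 0 < τ → τ < ε →
      (Matrix.of (fun i j : Fin n => (if i = j then (1:ℝ) else 0)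
        + (1 / 2 : ℝ) * (τ * c i j + τ * c j i))).PosDef := by
  set K : ℝ := ∑ i, ∑ j, |(1 / 2 : ℝ) * (c i j + c j i)| with hK
  have hK0 : 0 ≤ K := Finset.sum_nonneg fun i _ => Finset.sum_nonneg fun j _ => abs_nonneg _
  refine ⟨1 / (K + 1), by positivity, fun τ hτ hτ' => ?_⟩
  have hτK : τ * K < 1 := by
    rw [lt_div_iff₀ (by positivity)] at hτ'
    nlinarith
  apply Matrix.PosDef.of_dotProduct_mulVec_pos
  · ext i j
    simp only [Matrix.conjTranspose_apply, Matrix.of_apply, star_trivial]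
    by_cases hij : i = j
    · subst hij; rfl
    · have hji : ¬ j = i := fun h => hij h.symm
      simp only [hij, hji, if_false]
      ring
  · intro x hx
    set Q : ℝ := ∑ k, x k ^ 2 with hQ
    have hQ0 : 0 < Q := by
      obtain ⟨k, hk⟩ : ∃ k, x k ≠ 0 := by
        by_contra hcon
        push Not at hcon
        exact hx (funext hcon)
      exact lt_of_lt_of_le (by positivity : (0:ℝ) < x k ^ 2)
        (Finset.single_le_sum (f := fun k => x k ^ 2) (fun i _ => sq_nonneg (x i))
          (Finset.mem_univ k))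
    have hxQ : ∀ k, x k ^ 2 ≤ Q := fun k =>
      Finset.single_le_sum (f := fun k => x k ^ 2) (fun i _ => sq_nonneg (x i)) (Finset.mem_univ k)
    have hb : ∀ i j, -(|(1 / 2 : ℝ) * (c i j + c j i)| * Q)
        ≤ ((1 / 2 : ℝ) * (c i j + c j i)) * (x i * x j) := by
      intro i j
      have h1 : |x i * x j| ≤ Q := by
        rw [abs_mul]
        have h2 := hxQ i
        have h3 := hxQ j
        nlinarith [sq_nonneg (|x i| - |x j|), sq_abs (x i), sq_abs (x j)]
      have h4 := neg_abs_le (((1 / 2 : ℝ) * (c i j + c j i)) * (x i * x j))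
      rw [abs_mul] at h4
      have h5 := mul_le_mul_of_nonneg_left h1 (abs_nonneg ((1 / 2 : ℝ) * (c i j + c j i)))
      linarith
    have hsum : -(K * Q) ≤ ∑ i, ∑ j, ((1 / 2 : ℝ) * (c i j + c j i)) * (x i * x j) := by
      rw [hK, Finset.sum_mul, ← Finset.sum_neg_distrib]
      refine Finset.sum_le_sum fun i _ => ?_
      rw [Finset.sum_mul, ← Finset.sum_neg_distrib]
      exact Finset.sum_le_sum fun j _ => hb i j
    have hexp : dotProduct (star x) (Matrix.mulVec (Matrix.of (fun i j : Fin n =>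
        (if i = j then (1:ℝ) else 0) + (1 / 2 : ℝ) * (τ * c i j + τ * c j i))) x)
        = Q + τ * ∑ i, ∑ j, ((1 / 2 : ℝ) * (c i j + c j i)) * (x i * x j) := by
      simp only [dotProduct, Matrix.mulVec, Matrix.of_apply, star_trivial, Pi.star_apply]
      rw [hQ, Finset.mul_sum, ← Finset.sum_add_distrib]
      refine Finset.sum_congr rfl fun i _ => ?_
      have h1 : ∑ j, ((if i = j then (1:ℝ) else 0) + (1 / 2 : ℝ) * (τ * c i j + τ * c j i)) * x j
          = x i + ∑ j, (1 / 2 : ℝ) * (τ * c i j + τ * c j i) * x j := by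
        simp only [add_mul, Finset.sum_add_distrib, ite_mul, one_mul, zero_mul,
          Finset.sum_ite_eq, Finset.mem_univ, if_true]
      rw [h1, mul_add, Finset.mul_sum, Finset.mul_sum]
      congr 1
      · ring
      · refine Finset.sum_congr rfl fun j _ => ?_
        ring
    rw [hexp]
    nlinarith [mul_le_mul_of_nonneg_left hsum hτ.le]

theorem dens_step1 {n : ℕ} (I : NatOp n)
    (h : ∀ (U : Set (Fin n → ℝ)), IsOpen U → ∀ g : (Fin n → ℝ) → Matrix (Fin n) (Fin n) ℝ,
      IsMetricOn U g → ∀ f : (Fin n → ℝ) → ℝ, ContDiffOn ℝ (⊤ : ℕ∞) f U → ∀ x ∈ U,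
        I.op ((Fin n → ℝ) → ℝ) pd (fun i j y => g y i j) (fun i j y => (g y)⁻¹ i j) f x = 0)
    {N : ℕ} {Φ : OpPhi n} (hΦ : GoodOp n I N Φ) (H : Fin n → Fin n → MvPolynomial (Fin n) ℝ)
    (h1 : (Matrix.of (fun i j => MvPolynomial.constantCoeff (met H i j))).PosDef)
    (s : Multiset (Fin n)) : MvPolynomial.aeval (J0 H) (Φ s) = 0 := by
  classical
  obtain ⟨U, hU, h0, hmet, _⟩ := near_flat H 0 h1 (by simp)
  obtain ⟨v, hv⟩ := jets_surj (n := n) (K := ℝ) s
  have hfn := hΦ.fn U hU _ (pm_of_m hmet).1 (fun y => MvPolynomial.eval y v)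
    ((poly_jets v).1.contDiffOn) 0 h0
  rw [h U hU _ hmet _ ((poly_jets v).1.contDiffOn) 0 h0, mul_zero] at hfn
  set H' : Fin n → Fin n → MvPolynomial (Fin n) ℝ := fun i j => met H i j - flat _ i j with hH'
  have e1 : (fun vv : JV n => (Ds pd vv.2.2 (fun y => (Matrix.of (fun i j => MvPolynomial.eval y
      (met H i j))) vv.1 vv.2.1 - if vv.1 = vv.2.1 then 1 else 0) (0 : Fin n → ℝ) : ℝ))
      = J0 H' := by
    funext vv
    have e2 : (fun y : Fin n → ℝ => (Matrix.of (fun i j => MvPolynomial.eval y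
      (met H i j))) vv.1 vv.2.1 - if vv.1 = vv.2.1 then 1 else 0)
        = fun y => MvPolynomial.eval y (H' vv.1 vv.2.1) := by
      funext y
      rw [hH']
      simp only [Matrix.of_apply, map_sub, flat]
      congr 1
      split_ifs <;> simp
    rw [e2, (poly_jets (H' vv.1 vv.2.1)).2.2]
    rfl
  rw [e1] at hfn
  have hfn' : (Φ.sum fun t p => MvPolynomial.aeval (J0 H') p * (if t = s then (1:ℝ) else 0)) = 0 := by
    refine Eq.trans ?_ hfn
    refine Finsupp.sum_congr fun t _ => ?_
    rw [(poly_jets v).2.2, hv]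
  have h2 : MvPolynomial.aeval (J0 H') (Φ s) = 0 := by
    rw [Finsupp.sum] at hfn'
    by_cases hs : s ∈ Φ.support
    · rw [Finset.sum_eq_single s (fun t _ hts => by rw [if_neg hts, mul_zero])
        (fun h => absurd hs h), if_pos rfl, mul_one] at hfn'
      exact hfn'
    · rw [Finsupp.notMem_support_iff.1 hs, map_zero]
  have h3 : J0 H' = fun v : JV n => (1 / 2 : ℝ) • (J0 H v + J0 H (v.2.1, v.1, v.2.2)) := by
    funext vv
    rw [dens_J0, dens_J0, dens_J0]
    have e3 : H' vv.1 vv.2.1 = (1 / 2 : ℝ) • (H vv.1 vv.2.1 + H vv.2.1 vv.1) := by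
      rw [hH']
      simp only [met]
      ring
    rw [e3, map_smul, map_add]
  rw [h3, hΦ.sym s] at h2
  exact h2

theorem dens_zero {n : ℕ} (I : NatOp n)
    (h : ∀ (U : Set (Fin n → ℝ)), IsOpen U → ∀ g : (Fin n → ℝ) → Matrix (Fin n) (Fin n) ℝ,
      IsMetricOn U g → ∀ f : (Fin n → ℝ) → ℝ, ContDiffOn ℝ (⊤ : ℕ∞) f U → ∀ x ∈ U,
        I.op ((Fin n → ℝ) → ℝ) pd (fun i j y => g y i j) (fun i j y => (g y)⁻¹ i j) f x = 0)
    {N : ℕ} {Φ : OpPhi n} (hΦ : GoodOp n I N Φ) (s : Multiset (Fin n)) : Φ s = 0 := by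
  classical
  -- all polynomial matrices
  have hall : ∀ H : Fin n → Fin n → MvPolynomial (Fin n) ℝ,
      MvPolynomial.aeval (J0 H) (Φ s) = 0 := by
    intro H
    obtain ⟨ε, hε, hpos⟩ := dens_posdef (fun i j => MvPolynomial.constantCoeff (H i j))
    have hsmall : ∀ τ : ℝ, 0 < τ → τ < ε →
        MvPolynomial.aeval (fun v => τ * J0 H v) (Φ s) = 0 := by
      intro τ h1 h2
      have h3 := dens_step1 I h hΦ (fun i j => τ • H i j) (by
        have h4 := hpos τ h1 h2
        convert h4 using 2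
        funext i j
        simp only [met, flat, map_add, map_sub, MvPolynomial.smul_eq_C_mul, map_mul,
          MvPolynomial.constantCoeff_C]
        congr 1
        split_ifs <;> simp) s
      have h5 : J0 (fun i j => τ • H i j) = fun v => τ * J0 H v := by
        funext v
        rw [dens_J0, dens_J0, map_smul, smul_eq_mul]
      rw [h5] at h3
      exact h3
    let P : Polynomial ℝ := MvPolynomial.aeval
      (fun v : JV n => (Polynomial.X * Polynomial.C (J0 H v) : Polynomial ℝ)) (Φ s)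
    have hP : ∀ τ : ℝ, P.eval τ = MvPolynomial.aeval (fun v => τ * J0 H v) (Φ s) := by
      intro τ
      show Polynomial.eval τ (MvPolynomial.aeval _ (Φ s)) = _
      have h6 : (Polynomial.aeval τ : Polynomial ℝ →ₐ[ℝ] ℝ).comp (MvPolynomial.aeval
          (fun v : JV n => (Polynomial.X * Polynomial.C (J0 H v) : Polynomial ℝ)))
          = MvPolynomial.aeval (fun v => τ * J0 H v) := by
        apply MvPolynomial.algHom_ext
        intro v
        simp
        ring
      have h7 := DFunLike.congr_fun h6 (Φ s)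
      rw [← h7]
      rfl
    have hP0 : P = 0 := by
      apply Polynomial.eq_zero_of_infinite_isRoot
      refine Set.Infinite.mono ?_ (Set.Ioo_infinite hε)
      intro τ hτ
      show P.eval τ = 0
      rw [hP]
      exact hsmall τ hτ.1 hτ.2
    have h8 := hP 1
    rw [hP0, Polynomial.eval_zero] at h8
    simpa using h8.symm
  apply MvPolynomial.funext
  intro y
  rw [map_zero]
  choose jv hjv using fun t : Multiset (Fin n) => jets_surj (n := n) (K := ℝ) t
  let H : Fin n → Fin n → MvPolynomial (Fin n) ℝ := fun i j =>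
    ∑ v ∈ (Φ s).vars, if i = v.1 ∧ j = v.2.1 then y v • jv v.2.2 else 0
  have hJ : ∀ v ∈ (Φ s).vars, J0 H v = y v := by
    intro v hv
    rw [dens_J0]
    show dens_J v.2.2 (∑ v' ∈ (Φ s).vars, if v.1 = v'.1 ∧ v.2.1 = v'.2.1 then y v' • jv v'.2.2
      else 0) = y v
    rw [map_sum, Finset.sum_eq_single v]
    · rw [if_pos ⟨rfl, rfl⟩, map_smul]
      show y v * J0s (jv v.2.2) v.2.2 = y v
      rw [hjv, if_pos rfl, mul_one]
    · intro v' _ hne
      split_ifs with h1
      · rw [map_smul]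
        show y v' * J0s (jv v'.2.2) v.2.2 = 0
        rw [hjv, if_neg, mul_zero]
        intro h2
        apply hne
        exact Prod.ext h1.1.symm (Prod.ext h1.2.symm h2.symm)
      · rw [map_zero]
    · intro h; exact absurd hv h
  have h9 := hall H
  rw [← h9]
  exact MvPolynomial.eval₂Hom_congr' rfl (fun v hv _ => (hJ v hv).symm) rfl

end Dens

theorem dens {n : ℕ} (I : NatOp n)
    (h : ∀ (U : Set (Fin n → ℝ)), IsOpen U → ∀ g : (Fin n → ℝ) → Matrix (Fin n) (Fin n) ℝ,
      IsMetricOn U g → ∀ f : (Fin n → ℝ) → ℝ, ContDiffOn ℝ (⊤ : ℕ∞) f U → ∀ x ∈ U,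
        I.op ((Fin n → ℝ) → ℝ) pd (fun i j y => g y i j) (fun i j y => (g y)⁻¹ i j) f x = 0)
    (A : Type) [CommRing A] [Algebra ℝ A] (D : Fin n → A → A) (hD : IsDer D)
    (g gi : Fin n → Fin n → A) (hg : IsMetric g gi) (F : A) : I.op A D g gi F = 0 := by
  classical
  obtain ⟨N, Φ, hN, hΦ⟩ := op_phi_exists I
  have hΦ0 : Φ = 0 := Finsupp.ext fun s => dens_zero I h hΦ s
  have hmet : met (fun i j => g i j - flat A i j) = g := by
    funext i j
    have hf : flat A j i = flat A i j := by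
      unfold flat
      by_cases hij : i = j
      · subst hij; rfl
      · rw [if_neg hij, if_neg (fun h => hij h.symm)]
    simp only [met]
    rw [hf, hg.symm j i]
    have : (1 / 2 : ℝ) • (g i j - flat A i j + (g i j - flat A i j)) = g i j - flat A i j := by
      rw [← two_smul ℝ, smul_smul]
      norm_num
    rw [this]
    ring
  have h1 := hΦ.alg A D hD (fun i j => g i j - flat A i j) gi (by rw [hmet]; exact hg) F
  rw [hmet] at h1
  have h2 : Ejet Φ D (fun i j => g i j - flat A i j) F = 0 := by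
    unfold Ejet
    rw [hΦ0, Finsupp.sum_zero_index]
  rw [h2] at h1
  have hdet : (Matrix.of g).det * (Matrix.of gi).det = 1 := by
    rw [← Matrix.det_mul]
    have : Matrix.of g * Matrix.of gi = 1 := by
      ext i j
      rw [Matrix.mul_apply, Matrix.one_apply]
      exact hg.inv i j
    rw [this, Matrix.det_one]
  have h3 : I.op A D g gi F = ((Matrix.of gi).det) ^ N * (((Matrix.of g).det) ^ N * I.op A D g gi F) := by
    rw [← mul_assoc, ← mul_pow, mul_comm (Matrix.of gi).det, hdet, one_pow, one_mul]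
  rw [h3, ← h1, mul_zero]

end Z_dens

alias dens := Z_dens.dens

end CInv
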