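import Pool.Agent.Helper767.Gjms.Defs
import Pool.Agent.Helper771.CInv.P_ord_nil

set_option linter.all false

open scoped BigOperators

namespace CInv

namespace Z_e_nil

theorem e_nil {n r : ℕ} {A : Type} [CommRing A] [Algebra ℝ A] {I : Ideal A} (hI : I ^ r = ⊥)
    {Φ : OpPhi n} (hΦ : ∀ s, OrdGE r (Φ s)) (D : Fin n → A → A) (H : Fin n → Fin n → A)
    (hy : ∀ v, jet D H v ∈ I) (F : A) : Ejet Φ D H F = 0 := by
  unfold Ejet Finsupp.sum
  apply Finset.sum_eq_zero
  intro s _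
  change (MvPolynomial.aeval (jet D H)) (Φ s) * Ds D s F = 0
  rw [ord_nil hI (hΦ s) (jet D H) hy, zero_mul]

end Z_e_nil

alias e_nil := Z_e_nil.e_nil

end CInv
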