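import Pool.Agent.Helper767.Gjms.Defs2

set_option linter.all false

open scoped BigOperators

namespace CInv

namespace Z_pinv_rel

section Nat400

variable {n : ℕ} {A B : Type} [CommRing A] [Algebra ℝ A] [CommRing B] [Algebra ℝ B]
    {DA : Fin n → A → A} {DB : Fin n → B → B} {Rel : A → B → Prop}

theorem rel_zero400 (hR : RelHom DA DB Rel) : Rel 0 0 := by
  have h := hR.smul 0 hR.one
  rwa [zero_smul, zero_smul] at h

theorem rel_neg400 (hR : RelHom DA DB Rel) {a : A} {b : B} (h : Rel a b) : Rel (-a) (-b) := by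
  have h1 := hR.smul (-1) h
  rwa [neg_one_smul, neg_one_smul] at h1

theorem rel_sub400 (hR : RelHom DA DB Rel) {a a' : A} {b b' : B} (h : Rel a b) (h' : Rel a' b') :
    Rel (a - a') (b - b') := by
  rw [sub_eq_add_neg, sub_eq_add_neg]
  exact hR.add h (rel_neg400 hR h')

theorem rel_sum400 (hR : RelHom DA DB Rel) {ι : Type*} (s : Finset ι) {f : ι → A} {f' : ι → B}
    (h : ∀ i, Rel (f i) (f' i)) : Rel (∑ i ∈ s, f i) (∑ i ∈ s, f' i) := by
  classical
  induction s using Finset.induction_on with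
  | empty => simpa using rel_zero400 hR
  | insert i s hi ih =>
    rw [Finset.sum_insert hi, Finset.sum_insert hi]
    exact hR.add (h i) ih

end Nat400

theorem pinvC_rel400 {n : ℕ} {A B : Type} [CommRing A] [Algebra ℝ A] [CommRing B] [Algebra ℝ B]
    {DA : Fin n → A → A} {DB : Fin n → B → B} {Rel : A → B → Prop} (hR : RelHom DA DB Rel)
    {giA : Fin n → Fin n → A} {giB : Fin n → Fin n → B} (hgi : ∀ i j, Rel (giA i j) (giB i j))
    {GA : Fin n → Fin n → PowerSeries A} {GB : Fin n → Fin n → PowerSeries B}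
    (hG : ∀ i j k, Rel (PowerSeries.coeff k (GA i j)) (PowerSeries.coeff k (GB i j)))
    (k : ℕ) : ∀ (i j : Fin n), Rel (pinvC giA GA k i j) (pinvC giB GB k i j) := by
  induction k using Nat.strong_induction_on with
  | _ k ih =>
    intro i j
    rcases k with _ | k
    · rw [pinvC, pinvC]
      exact hgi i j
    · rw [pinvC, pinvC]
      exact rel_neg400 hR (rel_sum400 hR _ fun m => rel_sum400 hR _ fun a =>
        rel_sum400 hR _ fun b => hR.mul (hR.mul (hgi i a) (hG a b _)) (ih m m.2 b j))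

theorem pinv_rel {n : ℕ} {A B : Type} [CommRing A] [Algebra ℝ A] [CommRing B] [Algebra ℝ B]
    {DA : Fin n → A → A} {DB : Fin n → B → B} {Rel : A → B → Prop} (hR : RelHom DA DB Rel)
    {giA : Fin n → Fin n → A} {giB : Fin n → Fin n → B} (hgi : ∀ i j, Rel (giA i j) (giB i j))
    {GA : Fin n → Fin n → PowerSeries A} {GB : Fin n → Fin n → PowerSeries B}
    (hG : ∀ i j k, Rel (PowerSeries.coeff k (GA i j)) (PowerSeries.coeff k (GB i j)))
    (i j : Fin n) (k : ℕ) :
    Rel (PowerSeries.coeff k (pinv giA GA i j)) (PowerSeries.coeff k (pinv giB GB i j)) := by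
  unfold pinv
  rw [PowerSeries.coeff_mk, PowerSeries.coeff_mk]
  exact pinvC_rel400 hR hgi hG k i j

end Z_pinv_rel

alias pinv_rel := Z_pinv_rel.pinv_rel

end CInv
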