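import Pool.Agent.Helper767.Gjms.Defs2

set_option linter.all false

open scoped BigOperators

namespace CInv

namespace Z_ps_rel

section RelAux21372
variable {n : ℕ} {A B : Type} [CommRing A] [Algebra ℝ A] [CommRing B] [Algebra ℝ B]
    {DA : Fin n → A → A} {DB : Fin n → B → B} {Rel : A → B → Prop}

theorem rel_zero_21372 (hR : RelHom DA DB Rel) : Rel 0 0 := by
  have h := hR.smul 0 hR.one
  simpa using h

theorem rel_sum_21372 (hR : RelHom DA DB Rel) {ι : Type} (s : Finset ι) (f : ι → A) (g : ι → B)
    (h : ∀ x ∈ s, Rel (f x) (g x)) : Rel (∑ x ∈ s, f x) (∑ x ∈ s, g x) := by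
  classical
  induction s using Finset.induction_on with
  | empty => simpa using rel_zero_21372 hR
  | insert a s ha ih =>
    rw [Finset.sum_insert ha, Finset.sum_insert ha]
    exact hR.add (h a (Finset.mem_insert_self _ _))
      (ih fun x hx => h x (Finset.mem_insert_of_mem hx))

end RelAux21372

theorem ps_rel {n : ℕ} {A B : Type} [CommRing A] [Algebra ℝ A] [CommRing B] [Algebra ℝ B]
    {DA : Fin n → A → A} {DB : Fin n → B → B} {Rel : A → B → Prop} (hR : RelHom DA DB Rel) :
    RelHom (extD DA) (extD DB)
      (fun p q => ∀ k, Rel (PowerSeries.coeff k p) (PowerSeries.coeff k q)) ∧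
    (∀ k, Rel (PowerSeries.coeff k PowerSeries.X) (PowerSeries.coeff k PowerSeries.X)) ∧
    (∀ a b, Rel a b → ∀ k, Rel (PowerSeries.coeff k (PowerSeries.C a))
      (PowerSeries.coeff k (PowerSeries.C b))) := by
  classical
  have h0 := rel_zero_21372 hR
  refine ⟨⟨?_, ?_, ?_, ?_, ?_⟩, ?_, ?_⟩
  · intro k
    rw [PowerSeries.coeff_one, PowerSeries.coeff_one]
    split_ifs
    · exact hR.one
    · exact h0
  · intro a a' b b' h h' k
    rw [map_add, map_add]
    exact hR.add (h k) (h' k)
  · intro a a' b b' h h' k
    rw [PowerSeries.coeff_mul, PowerSeries.coeff_mul]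
    exact rel_sum_21372 hR _ _ _ fun x _ => hR.mul (h _) (h' _)
  · intro r a b h k
    have e1 : PowerSeries.coeff k (r • a) = r • PowerSeries.coeff k a := rfl
    have e2 : PowerSeries.coeff k (r • b) = r • PowerSeries.coeff k b := rfl
    rw [e1, e2]
    exact hR.smul r (h k)
  · intro i a b h
    induction i using Fin.cases with
    | zero =>
      intro k
      have ea : PowerSeries.coeff k (extD DA 0 a) = ((k : ℝ) + 1) • PowerSeries.coeff (k + 1) a := by
        show PowerSeries.coeff k (PowerSeries.derivative A a) = _
        rw [PowerSeries.coeff_derivative, Algebra.smul_def]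
        rw [map_add, map_one, map_natCast, mul_comm]
      have eb : PowerSeries.coeff k (extD DB 0 b) = ((k : ℝ) + 1) • PowerSeries.coeff (k + 1) b := by
        show PowerSeries.coeff k (PowerSeries.derivative B b) = _
        rw [PowerSeries.coeff_derivative, Algebra.smul_def]
        rw [map_add, map_one, map_natCast, mul_comm]
      show Rel (PowerSeries.coeff k (extD DA 0 a)) (PowerSeries.coeff k (extD DB 0 b))
      rw [ea, eb]
      exact hR.smul _ (h _)
    | succ i =>
      intro k
      have ea : PowerSeries.coeff k (extD DA i.succ a) = DA i (PowerSeries.coeff k a) := by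
        show PowerSeries.coeff k (cw (DA i) a) = _
        simp [cw]
      have eb : PowerSeries.coeff k (extD DB i.succ b) = DB i (PowerSeries.coeff k b) := by
        show PowerSeries.coeff k (cw (DB i) b) = _
        simp [cw]
      show Rel (PowerSeries.coeff k (extD DA i.succ a)) (PowerSeries.coeff k (extD DB i.succ b))
      rw [ea, eb]
      exact hR.der i (h k)
  · intro k
    rw [PowerSeries.coeff_X, PowerSeries.coeff_X]
    split_ifs
    · exact hR.one
    · exact h0
  · intro a b h k
    rw [PowerSeries.coeff_C, PowerSeries.coeff_C]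
    split_ifs
    · exact h
    · exact h0

end Z_ps_rel

alias ps_rel := Z_ps_rel.ps_rel

end CInv
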