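import Pool.Agent.Helper767.Gjms.Defs2
import Pool.Agent.Helper767.Gjms.P_ps_rel
import Pool.Agent.Helper767.Gjms.P_fg_rel
import Pool.Agent.Helper767.Gjms.P_pinv_rel

set_option linter.all false

open scoped BigOperators

namespace CInv

namespace Z_fgG_rel

theorem fgr_zero {n : ℕ} {A B : Type} [CommRing A] [Algebra ℝ A] [CommRing B] [Algebra ℝ B]
    {DA : Fin n → A → A} {DB : Fin n → B → B} {Rel : A → B → Prop} (hR : RelHom DA DB Rel) :
    Rel 0 0 := by
  have h := hR.smul 0 hR.one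
  rwa [zero_smul, zero_smul] at h

theorem fgr_neg {n : ℕ} {A B : Type} [CommRing A] [Algebra ℝ A] [CommRing B] [Algebra ℝ B]
    {DA : Fin n → A → A} {DB : Fin n → B → B} {Rel : A → B → Prop} (hR : RelHom DA DB Rel)
    {a : A} {b : B} (h : Rel a b) : Rel (-a) (-b) := by
  have h := hR.smul (-1) h
  rwa [neg_one_smul, neg_one_smul] at h

theorem fgr_sub {n : ℕ} {A B : Type} [CommRing A] [Algebra ℝ A] [CommRing B] [Algebra ℝ B]
    {DA : Fin n → A → A} {DB : Fin n → B → B} {Rel : A → B → Prop} (hR : RelHom DA DB Rel)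
    {a a' : A} {b b' : B} (h : Rel a b) (h' : Rel a' b') : Rel (a - a') (b - b') := by
  rw [sub_eq_add_neg, sub_eq_add_neg]
  exact hR.add h (fgr_neg hR h')

theorem fgr_sum {n : ℕ} {A B : Type} [CommRing A] [Algebra ℝ A] [CommRing B] [Algebra ℝ B]
    {DA : Fin n → A → A} {DB : Fin n → B → B} {Rel : A → B → Prop} (hR : RelHom DA DB Rel)
    {ι : Type} (s : Finset ι) (f : ι → A) (g : ι → B) (h : ∀ i, Rel (f i) (g i)) :
    Rel (∑ i ∈ s, f i) (∑ i ∈ s, g i) := by
  classical
  induction s using Finset.induction_on with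
  | empty => simpa using fgr_zero hR
  | insert a s ha ih =>
    rw [Finset.sum_insert ha, Finset.sum_insert ha]
    exact hR.add (h a) ih

theorem fgr_pow {n : ℕ} {A B : Type} [CommRing A] [Algebra ℝ A] [CommRing B] [Algebra ℝ B]
    {DA : Fin n → A → A} {DB : Fin n → B → B} {Rel : A → B → Prop} (hR : RelHom DA DB Rel)
    {a : A} {b : B} (h : Rel a b) (m : ℕ) : Rel (a ^ m) (b ^ m) := by
  induction m with
  | zero => rw [pow_zero, pow_zero]; exact hR.one
  | succ m ih => rw [pow_succ, pow_succ]; exact hR.mul ih h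

theorem fgG_rel {n : ℕ} {A B : Type} [CommRing A] [Algebra ℝ A] [CommRing B] [Algebra ℝ B]
    {DA : Fin n → A → A} {DB : Fin n → B → B} {Rel : A → B → Prop} (hR : RelHom DA DB Rel)
    {gA giA : Fin n → Fin n → A} {gB giB : Fin n → Fin n → B}
    (hg : ∀ i j, Rel (gA i j) (gB i j)) (hgi : ∀ i j, Rel (giA i j) (giB i j))
    (m : ℕ) (i j : Fin n) (k : ℕ) :
    Rel (PowerSeries.coeff k (fgG DA gA giA m i j)) (PowerSeries.coeff k (fgG DB gB giB m i j)) := by
  obtain ⟨hP, hX, hC⟩ := ps_rel hR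
  induction m generalizing i j k with
  | zero => exact hC _ _ (hg i j) k
  | succ m ih =>
    have hfg : ∀ (i j : Fin n) (k : ℕ),
        Rel (PowerSeries.coeff k (fgX DA (fgG DA gA giA m) (pinv giA (fgG DA gA giA m)) i j))
          (PowerSeries.coeff k (fgX DB (fgG DB gB giB m) (pinv giB (fgG DB gB giB m)) i j)) :=
      fun i j => (fg_rel hP hX (fun i j k => ih i j k)
        (fun i j k => pinv_rel hR hgi ih i j k)).1 i j
    have hstep : Rel (fgStep DA gA giA (fgG DA gA giA m) m i j)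
        (fgStep DB gB giB (fgG DB gB giB m) m i j) := by
      unfold fgStep
      refine hR.smul _ (fgr_sub hR (fgr_neg hR (hfg i j m)) (hR.smul _ (hR.mul ?_ (hg i j))))
      refine fgr_sum hR _ _ _ (fun k => fgr_sum hR _ _ _ (fun l => ?_))
      exact hR.mul (hgi k l) (hfg k l m)
    have h1 : ∀ k, Rel (PowerSeries.coeff k (fgG DA gA giA m i j +
        PowerSeries.X ^ (m + 1) * PowerSeries.C (fgStep DA gA giA (fgG DA gA giA m) m i j)))
        (PowerSeries.coeff k (fgG DB gB giB m i j +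
        PowerSeries.X ^ (m + 1) * PowerSeries.C (fgStep DB gB giB (fgG DB gB giB m) m i j))) :=
      hP.add (fun k => ih i j k) (hP.mul (fgr_pow hP hX (m + 1)) (hC _ _ hstep))
    exact h1 k

end Z_fgG_rel

alias fgG_rel := Z_fgG_rel.fgG_rel

end CInv
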