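import Pool.Agent.Helper767.Gjms.Defs2
import Pool.Agent.Helper771.CInv.P_gi_symm
import Pool.Agent.Helper767.Gjms.P_rho_span
import Pool.Agent.Helper767.Gjms.P_fg_diff

set_option linter.all false

open scoped BigOperators

namespace CInv

namespace Z_fg_uniq

theorem fgu_smul {A : Type} [CommRing A] [Algebra ℝ A] (I : Ideal A) (r : ℝ) {x : A}
    (hx : x ∈ I) : r • x ∈ I := by
  rw [Algebra.smul_def]; exact I.mul_mem_left _ hx

theorem fgu_smul' {A : Type} [CommRing A] [Algebra ℝ A] (I : Ideal A) {r : ℝ} (hr : r ≠ 0) {x : A}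
    (hx : r • x ∈ I) : x ∈ I := by
  have h := fgu_smul I r⁻¹ hx
  rwa [smul_smul, inv_mul_cancel₀ hr, one_smul] at h

theorem fg_uniq {n : ℕ} {A : Type} [CommRing A] [Algebra ℝ A] {D : Fin (n + 1) → A → A}
    (hD : IsDer D) {ρ : A} (h1 : D 0 ρ = 1) (hx : ∀ i : Fin n, D i.succ ρ = 0)
    {g gi g' gi' : Fin n → Fin n → A} (h : IsMetric g gi) (h' : IsMetric g' gi')
    (s : ℕ) (hs : 2 * s + 2 ≤ n) (h0 : ∀ i j, g' i j - g i j ∈ Ideal.span {ρ})
    (hf : ∀ i j, fg (D 0) (fun i : Fin n => D i.succ) ρ g gi i j ∈ Ideal.span {ρ ^ s})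
    (hf' : ∀ i j, fg (D 0) (fun i : Fin n => D i.succ) ρ g' gi' i j ∈ Ideal.span {ρ ^ s})
    (i j : Fin n) : g' i j - g i j ∈ Ideal.span {ρ ^ (s + 1)} := by
  obtain ⟨hgis, hgi⟩ := gi_symm h
  have hpow : ∀ a b : ℕ, a ≤ b → Ideal.span {ρ ^ b} ≤ Ideal.span {ρ ^ a} := by
    intro a b hab
    rw [Ideal.span_singleton_le_span_singleton]
    exact pow_dvd_pow ρ hab
  have hmain : ∀ m : ℕ, m ≤ s → ∀ i j, g' i j - g i j ∈ Ideal.span {ρ ^ (m + 1)} := by
    intro m
    induction m with
    | zero =>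
      intro _ i j
      rw [zero_add, pow_one]
      exact h0 i j
    | succ m ih =>
      intro hms i j
      have ih' := ih (by omega)
      have hex : ∀ i j, ∃ e, g' i j = g i j + ρ ^ (m + 1) * e := by
        intro i j
        obtain ⟨e, he⟩ := Ideal.mem_span_singleton'.1 (ih' i j)
        exact ⟨e, by rw [mul_comm, he]; ring⟩
      choose e he using hex
      have hfd := fun i j => fg_diff hD h1 hx h h' (m + 1) (by omega) e he i j
      obtain ⟨t, ht⟩ : ∃ t, t = ∑ k, ∑ l, gi k l * e k l := ⟨_, rfl⟩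
      rw [← ht] at hfd
      obtain ⟨c1, hc1⟩ : ∃ c1 : ℝ, c1 = (((m + 1 : ℕ) : ℝ) * (((m + 1 : ℕ) : ℝ) - (n : ℝ) / 2)) :=
        ⟨_, rfl⟩
      obtain ⟨c2, hc2⟩ : ∃ c2 : ℝ, c2 = (((m + 1 : ℕ) : ℝ) / 2) := ⟨_, rfl⟩
      rw [← hc1, ← hc2] at hfd
      have hm1 : m + 1 - 1 = m := rfl
      rw [hm1] at hfd
      have hmn : (2 : ℝ) * (m + 1) + 2 ≤ n := by
        have : 2 * (m + 1) + 2 ≤ n := by omega
        exact_mod_cast this
      have hm0 : (0 : ℝ) ≤ m := Nat.cast_nonneg m
      have hc1ne : c1 ≠ 0 := by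
        rw [hc1]
        push_cast
        apply mul_ne_zero
        · positivity
        · intro hcon
          linarith
      have hc12 : c1 - c2 * n ≠ 0 := by
        rw [hc1, hc2]
        push_cast
        have : ((m : ℝ) + 1) * ((m : ℝ) + 1 - n / 2) - ((m : ℝ) + 1) / 2 * n =
            ((m : ℝ) + 1) * ((m : ℝ) + 1 - n) := by ring
        rw [this]
        apply mul_ne_zero
        · positivity
        · intro hcon
          linarith
      have hE : ∀ i j, ρ ^ m * (c1 • e i j - c2 • (t * g i j)) ∈ Ideal.span {ρ ^ (m + 1)} := by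
        intro i j
        have h2 := hpow (m + 1) s hms (hf i j)
        have h3 := hpow (m + 1) s hms (hf' i j)
        have h4 := (Ideal.span {ρ ^ (m + 1)}).sub_mem
          ((Ideal.span {ρ ^ (m + 1)}).sub_mem h3 h2) (hfd i j)
        rw [sub_sub_cancel] at h4
        exact h4
      have htr : ρ ^ m * t ∈ Ideal.span {ρ ^ (m + 1)} := by
        apply fgu_smul' _ hc12
        have h2 : ∑ i, ∑ j, gi i j * (ρ ^ m * (c1 • e i j - c2 • (t * g i j))) ∈
            Ideal.span {ρ ^ (m + 1)} :=
          Ideal.sum_mem _ fun i _ => Ideal.sum_mem _ fun j _ => Ideal.mul_mem_left _ _ (hE i j)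
        have hsum : ∑ i, ∑ j, gi i j * g i j = (n : A) := by
          have h3 : ∀ i, ∑ j, gi i j * g i j = 1 := by
            intro i
            have h4 := hgi i i
            rw [if_pos rfl] at h4
            rw [← h4]
            exact Finset.sum_congr rfl fun j _ => by rw [h.symm i j]
          rw [Finset.sum_congr rfl fun i _ => h3 i]
          simp
        have h5 : ∑ i, ∑ j, gi i j * (ρ ^ m * (c1 • e i j - c2 • (t * g i j))) =
            (c1 - c2 * n) • (ρ ^ m * t) := by
          have h6 : ∀ i j, gi i j * (ρ ^ m * (c1 • e i j - c2 • (t * g i j))) =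
              (algebraMap ℝ A c1 * ρ ^ m) * (gi i j * e i j) -
                (algebraMap ℝ A c2 * (ρ ^ m * t)) * (gi i j * g i j) := by
            intro i j
            rw [Algebra.smul_def, Algebra.smul_def]
            ring
          rw [Finset.sum_congr rfl fun i _ => Finset.sum_congr rfl fun j _ => h6 i j]
          simp only [Finset.sum_sub_distrib, ← Finset.mul_sum]
          rw [← ht, hsum, Algebra.smul_def, map_sub, map_mul, map_natCast]
          ring
        rw [← h5]
        exact h2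
      have hee : ρ ^ m * e i j ∈ Ideal.span {ρ ^ (m + 1)} := by
        apply fgu_smul' _ hc1ne
        have h2 := hE i j
        have h3 : algebraMap ℝ A c2 * g i j * (ρ ^ m * t) ∈ Ideal.span {ρ ^ (m + 1)} :=
          Ideal.mul_mem_left _ _ htr
        have h4 := Ideal.add_mem _ h2 h3
        have h5 : ρ ^ m * (c1 • e i j - c2 • (t * g i j)) +
            algebraMap ℝ A c2 * g i j * (ρ ^ m * t) = c1 • (ρ ^ m * e i j) := by
          rw [Algebra.smul_def, Algebra.smul_def, Algebra.smul_def]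
          ring
        rw [h5] at h4
        exact h4
      obtain ⟨y, hy⟩ := Ideal.mem_span_singleton'.1 hee
      rw [Ideal.mem_span_singleton']
      refine ⟨y, ?_⟩
      rw [he i j, pow_succ ρ (m + 1), ← mul_assoc, hy, pow_succ]
      ring
  exact hmain s le_rfl i j

end Z_fg_uniq

alias fg_uniq := Z_fg_uniq.fg_uniq

end CInv
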