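import Pool.Agent.Helper767.Gjms.Defs2
import Pool.Agent.Helper771.CInv.P_gi_symm
import Pool.Agent.Helper767.Gjms.P_rho_span
import Pool.Agent.Helper767.Gjms.P_ric_cong

set_option linter.all false

open scoped BigOperators

namespace CInv

namespace Z_lw_cong

theorem lw_cong_sub {n : ℕ} {A : Type} [CommRing A] [Algebra ℝ A] {D : Fin n → A → A}
    (hD : IsDer D) (i : Fin n) (a b : A) : D i (a - b) = D i a - D i b := by
  have h := hD.add i (a - b) b
  rw [sub_add_cancel] at h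
  rw [h]; ring

theorem lw_cong_mono {A : Type} [CommRing A] {ρ : A} {s t : ℕ} (h : t ≤ s) {a : A}
    (ha : a ∈ Ideal.span {ρ ^ s}) : a ∈ Ideal.span {ρ ^ t} :=
  (Ideal.span_singleton_le_span_singleton.2 (pow_dvd_pow ρ h)) ha

theorem lw_cong_smul {A : Type} [CommRing A] [Algebra ℝ A] {I : Ideal A} (r : ℝ) {a : A}
    (ha : a ∈ I) : r • a ∈ I := by
  rw [Algebra.smul_def]
  exact I.mul_mem_left _ ha

theorem lw_cong_trp {n : ℕ} {A : Type} [CommRing A] [Algebra ℝ A] {D : Fin (n + 1) → A → A}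
    (hD : IsDer D) {ρ : A} (h1 : D 0 ρ = 1) (hx : ∀ i : Fin n, D i.succ ρ = 0)
    {g gi g' gi' : Fin n → Fin n → A}
    (N : ℕ) (hg : ∀ i j, g' i j - g i j ∈ Ideal.span {ρ ^ N})
    (hgi : ∀ i j, gi' i j - gi i j ∈ Ideal.span {ρ ^ N}) :
    trp (D 0) g' gi' - trp (D 0) g gi ∈ Ideal.span {ρ ^ (N - 1)} ∧
    ρ * (trp (D 0) g' gi' - trp (D 0) g gi) ∈ Ideal.span {ρ ^ N} := by
  have hr := rho_span hD h1 hx N
  have key : trp (D 0) g' gi' - trp (D 0) g gi =
      ∑ k, ∑ l, ((gi' k l - gi k l) * D 0 (g' k l) + gi k l * D 0 (g' k l - g k l)) := by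
    unfold trp
    rw [← Finset.sum_sub_distrib]
    refine Finset.sum_congr rfl fun k _ => ?_
    rw [← Finset.sum_sub_distrib]
    refine Finset.sum_congr rfl fun l _ => ?_
    rw [lw_cong_sub hD]
    ring
  constructor
  · rw [key]
    refine Ideal.sum_mem _ fun k _ => Ideal.sum_mem _ fun l _ => ?_
    refine Ideal.add_mem _ ?_ ?_
    · exact Ideal.mul_mem_right _ _ (lw_cong_mono (Nat.sub_le N 1) (hgi k l))
    · exact Ideal.mul_mem_left _ _ (hr.2.1 _ (hg k l))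
  · rw [key, Finset.mul_sum]
    refine Ideal.sum_mem _ fun k _ => ?_
    rw [Finset.mul_sum]
    refine Ideal.sum_mem _ fun l _ => ?_
    have e : ρ * ((gi' k l - gi k l) * D 0 (g' k l) + gi k l * D 0 (g' k l - g k l)) =
        (gi' k l - gi k l) * (ρ * D 0 (g' k l)) + gi k l * (ρ * D 0 (g' k l - g k l)) := by ring
    rw [e]
    refine Ideal.add_mem _ ?_ ?_
    · exact Ideal.mul_mem_right _ _ (hgi k l)
    · exact Ideal.mul_mem_left _ _ (hr.2.2.1 _ (hg k l))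

theorem lw_cong {n : ℕ} {A : Type} [CommRing A] [Algebra ℝ A] {D : Fin (n + 1) → A → A}
    (hD : IsDer D) {ρ : A} (h1 : D 0 ρ = 1) (hx : ∀ i : Fin n, D i.succ ρ = 0)
    {g gi g' gi' : Fin n → Fin n → A} (h : IsMetric g gi) (h' : IsMetric g' gi')
    (N : ℕ) (hg : ∀ i j, g' i j - g i j ∈ Ideal.span {ρ ^ N}) :
    (∀ u, Lw (D 0) (fun i : Fin n => D i.succ) ρ g' gi' 0 u
      - Lw (D 0) (fun i : Fin n => D i.succ) ρ g gi 0 u ∈ Ideal.span {ρ ^ N}) ∧
    (∀ (w : ℝ) (M : ℕ) (u u' : A), 1 ≤ M → M ≤ N → u' - u ∈ Ideal.span {ρ ^ M} →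
      Lw (D 0) (fun i : Fin n => D i.succ) ρ g' gi' w u'
        - Lw (D 0) (fun i : Fin n => D i.succ) ρ g gi w u ∈ Ideal.span {ρ ^ (M - 1)}) := by
  have hD' : IsDer (fun i : Fin n => D i.succ) :=
    ⟨fun i => hD.add i.succ, fun i => hD.mul i.succ, fun i => hD.smul i.succ,
      fun i j => hD.comm i.succ j.succ⟩
  have hcN := ric_cong hD' (Ideal.span {ρ ^ N}) (fun i a ha => (rho_span hD h1 hx N).1 i a ha)
    h h' hg
  obtain ⟨ht1, ht2⟩ := lw_cong_trp hD h1 hx N hg hcN.1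
  constructor
  · intro u
    have e : Lw (D 0) (fun i : Fin n => D i.succ) ρ g' gi' 0 u
        - Lw (D 0) (fun i : Fin n => D i.succ) ρ g gi 0 u =
        -(ρ * (trp (D 0) g' gi' - trp (D 0) g gi)) * D 0 u +
        (lap (fun i : Fin n => D i.succ) g' gi' u - lap (fun i : Fin n => D i.succ) g gi u) := by
      unfold Lw
      simp only [zero_div, zero_smul]
      ring
    rw [e]
    refine Ideal.add_mem _ ?_ ?_
    · exact Ideal.mul_mem_right _ _ (neg_mem ht2)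
    · exact hcN.2.2 u u (by rw [sub_self]; exact Ideal.zero_mem _)
  · intro w M u u' hM hMN hu
    have hrM := rho_span hD h1 hx M
    have hrM1 := rho_span hD h1 hx (M - 1)
    have hgM : ∀ i j, g' i j - g i j ∈ Ideal.span {ρ ^ M} := fun i j => lw_cong_mono hMN (hg i j)
    have hcM := ric_cong hD' (Ideal.span {ρ ^ M}) (fun i a ha => hrM.1 i a ha) h h' hgM
    have e : Lw (D 0) (fun i : Fin n => D i.succ) ρ g' gi' w u'
        - Lw (D 0) (fun i : Fin n => D i.succ) ρ g gi w u =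
        (2 * w + (n : ℝ) - 2) • D 0 (u' - u) - 2 * (ρ * D 0 (D 0 (u' - u)))
        - ρ * trp (D 0) g' gi' * D 0 (u' - u)
        - (ρ * (trp (D 0) g' gi' - trp (D 0) g gi)) * D 0 u +
        (lap (fun i : Fin n => D i.succ) g' gi' u' - lap (fun i : Fin n => D i.succ) g gi u)
        + (w / 2) • (trp (D 0) g' gi' * (u' - u))
        + (w / 2) • ((trp (D 0) g' gi' - trp (D 0) g gi) * u) := by
      unfold Lw
      rw [lw_cong_sub hD, lw_cong_sub hD]
      simp only [Algebra.smul_def]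
      ring
    rw [e]
    have m1 : D 0 (u' - u) ∈ Ideal.span {ρ ^ (M - 1)} := hrM.2.1 _ hu
    have m2 : ρ * D 0 (D 0 (u' - u)) ∈ Ideal.span {ρ ^ (M - 1)} := hrM1.2.2.1 _ m1
    have m3 : lap (fun i : Fin n => D i.succ) g' gi' u' - lap (fun i : Fin n => D i.succ) g gi u ∈
        Ideal.span {ρ ^ (M - 1)} := lw_cong_mono (Nat.sub_le M 1) (hcM.2.2 u u' hu)
    have m4 : u' - u ∈ Ideal.span {ρ ^ (M - 1)} := lw_cong_mono (Nat.sub_le M 1) hu
    have m5 : trp (D 0) g' gi' - trp (D 0) g gi ∈ Ideal.span {ρ ^ (M - 1)} :=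
      lw_cong_mono (by omega) ht1
    have m6 : ρ * (trp (D 0) g' gi' - trp (D 0) g gi) ∈ Ideal.span {ρ ^ (M - 1)} :=
      lw_cong_mono (by omega) ht2
    refine Ideal.add_mem _ (Ideal.add_mem _ (Ideal.add_mem _ (Ideal.sub_mem _ (Ideal.sub_mem _
      (Ideal.sub_mem _ ?_ ?_) ?_) ?_) ?_) ?_) ?_
    · exact lw_cong_smul _ m1
    · exact Ideal.mul_mem_left _ _ m2
    · exact Ideal.mul_mem_left _ _ m1
    · exact Ideal.mul_mem_right _ _ m6
    · exact m3
    · exact lw_cong_smul _ (Ideal.mul_mem_left _ _ m4)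
    · exact lw_cong_smul _ (Ideal.mul_mem_right _ _ m5)

end Z_lw_cong

alias lw_cong := Z_lw_cong.lw_cong

end CInv
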