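import Pool.Agent.Helper767.Gjms.Defs2
import Pool.Agent.Helper767.Gjms.P_lw_cong

set_option linter.all false

open scoped BigOperators

namespace CInv

namespace Z_gjL_cong

theorem gjL_cong {n : ℕ} {A : Type} [CommRing A] [Algebra ℝ A] {D : Fin (n + 1) → A → A}
    (hD : IsDer D) {ρ : A} (h1 : D 0 ρ = 1) (hx : ∀ i : Fin n, D i.succ ρ = 0)
    {g gi g' gi' : Fin n → Fin n → A} (h : IsMetric g gi) (h' : IsMetric g' gi')
    (N : ℕ) (hN : 1 ≤ N) (hg : ∀ i j, g' i j - g i j ∈ Ideal.span {ρ ^ N}) (u : A) :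
    gjL (D 0) (fun i : Fin n => D i.succ) ρ g' gi' N u
      - gjL (D 0) (fun i : Fin n => D i.succ) ρ g gi N u ∈ Ideal.span {ρ} := by
  obtain ⟨hA, hB⟩ := lw_cong hD h1 hx h h' N hg
  have key : ∀ k : ℕ, 1 ≤ k → k ≤ N →
      gjL (D 0) (fun i : Fin n => D i.succ) ρ g' gi' k u
        - gjL (D 0) (fun i : Fin n => D i.succ) ρ g gi k u ∈ Ideal.span {ρ ^ (N - k + 1)} := by
    intro k hk1
    induction k, hk1 using Nat.le_induction with
    | base =>
      intro _
      have e : N - 1 + 1 = N := by omega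
      rw [e]
      have e2 : (-(2 * ((0 : ℕ) : ℝ))) = 0 := by simp
      show Lw (D 0) (fun i : Fin n => D i.succ) ρ g' gi' (-(2 * ((0 : ℕ) : ℝ))) u
        - Lw (D 0) (fun i : Fin n => D i.succ) ρ g gi (-(2 * ((0 : ℕ) : ℝ))) u ∈ _
      rw [e2]
      exact hA u
    | succ k hk ih =>
      intro hkN
      have h2 := hB (-(2 * (k : ℝ))) (N - k + 1) _ _ (by omega) (by omega) (ih (by omega))
      have e : N - (k + 1) + 1 = N - k + 1 - 1 := by omega
      rw [e]
      exact h2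
  have h3 := key N hN le_rfl
  rw [Nat.sub_self, zero_add, pow_one] at h3
  exact h3

end Z_gjL_cong

alias gjL_cong := Z_gjL_cong.gjL_cong

end CInv
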