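import Pool.Agent.Helper767.Gjms.Defs

set_option linter.all false

open scoped BigOperators

namespace CInv

namespace Z_lap_lin

theorem lap_lin {n : ℕ} {A : Type} [CommRing A] [Algebra ℝ A] {D : Fin n → A → A}
    (hD : IsDer D) (g gi : Fin n → Fin n → A) :
    (∀ F F', lap D g gi (F + F') = lap D g gi F + lap D g gi F') ∧
    (∀ (r : ℝ) F, lap D g gi (r • F) = r • lap D g gi F) ∧
    (∀ c F, (∀ i, D i c = 0) → lap D g gi (c * F) = c * lap D g gi F) := by
  have h0 : ∀ i, D i 0 = 0 := by
    intro i
    have := hD.smul i 0 0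
    simpa using this
  refine ⟨?_, ?_, ?_⟩
  · intro F F'
    unfold lap
    rw [← Finset.sum_add_distrib]
    refine Finset.sum_congr rfl (fun i _ => ?_)
    rw [← Finset.sum_add_distrib]
    refine Finset.sum_congr rfl (fun j _ => ?_)
    rw [← mul_add]
    congr 1
    have : ∀ k, chr D g gi k i j * D k (F + F') = chr D g gi k i j * D k F + chr D g gi k i j * D k F' := by
      intro k; rw [hD.add]; ring
    have hs : ∑ k, chr D g gi k i j * D k (F + F')
        = (∑ k, chr D g gi k i j * D k F) + ∑ k, chr D g gi k i j * D k F' := by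
      rw [← Finset.sum_add_distrib]
      exact Finset.sum_congr rfl (fun k _ => this k)
    have h1 : D i (D j (F + F')) = D i (D j F) + D i (D j F') := by rw [hD.add, hD.add]
    rw [hs, h1]
    ring
  · intro r F
    unfold lap
    rw [Finset.smul_sum]
    refine Finset.sum_congr rfl (fun i _ => ?_)
    rw [Finset.smul_sum]
    refine Finset.sum_congr rfl (fun j _ => ?_)
    have : ∀ k, chr D g gi k i j * D k (r • F) = r • (chr D g gi k i j * D k F) := by
      intro k; rw [hD.smul, mul_smul_comm]
    simp only [this, hD.smul, ← Finset.smul_sum, ← smul_sub, mul_smul_comm]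
  · intro c F hc
    have e1 : ∀ k, D k (c * F) = c * D k F := by
      intro k; rw [hD.mul, hc k]; ring
    have e2 : ∀ i k, D i (D k (c * F)) = c * D i (D k F) := by
      intro i k; rw [e1, hD.mul, hc i]; ring
    unfold lap
    rw [Finset.mul_sum]
    refine Finset.sum_congr rfl (fun i _ => ?_)
    rw [Finset.mul_sum]
    refine Finset.sum_congr rfl (fun j _ => ?_)
    have : ∀ k, chr D g gi k i j * D k (c * F) = c * (chr D g gi k i j * D k F) := by
      intro k; rw [e1]; ring
    simp only [this, e2, ← Finset.mul_sum]
    ring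

end Z_lap_lin

alias lap_lin := Z_lap_lin.lap_lin

end CInv
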