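import Pool.Agent.Helper767.Gjms.Defs2
import Pool.Agent.Helper767.Gjms.P_lap_lin

set_option linter.all false

open scoped BigOperators

namespace CInv

namespace Z_lw_basic

theorem lw_basic {n : ℕ} {A : Type} [CommRing A] [Algebra ℝ A] {D : Fin (n + 1) → A → A}
    (hD : IsDer D) {ρ : A} (h1 : D 0 ρ = 1) (hx : ∀ i : Fin n, D i.succ ρ = 0)
    (g gi : Fin n → Fin n → A) (w : ℝ) :
    (∀ u u', Lw (D 0) (fun i : Fin n => D i.succ) ρ g gi w (u + u')
      = Lw (D 0) (fun i : Fin n => D i.succ) ρ g gi w u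
        + Lw (D 0) (fun i : Fin n => D i.succ) ρ g gi w u') ∧
    (∀ (x : ℝ) u, Lw (D 0) (fun i : Fin n => D i.succ) ρ g gi w (x • u)
      = x • Lw (D 0) (fun i : Fin n => D i.succ) ρ g gi w u) ∧
    (∀ u, Lw (D 0) (fun i : Fin n => D i.succ) ρ g gi w (ρ * u)
      = ρ * Lw (D 0) (fun i : Fin n => D i.succ) ρ g gi (w - 2) u
        + (2 * w + (n : ℝ) - 2) • u) := by
  have hD' : IsDer (fun i : Fin n => D i.succ) :=
    ⟨fun i a b => hD.add _ a b, fun i a b => hD.mul _ a b, fun i r a => hD.smul _ r a,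
      fun i j a => hD.comm _ _ a⟩
  obtain ⟨l1, l2, l3⟩ := lap_lin hD' g gi
  refine ⟨fun u u' => ?_, fun x u => ?_, fun u => ?_⟩
  · unfold Lw
    rw [l1, hD.add, hD.add]
    simp only [Algebra.smul_def]
    ring
  · unfold Lw
    rw [l2, hD.smul, hD.smul]
    simp only [Algebra.smul_def]
    ring
  · unfold Lw
    rw [l3 ρ u hx]
    have e1 : D 0 (ρ * u) = u + ρ * D 0 u := by rw [hD.mul, h1, one_mul]
    have e2 : D 0 (D 0 (ρ * u)) = 2 * D 0 u + ρ * D 0 (D 0 u) := by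
      rw [e1, hD.add, hD.mul, h1]; ring
    rw [e2, e1]
    simp only [Algebra.smul_def]
    have c1 : algebraMap ℝ A (2 * w + (n : ℝ) - 2)
        = 4 * algebraMap ℝ A (w / 2) + algebraMap ℝ A (n : ℝ) - 2 := by
      have : (2 * w + (n : ℝ) - 2) = 4 * (w / 2) + (n : ℝ) - 2 := by ring
      rw [this]; simp only [map_add, map_sub, map_mul, map_ofNat]
    have c2 : algebraMap ℝ A (2 * (w - 2) + (n : ℝ) - 2)
        = 4 * algebraMap ℝ A (w / 2) - 4 + algebraMap ℝ A (n : ℝ) - 2 := by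
      have : (2 * (w - 2) + (n : ℝ) - 2) = 4 * (w / 2) - 4 + (n : ℝ) - 2 := by ring
      rw [this]; simp only [map_add, map_sub, map_mul, map_ofNat]
    have c3 : algebraMap ℝ A ((w - 2) / 2) = algebraMap ℝ A (w / 2) - 1 := by
      have : ((w - 2) / 2) = (w / 2) - 1 := by ring
      rw [this]; simp only [map_sub, map_one]
    rw [c1, c2, c3]
    ring

end Z_lw_basic

alias lw_basic := Z_lw_basic.lw_basic

end CInv
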