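import Pool.Agent.Helper767.Gjms.Defs2
import Pool.Agent.Helper767.Gjms.P_lw_basic

set_option linter.all false

open scoped BigOperators

namespace CInv

namespace Z_gjL_ext

/-- `L_{-2k} ... L_{-2} v` -/
noncomputable def gjL_ext_M {n : ℕ} {A : Type} [CommRing A] [Algebra ℝ A]
    (Dr : A → A) (Dx : Fin n → A → A) (ρ : A) (g gi : Fin n → Fin n → A) : ℕ → A → A
  | 0, v => v
  | k + 1, v => Lw Dr Dx ρ g gi (-(2 * ((k : ℝ) + 1))) (gjL_ext_M Dr Dx ρ g gi k v)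

theorem gjL_ext_aux {n : ℕ} {A : Type} [CommRing A] [Algebra ℝ A] {D : Fin (n + 1) → A → A}
    (hD : IsDer D) {ρ : A} (h1 : D 0 ρ = 1) (hx : ∀ i : Fin n, D i.succ ρ = 0)
    (g gi : Fin n → Fin n → A) (h : A) (k : ℕ) :
    gjL (D 0) (fun i : Fin n => D i.succ) ρ g gi (k + 1) (ρ * h)
      = ρ * gjL_ext_M (D 0) (fun i : Fin n => D i.succ) ρ g gi (k + 1) h
        + (((k : ℝ) + 1) * ((n : ℝ) - 2 * ((k : ℝ) + 1))) •
            gjL_ext_M (D 0) (fun i : Fin n => D i.succ) ρ g gi k h := by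
  induction k with
  | zero =>
    have h3 := (lw_basic hD h1 hx g gi (-(2 * ((0 : ℕ) : ℝ)))).2.2 h
    have e1 : gjL (D 0) (fun i : Fin n => D i.succ) ρ g gi (0 + 1) (ρ * h)
        = Lw (D 0) (fun i : Fin n => D i.succ) ρ g gi (-(2 * ((0 : ℕ) : ℝ))) (ρ * h) := rfl
    have e2 : gjL_ext_M (D 0) (fun i : Fin n => D i.succ) ρ g gi (0 + 1) h
        = Lw (D 0) (fun i : Fin n => D i.succ) ρ g gi (-(2 * (((0 : ℕ) : ℝ) + 1))) h := rfl
    have e3 : gjL_ext_M (D 0) (fun i : Fin n => D i.succ) ρ g gi 0 h = h := rfl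
    have e4 : (-(2 * ((0 : ℕ) : ℝ)) - 2 : ℝ) = -(2 * (((0 : ℕ) : ℝ) + 1)) := by ring
    rw [e1, e2, e3, h3, e4]
    congr 2
    push_cast
    ring
  | succ k ih =>
    have hw := lw_basic hD h1 hx g gi (-(2 * ((k + 1 : ℕ) : ℝ)))
    have e1 : gjL (D 0) (fun i : Fin n => D i.succ) ρ g gi (k + 1 + 1) (ρ * h)
        = Lw (D 0) (fun i : Fin n => D i.succ) ρ g gi (-(2 * ((k + 1 : ℕ) : ℝ)))
          (gjL (D 0) (fun i : Fin n => D i.succ) ρ g gi (k + 1) (ρ * h)) := rfl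
    have e2 : gjL_ext_M (D 0) (fun i : Fin n => D i.succ) ρ g gi (k + 1 + 1) h
        = Lw (D 0) (fun i : Fin n => D i.succ) ρ g gi (-(2 * (((k + 1 : ℕ) : ℝ) + 1)))
          (gjL_ext_M (D 0) (fun i : Fin n => D i.succ) ρ g gi (k + 1) h) := rfl
    have e3 : gjL_ext_M (D 0) (fun i : Fin n => D i.succ) ρ g gi (k + 1) h
        = Lw (D 0) (fun i : Fin n => D i.succ) ρ g gi (-(2 * ((k : ℝ) + 1)))
          (gjL_ext_M (D 0) (fun i : Fin n => D i.succ) ρ g gi k h) := rfl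
    have e4 : (-(2 * ((k + 1 : ℕ) : ℝ)) - 2 : ℝ) = -(2 * (((k + 1 : ℕ) : ℝ) + 1)) := by ring
    have e5 : (-(2 * ((k + 1 : ℕ) : ℝ)) : ℝ) = -(2 * ((k : ℝ) + 1)) := by push_cast; ring
    have e6 : Lw (D 0) (fun i : Fin n => D i.succ) ρ g gi (-(2 * ((k + 1 : ℕ) : ℝ)))
          (gjL_ext_M (D 0) (fun i : Fin n => D i.succ) ρ g gi k h)
        = gjL_ext_M (D 0) (fun i : Fin n => D i.succ) ρ g gi (k + 1) h := by
      rw [e3, e5]
    rw [e1, ih, hw.1, hw.2.2, hw.2.1, e6, e4, ← e2, add_assoc, ← add_smul]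
    congr 2
    push_cast
    ring

theorem gjL_ext_add {n : ℕ} {A : Type} [CommRing A] [Algebra ℝ A] {D : Fin (n + 1) → A → A}
    (hD : IsDer D) {ρ : A} (h1 : D 0 ρ = 1) (hx : ∀ i : Fin n, D i.succ ρ = 0)
    (g gi : Fin n → Fin n → A) (k : ℕ) (u u' : A) :
    gjL (D 0) (fun i : Fin n => D i.succ) ρ g gi k (u + u')
      = gjL (D 0) (fun i : Fin n => D i.succ) ρ g gi k u
        + gjL (D 0) (fun i : Fin n => D i.succ) ρ g gi k u' := by
  induction k with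
  | zero => rfl
  | succ k ih =>
    have hw := lw_basic hD h1 hx g gi (-(2 * (k : ℝ)))
    show Lw (D 0) (fun i : Fin n => D i.succ) ρ g gi (-(2 * (k : ℝ)))
      (gjL (D 0) (fun i : Fin n => D i.succ) ρ g gi k (u + u')) = _
    rw [ih, hw.1]
    rfl

theorem gjL_ext {n : ℕ} {A : Type} [CommRing A] [Algebra ℝ A] {D : Fin (n + 1) → A → A}
    (hD : IsDer D) {ρ : A} (h1 : D 0 ρ = 1) (hx : ∀ i : Fin n, D i.succ ρ = 0)
    (g gi : Fin n → Fin n → A) (k : ℕ) (hk : n = 2 * k) (u u' : A)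
    (hu : u' - u ∈ Ideal.span {ρ}) :
    gjL (D 0) (fun i : Fin n => D i.succ) ρ g gi k u'
      - gjL (D 0) (fun i : Fin n => D i.succ) ρ g gi k u ∈ Ideal.span {ρ} := by
  obtain ⟨h, hh⟩ := Ideal.mem_span_singleton'.1 hu
  have hu' : u' = u + ρ * h := by
    rw [mul_comm, hh]; ring
  rw [hu', gjL_ext_add hD h1 hx, add_sub_cancel_left]
  cases k with
  | zero => exact Ideal.mem_span_singleton'.2 ⟨h, mul_comm _ _⟩
  | succ k =>
    rw [gjL_ext_aux hD h1 hx]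
    have hn : (n : ℝ) = 2 * ((k : ℝ) + 1) := by
      rw [hk]; push_cast; ring
    rw [hn, sub_self, mul_zero, zero_smul, add_zero]
    exact Ideal.mem_span_singleton'.2 ⟨_, mul_comm _ _⟩

end Z_gjL_ext

alias gjL_ext := Z_gjL_ext.gjL_ext

end CInv
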