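import Pool.Agent.Helper767.Gjms.Defs2
import Pool.Agent.Helper767.Gjms.P_ext_isder
import Pool.Agent.Helper767.Gjms.P_fg_uniq
import Pool.Agent.Helper767.Gjms.P_gjL_cong
import Pool.Agent.Helper767.Gjms.P_pinv_spec
import Pool.Agent.Helper767.Gjms.P_fgG_spec

set_option linter.all false

open scoped BigOperators

namespace CInv

namespace Z_gjms_unique

private theorem j21446_zero {n : ℕ} {A : Type} [CommRing A] [Algebra ℝ A] {D : Fin n → A → A}
    (hD : IsDer D) (i : Fin n) : D i 0 = 0 := by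
  have h := hD.smul i 0 0
  rwa [zero_smul, zero_smul] at h

private theorem j21446_one {n : ℕ} {A : Type} [CommRing A] [Algebra ℝ A] {D : Fin n → A → A}
    (hD : IsDer D) (i : Fin n) : D i 1 = 0 := by
  have h := hD.mul i 1 1
  rw [mul_one, mul_one, one_mul] at h
  exact (left_eq_add.1 h)

private theorem j21446_dX {n : ℕ} {A : Type} [CommRing A] (D : Fin n → A → A) :
    extD D 0 (PowerSeries.X : PowerSeries A) = 1 := by
  show PowerSeries.derivative A (PowerSeries.X : PowerSeries A) = 1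
  exact PowerSeries.derivative_X

private theorem j21446_dx {n : ℕ} {A : Type} [CommRing A] [Algebra ℝ A] {D : Fin n → A → A}
    (hD : IsDer D) (i : Fin n) : extD D i.succ (PowerSeries.X : PowerSeries A) = 0 := by
  show cw (D i) (PowerSeries.X : PowerSeries A) = 0
  ext k
  unfold cw
  rw [PowerSeries.coeff_mk, PowerSeries.coeff_X, map_zero]
  by_cases hk : k = 1
  · rw [if_pos hk, j21446_one hD i]
  · rw [if_neg hk, j21446_zero hD i]

theorem gjms_unique {n : ℕ} (he : Even n) (hn : 4 ≤ n) {A : Type} [CommRing A] [Algebra ℝ A]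
    {D : Fin n → A → A} (hD : IsDer D) {g gi : Fin n → Fin n → A} (h : IsMetric g gi)
    {G Gi : Fin n → Fin n → PowerSeries A} (hG : IsMetric G Gi)
    (h0 : ∀ i j, PowerSeries.constantCoeff (G i j) = g i j)
    (hf : ∀ i j, fgX D G Gi i j ∈ Ideal.span {(PowerSeries.X : PowerSeries A) ^ (n / 2 - 1)})
    (F : A) :
    PowerSeries.constantCoeff (gjX D G Gi (n / 2) (PowerSeries.C F)) = gjms D g gi F := by
  have hs : 2 * (n / 2 - 1) + 2 ≤ n := by omega
  obtain ⟨hsym, hcon, hfg⟩ := fgG_spec hD h (n / 2 - 1) hs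
  have hP : IsMetric (fgG D g gi (n / 2 - 1)) (pinv gi (fgG D g gi (n / 2 - 1))) :=
    pinv_spec h hcon hsym
  have e := ext_isder hD
  have h0' : ∀ i j, G i j - fgG D g gi (n / 2 - 1) i j ∈
      Ideal.span {(PowerSeries.X : PowerSeries A)} := by
    intro i j
    rw [Ideal.mem_span_singleton, PowerSeries.X_dvd_iff, map_sub, h0 i j, hcon i j, sub_self]
  have hg := fg_uniq (D := extD D) e (ρ := (PowerSeries.X : PowerSeries A)) (j21446_dX D)
    (j21446_dx hD) hP hG (n / 2 - 1) hs h0' hfg hf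
  have hn1 : n / 2 - 1 + 1 = n / 2 := by omega
  rw [hn1] at hg
  have hN : 1 ≤ n / 2 := by omega
  have hc := gjL_cong (D := extD D) e (ρ := (PowerSeries.X : PowerSeries A)) (j21446_dX D)
    (j21446_dx hD) hP hG (n / 2) hN hg (PowerSeries.C F)
  rw [Ideal.mem_span_singleton, PowerSeries.X_dvd_iff, map_sub, sub_eq_zero] at hc
  exact hc

end Z_gjms_unique

alias gjms_unique := Z_gjms_unique.gjms_unique

end CInv
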