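import Pool.Agent.Helper767.Gjms.Defs3
import Pool.Agent.Helper767.Gjms.P_sm_rel
import Pool.Agent.Helper767.Gjms.P_tay_relhom
import Pool.Agent.Helper767.Gjms.P_tay_congr

set_option linter.all false

open scoped BigOperators

namespace CInv

namespace Z_tay_exists

theorem tx_cd {N : ℕ} {H : (Fin N → ℝ) → ℝ} {X : Fin N → ℝ}
    (h : ContDiffAt ℝ (⊤ : ℕ∞) H X) (i : Fin N) : ContDiffAt ℝ (⊤ : ℕ∞) (pd i H) X := by
  have h1 : ContDiffAt ℝ (⊤ : ℕ∞) (fderiv ℝ H) X := h.fderiv_right (by simp)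
  exact h1.clm_apply contDiffAt_const

theorem tx_cong {N : ℕ} {H H' : (Fin N → ℝ) → ℝ} {X : Fin N → ℝ} (h : H =ᶠ[nhds X] H')
    (i : Fin N) : pd i H =ᶠ[nhds X] pd i H' := by
  have h1 := h.fderiv (𝕜 := ℝ)
  filter_upwards [h1] with Y hY
  unfold pd
  rw [hY]

theorem tx_comm {N : ℕ} {H : (Fin N → ℝ) → ℝ} {X : Fin N → ℝ}
    (h : ContDiffAt ℝ (⊤ : ℕ∞) H X) (i j : Fin N) : pd i (pd j H) =ᶠ[nhds X] pd j (pd i H) := by
  have h2 : ContDiffAt ℝ 2 H X := h.of_le (WithTop.coe_le_coe.2 (le_top : (2 : ℕ∞) ≤ ⊤))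
  have h3 := h2.eventually (by simp)
  filter_upwards [h3] with Y hY
  have hs := hY.isSymmSndFDerivAt (by simp)
  have hd : DifferentiableAt ℝ (fderiv ℝ H) Y :=
    (hY.fderiv_right (m := 1) (by norm_num)).differentiableAt (by norm_num)
  have key : ∀ a b : Fin N, pd a (pd b H) Y =
      fderiv ℝ (fderiv ℝ H) Y (Pi.single a 1) (Pi.single b 1) := by
    intro a b
    unfold pd
    rw [fderiv_clm_apply hd (differentiableAt_const _)]
    simp
  rw [key, key]
  exact hs _ _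

theorem tx_iter_cd {N : ℕ} {H : (Fin N → ℝ) → ℝ} {X : Fin N → ℝ}
    (h : ContDiffAt ℝ (⊤ : ℕ∞) H X) (i : Fin N) (k : ℕ) :
    ContDiffAt ℝ (⊤ : ℕ∞) ((pd i)^[k] H) X := by
  induction k with
  | zero => exact h
  | succ k ih => rw [Function.iterate_succ_apply']; exact tx_cd ih i

theorem tx_iter_cong {N : ℕ} {H H' : (Fin N → ℝ) → ℝ} {X : Fin N → ℝ} (h : H =ᶠ[nhds X] H')
    (i : Fin N) (k : ℕ) : (pd i)^[k] H =ᶠ[nhds X] (pd i)^[k] H' := by
  induction k with
  | zero => exact h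
  | succ k ih =>
    rw [Function.iterate_succ_apply', Function.iterate_succ_apply']
    exact tx_cong ih i

theorem tx_iter_comm {N : ℕ} {H : (Fin N → ℝ) → ℝ} {X : Fin N → ℝ}
    (h : ContDiffAt ℝ (⊤ : ℕ∞) H X) (i j : Fin N) (k : ℕ) :
    pd i ((pd j)^[k] H) =ᶠ[nhds X] (pd j)^[k] (pd i H) := by
  induction k with
  | zero => exact Filter.EventuallyEq.rfl
  | succ k ih =>
    rw [Function.iterate_succ_apply', Function.iterate_succ_apply']
    exact (tx_comm (tx_iter_cd h j k) i j).trans (tx_cong ih j)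

theorem tx_dw_cd {N : ℕ} {H : (Fin N → ℝ) → ℝ} {X : Fin N → ℝ}
    (h : ContDiffAt ℝ (⊤ : ℕ∞) H X) (w : List (Fin N)) :
    ContDiffAt ℝ (⊤ : ℕ∞) (Dw pd w H) X := by
  induction w with
  | nil => exact h
  | cons i w ih => exact tx_cd ih i

/-- the linear part of `apt` -/
noncomputable def txL (n : ℕ) : (Fin n → ℝ) →L[ℝ] (Fin (n + 2) → ℝ) :=
  ContinuousLinearMap.pi (fun i => Fin.cases 0
    (fun i => Fin.cases 0 (fun i => ContinuousLinearMap.proj (R := ℝ) (φ := fun _ : Fin n => ℝ) i) i) i)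

theorem txL0 {n : ℕ} (y : Fin n → ℝ) : txL n y 0 = 0 := rfl

theorem txL1 {n : ℕ} (y : Fin n → ℝ) : txL n y (Fin.succ 0) = 0 := rfl

theorem txL2 {n : ℕ} (y : Fin n → ℝ) (m : Fin n) : txL n y m.succ.succ = y m := rfl

theorem tx_apt {n : ℕ} (t0 : ℝ) :
    (apt t0 : (Fin n → ℝ) → (Fin (n + 2) → ℝ)) = fun y => apt t0 0 + txL n y := by
  funext y i
  refine Fin.cases ?_ (fun i => Fin.cases ?_ (fun i => ?_) i) i
  · rw [Pi.add_apply, txL0, add_zero]; rfl
  · rw [Pi.add_apply, txL1, add_zero]; rfl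
  · rw [Pi.add_apply, txL2]
    show y i = 0 + y i
    rw [zero_add]

theorem tx_L_single {n : ℕ} (m : Fin n) :
    txL n (Pi.single m 1) = Pi.single m.succ.succ 1 := by
  funext i
  refine Fin.cases ?_ (fun i => Fin.cases ?_ (fun i => ?_) i) i
  · rw [txL0, Pi.single_eq_of_ne]
    intro h
    exact absurd h.symm (Fin.succ_ne_zero _)
  · rw [txL1, Pi.single_eq_of_ne]
    intro h
    exact absurd (Fin.succ_injective _ h).symm (Fin.succ_ne_zero _)
  · rw [txL2]
    by_cases h : i = m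
    · subst h; rw [Pi.single_eq_same, Pi.single_eq_same]
    · rw [Pi.single_eq_of_ne h, Pi.single_eq_of_ne]
      intro h2
      exact h (Fin.succ_injective _ (Fin.succ_injective _ h2))

theorem tx_chain {n : ℕ} (t0 : ℝ) (H : (Fin (n + 2) → ℝ) → ℝ) (x : Fin n → ℝ)
    (h : DifferentiableAt ℝ H (apt t0 x)) (m : Fin n) :
    pd m (fun y => H (apt t0 y)) x = pd m.succ.succ H (apt t0 x) := by
  have h1 : HasFDerivAt (apt t0 : (Fin n → ℝ) → (Fin (n + 2) → ℝ)) (txL n) x := by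
    rw [tx_apt]
    exact (txL n).hasFDerivAt.const_add _
  have h2 : HasFDerivAt (fun y => H (apt t0 y)) ((fderiv ℝ H (apt t0 x)).comp (txL n)) x :=
    h.hasFDerivAt.comp x h1
  unfold pd
  rw [h2.fderiv, ContinuousLinearMap.comp_apply, tx_L_single]

theorem tx_smooth {n : ℕ} (t0 : ℝ) (H : (Fin (n + 2) → ℝ) → ℝ) (x : Fin n → ℝ)
    (h : ContDiffAt ℝ (⊤ : ℕ∞) H (apt t0 x)) :
    ContDiffAt ℝ (⊤ : ℕ∞) (fun y => H (apt t0 y)) x := by
  have h1 : ContDiff ℝ (⊤ : ℕ∞) (apt t0 : (Fin n → ℝ) → (Fin (n + 2) → ℝ)) := by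
    rw [tx_apt]
    exact contDiff_const.add (txL n).contDiff
  exact ContDiffAt.comp x h h1.contDiffAt

theorem tx_coeff_der {R : Type} [CommRing R] (q : PowerSeries R) (j : ℕ) :
    PowerSeries.coeff j q.derivativeFun = (j + 1) • PowerSeries.coeff (j + 1) q := by
  have h : PowerSeries.coeff j q.derivativeFun = PowerSeries.coeff (j + 1) q * (j + 1) :=
    PowerSeries.coeff_derivative q j
  rw [h, nsmul_eq_mul, mul_comm]
  push_cast
  rfl

theorem tx_main {n : ℕ} (t0 : ℝ) {U : Set (Fin n → ℝ)} {A : Type} [CommRing A] [Algebra ℝ A]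
    {D : Fin n → A → A} {ev : A →ₐ[ℝ] (U → ℝ)} (hA : SmRing U D ev)
    (F : (Fin (n + 2) → ℝ) → ℝ) (hF : ∀ x : U, ContDiffAt ℝ (⊤ : ℕ∞) F (apt t0 x))
    (p : PowerSeries (PowerSeries A))
    (hp : ∀ (j k : ℕ) (x : U), ((j.factorial : ℝ) * k.factorial) *
      ev (PowerSeries.coeff k (PowerSeries.coeff j p)) x =
        ((pd 0)^[j] ((pd 1)^[k] F)) (apt t0 x)) (w : List (Fin (n + 2))) :
    ∀ (j k : ℕ) (x : U), ((j.factorial : ℝ) * k.factorial) *
      ev (PowerSeries.coeff k (PowerSeries.coeff j (Dw (extD (extD D)) w p))) x =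
        ((pd 0)^[j] ((pd 1)^[k] (Dw pd w F))) (apt t0 x) := by
  induction w with
  | nil => exact hp
  | cons i w ih =>
    have hH : ∀ x : U, ContDiffAt ℝ (⊤ : ℕ∞) (Dw pd w F) (apt t0 x) := fun x =>
      tx_dw_cd (hF x) w
    intro j k x
    show ((j.factorial : ℝ) * k.factorial) *
      ev (PowerSeries.coeff k (PowerSeries.coeff j (extD (extD D) i (Dw (extD (extD D)) w p)))) x =
        ((pd 0)^[j] ((pd 1)^[k] (pd i (Dw pd w F)))) (apt t0 x)
    generalize Dw (extD (extD D)) w p = q at ih ⊢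
    generalize Dw pd w F = H at ih hH ⊢
    revert i
    refine Fin.cases ?_ (fun i => Fin.cases ?_ (fun m => ?_) i)
    · have e : extD (extD D) 0 q = q.derivativeFun := rfl
      rw [e, tx_coeff_der, map_nsmul, map_nsmul, Pi.smul_apply]
      have h1 := ih (j + 1) k x
      rw [Function.iterate_succ_apply] at h1
      have h2 : (pd 0)^[j] (pd 0 ((pd 1)^[k] H)) =ᶠ[nhds (apt t0 x)]
          (pd 0)^[j] ((pd 1)^[k] (pd 0 H)) :=
        tx_iter_cong (tx_iter_comm (hH x) 0 1 k) 0 j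
      rw [h2.eq_of_nhds] at h1
      rw [← h1, Nat.factorial_succ, nsmul_eq_mul]
      push_cast
      ring
    · have e : extD (extD D) (Fin.succ 0) q = cw PowerSeries.derivativeFun q := rfl
      have e1 : (Fin.succ 0 : Fin (n + 2)) = 1 := rfl
      have e2 : PowerSeries.coeff j (cw PowerSeries.derivativeFun q) =
          PowerSeries.derivativeFun (PowerSeries.coeff j q) := by
        unfold cw; rw [PowerSeries.coeff_mk]
      rw [e, e2, tx_coeff_der, map_nsmul, Pi.smul_apply, e1]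
      have h1 := ih j (k + 1) x
      rw [Function.iterate_succ_apply] at h1
      rw [← h1, Nat.factorial_succ, nsmul_eq_mul]
      push_cast
      ring
    · have e : extD (extD D) m.succ.succ q = cw (cw (D m)) q := rfl
      have e2 : PowerSeries.coeff k (PowerSeries.coeff j (cw (cw (D m)) q)) =
          D m (PowerSeries.coeff k (PowerSeries.coeff j q)) := by
        unfold cw; rw [PowerSeries.coeff_mk, PowerSeries.coeff_mk]
      rw [e, e2]
      have hK : ∀ y : U, ContDiffAt ℝ (⊤ : ℕ∞) ((pd 0)^[j] ((pd 1)^[k] H)) (apt t0 y) := fun y =>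
        tx_iter_cd (tx_iter_cd (hH y) 1 k) 0 j
      have hG : ContDiffOn ℝ (⊤ : ℕ∞)
          (fun y => ((pd 0)^[j] ((pd 1)^[k] H)) (apt t0 y)) U := fun y hy =>
        (tx_smooth t0 _ y (hK ⟨y, hy⟩)).contDiffWithinAt
      have h1 := hA.comp (((j.factorial : ℝ) * k.factorial) •
        (PowerSeries.coeff k (PowerSeries.coeff j q))) _ hG (by
          intro y
          rw [map_smul, Pi.smul_apply, smul_eq_mul]
          exact ih j k y) m x
      rw [hA.der.smul, map_smul, Pi.smul_apply, smul_eq_mul, tx_chain t0 _ _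
        ((hK x).differentiableAt (by simp))] at h1
      rw [h1]
      have h2 : pd m.succ.succ ((pd 0)^[j] ((pd 1)^[k] H)) =ᶠ[nhds (apt t0 x)]
          (pd 0)^[j] ((pd 1)^[k] (pd m.succ.succ H)) :=
        (tx_iter_comm (tx_iter_cd (hH x) 1 k) m.succ.succ 0 j).trans
          (tx_iter_cong (tx_iter_comm (hH x) m.succ.succ 1 k) 0 j)
      exact h2.eq_of_nhds

theorem tay_exists {n : ℕ} (t0 : ℝ) {U : Set (Fin n → ℝ)} {A : Type} [CommRing A] [Algebra ℝ A]
    {D : Fin n → A → A} {ev : A →ₐ[ℝ] (U → ℝ)} (hA : SmRing U D ev)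
    (F : (Fin (n + 2) → ℝ) → ℝ) (hF : ∀ x : U, ContDiffAt ℝ (⊤ : ℕ∞) F (apt t0 x)) :
    ∃ p, TRel t0 U D ev F p := by
  have hex : ∀ j k : ℕ, ∃ a : A, ∀ x : U, ev a x = ((pd 0)^[j] ((pd 1)^[k] F)) (apt t0 x) := by
    intro j k
    refine hA.surj (fun y => ((pd 0)^[j] ((pd 1)^[k] F)) (apt t0 y)) (fun y hy => ?_)
    exact (tx_smooth t0 _ y (tx_iter_cd (tx_iter_cd (hF ⟨y, hy⟩) 1 k) 0 j)).contDiffWithinAt
  choose a ha using hex
  let p : PowerSeries (PowerSeries A) := PowerSeries.mk fun j => PowerSeries.mk fun k =>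
    (((j.factorial : ℝ) * k.factorial)⁻¹) • a j k
  have hp : ∀ (j k : ℕ) (x : U), ((j.factorial : ℝ) * k.factorial) *
      ev (PowerSeries.coeff k (PowerSeries.coeff j p)) x =
        ((pd 0)^[j] ((pd 1)^[k] F)) (apt t0 x) := by
    intro j k x
    have e : PowerSeries.coeff k (PowerSeries.coeff j p) =
        (((j.factorial : ℝ) * k.factorial)⁻¹) • a j k := by
      show PowerSeries.coeff k (PowerSeries.coeff j (PowerSeries.mk _)) = _
      rw [PowerSeries.coeff_mk, PowerSeries.coeff_mk]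
    have hne : ((j.factorial : ℝ) * k.factorial) ≠ 0 := by positivity
    rw [e, map_smul, Pi.smul_apply, smul_eq_mul, ha, mul_inv_cancel_left₀ hne]
  refine ⟨p, fun x => ⟨hF x, fun w => ?_⟩⟩
  have h := tx_main t0 hA F hF p hp w 0 0 x
  simp only [Nat.factorial_zero, Nat.cast_one, mul_one, one_mul, Function.iterate_zero, id,
    PowerSeries.coeff_zero_eq_constantCoeff] at h
  exact h.symm

end Z_tay_exists

alias tay_exists := Z_tay_exists.tay_exists

end CInv
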