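import Pool.Agent.Helper767.Gjms.Defs3
import Pool.Agent.Helper767.Gjms.P_tay_relhom
import Pool.Agent.Helper767.Gjms.P_tay_exists
import Pool.Agent.Helper767.Gjms.P_tay_unique
import Pool.Agent.Helper767.Gjms.P_tay_congr

set_option linter.all false

open scoped BigOperators

namespace CInv

namespace Z_tay_near

theorem tay_near {n : ℕ} (t0 : ℝ) {U : Set (Fin n → ℝ)} {A : Type} [CommRing A] [Algebra ℝ A]
    {D : Fin n → A → A} {ev : A →ₐ[ℝ] (U → ℝ)} (hA : SmRing U D ev)
    (F : ℝ → (Fin n → ℝ) → ℝ) (hF : SmoothNear U F) :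
    (∀ x : U, ContDiffAt ℝ (⊤ : ℕ∞) (fun X : Fin (n + 2) → ℝ => F (X 1) (xpart X)) (apt t0 x)) ∧
    ∃ q : PowerSeries A,
      TRel t0 U D ev (fun X : Fin (n + 2) → ℝ => F (X 1) (xpart X)) (PowerSeries.C q) ∧
      ∀ x : U, ev (PowerSeries.constantCoeff q) x = F 0 x := by
  have hap1 : ∀ x : Fin n → ℝ, apt t0 x 1 = 0 := fun x => rfl
  have hapx : ∀ x : Fin n → ℝ, xpart (apt t0 x) = x := fun x => by
    funext i
    simp [xpart, apt]
  have hsm : ∀ x : U, ContDiffAt ℝ (⊤ : ℕ∞)
      (fun X : Fin (n + 2) → ℝ => F (X 1) (xpart X)) (apt t0 x) := by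
    intro x
    obtain ⟨V, hV, hUV, hFV⟩ := hF
    have h1 : ContDiffAt ℝ (⊤ : ℕ∞) (fun p : ℝ × (Fin n → ℝ) => F p.1 p.2)
        ((fun X : Fin (n + 2) → ℝ => (X 1, xpart X)) (apt t0 x)) := by
      simp only [hap1, hapx]
      exact hFV.contDiffAt (hV.mem_nhds (hUV x x.2))
    have h2 : ContDiff ℝ (⊤ : ℕ∞) (fun X : Fin (n + 2) → ℝ => (X 1, xpart X)) := by
      unfold xpart
      apply ContDiff.prodMk
      · exact contDiff_apply ℝ ℝ 1
      · exact contDiff_pi.2 fun i => contDiff_apply ℝ ℝ _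
    exact ContDiffAt.comp (g := fun p : ℝ × (Fin n → ℝ) => F p.1 p.2)
      (f := fun X : Fin (n + 2) → ℝ => (X 1, xpart X)) (apt t0 x) h1 h2.contDiffAt
  refine ⟨hsm, ?_⟩
  obtain ⟨p, hp⟩ := tay_exists t0 hA (fun X : Fin (n + 2) → ℝ => F (X 1) (xpart X)) hsm
  have hRH := tay_relhom t0 hA (n := n)
  have hder := hRH.der 0 hp
  have hzero : TRel t0 U D ev ((0:ℝ) • (1 : (Fin (n + 2) → ℝ) → ℝ)) ((0:ℝ) • (1 : PowerSeries (PowerSeries A))) :=
    hRH.smul 0 hRH.one
  have hpd0 : ∀ X, pd 0 (fun X : Fin (n + 2) → ℝ => F (X 1) (xpart X)) X = 0 := by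
    intro X
    unfold pd
    by_cases h : DifferentiableAt ℝ (fun X : Fin (n + 2) → ℝ => F (X 1) (xpart X)) X
    · rw [← h.lineDeriv_eq_fderiv]
      unfold lineDeriv
      have : (fun t : ℝ => F ((X + t • (Pi.single 0 1 : Fin (n+2) → ℝ)) 1)
          (xpart (X + t • (Pi.single 0 1 : Fin (n+2) → ℝ)))) = fun _ => F (X 1) (xpart X) := by
        funext t
        have e1 : (X + t • (Pi.single 0 1 : Fin (n+2) → ℝ)) 1 = X 1 := by
          simp
        have e2 : xpart (X + t • (Pi.single 0 1 : Fin (n+2) → ℝ)) = xpart X := by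
          funext i
          simp [xpart]
        rw [e1, e2]
      rw [this]
      simp
    · rw [fderiv_zero_of_not_differentiableAt h]
      simp
  have hd0 : extD (extD D) 0 p = 0 := by
    have := tay_unique t0 hA hder hzero (fun x => by
      apply Filter.Eventually.of_forall
      intro X
      rw [hpd0 X]
      simp)
    rw [this, zero_smul]
  have hd1 : PowerSeries.derivativeFun p = 0 := hd0
  have hpC : p = PowerSeries.C (PowerSeries.constantCoeff p) := by
    ext1 k
    cases k with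
    | zero => simp
    | succ k =>
      have h1 : PowerSeries.coeff k (PowerSeries.derivative (PowerSeries A) p) = 0 := by
        have : PowerSeries.derivative (PowerSeries A) p = 0 := hd1
        rw [this]; simp
      rw [PowerSeries.coeff_derivative] at h1
      have h2 : ((k:PowerSeries A) + 1) = algebraMap ℝ (PowerSeries A) ((k:ℝ) + 1) := by
        simp
      have h3 : PowerSeries.coeff (k+1) p = 0 := by
        have h4 : PowerSeries.coeff (k+1) p * ((k:PowerSeries A) + 1) * algebraMap ℝ (PowerSeries A) (((k:ℝ) + 1)⁻¹) = 0 := by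
          rw [h1, zero_mul]
        rw [h2, mul_assoc, ← map_mul, mul_inv_cancel₀ (by positivity), map_one, mul_one] at h4
        exact h4
      rw [h3, PowerSeries.coeff_C]
      simp
  refine ⟨PowerSeries.constantCoeff p, ?_, ?_⟩
  · rw [← hpC]
    exact hp
  · intro x
    have h1 := (hp x).2 []
    simp only [Dw, hap1, hapx] at h1
    exact h1.symm

end Z_tay_near

alias tay_near := Z_tay_near.tay_near

end CInv
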