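import Pool.Agent.Helper767.Gjms.Defs3
import Pool.Agent.Helper767.Gjms.P_ext_isder
import Pool.Agent.Helper767.Gjms.P_gjL_ext
import Pool.Agent.Helper767.Gjms.P_gjms_unique
import Pool.Agent.Helper767.Gjms.P_tay_near
import Pool.Agent.Helper767.Gjms.P_tay_rho
import Pool.Agent.Helper767.Gjms.P_real_bridge

set_option linter.all false

open scoped BigOperators

namespace CInv

namespace Z_gjms_real

theorem gjms_real {n : ℕ} (he : Even n) (hn : 4 ≤ n) {U : Set (Fin n → ℝ)} {A : Type}
    [CommRing A] [Algebra ℝ A] {D : Fin n → A → A} {ev : A →ₐ[ℝ] (U → ℝ)} (hA : SmRing U D ev)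
    {g : (Fin n → ℝ) → Matrix (Fin n) (Fin n) ℝ} (hg : IsPMetricOn U g)
    {gA giA : Fin n → Fin n → A} (hm : IsMetric gA giA) (hgA : ∀ i j, ∀ x : U, ev (gA i j) x = g x i j)
    {G : ℝ → (Fin n → ℝ) → Matrix (Fin n) (Fin n) ℝ} (hG : IsAmbient U g G)
    (F : ℝ → (Fin n → ℝ) → ℝ) (hF : SmoothNear U F) (fA : A) (hf : ∀ x : U, ev fA x = F 0 x)
    (x : U) :
    (ambLap G)^[n / 2] (fun X => F (X 1) (xpart X)) (apt 1 x) = ev (gjms D gA giA fA) x := by
  have hq' : ∀ i j, ∃ q : PowerSeries A,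
      TRel 1 U D ev (fun X : Fin (n + 2) → ℝ => G (X 1) (xpart X) i j) (PowerSeries.C q) := by
    intro i j
    obtain ⟨_, q, hq, _⟩ := tay_near 1 hA (fun ρ x => G ρ x i j) (hG.smooth i j)
    exact ⟨q, hq⟩
  choose Q hQ using hq'
  obtain ⟨_, q, hq, hq0⟩ := tay_near 1 hA F hF
  obtain ⟨hc, Qi, hmet, hric, hlap⟩ :=
    real_bridge hA hg hG.smooth hG.symm hG.init 1 one_pos Q hQ
  have h0 : ∀ i j, PowerSeries.constantCoeff (Q i j) = gA i j := by
    intro i j
    apply hA.inj
    funext y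
    rw [hc i j y, hgA i j y]
  have hfX : ∀ i j, fgX D Q Qi i j ∈
      Ideal.span {(PowerSeries.X : PowerSeries A) ^ (n / 2 - 1)} := by
    intro i j
    exact (tay_rho 1 hA (hric i j) (n / 2 - 1)).2
      (fun k hk y => hG.ricci 1 one_pos y y.2 i j k hk)
  have h1 := gjms_unique he hn hA.der hm hmet h0 hfX fA
  have hq1 : PowerSeries.constantCoeff q = fA := by
    apply hA.inj
    funext y
    rw [hq0 y, hf y]
  have hqs : q - PowerSeries.C fA ∈ Ideal.span {(PowerSeries.X : PowerSeries A)} := by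
    rw [Ideal.mem_span_singleton, PowerSeries.X_dvd_iff, map_sub, hq1,
      PowerSeries.constantCoeff_C, sub_self]
  have hD0 : ∀ i, D i 0 = 0 := by
    intro i
    have := hA.der.add i 0 0
    simpa using this
  have hD1 : ∀ i, D i 1 = 0 := by
    intro i
    have := hA.der.mul i 1 1
    simpa using this
  have hX0 : extD D 0 (PowerSeries.X : PowerSeries A) = 1 := by
    show PowerSeries.derivativeFun (PowerSeries.X : PowerSeries A) = 1
    have hdd : PowerSeries.derivativeFun (PowerSeries.X : PowerSeries A)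
        = PowerSeries.derivative A (PowerSeries.X : PowerSeries A) := rfl
    rw [hdd]
    ext m
    rw [PowerSeries.coeff_derivative, PowerSeries.coeff_X, PowerSeries.coeff_one]
    by_cases hm0 : m = 0
    · subst hm0; simp
    · simp [hm0]
  have hXs : ∀ i : Fin n, extD D i.succ (PowerSeries.X : PowerSeries A) = 0 := by
    intro i
    show cw (D i) (PowerSeries.X : PowerSeries A) = 0
    ext m
    unfold cw
    rw [PowerSeries.coeff_mk, PowerSeries.coeff_X]
    split_ifs
    · simp [hD1]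
    · simp [hD0]
  have hn2 : n = 2 * (n / 2) := by
    obtain ⟨r, hr⟩ := he
    omega
  have hext := gjL_ext (ext_isder hA.der) hX0 hXs Q Qi (n / 2) hn2 (PowerSeries.C fA) q hqs
  have hext' : gjX D Q Qi (n / 2) q - gjX D Q Qi (n / 2) (PowerSeries.C fA) ∈
      Ideal.span {(PowerSeries.X : PowerSeries A)} := hext
  rw [Ideal.mem_span_singleton, PowerSeries.X_dvd_iff, map_sub, sub_eq_zero] at hext'
  have h2 := hlap F q hq (n / 2) x
  rw [h2, hext', h1]
  simp

end Z_gjms_real

alias gjms_real := Z_gjms_real.gjms_real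

end CInv
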