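import Pool.Agent.Helper767.Gjms.Defs2
import Pool.Agent.Helper771.CInv.P_gi_symm
import Pool.Agent.Helper771.CInv.P_cc_metric
import Pool.Agent.Helper767.Gjms.P_ext_isder
import Pool.Agent.Helper767.Gjms.P_conf_var
import Pool.Agent.Helper767.Gjms.P_amb_exists
import Pool.Agent.Helper767.Gjms.P_fg_rel
import Pool.Agent.Helper767.Gjms.P_pinv_spec
import Pool.Agent.Helper767.Gjms.P_fgG_spec
import Pool.Agent.Helper767.Gjms.P_gjms_unique

set_option linter.all false

open scoped BigOperators

namespace CInv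

namespace Z_gjms_conf

theorem gjms_conf_cwC {A : Type} [CommRing A] (δ : A → A) (h0 : δ 0 = 0) (a : A) :
    cw δ (PowerSeries.C a) = PowerSeries.C (δ a) := by
  ext k
  unfold cw
  rw [PowerSeries.coeff_mk, PowerSeries.coeff_C, PowerSeries.coeff_C]
  split_ifs
  · rfl
  · exact h0

theorem gjms_conf_zero {n : ℕ} {A : Type} [CommRing A] [Algebra ℝ A] {D : Fin n → A → A}
    (hD : IsDer D) (i : Fin n) : D i 0 = 0 := by
  have := hD.add i 0 0
  rw [add_zero] at this
  exact left_eq_add.mp this

theorem gjms_conf_smulC {A : Type} [CommRing A] [Algebra ℝ A] (r : ℝ) (a : A) :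
    r • (PowerSeries.C a : PowerSeries A) = PowerSeries.C (r • a) := by
  ext k
  rw [PowerSeries.coeff_C]
  have h1 : PowerSeries.coeff k (r • (PowerSeries.C a : PowerSeries A))
      = r • PowerSeries.coeff k (PowerSeries.C a : PowerSeries A) := rfl
  rw [h1, PowerSeries.coeff_C]
  split_ifs
  · rfl
  · exact smul_zero r

theorem gjms_conf_succ {n : ℕ} {A : Type} [CommRing A] [Algebra ℝ A] {D : Fin n → A → A}
    (hD : IsDer D) (I : Fin (n + 1)) (p : PowerSeries A) :
    extD (extD D) I.succ (PowerSeries.C p) = PowerSeries.C (extD D I p) := by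
  have h := gjms_conf_cwC (extD D I) (gjms_conf_zero (ext_isder hD) I) p
  exact h

theorem gjms_conf_rel {n : ℕ} {A : Type} [CommRing A] [Algebra ℝ A] {D : Fin n → A → A}
    (hD : IsDer D) : RelHom (extD D) (fun I : Fin (n + 1) => extD (extD D) I.succ)
      (fun (p : PowerSeries A) (q : PowerSeries (PowerSeries A)) => q = PowerSeries.C p) where
  one := (map_one _).symm
  add := by
    intro a a' b b' h h'
    rw [h, h', map_add]
  mul := by
    intro a a' b b' h h'
    rw [h, h', map_mul]
  smul := by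
    intro r a b h
    rw [h, gjms_conf_smulC]
  der := by
    intro i a b h
    rw [h]
    exact gjms_conf_succ hD i a

/-- formal antiderivative -/
noncomputable def gjms_conf_int {A : Type} [CommRing A] [Algebra ℝ A] (w : PowerSeries A) :
    PowerSeries A :=
  PowerSeries.mk fun k => match k with
    | 0 => 0
    | k + 1 => (1 / ((k : ℝ) + 1)) • PowerSeries.coeff k w

theorem gjms_conf_int_zero {A : Type} [CommRing A] [Algebra ℝ A] (w : PowerSeries A) :
    PowerSeries.constantCoeff (gjms_conf_int w) = 0 := by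
  unfold gjms_conf_int
  rw [← PowerSeries.coeff_zero_eq_constantCoeff_apply, PowerSeries.coeff_mk]

theorem gjms_conf_cder {A : Type} [CommRing A] (p : PowerSeries A) (k : ℕ) :
    PowerSeries.coeff k (PowerSeries.derivativeFun p) = PowerSeries.coeff (k + 1) p * ((k : A) + 1) :=
  PowerSeries.coeff_derivative p k

theorem gjms_conf_derC {A : Type} [CommRing A] (a : A) :
    PowerSeries.derivativeFun (PowerSeries.C a) = 0 :=
  PowerSeries.derivative_C

theorem gjms_conf_int_der {A : Type} [CommRing A] [Algebra ℝ A] (w : PowerSeries A) :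
    PowerSeries.derivativeFun (gjms_conf_int w) = w := by
  ext k
  rw [gjms_conf_cder]
  unfold gjms_conf_int
  rw [PowerSeries.coeff_mk]
  show ((1 / ((k : ℝ) + 1)) • PowerSeries.coeff k w) * ((k : A) + 1) = _
  have h1 : ((k : A) + 1) = ((k : ℝ) + 1) • (1 : A) := by
    rw [Algebra.smul_def]; simp
  have h2 : ((k : ℝ) + 1) ≠ 0 := by positivity
  rw [h1, smul_mul_smul_comm, mul_one, one_div, inv_mul_cancel₀ h2, one_smul]

theorem gjms_conf_map_metric {n : ℕ} {A B : Type} [CommRing A] [CommRing B] (φ : A →+* B)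
    {g gi : Fin n → Fin n → A} (h : IsMetric g gi) :
    IsMetric (fun i j => φ (g i j)) (fun i j => φ (gi i j)) := by
  refine ⟨fun i j => by rw [h.symm i j], fun i j => ?_⟩
  have := congrArg φ (h.inv i j)
  rw [map_sum] at this
  simp only [map_mul] at this
  rw [this]
  split_ifs
  · exact map_one φ
  · exact map_zero φ

theorem gjms_conf {n : ℕ} (he : Even n) (hn : 4 ≤ n) {A : Type} [CommRing A] [Algebra ℝ A]
    {D : Fin n → A → A} (hD : IsDer D) {g gi : Fin n → Fin n → A} (h : IsMetric g gi)
    (s : A) (hs : s * s = 0) (hDs : ∀ i, D i s = 0) (f F : A) :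
    gjms D (fun i j => (1 + s * f) * g i j) (fun i j => (1 - s * f) * gi i j) F
      = (1 - ((n : ℝ) / 2) • (s * f)) * gjms D g gi F := by
  obtain ⟨r, hr⟩ := he
  obtain ⟨m, hm⟩ : ∃ m, n / 2 = m + 1 := ⟨n / 2 - 1, by omega⟩
  have hm1 : n / 2 - 1 = m := by omega
  have hm2 : 2 * m + 2 = n := by omega
  set G := fgG D g gi m with hGdef
  set Gi := pinv gi G with hGidef
  obtain ⟨hGs0, hG00, hGf0⟩ := fgG_spec hD h m (by omega)
  have hGs : ∀ i j, G i j = G j i := hGs0
  have hG0 : ∀ i j, PowerSeries.constantCoeff (G i j) = g i j := hG00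
  have hGf : ∀ i j, fgX D G Gi i j ∈ Ideal.span {(PowerSeries.X : PowerSeries A) ^ m} := hGf0
  have hGm : IsMetric G Gi := pinv_spec h hG0 hGs
  set σ : PowerSeries A := PowerSeries.C ((1 / 2 : ℝ) • f) with hσ
  set W : Fin n → PowerSeries A := fun j => - ∑ i : Fin n, Gi j i * cw (D i) σ with hW
  set Xv : Fin n → PowerSeries A := fun j => gjms_conf_int (W j) with hXv
  have hXv0 : ∀ j, PowerSeries.constantCoeff (Xv j) = 0 := fun j => gjms_conf_int_zero _
  have hXvd : ∀ j, PowerSeries.derivativeFun (Xv j) = W j := fun j => gjms_conf_int_der _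
  set dG : Fin n → Fin n → PowerSeries A := fun i j =>
    2 * σ * (G i j - PowerSeries.X * PowerSeries.derivativeFun (G i j))
      + ((∑ k, Xv k * cw (D k) (G i j)) + (∑ k, cw (D i) (Xv k) * G k j)
        + ∑ k, cw (D j) (Xv k) * G i k) with hdG
  have hdGs : ∀ i j, dG i j = dG j i := by
    intro i j
    simp only [hdG]
    rw [hGs i j]
    have e1 : ∑ k, cw (D i) (Xv k) * G k j = ∑ k, cw (D i) (Xv k) * G j k :=
      Finset.sum_congr rfl (fun k _ => by rw [hGs k j])
    have e2 : ∑ k, cw (D j) (Xv k) * G k i = ∑ k, cw (D j) (Xv k) * G i k :=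
      Finset.sum_congr rfl (fun k _ => by rw [hGs k i])
    rw [e1, e2]
    ring
  set G' : Fin n → Fin n → PowerSeries A := fun i j => G i j + PowerSeries.C s * dG i j with hG'
  have hG's : ∀ i j, G' i j = G' j i := by
    intro i j
    simp only [hG']
    rw [hGs i j, hdGs i j]
  have hcw0 : ∀ (i : Fin n) (p : PowerSeries A),
      PowerSeries.constantCoeff (cw (D i) p) = D i (PowerSeries.constantCoeff p) := by
    intro i p
    rw [← PowerSeries.coeff_zero_eq_constantCoeff_apply, ← PowerSeries.coeff_zero_eq_constantCoeff_apply]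
    unfold cw
    rw [PowerSeries.coeff_mk]
  have hdG0 : ∀ i j, PowerSeries.constantCoeff (dG i j) = f * g i j := by
    intro i j
    simp only [hdG, map_add, map_mul, map_sub, map_sum, hXv0, hcw0, PowerSeries.constantCoeff_X,
      gjms_conf_zero hD, zero_mul, Finset.sum_const_zero, add_zero, sub_zero, hG0]
    rw [hσ, PowerSeries.constantCoeff_C]
    have e2 : PowerSeries.constantCoeff (2 : PowerSeries A) = 2 := map_ofNat _ 2
    rw [e2]
    have e3 : (2 : A) * ((1 / 2 : ℝ) • f) = f := by
      rw [mul_smul_comm, two_mul, ← two_smul ℝ f, smul_smul]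
      norm_num
    rw [e3]
  have hG'0 : ∀ i j, PowerSeries.constantCoeff (G' i j) = (1 + s * f) * g i j := by
    intro i j
    simp only [hG', map_add, map_mul, hdG0, hG0, PowerSeries.constantCoeff_C]
    ring
  have hmet' : IsMetric (fun i j => (1 + s * f) * g i j) (fun i j => (1 - s * f) * gi i j) := by
    refine ⟨fun i j => by rw [h.symm i j], fun i j => ?_⟩
    have e : ∀ k, (1 + s * f) * g i k * ((1 - s * f) * gi k j) = g i k * gi k j := by
      intro k
      have : (1 + s * f) * (1 - s * f) = 1 := by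
        have : (1 + s * f) * (1 - s * f) = 1 - s * s * (f * f) := by ring
        rw [this, hs]; ring
      calc (1 + s * f) * g i k * ((1 - s * f) * gi k j)
          = ((1 + s * f) * (1 - s * f)) * (g i k * gi k j) := by ring
        _ = _ := by rw [this, one_mul]
    rw [Finset.sum_congr rfl (fun k _ => e k)]
    exact h.inv i j
  set Gi' := pinv (fun i j => (1 - s * f) * gi i j) G' with hGi'
  have hG'm : IsMetric G' Gi' := pinv_spec hmet' hG'0 hG's
  obtain ⟨ti, hamb⟩ := amb_exists hD hGm
  have hsucc := fun (I : Fin (n + 1)) (p : PowerSeries A) => gjms_conf_succ hD I p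
  have hone : ∀ p : PowerSeries A,
      extD (extD D) 1 (PowerSeries.C p) = PowerSeries.C (PowerSeries.derivativeFun p) :=
    fun p => hsucc 0 p
  have hss : ∀ (i : Fin n) (p : PowerSeries A),
      extD (extD D) i.succ.succ (PowerSeries.C p) = PowerSeries.C (cw (D i) p) :=
    fun i p => hsucc i.succ p
  have hzero : ∀ p : PowerSeries A, extD (extD D) 0 (PowerSeries.C p) = 0 := by
    intro p
    show PowerSeries.derivativeFun (PowerSeries.C p) = 0
    exact gjms_conf_derC p
  have hrel := fg_rel (gjms_conf_rel hD) (ρA := (PowerSeries.X : PowerSeries A))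
    (ρB := PowerSeries.C PowerSeries.X) rfl (gA := G) (giA := Gi)
    (gB := fun i j => PowerSeries.C (G i j)) (giB := fun i j => PowerSeries.C (Gi i j))
    (fun i j => rfl) (fun i j => rfl)
  have hrel' := fg_rel (gjms_conf_rel hD) (ρA := (PowerSeries.X : PowerSeries A))
    (ρB := PowerSeries.C PowerSeries.X) rfl (gA := G') (giA := Gi')
    (gB := fun i j => PowerSeries.C (G' i j)) (giB := fun i j => PowerSeries.C (Gi' i j))
    (fun i j => rfl) (fun i j => rfl)
  have hcv := conf_var hamb (PowerSeries.C (PowerSeries.C s)) (by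
      rw [← map_mul, ← map_mul, hs, map_zero, map_zero]) (by
      intro I
      refine Fin.cases ?_ (fun I => ?_) I
      · exact hzero _
      · rw [hsucc]
        refine Fin.cases ?_ (fun i => ?_) I
        · have : extD D 0 (PowerSeries.C s) = 0 := gjms_conf_derC s
          rw [this, map_zero]
        · have : extD D i.succ (PowerSeries.C s) = PowerSeries.C (D i s) :=
            gjms_conf_cwC (D i) (gjms_conf_zero hD i) s
          rw [this, hDs, map_zero, map_zero]) (PowerSeries.C σ) (hzero _) (by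
      rw [hone, hσ, gjms_conf_derC, map_zero]) (fun j => PowerSeries.C (Xv j))
      (fun j => hzero _) (by
      intro j
      rw [hone, hXvd]
      simp only [hW, map_neg, map_sum, map_mul, hss]) (by
      intro j
      obtain ⟨q, hq⟩ : PowerSeries.X ∣ Xv j := PowerSeries.X_dvd_iff.mpr (hXv0 j)
      rw [Ideal.mem_span_singleton]
      exact ⟨PowerSeries.C q, by rw [← map_mul, ← hq]⟩) m hm2 (by
      intro i j
      have h1 := hrel.1 i j
      have h2 := hGf i j
      rw [Ideal.mem_span_singleton] at h2 ⊢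
      obtain ⟨q, hq⟩ := h2
      refine ⟨PowerSeries.C q, ?_⟩
      rw [← map_pow, ← map_mul, ← hq]
      exact h1) (fun i j => PowerSeries.C (G' i j)) (fun i j => PowerSeries.C (Gi' i j)) (by
      intro i j
      simp only [hone, hss, hG', hdG, map_add, map_mul, map_sub, map_sum, map_ofNat])
      (gjms_conf_map_metric _ hG'm)
  obtain ⟨hc1, hc2⟩ := hcv
  have hf' : ∀ i j, fgX D G' Gi' i j ∈ Ideal.span {(PowerSeries.X : PowerSeries A) ^ (n / 2 - 1)} := by
    intro i j
    have h1 := hrel'.1 i j
    have h2 := hc1 i j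
    rw [Ideal.mem_span_singleton] at h2 ⊢
    obtain ⟨q, hq⟩ := h2
    refine ⟨PowerSeries.constantCoeff q, ?_⟩
    have h3 : PowerSeries.C (fgX D G' Gi' i j) = PowerSeries.C PowerSeries.X ^ m * q := by
      rw [← hq]
      exact h1.symm
    have h4 := congrArg PowerSeries.constantCoeff h3
    rw [PowerSeries.constantCoeff_C, map_mul, map_pow, PowerSeries.constantCoeff_C] at h4
    rw [hm1]
    exact h4
  have hu := gjms_unique ⟨r, hr⟩ hn hD hmet' hG'm hG'0 hf' F
  have hmain := hc2 (PowerSeries.C (PowerSeries.C F)) (hzero _)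
  have hg1 := hrel'.2 (m + 1) (PowerSeries.C F) (PowerSeries.C (PowerSeries.C F)) rfl
  have hg2 := hrel.2 (m + 1) (PowerSeries.C F) (PowerSeries.C (PowerSeries.C F)) rfl
  rw [Ideal.mem_span_singleton] at hmain
  obtain ⟨q, hq⟩ := hmain
  have hq2 : PowerSeries.C (gjX D G' Gi' (m + 1) (PowerSeries.C F))
      - (1 - (n : ℝ) • (PowerSeries.C (PowerSeries.C s) * PowerSeries.C σ))
        * PowerSeries.C (gjX D G Gi (m + 1) (PowerSeries.C F)) = PowerSeries.C PowerSeries.X * q := by
    rw [← hq]
    have a1 : _ = PowerSeries.C (gjX D G' Gi' (m + 1) (PowerSeries.C F)) := hg1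
    have a2 : _ = PowerSeries.C (gjX D G Gi (m + 1) (PowerSeries.C F)) := hg2
    rw [← a1, ← a2]
    rfl
  have hσs : (n : ℝ) • (PowerSeries.C (PowerSeries.C s) * PowerSeries.C σ)
      = PowerSeries.C (PowerSeries.C ((n : ℝ) • (s * ((1 / 2 : ℝ) • f)))) := by
    rw [hσ, ← map_mul, ← map_mul, gjms_conf_smulC, gjms_conf_smulC]
  rw [hσs] at hq2
  have hq3 := congrArg PowerSeries.constantCoeff hq2
  rw [map_sub, map_mul, map_sub, map_one, map_mul, PowerSeries.constantCoeff_C,
    PowerSeries.constantCoeff_C, PowerSeries.constantCoeff_C, PowerSeries.constantCoeff_C] at hq3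
  have hq4 := congrArg PowerSeries.constantCoeff hq3
  rw [map_sub, map_mul, map_sub, map_one, map_mul, PowerSeries.constantCoeff_C,
    PowerSeries.constantCoeff_X, zero_mul] at hq4
  have hfin : (n : ℝ) • (s * ((1 / 2 : ℝ) • f)) = ((n : ℝ) / 2) • (s * f) := by
    rw [mul_smul_comm, smul_smul]
    congr 1
    ring
  have hgj : gjms D g gi F = PowerSeries.constantCoeff (gjX D G Gi (m + 1) (PowerSeries.C F)) := by
    unfold gjms
    rw [hm1, hm]
  rw [← hu, hm, hgj, ← hfin]
  exact sub_eq_zero.mp hq4

end Z_gjms_conf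

alias gjms_conf := Z_gjms_conf.gjms_conf

end CInv
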