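import Pool.Agent.Helper767.Gjms.Defs2
import Pool.Agent.Helper771.CInv.P_nat_eval

set_option linter.all false

open scoped BigOperators

namespace CInv

namespace Z_gjms_flat

theorem gf_smul {A : Type} [CommRing A] [Algebra ℝ A] (r : ℝ) (a : A) :
    r • (PowerSeries.C a : PowerSeries A) = PowerSeries.C (r • a) := by
  ext k
  have h1 : PowerSeries.coeff k (r • (PowerSeries.C a : PowerSeries A))
      = r • PowerSeries.coeff k (PowerSeries.C a : PowerSeries A) := rfl
  rw [h1, PowerSeries.coeff_C, PowerSeries.coeff_C]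
  split_ifs
  · rfl
  · exact smul_zero r

theorem gf_D0 {n : ℕ} {A : Type} [CommRing A] [Algebra ℝ A]
    {D : Fin n → A → A} (hD : IsDer D) (i : Fin n) : D i 0 = 0 := by
  have := hD.smul i 0 0
  simpa using this

theorem gf_cw {n : ℕ} {A : Type} [CommRing A] [Algebra ℝ A]
    {D : Fin n → A → A} (hD : IsDer D) (i : Fin n) (a : A) :
    cw (D i) (PowerSeries.C a) = PowerSeries.C (D i a) := by
  ext k
  unfold cw
  rw [PowerSeries.coeff_mk, PowerSeries.coeff_C, PowerSeries.coeff_C]
  split_ifs
  · rfl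
  · exact gf_D0 hD i

theorem gf_d {A : Type} [CommRing A] (a : A) :
    PowerSeries.derivativeFun (PowerSeries.C a : PowerSeries A) = 0 := by
  first
    | exact PowerSeries.derivativeFun_C
    | (ext k
       rw [PowerSeries.coeff_derivativeFun, PowerSeries.coeff_C, if_neg (Nat.succ_ne_zero k)]
       simp)

theorem gf_d0 {A : Type} [CommRing A] :
    PowerSeries.derivativeFun (0 : PowerSeries A) = 0 := by
  have := gf_d (0 : A)
  rwa [map_zero] at this

theorem gf_chr {n : ℕ} {A : Type} [CommRing A] [Algebra ℝ A]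
    {D : Fin n → A → A} (hD : IsDer D) (g gi : Fin n → Fin n → A) (k i j : Fin n) :
    chr (fun i => cw (D i)) (fun i j => PowerSeries.C (g i j)) (fun i j => PowerSeries.C (gi i j)) k i j
      = PowerSeries.C (chr D g gi k i j) := by
  unfold chr
  simp only [gf_cw hD, ← map_add, ← map_sub, ← map_mul, ← map_sum, gf_smul]

theorem gf_lap {n : ℕ} {A : Type} [CommRing A] [Algebra ℝ A]
    {D : Fin n → A → A} (hD : IsDer D) (g gi : Fin n → Fin n → A) (v : A) :
    lap (fun i => cw (D i)) (fun i j => PowerSeries.C (g i j)) (fun i j => PowerSeries.C (gi i j))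
      (PowerSeries.C v) = PowerSeries.C (lap D g gi v) := by
  unfold lap
  simp only [gf_cw hD, gf_chr hD, ← map_add, ← map_sub, ← map_mul, ← map_sum]

theorem gf_rel {n : ℕ} {A : Type} [CommRing A] [Algebra ℝ A]
    {D : Fin n → A → A} (hD : IsDer D) :
    RelHom D (fun i => cw (D i)) (fun (a : A) (p : PowerSeries A) => p = PowerSeries.C a) where
  one := by simp
  add := by
    intro a a' b b' h h'
    rw [h, h', map_add]
  mul := by
    intro a a' b b' h h'
    rw [h, h', map_mul]
  smul := by
    intro r a b h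
    rw [h, gf_smul]
  der := by
    intro i a b h
    rw [h]
    exact gf_cw hD i a

theorem gf_ric {n : ℕ} {A : Type} [CommRing A] [Algebra ℝ A]
    {D : Fin n → A → A} (hD : IsDer D) (g gi : Fin n → Fin n → A) (i j : Fin n) :
    ric (fun i => cw (D i)) (fun i j => PowerSeries.C (g i j)) (fun i j => PowerSeries.C (gi i j)) i j
      = PowerSeries.C (ric D g gi i j) :=
  (nat_eval (gf_rel hD) (fun _ _ => rfl) (fun _ _ => rfl) 0).1 i j

theorem gf_pinv {n : ℕ} {A : Type} [CommRing A] (g gi : Fin n → Fin n → A) :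
    pinv gi (fun i j => PowerSeries.C (g i j)) = fun i j => PowerSeries.C (gi i j) := by
  funext i j
  ext k
  unfold pinv
  rw [PowerSeries.coeff_mk, PowerSeries.coeff_C]
  cases k with
  | zero =>
    rw [if_pos rfl, pinvC]
  | succ k =>
    rw [if_neg (Nat.succ_ne_zero k), pinvC]
    rw [neg_eq_zero]
    apply Finset.sum_eq_zero
    intro m _
    apply Finset.sum_eq_zero
    intro a _
    apply Finset.sum_eq_zero
    intro b _
    have hm : k + 1 - (m : ℕ) ≠ 0 := by
      have := m.2
      omega
    rw [PowerSeries.coeff_C, if_neg hm, mul_zero, zero_mul]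

theorem gf_trp {n : ℕ} {A : Type} [CommRing A] [Algebra ℝ A] (g gi : Fin n → Fin n → A) :
    trp PowerSeries.derivativeFun (fun i j => (PowerSeries.C (g i j) : PowerSeries A))
      (fun i j => PowerSeries.C (gi i j)) = 0 := by
  unfold trp
  simp only [gf_d, mul_zero, Finset.sum_const_zero]

theorem gf_fgX {n : ℕ} {A : Type} [CommRing A] [Algebra ℝ A]
    {D : Fin n → A → A} (hD : IsDer D) (g gi : Fin n → Fin n → A)
    (hr : ∀ i j, ric D g gi i j = 0) (i j : Fin n) :
    fgX D (fun i j => PowerSeries.C (g i j)) (fun i j => PowerSeries.C (gi i j)) i j = 0 := by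
  unfold fgX fg
  rw [gf_ric hD, hr, gf_trp]
  simp only [gf_d, gf_d0, mul_zero, zero_mul, smul_zero, Finset.sum_const_zero, sub_zero, add_zero,
    map_zero]

theorem gf_step {n : ℕ} {A : Type} [CommRing A] [Algebra ℝ A]
    {D : Fin n → A → A} (hD : IsDer D) (g gi : Fin n → Fin n → A)
    (hr : ∀ i j, ric D g gi i j = 0) (m : ℕ) (i j : Fin n) :
    fgStep D g gi (fun i j => PowerSeries.C (g i j)) m i j = 0 := by
  unfold fgStep
  rw [gf_pinv]
  simp only [gf_fgX hD g gi hr, map_zero, mul_zero, zero_mul, smul_zero, Finset.sum_const_zero,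
    sub_zero, neg_zero]

theorem gf_fgG {n : ℕ} {A : Type} [CommRing A] [Algebra ℝ A]
    {D : Fin n → A → A} (hD : IsDer D) (g gi : Fin n → Fin n → A)
    (hr : ∀ i j, ric D g gi i j = 0) (m : ℕ) :
    fgG D g gi m = fun i j => PowerSeries.C (g i j) := by
  induction m with
  | zero => rfl
  | succ m ih =>
    funext i j
    rw [fgG, ih]
    show PowerSeries.C (g i j) + PowerSeries.X ^ (m + 1)
      * PowerSeries.C (fgStep D g gi (fun i j => PowerSeries.C (g i j)) m i j) = PowerSeries.C (g i j)
    rw [gf_step hD g gi hr, map_zero, mul_zero, add_zero]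

theorem gf_gjX {n : ℕ} {A : Type} [CommRing A] [Algebra ℝ A]
    {D : Fin n → A → A} (hD : IsDer D) (g gi : Fin n → Fin n → A) (k : ℕ) (F : A) :
    gjX D (fun i j => PowerSeries.C (g i j)) (fun i j => PowerSeries.C (gi i j)) k (PowerSeries.C F)
      = PowerSeries.C ((lap D g gi)^[k] F) := by
  unfold gjX
  induction k with
  | zero => rfl
  | succ k ih =>
    rw [gjL, ih, Function.iterate_succ_apply']
    unfold Lw
    rw [gf_lap hD, gf_trp]
    simp only [gf_d, gf_d0, mul_zero, zero_mul, smul_zero, sub_zero, add_zero, zero_add]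

theorem gjms_flat {n : ℕ} {A : Type} [CommRing A] [Algebra ℝ A]
    {D : Fin n → A → A} (hD : IsDer D) {g gi : Fin n → Fin n → A} (h : IsMetric g gi)
    (hr : ∀ i j, ric D g gi i j = 0) (F : A) :
    gjms D g gi F = (lap D g gi)^[n / 2] F := by
  unfold gjms
  rw [gf_fgG hD g gi hr, gf_pinv, gf_gjX hD]
  simp

end Z_gjms_flat

alias gjms_flat := Z_gjms_flat.gjms_flat

end CInv
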