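import Pool.Agent.Helper767.Gjms.Defs

set_option linter.all false

open scoped BigOperators

namespace CInv

namespace Z_oc_scale

theorem oc_scale_mul {A : Type} [CommRing A] [Algebra ℝ A] (x : ℝ) (hx : x ≠ 0) (a b : A) :
    (x⁻¹ • a) * (x • b) = a * b := by
  rw [smul_mul_smul_comm, inv_mul_cancel₀ hx, one_smul]

theorem oc_scale_chr {n : ℕ} {A : Type} [CommRing A] [Algebra ℝ A] {D : Fin n → A → A}
    (hs : ∀ i (r : ℝ) a, D i (r • a) = r • D i a) (g gi : Fin n → Fin n → A) (x : ℝ)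
    (hx : x ≠ 0) (k i j : Fin n) :
    chr D (fun i j => x • g i j) (fun i j => x⁻¹ • gi i j) k i j = chr D g gi k i j := by
  unfold chr
  congr 1
  apply Finset.sum_congr rfl
  intro l _
  rw [hs, hs, hs, ← smul_add, ← smul_sub, oc_scale_mul x hx]

theorem oc_scale_ric {n : ℕ} {A : Type} [CommRing A] [Algebra ℝ A] {D : Fin n → A → A}
    (hs : ∀ i (r : ℝ) a, D i (r • a) = r • D i a) (g gi : Fin n → Fin n → A) (x : ℝ)
    (hx : x ≠ 0) (i j : Fin n) :
    ric D (fun i j => x • g i j) (fun i j => x⁻¹ • gi i j) i j = ric D g gi i j := by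
  unfold ric
  simp only [oc_scale_chr hs g gi x hx]

theorem oc_scale_scal {n : ℕ} {A : Type} [CommRing A] [Algebra ℝ A] {D : Fin n → A → A}
    (hs : ∀ i (r : ℝ) a, D i (r • a) = r • D i a) (g gi : Fin n → Fin n → A) (x : ℝ)
    (hx : x ≠ 0) :
    scal D (fun i j => x • g i j) (fun i j => x⁻¹ • gi i j) = x⁻¹ • scal D g gi := by
  unfold scal
  simp only [oc_scale_ric hs g gi x hx, smul_mul_assoc, Finset.smul_sum]

theorem oc_scale_sch {n : ℕ} {A : Type} [CommRing A] [Algebra ℝ A] {D : Fin n → A → A}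
    (hs : ∀ i (r : ℝ) a, D i (r • a) = r • D i a) (g gi : Fin n → Fin n → A) (x : ℝ)
    (hx : x ≠ 0) (i j : Fin n) :
    schouten D (fun i j => x • g i j) (fun i j => x⁻¹ • gi i j) i j = schouten D g gi i j := by
  unfold schouten
  rw [oc_scale_ric hs g gi x hx, oc_scale_scal hs g gi x hx, oc_scale_mul x hx]

theorem oc_scale_covD {n : ℕ} {A : Type} [CommRing A] [Algebra ℝ A] {D : Fin n → A → A}
    (hs : ∀ i (r : ℝ) a, D i (r • a) = r • D i a) (g gi : Fin n → Fin n → A) (x : ℝ)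
    (hx : x ≠ 0) {m : ℕ} (T : (Fin m → Fin n) → A) :
    covD D (fun i j => x • g i j) (fun i j => x⁻¹ • gi i j) T = covD D g gi T := by
  funext i
  unfold covD
  simp only [oc_scale_chr hs g gi x hx]

theorem oc_scale_nP {n : ℕ} {A : Type} [CommRing A] [Algebra ℝ A] {D : Fin n → A → A}
    (hs : ∀ i (r : ℝ) a, D i (r • a) = r • D i a) (g gi : Fin n → Fin n → A) (x : ℝ)
    (hx : x ≠ 0) (l : ℕ) :
    nablaP D (fun i j => x • g i j) (fun i j => x⁻¹ • gi i j) l = nablaP D g gi l := by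
  induction l with
  | zero => funext i; exact oc_scale_sch hs g gi x hx _ _
  | succ l ih =>
    show covD _ _ _ (nablaP _ _ _ l) = covD _ _ _ (nablaP _ _ _ l)
    rw [ih, oc_scale_covD hs g gi x hx]

theorem oc_scale_nF {n : ℕ} {A : Type} [CommRing A] [Algebra ℝ A] {D : Fin n → A → A}
    (hs : ∀ i (r : ℝ) a, D i (r • a) = r • D i a) (g gi : Fin n → Fin n → A) (x : ℝ)
    (hx : x ≠ 0) (F : A) (l : ℕ) :
    nablaF D (fun i j => x • g i j) (fun i j => x⁻¹ • gi i j) F l = nablaF D g gi F l := by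
  induction l with
  | zero => rfl
  | succ l ih =>
    show covD _ _ _ (nablaF _ _ _ _ l) = covD _ _ _ (nablaF _ _ _ _ l)
    rw [ih, oc_scale_covD hs g gi x hx]

theorem oc_scale_lap {n : ℕ} {A : Type} [CommRing A] [Algebra ℝ A] {D : Fin n → A → A}
    (hs : ∀ i (r : ℝ) a, D i (r • a) = r • D i a) (g gi : Fin n → Fin n → A) (x : ℝ)
    (hx : x ≠ 0) (F : A) :
    lap D (fun i j => x • g i j) (fun i j => x⁻¹ • gi i j) F = x⁻¹ • lap D g gi F := by
  unfold lap
  simp only [oc_scale_chr hs g gi x hx, smul_mul_assoc, Finset.smul_sum]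

theorem oc_scale_laps {n : ℕ} {A : Type} [CommRing A] [Algebra ℝ A] {D : Fin n → A → A}
    (hs : ∀ i (r : ℝ) a, D i (r • a) = r • D i a) (g gi : Fin n → Fin n → A) (r : ℝ) (F : A) :
    lap D g gi (r • F) = r • lap D g gi F := by
  unfold lap
  simp only [hs, mul_smul_comm, ← Finset.smul_sum, ← smul_sub]

theorem oc_scale {n : ℕ} {A : Type} [CommRing A] [Algebra ℝ A] {D : Fin n → A → A}
    (hs : ∀ i (r : ℝ) a, D i (r • a) = r • D i a) (g gi : Fin n → Fin n → A) (F : A) (x : ℝ)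
    (hx : x ≠ 0) (C : OpContraction) (k : ℕ) :
    C.eval D (fun i j => x • g i j) (fun i j => x⁻¹ • gi i j) F = (x⁻¹) ^ C.m • C.eval D g gi F ∧
    (lap D (fun i j => x • g i j) (fun i j => x⁻¹ • gi i j))^[k] F
      = (x⁻¹) ^ k • (lap D g gi)^[k] F := by
  constructor
  · unfold OpContraction.eval
    rw [Finset.smul_sum]
    apply Finset.sum_congr rfl
    intro a _
    simp only [oc_scale_nP hs g gi x hx, oc_scale_nF hs g gi x hx]
    rw [Finset.prod_smul, Finset.prod_const, Finset.card_univ, Fintype.card_fin,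
      smul_mul_assoc, smul_mul_assoc]
  · induction k with
    | zero => simp
    | succ k ih =>
      rw [Function.iterate_succ_apply', Function.iterate_succ_apply', ih, oc_scale_lap hs g gi x hx,
        oc_scale_laps hs, smul_smul, pow_succ, mul_comm]

end Z_oc_scale

alias oc_scale := Z_oc_scale.oc_scale

end CInv
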