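import Pool.Agent.Helper767.Gjms.Defs
import Pool.Agent.Helper767.Gjms.P_oc_scale
import Pool.Agent.Helper767.Gjms.P_pm_of_m

set_option linter.all false

open scoped BigOperators

namespace CInv

namespace Z_homog_red

theorem homog_red_aux_inv {n : ℕ} (r : ℝ) (hr : r ≠ 0) (M : Matrix (Fin n) (Fin n) ℝ) :
    (r • M)⁻¹ = r⁻¹ • M⁻¹ := by
  by_cases h : IsUnit M.det
  · refine Matrix.inv_eq_left_inv ?_
    rw [Matrix.smul_mul, Matrix.mul_smul, smul_smul, inv_mul_cancel₀ hr, one_smul,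
      Matrix.nonsing_inv_mul _ h]
  · have h2 : ¬ IsUnit (r • M).det := by
      intro h3
      apply h
      rw [Matrix.det_smul] at h3
      exact isUnit_of_mul_isUnit_right h3
    rw [Matrix.nonsing_inv_apply_not_isUnit _ h, Matrix.nonsing_inv_apply_not_isUnit _ h2,
      smul_zero]

theorem homog_red_aux_pd {n : ℕ} (i : Fin n) (r : ℝ) (a : (Fin n → ℝ) → ℝ) :
    pd i (r • a) = r • pd i a := by
  funext x
  unfold pd
  rw [fderiv_const_smul_field]
  rfl

theorem homog_red_aux_exp (n : ℕ) (hn : Even n) (r : ℝ) (hr : 0 < r) :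
    Real.exp (-(n : ℝ) * (1 / 2 * Real.log r)) = (r⁻¹) ^ (n / 2) := by
  obtain ⟨m, hm⟩ := hn
  have h1 : n / 2 = m := by omega
  rw [h1, hm]
  have h2 : -(((m + m : ℕ)) : ℝ) * (1 / 2 * Real.log r) = (m : ℝ) * Real.log (r⁻¹) := by
    rw [Real.log_inv]
    push_cast
    ring
  rw [h2, Real.exp_nat_mul, Real.exp_log (inv_pos.2 hr)]

theorem homog_red_aux_poly {ι : Type} (s : Finset ι) (m : ι → ℕ) (T : ι → ℝ) (N : ℕ)
    (h : ∀ y : ℝ, 0 < y → ∑ i ∈ s, y ^ m i * T i = y ^ N * ∑ i ∈ s, T i) :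
    ∑ i ∈ s, (if m i = N then 0 else T i) = 0 := by
  classical
  have hq : (∑ i ∈ s, Polynomial.monomial (m i) (T i)) =
      Polynomial.monomial N (∑ i ∈ s, T i) := by
    refine Polynomial.eq_of_infinite_eval_eq _ _ ?_
    refine Set.Infinite.mono ?_ (Set.Ioi_infinite (0 : ℝ))
    intro y hy
    have h1 := h y hy
    simp only [Set.mem_setOf_eq, Polynomial.eval_finset_sum, Polynomial.eval_monomial]
    rw [mul_comm (∑ i ∈ s, T i), ← h1]
    exact Finset.sum_congr rfl fun i _ => mul_comm _ _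
  have h2 := congrArg (fun p => Polynomial.coeff p N) hq
  simp only [Polynomial.finset_sum_coeff, Polynomial.coeff_monomial, if_true] at h2
  have h3 : ∀ i ∈ s, (if m i = N then 0 else T i) = T i - (if m i = N then T i else 0) := by
    intro i _
    split_ifs <;> ring
  rw [Finset.sum_congr rfl h3, Finset.sum_sub_distrib, h2, sub_self]

theorem homog_red {n : ℕ} (hn : Even n) (c : OpContraction →₀ ℝ)
    (hc : ∀ (U : Set (Fin n → ℝ)), IsOpen U → ∀ g : (Fin n → ℝ) → Matrix (Fin n) (Fin n) ℝ,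
      IsMetricOn U g → ∀ ω : (Fin n → ℝ) → ℝ, ContDiffOn ℝ (⊤ : ℕ∞) ω U →
      ∀ f : (Fin n → ℝ) → ℝ, ContDiffOn ℝ (⊤ : ℕ∞) f U → ∀ x ∈ U,
        opVal c (fun y => Real.exp (2 * ω y) • g y) f x
          = Real.exp (-(n : ℝ) * ω x) * opVal c g f x)
    (c' : OpContraction →₀ ℝ) (hc' : ∀ C, c' C = if 2 * C.m = n then 0 else c C)
    (U : Set (Fin n → ℝ)) (hU : IsOpen U) (g : (Fin n → ℝ) → Matrix (Fin n) (Fin n) ℝ)
    (hg : IsMetricOn U g) (f : (Fin n → ℝ) → ℝ) (hf : ContDiffOn ℝ (⊤ : ℕ∞) f U)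
    (x : Fin n → ℝ) (hx : x ∈ U) :
    opInv c' pd (fun i j y => g y i j) (fun i j y => (g y)⁻¹ i j) f x = 0 := by
  classical
  obtain ⟨G, hG⟩ : ∃ G : Fin n → Fin n → (Fin n → ℝ) → ℝ, G = fun i j y => g y i j := ⟨_, rfl⟩
  obtain ⟨Gi, hGi⟩ : ∃ Gi : Fin n → Fin n → (Fin n → ℝ) → ℝ, Gi = fun i j y => (g y)⁻¹ i j :=
    ⟨_, rfl⟩
  rw [← hG, ← hGi]
  obtain ⟨T, hT⟩ : ∃ T : OpContraction → ℝ, T = fun C => c C * C.eval pd G Gi f x := ⟨_, rfl⟩
  have key : ∀ r : ℝ, 0 < r → ∑ C ∈ c.support, (r⁻¹) ^ C.m * T C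
      = (r⁻¹) ^ (n / 2) * ∑ C ∈ c.support, T C := by
    intro r hr
    have h1 := hc U hU g hg (fun _ => 1 / 2 * Real.log r) contDiffOn_const f hf x hx
    have h2 : Real.exp (2 * (1 / 2 * Real.log r)) = r := by
      rw [← mul_assoc]
      norm_num
      exact Real.exp_log hr
    simp only [h2] at h1
    rw [homog_red_aux_exp n hn r hr] at h1
    unfold opVal opD opInv at h1
    have e1 : (fun (i j : Fin n) (y : Fin n → ℝ) => (r • g y) i j) = fun i j => r • G i j := by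
      rw [hG]
      rfl
    have e2 : (fun (i j : Fin n) (y : Fin n → ℝ) => (r • g y)⁻¹ i j) = fun i j => r⁻¹ • Gi i j := by
      rw [hGi]
      funext i j y
      rw [homog_red_aux_inv r hr.ne']
      rfl
    rw [e1, e2, ← hG, ← hGi] at h1
    have hL := (oc_scale homog_red_aux_pd G Gi f r hr.ne' ⟨0, Fin.elim0, 0, 0,
      ⟨fun p => p.1.elim0, fun p => by
        rcases p with p | p
        · exact p.1.elim0
        · exact p.elim0, fun p => p.1.elim0, fun p => by
        rcases p with p | p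
        · exact p.1.elim0
        · exact p.elim0⟩⟩ (n / 2)).2
    rw [hL] at h1
    have hC : ∀ C : OpContraction, C.eval pd (fun i j => r • G i j) (fun i j => r⁻¹ • Gi i j) f
        = (r⁻¹) ^ C.m • C.eval pd G Gi f :=
      fun C => (oc_scale homog_red_aux_pd G Gi f r hr.ne' C 0).1
    simp only [hC] at h1
    simp only [Finsupp.sum, Pi.add_apply, Finset.sum_apply, Pi.smul_apply, smul_eq_mul] at h1
    rw [mul_add] at h1
    have h3 := add_left_cancel h1
    rw [hT]
    simp only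
    rw [← h3]
    refine Finset.sum_congr rfl fun C _ => ?_
    ring
  have h4 := homog_red_aux_poly c.support (fun C => C.m) T (n / 2) (fun y hy => by
    have h5 := key y⁻¹ (inv_pos.2 hy)
    rwa [inv_inv] at h5)
  unfold opInv
  have hsub : c'.support ⊆ c.support := by
    intro C hC
    rw [Finsupp.mem_support_iff] at hC ⊢
    intro h5
    apply hC
    rw [hc' C, h5, ite_self]
  rw [Finsupp.sum_of_support_subset c' hsub (fun C t => t • C.eval pd G Gi f)
    (fun C _ => zero_smul ℝ (C.eval pd G Gi f))]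
  rw [Finset.sum_apply, ← h4]
  refine Finset.sum_congr rfl fun C _ => ?_
  rw [Pi.smul_apply, smul_eq_mul, hc' C, hT]
  obtain ⟨m, hm⟩ := hn
  have h6 : n / 2 = m := by omega
  rw [h6]
  by_cases h7 : C.m = m
  · rw [if_pos (by omega), if_pos h7, zero_mul]
  · rw [if_neg (by omega), if_neg h7]

end Z_homog_red

alias homog_red := Z_homog_red.homog_red

end CInv
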