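import Pool.Agent.Helper767.Gjms.Defs

set_option linter.all false

open scoped BigOperators

namespace CInv

namespace Z_natop_comb

theorem natop_comb {n : ℕ} (I J : NatOp n) (x y : ℝ) :
    ∃ K : NatOp n, ∀ (A : Type) [CommRing A] [Algebra ℝ A] (D : Fin n → A → A)
      (g gi : Fin n → Fin n → A) (F : A),
      K.op A D g gi F = x • I.op A D g gi F + y • J.op A D g gi F := by
  refine ⟨{ op := fun A _ _ D g gi F => x • I.op A D g gi F + y • J.op A D g gi F
            nat := ?_
            lin := ?_
            cov := ?_ }, ?_⟩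
  · intro A B _ _ _ _ DA DB Rel hR gA giA gB giB FA FB h1 h2 h3
    exact hR.add (hR.smul x (I.nat A B DA DB Rel hR gA giA gB giB FA FB h1 h2 h3))
      (hR.smul y (J.nat A B DA DB Rel hR gA giA gB giB FA FB h1 h2 h3))
  · intro A _ _ D hD g gi hg c F hc
    show x • I.op A D g gi (c * F) + y • J.op A D g gi (c * F) =
      c * (x • I.op A D g gi F + y • J.op A D g gi F)
    rw [I.lin A D hD g gi hg c F hc, J.lin A D hD g gi hg c F hc, mul_add, mul_smul_comm,
      mul_smul_comm]
  · intro A B _ _ _ _ D D' hD hD' φ J' K hc g gi hg F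
    show x • I.op B D' (pull φ J' g) (pullInv φ K gi) (φ F) +
      y • J.op B D' (pull φ J' g) (pullInv φ K gi) (φ F) =
      φ (x • I.op A D g gi F + y • J.op A D g gi F)
    rw [I.cov A B D D' hD hD' φ J' K hc g gi hg F, J.cov A B D D' hD hD' φ J' K hc g gi hg F,
      map_add, hc.smul, hc.smul]
  · intro A _ _ D g gi F
    rfl

end Z_natop_comb

alias natop_comb := Z_natop_comb.natop_comb

end CInv
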