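import Pool.Agent.Helper767.Gjms.Defs2
import Pool.Agent.Helper767.Gjms.P_ext_isder
import Pool.Agent.Helper767.Gjms.P_lap_lin

set_option linter.all false

open scoped BigOperators

namespace CInv

namespace Z_gjms_lin

theorem gl_isder_cw {n : ℕ} {A : Type} [CommRing A] [Algebra ℝ A] {D : Fin n → A → A}
    (hD : IsDer D) : IsDer (fun i => cw (D i)) := by
  have h := ext_isder hD
  have e : ∀ i : Fin n, extD D i.succ = cw (D i) := fun i => rfl
  refine ⟨?_, ?_, ?_, ?_⟩
  · intro i a b
    have := h.add i.succ a b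
    rw [e] at this; exact this
  · intro i a b
    have := h.mul i.succ a b
    rw [e] at this; exact this
  · intro i r a
    have := h.smul i.succ r a
    rw [e] at this; exact this
  · intro i j a
    have := h.comm i.succ j.succ a
    rw [e, e] at this; exact this

theorem gl_cw_C {n : ℕ} {A : Type} [CommRing A] [Algebra ℝ A] {D : Fin n → A → A}
    (hD : IsDer D) (c : A) (hc : ∀ i, D i c = 0) (i : Fin n) : cw (D i) (PowerSeries.C c) = 0 := by
  have h0 : D i 0 = 0 := by
    have := hD.add i 0 0
    simpa using this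
  ext k
  unfold cw
  rw [PowerSeries.coeff_mk, PowerSeries.coeff_C]
  split_ifs
  · rw [hc]; simp
  · rw [h0]; simp

theorem gl_lw {n : ℕ} {A : Type} [CommRing A] [Algebra ℝ A] {D : Fin n → A → A}
    (hD : IsDer D) (c : A) (hc : ∀ i, D i c = 0) (ρ : PowerSeries A)
    (G Gi : Fin n → Fin n → PowerSeries A) (w : ℝ) (u : PowerSeries A) :
    Lw PowerSeries.derivativeFun (fun i => cw (D i)) ρ G Gi w (PowerSeries.C c * u) =
      PowerSeries.C c * Lw PowerSeries.derivativeFun (fun i => cw (D i)) ρ G Gi w u := by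
  have hder : ∀ v : PowerSeries A, PowerSeries.derivativeFun (PowerSeries.C c * v) =
      PowerSeries.C c * PowerSeries.derivativeFun v := by
    intro v
    have h := (ext_isder hD).mul 0 (PowerSeries.C c) v
    have e : extD D 0 = PowerSeries.derivativeFun := rfl
    rw [e] at h
    have e2 : PowerSeries.derivativeFun (PowerSeries.C c) = 0 := by
      show (PowerSeries.derivative A) (PowerSeries.C c) = 0
      ext k
      rw [PowerSeries.coeff_derivative, PowerSeries.coeff_C, if_neg (Nat.succ_ne_zero k)]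
      simp
    rw [h, e2, zero_mul, zero_add]
  have hlap := (lap_lin (gl_isder_cw hD) G Gi).2.2 (PowerSeries.C c) u (gl_cw_C hD c hc)
  unfold Lw
  rw [hlap, hder, hder]
  rw [← mul_smul_comm, mul_left_comm (trp PowerSeries.derivativeFun G Gi) (PowerSeries.C c) u,
    ← mul_smul_comm]
  ring

theorem gl_gjL {n : ℕ} {A : Type} [CommRing A] [Algebra ℝ A] {D : Fin n → A → A}
    (hD : IsDer D) (c : A) (hc : ∀ i, D i c = 0) (ρ : PowerSeries A)
    (G Gi : Fin n → Fin n → PowerSeries A) (k : ℕ) (u : PowerSeries A) :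
    gjL PowerSeries.derivativeFun (fun i => cw (D i)) ρ G Gi k (PowerSeries.C c * u) =
      PowerSeries.C c * gjL PowerSeries.derivativeFun (fun i => cw (D i)) ρ G Gi k u := by
  induction k with
  | zero => rfl
  | succ k ih =>
    unfold gjL
    rw [ih, gl_lw hD c hc]

theorem gjms_lin {n : ℕ} {A : Type} [CommRing A] [Algebra ℝ A] {D : Fin n → A → A}
    (hD : IsDer D) (g gi : Fin n → Fin n → A) (c F : A) (hc : ∀ i, D i c = 0) :
    gjms D g gi (c * F) = c * gjms D g gi F := by
  unfold gjms gjX
  rw [map_mul, gl_gjL hD c hc, map_mul, PowerSeries.constantCoeff_C]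

end Z_gjms_lin

alias gjms_lin := Z_gjms_lin.gjms_lin

end CInv
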