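import Pool.Agent.Helper767.Gjms.Defs2
import Pool.Agent.Helper767.Gjms.P_ps_rel
import Pool.Agent.Helper767.Gjms.P_fg_rel
import Pool.Agent.Helper767.Gjms.P_pinv_rel
import Pool.Agent.Helper767.Gjms.P_fgG_rel

set_option linter.all false

open scoped BigOperators

namespace CInv

namespace Z_gjms_rel

theorem gjms_rel {n : ℕ} {A B : Type} [CommRing A] [Algebra ℝ A] [CommRing B] [Algebra ℝ B]
    {DA : Fin n → A → A} {DB : Fin n → B → B} {Rel : A → B → Prop} (hR : RelHom DA DB Rel)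
    {gA giA : Fin n → Fin n → A} {gB giB : Fin n → Fin n → B}
    (hg : ∀ i j, Rel (gA i j) (gB i j)) (hgi : ∀ i j, Rel (giA i j) (giB i j))
    {FA : A} {FB : B} (hF : Rel FA FB) :
    Rel (gjms DA gA giA FA) (gjms DB gB giB FB) := by
  obtain ⟨hps, hX, hC⟩ := ps_rel hR
  have hG := fun i j k => fgG_rel hR hg hgi (n / 2 - 1) i j k
  have hP := fun i j k => pinv_rel hR hgi hG i j k
  have h := (fg_rel hps hX hG hP).2 (n / 2) (PowerSeries.C FA) (PowerSeries.C FB) (hC _ _ hF) 0
  unfold gjms gjX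
  rw [← PowerSeries.coeff_zero_eq_constantCoeff_apply,
    ← PowerSeries.coeff_zero_eq_constantCoeff_apply]
  exact h

end Z_gjms_rel

alias gjms_rel := Z_gjms_rel.gjms_rel

end CInv
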