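import Pool.Agent.Helper767.Gjms.Defs2
import Pool.Agent.Helper767.Gjms.P_gjms_rel
import Pool.Agent.Helper767.Gjms.P_gjms_lin
import Pool.Agent.Helper767.Gjms.P_cc_gjms

set_option linter.all false

open scoped BigOperators

namespace CInv

namespace Z_natop_gjms

theorem natop_gjms {n : ℕ} (hn : 4 ≤ n) :
    ∃ I : NatOp n, ∀ (A : Type) [CommRing A] [Algebra ℝ A] (D : Fin n → A → A)
      (g gi : Fin n → Fin n → A) (F : A), I.op A D g gi F = gjms D g gi F := by
  refine ⟨{ op := fun A _ _ D g gi F => gjms D g gi F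
            nat := ?_
            lin := ?_
            cov := ?_ }, ?_⟩
  · intro A B _ _ _ _ DA DB Rel hR gA giA gB giB FA FB hg hgi hF
    exact gjms_rel hR hg hgi hF
  · intro A _ _ D hD g gi _ c F hc
    exact gjms_lin hD g gi c F hc
  · intro A B _ _ _ _ D D' hD hD' φ J K hc g gi h F
    exact cc_gjms hn hD hD' hc h F
  · intro A _ _ D g gi F
    rfl

end Z_natop_gjms

alias natop_gjms := Z_natop_gjms.natop_gjms

end CInv
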