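import Pool.Agent.Helper767.Gjms.Defs
import Pool.Agent.Helper771.CInv.P_gi_symm
import Pool.Agent.Helper771.CInv.P_cc_nablaP
import Pool.Agent.Helper771.CInv.P_cc_metric
import Pool.Agent.Helper767.Gjms.P_cc_nablaF

set_option linter.all false

open scoped BigOperators

namespace CInv

namespace Z_oi_cov

theorem oi_prodsum {R : Type} [CommRing R] {ι : Type} [Fintype ι] [DecidableEq ι]
    {κ : ι → Type} [∀ i, Fintype (κ i)] (G : ∀ i, κ i → R) :
    ∏ j, ∑ x, G j x = ∑ z : (∀ i, κ i), ∏ j, G j (z j) := by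
  have h := Finset.prod_univ_sum (fun i => (Finset.univ : Finset (κ i))) G
  rw [Fintype.piFinset_univ] at h
  exact h

theorem oi_pair {n : ℕ} {B : Type} [CommRing B] {J K : Fin n → Fin n → B}
    (kj : ∀ i j, ∑ k, K i k * J k j = if i = j then 1 else 0) (f : Fin n → Fin n → B)
    (a b : Fin n) :
    ∑ x, ∑ y, (∑ c, ∑ d, K c x * K d y * f c d) * (J x a * J y b) = f a b := by
  have h1 : ∀ x y, (∑ c, ∑ d, K c x * K d y * f c d) * (J x a * J y b) =
      ∑ c, ∑ d, (K c x * J x a) * (K d y * J y b) * f c d := by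
    intro x y
    rw [Finset.sum_mul]
    refine Finset.sum_congr rfl fun c _ => ?_
    rw [Finset.sum_mul]
    refine Finset.sum_congr rfl fun d _ => ?_
    ring
  simp only [h1]
  calc ∑ x, ∑ y, ∑ c, ∑ d, (K c x * J x a) * (K d y * J y b) * f c d
      = ∑ x, ∑ c, ∑ y, ∑ d, (K c x * J x a) * (K d y * J y b) * f c d :=
        Finset.sum_congr rfl fun x _ => Finset.sum_comm
    _ = ∑ c, ∑ x, ∑ y, ∑ d, (K c x * J x a) * (K d y * J y b) * f c d := Finset.sum_comm
    _ = ∑ c, ∑ x, ∑ d, ∑ y, (K c x * J x a) * (K d y * J y b) * f c d :=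
        Finset.sum_congr rfl fun c _ => Finset.sum_congr rfl fun x _ => Finset.sum_comm
    _ = ∑ c, ∑ d, ∑ x, ∑ y, (K c x * J x a) * (K d y * J y b) * f c d :=
        Finset.sum_congr rfl fun c _ => Finset.sum_comm
    _ = ∑ c, ∑ d, ((if c = a then 1 else 0) * (if d = b then 1 else 0)) * f c d := by
        refine Finset.sum_congr rfl fun c _ => Finset.sum_congr rfl fun d _ => ?_
        rw [← kj c a, ← kj d b, Finset.sum_mul_sum, Finset.sum_mul]
        refine Finset.sum_congr rfl fun x _ => ?_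
        rw [Finset.sum_mul]
    _ = f a b := by
        rw [Finset.sum_eq_single a, Finset.sum_eq_single b]
        · simp
        · intro d _ hd
          simp [hd]
        · intro h
          exact absurd (Finset.mem_univ b) h
        · intro c _ hc
          simp [hc]
        · intro h
          exact absurd (Finset.mem_univ a) h

theorem oi_eval {n : ℕ} {A B : Type} [CommRing A] [Algebra ℝ A] [CommRing B] [Algebra ℝ B]
    {D : Fin n → A → A} {D' : Fin n → B → B} (hD : IsDer D) (hD' : IsDer D')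
    {φ : A →+* B} {J K : Fin n → Fin n → B}
    (hc : CoordChange D D' φ J K) {g gi : Fin n → Fin n → A} (h : IsMetric g gi)
    (C : OpContraction) (F : A) :
    C.eval D' (pull φ J g) (pullInv φ K gi) (φ F) = φ (C.eval D g gi F) := by
  unfold OpContraction.eval
  have h1 : ∀ a : (Σ i : Fin C.q, Fin (C.l i + 2)) ⊕ Fin C.k → Fin n,
      (∏ i : Fin C.q, nablaP D' (pull φ J g) (pullInv φ K gi) (C.l i)
          (fun p => a (Sum.inl ⟨i, p⟩))) *
        nablaF D' (pull φ J g) (pullInv φ K gi) (φ F) C.k (fun p => a (Sum.inr p)) =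
      ∑ b : (Σ i : Fin C.q, Fin (C.l i + 2)) ⊕ Fin C.k → Fin n, (∏ s, J (a s) (b s)) *
        ((∏ i : Fin C.q, φ (nablaP D g gi (C.l i) (fun p => b (Sum.inl ⟨i, p⟩)))) *
          φ (nablaF D g gi F C.k (fun p => b (Sum.inr p)))) := by
    intro a
    have h2 : ∀ i : Fin C.q, nablaP D' (pull φ J g) (pullInv φ K gi) (C.l i)
          (fun p => a (Sum.inl ⟨i, p⟩)) =
        ∑ b : Fin (C.l i + 2) → Fin n, (∏ p, J (a (Sum.inl ⟨i, p⟩)) (b p)) *
          φ (nablaP D g gi (C.l i) b) :=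
      fun i => cc_nablaP hD hD' hc h (C.l i) (fun p => a (Sum.inl ⟨i, p⟩))
    have h2P : ∏ i : Fin C.q, nablaP D' (pull φ J g) (pullInv φ K gi) (C.l i)
          (fun p => a (Sum.inl ⟨i, p⟩)) =
        ∑ b : (Σ i : Fin C.q, Fin (C.l i + 2)) → Fin n, (∏ s, J (a (Sum.inl s)) (b s)) *
          ∏ i : Fin C.q, φ (nablaP D g gi (C.l i) (fun p => b ⟨i, p⟩)) := by
      rw [Finset.prod_congr rfl fun i _ => h2 i, oi_prodsum,
        ← (Equiv.piCurry (fun (i : Fin C.q) (_ : Fin (C.l i + 2)) => Fin n)).sum_comp]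
      refine Finset.sum_congr rfl fun b _ => ?_
      rw [Finset.prod_mul_distrib, Fintype.prod_sigma]
      rfl
    have h2F := cc_nablaF hD hD' hc h F C.k (fun p => a (Sum.inr p))
    rw [h2P, h2F, Finset.sum_mul_sum,
      ← (Equiv.sumArrowEquivProdArrow (Σ i : Fin C.q, Fin (C.l i + 2)) (Fin C.k)
        (Fin n)).symm.sum_comp, Fintype.sum_prod_type]
    refine Finset.sum_congr rfl fun b1 _ => Finset.sum_congr rfl fun b2 _ => ?_
    rw [Fintype.prod_sum_type]
    simp only [Equiv.sumArrowEquivProdArrow_symm_apply_inl,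
      Equiv.sumArrowEquivProdArrow_symm_apply_inr]
    ring
  have h3 : ∀ b : (Σ i : Fin C.q, Fin (C.l i + 2)) ⊕ Fin C.k → Fin n,
      ∑ a : (Σ i : Fin C.q, Fin (C.l i + 2)) ⊕ Fin C.k → Fin n,
        (∏ j : Fin C.m, pullInv φ K gi (a (C.e (j, 0))) (a (C.e (j, 1)))) *
          ∏ s, J (a s) (b s) =
      ∏ j : Fin C.m, φ (gi (b (C.e (j, 0))) (b (C.e (j, 1)))) := by
    intro b
    have h4 : ∀ j : Fin C.m, φ (gi (b (C.e (j, 0))) (b (C.e (j, 1)))) =
        ∑ z : Fin 2 → Fin n, pullInv φ K gi (z 0) (z 1) *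
          (J (z 0) (b (C.e (j, 0))) * J (z 1) (b (C.e (j, 1)))) := by
      intro j
      rw [← oi_pair hc.kj (fun c d => φ (gi c d)) (b (C.e (j, 0))) (b (C.e (j, 1))),
        ← (finTwoArrowEquiv (Fin n)).symm.sum_comp, Fintype.sum_prod_type]
      rfl
    rw [Finset.prod_congr rfl fun j _ => h4 j, oi_prodsum,
      ← (Equiv.curry (Fin C.m) (Fin 2) (Fin n)).sum_comp,
      ← (C.e.arrowCongr (Equiv.refl (Fin n))).sum_comp]
    refine Finset.sum_congr rfl fun a _ => ?_
    rw [Finset.prod_mul_distrib]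
    have h5 : ∀ x, (C.e.arrowCongr (Equiv.refl (Fin n))) a (C.e x) = a x := by
      intro x
      show a (C.e.symm (C.e x)) = a x
      rw [Equiv.symm_apply_apply]
    congr 1
    · refine Finset.prod_congr rfl fun j _ => ?_
      rw [h5, h5]
      rfl
    · rw [← C.e.prod_comp, Fintype.prod_prod_type]
      refine Finset.prod_congr rfl fun j _ => ?_
      rw [Fin.prod_univ_two, h5, h5]
      rfl
  calc ∑ a : ((Σ i : Fin C.q, Fin (C.l i + 2)) ⊕ Fin C.k → Fin n),
        (∏ j : Fin C.m, pullInv φ K gi (a (C.e (j, 0))) (a (C.e (j, 1))))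
        * (∏ i : Fin C.q, nablaP D' (pull φ J g) (pullInv φ K gi) (C.l i)
            (fun p => a (Sum.inl ⟨i, p⟩)))
        * nablaF D' (pull φ J g) (pullInv φ K gi) (φ F) C.k (fun p => a (Sum.inr p))
      = ∑ a : ((Σ i : Fin C.q, Fin (C.l i + 2)) ⊕ Fin C.k → Fin n),
        ∑ b : (Σ i : Fin C.q, Fin (C.l i + 2)) ⊕ Fin C.k → Fin n,
        (∏ j : Fin C.m, pullInv φ K gi (a (C.e (j, 0))) (a (C.e (j, 1))))
        * ((∏ s, J (a s) (b s)) *
        ((∏ i : Fin C.q, φ (nablaP D g gi (C.l i) (fun p => b (Sum.inl ⟨i, p⟩)))) *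
          φ (nablaF D g gi F C.k (fun p => b (Sum.inr p))))) := by
        refine Finset.sum_congr rfl fun a _ => ?_
        rw [mul_assoc, h1, Finset.mul_sum]
    _ = ∑ b : (Σ i : Fin C.q, Fin (C.l i + 2)) ⊕ Fin C.k → Fin n,
        ∑ a : ((Σ i : Fin C.q, Fin (C.l i + 2)) ⊕ Fin C.k → Fin n),
        (∏ j : Fin C.m, pullInv φ K gi (a (C.e (j, 0))) (a (C.e (j, 1))))
        * ((∏ s, J (a s) (b s)) *
        ((∏ i : Fin C.q, φ (nablaP D g gi (C.l i) (fun p => b (Sum.inl ⟨i, p⟩)))) *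
          φ (nablaF D g gi F C.k (fun p => b (Sum.inr p))))) := Finset.sum_comm
    _ = ∑ b : (Σ i : Fin C.q, Fin (C.l i + 2)) ⊕ Fin C.k → Fin n,
        (∏ j : Fin C.m, φ (gi (b (C.e (j, 0))) (b (C.e (j, 1))))) *
        ((∏ i : Fin C.q, φ (nablaP D g gi (C.l i) (fun p => b (Sum.inl ⟨i, p⟩)))) *
          φ (nablaF D g gi F C.k (fun p => b (Sum.inr p)))) := by
        refine Finset.sum_congr rfl fun b _ => ?_
        rw [← h3, Finset.sum_mul]
        refine Finset.sum_congr rfl fun a _ => ?_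
        rw [mul_assoc]
    _ = _ := by
        rw [map_sum]
        refine Finset.sum_congr rfl fun b _ => ?_
        rw [map_mul, map_mul, map_prod, map_prod, mul_assoc]

theorem oi_cov {n : ℕ} {A B : Type} [CommRing A] [Algebra ℝ A] [CommRing B] [Algebra ℝ B]
    {D : Fin n → A → A} {D' : Fin n → B → B} (hD : IsDer D) (hD' : IsDer D')
    {φ : A →+* B} {J K : Fin n → Fin n → B}
    (hc : CoordChange D D' φ J K) {g gi : Fin n → Fin n → A} (h : IsMetric g gi)
    (c : OpContraction →₀ ℝ) (F : A) :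
    opInv c D' (pull φ J g) (pullInv φ K gi) (φ F) = φ (opInv c D g gi F) := by
  unfold opInv Finsupp.sum
  rw [map_sum]
  refine Finset.sum_congr rfl fun C _ => ?_
  rw [hc.smul]
  exact congrArg (fun z => c C • z) (oi_eval hD hD' hc h C F)

end Z_oi_cov

alias oi_cov := Z_oi_cov.oi_cov

end CInv
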