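import Pool.Agent.Helper767.Gjms.Defs

set_option linter.all false

open scoped BigOperators

namespace CInv

namespace Z_oi_lin

theorem OL_nab {n : ℕ} {A : Type} [CommRing A] [Algebra ℝ A] {D : Fin n → A → A}
    (hD : IsDer D) (g gi : Fin n → Fin n → A) (a F : A)
    (ha : ∀ i, D i a = 0) (k : ℕ) : ∀ i : Fin k → Fin n,
      nablaF D g gi (a * F) k i = a * nablaF D g gi F k i := by
  induction k with
  | zero => intro i; rfl
  | succ k ih =>
    intro i
    change covD D g gi (nablaF D g gi (a * F) k) i = a * covD D g gi (nablaF D g gi F k) i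
    unfold covD
    rw [ih, hD.mul, ha, zero_mul, zero_add, mul_sub]
    congr 1
    rw [Finset.mul_sum]
    refine Finset.sum_congr rfl fun p _ => ?_
    rw [Finset.mul_sum]
    refine Finset.sum_congr rfl fun k' _ => ?_
    rw [ih]
    ring

theorem oi_lin {n : ℕ} {A : Type} [CommRing A] [Algebra ℝ A] {D : Fin n → A → A}
    (hD : IsDer D) (g gi : Fin n → Fin n → A) (c : OpContraction →₀ ℝ) (a F : A)
    (ha : ∀ i, D i a = 0) : opInv c D g gi (a * F) = a * opInv c D g gi F := by
  have h1 : ∀ C : OpContraction, C.eval D g gi (a * F) = a * C.eval D g gi F := by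
    intro C
    unfold OpContraction.eval
    rw [Finset.mul_sum]
    refine Finset.sum_congr rfl fun b _ => ?_
    rw [OL_nab hD g gi a F ha]
    ring
  unfold opInv Finsupp.sum
  rw [Finset.mul_sum]
  refine Finset.sum_congr rfl fun C _ => ?_
  simp only
  rw [h1, mul_smul_comm]

end Z_oi_lin

alias oi_lin := Z_oi_lin.oi_lin

end CInv
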