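import Pool.Agent.Helper767.Gjms.Defs
import Pool.Agent.Helper767.Gjms.P_oi_rel
import Pool.Agent.Helper767.Gjms.P_oi_lin
import Pool.Agent.Helper767.Gjms.P_oi_cov

set_option linter.all false

open scoped BigOperators

namespace CInv

namespace Z_natop_inv

theorem natop_inv {n : ℕ} (c : OpContraction →₀ ℝ) :
    ∃ I : NatOp n, ∀ (A : Type) [CommRing A] [Algebra ℝ A] (D : Fin n → A → A)
      (g gi : Fin n → Fin n → A) (F : A), I.op A D g gi F = opInv c D g gi F := by
  refine ⟨{ op := fun A _ _ D g gi F => opInv c D g gi F, nat := ?_, lin := ?_, cov := ?_ },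
    fun A _ _ D g gi F => rfl⟩
  · intro A B _ _ _ _ DA DB Rel hR gA giA gB giB FA FB hg hgi hF
    exact oi_rel hR hg hgi hF c
  · intro A _ _ D hD g gi _ a F ha
    exact oi_lin hD g gi c a F ha
  · intro A B _ _ _ _ D D' hD hD' φ J K hc g gi h F
    exact oi_cov hD hD' hc h c F

end Z_natop_inv

alias natop_inv := Z_natop_inv.natop_inv

end CInv
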