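import Pool.Agent.Helper767.Gjms.Defs
import Pool.Agent.Helper767.Gjms.P_lap_rel
import Pool.Agent.Helper767.Gjms.P_lap_lin
import Pool.Agent.Helper767.Gjms.P_cc_lap

set_option linter.all false

open scoped BigOperators

namespace CInv

namespace Z_natop_lap

theorem natop_lap {n : ℕ} (k : ℕ) :
    ∃ I : NatOp n, ∀ (A : Type) [CommRing A] [Algebra ℝ A] (D : Fin n → A → A)
      (g gi : Fin n → Fin n → A) (F : A), I.op A D g gi F = (lap D g gi)^[k] F := by
  refine ⟨⟨fun A _ _ D g gi F => (lap D g gi)^[k] F, ?_, ?_, ?_⟩, fun A _ _ D g gi F => rfl⟩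
  · intro A B _ _ _ _ DA DB Rel hR gA giA gB giB FA FB hg hgi hF
    show Rel ((lap DA gA giA)^[k] FA) ((lap DB gB giB)^[k] FB)
    induction k with
    | zero => exact hF
    | succ k ih =>
      rw [Function.iterate_succ_apply', Function.iterate_succ_apply']
      exact lap_rel hR hg hgi ih
  · intro A _ _ D hD g gi hm c F hc
    show (lap D g gi)^[k] (c * F) = c * (lap D g gi)^[k] F
    induction k with
    | zero => rfl
    | succ k ih =>
      rw [Function.iterate_succ_apply', Function.iterate_succ_apply', ih]
      exact (lap_lin hD g gi).2.2 c _ hc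
  · intro A B _ _ _ _ D D' hD hD' φ J K hc g gi hm F
    show (lap D' (pull φ J g) (pullInv φ K gi))^[k] (φ F) = φ ((lap D g gi)^[k] F)
    induction k with
    | zero => rfl
    | succ k ih =>
      rw [Function.iterate_succ_apply', Function.iterate_succ_apply', ih]
      exact cc_lap hD hD' hc hm _

end Z_natop_lap

alias natop_lap := Z_natop_lap.natop_lap

end CInv
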