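import Pool.Agent.Helper767.Gjms.Defs

set_option linter.all false

open scoped BigOperators

namespace CInv

namespace Z_oc_weight

theorem oc_weight (C : OpContraction) {n : ℕ} (hk : C.k < n) (hm : 2 * C.m = n) : 0 < C.q := by
  have h1 := Fintype.card_congr C.e
  simp only [Fintype.card_prod, Fintype.card_fin, Fintype.card_bool, Fintype.card_sum,
    Fintype.card_sigma] at h1
  rcases Nat.eq_zero_or_pos C.q with h0 | h0
  · exfalso
    have h2 : ∑ i : Fin C.q, (C.l i + 2) = 0 := by
      apply Finset.sum_eq_zero
      intro i _
      have := i.2
      omega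
    omega
  · exact h0

end Z_oc_weight

alias oc_weight := Z_oc_weight.oc_weight

end CInv
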