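import Pool.Agent.Helper767.Gjms.Defs

set_option linter.all false

open scoped BigOperators

namespace CInv

namespace Z_oi_onshell

theorem oi_onshell {n : ℕ} {A : Type} [CommRing A] [Algebra ℝ A] {D : Fin n → A → A}
    (hD : IsDer D) {g gi : Fin n → Fin n → A} (h : ∀ i j, ric D g gi i j = 0)
    (c : OpContraction →₀ ℝ) (hq : ∀ C ∈ c.support, 0 < C.q) (F : A) :
    opInv c D g gi F = 0 := by
  classical
  have hD0 : ∀ i, D i 0 = 0 := by
    intro i
    have h1 := hD.smul i 0 0
    simpa using h1
  have hscal : scal D g gi = 0 := by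
    unfold scal
    refine Finset.sum_eq_zero fun i _ => Finset.sum_eq_zero fun j _ => ?_
    rw [h i j, mul_zero]
  have hsch : ∀ i j, schouten D g gi i j = 0 := by
    intro i j
    unfold schouten
    rw [h i j, hscal]
    simp
  have hnab : ∀ (l : ℕ) (i : Fin (l + 2) → Fin n), nablaP D g gi l i = 0 := by
    intro l
    induction l with
    | zero => intro i; exact hsch _ _
    | succ l ih =>
      intro i
      show covD D g gi (nablaP D g gi l) i = 0
      unfold covD
      rw [ih, hD0]
      have : ∀ p : Fin (l + 2), ∀ k, chr D g gi k (i 0) (i p.succ)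
          * nablaP D g gi l (Function.update (Fin.tail i) p k) = 0 := by
        intro p k
        rw [ih, mul_zero]
      rw [Finset.sum_eq_zero fun p _ => Finset.sum_eq_zero fun k _ => this p k, sub_zero]
  unfold opInv
  rw [Finsupp.sum]
  refine Finset.sum_eq_zero fun C hC => ?_
  have hpos : 0 < C.q := hq C hC
  have hev : C.eval D g gi F = 0 := by
    unfold OpContraction.eval
    refine Finset.sum_eq_zero fun a _ => ?_
    have h2 : (∏ i : Fin C.q, nablaP D g gi (C.l i) (fun p => a (Sum.inl ⟨i, p⟩))) = 0 :=
      Finset.prod_eq_zero (Finset.mem_univ (⟨0, hpos⟩ : Fin C.q)) (hnab _ _)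
    rw [h2, mul_zero, zero_mul]
  show c C • C.eval D g gi F = 0
  rw [hev, smul_zero]

end Z_oi_onshell

alias oi_onshell := Z_oi_onshell.oi_onshell

end CInv
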