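import Pool.Agent.Helper767.Gjms.Defs
import Pool.Agent.Helper771.CInv.P_pdv_isder
import Pool.Agent.Helper771.CInv.P_cc_metric

set_option linter.all false

open scoped BigOperators

namespace CInv

namespace Z_op_cov_inf

section CovInf

variable {n : ℕ} {R : Type} [CommRing R] [Algebra ℝ R]

/-- the infinitesimal flow of `X` acting on functions -/
noncomputable def fl (s : R) (hs : s * s = 0) (X : Fin n → MvPolynomial (Fin n) R) :
    MvPolynomial (Fin n) R →+* MvPolynomial (Fin n) R where
  toFun p := p + MvPolynomial.C s * ∑ a, X a * pdv a p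
  map_one' := by
    have : ∀ a : Fin n, pdv a (1 : MvPolynomial (Fin n) R) = 0 := by
      intro a; unfold pdv; exact Derivation.map_one_eq_zero _
    simp [this]
  map_zero' := by
    have : ∀ a : Fin n, pdv a (0 : MvPolynomial (Fin n) R) = 0 := by
      intro a; unfold pdv; exact map_zero _
    simp [this]
  map_add' p p' := by
    have : ∀ a : Fin n, pdv a (p + p') = pdv a p + pdv a p' := by
      intro a; unfold pdv; exact map_add _ _ _
    simp only [this, mul_add, Finset.sum_add_distrib]
    ring
  map_mul' p p' := by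
    have h : ∀ a : Fin n, pdv a (p * p') = pdv a p * p' + p * pdv a p' :=
      fun a => (pdv_isder (n := n) (R := R)).mul a p p'
    have hC : MvPolynomial.C (σ := Fin n) s * MvPolynomial.C s = 0 := by
      rw [← MvPolynomial.C_mul, hs, MvPolynomial.C_0]
    have e : ∑ a, X a * pdv a (p * p') = (∑ a, X a * pdv a p) * p' + p * ∑ a, X a * pdv a p' := by
      rw [Finset.sum_mul, Finset.mul_sum, ← Finset.sum_add_distrib]
      apply Finset.sum_congr rfl
      intro a _
      rw [h]
      ring
    rw [e]
    linear_combination (-(∑ a, X a * pdv a p) * (∑ a, X a * pdv a p')) * hC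

theorem fl_apply (s : R) (hs : s * s = 0) (X : Fin n → MvPolynomial (Fin n) R)
    (p : MvPolynomial (Fin n) R) :
    fl s hs X p = p + MvPolynomial.C s * ∑ a, X a * pdv a p := rfl

/-- the infinitesimal Jacobian -/
noncomputable def jac (s : R) (X : Fin n → MvPolynomial (Fin n) R) (i j : Fin n) :
    MvPolynomial (Fin n) R := flat _ i j + MvPolynomial.C s * pdv i (X j)

theorem sum_flat_left (f : Fin n → MvPolynomial (Fin n) R) (i : Fin n) :
    ∑ a, flat (MvPolynomial (Fin n) R) i a * f a = f i := by
  unfold flat
  simp only [ite_mul, one_mul, zero_mul]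
  rw [Finset.sum_ite_eq]
  simp

theorem sum_flat_right (f : Fin n → MvPolynomial (Fin n) R) (i : Fin n) :
    ∑ a, f a * flat (MvPolynomial (Fin n) R) a i = f i := by
  unfold flat
  simp only [mul_ite, mul_one, mul_zero]
  rw [Finset.sum_ite_eq']
  simp

theorem pdv_flat (i j k : Fin n) : pdv i (flat (MvPolynomial (Fin n) R) j k) = 0 := by
  unfold flat pdv
  split_ifs
  · exact Derivation.map_one_eq_zero _
  · exact map_zero _

theorem pdv_Cmul (s : R) (i : Fin n) (p : MvPolynomial (Fin n) R) :
    pdv i (MvPolynomial.C s * p) = MvPolynomial.C s * pdv i p := by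
  rw [(pdv_isder (n := n) (R := R)).mul i]
  have : pdv i (MvPolynomial.C (σ := Fin n) s) = 0 := by
    unfold pdv
    exact MvPolynomial.pderiv_C
  rw [this]
  ring

theorem pdv_sum (i : Fin n) (f : Fin n → MvPolynomial (Fin n) R) :
    pdv i (∑ a, f a) = ∑ a, pdv i (f a) := by
  unfold pdv
  exact map_sum _ _ _

theorem cs_sq (s : R) (hs : s * s = 0) :
    MvPolynomial.C (σ := Fin n) s * MvPolynomial.C s = 0 := by
  rw [← MvPolynomial.C_mul, hs, MvPolynomial.C_0]

theorem fl_cc (s : R) (hs : s * s = 0) (X : Fin n → MvPolynomial (Fin n) R) :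
    CoordChange (fun i : Fin n => pdv (R := R) i) (fun i => pdv i) (fl s hs X) (jac s X)
      (fun i j => flat _ i j - MvPolynomial.C s * pdv i (X j)) where
  smul r a := by
    rw [fl_apply, fl_apply]
    have h : ∀ b : Fin n, pdv b (r • a) = r • pdv b a :=
      fun b => (pdv_isder (n := n) (R := R)).smul b r a
    simp only [h]
    rw [smul_add]
    congr 1
    rw [← mul_smul_comm]
    congr 1
    rw [Finset.smul_sum]
    apply Finset.sum_congr rfl
    intro b _
    rw [mul_smul_comm]
  jk i j := by
    have hC := cs_sq (n := n) s hs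
    have e : ∀ k, jac s X i k * (flat _ k j - MvPolynomial.C s * pdv k (X j)) =
        flat _ i k * (flat _ k j - MvPolynomial.C s * pdv k (X j)) +
          (MvPolynomial.C s * pdv i (X k)) * flat _ k j := by
      intro k
      unfold jac
      linear_combination (-(pdv i (X k)) * (pdv k (X j))) * hC
    simp only [e]
    rw [Finset.sum_add_distrib,
      sum_flat_left (fun k => flat _ k j - MvPolynomial.C s * pdv k (X j)) i,
      sum_flat_right (fun k => MvPolynomial.C s * pdv i (X k)) j]
    have : flat (MvPolynomial (Fin n) R) i j = if i = j then 1 else 0 := rfl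
    rw [← this]
    ring
  kj i j := by
    have hC := cs_sq (n := n) s hs
    have e : ∀ k, (flat _ i k - MvPolynomial.C s * pdv i (X k)) * jac s X k j =
        flat _ i k * (flat _ k j + MvPolynomial.C s * pdv k (X j)) +
          (-(MvPolynomial.C s * pdv i (X k))) * flat _ k j := by
      intro k
      unfold jac
      linear_combination (-(pdv i (X k)) * (pdv k (X j))) * hC
    simp only [e]
    rw [Finset.sum_add_distrib,
      sum_flat_left (fun k => flat _ k j + MvPolynomial.C s * pdv k (X j)) i,
      sum_flat_right (fun k => -(MvPolynomial.C s * pdv i (X k))) j]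
    have : flat (MvPolynomial (Fin n) R) i j = if i = j then 1 else 0 := rfl
    rw [← this]
    ring
  der i a := by
    have hC := cs_sq (n := n) s hs
    have hD := pdv_isder (n := n) (R := R)
    have e1 : pdv i (fl s hs X a) = pdv i a + MvPolynomial.C s *
        ∑ b, (pdv i (X b) * pdv b a + X b * pdv i (pdv b a)) := by
      rw [fl_apply]
      have h1 := hD.add i a (MvPolynomial.C s * ∑ b, X b * pdv b a)
      rw [h1, pdv_Cmul, pdv_sum]
      congr 2
      apply Finset.sum_congr rfl
      intro b _
      exact hD.mul i _ _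
    have e2 : ∀ j, jac s X i j * fl s hs X (pdv j a) =
        flat _ i j * (fl s hs X (pdv j a)) + (MvPolynomial.C s * (pdv i (X j) * pdv j a)) := by
      intro j
      rw [fl_apply]
      unfold jac
      linear_combination (pdv i (X j) * (∑ b, X b * pdv b (pdv j a))) * hC
    show pdv i (fl s hs X a) = ∑ j, jac s X i j * fl s hs X (pdv j a)
    simp only [e2]
    rw [Finset.sum_add_distrib, sum_flat_left (fun j => fl s hs X (pdv j a)) i, e1, fl_apply,
      ← Finset.mul_sum, Finset.sum_add_distrib]
    have e3 : ∑ b, X b * pdv i (pdv b a) = ∑ b, X b * pdv b (pdv i a) := by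
      apply Finset.sum_congr rfl
      intro b _
      rw [show pdv i (pdv b a) = pdv b (pdv i a) from hD.comm i b a]
    rw [e3]
    ring
  closed i j k := by
    have hD := pdv_isder (n := n) (R := R)
    show pdv i (jac s X j k) = pdv j (jac s X i k)
    unfold jac
    have h1 := hD.add i (flat _ j k) (MvPolynomial.C s * pdv j (X k))
    have h2 := hD.add j (flat _ i k) (MvPolynomial.C s * pdv i (X k))
    rw [h1, h2]
    simp only [pdv_flat, pdv_Cmul]
    rw [show pdv i (pdv j (X k)) = pdv j (pdv i (X k)) from hD.comm i j (X k)]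

theorem jac_det (s : R) (hs : s * s = 0) (X : Fin n → MvPolynomial (Fin n) R) :
    (Matrix.of (jac s X)).det = 1 + MvPolynomial.C s * ∑ a, pdv a (X a) := by
  have e : Matrix.of (jac s X) = 1 + (MvPolynomial.C (σ := Fin n) s) • Matrix.of (fun i j => pdv i (X j)) := by
    ext1 i j
    simp only [Matrix.of_apply, Matrix.add_apply, Matrix.smul_apply, smul_eq_mul, jac, flat,
      Matrix.one_apply]
  have hC := cs_sq (n := n) s hs
  rw [e, Matrix.det_one_add_smul, pow_two, hC, mul_zero, add_zero, mul_comm (Matrix.trace _)]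
  rfl

theorem pull_eq (s : R) (hs : s * s = 0) (X : Fin n → MvPolynomial (Fin n) R)
    (g : Fin n → Fin n → MvPolynomial (Fin n) R) (i j : Fin n) :
    pull (fl s hs X) (jac s X) g i j = g i j + MvPolynomial.C s * Lie X g i j := by
  have hC := cs_sq (n := n) s hs
  unfold pull
  have e : ∀ a b, jac s X i a * jac s X j b * fl s hs X (g a b) =
      flat _ i a * (flat _ j b * (g a b + MvPolynomial.C s * ∑ c, X c * pdv c (g a b)))
      + flat _ i a * (MvPolynomial.C s * (pdv j (X b) * g a b))
      + flat _ j b * (MvPolynomial.C s * (pdv i (X a) * g a b)) := by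
    intro a b
    rw [fl_apply]
    unfold jac
    generalize (∑ c, X c * pdv c (g a b)) = Y
    linear_combination (flat _ i a * pdv j (X b) * Y + flat _ j b * pdv i (X a) * Y +
      pdv i (X a) * pdv j (X b) * (g a b) + MvPolynomial.C s * pdv i (X a) * pdv j (X b) * Y) * hC
  simp only [e]
  have e2 : ∀ a, ∑ b, (flat (MvPolynomial (Fin n) R) i a * (flat _ j b * (g a b + MvPolynomial.C s * ∑ c, X c * pdv c (g a b)))
      + flat _ i a * (MvPolynomial.C s * (pdv j (X b) * g a b))
      + flat _ j b * (MvPolynomial.C s * (pdv i (X a) * g a b))) =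
      flat _ i a * ((g a j + MvPolynomial.C s * ∑ c, X c * pdv c (g a j)) +
        MvPolynomial.C s * ∑ b, pdv j (X b) * g a b) +
        MvPolynomial.C s * (pdv i (X a) * g a j) := by
    intro a
    rw [Finset.sum_add_distrib, Finset.sum_add_distrib, ← Finset.mul_sum, ← Finset.mul_sum,
      sum_flat_left (fun b => g a b + MvPolynomial.C s * ∑ c, X c * pdv c (g a b)) j,
      sum_flat_left (fun b => MvPolynomial.C s * (pdv i (X a) * g a b)) j, ← Finset.mul_sum]
    ring
  simp only [e2]
  rw [Finset.sum_add_distrib, sum_flat_left (fun a => (g a j + MvPolynomial.C s * ∑ c, X c * pdv c (g a j)) +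
        MvPolynomial.C s * ∑ b, pdv j (X b) * g a b) i, ← Finset.mul_sum]
  unfold Lie
  ring

theorem pull_det (s : R) (hs : s * s = 0) (X : Fin n → MvPolynomial (Fin n) R)
    (g : Fin n → Fin n → MvPolynomial (Fin n) R) :
    (Matrix.of (pull (fl s hs X) (jac s X) g)).det =
      (1 + MvPolynomial.C s * ∑ a, pdv a (X a)) ^ 2 * fl s hs X ((Matrix.of g).det) := by
  have e : Matrix.of (pull (fl s hs X) (jac s X) g) =
      Matrix.of (jac s X) * ((fl s hs X).mapMatrix (Matrix.of g)) * (Matrix.of (jac s X)).transpose := by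
    ext1 i j
    rw [Matrix.mul_apply]
    simp only [Matrix.mul_apply, Matrix.of_apply, Matrix.transpose_apply, RingHom.mapMatrix_apply,
      Matrix.map_apply, pull]
    simp only [Finset.sum_mul]
    rw [Finset.sum_comm]
    apply Finset.sum_congr rfl
    intro a _
    apply Finset.sum_congr rfl
    intro b _
    ring
  rw [e, Matrix.det_mul, Matrix.det_mul, Matrix.det_transpose, jac_det s hs X, ← RingHom.map_det]
  ring

end CovInf

theorem op_cov_inf {n : ℕ} {I : NatOp n} {N : ℕ} {Φ : OpPhi n}
    (hΦ : GoodOp n I N Φ) {R : Type} [CommRing R] [Algebra ℝ R] (s : R) (hs : s * s = 0)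
    (X : Fin n → MvPolynomial (Fin n) R) (H gi : Fin n → Fin n → MvPolynomial (Fin n) R)
    (hm : IsMetric (met H) gi) (F : MvPolynomial (Fin n) R) :
    Ejet Φ (fun i => pdv i) (fun i j => met H i j - flat _ i j
        + MvPolynomial.C s * Lie X (met H) i j)
        (F + MvPolynomial.C s * ∑ a, X a * pdv a F)
      = (1 + MvPolynomial.C s * ∑ a, pdv a (X a)) ^ (2 * N)
        * (Ejet Φ (fun i => pdv i) H F + MvPolynomial.C s
          * ∑ a, X a * pdv a (Ejet Φ (fun i => pdv i) H F)) := by
  have hD := pdv_isder (n := n) (R := R)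
  have hcc := fl_cc s hs X
  have hpm := cc_metric hcc hm
  have hhalf : ∀ p : MvPolynomial (Fin n) R, (1 / 2 : ℝ) • (p + p) = p := by
    intro p
    rw [← two_smul ℝ p, smul_smul]
    norm_num
  have hmet : met (fun i j => met H i j - flat _ i j + MvPolynomial.C s * Lie X (met H) i j) =
      pull (fl s hs X) (jac s X) (met H) := by
    funext i j
    have hsym := hpm.symm i j
    rw [pull_eq, pull_eq] at hsym
    rw [pull_eq]
    have hs1 := hm.symm i j
    have hf : flat (MvPolynomial (Fin n) R) j i = flat _ i j := by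
      unfold flat
      by_cases h : i = j
      · subst h; rfl
      · rw [if_neg h, if_neg (Ne.symm h)]
    have e1 : met H j i - flat _ j i + MvPolynomial.C s * Lie X (met H) j i =
        met H i j - flat _ i j + MvPolynomial.C s * Lie X (met H) i j := by
      rw [hf]
      linear_combination -hsym
    show flat _ i j + (1 / 2 : ℝ) • ((met H i j - flat _ i j + MvPolynomial.C s * Lie X (met H) i j) +
      (met H j i - flat _ j i + MvPolynomial.C s * Lie X (met H) j i)) = _
    rw [e1, hhalf]
    ring
  have h1 := hΦ.alg (MvPolynomial (Fin n) R) (fun i => pdv i) hD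
    (fun i j => met H i j - flat _ i j + MvPolynomial.C s * Lie X (met H) i j)
    (pullInv (fl s hs X) (fun i j => flat _ i j - MvPolynomial.C s * pdv i (X j)) gi)
    (by rw [hmet]; exact hpm) (F + MvPolynomial.C s * ∑ a, X a * pdv a F)
  have h2 := hΦ.alg (MvPolynomial (Fin n) R) (fun i => pdv i) hD H gi hm F
  have h3 := I.cov (MvPolynomial (Fin n) R) (MvPolynomial (Fin n) R) (fun i => pdv i)
    (fun i => pdv i) hD hD (fl s hs X) (jac s X)
    (fun i j => flat _ i j - MvPolynomial.C s * pdv i (X j)) hcc (met H) gi hm F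
  rw [fl_apply s hs X F] at h3
  rw [h1, hmet, h3, pull_det]
  rw [← fl_apply s hs X (Ejet Φ (fun i => pdv i) H F), h2, map_mul, map_pow, mul_pow, ← pow_mul]
  ring

end Z_op_cov_inf

alias op_cov_inf := Z_op_cov_inf.op_cov_inf

end CInv
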