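import Pool.Agent.Helper767.Gjms.Defs
import Pool.Agent.Helper771.CInv.P_sf_ideal
import Pool.Agent.Helper771.CInv.P_j0_legs
import Pool.Agent.Helper771.CInv.P_sf_inverse
import Pool.Agent.Helper771.CInv.P_pdv_isder
import Pool.Agent.Helper767.Gjms.P_e0_ejet
import Pool.Agent.Helper767.Gjms.P_op_cov_inf
import Pool.Agent.Helper767.Gjms.P_e_nil
import Pool.Agent.Helper767.Gjms.P_bv_top
import Pool.Agent.Helper767.Gjms.P_bv_legs

set_option linter.all false

open scoped BigOperators

namespace CInv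

namespace Z_og_gauge

section ogg

variable {n : ℕ}

/-- jet along a word at the origin -/
noncomputable def oggP {R : Type} [CommRing R] (w : List (Fin n)) (p : MvPolynomial (Fin n) R) : R :=
  MvPolynomial.constantCoeff (Dw pdv w p)

theorem ogg_Dw_add {R : Type} [CommRing R] (w : List (Fin n)) (p q : MvPolynomial (Fin n) R) :
    Dw pdv w (p + q) = Dw pdv w p + Dw pdv w q := by
  induction w with
  | nil => rfl
  | cons i w ih =>
    show pdv i (Dw pdv w (p + q)) = pdv i (Dw pdv w p) + pdv i (Dw pdv w q)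
    rw [ih]
    unfold pdv
    rw [map_add]

theorem ogg_Dw_C {R : Type} [CommRing R] (w : List (Fin n)) (x : R) (p : MvPolynomial (Fin n) R) :
    Dw pdv w (MvPolynomial.C x * p) = MvPolynomial.C x * Dw pdv w p := by
  induction w with
  | nil => rfl
  | cons i w ih =>
    show pdv i (Dw pdv w (MvPolynomial.C x * p)) = MvPolynomial.C x * pdv i (Dw pdv w p)
    rw [ih]
    unfold pdv
    rw [MvPolynomial.pderiv_C_mul]

theorem ogg_Dw_map {R S : Type} [CommRing R] [CommRing S] (f : R →+* S) (w : List (Fin n))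
    (p : MvPolynomial (Fin n) R) :
    Dw pdv w (MvPolynomial.map f p) = MvPolynomial.map f (Dw pdv w p) := by
  induction w with
  | nil => rfl
  | cons i w ih =>
    show pdv i (Dw pdv w (MvPolynomial.map f p)) = MvPolynomial.map f (pdv i (Dw pdv w p))
    rw [ih]
    unfold pdv
    rw [MvPolynomial.pderiv_map]

theorem ogg_Dw_zero {R : Type} [CommRing R] (w : List (Fin n)) :
    Dw pdv w (0 : MvPolynomial (Fin n) R) = 0 := by
  have := ogg_Dw_C w (0 : R) 0
  simpa using this

theorem ogg_Dw_sum {R ι : Type} [CommRing R] (w : List (Fin n)) (s : Finset ι)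
    (p : ι → MvPolynomial (Fin n) R) :
    Dw pdv w (∑ i ∈ s, p i) = ∑ i ∈ s, Dw pdv w (p i) := by
  classical
  induction s using Finset.induction_on with
  | empty => simpa using ogg_Dw_zero w
  | insert a s ha ih => rw [Finset.sum_insert ha, Finset.sum_insert ha, ogg_Dw_add, ih]

theorem oggP_add {R : Type} [CommRing R] (w : List (Fin n)) (p q : MvPolynomial (Fin n) R) :
    oggP w (p + q) = oggP w p + oggP w q := by
  unfold oggP
  rw [ogg_Dw_add, map_add]

theorem oggP_C {R : Type} [CommRing R] (w : List (Fin n)) (x : R) (p : MvPolynomial (Fin n) R) :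
    oggP w (MvPolynomial.C x * p) = x * oggP w p := by
  unfold oggP
  rw [ogg_Dw_C, map_mul, MvPolynomial.constantCoeff_C]

theorem oggP_map {R S : Type} [CommRing R] [CommRing S] (f : R →+* S) (w : List (Fin n))
    (p : MvPolynomial (Fin n) R) : oggP w (MvPolynomial.map f p) = f (oggP w p) := by
  unfold oggP
  rw [ogg_Dw_map, MvPolynomial.constantCoeff_map]

theorem oggP_zero {R : Type} [CommRing R] (w : List (Fin n)) :
    oggP w (0 : MvPolynomial (Fin n) R) = 0 := by
  unfold oggP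
  rw [ogg_Dw_zero, map_zero]

theorem ogg_J0 {R : Type} [CommRing R] (H : Fin n → Fin n → MvPolynomial (Fin n) R) (v : JV n) :
    J0 H v = oggP v.2.2.toList (H v.1 v.2.1) := rfl

/-- the augmentation -/
noncomputable def oggEps (ι : Type) [DecidableEq ι] : SF ι →+* ℂ where
  toFun x := x.c ∅
  map_one' := by rw [SF.c_one, if_pos rfl]
  map_mul' x y := by rw [SF.c_mul]; simp
  map_zero' := rfl
  map_add' _ _ := rfl

theorem ogg_eps_gen {ι : Type} [DecidableEq ι] (i : ι) : oggEps ι (SF.gen i) = 0 := by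
  show (if (∅ : Finset ι) = {i} then (1 : ℂ) else 0) = 0
  rw [if_neg]
  exact (Finset.singleton_ne_empty i).symm

theorem ogg_gen_mul {ι : Type} [DecidableEq ι] (i' i : ι) (x : SF ι) :
    (SF.gen i' * x).c {i} = if i = i' then x.c ∅ else 0 := by
  rw [SF.c_mul, Finset.sum_eq_single ({i} : Finset ι)]
  · by_cases h : i = i'
    · subst h
      rw [if_pos rfl, Finset.sdiff_self]
      show (if ({i} : Finset ι) = {i} then (1 : ℂ) else 0) * x.c ∅ = x.c ∅
      rw [if_pos rfl, one_mul]
    · rw [if_neg h]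
      show (if ({i} : Finset ι) = {i'} then (1 : ℂ) else 0) * _ = 0
      rw [if_neg (fun h' => h (Finset.singleton_injective h')), zero_mul]
  · intro T hT hne
    have hT' : T = ∅ := by
      rcases Finset.subset_singleton_iff.1 (Finset.mem_powerset.1 hT) with h | h
      · exact h
      · exact absurd h hne
    subst hT'
    show (if (∅ : Finset ι) = {i'} then (1 : ℂ) else 0) * _ = 0
    rw [if_neg (Finset.singleton_ne_empty i').symm, zero_mul]
  · intro h
    exact absurd (Finset.mem_powerset_self _) h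

theorem ogg_gen_sq {ι : Type} [DecidableEq ι] (j : ι) : (SF.gen j : SF ι) * SF.gen j = 0 := by
  ext S
  rw [SF.c_mul, SF.c_zero]
  refine Finset.sum_eq_zero fun T _ => ?_
  show (if T = {j} then (1 : ℂ) else 0) * (if S \ T = {j} then (1 : ℂ) else 0) = 0
  by_cases h : T = {j}
  · subst h
    rw [if_neg (c := S \ {j} = {j}), mul_zero]
    intro h'
    have : j ∈ S \ {j} := by rw [h']; exact Finset.mem_singleton_self j
    simp at this
  · rw [if_neg h, zero_mul]

theorem ogg_alg {ι : Type} [DecidableEq ι] (z : ℂ) : (algebraMap ℂ (SF ι) z).c ∅ = z := by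
  rw [Algebra.algebraMap_eq_smul_one, SF.c_smul, SF.c_one, if_pos rfl, mul_one]

theorem ogg_gen_alg {ι : Type} [DecidableEq ι] (i' i : ι) (z : ℂ) :
    (SF.gen i' * algebraMap ℂ (SF ι) z).c {i} = if i = i' then z else 0 := by
  rw [ogg_gen_mul, ogg_alg]

theorem ogg_c_sum {ι κ : Type} [DecidableEq ι] (s : Finset κ) (f : κ → SF ι) (S : Finset ι) :
    (∑ k ∈ s, f k).c S = ∑ k ∈ s, (f k).c S := map_sum (SF.cl S) f s

theorem ogg_leg {r : ℕ} (z : Fin r → ℂ) (i : Fin r) :
    (∑ i', SF.gen i' * algebraMap ℂ (SF (Fin r)) (z i')).c {i} = z i := by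
  rw [ogg_c_sum]
  simp only [ogg_gen_alg]
  rw [Finset.sum_ite_eq, if_pos (Finset.mem_univ _)]

theorem ogg_leg0 {r : ℕ} (z : Fin r → ℂ) :
    (∑ i', SF.gen i' * algebraMap ℂ (SF (Fin r)) (z i')).c ∅ = 0 := by
  show oggEps (Fin r) _ = 0
  rw [map_sum]
  refine Finset.sum_eq_zero fun i _ => ?_
  rw [map_mul, ogg_eps_gen, zero_mul]

theorem ogg_lie_flat {R : Type} [CommRing R] (X : Fin n → MvPolynomial (Fin n) R) (a b : Fin n) :
    Lie X (flat (MvPolynomial (Fin n) R)) a b = lieEta X a b := by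
  unfold Lie lieEta
  have h0 : ∀ c, pdv c (flat (MvPolynomial (Fin n) R) a b) = 0 := by
    intro c
    unfold pdv flat
    split_ifs
    · exact MvPolynomial.pderiv_one
    · exact map_zero _
  simp only [h0, mul_zero, Finset.sum_const_zero, zero_add]
  unfold flat
  simp only [mul_ite, mul_one, mul_zero, Finset.sum_ite_eq', Finset.sum_ite_eq,
    Finset.mem_univ, if_true]

theorem ogg_lie_add {R : Type} [CommRing R] (X : Fin n → MvPolynomial (Fin n) R)
    (H K : Fin n → Fin n → MvPolynomial (Fin n) R) (a b : Fin n) :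
    Lie X (fun i j => H i j + K i j) a b = Lie X H a b + Lie X K a b := by
  unfold Lie pdv
  simp only [map_add, mul_add, Finset.sum_add_distrib]
  ring

theorem ogg_lie_zero {R S : Type} [CommRing R] [CommRing S] (f : R →+* S)
    (X : Fin n → MvPolynomial (Fin n) R) (K : Fin n → Fin n → MvPolynomial (Fin n) R)
    (hK : ∀ a b, MvPolynomial.map f (K a b) = 0) (a b : Fin n) :
    MvPolynomial.map f (Lie X K a b) = 0 := by
  unfold Lie pdv
  simp only [map_add, map_sum, map_mul, ← MvPolynomial.pderiv_map, hK, map_zero, mul_zero,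
    Finset.sum_const_zero, add_zero]

theorem ogg_lieEta_map {R S : Type} [CommRing R] [CommRing S] (f : R →+* S)
    (X : Fin n → MvPolynomial (Fin n) R) (a b : Fin n) :
    lieEta (fun a => MvPolynomial.map f (X a)) a b = MvPolynomial.map f (lieEta X a b) := by
  unfold lieEta pdv
  rw [map_add, MvPolynomial.pderiv_map, MvPolynomial.pderiv_map]

theorem ogg_lieEta_symm {R : Type} [CommRing R] (X : Fin n → MvPolynomial (Fin n) R)
    (a b : Fin n) : lieEta X a b = lieEta X b a := by
  unfold lieEta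
  rw [add_comm]

theorem ogg_smul {R : Type} [CommRing R] [Algebra ℝ R] (t : ℝ) (p : MvPolynomial (Fin n) R) :
    t • p = MvPolynomial.C (algebraMap ℝ R t) * p := by
  rw [← MvPolynomial.smul_eq_C_mul, algebraMap_smul]

end ogg

theorem ogg_polar_zero {V R : Type} [CommRing R] (r : ℕ) (u : Fin r → V → R) :
    polar r (0 : MvPolynomial V R) u = 0 := by
  induction r with
  | zero => exact map_zero _
  | succ r ih =>
    show polar r (dd (u 0) 0) (Fin.tail u) = 0
    rw [map_zero]
    exact ih _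

theorem ogg_top {n r : ℕ} {p : MvPolynomial (JV n) ℝ} (hp : OrdGE r p)
    (H : Fin n → Fin n → MvPolynomial (Fin n) (SF (Fin r)))
    (hH : ∀ v, (J0 H v).c ∅ = 0) :
    (MvPolynomial.aeval (J0 H) p).c Finset.univ =
      polar r (MvPolynomial.map (algebraMap ℝ ℂ) p) (fun j v => (J0 H v).c {j}) := by
  classical
  have hord : ∀ s, OrdGE r ((Finsupp.single (0 : Multiset (Fin n)) p) s) := by
    intro s m hm
    by_cases hs : s = 0
    · subst hs
      rw [Finsupp.single_eq_same] at hm
      exact hp m hm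
    · rw [Finsupp.single_eq_of_ne hs] at hm
      simp at hm
  have h1 := bv_top (Φ := Finsupp.single (0 : Multiset (Fin n)) p) hord H hH 1
  have h2 : J0s (1 : MvPolynomial (Fin n) (SF (Fin r))) 0 = 1 := by
    unfold J0s
    rw [Multiset.toList_zero]
    exact map_one _
  unfold E0 at h1
  rw [Finsupp.sum_single_index, Finsupp.sum_single_index, h2, mul_one, SF.c_one, if_pos rfl,
    mul_one] at h1
  · exact h1
  · rw [map_zero, ogg_polar_zero, zero_mul]
  · rw [map_zero, zero_mul]

theorem ogg_J0s {n : ℕ} {R : Type} [CommRing R] (F : MvPolynomial (Fin n) R)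
    (s : Multiset (Fin n)) : J0s F s = oggP s.toList F := rfl

theorem og_gauge {n r : ℕ} {I : NatOp n} {N : ℕ} {Φ : OpPhi n}
    (hΦ : GoodOp n I N Φ) (ho : ∀ s, OrdGE r (Φ s)) (v : MvPolynomial (Fin n) ℂ)
    (h : Fin r → Mx n) (j : Fin r) (X : Fin n → MvPolynomial (Fin n) ℂ) :
    BV r Φ v (Function.update h j (lieEta X)) = 0 := by
  classical
  have hr : 1 ≤ r := by
    have := j.2
    omega
  set h0 : Fin r → Mx n := Function.update h j 0 with hh0
  have hh0j : h0 j = 0 := by rw [hh0, Function.update_self]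
  have hh0i : ∀ i, i ≠ j → h0 i = h i := fun i hi => by rw [hh0, Function.update_of_ne hi]
  set H := legs h0 with hH
  set X' : Fin n → MvPolynomial (Fin n) (SF (Fin r)) :=
    fun a => MvPolynomial.map (algebraMap ℂ (SF (Fin r))) (X a) with hX'
  set F : MvPolynomial (Fin n) (SF (Fin r)) := MvPolynomial.map (algebraMap ℂ (SF (Fin r))) v with hF
  -- the augmentation kills `H`
  have hHe : ∀ a b, MvPolynomial.map (oggEps (Fin r)) (H a b) = 0 := by
    intro a b
    rw [hH]
    unfold legs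
    rw [map_sum]
    refine Finset.sum_eq_zero fun i _ => ?_
    rw [map_mul, MvPolynomial.map_C, ogg_eps_gen, map_zero, zero_mul]
  obtain ⟨gi, hgi⟩ := sf_inverse H (by
    intro a b m
    show oggEps (Fin r) (MvPolynomial.coeff m (H a b)) = 0
    rw [← MvPolynomial.coeff_map, hHe, MvPolynomial.coeff_zero])
  -- nilpotency
  obtain ⟨J, hJ, hJmem⟩ := sf_ideal (n := n) (Finset.univ.erase j)
  have hcard : (Finset.univ.erase j).card + 1 = r := by
    rw [Finset.card_erase_of_mem (Finset.mem_univ j), Finset.card_univ, Fintype.card_fin]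
    omega
  rw [hcard] at hJ
  have hvan : Ejet Φ (fun i => pdv i) H F = 0 := by
    refine e_nil hJ ho (fun i => pdv i) H (fun v => ?_) F
    show Dw pdv v.2.2.toList (H v.1 v.2.1) ∈ J
    rw [hH]
    unfold legs
    rw [ogg_Dw_sum]
    refine Ideal.sum_mem _ fun i _ => ?_
    rw [ogg_Dw_C]
    by_cases hij : i = j
    · subst hij
      rw [hh0j]
      show MvPolynomial.C (SF.gen i) * Dw pdv v.2.2.toList (MvPolynomial.map _ (0 : MvPolynomial (Fin n) ℂ)) ∈ J
      rw [map_zero, ogg_Dw_zero, mul_zero]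
      exact J.zero_mem
    · exact hJmem i (Finset.mem_erase.2 ⟨hij, Finset.mem_univ i⟩) _
  have hcov := op_cov_inf hΦ (SF.gen j) (ogg_gen_sq j) X' H gi hgi F
  have hpd0 : ∀ a : Fin n, pdv a (0 : MvPolynomial (Fin n) (SF (Fin r))) = 0 := by
    intro a
    unfold pdv
    exact map_zero _
  rw [hvan] at hcov
  simp only [hpd0, mul_zero, Finset.sum_const_zero, add_zero] at hcov
  set F' : MvPolynomial (Fin n) (SF (Fin r)) :=
    F + MvPolynomial.C (SF.gen j) * ∑ a, X' a * pdv a F with hF'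
  set H' : Fin n → Fin n → MvPolynomial (Fin n) (SF (Fin r)) := fun i k => met H i k - flat _ i k
        + MvPolynomial.C (SF.gen j) * Lie X' (met H) i k with hH'
  have hzero : E0 Φ H' F' = 0 := by
    rw [e0_ejet, hcov, map_zero]
  -- decomposition of `H'`
  set K : Fin n → Fin n → MvPolynomial (Fin n) (SF (Fin r)) :=
    fun a b => (1 / 2 : ℝ) • (H a b + H b a) with hK
  have hKe : ∀ a b, MvPolynomial.map (oggEps (Fin r)) (K a b) = 0 := by
    intro a b
    rw [hK]
    show MvPolynomial.map (oggEps (Fin r)) ((1 / 2 : ℝ) • (H a b + H b a)) = 0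
    rw [ogg_smul, map_mul, map_add, hHe, hHe, add_zero, mul_zero]
  have hmet : met H = fun a b => flat (MvPolynomial (Fin n) (SF (Fin r))) a b + K a b := rfl
  have hdec : ∀ a b, H' a b = K a b + (MvPolynomial.C (SF.gen j) *
      MvPolynomial.map (algebraMap ℂ (SF (Fin r))) (lieEta X a b) +
      MvPolynomial.C (SF.gen j) * Lie X' K a b) := by
    intro a b
    show met H a b - flat _ a b + MvPolynomial.C (SF.gen j) * Lie X' (met H) a b = _
    rw [hmet, ogg_lie_add, ogg_lie_flat, hX', ogg_lieEta_map]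
    ring
  have hJ0 : ∀ v, J0 H' v = algebraMap ℝ (SF (Fin r)) (1 / 2) *
      (J0 H v + J0 H (v.2.1, v.1, v.2.2)) +
      (SF.gen j * algebraMap ℂ (SF (Fin r)) (J0 (lieEta X) v) +
        SF.gen j * J0 (Lie X' K) v) := by
    intro v
    rw [ogg_J0 H', hdec, oggP_add, oggP_add, oggP_C, oggP_C, oggP_map]
    congr 1
    show oggP _ ((1 / 2 : ℝ) • (H v.1 v.2.1 + H v.2.1 v.1)) = _
    rw [ogg_smul, oggP_C, oggP_add]
    rfl
  have hQ0 : ∀ v, (J0 (Lie X' K) v).c ∅ = 0 := by
    intro v
    show oggEps (Fin r) (J0 (Lie X' K) v) = 0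
    rw [ogg_J0, ← oggP_map, ogg_lie_zero _ _ _ hKe, oggP_zero]
  have hHleg : ∀ v, J0 H v = ∑ i, SF.gen i * algebraMap ℂ (SF (Fin r)) (J0 (h0 i) v) :=
    fun v => j0_legs h0 v
  have hhalf : ∀ (x : SF (Fin r)) (S : Finset (Fin r)),
      (algebraMap ℝ (SF (Fin r)) (1 / 2) * x).c S = (1 / 2 : ℂ) * x.c S := by
    intro x S
    rw [← Algebra.smul_def, SF.c_rsmul]
    push_cast
    rfl
  have hc : ∀ v i, (J0 H' v).c {i} = (1 / 2 : ℂ) * (J0 (h0 i) v + J0 (h0 i) (v.2.1, v.1, v.2.2)) +
      (if i = j then J0 (lieEta X) v else 0) := by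
    intro v i
    rw [hJ0, SF.c_add, SF.c_add, hhalf, SF.c_add, hHleg, hHleg, ogg_leg, ogg_leg, ogg_gen_alg,
      ogg_gen_mul, hQ0]
    simp
  have hgen0 : ∀ x : SF (Fin r), (SF.gen j * x).c ∅ = 0 := by
    intro x
    show oggEps (Fin r) (SF.gen j * x) = 0
    rw [map_mul, ogg_eps_gen, zero_mul]
  have hc0 : ∀ v, (J0 H' v).c ∅ = 0 := by
    intro v
    rw [hJ0, SF.c_add, SF.c_add, hhalf, SF.c_add, hHleg, hHleg, ogg_leg0, ogg_leg0, hgen0, hgen0]
    simp
  have hF0 : ∀ s, (J0s F' s).c ∅ = J0s v s := by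
    intro s
    rw [ogg_J0s, hF', oggP_add, oggP_C, SF.c_add, hgen0, add_zero, hF, oggP_map, ogg_alg]
    rfl
  have h1 := bv_top ho H' hc0 F'
  rw [hzero, SF.c_zero] at h1
  -- the unsymmetrised legs
  set h' : Fin r → Mx n := Function.update h j (lieEta X) with hh'
  set H2 := legs h' with hH2
  set H3 : Fin n → Fin n → MvPolynomial (Fin n) (SF (Fin r)) :=
    fun a b => (1 / 2 : ℝ) • (H2 a b + H2 b a) with hH3
  have hH2leg : ∀ v, J0 H2 v = ∑ i, SF.gen i * algebraMap ℂ (SF (Fin r)) (J0 (h' i) v) :=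
    fun v => j0_legs h' v
  have hH3J : ∀ v, J0 H3 v = (1 / 2 : ℝ) • (J0 H2 v + J0 H2 (v.2.1, v.1, v.2.2)) := by
    intro v
    show oggP _ ((1 / 2 : ℝ) • (H2 v.1 v.2.1 + H2 v.2.1 v.1)) = _
    rw [ogg_smul, oggP_C, oggP_add, Algebra.smul_def]
    rfl
  have hkey : ∀ s, polar r (MvPolynomial.map (algebraMap ℝ ℂ) (Φ s)) (fun i => J0 (h' i)) =
      polar r (MvPolynomial.map (algebraMap ℝ ℂ) (Φ s)) (fun i v => (J0 H' v).c {i}) := by
    intro s
    have h2 := ogg_top (ho s) H2 (fun v => by rw [hH2leg]; exact ogg_leg0 _)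
    have h3 : (fun (i : Fin r) (v : JV n) => (J0 H2 v).c {i}) = fun i => J0 (h' i) := by
      funext i v
      rw [hH2leg]
      exact ogg_leg (fun i => J0 (h' i) v) i
    rw [h3] at h2
    rw [← h2, ← hΦ.sym s (SF (Fin r)) (J0 H2)]
    have h5 : (fun v : JV n => (1 / 2 : ℝ) • (J0 H2 v + J0 H2 (v.2.1, v.1, v.2.2))) = J0 H3 := by
      funext v
      rw [hH3J]
    rw [h5]
    have h4 := ogg_top (ho s) H3 (by
      intro v
      rw [hH3J, SF.c_rsmul, SF.c_add, hH2leg, hH2leg, ogg_leg0, ogg_leg0]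
      simp)
    rw [h4]
    congr 1
    funext i v
    rw [hH3J, SF.c_rsmul, SF.c_add, hc, hH2leg, hH2leg]
    rw [ogg_leg (fun i => J0 (h' i) v) i, ogg_leg (fun i => J0 (h' i) (v.2.1, v.1, v.2.2)) i]
    by_cases hij : i = j
    · subst hij
      rw [if_pos rfl, hh0j]
      have e1 : h' i = lieEta X := by
        rw [hh', Function.update_self]
      have e2 : J0 (lieEta X) (v.2.1, v.1, v.2.2) = J0 (lieEta X) v := by
        rw [ogg_J0, ogg_J0]
        show oggP _ (lieEta X v.2.1 v.1) = _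
        rw [ogg_lieEta_symm]
      have e3 : ∀ v : JV n, J0 (0 : Mx n) v = 0 := fun v => oggP_zero _
      rw [e1, e2, e3, e3]
      push_cast
      ring
    · rw [if_neg hij, hh0i i hij]
      have e1 : h' i = h i := by
        rw [hh', Function.update_of_ne hij]
      rw [e1]
      push_cast
      ring
  unfold BV
  rw [Finsupp.sum] at h1 ⊢
  rw [h1]
  refine Finset.sum_congr rfl fun s _ => ?_
  rw [hF0, hkey]

end Z_og_gauge

alias og_gauge := Z_og_gauge.og_gauge

end CInv
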