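import Pool.Agent.Helper767.Gjms.Defs

set_option linter.all false

open scoped BigOperators

namespace CInv

namespace Z_poly_ext

theorem h400_c_exists {n : ℕ} {S : Type} [CommRing S] (δ : S → S) (h0 : δ 0 = 0) :
    ∃ c : MvPolynomial (Fin n) S → MvPolynomial (Fin n) S,
      ∀ p m, MvPolynomial.coeff m (c p) = δ (MvPolynomial.coeff m p) := by
  classical
  refine ⟨fun p => ∑ m ∈ p.support, MvPolynomial.monomial m (δ (MvPolynomial.coeff m p)), ?_⟩
  intro p m
  rw [MvPolynomial.coeff_sum]
  simp only [MvPolynomial.coeff_monomial]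
  rw [Finset.sum_ite_eq']
  split_ifs with h
  · rfl
  · rw [MvPolynomial.notMem_support_iff.mp h, h0]

theorem h400_pd_comm {n : ℕ} {S : Type} [CommRing S] (i j : Fin n)
    (p : MvPolynomial (Fin n) S) : MvPolynomial.pderiv i (MvPolynomial.pderiv j p) =
      MvPolynomial.pderiv j (MvPolynomial.pderiv i p) := by
  have h : ⁅(MvPolynomial.pderiv i : Derivation S (MvPolynomial (Fin n) S)
      (MvPolynomial (Fin n) S)), (MvPolynomial.pderiv j : Derivation S (MvPolynomial (Fin n) S)
      (MvPolynomial (Fin n) S))⁆ = 0 := by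
    apply MvPolynomial.derivation_ext
    intro k
    rw [Derivation.commutator_apply, MvPolynomial.pderiv_X, MvPolynomial.pderiv_X]
    by_cases hk : j = k <;> by_cases hk2 : i = k <;> simp [Pi.single_apply, hk, hk2]
  have h2 := congrArg (fun d : Derivation S (MvPolynomial (Fin n) S) (MvPolynomial (Fin n) S) =>
    d p) h
  simp only [Derivation.commutator_apply, Derivation.zero_apply] at h2
  exact sub_eq_zero.mp h2

theorem h400_poly {n : ℕ} {S K : Type} [CommRing S] [Algebra ℝ S] [CommRing K] (f : K →+* S)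
    {D : Fin n → S → S} (hD : IsDer D) (hDC : ∀ i z, D i (f z) = 0) :
    ∃ D' : Fin n → MvPolynomial (Fin n) S → MvPolynomial (Fin n) S, IsDer D' ∧
      (∀ i x, D' i (MvPolynomial.C x) = MvPolynomial.C (D i x)) ∧
      (∀ i (v : MvPolynomial (Fin n) K), D' i (MvPolynomial.map f v)
        = MvPolynomial.map f (pdv i v)) := by
  have hD0 : ∀ i, D i 0 = 0 := by
    intro i
    have h := hD.smul i 0 0
    rwa [zero_smul, zero_smul] at h
  have hD1 : ∀ i, D i 1 = 0 := by
    intro i
    have h := hD.mul i 1 1
    rw [mul_one, mul_one, one_mul] at h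
    exact left_eq_add.mp h
  have hDn : ∀ i (k : ℕ), D i (k : S) = 0 := by
    intro i k
    induction k with
    | zero => rw [Nat.cast_zero, hD0]
    | succ k ih => rw [Nat.cast_succ, hD.add, ih, hD1, add_zero]
  have hDs : ∀ i {α : Type} (s : Finset α) (F : α → S), D i (∑ a ∈ s, F a) = ∑ a ∈ s, D i (F a) := by
    intro i α s F
    classical
    induction s using Finset.induction_on with
    | empty => rw [Finset.sum_empty, Finset.sum_empty, hD0]
    | insert a s ha ih => rw [Finset.sum_insert ha, Finset.sum_insert ha, hD.add, ih]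
  have hex : ∀ i, ∃ c : MvPolynomial (Fin n) S → MvPolynomial (Fin n) S,
      ∀ p m, MvPolynomial.coeff m (c p) = D i (MvPolynomial.coeff m p) :=
    fun i => h400_c_exists (D i) (hD0 i)
  choose c hc using hex
  have cadd : ∀ i p q, c i (p + q) = c i p + c i q := by
    intro i p q
    ext m
    rw [hc, MvPolynomial.coeff_add, MvPolynomial.coeff_add, hc, hc, hD.add]
  have cmul : ∀ i p q, c i (p * q) = c i p * q + p * c i q := by
    intro i p q
    ext m
    rw [hc, MvPolynomial.coeff_mul, hDs, MvPolynomial.coeff_add, MvPolynomial.coeff_mul,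
      MvPolynomial.coeff_mul, ← Finset.sum_add_distrib]
    apply Finset.sum_congr rfl
    intro x _
    rw [hD.mul, hc, hc]
  have csmul : ∀ i (r : ℝ) p, c i (r • p) = r • c i p := by
    intro i r p
    ext m
    rw [hc, MvPolynomial.coeff_smul, hD.smul, MvPolynomial.coeff_smul, hc]
  have ccomm : ∀ i j p, c i (c j p) = c j (c i p) := by
    intro i j p
    ext m
    rw [hc, hc, hc, hc, hD.comm]
  have cmon : ∀ i m a, c i (MvPolynomial.monomial m a) = MvPolynomial.monomial m (D i a) := by
    classical
    intro i m a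
    ext m'
    rw [hc, MvPolynomial.coeff_monomial, MvPolynomial.coeff_monomial]
    split_ifs
    · rfl
    · rw [hD0]
  have cpd : ∀ i j p, c i (MvPolynomial.pderiv j p) = MvPolynomial.pderiv j (c i p) := by
    intro i j p
    induction p using MvPolynomial.induction_on' with
    | monomial u a =>
      rw [MvPolynomial.pderiv_monomial, cmon, cmon, MvPolynomial.pderiv_monomial, hD.mul, hDn,
        mul_zero, add_zero]
    | add p q hp hq =>
      rw [map_add, cadd, hp, hq, cadd, map_add]
  refine ⟨fun i p => MvPolynomial.pderiv i p + c i p, ⟨?_, ?_, ?_, ?_⟩, ?_, ?_⟩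
  · intro i a b
    show MvPolynomial.pderiv i (a + b) + c i (a + b) = (MvPolynomial.pderiv i a + c i a) +
      (MvPolynomial.pderiv i b + c i b)
    rw [map_add, cadd]
    ring
  · intro i a b
    show MvPolynomial.pderiv i (a * b) + c i (a * b) = (MvPolynomial.pderiv i a + c i a) * b +
      a * (MvPolynomial.pderiv i b + c i b)
    rw [Derivation.leibniz, cmul, smul_eq_mul, smul_eq_mul]
    ring
  · intro i r a
    show MvPolynomial.pderiv i (r • a) + c i (r • a) = r • (MvPolynomial.pderiv i a + c i a)
    rw [Derivation.map_smul_of_tower, csmul, smul_add]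
  · intro i j a
    show MvPolynomial.pderiv i (MvPolynomial.pderiv j a + c j a) +
      c i (MvPolynomial.pderiv j a + c j a) = MvPolynomial.pderiv j (MvPolynomial.pderiv i a + c i a) +
      c j (MvPolynomial.pderiv i a + c i a)
    rw [map_add, map_add, cadd, cadd, h400_pd_comm i j, cpd, cpd, ccomm i j]
    ring
  · intro i x
    show MvPolynomial.pderiv i (MvPolynomial.C x) + c i (MvPolynomial.C x) = MvPolynomial.C (D i x)
    rw [MvPolynomial.pderiv_C, zero_add]
    exact cmon i 0 x
  · intro i v
    show MvPolynomial.pderiv i (MvPolynomial.map f v) +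
      c i (MvPolynomial.map f v) = _
    have h0 : c i (MvPolynomial.map f v) = 0 := by
      ext m
      rw [hc, MvPolynomial.coeff_map, hDC, MvPolynomial.coeff_zero]
    rw [h0, add_zero, MvPolynomial.pderiv_map]
    rfl

theorem poly_ext {n : ℕ} {S : Type} [CommRing S] [Algebra ℝ S] [Algebra ℂ S]
    [IsScalarTower ℝ ℂ S] {D : Fin n → S → S} (hD : IsDer D)
    (hDC : ∀ i (z : ℂ) a, D i (z • a) = z • D i a) :
    ∃ D' : Fin n → MvPolynomial (Fin n) S → MvPolynomial (Fin n) S, IsDer D' ∧
      (∀ i x, D' i (MvPolynomial.C x) = MvPolynomial.C (D i x)) ∧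
      (∀ i (v : MvPolynomial (Fin n) ℂ), D' i (MvPolynomial.map (algebraMap ℂ S) v)
        = MvPolynomial.map (algebraMap ℂ S) (pdv i v)) := by
  refine h400_poly (algebraMap ℂ S) hD ?_
  intro i z
  have hD1 : D i 1 = 0 := by
    have h := hD.mul i 1 1
    rw [mul_one, mul_one, one_mul] at h
    exact left_eq_add.mp h
  rw [Algebra.algebraMap_eq_smul_one, hDC, hD1, smul_zero]

end Z_poly_ext

alias poly_ext := Z_poly_ext.poly_ext

end CInv
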