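import Pool.Agent.Helper767.Gjms.Defs
import Pool.Agent.Helper771.CInv.P_top_coef
import Pool.Agent.Helper771.CInv.P_nat_eval
import Pool.Agent.Helper771.CInv.P_dk_isder
import Pool.Agent.Helper771.CInv.P_ricci_flat
import Pool.Agent.Helper767.Gjms.P_e0_ejet
import Pool.Agent.Helper767.Gjms.P_bv_top
import Pool.Agent.Helper767.Gjms.P_poly_ext

set_option linter.all false

open scoped BigOperators

namespace CInv

namespace Z_og_onshell_gen

theorem og_dw_coef {n : ℕ} {ι : Type} [DecidableEq ι] (k : ι → Fin n → ℂ) (w : List (Fin n))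
    (x : SF ι) (S : Finset ι) :
    (Dw (SF.DK k) w x).c S = (w.map (fun a => ∑ i ∈ S, k i a)).prod * x.c S := by
  induction w with
  | nil => simp [Dw]
  | cons a w ih =>
    have h1 : (Dw (SF.DK k) (a :: w) x).c S = (∑ i ∈ S, k i a) * (Dw (SF.DK k) w x).c S := rfl
    rw [h1, ih, List.map_cons, List.prod_cons]
    ring

theorem og_dw_C {n : ℕ} {S : Type} [CommRing S] {D : Fin n → S → S}
    {D' : Fin n → MvPolynomial (Fin n) S → MvPolynomial (Fin n) S}
    (hC : ∀ i x, D' i (MvPolynomial.C x) = MvPolynomial.C (D i x)) (w : List (Fin n)) (x : S) :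
    Dw D' w (MvPolynomial.C x) = MvPolynomial.C (Dw D w x) := by
  induction w with
  | nil => rfl
  | cons a w ih =>
    show D' a (Dw D' w (MvPolynomial.C x)) = MvPolynomial.C (D a (Dw D w x))
    rw [ih, hC]

theorem og_dw_map {n : ℕ} {S : Type} [CommRing S] [Algebra ℂ S]
    {D' : Fin n → MvPolynomial (Fin n) S → MvPolynomial (Fin n) S}
    (hM : ∀ i (v : MvPolynomial (Fin n) ℂ), D' i (MvPolynomial.map (algebraMap ℂ S) v)
        = MvPolynomial.map (algebraMap ℂ S) (pdv i v)) (w : List (Fin n))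
    (v : MvPolynomial (Fin n) ℂ) :
    Dw D' w (MvPolynomial.map (algebraMap ℂ S) v) =
      MvPolynomial.map (algebraMap ℂ S) (Dw pdv w v) := by
  induction w with
  | nil => rfl
  | cons a w ih =>
    show D' a (Dw D' w (MvPolynomial.map (algebraMap ℂ S) v)) =
      MvPolynomial.map (algebraMap ℂ S) (pdv a (Dw pdv w v))
    rw [ih, hM]

theorem og_onshell_gen {n r : ℕ} {I : NatOp n} {N : ℕ} {Φ : OpPhi n}
    (hΦ : GoodOp n I N Φ) (hI : OnShell I) (ho : ∀ s, OrdGE r (Φ s))
    (v : MvPolynomial (Fin n) ℂ)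
    (k e : Fin r → Fin n → ℂ) (h1 : ∀ i, dot (k i) (k i) = 0)
    (h2 : ∀ i, dot (k i) (e i) = 0) (h3 : ∀ i, dot (e i) (e i) = 0)
    (hS : ∀ S : Finset (Fin r), 2 ≤ S.card → ∑ a, (∑ i ∈ S, k i a) ^ 2 ≠ 0) :
    (Φ.sum fun s p => polar r (MvPolynomial.map (algebraMap ℝ ℂ) p)
      (fun i (u : JV n) => e i u.1 * e i u.2.1 * (u.2.2.map (k i)).prod) * J0s v s) = 0 :=  by
  classical
  obtain ⟨H, gi, hsym, hempty, hsing, hmet, hric⟩ := ricci_flat k e h1 h2 h3 hS
  obtain ⟨hD, hDC⟩ := dk_isder (ι := Fin r) k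
  obtain ⟨D', hD', hC, hM⟩ := poly_ext (S := SF (Fin r)) hD hDC
  have hCs : ∀ (t : ℝ) (x : SF (Fin r)),
      (MvPolynomial.C (t • x) : MvPolynomial (Fin n) (SF (Fin r))) = t • MvPolynomial.C x := by
    intro t x
    have h := map_smul (IsScalarTower.toAlgHom ℝ (SF (Fin r)) (MvPolynomial (Fin n) (SF (Fin r)))) t x
    exact h
  have hRel : RelHom (SF.DK k) D'
      (fun (a : SF (Fin r)) (b : MvPolynomial (Fin n) (SF (Fin r))) => b = MvPolynomial.C a) := by
    refine ⟨?_, ?_, ?_, ?_, ?_⟩
    · exact (map_one MvPolynomial.C).symm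
    · rintro a a' b b' rfl rfl
      exact (map_add MvPolynomial.C a a').symm
    · rintro a a' b b' rfl rfl
      exact (map_mul MvPolynomial.C a a').symm
    · rintro t a b rfl
      exact (hCs t a).symm
    · rintro i a b rfl
      exact hC i a
  have hmetC : ∀ i j, met (fun i j => (MvPolynomial.C (H i j) : MvPolynomial (Fin n) (SF (Fin r)))) i j
      = MvPolynomial.C (met H i j) := by
    intro i j
    unfold met flat
    rw [map_add, hCs, map_add]
    congr 1
    split_ifs
    · exact (map_one MvPolynomial.C).symm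
    · exact (map_zero MvPolynomial.C).symm
  have hmet' : IsMetric (met (fun i j => (MvPolynomial.C (H i j) : MvPolynomial (Fin n) (SF (Fin r)))))
      (fun i j => MvPolynomial.C (gi i j)) := by
    refine ⟨?_, ?_⟩
    · intro i j
      rw [hmetC, hmetC, hmet.symm]
    · intro i j
      have h := hmet.inv i j
      have h' := congrArg (MvPolynomial.C (σ := Fin n)) h
      rw [map_sum] at h'
      calc ∑ k, met (fun i j => (MvPolynomial.C (H i j) : MvPolynomial (Fin n) (SF (Fin r)))) i k *
            MvPolynomial.C (gi k j) = ∑ k, MvPolynomial.C (met H i k * gi k j) := by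
            refine Finset.sum_congr rfl fun k _ => ?_
            rw [hmetC, map_mul]
        _ = _ := by
            rw [h']
            split_ifs
            · exact map_one MvPolynomial.C
            · exact map_zero MvPolynomial.C
  have hric' : ∀ i j, ric D' (met (fun i j => (MvPolynomial.C (H i j) :
      MvPolynomial (Fin n) (SF (Fin r))))) (fun i j => MvPolynomial.C (gi i j)) i j = 0 := by
    intro i j
    have h := (nat_eval hRel (gA := met H) (giA := gi)
      (gB := met (fun i j => (MvPolynomial.C (H i j) : MvPolynomial (Fin n) (SF (Fin r)))))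
      (giB := fun i j => MvPolynomial.C (gi i j)) hmetC (fun i j => rfl) 0).1 i j
    rw [h, hric, map_zero]
  have hos := hI (MvPolynomial (Fin n) (SF (Fin r))) D' hD' _ _ hmet' hric'
    (MvPolynomial.map (algebraMap ℂ (SF (Fin r))) v)
  have halg := hΦ.alg (MvPolynomial (Fin n) (SF (Fin r))) D' hD'
    (fun i j => MvPolynomial.C (H i j)) _ hmet' (MvPolynomial.map (algebraMap ℂ (SF (Fin r))) v)
  rw [hos, mul_zero] at halg
  have hjet : jet D' (fun i j => (MvPolynomial.C (H i j) : MvPolynomial (Fin n) (SF (Fin r)))) =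
      fun u => MvPolynomial.C (jet (SF.DK k) H u) := by
    funext u
    exact og_dw_C hC _ _
  have haev : ∀ p : MvPolynomial (JV n) ℝ,
      MvPolynomial.aeval (fun u => (MvPolynomial.C (jet (SF.DK k) H u) :
        MvPolynomial (Fin n) (SF (Fin r)))) p =
      MvPolynomial.C (MvPolynomial.aeval (jet (SF.DK k) H) p) := by
    intro p
    have h := MvPolynomial.comp_aeval_apply (R := ℝ) (jet (SF.DK k) H)
      (IsScalarTower.toAlgHom ℝ (SF (Fin r)) (MvPolynomial (Fin n) (SF (Fin r)))) p
    exact h.symm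
  have hsum : Φ.sum (fun s p => MvPolynomial.aeval (jet (SF.DK k) H) p *
      algebraMap ℂ (SF (Fin r)) (J0s v s)) = 0 := by
    have h := congrArg MvPolynomial.constantCoeff halg
    unfold Ejet at h
    rw [map_zero, Finsupp.sum, map_sum] at h
    rw [Finsupp.sum, ← h]
    refine Finset.sum_congr rfl fun s _ => ?_
    rw [hjet, haev, map_mul, MvPolynomial.constantCoeff_C]
    congr 1
    unfold Ds J0s
    rw [og_dw_map hM, MvPolynomial.constantCoeff_map]
  have hc := congrArg (fun x : SF (Fin r) => SF.cl Finset.univ x) hsum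
  simp only [map_zero] at hc
  rw [Finsupp.sum, map_sum] at hc
  rw [Finsupp.sum, ← hc]
  refine Finset.sum_congr rfl fun s _ => ?_
  have hmul : ∀ (x : SF (Fin r)) (z : ℂ), SF.cl Finset.univ (x * algebraMap ℂ (SF (Fin r)) z) =
      x.c Finset.univ * z := by
    intro x z
    rw [mul_comm, ← Algebra.smul_def, map_smul, smul_eq_mul, mul_comm]
    rfl
  rw [hmul]
  have hy : ∀ u : JV n, (jet (SF.DK k) H u).c ∅ = 0 := by
    intro u
    unfold jet Ds
    rw [og_dw_coef, hempty, mul_zero]
  rw [top_coef (ho s) (jet (SF.DK k) H) hy]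
  congr 2
  funext j u
  unfold jet Ds
  rw [og_dw_coef, hsing]
  have hl : (u.2.2.toList.map (fun a => ∑ i ∈ ({j} : Finset (Fin r)), k i a)).prod
      = (u.2.2.map (k j)).prod := by
    simp only [Finset.sum_singleton]
    conv_rhs => rw [← Multiset.coe_toList u.2.2]
    rw [Multiset.map_coe, Multiset.prod_coe]
  rw [hl]
  ring

end Z_og_onshell_gen

alias og_onshell_gen := Z_og_onshell_gen.og_onshell_gen

end CInv
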