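import Pool.Agent.Helper767.Gjms.Defs
import Pool.Agent.Helper771.CInv.P_polar_multilin
import Pool.Agent.Helper767.Gjms.P_og_onshell_gen
import Pool.Agent.Helper767.Gjms.P_on_scale

set_option linter.all false

open scoped BigOperators

namespace CInv

namespace Z_og_onshell

theorem og_polar_lin {V R ι : Type} [CommRing R] (S : Finset ι) (z : ι → R) (r : ℕ) :
    ∀ (q : ι → MvPolynomial V R) (u : Fin r → V → R),
      polar r (∑ s ∈ S, MvPolynomial.C (z s) * q s) u = ∑ s ∈ S, polar r (q s) u * z s := by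
  induction r with
  | zero =>
    intro q u
    simp only [polar, map_sum, map_mul, MvPolynomial.constantCoeff_C]
    exact Finset.sum_congr rfl fun s _ => mul_comm _ _
  | succ r ih =>
    intro q u
    have h1 : dd (u 0) (∑ s ∈ S, MvPolynomial.C (z s) * q s)
        = ∑ s ∈ S, MvPolynomial.C (z s) * dd (u 0) (q s) := by
      rw [map_sum]
      refine Finset.sum_congr rfl fun s _ => ?_
      rw [← MvPolynomial.smul_eq_C_mul, ← MvPolynomial.smul_eq_C_mul, Derivation.map_smul]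
    show polar r (dd (u 0) (∑ s ∈ S, MvPolynomial.C (z s) * q s)) (Fin.tail u)
      = ∑ s ∈ S, polar r (dd (u 0) (q s)) (Fin.tail u) * z s
    rw [h1, ih]

theorem og_onshell {n r : ℕ} {I : NatOp n} {N : ℕ} {Φ : OpPhi n}
    (hΦ : GoodOp n I N Φ) (hI : OnShell I) (ho : ∀ s, OrdGE r (Φ s))
    (v : MvPolynomial (Fin n) ℂ)
    (k e : Fin r → Fin n → ℂ) (h1 : ∀ i, dot (k i) (k i) = 0)
    (h2 : ∀ i, dot (k i) (e i) = 0) (h3 : ∀ i, dot (e i) (e i) = 0)
    (h4 : ∀ i j, i ≠ j → dot (k i) (k j) ≠ 0) (a : Fin r → ℕ) :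
    BV r Φ v (fun i => tens (lin (k i) ^ a i) (e i) (e i)) = 0 := by
  have hB : ∀ u : Fin r → JV n → ℂ,
      polar r (∑ s ∈ Φ.support, MvPolynomial.C (J0s v s) *
        MvPolynomial.map (algebraMap ℝ ℂ) (Φ s)) u
      = Φ.sum fun s p => polar r (MvPolynomial.map (algebraMap ℝ ℂ) p) u * J0s v s := by
    intro u
    rw [og_polar_lin]
    rfl
  have h := on_scale (∑ s ∈ Φ.support, MvPolynomial.C (J0s v s) *
        MvPolynomial.map (algebraMap ℝ ℂ) (Φ s)) (by
    intro k' e' g1 g2 g3 hS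
    rw [hB]
    exact og_onshell_gen hΦ hI ho v k' e' g1 g2 g3 hS) k e h1 h2 h3 h4 a
  rw [hB] at h
  exact h

end Z_og_onshell

alias og_onshell := Z_og_onshell.og_onshell

end CInv
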