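import Pool.Agent.Helper767.Gjms.Defs
import Pool.Agent.Helper767.Gjms.P_bv_top
import Pool.Agent.Helper767.Gjms.P_bv_legs

set_option linter.all false

open scoped BigOperators

namespace CInv

namespace Z_og_transp

theorem og_transp_Dw_add {n : ℕ} {R : Type} [CommRing R] (w : List (Fin n))
    (p q : MvPolynomial (Fin n) R) :
    Dw pdv w (p + q) = Dw pdv w p + Dw pdv w q := by
  induction w with
  | nil => rfl
  | cons i w ih =>
    show pdv i (Dw pdv w (p + q)) = pdv i (Dw pdv w p) + pdv i (Dw pdv w q)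
    rw [ih]
    unfold pdv
    rw [map_add]

theorem og_transp_J0_add {n : ℕ} {R : Type} [CommRing R]
    (H : Fin n → Fin n → MvPolynomial (Fin n) R) (v : JV n) :
    J0 H v + J0 H (v.2.1, v.1, v.2.2) =
      MvPolynomial.constantCoeff (Dw pdv v.2.2.toList (H v.1 v.2.1 + H v.2.1 v.1)) := by
  rw [og_transp_Dw_add, map_add]
  rfl

theorem og_transp_legs {n r : ℕ} (h1 h2 : Fin r → Mx n)
    (h : ∀ i a b, h1 i a b + h1 i b a = h2 i a b + h2 i b a) (v : JV n) :
    J0 (legs h1) v + J0 (legs h1) (v.2.1, v.1, v.2.2)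
      = J0 (legs h2) v + J0 (legs h2) (v.2.1, v.1, v.2.2) := by
  rw [og_transp_J0_add, og_transp_J0_add]
  congr 2
  unfold legs
  rw [← Finset.sum_add_distrib, ← Finset.sum_add_distrib]
  refine Finset.sum_congr rfl fun i _ => ?_
  rw [← mul_add, ← mul_add, ← map_add, ← map_add, h]

theorem og_transp_eq {n r : ℕ} {I : NatOp n} {N : ℕ} {Φ : OpPhi n}
    (hΦ : GoodOp n I N Φ) (ho : ∀ s, OrdGE r (Φ s)) (v : MvPolynomial (Fin n) ℂ)
    (h1 h2 : Fin r → Mx n)
    (h : ∀ i a b, h1 i a b + h1 i b a = h2 i a b + h2 i b a) :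
    BV r Φ v h1 = BV r Φ v h2 := by
  have e : (fun v : JV n => (1 / 2 : ℝ) • (J0 (legs h1) v + J0 (legs h1) (v.2.1, v.1, v.2.2)))
      = (fun v : JV n => (1 / 2 : ℝ) • (J0 (legs h2) v + J0 (legs h2) (v.2.1, v.1, v.2.2))) := by
    funext w
    rw [og_transp_legs h1 h2 h]
  have hp : ∀ s : Multiset (Fin n), MvPolynomial.aeval (J0 (legs h1)) (Φ s)
      = MvPolynomial.aeval (J0 (legs h2)) (Φ s) := fun s =>
    (hΦ.sym s (SF (Fin r)) (J0 (legs h1))).symm.trans
      ((congrArg (fun y : JV n → SF (Fin r) => MvPolynomial.aeval y (Φ s)) e).trans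
        (hΦ.sym s (SF (Fin r)) (J0 (legs h2))))
  have hE : E0 Φ (legs h1) (MvPolynomial.map (algebraMap ℂ (SF (Fin r))) v)
      = E0 Φ (legs h2) (MvPolynomial.map (algebraMap ℂ (SF (Fin r))) v) :=
    Finset.sum_congr rfl fun s _ => congrArg (fun t => t * _) (hp s)
  exact (bv_legs ho h1 v).symm.trans
    ((congrArg (fun t : SF (Fin r) => t.c Finset.univ) hE).trans (bv_legs ho h2 v))

theorem og_transp {n r : ℕ} {I : NatOp n} {N : ℕ} {Φ : OpPhi n}
    (hΦ : GoodOp n I N Φ) (ho : ∀ s, OrdGE r (Φ s)) (v : MvPolynomial (Fin n) ℂ)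
    (h : Fin r → Mx n) (j : Fin r) (y : Mx n) :
    BV r Φ v (Function.update h j (fun a b => y b a)) = BV r Φ v (Function.update h j y) := by
  refine og_transp_eq hΦ ho v _ _ fun i a b => ?_
  by_cases hij : i = j
  · subst hij
    rw [Function.update_self, Function.update_self]
    exact add_comm _ _
  · rw [Function.update_of_ne hij, Function.update_of_ne hij]

end Z_og_transp

alias og_transp := Z_og_transp.og_transp

end CInv
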