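import Pool.Agent.Helper767.Gjms.Defs
import Pool.Agent.Helper771.CInv.P_sf_ideal
import Pool.Agent.Helper771.CInv.P_j0_legs
import Pool.Agent.Helper771.CInv.P_sf_inverse
import Pool.Agent.Helper771.CInv.P_pdv_isder
import Pool.Agent.Helper767.Gjms.P_e0_ejet
import Pool.Agent.Helper767.Gjms.P_e_nil
import Pool.Agent.Helper767.Gjms.P_bv_top
import Pool.Agent.Helper767.Gjms.P_bv_legs

set_option linter.all false

open scoped BigOperators

namespace CInv

namespace Z_og_weyl

section ogwaux

variable {ι : Type} [DecidableEq ι]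

theorem og_weyl_gen_mul (i : ι) (x : SF ι) (S : Finset ι) :
    (SF.gen i * x).c S = if i ∈ S then x.c (S.erase i) else 0 := by
  rw [SF.c_mul]
  by_cases h : i ∈ S
  · rw [if_pos h, Finset.sum_eq_single {i}]
    · simp only [SF.gen, if_true, one_mul]
      rw [Finset.erase_eq]
    · intro T _ hT
      simp only [SF.gen, if_neg hT, zero_mul]
    · intro h'
      exact absurd (Finset.mem_powerset.2 (Finset.singleton_subset_iff.2 h)) h'
  · rw [if_neg h]
    refine Finset.sum_eq_zero fun T hT => ?_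
    have : T ≠ {i} := by
      rintro rfl
      exact h (Finset.singleton_subset_iff.1 (Finset.mem_powerset.1 hT))
    simp only [SF.gen, if_neg this, zero_mul]

theorem og_weyl_sum (κ : Type) (t : Finset κ) (x : κ → SF ι) (S : Finset ι) :
    (∑ k ∈ t, x k).c S = ∑ k ∈ t, (x k).c S :=
  map_sum (SF.cl S) x t

theorem og_weyl_gen_sq (i : ι) : SF.gen i * SF.gen i = (0 : SF ι) := by
  ext S
  rw [og_weyl_gen_mul, SF.c_zero]
  by_cases h : i ∈ S
  · rw [if_pos h]
    simp only [SF.gen]
    rw [if_neg]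
    intro h'
    have : i ∈ S.erase i := by rw [h']; exact Finset.mem_singleton_self i
    exact Finset.notMem_erase i S this
  · rw [if_neg h]

end ogwaux

/-- iterated derivatives as a linear map -/
noncomputable def og_weyl_D {n : ℕ} {R : Type} [CommRing R] :
    List (Fin n) → (MvPolynomial (Fin n) R →ₗ[R] MvPolynomial (Fin n) R)
  | [] => LinearMap.id
  | i :: w => (MvPolynomial.pderiv i : Derivation R (MvPolynomial (Fin n) R)
      (MvPolynomial (Fin n) R)).toLinearMap.comp (og_weyl_D w)

theorem og_weyl_Dw {n : ℕ} {R : Type} [CommRing R] (w : List (Fin n))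
    (p : MvPolynomial (Fin n) R) : Dw pdv w p = og_weyl_D w p := by
  induction w with
  | nil => rfl
  | cons i w ih =>
    show pdv i (Dw pdv w p) = _
    rw [ih]
    rfl

theorem og_weyl_Cmul {n : ℕ} {R : Type} [CommRing R] (w : List (Fin n)) (c : R)
    (p : MvPolynomial (Fin n) R) :
    og_weyl_D w (MvPolynomial.C c * p) = MvPolynomial.C c * og_weyl_D w p := by
  rw [← MvPolynomial.smul_eq_C_mul, map_smul, MvPolynomial.smul_eq_C_mul]

theorem og_weyl_half {n : ℕ} {R : Type} [CommRing R] [Algebra ℝ R] (w : List (Fin n)) (c : ℝ)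
    (p : MvPolynomial (Fin n) R) :
    og_weyl_D w (c • p) = c • og_weyl_D w p := by
  have e : ∀ q : MvPolynomial (Fin n) R, c • q = MvPolynomial.C (algebraMap ℝ R c) * q := by
    intro q
    rw [Algebra.smul_def]
    rfl
  rw [e, e, og_weyl_Cmul]

theorem og_weyl_cc_half {n : ℕ} {R : Type} [CommRing R] [Algebra ℝ R] (c : ℝ)
    (p : MvPolynomial (Fin n) R) :
    MvPolynomial.constantCoeff (c • p) = c • MvPolynomial.constantCoeff p := by
  have e : ∀ q : MvPolynomial (Fin n) R, c • q = MvPolynomial.C (algebraMap ℝ R c) * q := by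
    intro q
    rw [Algebra.smul_def]
    rfl
  rw [e, map_mul, MvPolynomial.constantCoeff_C, Algebra.smul_def]

theorem og_weyl {n r : ℕ} {I : NatOp n} {N : ℕ} {Φ : OpPhi n}
    (hΦ : GoodOp n I N Φ) (hC : ConfPhiI n N Φ) (ho : ∀ s, OrdGE r (Φ s))
    (v : MvPolynomial (Fin n) ℂ) (h : Fin r → Mx n) (j : Fin r) (f : MvPolynomial (Fin n) ℂ) :
    BV r Φ v (Function.update h j (fun a b => if a = b then f else 0)) = 0 := by
  classical
  -- the ingredients
  set fd : Mx n := fun a b => if a = b then f else 0 with hfd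
  set h1 : Fin r → Mx n := Function.update h j fd with hh1
  set h0 : Fin r → Mx n := Function.update h j 0 with hh0
  set H : Fin n → Fin n → MvPolynomial (Fin n) (SF (Fin r)) := legs h0 with hH
  set F : MvPolynomial (Fin n) (SF (Fin r)) :=
    MvPolynomial.map (algebraMap ℂ (SF (Fin r))) f with hF
  set V : MvPolynomial (Fin n) (SF (Fin r)) :=
    MvPolynomial.map (algebraMap ℂ (SF (Fin r))) v with hV
  have hrpos : 0 < r := j.pos
  -- step 1
  obtain ⟨J, hI, hIm⟩ := sf_ideal (n := n) (ι := Fin r) (Finset.univ.erase j)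
  have hcard : (Finset.univ.erase j).card + 1 = r := by
    rw [Finset.card_erase_of_mem (Finset.mem_univ j), Finset.card_univ, Fintype.card_fin]
    omega
  rw [hcard] at hI
  have hHexp : ∀ a b, H a b = ∑ i, MvPolynomial.C (SF.gen i)
      * MvPolynomial.map (algebraMap ℂ (SF (Fin r))) (h0 i a b) := fun a b => rfl
  have hh0j : h0 j = 0 := by rw [hh0, Function.update_self]
  have hz1 : Ejet Φ (fun i => pdv i) H V = 0 := by
    refine e_nil hI ho _ _ (fun v => ?_) V
    show Dw (fun i => pdv i) v.2.2.toList (H v.1 v.2.1) ∈ J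
    have e : Dw (fun i => pdv i) v.2.2.toList (H v.1 v.2.1)
        = og_weyl_D v.2.2.toList (H v.1 v.2.1) := og_weyl_Dw _ _
    rw [e, hHexp, map_sum]
    refine J.sum_mem fun i _ => ?_
    rw [og_weyl_Cmul]
    by_cases hi : i = j
    · subst hi
      rw [hh0j]
      have : (0 : Mx n) v.1 v.2.1 = 0 := rfl
      rw [this, map_zero, map_zero, mul_zero]
      exact J.zero_mem
    · exact hIm i (Finset.mem_erase.2 ⟨hi, Finset.mem_univ i⟩) _
  have hz2 : E0 Φ H V = 0 := by
    rw [e0_ejet, hz1, map_zero]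
  -- step 2
  obtain ⟨gi, hgi⟩ := sf_inverse H (by
    intro a b m
    rw [hHexp, MvPolynomial.coeff_sum, og_weyl_sum]
    refine Finset.sum_eq_zero fun i _ => ?_
    rw [MvPolynomial.coeff_C_mul, og_weyl_gen_mul, if_neg (Finset.notMem_empty i)])
  have hz3 := hC (SF (Fin r)) (SF.gen j) (og_weyl_gen_sq j) H gi hgi F V
  rw [hz2, mul_zero] at hz3
  -- step 3
  set K : Fin n → Fin n → MvPolynomial (Fin n) (SF (Fin r)) :=
    (fun a b => (1 + MvPolynomial.C (SF.gen j) * F) * met H a b - flat _ a b) with hK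
  set L : Fin n → Fin n → MvPolynomial (Fin n) (SF (Fin r)) :=
    (fun a b => (1 / 2 : ℝ) • (legs h1 a b + legs h1 b a)) with hL
  have hlegs : ∀ a b, legs h1 a b = MvPolynomial.C (SF.gen j)
      * MvPolynomial.map (algebraMap ℂ (SF (Fin r))) (fd a b) + H a b := by
    intro a b
    have e : legs h1 a b - H a b = MvPolynomial.C (SF.gen j)
      * MvPolynomial.map (algebraMap ℂ (SF (Fin r))) (fd a b) := by
      rw [hHexp]
      show (∑ i, MvPolynomial.C (SF.gen i)
        * MvPolynomial.map (algebraMap ℂ (SF (Fin r))) (h1 i a b)) - _ = _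
      rw [← Finset.sum_sub_distrib, Finset.sum_eq_single j]
      · have e1 : h1 j a b = fd a b := by rw [hh1, Function.update_self]
        have e2 : h0 j a b = 0 := by rw [hh0j]; rfl
        rw [e1, e2, map_zero, mul_zero, sub_zero]
      · intro i _ hi
        have e1 : h1 i = h i := by rw [hh1, Function.update_of_ne hi]
        have e2 : h0 i = h i := by rw [hh0, Function.update_of_ne hi]
        rw [e1, e2, sub_self]
      · intro hj
        exact absurd (Finset.mem_univ j) hj
    rw [← e]; ring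
  have hhalf : (algebraMap ℝ (MvPolynomial (Fin n) (SF (Fin r))) (1 / 2)) * 2 = 1 := by
    have e : (2 : MvPolynomial (Fin n) (SF (Fin r)))
        = algebraMap ℝ (MvPolynomial (Fin n) (SF (Fin r))) 2 := by
      rw [map_ofNat]
    rw [e, ← map_mul]
    norm_num
  have hKexp : ∀ a b, K a b = L a b
      + MvPolynomial.C (SF.gen j) * (F * ((1 / 2 : ℝ) • (H a b + H b a))) := by
    intro a b
    simp only [hL]
    rw [hlegs, hlegs]
    simp only [hK, met, flat, hfd, Algebra.smul_def]
    by_cases hab : a = b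
    · subst hab
      simp only [if_true]
      linear_combination (-(MvPolynomial.C (SF.gen j) * F)) * hhalf
    · have hba : ¬ b = a := fun h => hab h.symm
      simp only [if_neg hab, if_neg hba, map_zero, mul_zero]
      ring
  have hJ0 : ∀ (Z : Fin n → Fin n → MvPolynomial (Fin n) (SF (Fin r))) (w : JV n),
      J0 Z w = MvPolynomial.constantCoeff (og_weyl_D w.2.2.toList (Z w.1 w.2.1)) := by
    intro Z w
    unfold J0
    rw [og_weyl_Dw]
  have hJL : ∀ w : JV n, J0 L w
      = (1 / 2 : ℝ) • (J0 (legs h1) w + J0 (legs h1) (w.2.1, w.1, w.2.2)) := by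
    intro w
    rw [hJ0, hJ0, hJ0]
    simp only [hL]
    rw [og_weyl_half, og_weyl_cc_half, map_add, map_add]
  have hJK : ∀ w : JV n, ∃ z : SF (Fin r), z.c ∅ = 0 ∧ J0 K w = J0 L w + SF.gen j * z := by
    intro w
    refine ⟨MvPolynomial.constantCoeff (og_weyl_D w.2.2.toList
      (F * ((1 / 2 : ℝ) • (H w.1 w.2.1 + H w.2.1 w.1)))), ?_, ?_⟩
    · have e : F * ((1 / 2 : ℝ) • (H w.1 w.2.1 + H w.2.1 w.1))
          = ∑ i, MvPolynomial.C (SF.gen i) * (F * ((1 / 2 : ℝ) •
            (MvPolynomial.map (algebraMap ℂ (SF (Fin r))) (h0 i w.1 w.2.1)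
            + MvPolynomial.map (algebraMap ℂ (SF (Fin r))) (h0 i w.2.1 w.1)))) := by
        rw [hHexp, hHexp, ← Finset.sum_add_distrib]
        simp only [Algebra.smul_def, Finset.mul_sum]
        refine Finset.sum_congr rfl fun i _ => ?_
        ring
      rw [e, map_sum, map_sum, og_weyl_sum]
      refine Finset.sum_eq_zero fun i _ => ?_
      rw [og_weyl_Cmul, map_mul, MvPolynomial.constantCoeff_C, og_weyl_gen_mul,
        if_neg (Finset.notMem_empty i)]
    · rw [hJ0, hJ0, hKexp, map_add, map_add, og_weyl_Cmul, map_mul,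
        MvPolynomial.constantCoeff_C]
  have hc1 : ∀ (w : JV n) (S : Finset (Fin r)), S.card ≤ 1 → (J0 K w).c S = (J0 L w).c S := by
    intro w S hS
    obtain ⟨z, hz, e⟩ := hJK w
    rw [e, SF.c_add, og_weyl_gen_mul]
    by_cases hj : j ∈ S
    · rw [if_pos hj]
      have : S.erase j = ∅ := by
        rw [← Finset.card_eq_zero, Finset.card_erase_of_mem hj]
        omega
      rw [this, hz, add_zero]
    · rw [if_neg hj, add_zero]
  have hye : ∀ w, (J0 (legs h1) w).c ∅ = 0 := by
    intro w
    rw [j0_legs, og_weyl_sum]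
    exact Finset.sum_eq_zero fun i _ => by
      rw [og_weyl_gen_mul, if_neg (Finset.notMem_empty i)]
  have hse : ∀ w : JV n, (J0 L w).c ∅ = 0 := by
    intro w
    rw [hJL, SF.c_rsmul, SF.c_add, hye, hye, add_zero, mul_zero]
  have t1 := bv_top ho K (fun w => by rw [hc1 w ∅ (by simp)]; exact hse w) V
  have t2 := bv_top ho L hse V
  have e12 : (fun (k : Fin r) (w : JV n) => (J0 K w).c {k})
      = (fun (k : Fin r) (w : JV n) => (J0 L w).c {k}) := by
    funext k w
    exact hc1 w {k} (by simp)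
  have e3 : E0 Φ (legs h1) V = E0 Φ L V := by
    unfold E0
    refine Finset.sum_congr rfl fun s _ => ?_
    have e4 : (J0 L : JV n → SF (Fin r)) = fun w : JV n =>
        (1 / 2 : ℝ) • (J0 (legs h1) w + J0 (legs h1) (w.2.1, w.1, w.2.2)) := by
      funext w
      exact hJL w
    show MvPolynomial.aeval (J0 (legs h1)) (Φ s) * J0s V s
      = MvPolynomial.aeval (J0 L) (Φ s) * J0s V s
    rw [e4, hΦ.sym s (SF (Fin r)) (J0 (legs h1))]
  rw [← bv_legs ho h1 v]
  show (E0 Φ (legs h1) V).c Finset.univ = 0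
  rw [e3, t2, ← e12, ← t1, hz3]
  rfl

end Z_og_weyl

alias og_weyl := Z_og_weyl.og_weyl

end CInv
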