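import Pool.Agent.Helper767.Gjms.Defs
import Pool.Agent.Helper767.Gjms.P_og_gauge
import Pool.Agent.Helper767.Gjms.P_og_weyl
import Pool.Agent.Helper767.Gjms.P_og_transp
import Pool.Agent.Helper767.Gjms.P_og_ward
import Pool.Agent.Helper767.Gjms.P_og_onshell
import Pool.Agent.Helper767.Gjms.P_bv_linear

set_option linter.all false

open scoped BigOperators

namespace CInv

namespace Z_good_form_v

theorem good_form_v {n r : ℕ} {I : NatOp n} {N : ℕ} {Φ : OpPhi n}
    (hΦ : GoodOp n I N Φ) (hC : ConfPhiI n N Φ) (hI : OnShell I) (ho : ∀ s, OrdGE r (Φ s)) :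
    ∃ B : MvPolynomial (Fin n) ℂ →ₗ[ℂ] MultilinearMap ℂ (fun _ : Fin r => Mx n) ℂ,
      (∀ v h, B v h = BV r Φ v h) ∧ GoodFormV n r B := by
  obtain ⟨B, hB⟩ := bv_linear r Φ
  refine ⟨B, hB, ?_⟩
  constructor
  · intro v h j X
    rw [hB]
    exact og_gauge hΦ ho v h j X
  · intro v h j f
    rw [hB]
    exact og_weyl hΦ hC ho v h j f
  · intro v h j y
    rw [hB, hB]
    exact og_transp hΦ ho v h j y
  · intro X lam hX hl v h
    simp only [hB]
    exact og_ward hΦ hC ho X lam hX hl v h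
  · intro k e h1 h2 h3 h4 a v
    rw [hB]
    exact og_onshell hΦ hI ho v k e h1 h2 h3 h4 a

end Z_good_form_v

alias good_form_v := Z_good_form_v.good_form_v

end CInv
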