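import Pool.Agent.Helper767.Gjms.Defs
import Pool.Agent.Helper771.CInv.P_ord_succ
import Pool.Agent.Helper771.CInv.P_jet_surj
import Pool.Agent.Helper767.Gjms.P_good_form_v
import Pool.Agent.Helper767.Gjms.P_jets_surj
import Pool.Agent.Helper767.Gjms.P_core_v

set_option linter.all false

open scoped BigOperators

namespace CInv

namespace Z_ord_step

theorem ord_step {n r : ℕ} (he : Even n) (hn : 4 ≤ n) (hr : 1 ≤ r) {I : NatOp n} {N : ℕ}
    {Φ : OpPhi n} (hΦ : GoodOp n I N Φ) (hC : ConfPhiI n N Φ) (hI : OnShell I)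
    (ho : ∀ s, OrdGE r (Φ s)) : ∀ s, OrdGE (r + 1) (Φ s) := by
  classical
  intro s
  obtain ⟨B, hB, hG⟩ := good_form_v hΦ hC hI ho
  have hB0 : B = 0 := core_v he hn hr hG
  by_cases hs : s ∈ Φ.support
  swap
  · intro m hm
    rw [Finsupp.notMem_support_iff.1 hs] at hm
    simp at hm
  have hsupp : (MvPolynomial.map (algebraMap ℝ ℂ) (Φ s)).support = (Φ s).support :=
    MvPolynomial.support_map_of_injective (Φ s) (algebraMap ℝ ℂ).injective
  have ho' : OrdGE r (MvPolynomial.map (algebraMap ℝ ℂ) (Φ s)) := by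
    intro m hm
    rw [hsupp] at hm
    exact ho s m hm
  obtain ⟨v, hv⟩ := jets_surj (n := n) (K := ℂ) s
  have h1 : OrdGE (r + 1) (MvPolynomial.map (algebraMap ℝ ℂ) (Φ s)) := by
    refine ord_succ ho' ?_
    intro u
    choose h hh using fun j => jet_surj (u j)
    have h2 := hB v h
    rw [hB0] at h2
    have h3 : (fun i => J0 (h i)) = fun j => Pi.single (u j) 1 := funext hh
    have h4 : BV r Φ v h = polar r (MvPolynomial.map (algebraMap ℝ ℂ) (Φ s))
        (fun i => J0 (h i)) := by
      unfold BV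
      rw [Finsupp.sum, Finset.sum_eq_single s]
      · rw [hv s, if_pos rfl, mul_one]
      · intro t _ hts
        rw [hv t, if_neg hts, mul_zero]
      · intro hns
        exact absurd hs hns
    rw [h4, h3] at h2
    exact h2.symm
  intro m hm
  exact h1 m (by rw [hsupp]; exact hm)

end Z_ord_step

alias ord_step := Z_ord_step.ord_step

end CInv
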