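import Pool.Agent.Helper767.Gjms.Defs
import Pool.Agent.Helper771.CInv.P_pdv_isder
import Pool.Agent.Helper767.Gjms.P_e0_ejet
import Pool.Agent.Helper767.Gjms.P_jets_surj

set_option linter.all false

open scoped BigOperators

namespace CInv

namespace Z_ord_zero

theorem ord_zero_D {n : ℕ} {R : Type} [CommRing R] (i j k : Fin n) :
    pdv i (flat (MvPolynomial (Fin n) R) j k) = 0 := by
  unfold pdv flat
  split_ifs
  · exact MvPolynomial.pderiv_one
  · exact map_zero _

theorem ord_zero_chr {n : ℕ} (gi : Fin n → Fin n → MvPolynomial (Fin n) ℝ) (k i j : Fin n) :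
    chr (fun i => pdv i) (flat (MvPolynomial (Fin n) ℝ)) gi k i j = 0 := by
  unfold chr
  simp only [ord_zero_D, add_zero, sub_zero, mul_zero, Finset.sum_const_zero, smul_zero]

theorem ord_zero_ric {n : ℕ} (gi : Fin n → Fin n → MvPolynomial (Fin n) ℝ) (i j : Fin n) :
    ric (fun i => pdv i) (flat (MvPolynomial (Fin n) ℝ)) gi i j = 0 := by
  have h0 : ∀ k : Fin n, pdv k (0 : MvPolynomial (Fin n) ℝ) = 0 := fun k => map_zero _
  unfold ric
  simp only [ord_zero_chr, h0, sub_zero, mul_zero, Finset.sum_const_zero, add_zero]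

theorem ord_zero_met {n : ℕ} :
    met (fun _ _ : Fin n => (0 : MvPolynomial (Fin n) ℝ)) = flat (MvPolynomial (Fin n) ℝ) := by
  funext i j
  unfold met
  rw [add_zero, smul_zero, add_zero]

theorem ord_zero_J0 {n : ℕ} :
    J0 (fun _ _ : Fin n => (0 : MvPolynomial (Fin n) ℝ)) = (0 : JV n → ℝ) := by
  funext v
  unfold J0
  have h : ∀ w : List (Fin n), Dw pdv w (0 : MvPolynomial (Fin n) ℝ) = 0 := by
    intro w
    induction w with
    | nil => rfl
    | cons i w ih =>
      show pdv i (Dw pdv w (0 : MvPolynomial (Fin n) ℝ)) = 0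
      rw [ih]
      exact map_zero _
  rw [h, map_zero]
  rfl

theorem ord_zero {n : ℕ} {I : NatOp n} {N : ℕ} {Φ : OpPhi n}
    (hΦ : GoodOp n I N Φ) (hI : OnShell I) : ∀ s, OrdGE 1 (Φ s) := by
  classical
  have hmet : IsMetric (met (fun _ _ : Fin n => (0 : MvPolynomial (Fin n) ℝ)))
      (flat (MvPolynomial (Fin n) ℝ)) := by
    rw [ord_zero_met]
    refine ⟨fun i j => ?_, fun i j => ?_⟩
    · unfold flat
      simp only [eq_comm]
    · unfold flat
      simp
  have h1 : ∀ F : MvPolynomial (Fin n) ℝ,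
      E0 Φ (fun _ _ : Fin n => (0 : MvPolynomial (Fin n) ℝ)) F = 0 := by
    intro F
    rw [e0_ejet, hΦ.alg _ _ pdv_isder _ _ hmet F,
      hI _ _ pdv_isder _ _ hmet (by rw [ord_zero_met]; exact ord_zero_ric _) F, mul_zero,
      map_zero]
  intro s
  have h2 : MvPolynomial.constantCoeff (Φ s) = 0 := by
    obtain ⟨F, hF⟩ := jets_surj (n := n) (K := ℝ) s
    have h3 := h1 F
    unfold E0 Finsupp.sum at h3
    by_cases hs : s ∈ Φ.support
    · rw [Finset.sum_eq_single s] at h3
      · simp only [hF, if_true, mul_one, ord_zero_J0, MvPolynomial.aeval_zero] at h3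
        exact h3
      · intro t _ hts
        simp only [hF, if_neg hts, mul_zero]
      · intro h
        exact absurd hs h
    · rw [Finsupp.notMem_support_iff.1 hs, map_zero]
  intro m hm
  by_contra hcon
  have h4 : m.degree = 0 := by omega
  have h5 : m = 0 := (Finsupp.degree_eq_zero_iff m).1 h4
  rw [h5, MvPolynomial.mem_support_iff] at hm
  exact hm h2

end Z_ord_zero

alias ord_zero := Z_ord_zero.ord_zero

end CInv
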