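import Pool.Agent.Helper767.Gjms.Defs
import Pool.Agent.Helper767.Gjms.P_op_phi_exists
import Pool.Agent.Helper767.Gjms.P_confphi_of_confat0
import Pool.Agent.Helper767.Gjms.P_ord_zero
import Pool.Agent.Helper767.Gjms.P_ord_step

set_option linter.all false

open scoped BigOperators

namespace CInv

namespace Z_zero_thm

theorem zero_thm {n : ℕ} (he : Even n) (hn : 4 ≤ n) (I : NatOp n) (hC : ConfAt0 I)
    (hI : OnShell I) (A : Type) [CommRing A] [Algebra ℝ A] (D : Fin n → A → A) (hD : IsDer D)
    (g gi : Fin n → Fin n → A) (hg : IsMetric g gi) (F : A) : I.op A D g gi F = 0 := by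
  obtain ⟨N, Φ, hN, hG⟩ := op_phi_exists I
  have hC' := confphi_of_confat0 hC hG
  have hord : ∀ r : ℕ, ∀ s, OrdGE (r + 1) (Φ s) := by
    intro r
    induction r with
    | zero => exact ord_zero hG hI
    | succ r ih => exact ord_step he hn (by omega) hG hC' hI ih
  have hΦ : Φ = 0 := by
    apply Finsupp.ext
    intro s
    rw [Finsupp.zero_apply]
    by_contra h
    obtain ⟨m, hm⟩ := MvPolynomial.support_nonempty.mpr h
    have := hord m.degree s m hm
    omega
  have hflat : ∀ i j : Fin n, flat A i j = flat A j i := by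
    intro i j
    unfold flat
    by_cases h : i = j
    · rw [if_pos h, if_pos h.symm]
    · rw [if_neg h, if_neg (fun h' => h h'.symm)]
  have hmet : met (fun i j => g i j - flat A i j) = g := by
    funext i j
    unfold met
    beta_reduce
    rw [hg.symm j i, hflat j i, ← two_smul ℝ (g i j - flat A i j), smul_smul]
    norm_num
  have h1 := hG.alg A D hD (fun i j => g i j - flat A i j) gi (by rw [hmet]; exact hg) F
  rw [hmet, hΦ] at h1
  have h2 : Ejet (0 : OpPhi n) D (fun i j => g i j - flat A i j) F = 0 := by
    unfold Ejet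
    exact Finsupp.sum_zero_index
  rw [h2] at h1
  have h3 : Matrix.of g * Matrix.of gi = 1 := by
    ext i j
    rw [Matrix.mul_apply, Matrix.one_apply]
    exact hg.inv i j
  have h4 : (Matrix.of g).det * (Matrix.of gi).det = 1 := by
    rw [← Matrix.det_mul, h3, Matrix.det_one]
  calc I.op A D g gi F = ((Matrix.of g).det * (Matrix.of gi).det) ^ N * I.op A D g gi F := by
        rw [h4, one_pow, one_mul]
    _ = (Matrix.of gi).det ^ N * ((Matrix.of g).det ^ N * I.op A D g gi F) := by
        rw [mul_pow]; ring
    _ = 0 := by rw [← h1, mul_zero]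

end Z_zero_thm

alias zero_thm := Z_zero_thm.zero_thm

end CInv
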