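import Pool.Agent.Helper767.Gjms.Defs3
import Pool.Agent.Helper771.CInv.P_gi_symm
import Pool.Agent.Helper771.CInv.P_pdv_isder
import Pool.Agent.Helper767.Gjms.P_zero_thm
import Pool.Agent.Helper767.Gjms.P_natop_inv
import Pool.Agent.Helper767.Gjms.P_natop_lap
import Pool.Agent.Helper767.Gjms.P_natop_comb
import Pool.Agent.Helper767.Gjms.P_oi_onshell
import Pool.Agent.Helper767.Gjms.P_oc_weight
import Pool.Agent.Helper767.Gjms.P_homog_red
import Pool.Agent.Helper767.Gjms.P_pm_of_m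
import Pool.Agent.Helper767.Gjms.P_dens
import Pool.Agent.Helper767.Gjms.P_confat0_of_real
import Pool.Agent.Helper767.Gjms.P_natop_gjms
import Pool.Agent.Helper767.Gjms.P_gjms_flat
import Pool.Agent.Helper767.Gjms.P_gjms_conf

set_option linter.all false

open scoped BigOperators

namespace CInv

namespace Z_opd_alg

theorem oa_add {n : ℕ} {A : Type} [CommRing A] [Algebra ℝ A] (c1 c2 : OpContraction →₀ ℝ)
    (D : Fin n → A → A) (g gi : Fin n → Fin n → A) (F : A) :
    opInv (c1 + c2) D g gi F = opInv c1 D g gi F + opInv c2 D g gi F := by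
  unfold opInv
  exact Finsupp.sum_add_index' (fun _ => zero_smul _ _) (fun _ _ _ => add_smul _ _ _)

theorem oa_confJ {n : ℕ} (he : Even n) (hn : 4 ≤ n) (J : NatOp n)
    (hJ : ∀ (A : Type) [CommRing A] [Algebra ℝ A] (D : Fin n → A → A)
      (g gi : Fin n → Fin n → A) (F : A), J.op A D g gi F = gjms D g gi F) : ConfAt0 J := by
  intro R _ _ s hs H gi hH f F
  rw [hJ, hJ]
  have hCs : (MvPolynomial.C s : MvPolynomial (Fin n) R) * MvPolynomial.C s = 0 := by
    rw [← map_mul, hs, map_zero]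
  have h := gjms_conf he hn (pdv_isder (n := n) (R := R)) hH (MvPolynomial.C s) hCs
    (fun i => MvPolynomial.pderiv_C) f F
  rw [h, map_mul, map_sub, map_one, MvPolynomial.constantCoeff_smul, map_mul,
    MvPolynomial.constantCoeff_C]

theorem oa_confK {n : ℕ} (I J K : NatOp n) (hI : ConfAt0 I) (hJ : ConfAt0 J)
    (hK : ∀ (A : Type) [CommRing A] [Algebra ℝ A] (D : Fin n → A → A)
      (g gi : Fin n → Fin n → A) (F : A),
      K.op A D g gi F = (1 : ℝ) • I.op A D g gi F + (-1 : ℝ) • J.op A D g gi F) :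
    ConfAt0 K := by
  intro R _ _ s hs H gi hH f F
  rw [hK, hK]
  simp only [map_add, MvPolynomial.constantCoeff_smul, one_smul, neg_smul, map_neg]
  rw [hI R s hs H gi hH f F, hJ R s hs H gi hH f F]
  ring

theorem opd_alg {n : ℕ} (he : Even n) (hn : 4 ≤ n) (c : OpContraction →₀ ℝ)
    (hk : ∀ C ∈ c.support, C.k < n)
    (hc : ∀ (U : Set (Fin n → ℝ)), IsOpen U → ∀ g : (Fin n → ℝ) → Matrix (Fin n) (Fin n) ℝ,
      IsMetricOn U g → ∀ ω : (Fin n → ℝ) → ℝ, ContDiffOn ℝ (⊤ : ℕ∞) ω U →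
      ∀ f : (Fin n → ℝ) → ℝ, ContDiffOn ℝ (⊤ : ℕ∞) f U → ∀ x ∈ U,
        opVal c (fun y => Real.exp (2 * ω y) • g y) f x
          = Real.exp (-(n : ℝ) * ω x) * opVal c g f x)
    (A : Type) [CommRing A] [Algebra ℝ A] (D : Fin n → A → A) (hD : IsDer D)
    (g gi : Fin n → Fin n → A) (hg : IsMetric g gi) (F : A) :
    opD c D g gi F = gjms D g gi F := by
  classical
  set c1 := c.filter (fun C => 2 * C.m = n) with hc1
  set c2 := c.filter (fun C => ¬ 2 * C.m = n) with hc2
  have hcc : c1 + c2 = c := Finsupp.filter_pos_add_filter_neg c _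
  have hc2' : ∀ C, c2 C = if 2 * C.m = n then 0 else c C := by
    intro C
    rw [hc2, Finsupp.filter_apply]
    by_cases h : 2 * C.m = n
    · simp [h]
    · simp [h]
  obtain ⟨I2, hI2⟩ := natop_inv (n := n) c2
  have hz2 : ∀ (A : Type) [CommRing A] [Algebra ℝ A] (D : Fin n → A → A), IsDer D →
      ∀ (g gi : Fin n → Fin n → A), IsMetric g gi → ∀ F : A, opInv c2 D g gi F = 0 := by
    intro A _ _ D hD g gi hg F
    rw [← hI2]
    apply dens I2 _ A D hD g gi hg F
    intro U hU g hg f hf x hx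
    rw [hI2]
    exact homog_red he c hc c2 hc2' U hU g hg f hf x hx
  obtain ⟨IL, hIL⟩ := natop_lap (n := n) (n / 2)
  obtain ⟨IC, hIC⟩ := natop_inv (n := n) c1
  obtain ⟨I1, hI1⟩ := natop_comb IL IC 1 1
  obtain ⟨J, hJ⟩ := natop_gjms (n := n) hn
  obtain ⟨K, hK⟩ := natop_comb I1 J 1 (-1)
  have hI1' : ∀ (A : Type) [CommRing A] [Algebra ℝ A] (D : Fin n → A → A)
      (g gi : Fin n → Fin n → A) (F : A),
      I1.op A D g gi F = (lap D g gi)^[n / 2] F + opInv c1 D g gi F := by
    intro A _ _ D g gi F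
    rw [hI1, hIL, hIC, one_smul, one_smul]
  -- value on Riemannian metrics
  have hval : ∀ (U : Set (Fin n → ℝ)), IsOpen U →
      ∀ g : (Fin n → ℝ) → Matrix (Fin n) (Fin n) ℝ, IsMetricOn U g →
      ∀ f : (Fin n → ℝ) → ℝ, ContDiffOn ℝ (⊤ : ℕ∞) f U → ∀ x ∈ U,
        I1.op ((Fin n → ℝ) → ℝ) pd (fun i j y => g y i j) (fun i j y => (g y)⁻¹ i j) f x =
          opVal c g f x := by
    intro U hU g hg f hf x hx
    rw [hI1']
    unfold opVal opD
    have h0 := homog_red he c hc c2 hc2' U hU g hg f hf x hx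
    have h1 : opInv c pd (fun i j y => g y i j) (fun i j y => (g y)⁻¹ i j) f x =
        opInv c1 pd (fun i j y => g y i j) (fun i j y => (g y)⁻¹ i j) f x +
        opInv c2 pd (fun i j y => g y i j) (fun i j y => (g y)⁻¹ i j) f x := by
      rw [← Pi.add_apply, ← oa_add, hcc]
    rw [Pi.add_apply, Pi.add_apply, h1, h0, add_zero]
  have hRC : RealConf I1 := by
    intro U hU g hg ω hω f hf x hx
    have h1 := hval U hU (fun y => Real.exp (2 * ω y) • g y) ((pm_of_m hg).2 ω hω) f hf x hx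
    have h2 := hval U hU g hg f hf x hx
    rw [h2, ← hc U hU g hg ω hω f hf x hx]
    exact h1
  have hCK : ConfAt0 K := oa_confK I1 J K (confat0_of_real he hRC) (oa_confJ he hn J hJ) hK
  have hOK : OnShell K := by
    intro A _ _ D hD g gi hg hr F
    rw [hK, hI1', hJ, gjms_flat hD hg hr F]
    have h0 : opInv c1 D g gi F = 0 := by
      apply oi_onshell hD hr c1
      intro C hC
      rw [hc1, Finsupp.support_filter, Finset.mem_filter] at hC
      exact oc_weight C (hk C hC.1) hC.2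
    rw [h0, add_zero, one_smul, neg_smul, one_smul, add_neg_cancel]
  have hfin := zero_thm he hn K hCK hOK A D hD g gi hg F
  rw [hK, hI1', hJ, one_smul, neg_smul, one_smul] at hfin
  have h3 : (lap D g gi)^[n / 2] F + opInv c1 D g gi F = gjms D g gi F := by
    rw [← sub_eq_add_neg] at hfin
    exact sub_eq_zero.1 hfin
  unfold opD
  rw [← hcc, oa_add, hz2 A D hD g gi hg F, add_zero]
  exact h3

end Z_opd_alg

alias opd_alg := Z_opd_alg.opd_alg

end CInv
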