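import Pool.Agent.Helper767.Gjms.Defs3
import Pool.Agent.Helper771.CInv.P_gi_symm
import Pool.Agent.Helper767.Gjms.P_sm_exists
import Pool.Agent.Helper767.Gjms.P_sm_rel
import Pool.Agent.Helper767.Gjms.P_sm_inv
import Pool.Agent.Helper767.Gjms.P_lap_rel
import Pool.Agent.Helper767.Gjms.P_oi_rel
import Pool.Agent.Helper767.Gjms.P_gjms_real
import Pool.Agent.Helper767.Gjms.P_opd_alg

set_option linter.all false

open scoped BigOperators

namespace CInv

namespace Z_gj_main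

theorem gj_main (n : ℕ) (he : Even n) (hn : 4 ≤ n) (c : OpContraction →₀ ℝ)
    (hk : ∀ C ∈ c.support, C.k < n)
    (hc : ∀ (U : Set (Fin n → ℝ)), IsOpen U → ∀ g : (Fin n → ℝ) → Matrix (Fin n) (Fin n) ℝ,
      IsMetricOn U g → ∀ ω : (Fin n → ℝ) → ℝ, ContDiffOn ℝ (⊤ : ℕ∞) ω U →
      ∀ f : (Fin n → ℝ) → ℝ, ContDiffOn ℝ (⊤ : ℕ∞) f U → ∀ x ∈ U,
        opVal c (fun y => Real.exp (2 * ω y) • g y) f x
          = Real.exp (-(n : ℝ) * ω x) * opVal c g f x)
    (U : Set (Fin n → ℝ)) (hU : IsOpen U) (g : (Fin n → ℝ) → Matrix (Fin n) (Fin n) ℝ)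
    (hg : IsPMetricOn U g) (G : ℝ → (Fin n → ℝ) → Matrix (Fin n) (Fin n) ℝ)
    (hG : IsAmbient U g G) (F : ℝ → (Fin n → ℝ) → ℝ) (hF : SmoothNear U F) (x : Fin n → ℝ)
    (hx : x ∈ U) :
    opVal c g (F 0) x = (ambLap G)^[n / 2] (fun X => F (X 1) (xpart X)) (apt 1 x) := by
  classical
  obtain ⟨A, iA, jA, D, ev, hinj, hder, hsurj, hrep, hcomp⟩ := sm_exists hU
  have hA : SmRing U D ev := ⟨hU, hinj, hder, hsurj, hrep, hcomp⟩
  obtain ⟨hi1, hi2, hi3⟩ := sm_inv hU hg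
  choose gA hgA using fun i j => hsurj (fun x => g x i j) (hg.smooth i j)
  choose giA hgiA using fun i j => hsurj (fun x => (g x)⁻¹ i j) (hi1 i j)
  have hF0 : ContDiffOn ℝ (⊤ : ℕ∞) (F 0) U := by
    obtain ⟨V, hV, hUV, hFV⟩ := hF
    have h1 : ContDiffOn ℝ (⊤ : ℕ∞) (fun x : Fin n → ℝ => ((0 : ℝ), x)) U :=
      (contDiff_const.prodMk contDiff_id).contDiffOn
    exact hFV.comp h1 (fun x hx => hUV x hx)
  obtain ⟨fA, hfA⟩ := hsurj (F 0) hF0
  have hm : IsMetric gA giA := by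
    constructor
    · intro i j
      apply hinj
      funext y
      rw [hgA i j y, hgA j i y]
      exact hg.symm y y.2 i j
    · intro i j
      apply hinj
      funext y
      have h1 := hi2 y y.2 i j
      have h2 : ev (∑ k, gA i k * giA k j) y = ∑ k, g y i k * (g y)⁻¹ k j := by
        rw [map_sum, Finset.sum_apply]
        refine Finset.sum_congr rfl (fun k _ => ?_)
        rw [map_mul, Pi.mul_apply, hgA i k y, hgiA k j y]
      rw [h2, h1]
      split_ifs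
      · rw [map_one, Pi.one_apply]
      · rw [map_zero, Pi.zero_apply]
  have hR := sm_rel hU hder hcomp
  have hRg : ∀ i j, ContDiffOn ℝ (⊤ : ℕ∞) (fun y => g y i j) U ∧ ∀ x : U, ev (gA i j) x = g x i j :=
    fun i j => ⟨hg.smooth i j, hgA i j⟩
  have hRgi : ∀ i j, ContDiffOn ℝ (⊤ : ℕ∞) (fun y => (g y)⁻¹ i j) U ∧
      ∀ x : U, ev (giA i j) x = (g x)⁻¹ i j :=
    fun i j => ⟨hi1 i j, hgiA i j⟩
  have hit : ∀ k : ℕ, ContDiffOn ℝ (⊤ : ℕ∞)
      ((lap pd (fun i j y => g y i j) (fun i j y => (g y)⁻¹ i j))^[k] (F 0)) U ∧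
      ∀ x : U, ev ((lap D gA giA)^[k] fA) x
        = (lap pd (fun i j y => g y i j) (fun i j y => (g y)⁻¹ i j))^[k] (F 0) x := by
    intro k
    induction k with
    | zero => exact ⟨hF0, hfA⟩
    | succ k ih =>
      have h := lap_rel hR hRg hRgi ih
      rw [Function.iterate_succ_apply', Function.iterate_succ_apply']
      exact h
  have hoi := oi_rel hR hRg hRgi (⟨hF0, hfA⟩ : ContDiffOn ℝ (⊤ : ℕ∞) (F 0) U ∧ ∀ x : U, ev fA x = F 0 x) c
  have hadd := hR.add (hit (n / 2)) hoi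
  have h1 : opVal c g (F 0) x = ev (opD c D gA giA fA) ⟨x, hx⟩ := (hadd.2 ⟨x, hx⟩).symm
  rw [h1, opd_alg he hn c hk hc A D hder gA giA hm fA]
  exact (gjms_real he hn hA hg hm hgA hG F hF fA hfA ⟨x, hx⟩).symm

end Z_gj_main

alias gj_main := Z_gj_main.gj_main

end CInv
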